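import Mathlib

set_option autoImplicit false

namespace Pool.Agent.OH

/-- The operator `∏ (1 + τ_k)` over a list. -/
def A1Pi {A K : Type} [AddCommGroup A] (τ : K → A →+ A) : List K → A →+ A
  | [] => AddMonoidHom.id A
  | k :: L => (AddMonoidHom.id A + τ k).comp (A1Pi τ L)

lemma A1Pi_cons {A K : Type} [AddCommGroup A] (τ : K → A →+ A) (k : K) (L : List K) (x : A) :
    A1Pi τ (k :: L) x = A1Pi τ L x + τ k (A1Pi τ L x) := rfl

/-- The abstract convergence argument of (8.2), (8.3): `Π = ∏ (1 + τ_k)`.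
`Π (H j) ≤ H (j+1) ⊔ Mt` and `Π w ≡ w mod Mt`. -/
theorem abs_pi {A K : Type} [AddCommGroup A] [Finite K] (h2 : ∀ x : A, x + x = 0)
    (τ : K → A →+ A) (Mt : AddSubgroup A) (hMt : ∀ k x, x ∈ Mt → τ k x ∈ Mt)
    (H : ℕ → AddSubgroup A) (hHτ : ∀ j k x, x ∈ H j → τ k x ∈ H j)
    (N : ℕ) (hN : H N ≤ Mt) (G : ℕ → Set A)
    (hG : ∀ j, H j ≤ AddSubgroup.closure (G j) ⊔ H (j + 1) ⊔ Mt)
    (hx : ∀ j, ∀ x ∈ G j, x ∈ Mt ∨ ∃ k, τ k x - x ∈ H (j + 1))
    (hx' : ∀ j, ∀ x ∈ G j, ∀ k, τ k x - x ∈ H (j + 1) ∨ τ k x ∈ H (j + 1))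
    (w : A) (hw : w ∈ H 0) (hwM : ∀ k, τ k w ∈ Mt) : w ∈ Mt := by
  classical
  obtain ⟨hfin⟩ := nonempty_fintype K
  -- stability of subgroups under `A1Pi`
  have hstab : ∀ (B : AddSubgroup A), (∀ k x, x ∈ B → τ k x ∈ B) → ∀ (L : List K) (x : A),
      x ∈ B → A1Pi τ L x ∈ B := by
    intro B hB L
    induction L with
    | nil => intro x hx; exact hx
    | cons k L ih => intro x hx; rw [A1Pi_cons]; exact B.add_mem (ih x hx) (hB k _ (ih x hx))
  -- for generators
  have key1 : ∀ j, ∀ x ∈ G j, ∀ L : List K,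
      A1Pi τ L x - x ∈ H (j + 1) ∨ A1Pi τ L x ∈ H (j + 1) := by
    intro j x hxG L
    induction L with
    | nil => left; simp only [A1Pi, AddMonoidHom.id_apply, sub_self]; exact zero_mem _
    | cons k L ih =>
      rw [A1Pi_cons]
      rcases ih with ih | ih
      · have h3 : τ k (A1Pi τ L x) - τ k x ∈ H (j + 1) := by
          rw [← map_sub]; exact hHτ _ k _ ih
        rcases hx' j x hxG k with h | h
        · right
          have e : A1Pi τ L x + τ k (A1Pi τ L x) =
              (A1Pi τ L x - x) + (τ k (A1Pi τ L x) - τ k x) + (τ k x - x) + (x + x) := by abel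
          rw [e, h2 x, add_zero]
          exact add_mem (add_mem ih h3) h
        · left
          have e : A1Pi τ L x + τ k (A1Pi τ L x) - x =
              (A1Pi τ L x - x) + (τ k (A1Pi τ L x) - τ k x) + τ k x := by abel
          rw [e]
          exact add_mem (add_mem ih h3) h
      · right; exact add_mem ih (hHτ _ k _ ih)
  have key2 : ∀ j, ∀ x ∈ G j, ∀ k, τ k x - x ∈ H (j + 1) → ∀ L : List K, k ∈ L →
      A1Pi τ L x ∈ H (j + 1) := by
    intro j x hxG k hk L
    induction L with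
    | nil => intro h; exact absurd h (List.not_mem_nil)
    | cons k' L ih =>
      intro hkL
      rw [A1Pi_cons]
      rcases List.mem_cons.mp hkL with rfl | hkL
      · rcases key1 j x hxG L with h | h
        · have h3 : τ k (A1Pi τ L x) - τ k x ∈ H (j + 1) := by
            rw [← map_sub]; exact hHτ _ k _ h
          have e : A1Pi τ L x + τ k (A1Pi τ L x) =
              (A1Pi τ L x - x) + (τ k (A1Pi τ L x) - τ k x) + (τ k x - x) + (x + x) := by abel
          rw [e, h2 x, add_zero]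
          exact add_mem (add_mem h h3) hk
        · exact add_mem h (hHτ _ k _ h)
      · exact add_mem (ih hkL) (hHτ _ k' _ (ih hkL))
  -- the full operator
  set P : A →+ A := A1Pi τ (Finset.univ : Finset K).toList with hP
  have hPM : ∀ x ∈ Mt, P x ∈ Mt := hstab Mt hMt _
  have hPG : ∀ j, ∀ x ∈ G j, P x ∈ H (j + 1) ⊔ Mt := by
    intro j x hxG
    rcases hx j x hxG with h | ⟨k, hk⟩
    · exact (le_sup_right : Mt ≤ H (j + 1) ⊔ Mt) (hPM x h)
    · exact (le_sup_left : H (j + 1) ≤ H (j + 1) ⊔ Mt)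
        (key2 j x hxG k hk _ (by simp))
  have hPH : ∀ j, ∀ x ∈ H j ⊔ Mt, P x ∈ H (j + 1) ⊔ Mt := by
    intro j
    have h1 : AddSubgroup.closure (G j) ≤ (H (j + 1) ⊔ Mt).comap P := by
      rw [AddSubgroup.closure_le]
      intro x hxG
      exact hPG j x hxG
    have h3 : H (j + 1) ≤ (H (j + 1) ⊔ Mt).comap P := fun x hx =>
      (le_sup_left : H (j + 1) ≤ H (j + 1) ⊔ Mt) (hstab (H (j + 1)) (hHτ (j + 1)) _ x hx)
    have h4 : Mt ≤ (H (j + 1) ⊔ Mt).comap P := fun x hx =>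
      (le_sup_right : Mt ≤ H (j + 1) ⊔ Mt) (hPM x hx)
    have h5 : H j ⊔ Mt ≤ (H (j + 1) ⊔ Mt).comap P :=
      sup_le ((hG j).trans (sup_le (sup_le h1 h3) h4)) h4
    exact fun x hx => h5 hx
  have hit : ∀ i, ∀ x ∈ H 0 ⊔ Mt, (P^[i]) x ∈ H i ⊔ Mt := by
    intro i
    induction i with
    | zero => intro x hx; exact hx
    | succ i ih =>
      intro x hx
      rw [Function.iterate_succ_apply']
      exact hPH i _ (ih x hx)
  -- `P w ≡ w`
  have hcong : ∀ x, (∀ k, τ k x ∈ Mt) → ∀ L : List K, A1Pi τ L x - x ∈ Mt := by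
    intro x hxM L
    induction L with
    | nil => simp only [A1Pi, AddMonoidHom.id_apply, sub_self]; exact zero_mem _
    | cons k L ih =>
      rw [A1Pi_cons]
      have h3 : τ k (A1Pi τ L x) - τ k x ∈ Mt := by
        rw [← map_sub]; exact hMt k _ ih
      have e : A1Pi τ L x + τ k (A1Pi τ L x) - x =
          (A1Pi τ L x - x) + (τ k (A1Pi τ L x) - τ k x) + τ k x := by abel
      rw [e]
      exact add_mem (add_mem ih h3) (hxM k)
  have hit2 : ∀ i, (P^[i]) w - w ∈ Mt ∧ ∀ k, τ k ((P^[i]) w) ∈ Mt := by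
    intro i
    induction i with
    | zero => exact ⟨by simp, hwM⟩
    | succ i ih =>
      rw [Function.iterate_succ_apply']
      obtain ⟨ih1, ih2⟩ := ih
      have h3 : P ((P^[i]) w) - (P^[i]) w ∈ Mt := hcong _ ih2 _
      refine ⟨?_, fun k => ?_⟩
      · have e : P ((P^[i]) w) - w = (P ((P^[i]) w) - (P^[i]) w) + ((P^[i]) w - w) := by abel
        rw [e]; exact add_mem h3 ih1
      · have e : τ k (P ((P^[i]) w)) = τ k (P ((P^[i]) w) - (P^[i]) w) + τ k ((P^[i]) w) := by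
          rw [← map_add, sub_add_cancel]
        rw [e]; exact add_mem (hMt k _ h3) (ih2 k)
  have hfinal : (P^[N]) w ∈ Mt := by
    have h := hit N w ((le_sup_left : H 0 ≤ H 0 ⊔ Mt) hw)
    rwa [sup_eq_right.mpr hN] at h
  have h := Mt.sub_mem hfinal (hit2 N).1
  rwa [sub_sub_cancel] at h

end Pool.Agent.OH
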