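import Pool.Agent.OH.F2

set_option autoImplicit false
set_option linter.unusedSectionVars false

namespace Pool.Agent.OH

namespace C1aux

variable {l n l' n' : ℕ}

lemma dd_act (f : E n) (w : T l n) (i : Fin l) (a : E n) :
    dd (act f w) (i, a) = lbar (act f) (dd w (i, a - f)) := by
  rw [dd_map]
  simp only [pstar, AddMonoidHom.coe_mk, ZeroHom.coe_mk, act_of, dd_of]
  rw [Finset.sum_eq_single (i, a - f)]
  · simp
  · rintro ⟨j, b⟩ _ hb
    have h : ((i, a) : Fin l × E n) ≠ (j, f + b) := by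
      intro h
      rw [Prod.mk.injEq] at h
      apply hb
      rw [h.1, h.2]
      simp
    rw [Pi.single_eq_of_ne h, mul_zero]
  · simp

lemma lbar_act_act (e e' : E n) (f : Lam (Fin l × E n)) :
    lbar (act e) (lbar (act e') f) = lbar (act (e + e')) f := by
  have h : ((act e).comp (act e') : T l n →* T l n) = act (e + e') := by
    ext1 p; simp [add_assoc]
  rw [← h, lbar_comp]

lemma lbar_act_thom (ρ : E n →+ E n') (t : Fin l → T l' n') (e : E n)
    (f : Lam (Fin l × E n)) :
    lbar (act (ρ e)) (lbar (thom ρ t) f) = lbar (thom ρ t) (lbar (act e) f) := by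
  have h : ((act (ρ e)).comp (thom ρ t) : T l n →* T l' n') = (thom ρ t).comp (act e) := by
    ext1 p; simp [act_act]
  rw [← lbar_comp, ← lbar_comp, h]

lemma ppstar_act (e : E n) (m : Fin l × E n → Fin l × E n → Lam (Fin l × E n))
    (i j : Fin l) (a b : E n) :
    ppstar (act e) m (i, a) (j, b) = lbar (act e) (m (i, a - e) (j, b - e)) := by
  simp only [ppstar, AddMonoidHom.coe_mk, ZeroHom.coe_mk, act_of, dd_of]
  rw [Finset.sum_eq_single (i, a - e)]
  · rw [Finset.sum_eq_single (j, b - e)]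
    · simp
    · rintro ⟨k, c⟩ _ hb
      have h : ((j, b) : Fin l × E n) ≠ (k, e + c) := by
        intro h
        rw [Prod.mk.injEq] at h
        apply hb
        rw [h.1, h.2]
        simp
      rw [Pi.single_eq_of_ne h, mul_zero, mul_zero]
    · simp
  · rintro ⟨k, c⟩ _ hb
    have h : ((i, a) : Fin l × E n) ≠ (k, e + c) := by
      intro h
      rw [Prod.mk.injEq] at h
      apply hb
      rw [h.1, h.2]
      simp
    refine Finset.sum_eq_zero fun q _ => ?_
    rw [Pi.single_eq_of_ne h, zero_mul, mul_zero]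
  · simp

lemma F0_act (e : E n) (m : Fin l × E n → Fin l × E n → Lam (Fin l × E n))
    (i j : Fin l) (g : E n) : F0 (ppstar (act e) m) i j g = F0 m i j g := by
  unfold F0
  rw [← Equiv.sum_comp (Equiv.subRight e) (fun a => lbar (act (-a)) (m (i, a) (j, a + g)))]
  refine Finset.sum_congr rfl fun a _ => ?_
  rw [ppstar_act, lbar_act_act, Equiv.subRight_apply]
  have h1 : -a + e = -(a - e) := by abel
  have h2 : a + g - e = a - e + g := by abel
  rw [h1, h2]

end C1aux

open C1aux

/-- `m + e.m ∈ C`. -/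
theorem CC_act {l n : ℕ} (e : E n) (m : Fin l × E n → Fin l × E n → Lam (Fin l × E n)) :
    m + ppstar (act e) m ∈ CC l n := by
  rw [mem_CC]
  intro i j g
  have h : F0 (m + ppstar (act e) m) i j g = F0 m i j g + F0 (ppstar (act e) m) i j g := by
    simp [F0, Finset.sum_add_distrib]
  rw [h, F0_act, lam_add_self]

/-- `θ_* C ≤ C'`. -/
theorem CC_thom {l n l' n' : ℕ} (ρ : E n →+ E n') (t : Fin l → T l' n')
    (m : Fin l × E n → Fin l × E n → Lam (Fin l × E n)) (hm : m ∈ CC l n) :
    ppstar (thom ρ t) m ∈ CC l' n' := by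
  rw [mem_CC] at hm ⊢
  intro i' j' g'
  -- the term attached to `i`, `e`, `j`, `g`
  set X : E n' → Fin l → E n → Fin l → E n → Lam (Fin l' × E n') := fun a i e j g =>
    lbar (act (-a)) (lbar (thom ρ t) (m (i, e) (j, e + g)) *
      (dd (act (ρ e) (t i)) (i', a) * dd (act (ρ (e + g)) (t j)) (j', a + g'))) with hX
  have h1 : F0 (ppstar (thom ρ t) m) i' j' g' = ∑ a, ∑ i, ∑ e, ∑ j, ∑ g, X a i e j g := by
    unfold F0
    refine Finset.sum_congr rfl fun a _ => ?_
    simp only [ppstar, AddMonoidHom.coe_mk, ZeroHom.coe_mk, thom_of, map_sum, hX]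
    rw [Fintype.sum_prod_type]
    refine Finset.sum_congr rfl fun i _ => Finset.sum_congr rfl fun e _ => ?_
    rw [Fintype.sum_prod_type]
    refine Finset.sum_congr rfl fun j _ => ?_
    rw [← Equiv.sum_comp (Equiv.addLeft e)]
    rfl
  set K : Fin l → Fin l → E n → E n' → Lam (Fin l' × E n') := fun i j g c =>
    lbar (act (-c)) (dd (t i) (i', c)) *
      lbar (act (-c + ρ g)) (dd (t j) (j', c + g' - ρ g)) with hK
  have h2 : ∀ i j g e, ∑ a, X a i e j g =
      ∑ c, lbar (act (-c)) (lbar (thom ρ t) (lbar (act (-e)) (m (i, e) (j, e + g)))) *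
        K i j g c := by
    intro i j g e
    rw [← Equiv.sum_comp (Equiv.addRight (ρ e)) (fun a => X a i e j g)]
    refine Finset.sum_congr rfl fun c _ => ?_
    simp only [hX, hK, Equiv.coe_addRight, map_mul, dd_act, lbar_act_act]
    rw [← lbar_act_thom, lbar_act_act]
    have e1 : -(c + ρ e) = -c + ρ (-e) := by rw [map_neg]; abel
    have e2 : -(c + ρ e) + ρ e = -c := by abel
    have e3 : c + ρ e - ρ e = c := by abel
    have e4 : -(c + ρ e) + ρ (e + g) = -c + ρ g := by rw [map_add]; abel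
    have e5 : c + ρ e + g' - ρ (e + g) = c + g' - ρ g := by rw [map_add]; abel
    rw [e2, e3, e4, e5, e1]
  have h3 : ∀ i j g, ∑ e, ∑ a, X a i e j g = 0 := by
    intro i j g
    simp only [h2]
    rw [Finset.sum_comm]
    refine Finset.sum_eq_zero fun c _ => ?_
    rw [← Finset.sum_mul]
    have h : ∑ e, lbar (act (-c)) (lbar (thom ρ t) (lbar (act (-e)) (m (i, e) (j, e + g)))) =
        lbar (act (-c)) (lbar (thom ρ t) (F0 m i j g)) := by
      simp only [F0, map_sum]
    rw [h, hm i j g, map_zero, map_zero, zero_mul]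
  rw [h1]
  calc ∑ a, ∑ i, ∑ e, ∑ j, ∑ g, X a i e j g
      = ∑ i, ∑ j, ∑ g, ∑ e, ∑ a, X a i e j g := by
        rw [Finset.sum_comm]
        refine Finset.sum_congr rfl fun i _ => ?_
        rw [Finset.sum_comm]
        have : ∀ e, ∑ a, ∑ j, ∑ g, X a i e j g = ∑ j, ∑ g, ∑ a, X a i e j g := by
          intro e
          rw [Finset.sum_comm]
          refine Finset.sum_congr rfl fun j _ => ?_
          rw [Finset.sum_comm]
        simp only [this]
        rw [Finset.sum_comm]
        refine Finset.sum_congr rfl fun j _ => ?_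
        rw [Finset.sum_comm]
    _ = 0 := by
        refine Finset.sum_eq_zero fun i _ => Finset.sum_eq_zero fun j _ =>
          Finset.sum_eq_zero fun g _ => h3 i j g

/-- The family `T_4`. -/
noncomputable def T4 : TIF where
  S l n :=
    { carrier := {w | (bar w = 0 ∧ dd w = 0) ∧ BB w ∈ CC l n}
      mul_mem' := by
        rintro a b ⟨ha, ha'⟩ ⟨hb, hb'⟩
        refine ⟨(T3.S l n).mul_mem ha hb, ?_⟩
        have h : BB (a * b) = BB a + BB b := by
          funext i j
          rw [BB_mul, ha.2]; simp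
        rw [h]; exact add_mem ha' hb'
      one_mem' := ⟨(T3.S l n).one_mem, by rw [BB_one]; exact zero_mem _⟩
      inv_mem' := by
        rintro a ⟨ha, ha'⟩
        refine ⟨(T3.S l n).inv_mem ha, ?_⟩
        have h : BB a⁻¹ = BB a := by
          funext i j
          rw [BB_inv, ha.2]; simp
        rw [h]; exact ha' }
  normal := by
    rintro l n w ⟨hw, hw'⟩ t
    refine ⟨T3.normal l n w hw t, ?_⟩
    have h : BB (t * w * t⁻¹) = BB w := by
      funext i j
      rw [BB_conj t w hw.1, hw.2]; simp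
    rw [h]; exact hw'
  thom_mem := by
    rintro l n l' n' ρ t w ⟨hw, hw'⟩
    refine ⟨T3.thom_mem l n l' n' ρ t w hw, ?_⟩
    rw [BB_map _ _ hw.1]
    exact CC_thom ρ t _ hw'

lemma mem_T4 {l n : ℕ} (w : T l n) :
    w ∈ T4.S l n ↔ (bar w = 0 ∧ dd w = 0) ∧ BB w ∈ CC l n := Iff.rfl

end Pool.Agent.OH
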