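import Pool.Agent.OH.TX

set_option autoImplicit false
set_option linter.unusedSectionVars false

namespace Pool.Agent.OH

variable (rk : ℕ → Ordinal.{0}) (X : Set (Finset ℕ))

/-- The pairing of `M(l,n)` with a form `F` on `U_s` through an equivariant map `φ`. -/
noncomputable def pairF (s : Shape) (F : s.W → s.W → F4) {l : ℕ} (φ : U l s.n →+ s.W)
    (w : T l s.n) : F4 :=
  ∑ i, zz i (fun u => F (φ (Pi.single (i, 0) 1)) (φ u)) w

namespace DM1aux

lemma zz_add {l n : ℕ} (i : Fin l) (f f' : U l n → F4) (w : T l n) :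
    zz i (fun u => f u + f' u) w = zz i f w + zz i f' w := by
  unfold zz
  rw [← Finset.sum_add_distrib]
  exact Finset.sum_congr rfl fun e _ => za_add _ _ _ _

lemma zz_smul {l n : ℕ} (i : Fin l) (c : F4) (f : U l n → F4) (w : T l n) :
    zz i (fun u => c * f u) w = c * zz i f w := by
  unfold zz
  rw [Finset.mul_sum]
  exact Finset.sum_congr rfl fun e _ => za_smul _ _ _ _

lemma pairF_add (s : Shape) (F F' : s.W → s.W → F4) {l : ℕ} (φ : U l s.n →+ s.W)
    (w : T l s.n) : pairF s (F + F') φ w = pairF s F φ w + pairF s F' φ w := by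
  unfold pairF
  rw [← Finset.sum_add_distrib]
  exact Finset.sum_congr rfl fun i _ => zz_add i _ _ w

lemma pairF_smul (s : Shape) (c : F4) (F : s.W → s.W → F4) {l : ℕ} (φ : U l s.n →+ s.W)
    (w : T l s.n) : pairF s (c • F) φ w = c * pairF s F φ w := by
  unfold pairF
  rw [Finset.mul_sum]
  exact Finset.sum_congr rfl fun i _ => zz_smul i c _ w

lemma pairF_zero (s : Shape) {l : ℕ} (φ : U l s.n →+ s.W) (w : T l s.n) :
    pairF s 0 φ w = 0 := by
  have h := pairF_smul s 0 0 φ w
  rwa [zero_smul, zero_mul] at h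

lemma isForm_add {s : Shape} {F F' : s.W → s.W → F4} (h : IsForm rk X s F)
    (h' : IsForm rk X s F') : IsForm rk X s (F + F') := by
  refine ⟨fun y y' u => ?_, fun e y u => ?_, fun y => ?_⟩
  · show F (y + y') u + F' (y + y') u = (F y u + F' y u) + (F y' u + F' y' u)
    rw [h.1, h'.1]; ring
  · show F (sact s e y) u + F' (sact s e y) u = F y u + F' y u
    rw [h.2.1, h'.2.1]
  · exact (DX rk X s).add_mem (h.2.2 y) (h'.2.2 y)

lemma isForm_zero {s : Shape} : IsForm rk X s 0 := by
  refine ⟨fun y y' u => ?_, fun e y u => ?_, fun y => ?_⟩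
  · exact (add_zero (0 : F4)).symm
  · rfl
  · exact (DX rk X s).zero_mem

lemma isForm_smul {s : Shape} (c : F4) {F : s.W → s.W → F4} (h : IsForm rk X s F) :
    IsForm rk X s (c • F) := by
  refine ⟨fun y y' u => ?_, fun e y u => ?_, fun y => ?_⟩
  · show c * F (y + y') u = c * F y u + c * F y' u
    rw [h.1]; ring
  · show c * F (sact s e y) u = c * F y u
    rw [h.2.1]
  · exact (DX rk X s).smul_mem c (h.2.2 y)

end DM1aux

/-- The family `D_M` of section 5. -/
noncomputable def DM (M : TIF) : Fam := fun s =>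
  { carrier := {F | IsForm rk X s F ∧ ∀ (l : ℕ) (φ : U l s.n →+ s.W),
      (∀ (e : E s.n) u, φ (uact e u) = sact s e (φ u)) → ∀ w ∈ M.S l s.n, pairF s F φ w = 0}
    add_mem' := by
      rintro F F' ⟨h1, h2⟩ ⟨h1', h2'⟩
      refine ⟨DM1aux.isForm_add rk X h1 h1', fun l φ hφ w hw => ?_⟩
      rw [DM1aux.pairF_add, h2 l φ hφ w hw, h2' l φ hφ w hw, add_zero]
    zero_mem' := ⟨DM1aux.isForm_zero rk X, fun l φ _ w _ => DM1aux.pairF_zero s φ w⟩
    smul_mem' := by
      rintro c F ⟨h1, h2⟩
      refine ⟨DM1aux.isForm_smul rk X c h1, fun l φ hφ w hw => ?_⟩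
      rw [DM1aux.pairF_smul, h2 l φ hφ w hw, mul_zero] }

theorem mem_DM (M : TIF) (s : Shape) (F : s.W → s.W → F4) : F ∈ DM rk X M s ↔
    IsForm rk X s F ∧ ∀ (l : ℕ) (φ : U l s.n →+ s.W),
      (∀ (e : E s.n) u, φ (uact e u) = sact s e (φ u)) → ∀ w ∈ M.S l s.n, pairF s F φ w = 0 :=
  Iff.rfl

namespace DM1aux

lemma ext_single {ι A : Type} [Fintype ι] [DecidableEq ι] [AddCommGroup A]
    (f g : (ι → ZMod 2) →+ A) (h : ∀ a, f (Pi.single a 1) = g (Pi.single a 1)) : f = g := by
  refine DFunLike.ext f g fun u => ?_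
  have hu : u = ∑ a, Pi.single a (u a) := (Finset.univ_sum_single u).symm
  rw [hu, map_sum, map_sum]
  refine Finset.sum_congr rfl fun a _ => ?_
  have h2 : u a = 0 ∨ u a = 1 := by
    generalize u a = x
    revert x; decide
  rcases h2 with h2 | h2
  · rw [h2, Pi.single_zero, map_zero, map_zero]
  · rw [h2]; exact h a

lemma sact_add (s : Shape) (e : E s.n) (x y : s.W) :
    sact s e (x + y) = sact s e x + sact s e y := by
  unfold sact
  refine Prod.ext ?_ rfl
  funext j
  exact mul_add _ _ _

lemma sact_sact (s : Shape) (e e' : E s.n) (x : s.W) :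
    sact s e (sact s e' x) = sact s (e + e') x := by
  unfold sact
  refine Prod.ext ?_ rfl
  funext j
  show F4.chi (dot (s.v j) e) * (F4.chi (dot (s.v j) e') * x.1 j) =
    F4.chi (dot (s.v j) (e + e')) * x.1 j
  have h : dot (s.v j) (e + e') = dot (s.v j) e + dot (s.v j) e' := dotProduct_add _ _ _
  rw [h, F4.chi_add, mul_assoc]

lemma sact_zero (s : Shape) (x : s.W) : sact s 0 x = x := by
  unfold sact
  refine Prod.ext ?_ rfl
  funext j
  show F4.chi (dot (s.v j) 0) * x.1 j = x.1 j
  have h : dot (s.v j) 0 = 0 := dotProduct_zero _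
  rw [h, F4.chi_zero, one_mul]

/-- `sact` as an additive hom -/
def sactHom (s : Shape) (e : E s.n) : s.W →+ s.W where
  toFun := sact s e
  map_zero' := by
    have h := sact_add s e 0 0
    rw [add_zero] at h
    exact left_eq_add.mp h
  map_add' := sact_add s e

noncomputable def uactHom {l n : ℕ} (e : E n) : U l n →+ U l n where
  toFun := uact e
  map_zero' := by
    have h := uact_add (l := l) e 0 0
    rw [add_zero] at h
    exact left_eq_add.mp h
  map_add' := uact_add e

lemma uact_single {l n : ℕ} (e : E n) (p : Fin l × E n) :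
    uact e (Pi.single p 1 : U l n) = Pi.single (p.1, e + p.2) 1 := by
  unfold uact
  rw [ubar_single, act_of, bar_of]

/-- the equivariant additive map with prescribed values on the generators -/
noncomputable def extW (s : Shape) {l : ℕ} (x : Fin l → s.W) : U l s.n →+ s.W where
  toFun u := ∑ p : Fin l × E s.n, u p • sact s p.2 (x p.1)
  map_zero' := by simp
  map_add' u v := by simp only [Pi.add_apply, add_smul, Finset.sum_add_distrib]

lemma extW_single (s : Shape) {l : ℕ} (x : Fin l → s.W) (p : Fin l × E s.n) :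
    extW s x (Pi.single p 1) = sact s p.2 (x p.1) := by
  show ∑ q : Fin l × E s.n, (Pi.single p 1 : U l s.n) q • sact s q.2 (x q.1) = _
  rw [Finset.sum_eq_single p]
  · rw [Pi.single_eq_same, one_smul]
  · intro q _ hq
    rw [Pi.single_eq_of_ne hq, zero_smul]
  · intro h
    exact absurd (Finset.mem_univ p) h

lemma extW_equi (s : Shape) {l : ℕ} (x : Fin l → s.W) (e : E s.n) (u : U l s.n) :
    extW s x (uact e u) = sact s e (extW s x u) := by
  have h : (extW s x).comp (uactHom e) = (sactHom s e).comp (extW s x) := by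
    apply ext_single
    intro p
    show extW s x (uact e (Pi.single p 1)) = sact s e (extW s x (Pi.single p 1))
    rw [uact_single, extW_single, extW_single, sact_sact]
  exact DFunLike.congr_fun h u

lemma cnt_yy {l n : ℕ} (i j : Fin l) : cnt i (yy j (0 : E n)) = if i = j then 1 else 0 := by
  unfold cnt yy
  simp only [bar_of]
  by_cases hij : i = j
  · subst hij
    rw [if_pos rfl, Finset.sum_eq_single (0 : E n)]
    · rw [Pi.single_eq_same]
    · intro e _ he
      rw [Pi.single_eq_of_ne]
      intro h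
      exact he (Prod.mk.inj h).2
    · intro h
      exact absurd (Finset.mem_univ _) h
  · rw [if_neg hij]
    refine Finset.sum_eq_zero fun e _ => ?_
    rw [Pi.single_eq_of_ne]
    intro h
    exact hij (Prod.mk.inj h).1

end DM1aux

open DM1aux in
/-- (5.1), closure under pullback. -/
theorem DM_good (M : TIF) (h4 : M ≤ T4) : IsGoodFam rk X (DM rk X M) := by
  refine ⟨fun s F hF => hF.1, ?_⟩
  intro s s' ρ φ hφ F hF
  obtain ⟨⟨hF1, hF2, hF3⟩, hFM⟩ := hF
  refine ⟨⟨fun y y' u => ?_, fun e y u => ?_, fun y => ?_⟩, ?_⟩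
  · show F (φ (y + y')) (φ u) = F (φ y) (φ u) + F (φ y') (φ u)
    rw [map_add, hF1]
  · show F (φ (sact s e y)) (φ u) = F (φ y) (φ u)
    rw [hφ, hF2]
  · exact DXgen_pull rk X _ _ ρ φ hφ (F (φ y)) (hF3 (φ y))
  · intro l φ1 hφ1 w hw
    let x : Fin l → s'.W := fun i => φ (φ1 (Pi.single (i, 0) 1))
    let φ2 : U l s'.n →+ s'.W := extW s' x
    let θ : T l s.n →* T l s'.n := thom ρ (fun i => yy i 0)
    have hθw : θ w ∈ M.S l s'.n := M.thom_mem l s.n l s'.n ρ _ w hw
    have hcomp : ∀ u, φ2 (ubar θ u) = φ (φ1 u) := by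
      intro u
      have h : φ2.comp (ubar θ) = φ.comp φ1 := by
        apply ext_single
        rintro ⟨i, e⟩
        show φ2 (ubar θ (Pi.single (i, e) 1)) = φ (φ1 (Pi.single (i, e) 1))
        have e1 : ubar θ (Pi.single (i, e) 1) = Pi.single (i, ρ e) 1 := by
          rw [ubar_single]
          show bar (thom ρ (fun i => yy i 0) (FreeGroup.of (i, e))) = _
          rw [thom_of]
          show bar (act (ρ e) (FreeGroup.of (i, 0))) = _
          rw [act_of, bar_of]
          show (Pi.single (i, ρ e + 0) 1 : U l s'.n) = _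
          rw [add_zero]
        have e2 : (Pi.single (i, e) 1 : U l s.n) = uact e (Pi.single (i, 0) 1) := by
          rw [uact_single]
          show _ = (Pi.single (i, e + 0) 1 : U l s.n)
          rw [add_zero]
        rw [e1, e2, hφ1, hφ]
        exact extW_single s' x (i, ρ e)
      exact DFunLike.congr_fun h u
    have h0 := hFM l φ2 (extW_equi s' x) (θ w) hθw
    rw [← h0]
    unfold pairF
    refine Finset.sum_congr rfl fun i' _ => ?_
    have hx : φ2 (Pi.single (i', 0) 1) = φ (φ1 (Pi.single (i', 0) 1)) := by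
      have h := extW_single s' x (i', 0)
      rw [sact_zero] at h
      exact h
    have hinv := DXgen_inv rk X (sact s') (F (φ2 (Pi.single (i', 0) 1))) (hF3 _)
    have hz := z_nat ρ (fun i => yy i 0) w (h4 l s.n hw)
      (fun u => F (φ2 (Pi.single (i', 0) 1)) (φ2 u))
      (by
        show F (φ2 (Pi.single (i', 0) 1)) (φ2 0) = 0
        rw [map_zero]; exact hinv.1)
      (by
        intro e u
        show F (φ2 (Pi.single (i', 0) 1)) (φ2 (uact e u)) = F (φ2 (Pi.single (i', 0) 1)) (φ2 u)
        rw [extW_equi]; exact hinv.2 e _) i'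
    have hz' : zz i' (fun u => F (φ2 (Pi.single (i', 0) 1)) (φ2 u)) (θ w) =
        ∑ i, F4.c2 (cnt i' (yy i (0 : E s'.n))) *
          zz i (fun u => F (φ2 (Pi.single (i', 0) 1)) (φ2 (ubar θ u))) w := hz
    rw [hz', Finset.sum_eq_single i']
    · rw [cnt_yy, if_pos rfl, map_one, one_mul]
      simp only [hcomp, hx]
    · intro i _ hi
      rw [cnt_yy, if_neg (Ne.symm hi), map_zero, zero_mul]
    · intro h
      exact absurd (Finset.mem_univ _) h

theorem DM_anti (M M' : TIF) (h : M ≤ M') (s : Shape) : DM rk X M' s ≤ DM rk X M s := by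
  intro F hF
  exact ⟨hF.1, fun l φ hφ w hw => hF.2 l φ hφ w (h l s.n hw)⟩

end Pool.Agent.OH
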