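import Pool.Agent.OH.Defs3

set_option autoImplicit false
set_option linter.unusedSectionVars false

/-! # Fourier analysis on `E n` with values in `F4` -/

namespace Pool.Agent.OH

/-- The Fourier transform of `f : E n₀ → F₂` at `s`. -/
def Fb_hat {n : ℕ} (f : E n → ZMod 2) (s : E n) : F4 := ∑ e, F4.c2 (f e) * F4.chi (dot s e)

lemma Fb_neg_dot {n : ℕ} (s e : E n) : dot (-s) e = -dot s e := neg_dotProduct _ _
lemma Fb_dot_neg {n : ℕ} (s e : E n) : dot s (-e) = -dot s e := dotProduct_neg _ _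
lemma Fb_add_dot {n : ℕ} (s s' e : E n) : dot (s + s') e = dot s e + dot s' e :=
  add_dotProduct _ _ _
lemma Fb_dot_add {n : ℕ} (s e e' : E n) : dot s (e + e') = dot s e + dot s e' :=
  dotProduct_add _ _ _
lemma Fb_dot_sub {n : ℕ} (s e e' : E n) : dot s (e - e') = dot s e - dot s e' :=
  dotProduct_sub _ _ _
lemma Fb_single_dot {n : ℕ} (k : Fin n) (e : E n) : dot (Pi.single k 1) e = e k :=
  (single_dotProduct _ _ _).trans (one_mul _)

lemma Fb_c2_sq (x : ZMod 2) : F4.c2 x ^ 2 = F4.c2 x := by revert x; decide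

lemma Fb_sq_sum {X : Type} (s : Finset X) (f : X → F4) : (∑ x ∈ s, f x) ^ 2 = ∑ x ∈ s, f x ^ 2 := by
  classical
  induction s using Finset.induction_on with
  | empty => simp
  | insert a s ha ih =>
    rw [Finset.sum_insert ha, Finset.sum_insert ha, ← ih]
    have : ∀ x y : F4, (x + y) ^ 2 = x ^ 2 + y ^ 2 := by decide
    exact this _ _

lemma Fb_hat_neg {n : ℕ} (f : E n → ZMod 2) (s : E n) : Fb_hat f (-s) = Fb_hat f s ^ 2 := by
  unfold Fb_hat
  rw [Fb_sq_sum]
  refine Finset.sum_congr rfl fun e _ => ?_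
  rw [mul_pow, Fb_c2_sq, Fb_neg_dot, F4.chi_neg]

lemma Fb_sum_chi {n : ℕ} (e : E n) : ∑ s : E n, F4.chi (dot s e) = if e = 0 then 1 else 0 := by
  split_ifs with h
  · subst h
    simp only [dotProduct_zero, F4.chi_zero, Finset.sum_const, Finset.card_univ]
    have : Fintype.card (E n) = 3 ^ n := by simp [ZMod.card]
    rw [this]
    have h3 : ((3 : ℕ) : F4) = 1 := by decide
    rw [nsmul_eq_mul, Nat.cast_pow, h3, one_pow, one_mul]
  · obtain ⟨k, hk⟩ := Function.ne_iff.mp h
    -- multiply by the value at `single k 1`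
    have hshift : ∑ s : E n, F4.chi (dot s e) = F4.chi (e k) * ∑ s : E n, F4.chi (dot s e) := by
      rw [Finset.mul_sum]
      rw [← Equiv.sum_comp (Equiv.addRight (Pi.single k (1 : ZMod 3) : E n))]
      refine Finset.sum_congr rfl fun s _ => ?_
      rw [Equiv.coe_addRight]
      change F4.chi (dot (s + Pi.single k 1) e) = _
      rw [Fb_add_dot, F4.chi_add, Fb_single_dot, mul_comm]
    have hne : F4.chi (e k) ≠ 1 := by
      have h0 : e k ≠ 0 := hk
      revert h0
      generalize e k = x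
      revert x; decide
    have h2 : (1 - F4.chi (e k)) * ∑ s : E n, F4.chi (dot s e) = 0 := by
      rw [sub_mul, one_mul, ← hshift, sub_self]
    rcases mul_eq_zero.mp h2 with h3 | h3
    · exact absurd (sub_eq_zero.mp h3).symm hne
    · exact h3

lemma Fb_inv {n : ℕ} (f : E n → ZMod 2) (e : E n) :
    F4.c2 (f e) = ∑ s : E n, Fb_hat f s * F4.chi (-dot s e) := by
  unfold Fb_hat
  simp_rw [Finset.sum_mul]
  rw [Finset.sum_comm]
  have : ∀ e' : E n, ∑ s : E n, F4.c2 (f e') * F4.chi (dot s e') * F4.chi (-dot s e) =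
      if e' = e then F4.c2 (f e') else 0 := by
    intro e'
    have h1 : ∀ s : E n, F4.c2 (f e') * F4.chi (dot s e') * F4.chi (-dot s e) =
        F4.c2 (f e') * F4.chi (dot s (e' - e)) := by
      intro s
      rw [mul_assoc, ← F4.chi_add, Fb_dot_sub, sub_eq_add_neg]
    simp_rw [h1]
    rw [← Finset.mul_sum, Fb_sum_chi]
    by_cases h : e' = e
    · rw [if_pos h, if_pos (sub_eq_zero.mpr h), mul_one]
    · rw [if_neg h, if_neg (sub_ne_zero.mpr h), mul_zero]
  simp_rw [this]
  rw [Finset.sum_ite_eq' Finset.univ e]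
  simp

lemma Fb_posV_tri {n : ℕ} (s : E n) (hs : s ≠ 0) : PosV s ∨ PosV (-s) := by
  classical
  have hex : ∃ k, s k ≠ 0 := Function.ne_iff.mp hs
  have wf : WellFounded ((· < ·) : Fin n → Fin n → Prop) := wellFounded_lt
  obtain ⟨i, hi, hmin⟩ := wf.has_min {k | s k ≠ 0} hex
  have h0 : ∀ i' < i, s i' = 0 := by
    intro i' hi'
    by_contra h
    exact hmin i' h hi'
  have hi' : s i ≠ 0 := hi
  have h12 : s i = 1 ∨ -s i = 1 := by
    revert hi'
    generalize s i = x
    revert x; decide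
  rcases h12 with h | h
  · exact Or.inl ⟨i, h, h0⟩
  · exact Or.inr ⟨i, h, fun i' hi' => by rw [Pi.neg_apply, h0 i' hi', neg_zero]⟩

lemma Fb_posV_excl {n : ℕ} (s : E n) (h : PosV s) (h' : PosV (-s)) : False := by
  obtain ⟨i, hi, hi0⟩ := h
  obtain ⟨j, hj, hj0⟩ := h'
  rw [Pi.neg_apply] at hj
  rcases lt_trichotomy i j with h | h | h
  · have := hj0 i h
    rw [Pi.neg_apply, hi] at this
    exact absurd this (by decide)
  · subst h
    rw [hi] at hj
    exact absurd hj (by decide)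
  · rw [hi0 j h] at hj
    exact absurd hj (by decide)

lemma Fb_posV_ne {n : ℕ} (s : E n) (h : PosV s) : s ≠ 0 := by
  rintro rfl
  obtain ⟨i, hi, -⟩ := h
  exact absurd hi (by simp)

/-- `E n = 0 ⊔ V⁺ ⊔ -V⁺` -/
noncomputable def Fb_equiv (n : ℕ) :
    (Unit ⊕ ({s : E n // PosV s} ⊕ {s : E n // PosV s})) ≃ E n :=
  Equiv.ofBijective (Sum.elim (fun _ => 0) (Sum.elim (fun s => s.1) (fun s => -s.1))) (by
    constructor
    · rintro (_ | s | s) (_ | s' | s') h
      · rfl
      · exact absurd h.symm (Fb_posV_ne _ s'.2)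
      · exact absurd (neg_eq_zero.mp h.symm) (Fb_posV_ne _ s'.2)
      · exact absurd h (Fb_posV_ne _ s.2)
      · exact congrArg (fun x => Sum.inr (Sum.inl x)) (Subtype.ext h)
      · exfalso
        refine Fb_posV_excl s.1 s.2 ?_
        have h' : s.1 = -s'.1 := h
        rw [h', neg_neg]; exact s'.2
      · exact absurd (neg_eq_zero.mp h) (Fb_posV_ne _ s.2)
      · exfalso
        refine Fb_posV_excl s.1 s.2 ?_
        have h' : -s.1 = s'.1 := h
        rw [h']; exact s'.2
      · exact congrArg (fun x => Sum.inr (Sum.inr x)) (Subtype.ext (neg_injective h))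
    · intro s
      by_cases hs : s = 0
      · exact ⟨Sum.inl (), hs.symm⟩
      · rcases Fb_posV_tri s hs with h | h
        · exact ⟨Sum.inr (Sum.inl ⟨s, h⟩), rfl⟩
        · exact ⟨Sum.inr (Sum.inr ⟨-s, h⟩), neg_neg s⟩)

noncomputable abbrev Fb_fin (n : ℕ) : Fintype {s : E n // PosV s} := Fintype.ofFinite _

attribute [local instance] Fb_fin

/-- Fourier bijection -/
noncomputable def Fb_Th {n : ℕ} (f : E n → ZMod 2) : ZMod 2 × ({s : E n // PosV s} → F4) :=
  (∑ e, f e, fun s => Fb_hat f s.1)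

lemma Fb_hat_zero {n : ℕ} (f : E n → ZMod 2) : Fb_hat f 0 = F4.c2 (∑ e, f e) := by
  unfold Fb_hat
  rw [map_sum]
  refine Finset.sum_congr rfl fun e _ => ?_
  have : dot (0 : E n) e = 0 := zero_dotProduct _
  rw [this, F4.chi_zero, mul_one]

lemma Fb_Th_inj (n : ℕ) : Function.Injective (Fb_Th (n := n)) := by
  intro f f' h
  have hhat : ∀ s : E n, Fb_hat f s = Fb_hat f' s := by
    intro s
    by_cases hs : s = 0
    · rw [hs, Fb_hat_zero, Fb_hat_zero]
      exact congrArg F4.c2 (congrArg Prod.fst h)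
    · rcases Fb_posV_tri s hs with hp | hp
      · exact congrFun (congrArg Prod.snd h) ⟨s, hp⟩
      · have h1 : Fb_hat f (-s) = Fb_hat f' (-s) := congrFun (congrArg Prod.snd h) ⟨-s, hp⟩
        have h2 : Fb_hat f (- -s) = Fb_hat f' (- -s) := by
          rw [Fb_hat_neg f (-s), Fb_hat_neg f' (-s), h1]
        rwa [neg_neg] at h2
  funext e
  apply F4.c2_injective
  rw [Fb_inv, Fb_inv]
  simp_rw [hhat]

lemma Fb_Th_bij (n : ℕ) : Function.Bijective (Fb_Th (n := n)) := by
  rw [Fintype.bijective_iff_injective_and_card]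
  refine ⟨Fb_Th_inj n, ?_⟩
  have h1 := Fintype.card_congr (Fb_equiv n)
  rw [Fintype.card_sum, Fintype.card_sum, Fintype.card_unit] at h1
  have h2 : Fintype.card (E n → ZMod 2) = 2 ^ Fintype.card (E n) := by
    rw [Fintype.card_fun, ZMod.card]
  have h3 : Fintype.card (ZMod 2 × ({s : E n // PosV s} → F4)) =
      2 * 4 ^ Fintype.card {s : E n // PosV s} := by
    rw [Fintype.card_prod, Fintype.card_fun, ZMod.card, F4.card]
  rw [h2, h3, ← h1]
  have : 4 = 2 ^ 2 := by norm_num
  rw [this, ← pow_mul, pow_add, pow_one]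
  congr 2
  ring


end Pool.Agent.OH
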