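import Pool.Agent.OH.H1
import Pool.Agent.OH.FourBase

set_option autoImplicit false

namespace Pool.Agent.OH

/-- `κ_v(c) = ∑_e Tr(c ω^{-⟨v,e⟩}) e`, placed at index `i`. -/
noncomputable def kap {l n : ℕ} (i : Fin l) (v : E n) : F4 →+ U l n where
  toFun c := fun p => if p.1 = i then F4.tr (c * F4.chi (-dot v p.2)) else 0
  map_zero' := by funext p; simp
  map_add' x y := by funext p; by_cases h : p.1 = i <;> simp [h, add_mul]

/-- The Fourier coefficient of `u` at index `i` and label `v`: `∑_e u_{i,e} ω^{⟨v,e⟩}`. -/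
noncomputable def fou {l n : ℕ} (i : Fin l) (v : E n) : U l n →+ F4 where
  toFun u := ∑ e : E n, F4.c2 (u (i, e)) * F4.chi (dot v e)
  map_zero' := by simp
  map_add' x y := by simp [add_mul, Finset.sum_add_distrib]

theorem kap_uact {l n : ℕ} (i : Fin l) (v e : E n) (c : F4) :
    uact e (kap i v c) = kap i v (F4.chi (dot v e) * c) := by
  funext p
  rw [uact_apply]
  simp only [kap, AddMonoidHom.coe_mk, ZeroHom.coe_mk]
  by_cases h : p.1 = i
  · rw [if_pos h, if_pos h, Fb_dot_sub, neg_sub, sub_eq_add_neg, F4.chi_add]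
    congr 1
    ring
  · rw [if_neg h, if_neg h]


theorem fou_uact {l n : ℕ} (i : Fin l) (v e : E n) (u : U l n) :
    fou i v (uact e u) = F4.chi (dot v e) * fou i v u := by
  simp only [fou, AddMonoidHom.coe_mk, ZeroHom.coe_mk]
  rw [Finset.mul_sum, ← Equiv.sum_comp (Equiv.addLeft e)]
  refine Finset.sum_congr rfl fun f _ => ?_
  rw [uact_apply, Equiv.coe_addLeft]
  simp only
  rw [add_sub_cancel_left, Fb_dot_add, F4.chi_add]
  ring


lemma S1_sum_chi {n : ℕ} (v : E n) : ∑ e : E n, F4.chi (dot v e) = if v = 0 then 1 else 0 := by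
  rw [← Fb_sum_chi v]
  refine Finset.sum_congr rfl fun e _ => ?_
  congr 1
  exact dotProduct_comm _ _

theorem fou_kap {l n : ℕ} (i i' : Fin l) (v v' : E n) (hv : v ≠ 0) (hv' : v' ≠ 0) (c : F4) :
    fou i v (kap i' v' c) = if i = i' then (if v = v' then c else if v = -v' then c ^ 2 else 0)
      else 0 := by
  simp only [fou, kap, AddMonoidHom.coe_mk, ZeroHom.coe_mk]
  by_cases hi : i = i'
  · simp only [if_pos hi]
    have h1 : ∀ e : E n, F4.c2 (F4.tr (c * F4.chi (-dot v' e))) * F4.chi (dot v e) =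
        c * F4.chi (dot (v - v') e) + c ^ 2 * F4.chi (dot (v + v') e) := by
      intro e
      rw [F4.c2_tr, sub_eq_add_neg, Fb_add_dot, Fb_add_dot, Fb_neg_dot, F4.chi_add, F4.chi_add,
        F4.chi_neg]
      have h2 : (F4.chi (dot v' e) ^ 2) ^ 2 = F4.chi (dot v' e) := by
        rw [← pow_mul]; exact F4.pow_four _
      rw [mul_pow, h2]
      ring
    simp_rw [h1]
    rw [Finset.sum_add_distrib, ← Finset.mul_sum, ← Finset.mul_sum, S1_sum_chi, S1_sum_chi]
    by_cases hv1 : v = v'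
    · have h3 : ¬ (v + v' = 0) := by
        intro h
        rw [← hv1] at h
        apply hv
        have h4 : v = -(v + v) := by
          funext k
          have h5 : ∀ x : ZMod 3, x = -(x + x) := by decide
          exact h5 (v k)
        rw [h4, h, neg_zero]
      rw [if_pos (sub_eq_zero.mpr hv1), if_neg h3, if_pos hv1, mul_one, mul_zero, add_zero]
    · rw [if_neg hv1, if_neg (fun h => hv1 (sub_eq_zero.mp h)), mul_zero, zero_add]
      by_cases hv2 : v = -v'
      · rw [if_pos hv2, if_pos (eq_neg_iff_add_eq_zero.mp hv2), mul_one]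
      · rw [if_neg hv2, if_neg (fun h => hv2 (eq_neg_iff_add_eq_zero.mpr h)), mul_zero]
  · simp only [if_neg hi, map_zero, zero_mul, Finset.sum_const_zero]


/-- The zero-label part: `c ↦ c ∑_e y_{i,e}`. -/
def kap0 {l n : ℕ} (i : Fin l) : ZMod 2 →+ U l n where
  toFun c := fun p => if p.1 = i then c else 0
  map_zero' := by funext p; simp
  map_add' x y := by funext p; by_cases h : p.1 = i <;> simp [h]

/-- Augmentation at index `i`. -/
def fou0 {l n : ℕ} (i : Fin l) : U l n →+ ZMod 2 where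
  toFun u := ∑ e : E n, u (i, e)
  map_zero' := by simp
  map_add' x y := by simp [Finset.sum_add_distrib]

theorem kap0_uact {l n : ℕ} (i : Fin l) (e : E n) (c : ZMod 2) :
    uact e (kap0 (n := n) i c) = kap0 i c := by
  funext p
  rw [uact_apply]
  rfl


theorem fou0_uact {l n : ℕ} (i : Fin l) (e : E n) (u : U l n) :
    fou0 i (uact e u) = fou0 i u := by
  simp only [fou0, AddMonoidHom.coe_mk, ZeroHom.coe_mk]
  rw [← Equiv.sum_comp (Equiv.addLeft e)]
  refine Finset.sum_congr rfl fun f _ => ?_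
  rw [uact_apply, Equiv.coe_addLeft]
  simp only
  rw [add_sub_cancel_left]


theorem fou0_kap0 {l n : ℕ} (i i' : Fin l) (c : ZMod 2) :
    fou0 (n := n) i (kap0 i' c) = if i = i' then c else 0 := by
  simp only [fou0, kap0, AddMonoidHom.coe_mk, ZeroHom.coe_mk]
  by_cases hi : i = i'
  · simp only [if_pos hi, Finset.sum_const, Finset.card_univ]
    have h3 : Fintype.card (E n) = 3 ^ n := by simp [ZMod.card]
    have h4 : ((3 : ℕ) : ZMod 2) = 1 := by decide
    rw [h3, nsmul_eq_mul, Nat.cast_pow, h4, one_pow, one_mul]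
  · simp only [if_neg hi, Finset.sum_const_zero]


theorem fou_kap0 {l n : ℕ} (i i' : Fin l) (v : E n) (hv : v ≠ 0) (c : ZMod 2) :
    fou (n := n) i v (kap0 i' c) = 0 := by
  simp only [fou, kap0, AddMonoidHom.coe_mk, ZeroHom.coe_mk]
  by_cases hi : i = i'
  · simp only [if_pos hi]
    rw [← Finset.mul_sum, S1_sum_chi, if_neg hv, mul_zero]
  · simp only [if_neg hi, map_zero, zero_mul, Finset.sum_const_zero]


theorem fou0_kap {l n : ℕ} (i i' : Fin l) (v : E n) (hv : v ≠ 0) (c : F4) :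
    fou0 (n := n) i (kap i' v c) = 0 := by
  simp only [fou0, kap, AddMonoidHom.coe_mk, ZeroHom.coe_mk]
  by_cases hi : i = i'
  · simp only [if_pos hi]
    rw [← map_sum, ← Finset.mul_sum]
    have h1 : ∑ e : E n, F4.chi (-dot v e) = 0 := by
      simp_rw [← Fb_neg_dot]
      rw [S1_sum_chi, if_neg (neg_ne_zero.mpr hv)]
    rw [h1, mul_zero, map_zero]
  · simp only [if_neg hi, Finset.sum_const_zero]


attribute [local instance] Fb_fin

/-- The block module of `U(l,n)` maps to `U(l,n)`. -/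
noncomputable def S1_Phi (l n : ℕ) :
    ((Fin l × {v : E n // PosV v} → F4) × (Fin l → ZMod 2)) →+ U l n where
  toFun x := ∑ j : Fin l × {v : E n // PosV v}, kap j.1 j.2.1 (x.1 j) + ∑ i : Fin l, kap0 i (x.2 i)
  map_zero' := by simp
  map_add' x y := by
    simp only [Prod.fst_add, Prod.snd_add, Pi.add_apply, map_add, Finset.sum_add_distrib]
    abel

lemma S1_Phi_apply (l n : ℕ) (x : (Fin l × {v : E n // PosV v} → F4) × (Fin l → ZMod 2)) :
    S1_Phi l n x = ∑ j : Fin l × {v : E n // PosV v}, kap j.1 j.2.1 (x.1 j) +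
      ∑ i : Fin l, kap0 i (x.2 i) := rfl

lemma S1_fou_Phi (l n : ℕ) (x : (Fin l × {v : E n // PosV v} → F4) × (Fin l → ZMod 2))
    (j : Fin l × {v : E n // PosV v}) : fou j.1 j.2.1 (S1_Phi l n x) = x.1 j := by
  classical
  have hv : ∀ j : Fin l × {v : E n // PosV v}, j.2.1 ≠ 0 := fun j => Fb_posV_ne _ j.2.2
  rw [S1_Phi_apply, map_add, map_sum, map_sum, Finset.sum_eq_single j, Finset.sum_eq_zero, add_zero]
  · rw [fou_kap _ _ _ _ (hv j) (hv j), if_pos rfl, if_pos rfl]
  · intro i _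
    exact fou_kap0 _ _ _ (hv j) _
  · intro j' _ hne
    rw [fou_kap _ _ _ _ (hv j) (hv j')]
    by_cases h1 : j.1 = j'.1
    · rw [if_pos h1, if_neg, if_neg]
      · intro h2
        refine Fb_posV_excl j'.2.1 j'.2.2 ?_
        rw [← h2]
        exact j.2.2
      · intro h2
        exact hne (Prod.ext h1.symm (Subtype.ext h2.symm))
    · rw [if_neg h1]
  · intro h; exact absurd (Finset.mem_univ _) h

lemma S1_fou0_Phi (l n : ℕ) (x : (Fin l × {v : E n // PosV v} → F4) × (Fin l → ZMod 2))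
    (i : Fin l) : fou0 i (S1_Phi l n x) = x.2 i := by
  classical
  have hv : ∀ j : Fin l × {v : E n // PosV v}, j.2.1 ≠ 0 := fun j => Fb_posV_ne _ j.2.2
  rw [S1_Phi_apply, map_add, map_sum, map_sum, Finset.sum_eq_zero, zero_add, Finset.sum_eq_single i]
  · rw [fou0_kap0, if_pos rfl]
  · intro i' _ hne
    rw [fou0_kap0, if_neg (Ne.symm hne)]
  · intro h; exact absurd (Finset.mem_univ _) h
  · intro j' _
    exact fou0_kap _ _ _ (hv j') _

lemma S1_inj (l n : ℕ) (u u' : U l n)
    (h1 : ∀ j : Fin l × {v : E n // PosV v}, fou j.1 j.2.1 u = fou j.1 j.2.1 u')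
    (h2 : ∀ i : Fin l, fou0 i u = fou0 i u') : u = u' := by
  funext ⟨i, e⟩
  have h3 : Fb_Th (fun e => u (i, e)) = Fb_Th (fun e => u' (i, e)) := by
    refine Prod.ext ?_ (funext fun s => ?_)
    · exact h2 i
    · exact h1 (i, s)
  exact congrFun (Fb_Th_inj n h3) e

lemma S1_bij (l n : ℕ) : Function.Bijective (S1_Phi l n) := by
  constructor
  · intro x y h
    refine Prod.ext (funext fun j => ?_) (funext fun i => ?_)
    · rw [← S1_fou_Phi l n x j, ← S1_fou_Phi l n y j, h]
    · rw [← S1_fou0_Phi l n x i, ← S1_fou0_Phi l n y i, h]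
  · intro u
    refine ⟨(fun j => fou j.1 j.2.1 u, fun i => fou0 i u), S1_inj l n _ _ (fun j => ?_) fun i => ?_⟩
    · rw [S1_fou_Phi]
    · rw [S1_fou0_Phi]

lemma S1_Phi_act (l n : ℕ) (e : E n)
    (x : (Fin l × {v : E n // PosV v} → F4) × (Fin l → ZMod 2)) :
    S1_Phi l n (fun j => F4.chi (dot j.2.1 e) * x.1 j, x.2) = uact e (S1_Phi l n x) := by
  rw [S1_Phi_apply, S1_Phi_apply]
  have hu : ∀ x : U l n, uact e x = ubar (act e) x := fun _ => rfl
  rw [hu, map_add, map_sum, map_sum]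
  simp_rw [← hu, kap_uact, kap0_uact]

/-- The block module of `U(l,n)`, with explicit index types. -/
theorem S1_fourier (l n : ℕ) :
    ∃ Θ : ((Fin l × {v : E n // PosV v} → F4) × (Fin l → ZMod 2)) ≃+ U l n,
      ∀ (e : E n) x, Θ (fun j => F4.chi (dot j.2.1 e) * x.1 j, x.2) = uact e (Θ x) :=
  ⟨AddEquiv.ofBijective (S1_Phi l n) (S1_bij l n), fun e x => S1_Phi_act l n e x⟩

/-- `U(l,n)` is isomorphic to the module of the shape `shapeU l n`. -/
theorem fourier (l n : ℕ) : ∃ Θ : (shapeU l n).W ≃+ U l n,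
    ∀ (e : E n) x, Θ (sact (shapeU l n) e x) = uact e (Θ x) := by
  exact S1_fourier l n


end Pool.Agent.OH
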