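import Pool.Agent.OH.DM1
import Pool.Agent.OH.S1

set_option autoImplicit false

namespace Pool.Agent.OH

namespace DM2

section Z
variable {l n : ℕ}

theorem zz_add (i : Fin l) (f g : U l n → F4) (w : T l n) :
    zz i (fun u => f u + g u) w = zz i f w + zz i g w := by
  unfold zz
  rw [← Finset.sum_add_distrib]
  exact Finset.sum_congr rfl fun e _ => za_add _ _ _ _

theorem zz_smul (i : Fin l) (c : F4) (f : U l n → F4) (w : T l n) :
    zz i (fun u => c * f u) w = c * zz i f w := by
  unfold zz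
  rw [Finset.mul_sum]
  exact Finset.sum_congr rfl fun e _ => za_smul _ _ _ _

theorem zz_zero (i : Fin l) (w : T l n) : zz i (fun _ => (0 : F4)) w = 0 := by
  have h := zz_smul i 0 (fun _ : U l n => (0 : F4)) w
  simp only [zero_mul] at h
  exact h

theorem zz_sum {κ : Type} (s : Finset κ) (i : Fin l) (f : κ → U l n → F4) (w : T l n) :
    zz i (fun u => ∑ k ∈ s, f k u) w = ∑ k ∈ s, zz i (f k) w := by
  classical
  induction s using Finset.induction_on with
  | empty => simp [zz_zero]
  | insert a s ha ih =>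
    rw [Finset.sum_insert ha, ← ih, ← zz_add]
    have h : (fun u => ∑ k ∈ insert a s, f k u) = fun u => f a u + ∑ k ∈ s, f k u := by
      funext u
      rw [Finset.sum_insert ha]
    exact congrArg (fun G => zz i G w) h

theorem zz_F2 (i : Fin l) (f : U l n → F4) (hf : ∀ u, ∃ b : ZMod 2, f u = F4.c2 b) (w : T l n) :
    ∃ b : ZMod 2, zz i f w = F4.c2 b := by
  choose b hb using fun e : E n => za_F2 (i, e) f hf w
  refine ⟨∑ e, b e, ?_⟩
  unfold zz
  rw [map_sum]
  exact Finset.sum_congr rfl fun e _ => hb e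

/-- the `F₂`-valued pairing -/
noncomputable def P (f : Fin l → U l n → ZMod 2) (w : T l n) : ZMod 2 :=
  (∑ i, zz i (fun u => F4.c2 (f i u)) w).a

theorem c2_P (f : Fin l → U l n → ZMod 2) (w : T l n) :
    F4.c2 (P f w) = ∑ i, zz i (fun u => F4.c2 (f i u)) w := by
  choose b hb using fun i : Fin l => zz_F2 i (fun u => F4.c2 (f i u)) (fun u => ⟨f i u, rfl⟩) w
  unfold P
  have h : ∑ i, zz i (fun u => F4.c2 (f i u)) w = F4.c2 (∑ i, b i) := by
    rw [map_sum]
    exact Finset.sum_congr rfl fun i _ => hb i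
  rw [h]
  rfl

theorem P_add (f g : Fin l → U l n → ZMod 2) (w : T l n) : P (f + g) w = P f w + P g w := by
  apply F4.c2_injective
  rw [map_add, c2_P, c2_P, c2_P, ← Finset.sum_add_distrib]
  refine Finset.sum_congr rfl fun i _ => ?_
  have h : (fun u => F4.c2 ((f + g) i u)) = fun u => F4.c2 (f i u) + F4.c2 (g i u) := by
    funext u
    rw [Pi.add_apply, Pi.add_apply, map_add]
  rw [← zz_add]
  exact congrArg (fun G => zz i G w) h

theorem P_smul (c : ZMod 2) (f : Fin l → U l n → ZMod 2) (w : T l n) : P (c • f) w = c * P f w := by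
  apply F4.c2_injective
  rw [map_mul, c2_P, c2_P, Finset.mul_sum]
  refine Finset.sum_congr rfl fun i _ => ?_
  have h : (fun u => F4.c2 ((c • f) i u)) = fun u => F4.c2 c * F4.c2 (f i u) := by
    funext u
    rw [Pi.smul_apply, Pi.smul_apply, smul_eq_mul, map_mul]
  rw [← zz_smul]
  exact congrArg (fun G => zz i G w) h

theorem P_mul (f : Fin l → U l n → ZMod 2) (v w : T l n) (hv : v ∈ T3.S l n) (hw : w ∈ T3.S l n) :
    P f (v * w) = P f v + P f w := by
  apply F4.c2_injective
  rw [map_add, c2_P, c2_P, c2_P, ← Finset.sum_add_distrib]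
  exact Finset.sum_congr rfl fun i _ => zz_mul _ _ _ _ hv hw

theorem P_one (f : Fin l → U l n → ZMod 2) : P f (1 : T l n) = 0 := by
  have h := P_mul f 1 1 (one_mem _) (one_mem _)
  rw [mul_one] at h
  exact left_eq_add.mp h

theorem P_inv (f : Fin l → U l n → ZMod 2) (w : T l n) (hw : w ∈ T3.S l n) :
    P f w⁻¹ = P f w := by
  have h := P_mul f w w⁻¹ hw (inv_mem hw)
  rw [mul_inv_cancel, P_one] at h
  generalize P f w = a at *
  generalize P f w⁻¹ = b at *
  revert h
  revert a b
  decide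

/-- the space of `F₂`-valued test functions -/
def V0 (rk : ℕ → Ordinal.{0}) (X : Set (Finset ℕ)) (l n : ℕ) :
    Submodule (ZMod 2) (Fin l → U l n → ZMod 2) where
  carrier := {f | ∀ i, (fun u => F4.c2 (f i u)) ∈ DXU rk X l n}
  zero_mem' := by
    intro i
    have h : (fun u : U l n => F4.c2 ((0 : Fin l → U l n → ZMod 2) i u)) = 0 := by
      funext u; simp
    rw [h]
    exact zero_mem _
  add_mem' := by
    intro f g hf hg i
    have h : (fun u : U l n => F4.c2 ((f + g) i u)) =
        (fun u => F4.c2 (f i u)) + fun u => F4.c2 (g i u) := by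
      funext u; simp
    rw [h]
    exact add_mem (hf i) (hg i)
  smul_mem' := by
    intro c f hf i
    have h : (fun u : U l n => F4.c2 ((c • f) i u)) = F4.c2 c • fun u => F4.c2 (f i u) := by
      funext u; simp
    rw [h]
    exact Submodule.smul_mem _ _ (hf i)

/-- the functional of a word -/
noncomputable def Psi (rk : ℕ → Ordinal.{0}) (X : Set (Finset ℕ)) (w : T l n) :
    Module.Dual (ZMod 2) (V0 rk X l n) where
  toFun f := P f.1 w
  map_add' f g := P_add f.1 g.1 w
  map_smul' c f := P_smul c f.1 w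

/-- the functionals of the elements of a subgroup of `T_3` -/
noncomputable def DD (rk : ℕ → Ordinal.{0}) (X : Set (Finset ℕ)) (M : Subgroup (T l n))
    (hM : M ≤ T3.S l n) : Submodule (ZMod 2) (Module.Dual (ZMod 2) (V0 rk X l n)) where
  carrier := {ψ | ∃ w ∈ M, ψ = Psi rk X w}
  zero_mem' := ⟨1, one_mem _, by
    ext f
    exact (P_one f.1).symm⟩
  add_mem' := by
    rintro _ _ ⟨v, hv, rfl⟩ ⟨w, hw, rfl⟩
    refine ⟨v * w, mul_mem hv hw, ?_⟩
    ext f
    exact (P_mul f.1 v w (hM hv) (hM hw)).symm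
  smul_mem' := by
    rintro c _ ⟨w, hw, rfl⟩
    have hc : c = 0 ∨ c = 1 := by revert c; decide
    rcases hc with rfl | rfl
    · rw [zero_smul]
      refine ⟨1, one_mem _, ?_⟩
      ext f
      exact (P_one f.1).symm
    · rw [one_smul]
      exact ⟨w, hw, rfl⟩

/-- Words with the same functional agree modulo `T_X`. -/
theorem mem_TX_of_Psi (rk : ℕ → Ordinal.{0}) (X : Set (Finset ℕ)) (v w : T l n)
    (hv : v ∈ T4.S l n) (hw : w ∈ T4.S l n) (h : Psi rk X v = Psi rk X w) :
    v * w⁻¹ ∈ (TX rk X).S l n := by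
  classical
  have hv3 : v ∈ T3.S l n := T4_le_T3 l n hv
  have hw3 : w ∈ T3.S l n := T4_le_T3 l n hw
  rw [mem_TX]
  refine ⟨mul_mem hv (inv_mem hw), ?_⟩
  intro i f hf
  -- for F₂-valued functions
  have key : ∀ g ∈ DXU rk X l n, (∀ u, ∃ b : ZMod 2, g u = F4.c2 b) →
      zz i g (v * w⁻¹) = 0 := by
    intro g hg hb
    choose b hb using hb
    have hg' : g = fun u => F4.c2 (b u) := funext hb
    let F : V0 rk X l n := ⟨Pi.single i b, by
      intro i'
      by_cases hi : i' = i
      · subst hi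
        rw [Pi.single_eq_same, ← hg']
        exact hg
      · rw [Pi.single_eq_of_ne hi]
        have h0 : (fun u : U l n => F4.c2 ((0 : U l n → ZMod 2) u)) = 0 := by
          funext u; simp
        rw [h0]
        exact zero_mem _⟩
    have hF : ∀ x : T l n, F4.c2 (P F.1 x) = zz i g x := by
      intro x
      rw [c2_P, Finset.sum_eq_single i]
      · show zz i (fun u => F4.c2 ((Pi.single i b : Fin l → U l n → ZMod 2) i u)) x = _
        rw [Pi.single_eq_same, ← hg']
      · intro i' _ hi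
        show zz i' (fun u => F4.c2 ((Pi.single i b : Fin l → U l n → ZMod 2) i' u)) x = _
        rw [Pi.single_eq_of_ne hi]
        have h0 : (fun u : U l n => F4.c2 ((0 : U l n → ZMod 2) u)) = fun _ => 0 := by
          funext u; simp
        rw [h0, zz_zero]
      · intro hi
        exact absurd (Finset.mem_univ i) hi
    rw [← hF, P_mul _ _ _ hv3 (inv_mem hw3), P_inv _ _ hw3]
    have h2 : P F.1 v = P F.1 w := DFunLike.congr_fun h F
    rw [h2, zmod2_add_self, map_zero]
  have hf' : f ∈ Submodule.span F4 {f | f ∈ DXgen rk X n (U l n) uact ∧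
      ∀ u, ∃ b : ZMod 2, f u = F4.c2 b} := by
    rw [← DXgen_F2]
    exact hf
  clear hf
  induction hf' using Submodule.span_induction with
  | mem g hg => exact key g hg.1 hg.2
  | zero => exact zz_zero i _
  | add g g' _ _ ih ih' =>
    have hg1 : (fun u => g u + g' u) = g + g' := rfl
    rw [← hg1, zz_add]
    rw [ih, ih', add_zero]
  | smul c g _ ih =>
    have hg1 : (fun u => c * g u) = c • g := rfl
    rw [← hg1, zz_smul, ih, mul_zero]

end Z

end DM2

open DM2

/-- (5.1), separation: `D_M` determines `M` between `T_X` and `T_4` (duality over `F₂`). -/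
theorem DM_sep (rk : ℕ → Ordinal.{0}) (X : Set (Finset ℕ)) (M M' : TIF) (hX : TX rk X ≤ M)
    (h : M ≤ M') (h4 : M' ≤ T4) (hD : ∀ s, DM rk X M s ≤ DM rk X M' s) : M = M' := by
  classical
  refine le_antisymm h ?_
  intro l n w hw
  by_contra hcon
  have hM4 : M.S l n ≤ T4.S l n := (h l n).trans (h4 l n)
  have hM3 : M.S l n ≤ T3.S l n := hM4.trans (T4_le_T3 l n)
  have hw4 : w ∈ T4.S l n := h4 l n hw
  set D := DD rk X (M.S l n) hM3 with hDdef
  have hnot : Psi rk X w ∉ D := by
    rintro ⟨m, hm, hmw⟩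
    have h1 := mem_TX_of_Psi rk X w m hw4 (hM4 hm) hmw
    have h2 : w * m⁻¹ ∈ M.S l n := hX l n h1
    have h3 := mul_mem h2 hm
    rw [inv_mul_cancel_right] at h3
    exact hcon h3
  have hfd : FiniteDimensional (ZMod 2) D := inferInstance
  have heq : D.dualCoannihilator.dualAnnihilator = D := Subspace.dualCoannihilator_dualAnnihilator_eq
  rw [← heq, Submodule.mem_dualAnnihilator] at hnot
  push Not at hnot
  obtain ⟨f, hf, hfw⟩ := hnot
  rw [Submodule.mem_dualCoannihilator] at hf
  have hfM : ∀ m ∈ M.S l n, ∑ i, zz i (fun u => F4.c2 (f.1 i u)) m = 0 := by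
    intro m hm
    rw [← c2_P]
    have h1 : Psi rk X m f = 0 := hf _ ⟨m, hm, rfl⟩
    have h2 : P f.1 m = 0 := h1
    rw [h2, map_zero]
  obtain ⟨Θ, hΘ⟩ := fourier l n
  let s : Shape := shapeU l n
  -- the functions f_i on U(l,n)
  set g : Fin l → U l n → F4 := fun i u => F4.c2 (f.1 i u) with hg
  have hgD : ∀ i, g i ∈ DXU rk X l n := fun i => f.2 i
  let cn : Fin l → U l n → ZMod 2 := fun i u => ∑ e : E n, u (i, e)
  have hcn_add : ∀ i u u', cn i (u + u') = cn i u + cn i u' := by
    intro i u u'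
    exact Finset.sum_add_distrib
  have hcn_act : ∀ i (e : E n) u, cn i (uact e u) = cn i u := by
    intro i e u
    show ∑ e' : E n, uact e u (i, e') = ∑ e' : E n, u (i, e')
    rw [← Equiv.sum_comp (Equiv.addRight e) (fun e' : E n => uact e u (i, e'))]
    refine Finset.sum_congr rfl fun e' _ => ?_
    rw [uact_apply]
    simp
  let F : s.W → s.W → F4 := fun y u => ∑ i, F4.c2 (cn i (Θ y)) * g i (Θ u)
  have hform : IsForm rk X s F := by
    refine ⟨?_, ?_, ?_⟩
    · intro y y' u
      show ∑ i, F4.c2 (cn i (Θ (y + y'))) * g i (Θ u) =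
        ∑ i, F4.c2 (cn i (Θ y)) * g i (Θ u) + ∑ i, F4.c2 (cn i (Θ y')) * g i (Θ u)
      rw [← Finset.sum_add_distrib]
      refine Finset.sum_congr rfl fun i _ => ?_
      rw [map_add, hcn_add, map_add, add_mul]
    · intro e y u
      show ∑ i, F4.c2 (cn i (Θ (sact s e y))) * g i (Θ u) = ∑ i, F4.c2 (cn i (Θ y)) * g i (Θ u)
      refine Finset.sum_congr rfl fun i _ => ?_
      have h1 : cn i (Θ (sact s e y)) = cn i (Θ y) :=
        (congrArg (cn i) (hΘ e y)).trans (hcn_act i e (Θ y))
      rw [h1]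
    · intro y
      have h1 : F y = ∑ i, F4.c2 (cn i (Θ y)) • (fun u : s.W => g i (Θ u)) := by
        funext u
        rw [Finset.sum_apply]
        rfl
      rw [h1]
      refine Submodule.sum_mem _ fun i _ => Submodule.smul_mem _ _ ?_
      exact DXgen_pull rk X (sact s) uact (AddMonoidHom.id (E n)) Θ.toAddMonoidHom
        (fun e x => hΘ e x) (g i) (hgD i)
  have hpair : ∀ (l' : ℕ) (φ : U l' n →+ s.W), (∀ (e : E n) u, φ (uact e u) = sact s e (φ u)) →
      ∀ (t : Fin l' → T l n), (∀ u, ubar (thom (AddMonoidHom.id (E n)) t) u = Θ (φ u)) →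
      ∀ v ∈ T4.S l' n, pairF s F φ v =
        ∑ i, zz i (g i) (thom (AddMonoidHom.id (E n)) t v) := by
    intro l' φ hφ t ht v hv
    have e1 : ∀ i, zz i (g i) (thom (AddMonoidHom.id (E n)) t v) =
        ∑ i', F4.c2 (cnt i (t i')) * zz i' (fun u => g i (Θ (φ u))) v := by
      intro i
      have hinv := DXgen_inv rk X uact (g i) (hgD i)
      rw [z_nat (AddMonoidHom.id (E n)) t v hv (g i) hinv.1 hinv.2 i]
      refine Finset.sum_congr rfl fun i' _ => ?_
      simp only [ht]
    rw [Finset.sum_congr rfl (fun i _ => e1 i), Finset.sum_comm]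
    unfold pairF
    refine Finset.sum_congr rfl fun i' _ => ?_
    have e2 : ∀ i, cn i (Θ (φ (Pi.single (i', 0) 1))) = cnt i (t i') := by
      intro i
      rw [← ht]
      have e3 : ubar (thom (AddMonoidHom.id (E n)) t) (Pi.single (i', 0) 1) = bar (t i') := by
        rw [ubar_single, thom_of, map_zero, act_zero]
      rw [e3]
      rfl
    have e4 : (fun u => F (φ (Pi.single (i', 0) 1)) (φ u)) =
        fun u => ∑ i, F4.c2 (cnt i (t i')) * g i (Θ (φ u)) := by
      funext u
      show ∑ i, F4.c2 (cn i (Θ (φ (Pi.single (i', 0) 1)))) * g i (Θ (φ u)) = _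
      refine Finset.sum_congr rfl fun i _ => ?_
      rw [e2]
    have e5 : zz i' (fun u => F (φ (Pi.single (i', 0) 1)) (φ u)) v =
        zz i' (fun u => ∑ i, F4.c2 (cnt i (t i')) * g i (Θ (φ u))) v := by
      rw [e4]
    refine e5.trans ?_
    rw [zz_sum Finset.univ i' (fun i u => F4.c2 (cnt i (t i')) * g i (Θ (φ u))) v]
    exact Finset.sum_congr rfl fun i _ => zz_smul _ _ _ _
  have hex : ∀ (l' : ℕ) (φ : U l' n →+ s.W), (∀ (e : E n) u, φ (uact e u) = sact s e (φ u)) →
      ∃ t : Fin l' → T l n, ∀ u, ubar (thom (AddMonoidHom.id (E n)) t) u = Θ (φ u) := by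
    intro l' φ hφ
    refine exists_thom (AddMonoidHom.id (E n)) (Θ.toAddMonoidHom.comp φ) ?_
    intro e u
    exact (congrArg Θ (hφ e u)).trans (hΘ e (φ u))
  have hmem : F ∈ DM rk X M s := by
    refine ⟨hform, ?_⟩
    intro l' φ hφ v hv
    obtain ⟨t, ht⟩ := hex l' φ hφ
    have hv4 : v ∈ T4.S l' n := h4 l' n (h l' n hv)
    rw [hpair l' φ hφ t ht v hv4]
    exact hfM _ (M.thom_mem l' n l n (AddMonoidHom.id (E n)) t v hv)
  have hmem' : F ∈ DM rk X M' s := hD s hmem
  have hφ : ∀ (e : E n) u, Θ.symm.toAddMonoidHom (uact e u) = sact s e (Θ.symm.toAddMonoidHom u) := by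
    intro e u
    exact (AddEquiv.symm_apply_eq Θ).mpr
      ((hΘ e (Θ.symm u)).trans (congrArg (uact e) (Θ.apply_symm_apply u))).symm
  have hw0 := hmem'.2 l Θ.symm.toAddMonoidHom hφ w hw
  rw [hpair l Θ.symm.toAddMonoidHom hφ (fun i => yy i 0) (by
    intro u
    show _ = Θ (Θ.symm u)
    rw [AddEquiv.apply_symm_apply]
    have e1 : thom (AddMonoidHom.id (E n)) (fun i => yy (l := l) i 0) = MonoidHom.id (T l n) := by
      ext p
      simp [yy]
    rw [e1]
    have e2 : ∀ u : U l n, ubar (MonoidHom.id (T l n)) u = u := by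
      intro u
      obtain ⟨x, rfl⟩ := bar_surjective u
      rw [← bar_map]
      rfl
    exact e2 u) w hw4] at hw0
  have e1 : thom (AddMonoidHom.id (E n)) (fun i => yy (l := l) i 0) w = w := by
    have e2 : thom (AddMonoidHom.id (E n)) (fun i => yy (l := l) i 0) = MonoidHom.id (T l n) := by
      ext p
      simp [yy]
    rw [e2]
    rfl
  rw [e1] at hw0
  apply hfw
  show P f.1 w = 0
  apply F4.c2_injective
  rw [c2_P, map_zero]
  exact hw0

end Pool.Agent.OH
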