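import Mathlib

set_option autoImplicit false

namespace Pool.Agent.OH

/-! # Fox calculus over the group algebra `F₂[F₂^ι]` -/

section Fox

/-- The group algebra `Λ = F₂[F₂^ι]`. -/
abbrev Lam (ι : Type) : Type := AddMonoidAlgebra (ZMod 2) (ι → ZMod 2)

variable {ι κ μ : Type}

set_option linter.unusedSectionVars false

/-- The group element `[u]` of `Λ`. -/
noncomputable def br (u : ι → ZMod 2) : Lam ι := AddMonoidAlgebra.single u 1

/-- `x_u = 1 + [u]`. -/
noncomputable def xx (u : ι → ZMod 2) : Lam ι := 1 + br u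

lemma br_add (u v : ι → ZMod 2) : br (u + v) = br u * br v := by
  simp [br, AddMonoidAlgebra.single_mul_single]

lemma br_zero : br (0 : ι → ZMod 2) = 1 := rfl

lemma zmod2_add_self (x : ZMod 2) : x + x = 0 := by revert x; decide

lemma u_add_self (u : ι → ZMod 2) : u + u = 0 := by
  ext a; exact zmod2_add_self _

lemma u_neg (u : ι → ZMod 2) : -u = u := by
  rw [neg_eq_iff_add_eq_zero]; exact u_add_self u

lemma br_mul_self (u : ι → ZMod 2) : br u * br u = 1 := by
  rw [← br_add, u_add_self, br_zero]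

lemma lam_add_self (f : Lam ι) : f + f = 0 := by
  ext u; simp [zmod2_add_self]

lemma lam_neg (f : Lam ι) : -f = f := by
  rw [neg_eq_iff_add_eq_zero]; exact lam_add_self f

/-- The Magnus-type group: triples `(p, m, u)` with
`(p,m,u)(q,m',v) = (p + [u] q, m + m' + p ⊗ [u] q, u + v)`. -/
@[ext] structure HG (ι : Type) where
  p : ι → Lam ι
  m : ι → ι → Lam ι
  u : ι → ZMod 2

namespace HG

noncomputable instance : One (HG ι) := ⟨⟨0, 0, 0⟩⟩
noncomputable instance : Mul (HG ι) :=
  ⟨fun a b => ⟨fun i => a.p i + br a.u * b.p i,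
    fun i j => a.m i j + b.m i j + a.p i * (br a.u * b.p j), a.u + b.u⟩⟩
noncomputable instance : Inv (HG ι) :=
  ⟨fun a => ⟨fun i => br a.u * a.p i, fun i j => a.m i j + a.p i * a.p j, a.u⟩⟩

@[simp] lemma one_p : (1 : HG ι).p = 0 := rfl
@[simp] lemma one_m : (1 : HG ι).m = 0 := rfl
@[simp] lemma one_u : (1 : HG ι).u = 0 := rfl
@[simp] lemma mul_p (a b : HG ι) (i : ι) : (a * b).p i = a.p i + br a.u * b.p i := rfl
@[simp] lemma mul_m (a b : HG ι) (i j : ι) :
    (a * b).m i j = a.m i j + b.m i j + a.p i * (br a.u * b.p j) := rfl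
@[simp] lemma mul_u (a b : HG ι) : (a * b).u = a.u + b.u := rfl
@[simp] lemma inv_p (a : HG ι) (i : ι) : (a⁻¹).p i = br a.u * a.p i := rfl
@[simp] lemma inv_m (a : HG ι) (i j : ι) : (a⁻¹).m i j = a.m i j + a.p i * a.p j := rfl
@[simp] lemma inv_u (a : HG ι) : (a⁻¹).u = a.u := rfl

noncomputable instance : Group (HG ι) := Group.ofLeftAxioms
  (by
    intro a b c
    ext1
    · funext i; simp only [mul_p, mul_u, br_add]; ring
    · funext i j
      simp only [mul_m, mul_p, mul_u, br_add]
      linear_combination (b.p i * br b.u * c.p j) * br_mul_self a.u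
    · simp only [mul_u]; ring)
  (by
    intro a
    ext1
    · funext i; simp [br_zero]
    · funext i j; simp
    · simp)
  (by
    intro a
    ext1
    · funext i
      simp only [mul_p, inv_p, inv_u, one_p, Pi.zero_apply]
      exact lam_add_self _
    · funext i j
      simp only [mul_m, inv_m, inv_p, inv_u, one_m, Pi.zero_apply]
      have h : br a.u * a.p i * (br a.u * a.p j) = a.p i * a.p j := by
        calc br a.u * a.p i * (br a.u * a.p j) = (br a.u * br a.u) * (a.p i * a.p j) := by ring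
          _ = a.p i * a.p j := by rw [br_mul_self, one_mul]
      rw [h]
      calc a.m i j + a.p i * a.p j + a.m i j + a.p i * a.p j
          = (a.m i j + a.m i j) + (a.p i * a.p j + a.p i * a.p j) := by ring
        _ = 0 := by rw [lam_add_self, lam_add_self, add_zero]
    · simp only [mul_u, inv_u, one_u]; exact u_add_self _)

end HG

variable [DecidableEq ι] [DecidableEq κ] [DecidableEq μ]

/-- The universal hom `F_ι → HG ι`. -/
noncomputable def foxHom : FreeGroup ι →* HG ι :=
  FreeGroup.lift fun a => ⟨Pi.single a 1, 0, Pi.single a 1⟩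

/-- The image of a word in `F₂^ι`. -/
noncomputable def bar (w : FreeGroup ι) : ι → ZMod 2 := (foxHom w).u

/-- The Fox differential `d w ∈ Λ^ι`. -/
noncomputable def dd (w : FreeGroup ι) : ι → Lam ι := (foxHom w).p

/-- The second order part `B w ∈ Λ^(ι × ι)`. -/
noncomputable def BB (w : FreeGroup ι) : ι → ι → Lam ι := (foxHom w).m

@[simp] lemma bar_one : bar (1 : FreeGroup ι) = 0 := by simp [bar]
@[simp] lemma dd_one : dd (1 : FreeGroup ι) = 0 := by simp [dd]
@[simp] lemma BB_one : BB (1 : FreeGroup ι) = 0 := by simp [BB]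
@[simp] lemma bar_of (a : ι) : bar (FreeGroup.of a) = Pi.single a 1 := by simp [bar, foxHom]
@[simp] lemma dd_of (a : ι) : dd (FreeGroup.of a) = Pi.single a 1 := by simp [dd, foxHom]
@[simp] lemma BB_of (a : ι) : BB (FreeGroup.of a) = 0 := by simp [BB, foxHom]
@[simp] lemma bar_mul (v w : FreeGroup ι) : bar (v * w) = bar v + bar w := by
  simp [bar]
lemma dd_mul (v w : FreeGroup ι) (i : ι) : dd (v * w) i = dd v i + br (bar v) * dd w i := by
  simp [dd, bar]
lemma BB_mul (v w : FreeGroup ι) (i j : ι) :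
    BB (v * w) i j = BB v i j + BB w i j + dd v i * (br (bar v) * dd w j) := by
  simp [dd, bar, BB]
@[simp] lemma bar_inv (w : FreeGroup ι) : bar w⁻¹ = bar w := by simp [bar]
lemma dd_inv (w : FreeGroup ι) (i : ι) : dd w⁻¹ i = br (bar w) * dd w i := by
  simp [dd, bar]
lemma BB_inv (w : FreeGroup ι) (i j : ι) : BB w⁻¹ i j = BB w i j + dd w i * dd w j := by
  simp [dd, BB]

/-! ### Functoriality for arbitrary homs between free groups -/

variable [Fintype ι] [Fintype κ] [Fintype μ]

/-- The linear map `F₂^ι → F₂^κ` induced by `φ : F_ι → F_κ`. -/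
noncomputable def ubar (φ : FreeGroup ι →* FreeGroup κ) : (ι → ZMod 2) →+ (κ → ZMod 2) where
  toFun u := ∑ a, u a • bar (φ (FreeGroup.of a))
  map_zero' := by simp
  map_add' u v := by simp [add_smul, Finset.sum_add_distrib]

/-- The ring hom `Λ_ι → Λ_κ` induced by `φ`. -/
noncomputable def lbar (φ : FreeGroup ι →* FreeGroup κ) : Lam ι →+* Lam κ :=
  AddMonoidAlgebra.mapDomainRingHom (ZMod 2) (ubar φ)

/-- `φ_* : Λ_ι^ι → Λ_κ^κ`. -/
noncomputable def pstar (φ : FreeGroup ι →* FreeGroup κ) : (ι → Lam ι) →+ (κ → Lam κ) where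
  toFun p := fun k => ∑ a, lbar φ (p a) * dd (φ (FreeGroup.of a)) k
  map_zero' := by funext k; simp
  map_add' p q := by funext k; simp [add_mul, Finset.sum_add_distrib]

/-- `φ_* : Λ_ι^(ι×ι) → Λ_κ^(κ×κ)`. -/
noncomputable def ppstar (φ : FreeGroup ι →* FreeGroup κ) :
    (ι → ι → Lam ι) →+ (κ → κ → Lam κ) where
  toFun m := fun k k' => ∑ a, ∑ b, lbar φ (m a b) *
    (dd (φ (FreeGroup.of a)) k * dd (φ (FreeGroup.of b)) k')
  map_zero' := by funext k k'; simp
  map_add' p q := by funext k k'; simp [add_mul, Finset.sum_add_distrib]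

lemma ubar_single (φ : FreeGroup ι →* FreeGroup κ) (a : ι) :
    ubar φ (Pi.single a 1) = bar (φ (FreeGroup.of a)) := by
  simp only [ubar, AddMonoidHom.coe_mk, ZeroHom.coe_mk]
  rw [Finset.sum_eq_single a]
  · simp
  · intro b _ hb; simp [Pi.single_eq_of_ne hb]
  · simp

lemma lbar_br (φ : FreeGroup ι →* FreeGroup κ) (u : ι → ZMod 2) :
    lbar φ (br u) = br (ubar φ u) := by
  simp [lbar, br]

lemma bar_map (φ : FreeGroup ι →* FreeGroup κ) (w : FreeGroup ι) :
    bar (φ w) = ubar φ (bar w) := by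
  induction w using FreeGroup.induction_on with
  | C1 => simp
  | of a => rw [bar_of, ubar_single]
  | inv_of a ih => rw [map_inv, bar_inv, ih, bar_inv]
  | mul x y hx hy => rw [map_mul, bar_mul, hx, hy, bar_mul, map_add]

lemma pstar_single (φ : FreeGroup ι →* FreeGroup κ) (a : ι) :
    pstar φ (Pi.single a 1) = dd (φ (FreeGroup.of a)) := by
  funext k
  simp only [pstar, AddMonoidHom.coe_mk, ZeroHom.coe_mk]
  rw [Finset.sum_eq_single a]
  · simp
  · intro b _ hb; simp [Pi.single_eq_of_ne hb]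
  · simp

lemma pstar_mul (φ : FreeGroup ι →* FreeGroup κ) (f : Lam ι) (p : ι → Lam ι) (k : κ) :
    pstar φ (fun i => f * p i) k = lbar φ f * pstar φ p k := by
  simp only [pstar, AddMonoidHom.coe_mk, ZeroHom.coe_mk, map_mul, Finset.mul_sum]
  refine Finset.sum_congr rfl fun a _ => by ring

lemma dd_map (φ : FreeGroup ι →* FreeGroup κ) (w : FreeGroup ι) :
    dd (φ w) = pstar φ (dd w) := by
  have hmul : ∀ x y : FreeGroup ι, dd (φ x) = pstar φ (dd x) → dd (φ y) = pstar φ (dd y) →
      dd (φ (x * y)) = pstar φ (dd (x * y)) := by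
    intro x y hx hy
    have h1 : dd (x * y) = dd x + fun i => br (bar x) * dd y i := by
      funext i; exact dd_mul x y i
    rw [h1, map_add, map_mul]
    funext k
    rw [dd_mul, Pi.add_apply, pstar_mul, lbar_br, bar_map, hx, hy]
  induction w using FreeGroup.induction_on with
  | C1 => simp
  | of a => rw [dd_of, pstar_single]
  | inv_of a ih =>
    have h1 : dd ((FreeGroup.of a)⁻¹) = fun i => br (bar (FreeGroup.of a)) *
        dd (FreeGroup.of a) i := by
      funext i; exact dd_inv _ i
    rw [h1]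
    funext k
    rw [map_inv, dd_inv, pstar_mul, lbar_br, bar_map]
    have ih' : dd (φ (FreeGroup.of a)) = pstar φ (dd (FreeGroup.of a)) := ih
    rw [ih']
  | mul x y hx hy => exact hmul x y hx hy

end Fox

end Pool.Agent.OH
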