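import Pool.Agent.OH.F4
import Pool.Agent.OH.Fox

set_option autoImplicit false
set_option linter.unusedSectionVars false

namespace Pool.Agent.OH

/-! # The groups `T(l,n)`, T-homs, T-invariant families -/

/-- `E_n = (Z/3)^n`; also used for the dual `V_n`, paired with `E_n` by the dot product. -/
abbrev E (n : ℕ) : Type := Fin n → ZMod 3

/-- `T(l,n)`, the free group on `[l] × E_n`. -/
abbrev T (l n : ℕ) : Type := FreeGroup (Fin l × E n)

/-- `U(l,n) = T(l,n)/T_2(l,n)`. -/
abbrev U (l n : ℕ) : Type := Fin l × E n → ZMod 2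

/-- The generator `y_{i,e}`. -/
def yy {l n : ℕ} (i : Fin l) (e : E n) : T l n := FreeGroup.of (i, e)

/-- The action of `e ∈ E_n` on `T(l,n)`. -/
def act {l n : ℕ} (e : E n) : T l n →* T l n := FreeGroup.map fun p => (p.1, e + p.2)

/-- The T-hom `θ(ρ,t)`: `y_{i,e} ↦ ρ(e).t_i`. -/
def thom {l n l' n' : ℕ} (ρ : E n →+ E n') (t : Fin l → T l' n') : T l n →* T l' n' :=
  FreeGroup.lift fun p => act (ρ p.2) (t p.1)

@[simp] lemma act_of {l n : ℕ} (e : E n) (p : Fin l × E n) :
    act e (FreeGroup.of p) = FreeGroup.of (p.1, e + p.2) := by simp [act]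

@[simp] lemma thom_of {l n l' n' : ℕ} (ρ : E n →+ E n') (t : Fin l → T l' n')
    (p : Fin l × E n) : thom ρ t (FreeGroup.of p) = act (ρ p.2) (t p.1) := by simp [thom]

lemma act_zero {l n : ℕ} (w : T l n) : act (0 : E n) w = w := by
  have : (act (0 : E n) : T l n →* T l n) = MonoidHom.id _ := by ext p; simp
  rw [this]; rfl

lemma act_act {l n : ℕ} (e e' : E n) (w : T l n) : act e (act e' w) = act (e + e') w := by
  have : ((act e).comp (act e') : T l n →* T l n) = act (e + e') := by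
    ext p; simp [add_assoc]
  rw [← this]; rfl

lemma thom_act {l n l' n' : ℕ} (ρ : E n →+ E n') (t : Fin l → T l' n') (e : E n) (w : T l n) :
    thom ρ t (act e w) = act (ρ e) (thom ρ t w) := by
  have : ((thom ρ t).comp (act e) : T l n →* T l' n') = (act (ρ e)).comp (thom ρ t) := by
    ext p; simp [act_act]
  exact DFunLike.congr_fun this w

lemma thom_comp {l n l' n' l'' n'' : ℕ} (ρ : E n →+ E n') (t : Fin l → T l' n')
    (ρ' : E n' →+ E n'') (t' : Fin l' → T l'' n'') (w : T l n) :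
    thom ρ' t' (thom ρ t w) = thom (ρ'.comp ρ) (fun i => thom ρ' t' (t i)) w := by
  have : ((thom ρ' t').comp (thom ρ t) : T l n →* T l'' n'') =
      thom (ρ'.comp ρ) (fun i => thom ρ' t' (t i)) := by
    ext p; simp [thom_act]
  exact DFunLike.congr_fun this w

lemma act_eq_thom {l n : ℕ} (e : E n) (w : T l n) :
    act e w = thom (AddMonoidHom.id (E n)) (fun i => yy i e) w := by
  have : (act e : T l n →* T l n) = thom (AddMonoidHom.id (E n)) (fun i => yy i e) := by
    ext p; simp [yy, add_comm]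
  rw [← this]

/-- A T-invariant family of normal subgroups. -/
@[ext] structure TIF where
  S : ∀ l n : ℕ, Subgroup (T l n)
  normal : ∀ (l n : ℕ) (w : T l n), w ∈ S l n → ∀ t : T l n, t * w * t⁻¹ ∈ S l n
  thom_mem : ∀ (l n l' n' : ℕ) (ρ : E n →+ E n') (t : Fin l → T l' n') (w : T l n),
    w ∈ S l n → thom ρ t w ∈ S l' n'

instance : PartialOrder TIF where
  le M M' := ∀ l n, M.S l n ≤ M'.S l n
  le_refl _ _ _ := le_rfl
  le_trans _ _ _ h h' l n := (h l n).trans (h' l n)
  le_antisymm M M' h h' := by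
    ext l n w
    exact ⟨fun hw => h l n hw, fun hw => h' l n hw⟩

lemma TIF.le_def (M M' : TIF) : M ≤ M' ↔ ∀ l n, M.S l n ≤ M'.S l n := Iff.rfl

/-- The ascending chain condition for T-invariant families between `A` and `B`. -/
def ACC (A B : TIF) : Prop :=
  ∀ M : ℕ → TIF, Monotone M → (∀ k, A ≤ M k) → (∀ k, M k ≤ B) → ∃ k₀, ∀ k, k₀ ≤ k → M k = M k₀

/-- The family `T_2`. -/
noncomputable def T2 : TIF where
  S l n :=
    { carrier := {w | bar w = 0}
      mul_mem' := by intro a b ha hb; simp only [Set.mem_setOf_eq] at *; simp [ha, hb]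
      one_mem' := by simp
      inv_mem' := by intro a ha; simp only [Set.mem_setOf_eq] at *; simp [ha] }
  normal := by
    intro l n w hw t
    simp only [Subgroup.mem_mk, Submonoid.mem_mk, Subsemigroup.mem_mk, Set.mem_setOf_eq] at *
    simp [hw, u_add_self]
  thom_mem := by
    intro l n l' n' ρ t w hw
    simp only [Subgroup.mem_mk, Submonoid.mem_mk, Subsemigroup.mem_mk, Set.mem_setOf_eq] at *
    rw [bar_map, hw, map_zero]

lemma mem_T2 {l n : ℕ} (w : T l n) : w ∈ T2.S l n ↔ bar w = 0 := Iff.rfl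

/-- The family `T_3`. -/
noncomputable def T3 : TIF where
  S l n :=
    { carrier := {w | bar w = 0 ∧ dd w = 0}
      mul_mem' := by
        rintro a b ⟨ha, ha'⟩ ⟨hb, hb'⟩
        refine ⟨by simp [ha, hb], ?_⟩
        funext i; rw [dd_mul, ha', hb']; simp
      one_mem' := by simp
      inv_mem' := by
        rintro a ⟨ha, ha'⟩
        refine ⟨by simp [ha], ?_⟩
        funext i; rw [dd_inv, ha']; simp }
  normal := by
    rintro l n w ⟨hw, hw'⟩ t
    refine ⟨by simp [hw, u_add_self], ?_⟩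
    funext i
    rw [dd_mul, dd_mul, dd_inv, hw', bar_mul, hw, add_zero, Pi.zero_apply, mul_zero, add_zero,
      ← mul_assoc, br_mul_self, one_mul, lam_add_self]
  thom_mem := by
    rintro l n l' n' ρ t w ⟨hw, hw'⟩
    exact ⟨by rw [bar_map, hw, map_zero], by rw [dd_map, hw', map_zero]⟩

lemma mem_T3 {l n : ℕ} (w : T l n) : w ∈ T3.S l n ↔ bar w = 0 ∧ dd w = 0 := Iff.rfl

/-- `F°(m)_{i,j,g} = ∑_e (-e)(m_{(i,e),(j,e+g)})`. -/
noncomputable def F0 {l n : ℕ} (m : Fin l × E n → Fin l × E n → Lam (Fin l × E n))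
    (i j : Fin l) (g : E n) : Lam (Fin l × E n) :=
  ∑ e : E n, lbar (act (-e)) (m (i, e) (j, e + g))

/-- The subgroup `C(l,n)` of `Λ^(ι×ι)`. -/
noncomputable def CC (l n : ℕ) : AddSubgroup (Fin l × E n → Fin l × E n → Lam (Fin l × E n)) where
  carrier := {m | ∀ i j g, F0 m i j g = 0}
  zero_mem' := by intro i j g; simp [F0]
  add_mem' := by
    intro a b ha hb i j g
    have h : F0 (a + b) i j g = F0 a i j g + F0 b i j g := by
      simp [F0, Finset.sum_add_distrib]
    rw [h, ha i j g, hb i j g, add_zero]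
  neg_mem' := by
    intro a ha i j g
    have h : F0 (-a) i j g = - F0 a i j g := by
      simp [F0]
    rw [h, ha i j g, neg_zero]

lemma mem_CC {l n : ℕ} (m : Fin l × E n → Fin l × E n → Lam (Fin l × E n)) :
    m ∈ CC l n ↔ ∀ i j g, F0 m i j g = 0 := Iff.rfl

end Pool.Agent.OH
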