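import Pool.Agent.OH.ZDefs

set_option autoImplicit false
set_option linter.unusedSectionVars false

namespace Pool.Agent.OH

/-! # Patterns -/

/-- `T ⊂ V_n` is `D`-represented (3.1). -/
def Rep (rk : ℕ → Ordinal.{0}) (D : Finset ℕ) {n : ℕ} (T : Set (E n)) : Prop :=
  ∃ (η : E n →ₗ[ZMod 3] ZMod 3) (w y : ℕ → (E n →ₗ[ZMod 3] ZMod 3)),
    (D.Nonempty → LinearIndependent (ZMod 3)
      (fun x : Unit ⊕ ({i // i < mD D} ⊕ {b // b ∈ D}) =>
        (Sum.elim (fun _ => η) (Sum.elim (fun i => w i.1) (fun b => y b.1)) x :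
          E n →ₗ[ZMod 3] ZMod 3))) ∧
    T = {v | Tp rk D (fun v => η v) (fun i v => w i v) (fun b v => y b v) v ∨
      Tp rk D (fun v => η v) (fun i v => w i v) (fun b v => y b v) (-v)}

/-! # `R`, the augmentation ideal -/

section RRsec
variable {ι κ : Type} [Fintype ι] [DecidableEq ι] [Fintype κ] [DecidableEq κ]

theorem bar_surjective : Function.Surjective (bar : FreeGroup ι → (ι → ZMod 2)) := by
  intro u
  let A : AddSubgroup (ι → ZMod 2) :=
    { carrier := {v | ∃ w : FreeGroup ι, bar w = v}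
      zero_mem' := ⟨1, bar_one⟩
      add_mem' := by
        rintro a b ⟨v, rfl⟩ ⟨w, rfl⟩
        exact ⟨v * w, bar_mul v w⟩
      neg_mem' := by
        rintro a ⟨v, rfl⟩
        exact ⟨v, (u_neg _).symm⟩ }
  have h : u ∈ A := by
    rw [← Finset.univ_sum_single u]
    refine sum_mem fun a _ => ?_
    have h2 : u a = 0 ∨ u a = 1 := by
      generalize u a = x; revert x; decide
    rcases h2 with h2 | h2
    · rw [h2, Pi.single_zero]; exact A.zero_mem
    · rw [h2]; exact ⟨FreeGroup.of a, bar_of a⟩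
  exact h

lemma dd_conj (t w : FreeGroup ι) (hw : bar w = 0) :
    dd (t * w * t⁻¹) = fun i => br (bar t) * dd w i := by
  funext i
  rw [dd_mul, dd_mul, dd_inv, bar_mul, hw, add_zero, ← mul_assoc, br_mul_self, one_mul,
    add_right_comm, lam_add_self, zero_add]

/-- `R = d(T_2)`, a `Λ`-submodule of `Λ^ι`. -/
noncomputable def RR (ι : Type) [Fintype ι] [DecidableEq ι] : Submodule (Lam ι) (ι → Lam ι) where
  carrier := {p | ∃ w : FreeGroup ι, bar w = 0 ∧ dd w = p}
  zero_mem' := ⟨1, bar_one, dd_one⟩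
  add_mem' := by
    rintro a b ⟨v, hv, rfl⟩ ⟨w, hw, rfl⟩
    refine ⟨v * w, by simp [hv, hw], ?_⟩
    funext i
    rw [dd_mul, hv, br_zero, one_mul]; rfl
  smul_mem' := by
    rintro f p ⟨w, hw, rfl⟩
    let A : AddSubgroup (ι → Lam ι) :=
      { carrier := {p | ∃ w : FreeGroup ι, bar w = 0 ∧ dd w = p}
        zero_mem' := ⟨1, bar_one, dd_one⟩
        add_mem' := by
          rintro a b ⟨v, hv, rfl⟩ ⟨w, hw, rfl⟩
          refine ⟨v * w, by simp [hv, hw], ?_⟩
          funext i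
          rw [dd_mul, hv, br_zero, one_mul]; rfl
        neg_mem' := by
          rintro a ⟨v, hv, rfl⟩
          refine ⟨v, hv, ?_⟩
          funext i; exact (lam_neg _).symm }
    have key : f • dd w ∈ A := by
      induction f using AddMonoidAlgebra.induction_linear with
      | zero => rw [zero_smul]; exact A.zero_mem
      | add x y hx hy => rw [add_smul]; exact A.add_mem hx hy
      | single m r =>
        have h2 : r = 0 ∨ r = 1 := by revert r; decide
        rcases h2 with rfl | rfl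
        · rw [AddMonoidAlgebra.single_zero, zero_smul]; exact A.zero_mem
        · obtain ⟨t, rfl⟩ := bar_surjective m
          refine ⟨t * w * t⁻¹, by simp [hw, u_add_self], ?_⟩
          rw [dd_conj t w hw]; rfl
    exact key

lemma mem_RR (p : ι → Lam ι) : p ∈ RR ι ↔ ∃ w : FreeGroup ι, bar w = 0 ∧ dd w = p := Iff.rfl

/-- The augmentation ideal of `Λ`. -/
noncomputable def II (ι : Type) : Ideal (Lam ι) := Ideal.span (Set.range (xx (ι := ι)))

end RRsec

/-! # Homogeneous elements and the maps `th_K` -/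

/-- `u ∈ U_{±v}`. -/
def Hmg {l n : ℕ} (v : E n) (u : U l n) : Prop :=
  ∀ k : E n, (dot v k = 0 → uact k u = u) ∧ (dot v k ≠ 0 → u + uact k u + uact (k + k) u = 0)

/-- The projection `e ↦ e - ⟨a,e⟩ k` (used when `⟨a,k⟩ = 1`). -/
def piK {n : ℕ} (k a : E n) : E n →+ E n where
  toFun e := e - dot a e • k
  map_zero' := by simp [dot]
  map_add' x y := by simp only [dot, dotProduct_add, add_smul]; abel

/-- `th_K : y_i ↦ y_{i,0} y_{i,k} y_{i,2k}` over `π_K`. -/
def thK {l n : ℕ} (k a : E n) : T l n →* T l n :=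
  thom (piK k a) fun i => yy i 0 * yy i k * yy i (k + k)

/-- Labelled elements of `R` (8.2); the label set is `{a, b}`. -/
def Lab {l n : ℕ} (a b : E n) (ξ : Fin l × E n → Lam (Fin l × E n)) : Prop :=
  (∃ t : T l n, Hmg a (bar t) ∧ b = 0 ∧ ξ = fun i => xx (bar t) * dd t i) ∨
  (∃ t s : T l n, Hmg a (bar t) ∧ Hmg b (bar s) ∧
    ξ = fun i => xx (bar s) * dd t i + xx (bar t) * dd s i + xx (bar t) * xx (bar s) * dd t i)

/-! # T-ideals -/

/-- A T-ideal family (section 7). -/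
structure TIdeal where
  J : ∀ l n : ℕ, Ideal (Lam (Fin l × E n))
  thom_mem : ∀ (l n l' n' : ℕ) (ρ : E n →+ E n') (t : Fin l → T l' n')
    (g : Lam (Fin l × E n)), g ∈ J l n → lbar (thom ρ t) g ∈ J l' n'

/-! # Layer 4 -/

/-- `X_g`. -/
def Xg (rk : ℕ → Ordinal.{0}) (g : Ordinal.{0}) : Set (Finset ℕ) :=
  {D | IsDS rk D ∧ ∀ b ∈ D, rk b < g}

/-- `F(y,u)` is additive and `E`-invariant in `y`, and in `D_X` in `u`. -/
def IsForm (rk : ℕ → Ordinal.{0}) (X : Set (Finset ℕ)) (s : Shape) (F : s.W → s.W → F4) : Prop :=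
  (∀ y y' u, F (y + y') u = F y u + F y' u) ∧ (∀ e y u, F (sact s e y) u = F y u) ∧
    ∀ y, F y ∈ DX rk X s

/-- Equivariant additive maps between shapes. -/
def Equi (s s' : Shape) (ρ : E s.n →+ E s'.n) (φ : s.W →+ s'.W) : Prop :=
  ∀ e x, φ (sact s e x) = sact s' (ρ e) (φ x)

/-- Families of function spaces. -/
abbrev Fam : Type 1 := ∀ s : Shape, Submodule F4 (s.W → s.W → F4)

/-- Pullback-closed families of forms. -/
structure IsGoodFam (rk : ℕ → Ordinal.{0}) (X : Set (Finset ℕ)) (D : Fam) : Prop where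
  form : ∀ s F, F ∈ D s → IsForm rk X s F
  pull : ∀ (s s' : Shape) (ρ : E s.n →+ E s'.n) (φ : s.W →+ s'.W), Equi s s' ρ φ →
    ∀ F ∈ D s', (fun y u => F (φ y) (φ u)) ∈ D s

/-- The monomial `u^a u_Q`. -/
def mono (s : Shape) (a : s.J → ℕ) (Q : Finset (Fin s.p)) (u : s.W) : F4 :=
  (∏ j, u.1 j ^ a j) * ∏ i ∈ Q, F4.c2 (u.2 i)

/-- `∑_i y_i (c_i u^a u_{[p]∖i} + d_i u^a u_{[p]})`. -/
def Fcd (s : Shape) (a : s.J → ℕ) (c d : Fin s.p → F4) : s.W → s.W → F4 := fun y u =>
  ∑ i, F4.c2 (y.2 i) *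
    (c i * mono s a (Finset.univ.erase i) u + d i * mono s a Finset.univ u)

/-- Multiplication by an element of the monoid `F₄^J × F₂^p`. -/
def scal (s : Shape) (c : s.W) (x : s.W) : s.W := (fun j => c.1 j * x.1 j, fun i => c.2 i * x.2 i)

/-- The projection to the component of exponent `a` and full support. -/
def comp (s : Shape) (a : s.J → ℕ) (F : s.W → s.W → F4) : s.W → s.W → F4 := fun y u =>
  ∑ c : s.W, (∏ j, c.1 j ^ (3 - a j)) * F (scal s c y) (scal s c u)

open Classical in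
/-- The coefficient of `u^a u_Q` in `f` (for `1 ≤ a ≤ 3`). -/
noncomputable def cfQ (s : Shape) (a : s.J → ℕ) (Q : Finset (Fin s.p)) (f : s.W → F4) : F4 :=
  ∑ c ∈ Finset.univ.filter (fun c : s.W => ∀ i, i ∉ Q → c.2 i = 0),
    (∏ j, c.1 j ^ (3 - a j)) * f c

/-- Exponent condition `1 ≤ a ≤ 3`. -/
def Exp {J : Type} (a : J → ℕ) : Prop := ∀ j, 1 ≤ a j ∧ a j ≤ 3

/-- `T_s` for the labels `v`. -/
def Tset {n : ℕ} {J : Type} (v : J → E n) : Set (E n) := {x | x ≠ 0 ∧ ∀ j, v j ≠ x ∧ v j ≠ -x}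

open Classical in
/-- The residue condition of (4.1). -/
def Residue {n : ℕ} {J : Type} [Fintype J] (v : J → E n) (a : J → ℕ) : Prop :=
  ∀ x : E n, x ≠ 0 → (∑ j ∈ Finset.univ.filter (fun j => v j = x), (a j : ZMod 3)) =
    ∑ j ∈ Finset.univ.filter (fun j => v j = -x), (a j : ZMod 3)

/-- Normalised vector: the first nonzero coordinate is `1`. -/
def PosV {n : ℕ} (v : E n) : Prop := ∃ i, v i = 1 ∧ ∀ i' < i, v i' = 0

/-- The labels span. -/
def Spanning {n : ℕ} {J : Type} (v : J → E n) : Prop :=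
  Submodule.span (ZMod 3) (Set.range v) = ⊤

open Classical in
/-- Block reductions: the `J`-part of a morphism as in (5.3). -/
def BlockRed {n n' : ℕ} {J J' : Type} [Fintype J] [Fintype J'] (v : J → E n) (a : J → ℕ)
    (v' : J' → E n') (b : J' → ℕ) (ψ : E n' →ₗ[ZMod 3] E n) : Prop :=
  ∃ φ : (J → F4) →+ (J' → F4),
    (∀ j x, ψ (v' j) = 0 → φ x j = 0) ∧
    (∀ (e : E n) x j, φ (fun B => F4.chi (dot (v B) e) * x B) j =
      F4.chi (dot (ψ (v' j)) e) * φ x j) ∧
    ∑ c : J → F4, (∏ B, c B ^ (3 - a B)) *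
      ∏ j ∈ Finset.univ.filter (fun j => ψ (v' j) ≠ 0), φ c j ^ b j = 1

/-- The shape of `U(l,n)`. -/
noncomputable def shapeU (l n : ℕ) : Shape where
  n := n
  J := Fin l × {v : E n // PosV v}
  fJ := by classical exact Fintype.ofFinite _
  dJ := by classical exact inferInstance
  v := fun j => j.2.1
  hv := fun j h0 => by
    obtain ⟨k, hk, -⟩ := j.2.2
    rw [show (j.2.1 : E n) = 0 from h0] at hk
    exact absurd hk (by simp)
  p := l

end Pool.Agent.OH
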