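import Pool.Agent.OH.ZDefs

set_option autoImplicit false

/-! # (3.0): finite down-sets of `(ℕ, ⊑)` are well-quasi-ordered by inclusion -/

namespace Pool.Agent.OH

theorem sq_refl (rk : ℕ → Ordinal.{0}) (a : ℕ) : sq rk a a := ⟨le_rfl, le_rfl⟩

theorem sq_trans {rk : ℕ → Ordinal.{0}} {a b c : ℕ} (h : sq rk a b) (h' : sq rk b c) :
    sq rk a c := ⟨h.1.trans h'.1, h.2.trans h'.2⟩

theorem sq_antisymm {rk : ℕ → Ordinal.{0}} {a b : ℕ} (h : sq rk a b) (h' : sq rk b a) : a = b :=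
  le_antisymm h.1 h'.1

/-- every sequence has a good pair for `⊑` -/
theorem sq_good (rk : ℕ → Ordinal.{0}) (a : ℕ → ℕ) : ∃ m n, m < n ∧ sq rk (a m) (a n) := by
  obtain ⟨g, hg⟩ := exists_increasing_or_nonincreasing_subseq (· ≤ ·) a
  rcases hg with hg | hg
  · have wf : WellFounded ((· < ·) : Ordinal.{0} → Ordinal.{0} → Prop) := wellFounded_lt
    obtain ⟨x, ⟨m, rfl⟩, hmin⟩ := wf.has_min (Set.range fun n => rk (a (g n))) ⟨_, ⟨0, rfl⟩⟩
    exact ⟨g m, g (m+1), g.strictMono (Nat.lt_succ_self m), hg m (m+1) (Nat.lt_succ_self m),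
      not_lt.mp (hmin _ ⟨m+1, rfl⟩)⟩
  · exfalso
    have hlt : ∀ n, a (g (n+1)) < a (g n) := fun n => not_le.mp (hg n (n+1) (Nat.lt_succ_self n))
    have : ∀ n, a (g n) + n ≤ a (g 0) := by
      intro n
      induction n with
      | zero => simp
      | succ n ih => have := hlt n; omega
    have h1 := this (a (g 0) + 1)
    omega

theorem sq_pwo (rk : ℕ → Ordinal.{0}) : (Set.univ : Set ℕ).PartiallyWellOrderedOn (sq rk) := by
  intro a
  obtain ⟨m, n, h, h'⟩ := sq_good rk (fun n => (a n).1)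
  exact ⟨m, n, h, h'⟩

/-- (3.0): among finite down-sets `D 0, D 1, …` of `(ℕ, ⊑)` some earlier one is contained in a
later one. -/
theorem downset_good (rk : ℕ → Ordinal.{0}) (D : ℕ → Finset ℕ)
    (hD : ∀ n, IsDS rk (D n)) : ∃ s t, s < t ∧ D s ⊆ D t := by
  have : IsPreorder ℕ (sq rk) :=
    { refl := sq_refl rk, trans := fun _ _ _ h h' => sq_trans h h' }
  have hH := (sq_pwo rk).partiallyWellOrderedOn_sublistForall₂ (sq rk)
  obtain ⟨m, n, hmn, hle⟩ := hH (fun n => ⟨(D n).toList, by simp⟩)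
  refine ⟨m, n, hmn, fun x hx => ?_⟩
  change List.SublistForall₂ (sq rk) (D m).toList (D n).toList at hle
  rw [List.sublistForall₂_iff] at hle
  obtain ⟨l, hl, hsub⟩ := hle
  have hx' : x ∈ (D m).toList := Finset.mem_toList.mpr hx
  obtain ⟨y, hy, hxy⟩ : ∃ y ∈ l, sq rk x y := by
    clear hmn hsub
    generalize (D m).toList = L at hl hx'
    induction hl with
    | nil => simp at hx'
    | cons h _ ih =>
      rcases List.mem_cons.mp hx' with rfl | hx'
      · exact ⟨_, List.mem_cons_self, h⟩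
      · obtain ⟨y, hy, hxy⟩ := ih hx'
        exact ⟨y, List.mem_cons_of_mem _ hy, hxy⟩
  exact hD n y (Finset.mem_toList.mp (hsub.subset hy)) x hxy

/-- (3.0), subsequence form: a sequence of finite down-sets has a subsequence increasing under
inclusion. -/
theorem downset_subseq (rk : ℕ → Ordinal.{0}) (D : ℕ → Finset ℕ)
    (hD : ∀ n, IsDS rk (D n)) : ∃ g : ℕ ↪o ℕ, ∀ m n, m ≤ n → D (g m) ⊆ D (g n) := by
  obtain ⟨g, hg⟩ := exists_increasing_or_nonincreasing_subseq (· ⊆ ·) D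
  rcases hg with hg | hg
  · refine ⟨g, fun m n h => ?_⟩
    rcases h.eq_or_lt with rfl | h
    · exact Finset.Subset.refl _
    · exact hg m n h
  · exfalso
    obtain ⟨s, t, hst, h⟩ := downset_good rk (fun n => D (g n)) (fun n => hD (g n))
    exact hg s t hst h

end Pool.Agent.OH
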