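import Pool.Agent.OH.Defs3

set_option autoImplicit false
set_option linter.unusedSectionVars false

namespace Pool.Agent.OH

variable {ι κ μ : Type} [Fintype ι] [DecidableEq ι] [Fintype κ] [DecidableEq κ]
  [Fintype μ] [DecidableEq μ]

theorem ubar_comp (φ : FreeGroup ι →* FreeGroup κ) (ψ : FreeGroup κ →* FreeGroup μ)
    (u : ι → ZMod 2) : ubar (ψ.comp φ) u = ubar ψ (ubar φ u) := by
  have h1 : ubar (ψ.comp φ) u = ∑ a, u a • bar (ψ (φ (FreeGroup.of a))) := rfl
  have h2 : ubar φ u = ∑ a, u a • bar (φ (FreeGroup.of a)) := rfl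
  rw [h1, h2, map_sum]
  refine Finset.sum_congr rfl fun a _ => ?_
  rw [ZMod.map_smul, bar_map]

theorem lbar_comp (φ : FreeGroup ι →* FreeGroup κ) (ψ : FreeGroup κ →* FreeGroup μ)
    (f : Lam ι) : lbar (ψ.comp φ) f = lbar ψ (lbar φ f) := by
  have h : ubar (ψ.comp φ) = (ubar ψ).comp (ubar φ) :=
    AddMonoidHom.ext fun u => ubar_comp φ ψ u
  have h2 : lbar (ψ.comp φ) = (lbar ψ).comp (lbar φ) := by
    unfold lbar
    rw [h]
    exact AddMonoidAlgebra.mapDomainRingHom_comp _ _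
  rw [h2]
  rfl

theorem pstar_comp (φ : FreeGroup ι →* FreeGroup κ) (ψ : FreeGroup κ →* FreeGroup μ)
    (p : ι → Lam ι) : pstar (ψ.comp φ) p = pstar ψ (pstar φ p) := by
  have h2 : pstar φ p = ∑ a, (fun k => lbar φ (p a) * dd (φ (FreeGroup.of a)) k) := by
    funext k
    rw [Finset.sum_apply]
    rfl
  funext k
  rw [h2, map_sum, Finset.sum_apply]
  show ∑ a, lbar (ψ.comp φ) (p a) * dd (ψ (φ (FreeGroup.of a))) k = _
  refine Finset.sum_congr rfl fun a _ => ?_
  rw [pstar_mul, lbar_comp, dd_map]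

theorem ppstar_mul (φ : FreeGroup ι →* FreeGroup κ) (f : Lam ι) (m : ι → ι → Lam ι) (k k' : κ) :
    ppstar φ (fun i j => f * m i j) k k' = lbar φ f * ppstar φ m k k' := by
  show ∑ a, ∑ b, lbar φ (f * m a b) *
    (dd (φ (FreeGroup.of a)) k * dd (φ (FreeGroup.of b)) k') = lbar φ f * ∑ a, ∑ b,
    lbar φ (m a b) * (dd (φ (FreeGroup.of a)) k * dd (φ (FreeGroup.of b)) k')
  rw [Finset.mul_sum]
  refine Finset.sum_congr rfl fun a _ => ?_
  rw [Finset.mul_sum]
  refine Finset.sum_congr rfl fun b _ => ?_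
  rw [map_mul]
  ring

theorem ppstar_tensor (φ : FreeGroup ι →* FreeGroup κ) (p q : ι → Lam ι) (k k' : κ) :
    ppstar φ (fun i j => p i * q j) k k' = pstar φ p k * pstar φ q k' := by
  show ∑ a, ∑ b, lbar φ (p a * q b) *
    (dd (φ (FreeGroup.of a)) k * dd (φ (FreeGroup.of b)) k') =
    (∑ a, lbar φ (p a) * dd (φ (FreeGroup.of a)) k) *
    (∑ b, lbar φ (q b) * dd (φ (FreeGroup.of b)) k')
  rw [Finset.sum_mul_sum]
  refine Finset.sum_congr rfl fun a _ => ?_
  refine Finset.sum_congr rfl fun b _ => ?_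
  rw [map_mul]
  ring

theorem ppstar_comp (φ : FreeGroup ι →* FreeGroup κ) (ψ : FreeGroup κ →* FreeGroup μ)
    (m : ι → ι → Lam ι) : ppstar (ψ.comp φ) m = ppstar ψ (ppstar φ m) := by
  have h2 : ppstar φ m = ∑ a, ∑ b, (fun k k' => lbar φ (m a b) *
      (dd (φ (FreeGroup.of a)) k * dd (φ (FreeGroup.of b)) k')) := by
    funext k k'
    rw [Finset.sum_apply, Finset.sum_apply]
    refine Finset.sum_congr rfl fun a _ => ?_
    rw [Finset.sum_apply, Finset.sum_apply]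
  funext k k'
  rw [h2, map_sum, Finset.sum_apply, Finset.sum_apply]
  show ∑ a, ∑ b, lbar (ψ.comp φ) (m a b) *
    (dd (ψ (φ (FreeGroup.of a))) k * dd (ψ (φ (FreeGroup.of b))) k') = _
  refine Finset.sum_congr rfl fun a _ => ?_
  rw [map_sum, Finset.sum_apply, Finset.sum_apply]
  refine Finset.sum_congr rfl fun b _ => ?_
  rw [ppstar_mul, ppstar_tensor, lbar_comp, dd_map ψ (φ (FreeGroup.of a)),
    dd_map ψ (φ (FreeGroup.of b))]

end Pool.Agent.OH
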