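import Pool.Agent.OH.F1a
import Pool.Agent.OH.F1b

set_option autoImplicit false
set_option linter.unusedSectionVars false

namespace Pool.Agent.OH

variable {ι κ μ : Type} [Fintype ι] [DecidableEq ι] [Fintype κ] [DecidableEq κ]
  [Fintype μ] [DecidableEq μ]

lemma F1c_dd_sq (t : FreeGroup ι) : dd (t ^ 2) = fun i => xx (bar t) * dd t i := by
  funext i
  rw [pow_two, dd_mul, xx, add_mul, one_mul]

lemma F1c_bar_sq (t : FreeGroup ι) : bar (t ^ 2) = 0 := by
  rw [pow_two, bar_mul, u_add_self]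

/-- `R` is spanned by the `x_{t̄} dt = d(t²)`. -/
theorem RR_closure (p : ι → Lam ι) (hp : p ∈ RR ι) :
    p ∈ AddSubgroup.closure {q : ι → Lam ι | ∃ t : FreeGroup ι, q = fun i => xx (bar t) * dd t i} := by
  obtain ⟨w, hw, rfl⟩ := hp
  have h := T2_closure w hw
  have key : bar w = 0 ∧ dd w ∈ AddSubgroup.closure
      {q : ι → Lam ι | ∃ t : FreeGroup ι, q = fun i => xx (bar t) * dd t i} := by
    refine Subgroup.closure_induction (p := fun x _ => bar x = 0 ∧ dd x ∈ AddSubgroup.closure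
      {q : ι → Lam ι | ∃ t : FreeGroup ι, q = fun i => xx (bar t) * dd t i}) ?_ ?_ ?_ ?_ h
    · rintro x ⟨t, rfl⟩
      exact ⟨F1c_bar_sq t, AddSubgroup.subset_closure ⟨t, F1c_dd_sq t⟩⟩
    · refine ⟨bar_one, ?_⟩
      rw [dd_one]
      exact zero_mem _
    · rintro x y _ _ ⟨hx, hx'⟩ ⟨hy, hy'⟩
      refine ⟨by rw [bar_mul, hx, hy, add_zero], ?_⟩
      have h1 : dd (x * y) = dd x + dd y := by
        funext i
        rw [dd_mul, hx, br_zero, one_mul, Pi.add_apply]
      rw [h1]
      exact add_mem hx' hy'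
    · rintro x _ ⟨hx, hx'⟩
      refine ⟨by rw [bar_inv, hx], ?_⟩
      have h1 : dd x⁻¹ = dd x := by
        funext i
        rw [dd_inv, hx, br_zero, one_mul]
      rw [h1]
      exact hx'
  exact key.2

theorem RR_sq (t : FreeGroup ι) : (fun i => xx (bar t) * dd t i) ∈ RR ι ∧
    dd (t ^ 2) = fun i => xx (bar t) * dd t i :=
  ⟨⟨t ^ 2, F1c_bar_sq t, F1c_dd_sq t⟩, F1c_dd_sq t⟩

theorem pstar_RR (φ : FreeGroup ι →* FreeGroup κ) (p : ι → Lam ι) (hp : p ∈ RR ι) :
    pstar φ p ∈ RR κ := by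
  obtain ⟨w, hw, rfl⟩ := hp
  exact ⟨φ w, by rw [bar_map, hw, map_zero], dd_map φ w⟩

lemma F1c_xx_sq (u : ι → ZMod 2) : xx u * xx u = 0 := by
  have h : xx u * xx u = (1 + br u * br u) + (br u + br u) := by
    rw [xx]; ring
  rw [h, br_mul_self, lam_add_self, lam_add_self, add_zero]

/-- `g² = 0` for `g` in the augmentation ideal. -/
theorem II_sq (g : Lam ι) (hg : g ∈ II ι) : g * g = 0 := by
  refine Submodule.span_induction (p := fun x _ => x * x = 0) ?_ ?_ ?_ ?_ hg
  · rintro x ⟨u, rfl⟩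
    exact F1c_xx_sq u
  · exact mul_zero _
  · intro x y _ _ hx hy
    have h : (x + y) * (x + y) = (x * x + y * y) + (x * y + x * y) := by ring
    rw [h, hx, hy, lam_add_self, zero_add, lam_add_self]
  · intro a x _ hx
    have h : (a • x) * (a • x) = (a * a) * (x * x) := by
      rw [smul_eq_mul]; ring
    rw [h, hx, mul_zero]

theorem II_nilp : ∃ N, II ι ^ N = ⊥ := by
  have hfg : (II ι).FG := Submodule.fg_span (Set.finite_range _)
  have h : IsNilpotent (II ι) := by
    rw [Ideal.FG.isNilpotent_iff_le_nilradical hfg]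
    intro g hg
    rw [mem_nilradical]
    exact ⟨2, by rw [pow_two]; exact II_sq g hg⟩
  obtain ⟨N, hN⟩ := h
  exact ⟨N, hN⟩

lemma F1c_lbar_xx (φ : FreeGroup ι →* FreeGroup κ) (u : ι → ZMod 2) :
    lbar φ (xx u) = xx (ubar φ u) := by
  rw [xx, xx, map_add, map_one, lbar_br]

theorem lbar_II (φ : FreeGroup ι →* FreeGroup κ) (g : Lam ι) (j : ℕ) (hg : g ∈ II ι ^ j) :
    lbar φ g ∈ II κ ^ j := by
  have h1 : Ideal.map (lbar φ) (II ι) ≤ II κ := by
    rw [II, Ideal.map_span, Ideal.span_le]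
    rintro x ⟨y, ⟨u, rfl⟩, rfl⟩
    rw [F1c_lbar_xx]
    exact Ideal.subset_span ⟨_, rfl⟩
  have h2 : lbar φ g ∈ Ideal.map (lbar φ) (II ι ^ j) := Ideal.mem_map_of_mem _ hg
  rw [Ideal.map_pow] at h2
  exact Ideal.pow_right_mono h1 j h2

/-- `R ≤ I·P` componentwise. -/
theorem RR_le_II (p : ι → Lam ι) (hp : p ∈ RR ι) (i : ι) : p i ∈ II ι := by
  have h := RR_closure p hp
  refine AddSubgroup.closure_induction (p := fun q _ => q i ∈ II ι) ?_ ?_ ?_ ?_ h
  · rintro q ⟨t, rfl⟩
    exact Ideal.mul_mem_right _ _ (Ideal.subset_span ⟨_, rfl⟩)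
  · exact zero_mem _
  · intro x y _ _ hx hy
    exact add_mem hx hy
  · intro x _ hx
    exact neg_mem hx

lemma F1c_inv_of_xx (g : Lam ι) (h : ∀ a : ι, xx (Pi.single a 1) * g = 0) (u : ι → ZMod 2) :
    br u * g = g := by
  have h1 : ∀ a : ι, br (Pi.single a 1) * g = g := by
    intro a
    have h2 := h a
    rw [xx, add_mul, one_mul] at h2
    have h3 : br (Pi.single a 1) * g = -g := (neg_eq_of_add_eq_zero_right h2).symm
    rw [h3, lam_neg]
  have h4 : ∀ s : Finset ι, br (∑ a ∈ s, Pi.single a (u a) : ι → ZMod 2) * g = g := by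
    intro s
    induction s using Finset.induction_on with
    | empty => rw [Finset.sum_empty, br_zero, one_mul]
    | insert a s ha ih =>
      rw [Finset.sum_insert ha, br_add, mul_assoc, ih]
      have h5 : u a = 0 ∨ u a = 1 := by
        generalize u a = x; revert x; decide
      rcases h5 with h5 | h5
      · rw [h5, Pi.single_zero, br_zero, one_mul]
      · rw [h5]; exact h1 a
  have h6 := h4 Finset.univ
  rwa [Finset.univ_sum_single u] at h6

lemma F1c_coeff (g : Lam ι) (h : ∀ u : ι → ZMod 2, br u * g = g) (v : ι → ZMod 2) :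
    g.coeff v = g.coeff 0 := by
  have h1 : (br v * g).coeff v = g.coeff 0 := by
    have h2 := AddMonoidAlgebra.coeff_single_mul_add g (1 : ZMod 2) v 0
    rw [add_zero, one_mul] at h2
    exact h2
  rw [← h1, h v]

lemma F1c_norm_zero : (∏ a : ι, xx (Pi.single a 1) : Lam ι).coeff 0 = 1 := by
  have h1 : (∏ a : ι, xx (Pi.single a 1) : Lam ι) =
      ∑ t ∈ (Finset.univ : Finset ι).powerset, br (∑ a ∈ t, Pi.single a 1 : ι → ZMod 2) := by
    simp only [xx]
    rw [Finset.prod_one_add]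
    refine Finset.sum_congr rfl fun t ht => ?_
    clear ht
    induction t using Finset.induction_on with
    | empty => rw [Finset.prod_empty, Finset.sum_empty, br_zero]
    | insert a s ha ih => rw [Finset.prod_insert ha, Finset.sum_insert ha, br_add, ih]
  rw [h1, AddMonoidAlgebra.coeff_sum, Finsupp.finset_sum_apply]
  rw [Finset.sum_eq_single ∅]
  · rw [Finset.sum_empty, br, AddMonoidAlgebra.coeff_single, Finsupp.single_apply, if_pos rfl]
  · intro t _ ht
    obtain ⟨a, ha⟩ := Finset.nonempty_iff_ne_empty.mpr ht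
    rw [br, AddMonoidAlgebra.coeff_single, Finsupp.single_apply, if_neg]
    intro h0
    have h2 := congrFun h0 a
    rw [Finset.sum_apply, Finset.sum_eq_single a, Pi.single_eq_same, Pi.zero_apply] at h2
    · exact one_ne_zero h2
    · intro b _ hb
      rw [Pi.single_eq_of_ne (Ne.symm hb)]
    · intro h3
      exact absurd ha h3
  · intro h3
    exact absurd (Finset.empty_mem_powerset _) h3

/-- (0.3) every nonzero ideal contains the norm element `∏_a x_{y_a}`. -/
theorem norm_mem (J : Ideal (Lam ι)) (hJ : J ≠ ⊥) : ∏ a : ι, xx (Pi.single a 1) ∈ J := by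
  obtain ⟨g0, hg0J, hg0⟩ := Submodule.exists_mem_ne_zero_of_ne_bot hJ
  have h1 : ∀ s : Finset ι, ∃ g ∈ J, g ≠ 0 ∧ ∀ a ∈ s, xx (Pi.single a 1) * g = 0 := by
    intro s
    induction s using Finset.induction_on with
    | empty => exact ⟨g0, hg0J, hg0, fun a ha => absurd ha (Finset.notMem_empty _)⟩
    | insert b s hb ih =>
      obtain ⟨g, hgJ, hg, hga⟩ := ih
      by_cases h : xx (Pi.single b 1) * g = 0
      · refine ⟨g, hgJ, hg, fun a ha => ?_⟩
        rcases Finset.mem_insert.mp ha with rfl | ha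
        · exact h
        · exact hga a ha
      · refine ⟨xx (Pi.single b 1) * g, Ideal.mul_mem_left _ _ hgJ, h, fun a ha => ?_⟩
        rcases Finset.mem_insert.mp ha with rfl | ha
        · rw [← mul_assoc, F1c_xx_sq, zero_mul]
        · rw [mul_left_comm, hga a ha, mul_zero]
  obtain ⟨g, hgJ, hg, hga⟩ := h1 Finset.univ
  have h2 := F1c_inv_of_xx g (fun a => hga a (Finset.mem_univ a))
  have h3 := F1c_coeff g h2
  set N : Lam ι := ∏ a : ι, xx (Pi.single a 1) with hN
  have h4 : ∀ a : ι, xx (Pi.single a 1) * N = 0 := by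
    intro a
    rw [hN, ← Finset.mul_prod_erase Finset.univ _ (Finset.mem_univ a), ← mul_assoc, F1c_xx_sq,
      zero_mul]
  have h5 := F1c_coeff N (F1c_inv_of_xx N h4)
  have h6 : N.coeff 0 = 1 := F1c_norm_zero
  have h7 : g.coeff 0 = 1 := by
    have h8 : g.coeff 0 ≠ 0 := by
      intro h0
      apply hg
      refine AddMonoidAlgebra.ext (Finsupp.ext fun v => ?_)
      rw [h3 v, h0]
      rfl
    generalize g.coeff 0 = x at h8
    revert x
    decide
  have h9 : N = g := by
    refine AddMonoidAlgebra.ext (Finsupp.ext fun v => ?_)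
    rw [h5 v, h3 v, h6, h7]
  rw [h9]
  exact hgJ

end Pool.Agent.OH
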