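import Pool.Agent.OH.Defs3

set_option autoImplicit false
set_option linter.unusedSectionVars false

namespace Pool.Agent.OH

variable {ι κ μ : Type} [Fintype ι] [DecidableEq ι] [Fintype κ] [DecidableEq κ]
  [Fintype μ] [DecidableEq μ]

namespace F1aAux

/-- The subgroup generated by squares. -/
def SQ (ι : Type) : Subgroup (FreeGroup ι) :=
  Subgroup.closure {x : FreeGroup ι | ∃ t, x = t ^ 2}

lemma sq_mem (t : FreeGroup ι) : t ^ 2 ∈ SQ ι := Subgroup.subset_closure ⟨t, rfl⟩

instance SQ_normal : (SQ ι).Normal := by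
  constructor
  intro n hn g
  unfold SQ at hn ⊢
  induction hn using Subgroup.closure_induction with
  | mem x hx =>
    obtain ⟨t, rfl⟩ := hx
    refine Subgroup.subset_closure ⟨g * t * g⁻¹, ?_⟩
    rw [pow_two, pow_two]; group
  | one => simp
  | mul x y _ _ hx hy =>
    have h : g * (x * y) * g⁻¹ = (g * x * g⁻¹) * (g * y * g⁻¹) := by group
    rw [h]; exact mul_mem hx hy
  | inv x _ hx =>
    have h : g * x⁻¹ * g⁻¹ = (g * x * g⁻¹)⁻¹ := by group
    rw [h]; exact inv_mem hx

lemma quot_sq (x : FreeGroup ι ⧸ SQ ι) : x * x = 1 := by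
  induction x using QuotientGroup.induction_on with
  | H z =>
    rw [← QuotientGroup.mk_mul, ← pow_two]
    exact (QuotientGroup.eq_one_iff _).2 (sq_mem z)

lemma quot_comm (x y : FreeGroup ι ⧸ SQ ι) : x * y = y * x := by
  have h1 : ∀ z : FreeGroup ι ⧸ SQ ι, z⁻¹ = z := fun z =>
    inv_eq_of_mul_eq_one_left (quot_sq z)
  calc x * y = (x * y)⁻¹ := (h1 _).symm
    _ = y⁻¹ * x⁻¹ := mul_inv_rev _ _
    _ = y * x := by rw [h1, h1]

/-- The quotient by squares is commutative. -/
instance quotComm : CommGroup (FreeGroup ι ⧸ SQ ι) :=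
  { (inferInstance : Group (FreeGroup ι ⧸ SQ ι)) with mul_comm := quot_comm }

/-- The map `ZMod 2 → Q` through a generator. -/
noncomputable def gen (a : ι) : ZMod 2 →+ Additive (FreeGroup ι ⧸ SQ ι) :=
  ZMod.lift 2 ⟨zmultiplesHom _ (Additive.ofMul (QuotientGroup.mk (FreeGroup.of a))), by
    rw [zmultiplesHom_apply]
    have := quot_sq (QuotientGroup.mk (FreeGroup.of a) : FreeGroup ι ⧸ SQ ι)
    rw [← pow_two] at this
    rw [← ofMul_zpow]
    exact congrArg Additive.ofMul (by exact_mod_cast this)⟩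

lemma gen_one (a : ι) : gen a 1 = Additive.ofMul (QuotientGroup.mk (FreeGroup.of a)) := by
  have h := ZMod.lift_coe 2 (A := Additive (FreeGroup ι ⧸ SQ ι))
    ⟨zmultiplesHom _ (Additive.ofMul (QuotientGroup.mk (FreeGroup.of a))), by
    rw [zmultiplesHom_apply]
    have := quot_sq (QuotientGroup.mk (FreeGroup.of a) : FreeGroup ι ⧸ SQ ι)
    rw [← pow_two] at this
    rw [← ofMul_zpow]
    exact congrArg Additive.ofMul (by exact_mod_cast this)⟩ 1
  rw [Int.cast_one] at h
  unfold gen
  rw [h]
  simp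

/-- The section. -/
noncomputable def sec : (ι → ZMod 2) →+ Additive (FreeGroup ι ⧸ SQ ι) :=
  ∑ a : ι, (gen a).comp (Pi.evalAddMonoidHom (fun _ => ZMod 2) a)

lemma sec_single (a : ι) : sec (Pi.single a 1 : ι → ZMod 2) =
    Additive.ofMul (QuotientGroup.mk (FreeGroup.of a)) := by
  unfold sec
  rw [AddMonoidHom.finsetSum_apply, Finset.sum_eq_single a]
  · simp [gen_one]
  · intro b _ hb
    simp [Pi.single_eq_of_ne hb]
  · simp

lemma sec_bar (w : FreeGroup ι) : sec (bar w) = Additive.ofMul (QuotientGroup.mk w) := by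
  induction w using FreeGroup.induction_on with
  | C1 => simp
  | of a => rw [bar_of]; exact sec_single a
  | inv_of a ih =>
    rw [bar_inv, ← u_neg (bar _), map_neg, QuotientGroup.mk_inv, ofMul_inv]
    exact congrArg _ ih
  | mul x y hx hy => rw [bar_mul, map_add, hx, hy, QuotientGroup.mk_mul, ofMul_mul]

lemma ppstar_tensor' (φ : FreeGroup ι →* FreeGroup κ) (p q : ι → Lam ι) (k k' : κ) :
    ppstar φ (fun i j => p i * q j) k k' = pstar φ p k * pstar φ q k' := by
  simp only [ppstar, pstar, AddMonoidHom.coe_mk, ZeroHom.coe_mk, map_mul]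
  rw [Finset.sum_mul_sum]
  refine Finset.sum_congr rfl fun a _ => Finset.sum_congr rfl fun b _ => by ring

lemma BB_sq (t : FreeGroup ι) (i j : ι) :
    BB (t ^ 2) i j = dd t i * (br (bar t) * dd t j) := by
  rw [pow_two, BB_mul, lam_add_self, zero_add]

end F1aAux

open F1aAux

/-- `T_2` is generated by squares. -/
theorem T2_closure (w : FreeGroup ι) (hw : bar w = 0) :
    w ∈ Subgroup.closure {x : FreeGroup ι | ∃ t, x = t ^ 2} := by
  have h := sec_bar w
  rw [hw, map_zero] at h
  have h2 : (QuotientGroup.mk w : FreeGroup ι ⧸ SQ ι) = 1 := by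
    have := congrArg Additive.toMul h
    simpa using this.symm
  have h3 : w ∈ SQ ι := (QuotientGroup.eq_one_iff _).1 h2
  exact h3

/-- (0.6) -/
theorem BB_symm (w : FreeGroup ι) (hw : bar w = 0) (i j : ι) :
    BB w i j + BB w j i = dd w i * dd w j := by
  have h := T2_closure w hw
  clear hw
  have key : bar w = 0 ∧ ∀ i j, BB w i j + BB w j i = dd w i * dd w j := by
    induction h using Subgroup.closure_induction with
    | mem x hx =>
      obtain ⟨t, rfl⟩ := hx
      refine ⟨by rw [pow_two, bar_mul]; exact u_add_self _, fun i j => ?_⟩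
      rw [BB_sq, BB_sq, pow_two, dd_mul, dd_mul]
      have h1 := br_mul_self (bar t)
      have h2 := lam_add_self (dd t i * (br (bar t) * dd t j))
      have h3 := lam_add_self (dd t i * dd t j)
      linear_combination (-(dd t i * dd t j)) * h1 - h3
    | one => simp
    | mul x y _ _ hx hy =>
      obtain ⟨hx0, hx1⟩ := hx
      obtain ⟨hy0, hy1⟩ := hy
      refine ⟨by simp [hx0, hy0], fun i j => ?_⟩
      rw [BB_mul, BB_mul, dd_mul, dd_mul, hx0, br_zero]
      linear_combination hx1 i j + hy1 i j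
    | inv x _ hx =>
      obtain ⟨hx0, hx1⟩ := hx
      refine ⟨by simp [hx0], fun i j => ?_⟩
      rw [BB_inv, BB_inv, dd_inv, dd_inv, hx0, br_zero]
      linear_combination hx1 i j + lam_add_self (dd x i * dd x j)
  exact key.2 i j

/-- (0.7) -/
theorem BB_map (φ : FreeGroup ι →* FreeGroup κ) (w : FreeGroup ι) (hw : bar w = 0) :
    BB (φ w) = ppstar φ (BB w) := by
  have h := T2_closure w hw
  clear hw
  have key : bar w = 0 ∧ BB (φ w) = ppstar φ (BB w) := by
    induction h using Subgroup.closure_induction with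
    | mem x hx =>
      obtain ⟨t, rfl⟩ := hx
      refine ⟨by rw [pow_two, bar_mul]; exact u_add_self _, ?_⟩
      have h1 : BB (t ^ 2) = fun i j => dd t i * ((fun j => br (bar t) * dd t j) j) := by
        funext i j; exact BB_sq t i j
      rw [h1, map_pow]
      funext k k'
      rw [ppstar_tensor', BB_sq, pstar_mul, lbar_br, ← bar_map, dd_map]
    | one => simp
    | mul x y _ _ hx hy =>
      obtain ⟨hx0, hx1⟩ := hx
      obtain ⟨hy0, hy1⟩ := hy
      refine ⟨by simp [hx0, hy0], ?_⟩
      have h1 : BB (x * y) = BB x + BB y + fun i j => dd x i * dd y j := by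
        funext i j
        rw [BB_mul, hx0, br_zero, one_mul]; rfl
      rw [h1, map_add, map_add, map_mul, ← hx1, ← hy1]
      funext k k'
      rw [BB_mul, bar_map, hx0, map_zero, br_zero, one_mul, Pi.add_apply, Pi.add_apply,
        Pi.add_apply, Pi.add_apply, ppstar_tensor', dd_map, dd_map]
    | inv x _ hx =>
      obtain ⟨hx0, hx1⟩ := hx
      refine ⟨by simp [hx0], ?_⟩
      have h1 : BB (x⁻¹) = BB x + fun i j => dd x i * dd x j := by
        funext i j
        rw [BB_inv]; rfl
      rw [h1, map_add, map_inv, ← hx1]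
      funext k k'
      rw [BB_inv, Pi.add_apply, Pi.add_apply, ppstar_tensor', dd_map]
  exact key.2

/-- (0.8) -/
theorem BB_conj (t w : FreeGroup ι) (hw : bar w = 0) (i j : ι) :
    BB (t * w * t⁻¹) i j = BB w i j + dd t i * (br (bar t) * dd w j) +
      br (bar t) * dd w i * dd t j := by
  rw [BB_mul, BB_mul, BB_inv, dd_inv, dd_mul, bar_mul, hw, add_zero]
  linear_combination lam_add_self (BB t i j) + lam_add_self (dd t i * dd t j) +
    (dd t i * dd t j + br (bar t) * dd w i * dd t j) * br_mul_self (bar t)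

end Pool.Agent.OH
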