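import Pool.Agent.OH.F1

set_option autoImplicit false
set_option linter.unusedSectionVars false

namespace Pool.Agent.OH

variable {ι : Type} [Fintype ι] [DecidableEq ι]

/-- `bar` as a group hom. -/
noncomputable def F2barHom (ι : Type) [DecidableEq ι] :
    FreeGroup ι →* Multiplicative (ι → ZMod 2) where
  toFun w := Multiplicative.ofAdd (bar w)
  map_one' := by rw [bar_one]; rfl
  map_mul' v w := by rw [bar_mul]; rfl

/-- `T_2`. -/
noncomputable def F2N (ι : Type) [DecidableEq ι] : Subgroup (FreeGroup ι) := (F2barHom ι).ker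

lemma F2mem_N (w : FreeGroup ι) : w ∈ F2N ι ↔ bar w = 0 := by
  rw [F2N, MonoidHom.mem_ker]
  exact Iff.rfl

/-- the subgroup generated by the squares of the elements of `T_2`. -/
noncomputable def F2Q (ι : Type) [DecidableEq ι] : Subgroup (FreeGroup ι) :=
  Subgroup.closure {x : FreeGroup ι | ∃ v, bar v = 0 ∧ x = v ^ 2}

instance F2Q_normal : (F2Q ι).Normal := by
  refine ⟨fun n hn g => ?_⟩
  induction hn using Subgroup.closure_induction with
  | mem x hx =>
    obtain ⟨v, hv, rfl⟩ := hx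
    refine Subgroup.subset_closure ⟨g * v * g⁻¹, by simp [hv, u_add_self], ?_⟩
    rw [conj_pow]
  | one => simp
  | mul x y _ _ hx hy =>
    have h : g * (x * y) * g⁻¹ = (g * x * g⁻¹) * (g * y * g⁻¹) := by group
    rw [h]; exact mul_mem hx hy
  | inv x _ hx =>
    have h : g * x⁻¹ * g⁻¹ = (g * x * g⁻¹)⁻¹ := by group
    rw [h]; exact inv_mem hx

/-- `T_2 / ⟨squares⟩`. -/
abbrev F2A (ι : Type) [Fintype ι] [DecidableEq ι] : Type := ↥(F2N ι) ⧸ (F2Q ι).subgroupOf (F2N ι)

lemma F2A_sq (a : F2A ι) : a * a = 1 := by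
  induction a using QuotientGroup.induction_on with
  | H n =>
    rw [← QuotientGroup.mk_mul, QuotientGroup.eq_one_iff, Subgroup.mem_subgroupOf]
    refine Subgroup.subset_closure ⟨(n : FreeGroup ι), (F2mem_N _).1 n.2, ?_⟩
    rw [pow_two]; rfl

noncomputable instance F2A_comm : CommGroup (F2A ι) :=
  { (inferInstance : Group (F2A ι)) with
    mul_comm := by
      intro a b
      have h1 : ∀ x : F2A ι, x⁻¹ = x := fun x => inv_eq_of_mul_eq_one_right (F2A_sq x)
      calc a * b = (a * b)⁻¹ := (h1 _).symm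
        _ = b⁻¹ * a⁻¹ := mul_inv_rev a b
        _ = b * a := by rw [h1, h1] }

noncomputable instance F2A_module : Module (ZMod 2) (Additive (F2A ι)) :=
  AddCommGroup.zmodModule (by
    intro x
    rw [two_nsmul]
    exact F2A_sq (Additive.toMul x))

/-- a section of `bar`. -/
noncomputable def F2s (u : ι → ZMod 2) : FreeGroup ι := Classical.choose (bar_surjective u)

lemma F2s_bar (u : ι → ZMod 2) : bar (F2s u) = u := Classical.choose_spec (bar_surjective u)

lemma F2D_mem (w : FreeGroup ι) (x : ι → ZMod 2) :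
    (F2s x)⁻¹ * w * F2s (x + bar w) ∈ F2N ι := by
  rw [F2mem_N, bar_mul, bar_mul, bar_inv, F2s_bar, F2s_bar]
  exact u_add_self _

/-- the crossed homomorphism `D`. -/
noncomputable def F2D (w : FreeGroup ι) (x : ι → ZMod 2) : Additive (F2A ι) :=
  Additive.ofMul (QuotientGroup.mk ⟨(F2s x)⁻¹ * w * F2s (x + bar w), F2D_mem w x⟩)

lemma F2D_mul (v w : FreeGroup ι) (x : ι → ZMod 2) :
    F2D (v * w) x = F2D v x + F2D w (x + bar v) := by
  unfold F2D
  rw [← ofMul_mul]
  congr 1
  rw [← QuotientGroup.mk_mul]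
  congr 1
  apply Subtype.ext
  simp only [Subgroup.coe_mul, bar_mul]
  rw [add_assoc]
  group

/-- translation action of `U` on functions. -/
noncomputable def F2rep (ι : Type) [Fintype ι] [DecidableEq ι] :
    Multiplicative (ι → ZMod 2) →* Module.End (ZMod 2) ((ι → ZMod 2) → Additive (F2A ι)) where
  toFun u :=
    { toFun := fun m x => m (x + u.toAdd)
      map_add' := fun _ _ => rfl
      map_smul' := fun _ _ => rfl }
  map_one' := by
    refine LinearMap.ext fun m => funext fun x => ?_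
    exact congrArg m (add_zero x)
  map_mul' u v := by
    refine LinearMap.ext fun m => funext fun x => ?_
    exact congrArg m (add_assoc x (Multiplicative.toAdd u) (Multiplicative.toAdd v)).symm

/-- the action of `Λ`. -/
noncomputable def F2L (ι : Type) [Fintype ι] [DecidableEq ι] :
    Lam ι →ₐ[ZMod 2] Module.End (ZMod 2) ((ι → ZMod 2) → Additive (F2A ι)) :=
  AddMonoidAlgebra.lift (ZMod 2) _ (ι → ZMod 2) (F2rep ι)

lemma F2L_br (u : ι → ZMod 2) (m : (ι → ZMod 2) → Additive (F2A ι)) (x : ι → ZMod 2) :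
    F2L ι (br u) m x = m (x + u) := by
  simp [F2L, br, F2rep]

lemma F2add_self (a : Additive (F2A ι)) : a + a = 0 := F2A_sq (Additive.toMul a)

lemma F2D_formula (w : FreeGroup ι) :
    F2D w = ∑ a, F2L ι (dd w a) (F2D (FreeGroup.of a)) := by
  have h1 : F2D (1 : FreeGroup ι) = 0 := by
    funext x
    have h := F2D_mul (1 : FreeGroup ι) 1 x
    rw [mul_one, bar_one, add_zero] at h
    exact left_eq_add.1 h
  induction w using FreeGroup.induction_on with
  | C1 => rw [h1]; simp
  | of a =>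
    rw [Finset.sum_eq_single a]
    · rw [dd_of, Pi.single_eq_same, map_one]; rfl
    · intro b _ hb
      rw [dd_of, Pi.single_eq_of_ne hb, map_zero]; rfl
    · simp
  | inv_of a ih =>
    have h2 : F2D ((FreeGroup.of a)⁻¹) = F2L ι (br (bar (FreeGroup.of a))) (F2D (FreeGroup.of a)) := by
      funext x
      rw [F2L_br]
      have h := F2D_mul (FreeGroup.of a) (FreeGroup.of a)⁻¹ (x + bar (FreeGroup.of a))
      rw [mul_inv_cancel, h1, add_assoc, u_add_self, add_zero] at h
      have h3 : F2D (FreeGroup.of a) (x + bar (FreeGroup.of a)) +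
          F2D (FreeGroup.of a) (x + bar (FreeGroup.of a)) = 0 := F2add_self _
      have h4 := h.symm.trans (show (0 : (ι → ZMod 2) → Additive (F2A ι)) _ = _ from h3.symm)
      exact (add_left_cancel h4)
    rw [h2]
    conv_lhs => rw [ih]
    rw [map_sum]
    refine Finset.sum_congr rfl fun b _ => ?_
    rw [dd_inv, map_mul]; rfl
  | mul v w hv hw =>
    have h2 : F2D (v * w) = F2D v + F2L ι (br (bar v)) (F2D w) := by
      funext x
      rw [Pi.add_apply, F2L_br, F2D_mul]
    rw [h2]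
    conv_lhs => rw [hv, hw]
    rw [map_sum, ← Finset.sum_add_distrib]
    refine Finset.sum_congr rfl fun b _ => ?_
    rw [dd_mul, map_add, map_mul]; rfl

/-- Lemma 0.4 (Magnus). -/
theorem magnus (w : FreeGroup ι) (hw : bar w = 0) (hd : dd w = 0) :
    w ∈ Subgroup.closure {x : FreeGroup ι | ∃ v, bar v = 0 ∧ x = v ^ 2} := by
  have h0 : F2D w = 0 := by
    rw [F2D_formula, hd]
    simp
  have h1 : F2D w 0 = 0 := by rw [h0]; rfl
  have h2 : (QuotientGroup.mk (⟨(F2s 0)⁻¹ * w * F2s (0 + bar w), F2D_mem w 0⟩ : F2N ι) : F2A ι) = 1 :=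
    h1
  rw [QuotientGroup.eq_one_iff, Subgroup.mem_subgroupOf] at h2
  have h3 : (F2s 0)⁻¹ * w * F2s 0 ∈ F2Q ι := by
    have h4 : (F2s 0)⁻¹ * w * F2s (0 + bar w) ∈ F2Q ι := h2
    rwa [hw, add_zero] at h4
  have h5 := F2Q_normal.conj_mem _ h3 (F2s 0)
  have h6 : F2s (0 : ι → ZMod 2) * ((F2s 0)⁻¹ * w * F2s 0) * (F2s 0)⁻¹ = w := by group
  rw [h6] at h5
  exact h5

lemma F2BB_sq (v : FreeGroup ι) (hv : bar v = 0) :
    bar (v ^ 2) = 0 ∧ dd (v ^ 2) = 0 ∧ BB (v ^ 2) = fun i j => dd v i * dd v j := by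
  rw [pow_two]
  refine ⟨by rw [bar_mul, hv, add_zero], ?_, ?_⟩
  · funext i
    rw [dd_mul, hv, br_zero, one_mul]
    exact lam_add_self _
  · funext i j
    rw [BB_mul, hv, br_zero, one_mul, lam_add_self, zero_add]

/-- (0.9) -/
theorem BB_T3 (w : FreeGroup ι) (hw : bar w = 0) (hd : dd w = 0) :
    BB w ∈ AddSubgroup.closure {m : ι → ι → Lam ι | ∃ r ∈ RR ι, m = fun i j => r i * r j} := by
  have h := magnus w hw hd
  have key : bar w = 0 ∧ dd w = 0 ∧
      BB w ∈ AddSubgroup.closure {m : ι → ι → Lam ι | ∃ r ∈ RR ι, m = fun i j => r i * r j} := by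
    clear hw hd
    induction h using Subgroup.closure_induction with
    | mem x hx =>
      obtain ⟨v, hv, rfl⟩ := hx
      obtain ⟨h1, h2, h3⟩ := F2BB_sq v hv
      refine ⟨h1, h2, ?_⟩
      rw [h3]
      exact AddSubgroup.subset_closure ⟨dd v, (mem_RR _).2 ⟨v, hv, rfl⟩, rfl⟩
    | one => exact ⟨bar_one, dd_one, by rw [BB_one]; exact zero_mem _⟩
    | mul x y _ _ hx hy =>
      obtain ⟨hx1, hx2, hx3⟩ := hx
      obtain ⟨hy1, hy2, hy3⟩ := hy
      refine ⟨by rw [bar_mul, hx1, hy1, add_zero], ?_, ?_⟩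
      · funext i
        rw [dd_mul, hx2, hy2]; simp
      · have h3 : BB (x * y) = BB x + BB y := by
          funext i j
          rw [BB_mul, hx2]; simp
        rw [h3]
        exact add_mem hx3 hy3
    | inv x _ hx =>
      obtain ⟨hx1, hx2, hx3⟩ := hx
      refine ⟨by rw [bar_inv, hx1], ?_, ?_⟩
      · funext i
        rw [dd_inv, hx2]; simp
      · have h3 : BB x⁻¹ = BB x := by
          funext i j
          rw [BB_inv, hx2]; simp
        rw [h3]
        exact hx3
  exact key.2.2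

theorem BB_T3_diag (w : FreeGroup ι) (hw : bar w = 0) (hd : dd w = 0) (i : ι) : BB w i i = 0 := by
  have key : ∀ m ∈ AddSubgroup.closure {m : ι → ι → Lam ι | ∃ r ∈ RR ι, m = fun i j => r i * r j},
      m i i = 0 := by
    intro m hm
    induction hm using AddSubgroup.closure_induction with
    | mem x hx =>
      obtain ⟨r, hr, rfl⟩ := hx
      exact II_sq _ (RR_le_II r hr i)
    | zero => rfl
    | add x y _ _ hx hy => rw [Pi.add_apply, Pi.add_apply, hx, hy, add_zero]
    | neg x _ hx => rw [Pi.neg_apply, Pi.neg_apply, hx, neg_zero]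
  exact key _ (BB_T3 w hw hd)

theorem BB_T3_symm (w : FreeGroup ι) (hw : bar w = 0) (hd : dd w = 0) (i j : ι) :
    BB w i j = BB w j i := by
  have h := BB_symm w hw i j
  rw [hd, Pi.zero_apply, zero_mul] at h
  calc BB w i j = - BB w j i := eq_neg_of_add_eq_zero_left h
    _ = BB w j i := lam_neg _

/-- Converse inclusion: `r ⊗ r ∈ B(T_3)` for `r ∈ R`. -/
theorem tensor_mem (r : ι → Lam ι) (hr : r ∈ RR ι) :
    ∃ w : FreeGroup ι, bar w = 0 ∧ dd w = 0 ∧ BB w = fun i j => r i * r j := by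
  obtain ⟨v, hv, rfl⟩ := (mem_RR r).1 hr
  exact ⟨v ^ 2, F2BB_sq v hv⟩

end Pool.Agent.OH
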