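import Mathlib

set_option autoImplicit false

namespace Pool.Agent.OH

/-- The field with four elements `{0, 1, ω, ω+1}`; `⟨a,b⟩` is `a + b ω`. -/
@[ext] structure F4 where
  a : ZMod 2
  b : ZMod 2
deriving DecidableEq

namespace F4

def equivProd : F4 ≃ ZMod 2 × ZMod 2 where
  toFun x := (x.a, x.b)
  invFun x := ⟨x.1, x.2⟩
  left_inv _ := rfl
  right_inv _ := rfl

instance : Fintype F4 := Fintype.ofEquiv _ equivProd.symm

instance : Zero F4 := ⟨⟨0, 0⟩⟩
instance : One F4 := ⟨⟨1, 0⟩⟩
instance : Add F4 := ⟨fun x y => ⟨x.a + y.a, x.b + y.b⟩⟩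
instance : Neg F4 := ⟨fun x => x⟩
instance : Mul F4 := ⟨fun x y => ⟨x.a * y.a + x.b * y.b, x.a * y.b + x.b * y.a + x.b * y.b⟩⟩

instance : CommRing F4 where
  add_assoc := by decide
  zero_add := by decide
  add_zero := by decide
  add_comm := by decide
  neg_add_cancel := by decide
  mul_assoc := by decide
  one_mul := by decide
  mul_one := by decide
  mul_comm := by decide
  left_distrib := by decide
  right_distrib := by decide
  zero_mul := by decide
  mul_zero := by decide
  nsmul := nsmulRec
  zsmul := zsmulRec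

instance : Field F4 where
  inv x := x ^ 2
  exists_pair_ne := ⟨0, 1, by decide⟩
  mul_inv_cancel := by decide
  inv_zero := by decide
  nnqsmul := _
  nnqsmul_def := fun _ _ => rfl
  qsmul := _
  qsmul_def := fun _ _ => rfl

instance : CharP F4 2 := by
  constructor
  intro x
  rw [← even_iff_two_dvd]
  constructor
  · intro h
    by_contra hx
    rw [Nat.not_even_iff_odd] at hx
    obtain ⟨k, rfl⟩ := hx
    have h2 : (2 : F4) = 0 := by decide
    push_cast at h
    rw [h2, zero_mul, zero_add] at h
    exact absurd h (by decide)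
  · rintro ⟨k, rfl⟩
    have h2 : (2 : F4) = 0 := by decide
    rw [← two_mul]
    push_cast
    rw [h2, zero_mul]

instance : Algebra (ZMod 2) F4 := ZMod.algebra F4 2

/-- A primitive cube root of unity. -/
def ω : F4 := ⟨0, 1⟩

lemma ω_sq : ω ^ 2 = 1 + ω := by decide
lemma ω_cube : ω ^ 3 = 1 := by decide
lemma pow_four (x : F4) : x ^ 4 = x := by revert x; decide
lemma add_self (x : F4) : x + x = 0 := by revert x; decide

/-- The character `k ↦ ω ^ k` of `ZMod 3`. -/
def chi (k : ZMod 3) : F4 := ω ^ k.val

lemma chi_add (k l : ZMod 3) : chi (k + l) = chi k * chi l := by revert k l; decide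
lemma chi_zero : chi 0 = 1 := by decide
lemma chi_ne_zero (k : ZMod 3) : chi k ≠ 0 := by revert k; decide
lemma chi_cube (k : ZMod 3) : chi k ^ 3 = 1 := by revert k; decide
lemma chi_neg (k : ZMod 3) : chi (-k) = chi k ^ 2 := by revert k; decide

/-- The inclusion of `F₂` into `F₄`. -/
def c2 : ZMod 2 →+* F4 where
  toFun x := ⟨x, 0⟩
  map_zero' := rfl
  map_one' := rfl
  map_add' := by decide
  map_mul' := by decide

lemma c2_injective : Function.Injective c2 := by
  intro x y h; revert x y; decide

/-- The trace `F₄ → F₂`, `Tr(c) = c + c²`. -/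
def tr : F4 →+ ZMod 2 where
  toFun x := x.b
  map_zero' := rfl
  map_add' := fun _ _ => rfl

lemma c2_tr (x : F4) : c2 (tr x) = x + x ^ 2 := by revert x; decide

lemma card : Fintype.card F4 = 4 := by decide

end F4

end Pool.Agent.OH
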