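import Pool.Agent.OH.Var6

set_option autoImplicit false
set_option linter.unusedSectionVars false

namespace Pool.Agent.OH

/-! # Section 12: the final order theory -/

/-- For every `β < α` there is a strictly decreasing chain of type `β + 1` of fully invariant
subgroups above `L`. -/
def ChainP (α : Ordinal.{0}) (L : Subgroup (FreeGroup ℕ)) : Prop :=
  ∀ β < α, ∃ g : Ordinal.{0} → Subgroup (FreeGroup ℕ),
    (∀ γ ≤ β, FI (g γ) ∧ L < g γ) ∧ (∀ γ δ : Ordinal.{0}, γ < δ → δ ≤ β → g δ < g γ)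

theorem final (α : Ordinal.{0}) (N : Ordinal.{0} → Subgroup (FreeGroup ℕ))
    (hfi : ∀ γ ≤ α, FI (N γ)) (hstr : ∀ γ δ, γ < δ → δ ≤ α → N δ < N γ)
    (hacc : ∀ L : ℕ → Subgroup (FreeGroup ℕ), (∀ k, FI (L k)) → Monotone L →
      (∀ k, N α ≤ L k) → ∃ k₀, ∀ k, k₀ ≤ k → L k = L k₀) :
    ∃ N : Subgroup (FreeGroup ℕ),
      (∀ φ : FreeGroup ℕ →* FreeGroup ℕ, ∀ x ∈ N, φ x ∈ N) ∧
      (∀ S : Set (Subgroup (FreeGroup ℕ)),
        (∀ M ∈ S, (∀ φ : FreeGroup ℕ →* FreeGroup ℕ, ∀ x ∈ M, φ x ∈ M) ∧ N < M) →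
        IsChain (· ≤ ·) S →
        (∀ T ⊆ S, T.Nonempty → ∃ M ∈ T, ∀ M' ∈ T, M' ≤ M) →
        ∃ f : Subgroup (FreeGroup ℕ) → Ordinal.{0},
          (∀ A ∈ S, f A < α) ∧ (∀ A ∈ S, ∀ B ∈ S, B < A → f A < f B)) ∧
      (∀ β < α, ∃ g : Ordinal.{0} → Subgroup (FreeGroup ℕ),
        (∀ γ ≤ β, (∀ φ : FreeGroup ℕ →* FreeGroup ℕ, ∀ x ∈ g γ, φ x ∈ g γ) ∧ N < g γ) ∧
        (∀ γ δ : Ordinal.{0}, γ < δ → δ ≤ β → g δ < g γ)) := by
  -- a maximal element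
  have hmax : ∃ L : Subgroup (FreeGroup ℕ), (FI L ∧ N α ≤ L ∧ ChainP α L) ∧
      ∀ L', FI L' → L < L' → ¬ ChainP α L' := by
    by_contra hcon
    push Not at hcon
    have hstep : ∀ L : {L : Subgroup (FreeGroup ℕ) // FI L ∧ N α ≤ L ∧ ChainP α L},
        ∃ L' : {L : Subgroup (FreeGroup ℕ) // FI L ∧ N α ≤ L ∧ ChainP α L},
          (L : Subgroup (FreeGroup ℕ)) < L' := by
      rintro ⟨L, hL⟩
      obtain ⟨L', h1, h2, h3⟩ := hcon L hL
      exact ⟨⟨L', h1, hL.2.1.trans h2.le, h3⟩, h2⟩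
    choose nx hnx using hstep
    have h0 : FI (N α) ∧ N α ≤ N α ∧ ChainP α (N α) := by
      refine ⟨hfi α le_rfl, le_rfl, fun β hβ => ⟨N, fun γ hγ => ⟨hfi γ (hγ.trans hβ.le),
        hstr γ α (hγ.trans_lt hβ) le_rfl⟩, fun γ δ h1 h2 => hstr γ δ h1 (h2.trans hβ.le)⟩⟩
    let sq : ℕ → {L : Subgroup (FreeGroup ℕ) // FI L ∧ N α ≤ L ∧ ChainP α L} :=
      fun k => nx^[k] ⟨N α, h0⟩
    have hsq : ∀ k, (sq k : Subgroup (FreeGroup ℕ)) < sq (k + 1) := by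
      intro k
      have : sq (k + 1) = nx (sq k) := Function.iterate_succ_apply' _ _ _
      rw [this]
      exact hnx _
    have hsm : StrictMono fun k => (sq k : Subgroup (FreeGroup ℕ)) := strictMono_nat_of_lt_succ hsq
    obtain ⟨k₀, hk₀⟩ := hacc (fun k => (sq k : Subgroup (FreeGroup ℕ))) (fun k => (sq k).2.1)
      hsm.monotone (fun k => (sq k).2.2.1)
    exact absurd (hk₀ (k₀ + 1) (Nat.le_succ _)) (hsq k₀).ne'
  obtain ⟨N', ⟨hN'fi, hN'le, hN'P⟩, hN'max⟩ := hmax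
  refine ⟨N', hN'fi, ?_, hN'P⟩
  intro S hS hchain hT
  -- the relation
  let R : Subgroup (FreeGroup ℕ) → Subgroup (FreeGroup ℕ) → Prop :=
    fun B A => A ∈ S ∧ B ∈ S ∧ A < B
  have hwf : WellFounded R := by
    rw [WellFounded.wellFounded_iff_has_min]
    intro T hTne
    by_cases h : (T ∩ S).Nonempty
    · obtain ⟨A, hA, hAmax⟩ := hT (T ∩ S) Set.inter_subset_right h
      refine ⟨A, hA.1, fun B hB hR => ?_⟩
      exact absurd (hAmax B ⟨hB, hR.2.1⟩) hR.2.2.not_ge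
    · obtain ⟨A, hA⟩ := hTne
      refine ⟨A, hA, fun B _ hR => h ⟨A, hA, hR.1⟩⟩
  have : IsWellFounded _ R := ⟨hwf⟩
  let f : Subgroup (FreeGroup ℕ) → Ordinal.{0} := fun A => IsWellFounded.rank R A
  have hf : ∀ A ∈ S, ∀ B ∈ S, B < A → f A < f B := by
    intro A hA B hB hBA
    exact IsWellFounded.rank_lt_of_rel (r := R) ⟨hB, hA, hBA⟩
  have hrk : ∀ A : Subgroup (FreeGroup ℕ), ∀ γ : Ordinal.{0}, γ < f A →
      ∃ B ∈ S, A < B ∧ f B = γ := by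
    intro A
    induction A using hwf.induction with
    | _ A ih =>
      intro γ hγ
      have h1 : f A = ⨆ b : { b // R b A }, Order.succ (f b) := IsWellFounded.rank_eq R A
      rw [h1, Ordinal.lt_iSup_iff] at hγ
      obtain ⟨⟨b, hb⟩, h2⟩ := hγ
      rw [Order.lt_succ_iff] at h2
      rcases h2.eq_or_lt with h3 | h3
      · exact ⟨b, hb.2.1, hb.2.2, h3.symm⟩
      · obtain ⟨B, hB1, hB2, hB3⟩ := ih b hb γ h3
        exact ⟨B, hB1, hb.2.2.trans hB2, hB3⟩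
  refine ⟨f, ?_, hf⟩
  intro A hA
  by_contra hlt
  rw [not_lt] at hlt
  -- `A` has the chain property
  apply hN'max A (hS A hA).1 (hS A hA).2
  intro β hβ
  have hex : ∀ γ : Ordinal.{0}, γ ≤ β → ∃ B ∈ S, A < B ∧ f B = γ := by
    intro γ hγ
    exact hrk A γ ((hγ.trans_lt hβ).trans_le hlt)
  choose! g hg using hex
  refine ⟨g, fun γ hγ => ⟨(hS _ (hg γ hγ).1).1, (hg γ hγ).2.1⟩, fun γ δ h1 h2 => ?_⟩
  have hγ := hg γ (h1.le.trans h2)
  have hδ := hg δ h2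
  rcases hchain.total hγ.1 hδ.1 with h | h
  · exfalso
    rcases h.lt_or_eq with h3 | h3
    · have := hf _ hδ.1 _ hγ.1 h3
      rw [hγ.2.2, hδ.2.2] at this
      exact absurd h1 this.not_gt
    · have := congrArg f h3
      rw [hγ.2.2, hδ.2.2] at this
      exact h1.ne this
  · rcases h.lt_or_eq with h3 | h3
    · exact h3
    · have := congrArg f h3
      rw [hγ.2.2, hδ.2.2] at this
      exact absurd this h1.ne'

end Pool.Agent.OH
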