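import Pool.Agent.OH.H2

set_option autoImplicit false
set_option linter.unusedSectionVars false

namespace Pool.Agent.OH

/-- Products of `≥ j` homogeneous `x_u` with a labelled element of `R`. -/
def XiSet (l n j : ℕ) : Set (Fin l × E n → Lam (Fin l × E n)) :=
  {q | ∃ m, j ≤ m ∧ ∃ (v : Fin m → E n) (u : Fin m → U l n) (a b : E n)
    (ξ : Fin l × E n → Lam (Fin l × E n)), (∀ i, Hmg (v i) (u i)) ∧ Lab a b ξ ∧
    q = fun x => (∏ i, xx (u i)) * ξ x}

namespace G2aux

section gen
variable {ι : Type} [Fintype ι] [DecidableEq ι]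

lemma xx_zero : xx (0 : ι → ZMod 2) = 0 := by
  rw [xx, br_zero, lam_add_self]

lemma br_eq (u : ι → ZMod 2) : br u = 1 + xx u := by
  rw [xx, ← add_assoc, lam_add_self, zero_add]

lemma xx_add (u v : ι → ZMod 2) : xx (u + v) = xx u + xx v + xx u * xx v := by
  have h : (1 : Lam ι) + 1 = 0 := lam_add_self 1
  rw [xx, br_add, br_eq u, br_eq v]
  linear_combination h

lemma xx_mul_self (u : ι → ZMod 2) : xx u * xx u = 0 := F1c_xx_sq u

/-- `q(t) = x_{t̄} dt`. -/
noncomputable def qq (t : FreeGroup ι) : ι → Lam ι := fun i => xx (bar t) * dd t i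

/-- `b(t,s)`. -/
noncomputable def bb (t s : FreeGroup ι) : ι → Lam ι :=
  fun i => xx (bar s) * dd t i + xx (bar t) * dd s i + xx (bar t) * xx (bar s) * dd t i

lemma qq_mul (t s : FreeGroup ι) : qq (t * s) = qq t + qq s + bb t s := by
  funext i
  simp only [qq, bb, Pi.add_apply, bar_mul, dd_mul, xx_add, br_eq]
  have h1 := xx_mul_self (bar t)
  have h2 := lam_add_self (xx (bar t) * xx (bar s) * dd s i)
  linear_combination h2 + (dd s i + xx (bar s) * dd s i) * h1

lemma bb_mul_left (t t' s : FreeGroup ι) :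
    bb (t * t') s = bb t s + bb t' s + (xx (bar t') • bb t s) := by
  funext i
  simp only [bb, Pi.add_apply, Pi.smul_apply, smul_eq_mul, bar_mul, dd_mul, xx_add, br_eq]
  have h1 := xx_mul_self (bar t)
  have h2 := lam_add_self (xx (bar t) * xx (bar s) * dd t' i)
  have h3 := lam_add_self (xx (bar t) * xx (bar t') * xx (bar s) * dd t' i)
  linear_combination h2 + h3 + (xx (bar s) * dd t' i + xx (bar s) * xx (bar t') * dd t' i) * h1

lemma bb_symm (t s : FreeGroup ι) :
    bb t s = bb s t + (xx (bar s) • qq t + xx (bar t) • qq s) := by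
  funext i
  simp only [bb, qq, Pi.add_apply, Pi.smul_apply, smul_eq_mul]
  have h2 := lam_add_self (xx (bar t) * xx (bar s) * dd s i)
  linear_combination -h2

lemma qq_mem (t : FreeGroup ι) : qq t ∈ RR ι := (RR_sq t).1

lemma bb_mem (t s : FreeGroup ι) : bb t s ∈ RR ι := by
  have h : bb t s = qq (t * s) - qq t - qq s := by
    rw [qq_mul]; abel
  rw [h]
  exact sub_mem (sub_mem (qq_mem _) (qq_mem _)) (qq_mem _)

lemma xx_mem_II (u : ι → ZMod 2) : xx u ∈ II ι := Ideal.subset_span ⟨u, rfl⟩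

lemma qq_one : qq (1 : FreeGroup ι) = 0 := by
  funext i
  simp [qq]

lemma bb_one_left (s : FreeGroup ι) : bb 1 s = 0 := by
  funext i
  simp [bb, xx_zero]

lemma bb_one_right (t : FreeGroup ι) : bb t 1 = 0 := by
  funext i
  simp [bb, xx_zero]

/-- `q` depends only on `t̄` modulo `IR`. -/
lemma qq_congr (t t' : FreeGroup ι) (h : bar t = bar t') : qq t' - qq t ∈ (II ι) • RR ι := by
  have hw : bar (t⁻¹ * t') = 0 := by
    rw [bar_mul, bar_inv, h, u_add_self]
  have h1 : t' = t * (t⁻¹ * t') := by group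
  have h2 : qq (t⁻¹ * t') = 0 := by
    funext i
    simp only [qq, hw, xx_zero, zero_mul, Pi.zero_apply]
  have h3 : bb t (t⁻¹ * t') = xx (bar t) • dd (t⁻¹ * t') := by
    funext i
    simp only [bb, hw, xx_zero, zero_mul, mul_zero, zero_add, add_zero, Pi.smul_apply, smul_eq_mul]
  have h4 : qq t' = qq t + 0 + xx (bar t) • dd (t⁻¹ * t') := by
    conv_lhs => rw [h1]
    rw [qq_mul, h2, h3]
  rw [h4, add_zero, add_sub_cancel_left]
  exact Submodule.smul_mem_smul (xx_mem_II _) ⟨_, hw, rfl⟩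

lemma bb_congr (t t' s s' : FreeGroup ι) (h : bar t = bar t') (hs : bar s = bar s') :
    bb t' s' - bb t s ∈ (II ι) • RR ι := by
  have e : ∀ a b : FreeGroup ι, bb a b = qq (a * b) - qq a - qq b := by
    intro a b
    rw [qq_mul]; abel
  have h1 := qq_congr (t * s) (t' * s') (by rw [bar_mul, bar_mul, h, hs])
  have h2 := qq_congr t t' h
  have h3 := qq_congr s s' hs
  have h4 : bb t' s' - bb t s = (qq (t' * s') - qq (t * s)) - (qq t' - qq t) - (qq s' - qq s) := by
    rw [e, e]; abel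
  rw [h4]
  exact sub_mem (sub_mem h1 h2) h3

variable {κ : Type} [Fintype κ] [DecidableEq κ]

lemma pstar_qq (φ : FreeGroup ι →* FreeGroup κ) (t : FreeGroup ι) :
    pstar φ (qq t) = qq (φ t) := by
  have h1 : qq t = dd (t ^ 2) := (RR_sq t).2.symm
  have h2 : qq (φ t) = dd ((φ t) ^ 2) := (RR_sq (φ t)).2.symm
  rw [h1, h2, ← dd_map, map_pow]

lemma pstar_bb (φ : FreeGroup ι →* FreeGroup κ) (t s : FreeGroup ι) :
    pstar φ (bb t s) = bb (φ t) (φ s) := by
  have e : ∀ a b : FreeGroup ι, bb a b = qq (a * b) - qq a - qq b := by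
    intro a b
    rw [qq_mul]; abel
  have e' : ∀ a b : FreeGroup κ, bb a b = qq (a * b) - qq a - qq b := by
    intro a b
    rw [qq_mul]; abel
  rw [e, e', map_sub, map_sub, pstar_qq, pstar_qq, pstar_qq, map_mul]

lemma pstar_smul (φ : FreeGroup ι →* FreeGroup κ) (f : Lam ι) (p : ι → Lam ι) :
    pstar φ (f • p) = lbar φ f • pstar φ p := by
  funext k
  exact pstar_mul φ f p k

lemma pstar_filt' (φ : FreeGroup ι →* FreeGroup κ) (j : ℕ) (p : ι → Lam ι)
    (hp : p ∈ (II ι ^ j) • RR ι) : pstar φ p ∈ (II κ ^ j) • RR κ := by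
  refine Submodule.smul_induction_on (p := fun p => pstar φ p ∈ (II κ ^ j) • RR κ) hp ?_ ?_
  · intro g hg r hr
    rw [pstar_smul]
    exact Submodule.smul_mem_smul (lbar_II φ g j hg) (pstar_RR φ r hr)
  · intro x y hx hy
    rw [map_add]
    exact add_mem hx hy

end gen

section hom
variable {l n : ℕ}

/-- products of at least `j` homogeneous `x_u` -/
def PSet (l n j : ℕ) : Set (Lam (Fin l × E n)) :=
  {q | ∃ m, j ≤ m ∧ ∃ (v : Fin m → E n) (u : Fin m → U l n),
      (∀ i, Hmg (v i) (u i)) ∧ q = ∏ i, xx (u i)}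

lemma PSet_mul {j k : ℕ} {f g : Lam (Fin l × E n)} (hf : f ∈ PSet l n j) (hg : g ∈ PSet l n k) :
    f * g ∈ PSet l n (j + k) := by
  obtain ⟨m, hm, v, u, huv, rfl⟩ := hf
  obtain ⟨m', hm', v', u', huv', rfl⟩ := hg
  refine ⟨m + m', by omega, Fin.append v v', Fin.append u u', ?_, ?_⟩
  · intro i
    refine Fin.addCases (fun i => ?_) (fun i => ?_) i
    · rw [Fin.append_left, Fin.append_left]; exact huv i
    · rw [Fin.append_right, Fin.append_right]; exact huv' i
  · rw [Fin.prod_univ_add]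
    simp only [Fin.append_left, Fin.append_right]

lemma PC_mul {j k : ℕ} {f g : Lam (Fin l × E n)} (hf : f ∈ AddSubgroup.closure (PSet l n j))
    (hg : g ∈ AddSubgroup.closure (PSet l n k)) :
    f * g ∈ AddSubgroup.closure (PSet l n (j + k)) := by
  induction hf using AddSubgroup.closure_induction with
  | mem x hx =>
    induction hg using AddSubgroup.closure_induction with
    | mem y hy => exact AddSubgroup.subset_closure (PSet_mul hx hy)
    | zero => rw [mul_zero]; exact zero_mem _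
    | add y z _ _ hy hz => rw [mul_add]; exact add_mem hy hz
    | neg y _ hy => rw [mul_neg]; exact neg_mem hy
  | zero => rw [zero_mul]; exact zero_mem _
  | add y z _ _ hy hz => rw [add_mul]; exact add_mem hy hz
  | neg y _ hy => rw [neg_mul]; exact neg_mem hy

lemma PSet_anti {j k : ℕ} (h : j ≤ k) : PSet l n k ⊆ PSet l n j := by
  rintro q ⟨m, hm, v, u, huv, rfl⟩
  exact ⟨m, by omega, v, u, huv, rfl⟩

lemma xx_PC (u : U l n) : xx u ∈ AddSubgroup.closure (PSet l n 1) := by
  have h := hmg_decomp u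
  induction h using AddSubgroup.closure_induction with
  | mem x hx =>
    obtain ⟨v, hv⟩ := hx
    refine AddSubgroup.subset_closure ⟨1, le_rfl, fun _ => v, fun _ => x, fun _ => hv, ?_⟩
    simp
  | zero => rw [xx_zero]; exact zero_mem _
  | add x y _ _ hx hy =>
    rw [xx_add]
    exact add_mem (add_mem hx hy)
      (AddSubgroup.closure_mono (PSet_anti (by omega)) (PC_mul hx hy))
  | neg x _ hx => rw [u_neg]; exact hx

lemma one_PC : (1 : Lam (Fin l × E n)) ∈ AddSubgroup.closure (PSet l n 0) := by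
  refine AddSubgroup.subset_closure ⟨0, le_rfl, fun _ => 0, fun _ => 0, fun i => i.elim0, ?_⟩
  simp

lemma br_PC (u : U l n) : br u ∈ AddSubgroup.closure (PSet l n 0) := by
  rw [br_eq]
  exact add_mem one_PC (AddSubgroup.closure_mono (PSet_anti (by omega)) (xx_PC u))

lemma all_PC (f : Lam (Fin l × E n)) : f ∈ AddSubgroup.closure (PSet l n 0) := by
  induction f using AddMonoidAlgebra.induction_linear with
  | zero => exact zero_mem _
  | add x y hx hy => exact add_mem hx hy
  | single m r =>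
    have h2 : r = 0 ∨ r = 1 := by revert r; decide
    rcases h2 with rfl | rfl
    · rw [AddMonoidAlgebra.single_zero]; exact zero_mem _
    · exact br_PC m

lemma II_PC (g : Lam (Fin l × E n)) (hg : g ∈ II (Fin l × E n)) :
    g ∈ AddSubgroup.closure (PSet l n 1) := by
  refine Submodule.span_induction (p := fun x _ => x ∈ AddSubgroup.closure (PSet l n 1))
    ?_ ?_ ?_ ?_ hg
  · rintro x ⟨u, rfl⟩
    exact xx_PC u
  · exact zero_mem _
  · intro x y _ _ hx hy
    exact add_mem hx hy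
  · intro a x _ hx
    have := PC_mul (all_PC a) hx
    rw [zero_add] at this
    exact this

lemma IIpow_PC (j : ℕ) (g : Lam (Fin l × E n)) (hg : g ∈ II (Fin l × E n) ^ j) :
    g ∈ AddSubgroup.closure (PSet l n j) := by
  induction j generalizing g with
  | zero => exact all_PC g
  | succ j ih =>
    rw [pow_succ] at hg
    induction hg using Submodule.mul_induction_on' with
    | mem_mul_mem x hx y hy => exact PC_mul (ih x hx) (II_PC y hy)
    | add x _ y _ hx hy => exact add_mem hx hy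

/-- labelled elements -/
def LabSet (l n : ℕ) : Set (Fin l × E n → Lam (Fin l × E n)) := {ξ | ∃ a b, Lab a b ξ}

/-- span of the labelled elements, plus `IR` -/
noncomputable def LL (l n : ℕ) : AddSubgroup (Fin l × E n → Lam (Fin l × E n)) :=
  AddSubgroup.closure (LabSet l n) ⊔ ((II (Fin l × E n)) • RR (Fin l × E n)).toAddSubgroup

lemma lab_LL {ξ : Fin l × E n → Lam (Fin l × E n)} {a b : E n} (h : Lab a b ξ) : ξ ∈ LL l n :=
  AddSubgroup.mem_sup_left (AddSubgroup.subset_closure ⟨a, b, h⟩)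

lemma IR_LL {p : Fin l × E n → Lam (Fin l × E n)}
    (h : p ∈ (II (Fin l × E n)) • RR (Fin l × E n)) : p ∈ LL l n :=
  AddSubgroup.mem_sup_right h

lemma gens (t : T l n) : t ∈ Subgroup.closure {t : T l n | ∃ a, Hmg a (bar t)} := by
  have h0 : ∀ w : T l n, bar w = 0 → w ∈ Subgroup.closure {t : T l n | ∃ a, Hmg a (bar t)} := by
    intro w hw
    refine Subgroup.subset_closure ⟨0, ?_⟩
    rw [hw]
    intro k
    have : uact k (0 : U l n) = 0 := map_zero (ubar (act k))
    have h2 : uact (k + k) (0 : U l n) = 0 := map_zero (ubar (act (k + k)))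
    rw [this, h2]
    simp
  have h1 : ∀ u : U l n, ∃ t ∈ Subgroup.closure {t : T l n | ∃ a, Hmg a (bar t)}, bar t = u := by
    intro u
    have h := hmg_decomp u
    induction h using AddSubgroup.closure_induction with
    | mem x hx =>
      obtain ⟨v, hv⟩ := hx
      obtain ⟨t, rfl⟩ := bar_surjective x
      exact ⟨t, Subgroup.subset_closure ⟨v, hv⟩, rfl⟩
    | zero => exact ⟨1, one_mem _, bar_one⟩
    | add x y _ _ hx hy =>
      obtain ⟨t, ht, rfl⟩ := hx
      obtain ⟨s, hs, rfl⟩ := hy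
      exact ⟨t * s, mul_mem ht hs, bar_mul t s⟩
    | neg x _ hx => rw [u_neg]; exact hx
  obtain ⟨s, hs, hst⟩ := h1 (bar t)
  have h2 : t = s * (s⁻¹ * t) := by group
  rw [h2]
  refine mul_mem hs (h0 _ ?_)
  rw [bar_mul, bar_inv, hst, u_add_self]

lemma bb_LL1 (t s : T l n) (b : E n) (hb : Hmg b (bar s)) : bb t s ∈ LL l n := by
  induction gens t using Subgroup.closure_induction with
  | mem x hx =>
    obtain ⟨a, ha⟩ := hx
    exact lab_LL (a := a) (b := b) (Or.inr ⟨x, s, ha, hb, rfl⟩)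
  | one => rw [bb_one_left]; exact zero_mem _
  | mul x y _ _ hx hy =>
    rw [bb_mul_left]
    exact add_mem (add_mem hx hy) (IR_LL (Submodule.smul_mem_smul (xx_mem_II _) (bb_mem _ _)))
  | inv x _ hx =>
    have h1 := bb_mul_left x x⁻¹ s
    rw [mul_inv_cancel, bb_one_left] at h1
    have h2 : bb x⁻¹ s = -(bb x s) - (xx (bar x⁻¹) • bb x s) := by
      rw [eq_comm, sub_eq_iff_eq_add, eq_comm, ← sub_eq_zero]
      rw [h1]
      abel
    rw [h2]
    exact sub_mem (neg_mem hx) (IR_LL (Submodule.smul_mem_smul (xx_mem_II _) (bb_mem _ _)))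

lemma symm_IR (t s : T l n) : (xx (bar s) • qq t + xx (bar t) • qq s) ∈
    (II (Fin l × E n)) • RR (Fin l × E n) :=
  add_mem (Submodule.smul_mem_smul (xx_mem_II _) (qq_mem _))
    (Submodule.smul_mem_smul (xx_mem_II _) (qq_mem _))

lemma bb_LL (t s : T l n) : bb t s ∈ LL l n := by
  have key : bb s t ∈ LL l n → bb t s ∈ LL l n := by
    intro h
    rw [bb_symm]
    exact add_mem h (IR_LL (symm_IR t s))
  apply key
  clear key
  induction gens s using Subgroup.closure_induction with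
  | mem x hx =>
    obtain ⟨a, ha⟩ := hx
    rw [bb_symm]
    exact add_mem (bb_LL1 t x a ha) (IR_LL (symm_IR x t))
  | one => rw [bb_one_left]; exact zero_mem _
  | mul x y _ _ hx hy =>
    rw [bb_mul_left]
    exact add_mem (add_mem hx hy) (IR_LL (Submodule.smul_mem_smul (xx_mem_II _) (bb_mem _ _)))
  | inv x _ hx =>
    have h1 := bb_mul_left x x⁻¹ t
    rw [mul_inv_cancel, bb_one_left] at h1
    have h2 : bb x⁻¹ t = -(bb x t) - (xx (bar x⁻¹) • bb x t) := by
      rw [eq_comm, sub_eq_iff_eq_add, eq_comm, ← sub_eq_zero]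
      rw [h1]
      abel
    rw [h2]
    exact sub_mem (neg_mem hx) (IR_LL (Submodule.smul_mem_smul (xx_mem_II _) (bb_mem _ _)))

lemma qq_LL (t : T l n) : qq t ∈ LL l n := by
  induction gens t using Subgroup.closure_induction with
  | mem x hx =>
    obtain ⟨a, ha⟩ := hx
    exact lab_LL (a := a) (b := 0) (Or.inl ⟨x, ha, rfl, rfl⟩)
  | one => rw [qq_one]; exact zero_mem _
  | mul x y _ _ hx hy =>
    rw [qq_mul]
    exact add_mem (add_mem hx hy) (bb_LL _ _)
  | inv x _ hx =>
    have h1 := qq_mul x x⁻¹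
    rw [mul_inv_cancel, qq_one] at h1
    have h2 : qq x⁻¹ = -(qq x) - bb x x⁻¹ := by
      rw [eq_comm, sub_eq_iff_eq_add, eq_comm, ← sub_eq_zero]
      rw [h1]
      abel
    rw [h2]
    exact sub_mem (neg_mem hx) (bb_LL _ _)

lemma RR_LL (r : Fin l × E n → Lam (Fin l × E n)) (hr : r ∈ RR (Fin l × E n)) : r ∈ LL l n := by
  have h := RR_closure r hr
  clear hr
  induction h using AddSubgroup.closure_induction with
  | mem x hx =>
    obtain ⟨t, rfl⟩ := hx
    exact qq_LL t
  | zero => exact zero_mem _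
  | add x y _ _ hx hy => exact add_mem hx hy
  | neg x _ hx => exact neg_mem hx

lemma XiSet_anti {j k : ℕ} (h : j ≤ k) : XiSet l n k ⊆ XiSet l n j := by
  rintro q ⟨m, hm, v, u, a, b, ξ, h1, h2, rfl⟩
  exact ⟨m, by omega, v, u, a, b, ξ, h1, h2, rfl⟩

lemma smul_XC {j : ℕ} {g : Lam (Fin l × E n)} {ξ : Fin l × E n → Lam (Fin l × E n)}
    (hg : g ∈ AddSubgroup.closure (PSet l n j)) (hξ : ξ ∈ AddSubgroup.closure (LabSet l n)) :
    g • ξ ∈ AddSubgroup.closure (XiSet l n j) := by
  induction hg using AddSubgroup.closure_induction with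
  | mem x hx =>
    induction hξ using AddSubgroup.closure_induction with
    | mem y hy =>
      obtain ⟨m, hm, v, u, huv, rfl⟩ := hx
      obtain ⟨a, b, hab⟩ := hy
      exact AddSubgroup.subset_closure ⟨m, hm, v, u, a, b, y, huv, hab, rfl⟩
    | zero => rw [smul_zero]; exact zero_mem _
    | add y z _ _ hy hz => rw [smul_add]; exact add_mem hy hz
    | neg y _ hy => rw [smul_neg]; exact neg_mem hy
  | zero => rw [zero_smul]; exact zero_mem _
  | add y z _ _ hy hz => rw [add_smul]; exact add_mem hy hz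
  | neg y _ hy => rw [neg_smul]; exact neg_mem hy

lemma step (j : ℕ) (p : Fin l × E n → Lam (Fin l × E n))
    (hp : p ∈ (II (Fin l × E n) ^ j) • RR (Fin l × E n)) :
    p ∈ AddSubgroup.closure (XiSet l n j) ⊔
      ((II (Fin l × E n) ^ (j + 1)) • RR (Fin l × E n)).toAddSubgroup := by
  refine Submodule.smul_induction_on (p := fun p => p ∈ AddSubgroup.closure (XiSet l n j) ⊔
      ((II (Fin l × E n) ^ (j + 1)) • RR (Fin l × E n)).toAddSubgroup) hp ?_ ?_
  · intro g hg r hr
    have h1 := RR_LL r hr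
    rw [LL, AddSubgroup.mem_sup] at h1
    obtain ⟨ξ, hξ, r', hr', rfl⟩ := h1
    rw [smul_add]
    refine add_mem (AddSubgroup.mem_sup_left (smul_XC (IIpow_PC j g hg) hξ))
      (AddSubgroup.mem_sup_right ?_)
    show g • r' ∈ (II (Fin l × E n) ^ (j + 1)) • RR (Fin l × E n)
    rw [pow_succ, Submodule.mul_smul]
    exact Submodule.smul_mem_smul hg hr'
  · intro x y hx hy
    exact add_mem hx hy

lemma steps (j k : ℕ) (p : Fin l × E n → Lam (Fin l × E n))
    (hp : p ∈ (II (Fin l × E n) ^ j) • RR (Fin l × E n)) :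
    p ∈ AddSubgroup.closure (XiSet l n j) ⊔
      ((II (Fin l × E n) ^ (j + k)) • RR (Fin l × E n)).toAddSubgroup := by
  induction k with
  | zero => exact AddSubgroup.mem_sup_right hp
  | succ k ih =>
    rw [AddSubgroup.mem_sup] at ih
    obtain ⟨x, hx, y, hy, rfl⟩ := ih
    refine add_mem (AddSubgroup.mem_sup_left hx) ?_
    have h1 := step (j + k) y hy
    rw [AddSubgroup.mem_sup] at h1
    obtain ⟨x', hx', y', hy', rfl⟩ := h1
    exact add_mem (AddSubgroup.mem_sup_left
      (AddSubgroup.closure_mono (XiSet_anti (by omega)) hx')) (AddSubgroup.mem_sup_right hy')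

end hom

end G2aux

open G2aux

/-- `I^j` is spanned by products of `≥ j` homogeneous `x_u`. -/
theorem II_gen {l n : ℕ} (j : ℕ) (g : Lam (Fin l × E n)) (hg : g ∈ II (Fin l × E n) ^ j) :
    g ∈ AddSubgroup.closure {q | ∃ m, j ≤ m ∧ ∃ (v : Fin m → E n) (u : Fin m → U l n),
      (∀ i, Hmg (v i) (u i)) ∧ q = ∏ i, xx (u i)} :=
  IIpow_PC j g hg

/-- (8.2): `I^j R` is spanned by `XiSet j`. -/
theorem gen2 {l n : ℕ} (j : ℕ) (p : Fin l × E n → Lam (Fin l × E n))
    (hp : p ∈ (II (Fin l × E n) ^ j) • RR (Fin l × E n)) :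
    p ∈ AddSubgroup.closure (XiSet l n j) := by
  obtain ⟨N, hN⟩ := II_nilp (ι := Fin l × E n)
  have h1 := steps j N p hp
  have h2 : (II (Fin l × E n) ^ (j + N)) = ⊥ := by
    rw [pow_add, hN, Submodule.mul_bot]
  rw [h2, Submodule.bot_smul, Submodule.bot_toAddSubgroup, sup_bot_eq] at h1
  exact h1

theorem lab_mem {l n : ℕ} (a b : E n) (ξ : Fin l × E n → Lam (Fin l × E n)) (h : Lab a b ξ) :
    ξ ∈ RR (Fin l × E n) := by
  rcases h with ⟨t, -, -, rfl⟩ | ⟨t, s, -, -, rfl⟩
  · exact qq_mem t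
  · exact bb_mem t s

theorem pstar_filt {l n l' n' : ℕ} (φ : T l n →* T l' n') (j : ℕ)
    (p : Fin l × E n → Lam (Fin l × E n))
    (hp : p ∈ (II (Fin l × E n) ^ j) • RR (Fin l × E n)) :
    pstar φ p ∈ (II (Fin l' × E n') ^ j) • RR (Fin l' × E n') :=
  pstar_filt' φ j p hp

theorem lab_thK {l n : ℕ} (k a' : E n) (ha' : dot a' k = 1) (a b : E n)
    (ξ : Fin l × E n → Lam (Fin l × E n)) (h : Lab a b ξ) :
    (dot a k = 0 → dot b k = 0 →
      pstar (thK k a') ξ - ξ ∈ (II (Fin l × E n)) • RR (Fin l × E n)) ∧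
    (¬ (dot a k = 0 ∧ dot b k = 0) →
      pstar (thK k a') ξ ∈ (II (Fin l × E n)) • RR (Fin l × E n)) := by
  have hbar : ∀ t : T l n, bar (thK k a' t) = ubar (thK k a') (bar t) := fun t => bar_map _ t
  rcases h with ⟨t, ht, rfl, rfl⟩ | ⟨t, s, ht, hs, rfl⟩
  · have h1 : (fun i => xx (bar t) * dd t i) = qq t := rfl
    rw [h1, pstar_qq]
    constructor
    · intro h2 _
      refine qq_congr _ _ ?_
      rw [hbar, (thK_hmg k a' ha' a _ ht).1 h2]
    · intro h2
      have h3 : dot a k ≠ 0 := by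
        intro h4
        exact h2 ⟨h4, by simp [dot]⟩
      have h4 : qq (thK k a' t) = 0 := by
        funext i
        simp only [qq, hbar, (thK_hmg k a' ha' a _ ht).2 h3, xx_zero, zero_mul, Pi.zero_apply]
      rw [h4]
      exact zero_mem _
  · have h1 : (fun i => xx (bar s) * dd t i + xx (bar t) * dd s i +
        xx (bar t) * xx (bar s) * dd t i) = bb t s := rfl
    rw [h1, pstar_bb]
    constructor
    · intro h2 h3
      refine bb_congr _ _ _ _ ?_ ?_
      · rw [hbar, (thK_hmg k a' ha' a _ ht).1 h2]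
      · rw [hbar, (thK_hmg k a' ha' b _ hs).1 h3]
    · intro h2
      by_cases h3 : dot a k = 0
      · have h4 : dot b k ≠ 0 := fun h4 => h2 ⟨h3, h4⟩
        have h5 : bar (thK k a' s) = bar (1 : T l n) := by
          rw [hbar, (thK_hmg k a' ha' b _ hs).2 h4, bar_one]
        have h6 := bb_congr (thK k a' t) (thK k a' t) 1 (thK k a' s) rfl h5.symm
        rw [bb_one_right, sub_zero] at h6
        exact h6
      · have h5 : bar (thK k a' t) = bar (1 : T l n) := by
          rw [hbar, (thK_hmg k a' ha' a _ ht).2 h3, bar_one]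
        have h6 := bb_congr 1 (thK k a' t) (thK k a' s) (thK k a' s) h5.symm rfl
        rw [bb_one_left, sub_zero] at h6
        exact h6

theorem Xi_thK {l n m : ℕ} (k a' : E n) (ha' : dot a' k = 1) (v : Fin m → E n)
    (u : Fin m → U l n) (a b : E n) (ξ : Fin l × E n → Lam (Fin l × E n))
    (hu : ∀ i, Hmg (v i) (u i)) (h : Lab a b ξ) :
    (((∀ i, dot (v i) k = 0) ∧ dot a k = 0 ∧ dot b k = 0) →
      pstar (thK k a') (fun x => (∏ i, xx (u i)) * ξ x) - (fun x => (∏ i, xx (u i)) * ξ x) ∈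
        (II (Fin l × E n) ^ (m + 1)) • RR (Fin l × E n)) ∧
    (¬ ((∀ i, dot (v i) k = 0) ∧ dot a k = 0 ∧ dot b k = 0) →
      pstar (thK k a') (fun x => (∏ i, xx (u i)) * ξ x) ∈
        (II (Fin l × E n) ^ (m + 1)) • RR (Fin l × E n)) := by
  have h0 : (fun x => (∏ i, xx (u i)) * ξ x) = (∏ i, xx (u i)) • ξ := rfl
  rw [h0, pstar_smul, map_prod]
  have h1 : ∀ i, lbar (thK k a') (xx (u i)) = xx (ubar (thK k a') (u i)) :=
    fun i => F1c_lbar_xx _ _
  simp only [h1]
  have hprod : ∀ w : Fin m → U l n, ∏ i, xx (w i) ∈ II (Fin l × E n) ^ m := by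
    intro w
    have := Ideal.prod_mem_prod (I := fun _ : Fin m => II (Fin l × E n)) (s := Finset.univ)
      (x := fun i => xx (w i)) (fun i _ => xx_mem_II (w i))
    rwa [Finset.prod_const, Finset.card_univ, Fintype.card_fin] at this
  obtain ⟨hl1, hl2⟩ := lab_thK k a' ha' a b ξ h
  constructor
  · rintro ⟨h2, h3, h4⟩
    have h5 : ∀ i, ubar (thK k a') (u i) = u i := fun i => (thK_hmg k a' ha' _ _ (hu i)).1 (h2 i)
    simp only [h5]
    rw [← smul_sub, pow_succ, Submodule.mul_smul]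
    exact Submodule.smul_mem_smul (hprod u) (hl1 h3 h4)
  · intro h2
    by_cases h3 : ∀ i, dot (v i) k = 0
    · rw [pow_succ, Submodule.mul_smul]
      exact Submodule.smul_mem_smul (hprod _) (hl2 fun h4 => h2 ⟨h3, h4⟩)
    · push Not at h3
      obtain ⟨i, hi⟩ := h3
      have h4 : ∏ i, xx (ubar (thK k a') (u i)) = 0 := by
        refine Finset.prod_eq_zero (Finset.mem_univ i) ?_
        rw [(thK_hmg k a' ha' _ _ (hu i)).2 hi, xx_zero]
      rw [h4, zero_smul]
      exact zero_mem _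

end Pool.Agent.OH
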