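import Pool.Agent.OH.G2
import Pool.Agent.OH.C1

set_option autoImplicit false

namespace Pool.Agent.OH

/-- `sym(r,r') = r⊗r' + r'⊗r`. -/
noncomputable def symt {ι : Type} (r r' : ι → Lam ι) : ι → ι → Lam ι := fun i j => r i * r' j + r' i * r j

/-- The filtration of (8.3). -/
noncomputable def HH (l n : ℕ) : ℕ → AddSubgroup (Fin l × E n → Fin l × E n → Lam (Fin l × E n))
  | 0 => AddSubgroup.closure {m | ∃ r ∈ RR (Fin l × E n), m = fun i j => r i * r j} ⊔ CC l n
  | j + 1 => AddSubgroup.closure {m | ∃ g ∈ II (Fin l × E n) ^ (j + 1),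
      ∃ r ∈ RR (Fin l × E n), ∃ r' ∈ RR (Fin l × E n), m = fun x y => g * symt r r' x y} ⊔ CC l n

/-- The generators of (8.3). -/
def GSet (l n j : ℕ) : Set (Fin l × E n → Fin l × E n → Lam (Fin l × E n)) :=
  {q | ∃ m, j ≤ m ∧ ∃ (v : Fin m → E n) (u : Fin m → U l n) (a b a' b' : E n)
    (ξ ξ' : Fin l × E n → Lam (Fin l × E n)), (∀ i, Hmg (v i) (u i)) ∧ Lab a b ξ ∧
    Lab a' b' ξ' ∧ q = fun x y => (∏ i, xx (u i)) * symt ξ ξ' x y} ∪
  {q | j = 0 ∧ ∃ (a b : E n) (ξ : Fin l × E n → Lam (Fin l × E n)), Lab a b ξ ∧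
    q = fun x y => ξ x * ξ y}

namespace G3aux

variable {l n : ℕ}

lemma symt_comm {ι : Type} (r r' : ι → Lam ι) : symt r r' = symt r' r := by
  funext x y; simp only [symt]; ring

lemma symt_add_left {ι : Type} (r s r' : ι → Lam ι) (g : Lam ι) :
    (fun x y => g * symt (r + s) r' x y) =
      (fun x y => g * symt r r' x y) + fun x y => g * symt s r' x y := by
  funext x y
  simp only [symt, Pi.add_apply]
  ring

lemma symt_add_right {ι : Type} (r s r' : ι → Lam ι) (g : Lam ι) :
    (fun x y => g * symt r' (r + s) x y) =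
      (fun x y => g * symt r' r x y) + fun x y => g * symt r' s x y := by
  funext x y
  simp only [symt, Pi.add_apply]
  ring

lemma symt_smul_left {ι : Type} (h g : Lam ι) (r r' : ι → Lam ι) :
    (fun x y => g * symt (h • r) r' x y) = fun x y => (g * h) * symt r r' x y := by
  funext x y
  simp only [symt, Pi.smul_apply, smul_eq_mul]
  ring

lemma tens_add {ι : Type} (r s : ι → Lam ι) :
    (fun x y => (r + s) x * (r + s) y) =
      (fun x y => r x * r y) + (fun x y => s x * s y) + fun x y => 1 * symt r s x y := by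
  funext x y
  simp only [symt, Pi.add_apply]
  ring

lemma one_mem_pow : (1 : Lam (Fin l × E n)) ∈ II (Fin l × E n) ^ 0 := by
  rw [pow_zero, Ideal.one_eq_top]
  exact Submodule.mem_top

lemma CC_le_HH (j : ℕ) : CC l n ≤ HH l n j := by
  cases j with
  | zero => exact le_sup_right
  | succ j => exact le_sup_right

/-- `g sym(r,r') ∈ HH m` for `g ∈ I^m`. -/
lemma sym_mem (m : ℕ) (g : Lam (Fin l × E n)) (hg : g ∈ II (Fin l × E n) ^ m)
    (r r' : Fin l × E n → Lam (Fin l × E n)) (hr : r ∈ RR (Fin l × E n))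
    (hr' : r' ∈ RR (Fin l × E n)) : (fun x y => g * symt r r' x y) ∈ HH l n m := by
  cases m with
  | succ m =>
    exact AddSubgroup.mem_sup_left (AddSubgroup.subset_closure ⟨g, hg, r, hr, r', hr', rfl⟩)
  | zero =>
    refine AddSubgroup.mem_sup_left ?_
    have hgr : g • r ∈ RR (Fin l × E n) := Submodule.smul_mem _ _ hr
    have h : (fun x y => g * symt r r' x y) =
        ((fun x y => (g • r + r') x * (g • r + r') y) + fun x y => (g • r) x * (g • r) y) +
          fun x y => r' x * r' y := by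
      funext x y
      simp only [symt, Pi.add_apply, Pi.smul_apply, smul_eq_mul]
      have h1 := lam_add_self (g * r x * (g * r y))
      have h2 := lam_add_self (r' x * r' y)
      linear_combination -h1 - h2
    rw [h]
    exact add_mem (add_mem (AddSubgroup.subset_closure ⟨_, add_mem hgr hr', rfl⟩)
      (AddSubgroup.subset_closure ⟨_, hgr, rfl⟩)) (AddSubgroup.subset_closure ⟨_, hr', rfl⟩)

lemma IR_le (r : Fin l × E n → Lam (Fin l × E n))
    (hr : r ∈ (II (Fin l × E n)) • RR (Fin l × E n)) : r ∈ RR (Fin l × E n) :=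
  Submodule.smul_le_right hr

/-- `g sym(ρ,r') ∈ HH (m+1)` for `g ∈ I^m`, `ρ ∈ I R`. -/
lemma sym_mem_left (m : ℕ) (g : Lam (Fin l × E n)) (hg : g ∈ II (Fin l × E n) ^ m)
    (r r' : Fin l × E n → Lam (Fin l × E n))
    (hr : r ∈ (II (Fin l × E n)) • RR (Fin l × E n))
    (hr' : r' ∈ RR (Fin l × E n)) : (fun x y => g * symt r r' x y) ∈ HH l n (m + 1) := by
  refine Submodule.smul_induction_on hr ?_ ?_
  · intro h hh s hs
    rw [symt_smul_left]
    refine sym_mem (m + 1) _ ?_ s r' hs hr'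
    rw [pow_succ]
    exact Ideal.mul_mem_mul hg hh
  · intro x y hx hy
    rw [symt_add_left]
    exact add_mem hx hy

lemma sym_mem_right (m : ℕ) (g : Lam (Fin l × E n)) (hg : g ∈ II (Fin l × E n) ^ m)
    (r r' : Fin l × E n → Lam (Fin l × E n)) (hr : r ∈ RR (Fin l × E n))
    (hr' : r' ∈ (II (Fin l × E n)) • RR (Fin l × E n)) :
    (fun x y => g * symt r r' x y) ∈ HH l n (m + 1) := by
  rw [symt_comm]
  exact sym_mem_left m g hg r' r hr' hr

/-- `ρ⊗ρ ∈ HH 1` for `ρ ∈ I R`. -/
lemma tens_mem (r : Fin l × E n → Lam (Fin l × E n))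
    (hr : r ∈ (II (Fin l × E n)) • RR (Fin l × E n)) :
    (fun x y => r x * r y) ∈ HH l n 1 := by
  have key : r ∈ (II (Fin l × E n)) • RR (Fin l × E n) ∧ (fun x y => r x * r y) ∈ HH l n 1 := by
    refine Submodule.smul_induction_on hr ?_ ?_
    · intro h hh s hs
      refine ⟨Submodule.smul_mem_smul hh hs, ?_⟩
      have h0 : (fun x y => (h • s) x * (h • s) y) = 0 := by
        funext x y
        simp only [Pi.smul_apply, smul_eq_mul, Pi.zero_apply]
        linear_combination (s x * s y) * II_sq h hh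
      rw [h0]
      exact zero_mem _
    · rintro x y ⟨hx, hx'⟩ ⟨hy, hy'⟩
      refine ⟨add_mem hx hy, ?_⟩
      rw [tens_add]
      refine add_mem (add_mem hx' hy') ?_
      exact sym_mem_left 0 1 one_mem_pow x y hx (IR_le y hy)
  exact key.2

lemma mem_XiSet (r : Fin l × E n → Lam (Fin l × E n)) (hr : r ∈ RR (Fin l × E n)) :
    r ∈ AddSubgroup.closure (XiSet l n 0) := by
  refine gen2 0 r ?_
  rw [pow_zero, one_smul]
  exact hr

/-- The three-variable closure argument. -/
lemma sym_gen (j : ℕ) (g : Lam (Fin l × E n)) (hg : g ∈ II (Fin l × E n) ^ j)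
    (r r' : Fin l × E n → Lam (Fin l × E n)) (hr : r ∈ RR (Fin l × E n))
    (hr' : r' ∈ RR (Fin l × E n)) :
    (fun x y => g * symt r r' x y) ∈ AddSubgroup.closure (GSet l n j) := by
  have hg' := II_gen j g hg
  have h1 := mem_XiSet r hr
  have h2 := mem_XiSet r' hr'
  refine AddSubgroup.closure_induction (p := fun g _ => (fun x y => g * symt r r' x y) ∈
    AddSubgroup.closure (GSet l n j)) ?_ ?_ ?_ ?_ hg'
  · rintro _ ⟨m, hm, v, u, hu, rfl⟩
    refine AddSubgroup.closure_induction (p := fun r _ =>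
      (fun x y => (∏ i, xx (u i)) * symt r r' x y) ∈
      AddSubgroup.closure (GSet l n j)) ?_ ?_ ?_ ?_ h1
    · rintro _ ⟨m1, -, v1, u1, a, b, ξ, hu1, hξ, rfl⟩
      refine AddSubgroup.closure_induction (p := fun r' _ =>
        (fun x y => (∏ i, xx (u i)) * symt (fun x => (∏ i, xx (u1 i)) * ξ x) r' x y) ∈
        AddSubgroup.closure (GSet l n j)) ?_ ?_ ?_ ?_ h2
      · rintro _ ⟨m2, -, v2, u2, a', b', ξ', hu2, hξ', rfl⟩
        refine AddSubgroup.subset_closure (Or.inl ⟨m + m1 + m2, by omega,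
          Fin.append (Fin.append v v1) v2, Fin.append (Fin.append u u1) u2, a, b, a', b', ξ, ξ',
          ?_, hξ, hξ', ?_⟩)
        · intro i
          refine Fin.addCases (fun i => ?_) (fun i => ?_) i
          · rw [Fin.append_left, Fin.append_left]
            refine Fin.addCases (fun i => ?_) (fun i => ?_) i
            · rw [Fin.append_left, Fin.append_left]; exact hu i
            · rw [Fin.append_right, Fin.append_right]; exact hu1 i
          · rw [Fin.append_right, Fin.append_right]; exact hu2 i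
        · have h3 : (∏ i, xx (Fin.append (Fin.append u u1) u2 i)) =
              (∏ i, xx (u i)) * (∏ i, xx (u1 i)) * ∏ i, xx (u2 i) := by
            rw [Fin.prod_univ_add, Fin.prod_univ_add]
            simp only [Fin.append_left, Fin.append_right]
          funext x y
          rw [h3]
          simp only [symt]
          ring
      · have h0 : (fun x y => (∏ i, xx (u i)) *
            symt (fun x => (∏ i, xx (u1 i)) * ξ x) 0 x y) = 0 := by
          funext x y; simp [symt]
        rw [h0]; exact zero_mem _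
      · intro x y _ _ hx hy
        rw [symt_add_right]
        exact add_mem hx hy
      · intro x _ hx
        have h0 : -x = x := by funext i; exact lam_neg _
        rw [h0]; exact hx
    · have h0 : (fun x y => (∏ i, xx (u i)) * symt 0 r' x y) = 0 := by
        funext x y; simp [symt]
      rw [h0]; exact zero_mem _
    · intro x y _ _ hx hy
      rw [symt_add_left]
      exact add_mem hx hy
    · intro x _ hx
      have h0 : -x = x := by funext i; exact lam_neg _
      rw [h0]; exact hx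
  · have h0 : (fun x y => (0 : Lam (Fin l × E n)) * symt r r' x y) = 0 := by
      funext x y; simp
    rw [h0]; exact zero_mem _
  · intro x y _ _ hx hy
    have h0 : (fun i k => (x + y) * symt r r' i k) =
        (fun i k => x * symt r r' i k) + fun i k => y * symt r r' i k := by
      funext i k; rw [add_mul]; rfl
    rw [h0]
    exact add_mem hx hy
  · intro x _ hx
    rw [lam_neg]; exact hx

lemma tens_gen (r : Fin l × E n → Lam (Fin l × E n)) (hr : r ∈ RR (Fin l × E n)) :
    (fun x y => r x * r y) ∈ AddSubgroup.closure (GSet l n 0) := by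
  have h1 := mem_XiSet r hr
  have key : r ∈ RR (Fin l × E n) ∧
      (fun x y => r x * r y) ∈ AddSubgroup.closure (GSet l n 0) := by
    refine AddSubgroup.closure_induction (p := fun r _ => r ∈ RR (Fin l × E n) ∧
      (fun x y => r x * r y) ∈ AddSubgroup.closure (GSet l n 0)) ?_ ?_ ?_ ?_ h1
    · rintro _ ⟨m, -, v, u, a, b, ξ, hu, hξ, rfl⟩
      refine ⟨Submodule.smul_mem (RR (Fin l × E n)) (∏ i, xx (u i)) (lab_mem a b ξ hξ), ?_⟩
      cases m with
      | zero =>
        refine AddSubgroup.subset_closure (Or.inr ⟨rfl, a, b, ξ, hξ, ?_⟩)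
        funext x y
        simp
      | succ m =>
        have h0 : (fun x y => (∏ i, xx (u i)) * ξ x * ((∏ i, xx (u i)) * ξ y)) = 0 := by
          funext x y
          have hs : (∏ i, xx (u i)) * (∏ i, xx (u i)) = 0 := by
            rw [Fin.prod_univ_succ]
            linear_combination (∏ i : Fin m, xx (u i.succ)) * (∏ i : Fin m, xx (u i.succ)) *
              F1c_xx_sq (u 0)
          simp only [Pi.zero_apply]
          linear_combination (ξ x * ξ y) * hs
        rw [h0]; exact zero_mem _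
    · refine ⟨zero_mem _, ?_⟩
      have h0 : (fun x y => (0 : Fin l × E n → Lam (Fin l × E n)) x *
          (0 : Fin l × E n → Lam (Fin l × E n)) y) = 0 := by
        funext x y; simp
      rw [h0]; exact zero_mem _
    · rintro x y _ _ ⟨hx, hx'⟩ ⟨hy, hy'⟩
      refine ⟨add_mem hx hy, ?_⟩
      rw [tens_add]
      refine add_mem (add_mem hx' hy') ?_
      exact sym_gen 0 1 one_mem_pow x y hx hy
    · rintro x _ ⟨hx, hx'⟩
      have h0 : -x = x := by funext i; exact lam_neg _
      rw [h0]; exact ⟨hx, hx'⟩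
  exact key.2

lemma ppstar_sym {l' n' : ℕ} (φ : T l n →* T l' n') (g : Lam (Fin l × E n))
    (r r' : Fin l × E n → Lam (Fin l × E n)) :
    ppstar φ (fun x y => g * symt r r' x y) =
      fun x y => lbar φ g * symt (pstar φ r) (pstar φ r') x y := by
  funext x y
  rw [ppstar_mul]
  have h : symt r r' = (fun i j => r i * r' j) + fun i j => r' i * r j := rfl
  rw [h, map_add, Pi.add_apply, Pi.add_apply, ppstar_tensor, ppstar_tensor]
  rfl

lemma ppstar_tens {l' n' : ℕ} (φ : T l n →* T l' n')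
    (r : Fin l × E n → Lam (Fin l × E n)) :
    ppstar φ (fun x y => r x * r y) = fun x y => pstar φ r x * pstar φ r y := by
  funext x y
  rw [ppstar_tensor]

end G3aux

open G3aux

theorem HH_anti (l n j : ℕ) : HH l n (j + 1) ≤ HH l n j := by
  refine sup_le ?_ (CC_le_HH j)
  rw [AddSubgroup.closure_le]
  rintro _ ⟨g, hg, r, hr, r', hr', rfl⟩
  exact sym_mem j g (Ideal.pow_le_pow_right (Nat.le_succ j) hg) r r' hr hr'

theorem HH_nilp (l n : ℕ) : ∃ N, HH l n N ≤ CC l n := by
  obtain ⟨N, hN⟩ := II_nilp (ι := Fin l × E n)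
  refine ⟨N + 1, sup_le ?_ le_rfl⟩
  rw [AddSubgroup.closure_le]
  rintro _ ⟨g, hg, r, hr, r', hr', rfl⟩
  have h1 : g ∈ II (Fin l × E n) ^ N := Ideal.pow_le_pow_right (Nat.le_succ N) hg
  rw [hN, Submodule.mem_bot] at h1
  have h0 : (fun x y => g * symt r r' x y) = 0 := by
    funext x y; simp [h1]
  rw [h0]
  exact zero_mem _

theorem HH_thom {l n : ℕ} (ρ : E n →+ E n) (t : Fin l → T l n) (j : ℕ)
    (m : Fin l × E n → Fin l × E n → Lam (Fin l × E n)) (hm : m ∈ HH l n j) :
    ppstar (thom ρ t) m ∈ HH l n j := by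
  have h : HH l n j ≤ (HH l n j).comap (ppstar (thom ρ t)) := by
    cases j with
    | zero =>
      refine sup_le ?_ ?_
      · rw [AddSubgroup.closure_le]
        rintro _ ⟨r, hr, rfl⟩
        show ppstar (thom ρ t) _ ∈ HH l n 0
        rw [ppstar_tens]
        exact AddSubgroup.mem_sup_left (AddSubgroup.subset_closure ⟨_, pstar_RR _ _ hr, rfl⟩)
      · intro m hm
        exact CC_le_HH 0 (CC_thom ρ t m hm)
    | succ j =>
      refine sup_le ?_ ?_
      · rw [AddSubgroup.closure_le]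
        rintro _ ⟨g, hg, r, hr, r', hr', rfl⟩
        show ppstar (thom ρ t) _ ∈ HH l n (j + 1)
        rw [ppstar_sym]
        exact sym_mem (j + 1) _ (lbar_II _ _ _ hg) _ _ (pstar_RR _ _ hr) (pstar_RR _ _ hr')
      · intro m hm
        exact CC_le_HH (j + 1) (CC_thom ρ t m hm)
  exact h hm

theorem gen3 (l n j : ℕ) : HH l n j ≤ AddSubgroup.closure (GSet l n j) ⊔ CC l n := by
  cases j with
  | zero =>
    refine sup_le ?_ le_sup_right
    rw [AddSubgroup.closure_le]
    rintro _ ⟨r, hr, rfl⟩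
    exact AddSubgroup.mem_sup_left (tens_gen r hr)
  | succ j =>
    refine sup_le ?_ le_sup_right
    rw [AddSubgroup.closure_le]
    rintro _ ⟨g, hg, r, hr, r', hr', rfl⟩
    exact AddSubgroup.mem_sup_left (sym_gen (j + 1) g hg r r' hr hr')

/-- The action of `th_K` on a generator of the first kind. -/
theorem G3_thK {l n m : ℕ} (k a₀ : E n) (ha₀ : dot a₀ k = 1) (v : Fin m → E n)
    (u : Fin m → U l n) (a b a' b' : E n) (ξ ξ' : Fin l × E n → Lam (Fin l × E n))
    (hu : ∀ i, Hmg (v i) (u i)) (h : Lab a b ξ) (h' : Lab a' b' ξ') :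
    (((∀ i, dot (v i) k = 0) ∧ (dot a k = 0 ∧ dot b k = 0) ∧ (dot a' k = 0 ∧ dot b' k = 0)) →
      ppstar (thK k a₀) (fun x y => (∏ i, xx (u i)) * symt ξ ξ' x y) -
        (fun x y => (∏ i, xx (u i)) * symt ξ ξ' x y) ∈ HH l n (m + 1)) ∧
    (¬ ((∀ i, dot (v i) k = 0) ∧ (dot a k = 0 ∧ dot b k = 0) ∧ (dot a' k = 0 ∧ dot b' k = 0)) →
      ppstar (thK k a₀) (fun x y => (∏ i, xx (u i)) * symt ξ ξ' x y) ∈ HH l n (m + 1)) := by
  have hl : lbar (thK k a₀) (∏ i, xx (u i)) = ∏ i, xx (ubar (thK k a₀) (u i)) := by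
    rw [map_prod]
    exact Finset.prod_congr rfl fun i _ => F1c_lbar_xx _ _
  have hgm : (∏ i, xx (u i)) ∈ II (Fin l × E n) ^ m := by
    have h1 := Ideal.prod_mem_prod (ι := Fin m) (s := Finset.univ)
      (I := fun _ => II (Fin l × E n)) (x := fun i => xx (u i))
      (fun i _ => Ideal.subset_span ⟨u i, rfl⟩)
    rwa [Finset.prod_const, Finset.card_univ, Fintype.card_fin] at h1
  have hξ := lab_mem a b ξ h
  have hξ' := lab_mem a' b' ξ' h'
  have hgood : (∀ i, dot (v i) k = 0) → lbar (thK k a₀) (∏ i, xx (u i)) = ∏ i, xx (u i) := by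
    intro hv
    rw [hl]
    exact Finset.prod_congr rfl fun i _ => by rw [(thK_hmg k a₀ ha₀ (v i) (u i) (hu i)).1 (hv i)]
  constructor
  · rintro ⟨hv, ⟨ha, hb⟩, ⟨ha', hb'⟩⟩
    rw [ppstar_sym, hgood hv]
    obtain ⟨ρ, hρ⟩ : ∃ ρ, ρ = pstar (thK k a₀) ξ - ξ := ⟨_, rfl⟩
    obtain ⟨ρ', hρ'⟩ : ∃ ρ', ρ' = pstar (thK k a₀) ξ' - ξ' := ⟨_, rfl⟩
    have m1 : ρ ∈ (II (Fin l × E n)) • RR (Fin l × E n) := by
      rw [hρ]; exact (lab_thK k a₀ ha₀ a b ξ h).1 ha hb
    have m2 : ρ' ∈ (II (Fin l × E n)) • RR (Fin l × E n) := by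
      rw [hρ']; exact (lab_thK k a₀ ha₀ a' b' ξ' h').1 ha' hb'
    have e1 : pstar (thK k a₀) ξ = ξ + ρ := by rw [hρ]; abel
    have e2 : pstar (thK k a₀) ξ' = ξ' + ρ' := by rw [hρ']; abel
    have e3 : (fun x y => (∏ i, xx (u i)) *
        symt (pstar (thK k a₀) ξ) (pstar (thK k a₀) ξ') x y) -
        (fun x y => (∏ i, xx (u i)) * symt ξ ξ' x y) =
        ((fun x y => (∏ i, xx (u i)) * symt ρ ξ' x y) +
        fun x y => (∏ i, xx (u i)) * symt ξ ρ' x y) +
        fun x y => (∏ i, xx (u i)) * symt ρ ρ' x y := by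
      funext x y
      rw [e1, e2]
      simp only [symt, Pi.add_apply, Pi.sub_apply]
      ring
    rw [e3]
    exact add_mem (add_mem (sym_mem_left m _ hgm ρ ξ' m1 hξ')
      (sym_mem_right m _ hgm ξ ρ' hξ m2)) (sym_mem_left m _ hgm ρ ρ' m1 (IR_le ρ' m2))
  · intro hnot
    rw [ppstar_sym]
    by_cases hv : ∀ i, dot (v i) k = 0
    · rw [hgood hv]
      by_cases hab : dot a k = 0 ∧ dot b k = 0
      · have hab' : ¬ (dot a' k = 0 ∧ dot b' k = 0) := fun hc => hnot ⟨hv, hab, hc⟩
        exact sym_mem_right m _ hgm _ _ (pstar_RR _ _ hξ) ((lab_thK k a₀ ha₀ a' b' ξ' h').2 hab')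
      · exact sym_mem_left m _ hgm _ _ ((lab_thK k a₀ ha₀ a b ξ h).2 hab) (pstar_RR _ _ hξ')
    · obtain ⟨i, hi⟩ := not_forall.1 hv
      have h0 : lbar (thK k a₀) (∏ i, xx (u i)) = 0 := by
        rw [hl]
        refine Finset.prod_eq_zero (Finset.mem_univ i) ?_
        rw [(thK_hmg k a₀ ha₀ (v i) (u i) (hu i)).2 hi]
        rw [xx, br_zero, lam_add_self]
      have h1 : (fun x y => lbar (thK k a₀) (∏ i, xx (u i)) *
          symt (pstar (thK k a₀) ξ) (pstar (thK k a₀) ξ') x y) = 0 := by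
        funext x y; rw [h0, zero_mul]; rfl
      rw [h1]
      exact zero_mem _

/-- The action of `th_K` on a generator of the second kind. -/
theorem G3_thK' {l n : ℕ} (k a₀ : E n) (ha₀ : dot a₀ k = 1) (a b : E n)
    (ξ : Fin l × E n → Lam (Fin l × E n)) (h : Lab a b ξ) :
    ((dot a k = 0 ∧ dot b k = 0) →
      ppstar (thK k a₀) (fun x y => ξ x * ξ y) - (fun x y => ξ x * ξ y) ∈ HH l n 1) ∧
    (¬ (dot a k = 0 ∧ dot b k = 0) →
      ppstar (thK k a₀) (fun x y => ξ x * ξ y) ∈ HH l n 1) := by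
  have hξ := lab_mem a b ξ h
  constructor
  · rintro ⟨ha, hb⟩
    rw [ppstar_tens]
    obtain ⟨ρ, hρ⟩ : ∃ ρ, ρ = pstar (thK k a₀) ξ - ξ := ⟨_, rfl⟩
    have m1 : ρ ∈ (II (Fin l × E n)) • RR (Fin l × E n) := by
      rw [hρ]; exact (lab_thK k a₀ ha₀ a b ξ h).1 ha hb
    have e1 : pstar (thK k a₀) ξ = ξ + ρ := by rw [hρ]; abel
    have e3 : (fun x y => pstar (thK k a₀) ξ x * pstar (thK k a₀) ξ y) -
        (fun x y => ξ x * ξ y) =
        (fun x y => ρ x * ρ y) + fun x y => 1 * symt ρ ξ x y := by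
      funext x y
      rw [e1]
      simp only [symt, Pi.add_apply, Pi.sub_apply]
      ring
    rw [e3]
    exact add_mem (tens_mem ρ m1)
      (sym_mem_left 0 1 one_mem_pow ρ ξ m1 hξ)
  · intro hnot
    rw [ppstar_tens]
    exact tens_mem _ ((lab_thK k a₀ ha₀ a b ξ h).2 hnot)

end Pool.Agent.OH
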