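import Pool.Agent.OH.F1
import Pool.Agent.OH.FourBase

set_option autoImplicit false

namespace Pool.Agent.OH

theorem uact_apply {l n : ℕ} (e : E n) (u : U l n) (p : Fin l × E n) :
    uact e u p = u (p.1, p.2 - e) := by
  simp only [uact, ubar, AddMonoidHom.coe_mk, ZeroHom.coe_mk, Finset.sum_apply, Pi.smul_apply,
    act_of, bar_of]
  rw [Finset.sum_eq_single (p.1, p.2 - e)]
  · have h : ((p.1, e + (p.2 - e)) : Fin l × E n) = p := by
      rw [add_sub_cancel]
    rw [h, Pi.single_eq_same, smul_eq_mul, mul_one]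
  · rintro ⟨i, f⟩ _ hne
    rw [Pi.single_apply, if_neg, smul_zero]
    rintro h
    apply hne
    rw [h]
    simp
  · simp

theorem uact_add {l n : ℕ} (e : E n) (u u' : U l n) : uact e (u + u') = uact e u + uact e u' := by
  funext p
  rw [Pi.add_apply, uact_apply, uact_apply, uact_apply]
  rfl

theorem uact_uact {l n : ℕ} (e e' : E n) (u : U l n) : uact e (uact e' u) = uact (e + e') u := by
  funext p
  rw [uact_apply, uact_apply, uact_apply, sub_sub]

theorem uact_zero {l n : ℕ} (u : U l n) : uact 0 u = u := by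
  funext p
  rw [uact_apply, sub_zero]

/-- `θ̄` is equivariant. -/
theorem ubar_thom_uact {l n l' n' : ℕ} (ρ : E n →+ E n') (t : Fin l → T l' n') (e : E n)
    (u : U l n) : ubar (thom ρ t) (uact e u) = uact (ρ e) (ubar (thom ρ t) u) := by
  obtain ⟨w, rfl⟩ := bar_surjective u
  rw [uact, ← bar_map, ← bar_map, ← bar_map, thom_act, uact, ← bar_map]

/-- Every equivariant additive map `U(l,n) → U(l',n')` is induced by a T-hom. -/
theorem exists_thom {l n l' n' : ℕ} (ρ : E n →+ E n') (φ : U l n →+ U l' n')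
    (hφ : ∀ e u, φ (uact e u) = uact (ρ e) (φ u)) :
    ∃ t : Fin l → T l' n', ∀ u, ubar (thom ρ t) u = φ u := by
  choose t ht using fun i : Fin l => bar_surjective (φ (Pi.single (i, 0) 1))
  refine ⟨t, fun u => ?_⟩
  have key : ∀ p : Fin l × E n, ubar (thom ρ t) (Pi.single p 1) = φ (Pi.single p 1) := by
    rintro ⟨i, e⟩
    have h1 : (Pi.single (i, e) 1 : U l n) = uact e (Pi.single (i, 0) 1) := by
      funext p
      rw [uact_apply, Pi.single_apply, Pi.single_apply]
      congr 1
      rw [eq_iff_iff, Prod.ext_iff, Prod.ext_iff]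
      simp only [sub_eq_zero]
    rw [h1, hφ, ubar_thom_uact, ubar_single, thom_of, map_zero, act_zero, ht]
  rw [← Finset.univ_sum_single u, map_sum, map_sum]
  refine Finset.sum_congr rfl fun p _ => ?_
  have h2 : u p = 0 ∨ u p = 1 := by
    generalize u p = x; revert x; decide
  rcases h2 with h2 | h2
  · rw [h2, Pi.single_zero, map_zero, map_zero]
  · rw [h2, key]

/-- `∑_e c(e) (e·u)` -/
noncomputable def H1_S {l n : ℕ} (c : E n → ZMod 2) (u : U l n) : U l n := ∑ e, c e • uact e u

lemma H1_S_uact {l n : ℕ} (c : E n → ZMod 2) (u : U l n) (k : E n) :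
    uact k (H1_S c u) = H1_S (fun e => c (e - k)) u := by
  unfold H1_S
  have h1 : uact k (∑ e, c e • uact e u) = ∑ e, c e • uact (k + e) u := by
    have : ∀ x : U l n, uact k x = ubar (act k) x := fun _ => rfl
    rw [this, map_sum]
    refine Finset.sum_congr rfl fun e _ => ?_
    have h2 : ∀ (a : ZMod 2) (x : U l n), ubar (act k) (a • x) = a • ubar (act k) x := by
      intro a x
      have ha : a = 0 ∨ a = 1 := by revert a; decide
      rcases ha with rfl | rfl
      · rw [zero_smul, zero_smul, map_zero]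
      · rw [one_smul, one_smul]
    rw [h2, ← this, uact_uact]
  rw [h1, ← Equiv.sum_comp (Equiv.addLeft k) (fun e => c (e - k) • uact e u)]
  refine Finset.sum_congr rfl fun e _ => ?_
  rw [Equiv.coe_addLeft, add_sub_cancel_left]

lemma H1_S_add {l n : ℕ} (c c' : E n → ZMod 2) (u : U l n) :
    H1_S c u + H1_S c' u = H1_S (fun e => c e + c' e) u := by
  unfold H1_S
  rw [← Finset.sum_add_distrib]
  exact Finset.sum_congr rfl fun e _ => (add_smul _ _ _).symm

lemma H1_S_sum {l n : ℕ} {X : Type} (t : Finset X) (c : X → E n → ZMod 2) (u : U l n) :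
    ∑ x ∈ t, H1_S (c x) u = H1_S (fun e => ∑ x ∈ t, c x e) u := by
  unfold H1_S
  rw [Finset.sum_comm]
  exact Finset.sum_congr rfl fun e _ => (Finset.sum_smul).symm

lemma H1_S_delta {l n : ℕ} (u : U l n) : H1_S (fun e => if e = 0 then 1 else 0) u = u := by
  unfold H1_S
  rw [Finset.sum_eq_single 0]
  · dsimp only
    rw [if_pos rfl, one_smul, uact_zero]
  · intro e _ he
    dsimp only
    rw [if_neg he, zero_smul]
  · simp

lemma H1_hmg {l n : ℕ} (s : E n) (u : U l n) :
    Hmg s (H1_S (fun e => F4.tr (F4.chi (dot s e))) u) := by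
  intro k
  refine ⟨fun h => ?_, fun h => ?_⟩
  · rw [H1_S_uact]
    congr 1
    funext e
    rw [Fb_dot_sub, h, sub_zero]
  · rw [H1_S_uact, H1_S_uact, H1_S_add, H1_S_add]
    have : (fun e => F4.tr (F4.chi (dot s e)) + F4.tr (F4.chi (dot s (e - k))) +
        F4.tr (F4.chi (dot s (e - (k + k))))) = fun _ : E n => (0 : ZMod 2) := by
      funext e
      rw [Fb_dot_sub, Fb_dot_sub, Fb_dot_add]
      revert h
      generalize dot s k = x
      generalize dot s e = y
      revert x y; decide
    rw [this]
    unfold H1_S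
    simp

lemma H1_hmg0 {l n : ℕ} (u : U l n) : Hmg 0 (H1_S (fun _ => 1) u) := by
  intro k
  refine ⟨fun _ => by rw [H1_S_uact], fun h => absurd (zero_dotProduct _) h⟩

attribute [local instance] Fb_fin

/-- Homogeneous elements generate `U(l,n)` (isotypic decomposition). -/
theorem hmg_decomp {l n : ℕ} (u : U l n) :
    u ∈ AddSubgroup.closure {u' : U l n | ∃ v : E n, Hmg v u'} := by
  have key : u = H1_S (fun _ => 1) u +
      ∑ s : {s : E n // PosV s}, H1_S (fun e => F4.tr (F4.chi (dot s.1 e))) u := by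
    rw [H1_S_sum, H1_S_add]
    have hfun : (fun e : E n => 1 + ∑ s : {s : E n // PosV s}, F4.tr (F4.chi (dot s.1 e))) =
        fun e => if e = 0 then 1 else 0 := by
      funext e
      apply F4.c2_injective
      have h1 := Fb_sum_chi e
      rw [← Equiv.sum_comp (Fb_equiv n), Fintype.sum_sum_type, Fintype.sum_sum_type] at h1
      have h2 : F4.c2 (if e = 0 then 1 else 0) = if e = 0 then 1 else 0 := by
        split_ifs
        · exact map_one _
        · exact map_zero _
      rw [h2, ← h1, map_add, map_one, map_sum, ← Finset.sum_add_distrib]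
      congr 1
      · simp only [Finset.univ_unique, Finset.sum_singleton]
        change (1 : F4) = F4.chi (dot 0 e)
        have : dot (0 : E n) e = 0 := zero_dotProduct _
        rw [this, F4.chi_zero]
      · refine Finset.sum_congr rfl fun s _ => ?_
        change _ = F4.chi (dot s.1 e) + F4.chi (dot (-s.1) e)
        rw [F4.c2_tr, Fb_neg_dot, F4.chi_neg]
    rw [hfun, H1_S_delta]
  rw [key]
  refine add_mem (AddSubgroup.subset_closure ⟨0, H1_hmg0 u⟩) (sum_mem fun s _ => ?_)
  exact AddSubgroup.subset_closure ⟨s.1, H1_hmg s.1 u⟩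

/-- The effect of an equivariant map over `ρ` on homogeneous elements:
if `v'` satisfies `⟨v', ρ e⟩ = ⟨v, e⟩` then ... (only the direction needed: images of homogeneous
elements of label `v` under a map over the identity are homogeneous of label `v`). -/
theorem hmg_map {l n l' : ℕ} (φ : U l n →+ U l' n)
    (hφ : ∀ e u, φ (uact e u) = uact e (φ u)) (v : E n) (u : U l n) (hu : Hmg v u) :
    Hmg v (φ u) := by
  intro k
  obtain ⟨h1, h2⟩ := hu k
  refine ⟨fun h => by rw [← hφ, h1 h], fun h => ?_⟩
  rw [← hφ, ← hφ, ← map_add, ← map_add, h2 h, map_zero]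

end Pool.Agent.OH
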