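import Pool.Agent.OH.H1

set_option autoImplicit false

namespace Pool.Agent.OH

namespace H2aux

lemma piK_add_k {n : ℕ} (k a : E n) (ha : dot a k = 1) (e : E n) (c : ZMod 3) :
    piK k a (e + c • k) = piK k a e := by
  simp only [piK, AddMonoidHom.coe_mk, ZeroHom.coe_mk, dot, dotProduct_add, dotProduct_smul]
  have : a ⬝ᵥ k = 1 := ha
  rw [this, smul_eq_mul, mul_one, add_smul]; abel

lemma uact_single {l n : ℕ} (k : E n) (p : Fin l × E n) :
    uact k (Pi.single p 1 : U l n) = Pi.single (p.1, k + p.2) 1 := by
  unfold uact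
  rw [ubar_single, act_of, bar_of]

lemma act_yy {l n : ℕ} (e e' : E n) (i : Fin l) : act e (yy i e' : T l n) = yy i (e + e') := by
  simp [yy]

lemma three (x : ZMod 3) : x = 0 ∨ x = 1 ∨ x = 2 := by revert x; decide

lemma two_smul_k {n : ℕ} (k : E n) : (2 : ZMod 3) • k = k + k := by
  have : (2 : ZMod 3) = 1 + 1 := by decide
  rw [this, add_smul, one_smul]

lemma kkk {n : ℕ} (k : E n) : k + (k + k) = 0 := by
  funext i
  simp only [Pi.add_apply, Pi.zero_apply]
  generalize k i = x; revert x; decide

lemma sum_single {l n : ℕ} (k : E n) (i : Fin l) (e : E n) (c : ZMod 3) :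
    (Pi.single (i, e - c • k) 1 + Pi.single (i, e - c • k + k) 1 +
      Pi.single (i, e - c • k + (k + k)) 1 : U l n) =
    Pi.single (i, e) 1 + Pi.single (i, k + e) 1 + Pi.single (i, k + k + e) 1 := by
  rcases three c with rfl | rfl | rfl
  · rw [zero_smul, sub_zero, add_comm e k, add_comm e (k + k)]
  · rw [one_smul, sub_add_cancel]
    have h1 : e - k = k + k + e := by
      have := kkk k
      have h2 : k + k = -k := by
        rw [eq_neg_iff_add_eq_zero, add_comm]; exact this
      rw [h2]; abel
    have h2 : e - k + (k + k) = k + e := by abel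
    rw [h2, h1]; abel
  · rw [two_smul_k]
    have h1 : e - (k + k) = k + e := by
      have := kkk k
      have h2 : k = -(k + k) := by
        rw [eq_neg_iff_add_eq_zero]; exact this
      calc e - (k + k) = -(k + k) + e := by abel
        _ = k + e := by rw [← h2]
    have h2 : k + e + k = k + k + e := by abel
    have h3 : k + e + (k + k) = e := by
      have := kkk k
      calc k + e + (k + k) = (k + (k + k)) + e := by abel
        _ = e := by rw [this, zero_add]
    rw [h1, h2, h3]; abel

end H2aux

open H2aux

/-- (8.0) -/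
theorem ubar_thK {l n : ℕ} (k a : E n) (ha : dot a k = 1) (u : U l n) :
    ubar (thK k a) u = u + uact k u + uact (k + k) u := by
  have _ := ha
  let L : U l n →+ U l n := ubar (thK k a)
  let R : U l n →+ U l n := AddMonoidHom.id _ + ubar (act k) + ubar (act (k + k))
  have hLR : L = R := by
    refine AddMonoidHom.functions_ext _ _ _ ?_
    intro p x
    have hx : x = 0 ∨ x = 1 := by revert x; decide
    rcases hx with rfl | rfl
    · rw [Pi.single_zero, map_zero, map_zero]
    · obtain ⟨i, e⟩ := p
      show ubar (thK k a) (Pi.single (i, e) 1) =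
        Pi.single (i, e) 1 + uact k (Pi.single (i, e) 1) + uact (k + k) (Pi.single (i, e) 1)
      rw [uact_single, uact_single, ubar_single]
      unfold thK
      rw [thom_of]
      simp only [map_mul, act_yy, bar_mul, add_zero]
      simp only [yy, bar_of]
      exact sum_single k i e (dot a e)
  have := DFunLike.congr_fun hLR u
  exact this

theorem thK_hmg {l n : ℕ} (k a : E n) (ha : dot a k = 1) (v : E n) (u : U l n) (hu : Hmg v u) :
    (dot v k = 0 → ubar (thK k a) u = u) ∧ (dot v k ≠ 0 → ubar (thK k a) u = 0) := by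
  constructor
  · intro h
    rw [ubar_thK k a ha u, (hu k).1 h, (hu (k + k)).1 (by simp only [dot, dotProduct_add] at h ⊢; rw [h, add_zero])]
    funext p
    simp only [Pi.add_apply]
    generalize u p = x; revert x; decide
  · intro h
    rw [ubar_thK k a ha u]
    exact (hu k).2 h

/-- `th_K` factors through `T(l,n)` when considered on `T(l,n+1)`. -/
theorem line_step (M M' : TIF) (n : ℕ) (h : ∀ l, M'.S l n ≤ M.S l n) (l : ℕ) (k a : E (n + 1))
    (ha : dot a k = 1) (w : T l (n + 1)) (hw : w ∈ M'.S l (n + 1)) :
    thK k a w ∈ M.S l (n + 1) := by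
  have hk : k ≠ 0 := by
    rintro rfl
    simp [dot] at ha
  obtain ⟨i0, hi0⟩ : ∃ i, k i ≠ 0 := by
    by_contra hcon
    push Not at hcon
    exact hk (funext hcon)
  let ρ1 : E (n + 1) →+ E n :=
    { toFun := fun e j => (e - (e i0 * (k i0)⁻¹) • k) (i0.succAbove j)
      map_zero' := by funext j; simp
      map_add' := by
        intro x y; funext j
        simp only [Pi.add_apply, Pi.sub_apply, Pi.smul_apply, smul_eq_mul]; ring }
  let ρ2 : E n →+ E (n + 1) :=
    { toFun := fun x => piK k a (i0.insertNth (0 : ZMod 3) x)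
      map_zero' := by
        have : (i0.insertNth (0 : ZMod 3) (0 : E n) : E (n + 1)) = 0 := by
          funext j
          refine Fin.succAboveCases i0 ?_ ?_ j
          · simp
          · intro j; simp
        rw [this, map_zero]
      map_add' := by
        intro x y
        have : (i0.insertNth (0 : ZMod 3) (x + y) : E (n + 1)) =
            (i0.insertNth (0 : ZMod 3) x : E (n + 1)) + (i0.insertNth (0 : ZMod 3) y : E (n + 1)) := by
          funext j
          refine Fin.succAboveCases i0 ?_ ?_ j
          · simp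
          · intro j; simp
        rw [this, map_add] }
  have hρ : ρ2.comp ρ1 = piK k a := by
    refine AddMonoidHom.ext fun e => funext fun j => ?_
    have h1 : (i0.insertNth (0 : ZMod 3) (ρ1 e) : E (n + 1)) = e - (e i0 * (k i0)⁻¹) • k := by
      funext j
      refine Fin.succAboveCases i0 ?_ ?_ j
      · simp only [Fin.insertNth_apply_same, Pi.sub_apply, Pi.smul_apply, smul_eq_mul]
        rw [mul_assoc, inv_mul_cancel₀ hi0, mul_one, sub_self]
      · intro j
        rw [Fin.insertNth_apply_succAbove]; rfl
    have h2 : ρ2 (ρ1 e) = piK k a (e - (e i0 * (k i0)⁻¹) • k) := by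
      show piK k a (i0.insertNth (0 : ZMod 3) (ρ1 e)) = _
      rw [h1]
    have h3 := piK_add_k k a ha e (-(e i0 * (k i0)⁻¹))
    rw [neg_smul, ← sub_eq_add_neg] at h3
    show ρ2 (ρ1 e) j = _
    rw [h2, h3]
  have key : thK k a w = thom ρ2 (fun i => yy i 0 * yy i k * yy i (k + k))
      (thom ρ1 (fun i => yy i 0) w) := by
    rw [thom_comp, hρ]
    unfold thK
    have : (fun i : Fin l => (thom ρ2 (fun i => (yy i 0 * yy i k * yy i (k + k) : T l (n + 1))))
        ((yy i 0 : T l n))) = fun i => yy i 0 * yy i k * yy i (k + k) := by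
      funext i
      conv_lhs => rw [yy]
      rw [thom_of, map_zero, act_zero]
    rw [this]
  rw [key]
  exact M.thom_mem _ _ _ _ _ _ _ (h l (M'.thom_mem _ _ _ _ _ _ _ hw))

/-- If the labels do not span `V_n` there is a line `K` in their common kernel. -/
theorem exists_line {n : ℕ} (S : Set (E n)) (hS : Submodule.span (ZMod 3) S ≠ ⊤) :
    ∃ k a : E n, dot a k = 1 ∧ ∀ v ∈ S, dot v k = 0 := by
  obtain ⟨f, hf0, hf⟩ := Submodule.exists_le_ker_of_lt_top _ (lt_top_iff_ne_top.mpr hS)
  let k : E n := fun i => f (Pi.single i 1)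
  have hfk : ∀ v, f v = dot v k := by
    intro v
    have : v = ∑ i, v i • (Pi.single i 1 : E n) := by
      funext j
      simp [Finset.sum_apply, Pi.single_apply]
    conv_lhs => rw [this]
    rw [map_sum]
    simp only [map_smul, smul_eq_mul]
    rfl
  have hk : ∃ i, k i ≠ 0 := by
    by_contra hcon
    push Not at hcon
    apply hf0
    ext v
    show f (Pi.single v 1) = 0
    exact hcon v
  obtain ⟨i, hi⟩ := hk
  refine ⟨k, Pi.single i (k i)⁻¹, ?_, ?_⟩
  · simp only [dot, single_dotProduct]
    exact inv_mul_cancel₀ hi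
  · intro v hv
    rw [← hfk]
    exact hf (Submodule.subset_span hv)

end Pool.Agent.OH
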