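import Pool.Agent.OH.H1

set_option autoImplicit false
set_option linter.unusedSectionVars false

namespace Pool.Agent.OH

namespace S7

section basic
variable {l n : ℕ}

lemma uact_add (e : E n) (u v : U l n) : uact e (u + v) = uact e u + uact e v :=
  map_add (ubar (act e)) u v

lemma uact_z (e : E n) : uact e (0 : U l n) = 0 := map_zero (ubar (act e))

lemma uact_sum {α : Type} (e : E n) (s : Finset α) (f : α → U l n) :
    uact e (∑ a ∈ s, f a) = ∑ a ∈ s, uact e (f a) :=
  map_sum (ubar (act e)) f s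

lemma uact_bar (e : E n) (w : T l n) : uact e (bar w) = bar (act e w) := (bar_map _ _).symm

lemma uact_uact (e e' : E n) (u : U l n) : uact e (uact e' u) = uact (e + e') u := by
  obtain ⟨w, rfl⟩ := bar_surjective u
  rw [uact_bar, uact_bar, uact_bar, act_act]

lemma uact_zero (u : U l n) : uact (0 : E n) u = u := by
  obtain ⟨w, rfl⟩ := bar_surjective u
  rw [uact_bar, act_zero]

lemma dot_add {n : ℕ} (v x y : E n) : dot v (x + y) = dot v x + dot v y := by
  simp [dot, dotProduct_add]

lemma dot_smul {n : ℕ} (v x : E n) (k : ZMod 3) : dot v (k • x) = k * dot v x := by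
  simp [dot, dotProduct_smul]

lemma dot_sub {n : ℕ} (v x y : E n) : dot v (x - y) = dot v x - dot v y := by
  simp [dot, dotProduct_sub]

lemma uact_congr {v : E n} {c : U l n} (h : Hmg v c) {x y : E n} (hxy : dot v x = dot v y) :
    uact x c = uact y c := by
  have h1 : uact (x - y) c = c := (h (x - y)).1 (by rw [dot_sub, hxy, sub_self])
  calc uact x c = uact (y + (x - y)) c := by rw [add_sub_cancel]
    _ = uact y (uact (x - y) c) := by rw [uact_uact]
    _ = uact y c := by rw [h1]

lemma Hmg_uact {v : E n} {c : U l n} (h : Hmg v c) (x : E n) : Hmg v (uact x c) := by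
  intro k
  constructor
  · intro hk
    rw [uact_uact, add_comm, ← uact_uact, (h k).1 hk]
  · intro hk
    have := congrArg (uact x) ((h k).2 hk)
    rw [uact_add, uact_add, uact_uact, uact_uact, uact_z] at this
    rw [uact_uact, uact_uact, add_comm k x, add_comm (k + k) x]
    exact this

lemma lbar_xx {ι κ : Type} [Fintype ι] [DecidableEq ι] [Fintype κ] [DecidableEq κ]
    (φ : FreeGroup ι →* FreeGroup κ) (u : ι → ZMod 2) : lbar φ (xx u) = xx (ubar φ u) := by
  rw [xx, map_add, map_one, lbar_br, xx]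

lemma ubar_thom_single {l' n' : ℕ} (ρ : E n →+ E n') (t : Fin l → T l' n') (p : Fin l × E n) :
    ubar (thom ρ t) (Pi.single p 1) = uact (ρ p.2) (bar (t p.1)) := by
  rw [ubar_single, thom_of, uact_bar]

end basic

section alg
variable {ι : Type}

lemma one_add_xx (u : ι → ZMod 2) : 1 + xx u = br u := by
  rw [xx, ← add_assoc, lam_add_self, zero_add]

lemma br_sum {α : Type} (s : Finset α) (z : α → (ι → ZMod 2)) :
    br (∑ a ∈ s, z a) = ∏ a ∈ s, br (z a) := by
  classical
  induction s using Finset.induction_on with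
  | empty => simp [br_zero]
  | insert a s ha ih => rw [Finset.sum_insert ha, Finset.prod_insert ha, br_add, ih]

lemma xx_zero : xx (0 : ι → ZMod 2) = 0 := by rw [xx, br_zero, lam_add_self]

lemma xx_sum {α : Type} [DecidableEq α] (s : Finset α) (z : α → (ι → ZMod 2)) :
    xx (∑ a ∈ s, z a) = ∑ R ∈ s.powerset.erase ∅, ∏ a ∈ R, xx (z a) := by
  have h : br (∑ a ∈ s, z a) = ∑ R ∈ s.powerset, ∏ a ∈ R, xx (z a) := by
    rw [br_sum, ← Finset.prod_one_add]
    exact Finset.prod_congr rfl fun a _ => (one_add_xx _).symm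
  rw [xx, h, ← Finset.add_sum_erase _ _ (Finset.empty_mem_powerset s), Finset.prod_empty,
    ← add_assoc, lam_add_self, zero_add]

end alg

section shift
variable {l n : ℕ}

lemma u_three_nsmul (k : ℕ) (u : U l n) : (3 ^ k) • u = u := by
  induction k with
  | zero => simp
  | succ k ih => rw [pow_succ, mul_nsmul, ih, succ_nsmul, two_nsmul, u_add_self, zero_add]

/-- Averaging over `E_{n0}`. -/
lemma sum_shift {n0 : ℕ} {v d : E n} {c : U l n} (h : Hmg v c) (hd : dot v d = 1) (e' : E n0) :
    ∑ x : E n0, uact (dot x e' • d) c = if e' = 0 then c else 0 := by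
  split_ifs with he
  · subst he
    have : ∀ x : E n0, uact (dot x 0 • d) c = c := by
      intro x
      rw [show dot x (0 : E n0) = 0 by simp [dot], zero_smul, uact_zero]
    rw [Finset.sum_congr rfl fun x _ => this x, Finset.sum_const, Finset.card_univ]
    rw [show Fintype.card (E n0) = 3 ^ n0 by simp [ZMod.card], u_three_nsmul]
  · obtain ⟨i, hi⟩ : ∃ i, e' i ≠ 0 := by
      by_contra hcon
      push Not at hcon
      exact he (funext hcon)
    have hx0 : ∃ x0 : E n0, dot x0 e' = 1 := by
      refine ⟨Pi.single i (e' i)⁻¹, ?_⟩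
      simp [dot, hi]
    obtain ⟨x0, hx0⟩ := hx0
    set f : ZMod 3 → U l n := fun k => uact (k • d) c with hf
    have hf3 : ∀ k, f k + f (k + 1) + f (k + 2) = 0 := by
      intro k
      have h1 := (Hmg_uact h (k • d) d).2 (by rw [hd]; decide)
      rw [uact_uact, uact_uact] at h1
      have e1 : (k + 1) • d = d + k • d := by rw [add_smul, one_smul, add_comm]
      have e2 : (k + 2) • d = d + d + k • d := by
        rw [add_smul, add_comm, show (2 : ZMod 3) = 1 + 1 by decide, add_smul, one_smul]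
      simp only [hf, e1, e2]
      exact h1
    have hshift : ∀ y : E n0, ∑ x : E n0, f (dot x e' + dot y e') = ∑ x : E n0, f (dot x e') := by
      intro y
      refine Fintype.sum_equiv (Equiv.addRight y) _ _ fun x => ?_
      simp [dot, add_dotProduct]
    have h1 := hshift x0
    have h2 := hshift (x0 + x0)
    have hy2 : dot (x0 + x0) e' = 2 := by
      have : dot (x0 + x0) e' = dot x0 e' + dot x0 e' := by simp [dot, add_dotProduct]
      rw [this, hx0]; decide
    rw [hx0] at h1
    rw [hy2] at h2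
    have hsum : ∑ x : E n0, f (dot x e') = 0 := by
      have h3 : ∑ x : E n0, (f (dot x e') + f (dot x e' + 1) + f (dot x e' + 2)) = 0 :=
        Finset.sum_eq_zero fun x _ => hf3 _
      rw [Finset.sum_add_distrib, Finset.sum_add_distrib, h1, h2, u_add_self, zero_add] at h3
      exact h3
    exact hsum

/-- Dual vectors. -/
lemma exists_dual {α : Type} [Fintype α] [DecidableEq α] (v : α → E n)
    (hv : LinearIndependent (ZMod 3) v) :
    ∃ d : α → E n, ∀ j k, dot (v j) (d k) = if j = k then 1 else 0 := by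
  have hinj : Function.Injective (Fintype.linearCombination (ZMod 3) v) := by
    exact linearIndependent_iff_injective_fintypeLinearCombination.1 hv
  obtain ⟨g, hg⟩ := LinearMap.exists_leftInverse_of_injective _ (LinearMap.ker_eq_bot.2 hinj)
  refine ⟨fun k i => g (Pi.single i 1) k, fun j k => ?_⟩
  have h1 : g (v j) = Pi.single j 1 := by
    have h2 : Fintype.linearCombination (ZMod 3) v (Pi.single j 1) = v j := by
      simp [Fintype.linearCombination_apply, Pi.single_apply]
    rw [← h2]
    exact LinearMap.congr_fun hg (Pi.single j 1)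
  have h3 : v j = ∑ i, v j i • (Pi.single i (1 : ZMod 3) : E n) := by
    ext i
    simp [Finset.sum_apply, Pi.single_apply]
  have h4 : g (v j) k = ∑ i, v j i * g (Pi.single i 1) k := by
    conv_lhs => rw [h3]
    rw [map_sum, Finset.sum_apply]
    refine Finset.sum_congr rfl fun i _ => ?_
    rw [map_smul]; rfl
  have h5 : dot (v j) (fun i => g (Pi.single i 1) k) = g (v j) k := by
    rw [h4]; rfl
  rw [h5, h1, Pi.single_apply]
  by_cases h : j = k
  · subst h; simp
  · rw [if_neg h, if_neg (Ne.symm h)]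

end shift

section key
variable {Λ : Type} [CommRing Λ] {ι X : Type} [Fintype ι] [DecidableEq ι] [Fintype X]
  [DecidableEq X]

lemma prod_mem_prod (K : ι → Ideal Λ) (s : Finset ι) (a : ι → Λ) (ha : ∀ j ∈ s, a j ∈ K j) :
    ∏ j ∈ s, a j ∈ ∏ j ∈ s, K j := Ideal.prod_mem_prod ha

/-- If the sum of all fibres is too large, a product has an extra factor. -/
lemma extra_factor (I : Ideal Λ) (K : ι → Ideal Λ) (f : ι → ι → Λ) (R : ι → Finset ι)
    (hK : ∀ j p, f j p ∈ K j) (hI : ∀ j p, f j p ∈ I) (hcov : ∀ j, ∃ p, j ∈ R p)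
    (hbig : Fintype.card ι < ∑ p, (R p).card) :
    ∏ p, ∏ j ∈ R p, f j p ∈ I * ∏ j, K j := by
  classical
  choose g hg using hcov
  rw [Finset.prod_sigma' Finset.univ R (fun p j => f j p)]
  set Im : Finset (Σ _ : ι, ι) := Finset.univ.image (fun j => (⟨g j, j⟩ : Σ _ : ι, ι)) with hIm
  have hinj : Function.Injective (fun j : ι => (⟨g j, j⟩ : Σ _ : ι, ι)) := by
    intro a b hab
    simp only [Sigma.mk.injEq] at hab
    exact eq_of_heq hab.2
  have hsub : Im ⊆ Finset.univ.sigma R := by
    intro x hx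
    obtain ⟨j, -, rfl⟩ := Finset.mem_image.1 hx
    simp [hg j]
  have hcard : Im.card = Fintype.card ι := by
    rw [hIm, Finset.card_image_of_injective _ hinj, Finset.card_univ]
  have hne : (Finset.univ.sigma R \ Im).Nonempty := by
    rw [← Finset.card_pos, Finset.card_sdiff_of_subset hsub, hcard, Finset.card_sigma]
    omega
  rw [← Finset.prod_sdiff hsub]
  refine Ideal.mul_mem_mul ?_ ?_
  · obtain ⟨x0, hx0⟩ := hne
    rw [← Finset.mul_prod_erase _ _ hx0]
    exact I.mul_mem_right _ (hI _ _)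
  · rw [hIm, Finset.prod_image (fun a _ b _ hab => hinj hab)]
    exact Ideal.prod_mem_prod fun j _ => hK j (g j)

lemma prod_sub_mem (I : Ideal Λ) (K : ι → Ideal Λ) (a b : ι → Λ) (ha : ∀ j, a j ∈ K j)
    (hb : ∀ j, b j ∈ K j) (hab : ∀ j, a j - b j ∈ I * K j) :
    ∏ j, a j - ∏ j, b j ∈ I * ∏ j, K j := by
  classical
  have : ∀ s : Finset ι, ∏ j ∈ s, a j - ∏ j ∈ s, b j ∈ I * ∏ j ∈ s, K j := by
    intro s
    induction s using Finset.induction_on with
    | empty => simp
    | insert j s hj ih =>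
      rw [Finset.prod_insert hj, Finset.prod_insert hj, Finset.prod_insert hj]
      have e : a j * ∏ j ∈ s, a j - b j * ∏ j ∈ s, b j =
          (a j - b j) * (∏ j ∈ s, a j) + b j * (∏ j ∈ s, a j - ∏ j ∈ s, b j) := by ring
      rw [e]
      refine add_mem ?_ ?_
      · rw [← mul_assoc]
        exact Ideal.mul_mem_mul (hab j) (Ideal.prod_mem_prod fun j _ => ha j)
      · rw [mul_left_comm]
        exact Ideal.mul_mem_mul (hb j) ih
  exact this Finset.univ

/-- The algebraic heart of (7.1). -/
lemma key (h2 : ∀ a : Λ, a + a = 0) (A : ι → Finset ι) (hA : ∀ p, p ∈ A p)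
    (I : Ideal Λ) (K : ι → Ideal Λ) (y : ι → X → ι → Λ) (hyK : ∀ j x p, y j x p ∈ K j)
    (hyI : ∀ j x p, y j x p ∈ I) (Y : ι → Λ) (hYK : ∀ p, Y p ∈ K p)
    (hne : ∀ j p, j ∈ A p → j ≠ p → ∑ x, y j x p ∈ I * K j)
    (heq : ∀ p, ∑ x, y p x p - Y p ∈ I * K p) :
    ∑ s : ι → X, ∑ S : Finset ι, ∏ p, ∑ R ∈ (S ∩ A p).powerset.erase ∅, ∏ j ∈ R, y j (s j) p
      - ∏ p, Y p ∈ I * ∏ j, K j := by
  classical
  set 𝓡 : Finset (ι → Finset ι) := Fintype.piFinset (fun p => (A p).powerset.erase ∅) with h𝓡
  have hstep : ∀ s : ι → X,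
      ∑ S : Finset ι, ∏ p, ∑ R ∈ (S ∩ A p).powerset.erase ∅, ∏ j ∈ R, y j (s j) p =
      ∑ R ∈ 𝓡.filter (fun R => Finset.univ.biUnion R = Finset.univ),
        ∏ p, ∏ j ∈ R p, y j (s j) p := by
    intro s
    have h1 : ∀ S : Finset ι, ∏ p, ∑ R ∈ (S ∩ A p).powerset.erase ∅, ∏ j ∈ R, y j (s j) p =
        ∑ R ∈ 𝓡, if Finset.univ.biUnion R ⊆ S then ∏ p, ∏ j ∈ R p, y j (s j) p else 0 := by
      intro S
      rw [Finset.prod_univ_sum, ← Finset.sum_filter]
      refine Finset.sum_congr ?_ fun _ _ => rfl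
      ext R
      simp only [Fintype.mem_piFinset, Finset.mem_erase, Finset.mem_powerset, h𝓡,
        Finset.mem_filter, Finset.biUnion_subset, Finset.mem_univ, true_implies,
        Finset.subset_inter_iff]
      constructor
      · intro h
        exact ⟨fun p => ⟨(h p).1, (h p).2.2⟩, fun p => (h p).2.1⟩
      · rintro ⟨h, h'⟩ p
        exact ⟨(h p).1, h' p, (h p).2⟩
    rw [Finset.sum_congr rfl fun S _ => h1 S, Finset.sum_comm, Finset.sum_filter]
    refine Finset.sum_congr rfl fun R _ => ?_
    rw [← Finset.sum_filter, Finset.sum_const]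
    have h3 : (Finset.univ.filter fun S : Finset ι => Finset.univ.biUnion R ⊆ S) =
        Finset.Icc (Finset.univ.biUnion R) Finset.univ := by
      ext S; simp
    rw [h3, Finset.card_Icc_finset (Finset.subset_univ _)]
    split_ifs with h
    · rw [h]; simp
    · have hlt : (Finset.univ.biUnion R).card < (Finset.univ : Finset ι).card :=
        Finset.card_lt_card (Finset.ssubset_univ_iff.2 h)
      obtain ⟨k, hk⟩ : ∃ k, (Finset.univ : Finset ι).card - (Finset.univ.biUnion R).card = k + 1 :=
        ⟨_, (Nat.succ_pred_eq_of_pos (by omega)).symm⟩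
      rw [hk, pow_succ, mul_nsmul, two_nsmul, h2]
  rw [Finset.sum_congr rfl fun s _ => hstep s, Finset.sum_comm]
  set R0 : ι → Finset ι := fun p => {p} with hR0
  have hR0mem : R0 ∈ 𝓡.filter (fun R => Finset.univ.biUnion R = Finset.univ) := by
    simp only [Finset.mem_filter, h𝓡, Fintype.mem_piFinset, Finset.mem_erase,
      Finset.mem_powerset, hR0, Finset.singleton_subset_iff]
    refine ⟨fun p => ⟨Finset.singleton_ne_empty p, hA p⟩, ?_⟩
    ext x; simp
  rw [← Finset.add_sum_erase _ _ hR0mem, add_sub_right_comm]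
  refine add_mem ?_ (sum_mem fun R hR => ?_)
  · have h4 : ∑ s : ι → X, ∏ p, ∏ j ∈ R0 p, y j (s j) p = ∏ p, ∑ x, y p x p := by
      rw [Finset.prod_univ_sum, Fintype.piFinset_univ]
      refine Finset.sum_congr rfl fun s _ => Finset.prod_congr rfl fun p _ => ?_
      simp [hR0]
    rw [h4]
    exact prod_sub_mem I K _ _ (fun j => sum_mem fun x _ => hyK j x j) hYK heq
  · rw [Finset.mem_erase, Finset.mem_filter, h𝓡, Fintype.mem_piFinset] at hR
    obtain ⟨hRne, hRA, hRcov⟩ := hR
    have hcov : ∀ j, ∃ p, j ∈ R p := by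
      intro j
      have := Finset.mem_univ j
      rw [← hRcov, Finset.mem_biUnion] at this
      obtain ⟨p, -, hp⟩ := this
      exact ⟨p, hp⟩
    have hRA' : ∀ p, (R p).Nonempty ∧ R p ⊆ A p := by
      intro p
      have := hRA p
      rw [Finset.mem_erase, Finset.mem_powerset] at this
      exact ⟨Finset.nonempty_iff_ne_empty.2 this.1, this.2⟩
    by_cases hbig : Fintype.card ι < ∑ p, (R p).card
    · exact sum_mem fun s _ => extra_factor I K (fun j p => y j (s j) p) R
        (fun j p => hyK j _ p) (fun j p => hyI j _ p) hcov hbig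
    · -- all fibres are singletons
      have hone : ∀ p, (R p).card = 1 := by
        by_contra hcon
        push Not at hcon
        obtain ⟨p0, hp0⟩ := hcon
        apply hbig
        have : Fintype.card ι = ∑ _p : ι, 1 := by simp
        rw [this]
        refine Finset.sum_lt_sum (fun p _ => Finset.card_pos.2 (hRA' p).1) ⟨p0, Finset.mem_univ _, ?_⟩
        have := Finset.card_pos.2 (hRA' p0).1
        omega
      have hsing : ∀ p, ∃ j, R p = {j} := fun p => Finset.card_eq_one.1 (hone p)
      choose g hg using hsing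
      have hgsurj : Function.Surjective g := by
        intro j
        obtain ⟨p, hp⟩ := hcov j
        rw [hg p, Finset.mem_singleton] at hp
        exact ⟨p, hp.symm⟩
      have hgbij : Function.Bijective g := Finite.surjective_iff_bijective.1 hgsurj
      obtain ⟨p0, hp0⟩ : ∃ p, g p ≠ p := by
        by_contra hcon
        push Not at hcon
        apply hRne
        funext p
        rw [hg p, hcon p]
      set e : ι ≃ ι := Equiv.ofBijective g hgbij with he
      have h5 : ∑ s : ι → X, ∏ p, ∏ j ∈ R p, y j (s j) p = ∏ p, ∑ x, y (g p) x p := by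
        rw [Finset.prod_univ_sum, Fintype.piFinset_univ]
        refine Fintype.sum_equiv (Equiv.arrowCongr e.symm (Equiv.refl X)) _ _ fun s => ?_
        refine Finset.prod_congr rfl fun p _ => ?_
        rw [hg p, Finset.prod_singleton]
        rfl
      rw [h5]
      have h6 : ∏ p, ∑ x, y (g p) x p = ∏ j, ∑ x, y j x (e.symm j) := by
        refine Fintype.prod_equiv e _ _ fun p => ?_
        rw [Equiv.symm_apply_apply]; rfl
      rw [h6]
      have hj0 : e.symm (g p0) = p0 := by
        rw [Equiv.symm_apply_eq]; rfl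
      have h7 : ∑ x, y (g p0) x (e.symm (g p0)) ∈ I * K (g p0) := by
        rw [hj0]
        refine hne _ _ ((hRA' p0).2 ?_) hp0
        rw [hg p0]; exact Finset.mem_singleton_self _
      have h8 := prod_sub_mem I K (fun j => ∑ x, y j x (e.symm j))
        (fun j => if j = g p0 then 0 else ∑ x, y j x (e.symm j))
        (fun j => sum_mem fun x _ => hyK j x _)
        (fun j => by
          split_ifs
          · exact zero_mem _
          · exact sum_mem fun x _ => hyK j x _)
        (fun j => by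
          split_ifs with h
          · rw [h, sub_zero]; exact h7
          · rw [sub_self]; exact zero_mem _)
      have h9 : ∏ j, (if j = g p0 then (0 : Λ) else ∑ x, y j x (e.symm j)) = 0 :=
        Finset.prod_eq_zero (Finset.mem_univ (g p0)) (by rw [if_pos rfl])
      rw [h9, sub_zero] at h8
      exact h8

lemma nak (J I L : Ideal Λ) (h : L ≤ J ⊔ I * L) {N : ℕ} (hN : I ^ N = ⊥) : L ≤ J := by
  have h1 : ∀ k : ℕ, L ≤ J ⊔ I ^ k * L := by
    intro k
    induction k with
    | zero => rw [pow_zero, one_mul]; exact le_sup_right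
    | succ k ih =>
      refine ih.trans (sup_le le_sup_left ?_)
      calc I ^ k * L ≤ I ^ k * (J ⊔ I * L) := Ideal.mul_mono_right h
        _ = I ^ k * J ⊔ I ^ k * (I * L) := Ideal.mul_sup _ _ _
        _ ≤ J ⊔ I ^ (k + 1) * L := by
            refine sup_le_sup Ideal.mul_le_right ?_
            rw [← mul_assoc, ← pow_succ]
  have h2 := h1 N
  rw [hN, Ideal.bot_mul, sup_bot_eq] at h2
  exact h2

end key

section main
variable {l n : ℕ}

lemma xx_sum_sub_mem {α : Type} [Fintype α] [DecidableEq α] (K : Ideal (Lam (Fin l × E n)))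
    (z : α → U l n) (hz : ∀ a, xx (z a) ∈ K) :
    ∑ a, xx (z a) - xx (∑ a, z a) ∈ II (Fin l × E n) * K := by
  classical
  have h1 : xx (∑ a, z a) = ∑ a, xx (z a) +
      ∑ R ∈ (Finset.univ : Finset (Finset α)).filter (fun R => 2 ≤ R.card), ∏ a ∈ R, xx (z a) := by
    rw [xx_sum, Finset.powerset_univ]
    have h2 : (Finset.univ : Finset (Finset α)).erase ∅ =
        (Finset.univ.image fun a : α => ({a} : Finset α)) ∪
          Finset.univ.filter (fun R : Finset α => 2 ≤ R.card) := by
      ext R
      simp only [Finset.mem_erase, Finset.mem_univ, and_true, Finset.mem_union, Finset.mem_image,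
        true_and, Finset.mem_filter]
      constructor
      · intro h
        have := Finset.card_pos.2 (Finset.nonempty_iff_ne_empty.2 h)
        rcases Nat.lt_or_ge R.card 2 with h3 | h3
        · obtain ⟨a, ha⟩ := Finset.card_eq_one.1 (by omega : R.card = 1)
          exact Or.inl ⟨a, ha.symm⟩
        · exact Or.inr h3
      · rintro (⟨a, rfl⟩ | h)
        · exact Finset.singleton_ne_empty a
        · rintro rfl; simp at h
    rw [h2, Finset.sum_union, Finset.sum_image]
    · simp
    · intro a _ b _ hab; exact Finset.singleton_injective hab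
    · rw [Finset.disjoint_left]
      intro R hR hR'
      obtain ⟨a, -, rfl⟩ := Finset.mem_image.1 hR
      simp at hR'
  rw [h1, sub_add_cancel_left]
  refine neg_mem (sum_mem fun R hR => ?_)
  rw [Finset.mem_filter] at hR
  obtain ⟨a, ha, b, hb, hab⟩ := Finset.one_lt_card.1 (show 1 < R.card from hR.2)
  rw [← Finset.mul_prod_erase _ _ ha,
    ← Finset.mul_prod_erase _ _ (Finset.mem_erase.2 ⟨hab.symm, hb⟩)]
  exact Ideal.mul_mem_mul (Ideal.subset_span ⟨_, rfl⟩) (Ideal.mul_mem_right _ _ (hz b))

open scoped Pointwise in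
/-- (7.1), index type `Fin l₀ × E n₀`. -/
theorem seven_one' (J : TIdeal) {l₀ n₀ : ℕ} (h0 : J.J l₀ n₀ ≠ ⊥) (v : Fin l₀ × E n₀ → E n)
    (hv : LinearIndependent (ZMod 3) v) (u : Fin l₀ × E n₀ → U l n) (hu : ∀ j, Hmg (v j) (u j)) :
    ∏ j, xx (u j) ∈ J.J l n := by
  classical
  obtain ⟨d, hd⟩ := exists_dual v hv
  set K : Fin l₀ × E n₀ → Ideal (Lam (Fin l × E n)) := fun j =>
    Ideal.span {g | ∃ c : U l n, Hmg (v j) c ∧ g = xx c} with hK
  have hKm : ∀ j c, Hmg (v j) c → xx c ∈ K j := fun j c hc => Ideal.subset_span ⟨c, hc, rfl⟩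
  have hmain : ∀ c : Fin l₀ × E n₀ → U l n, (∀ j, Hmg (v j) (c j)) →
      ∏ j, xx (c j) ∈ J.J l n ⊔ II (Fin l × E n) * ∏ j, K j := by
    intro c hc
    set y : Fin l₀ × E n₀ → E n₀ → Fin l₀ × E n₀ → Lam (Fin l × E n) := fun j x p =>
      xx (uact (dot x (p.2 - j.2) • d j) (c j)) with hy
    have hyK : ∀ j x p, y j x p ∈ K j := fun j x p => hKm j _ (Hmg_uact (hc j) _)
    have hdj : ∀ j, dot (v j) (d j) = 1 := fun j => by rw [hd, if_pos rfl]
    have hsum : ∀ j p, ∑ x, y j x p - xx (if p.2 - j.2 = 0 then c j else 0) ∈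
        II (Fin l × E n) * K j := by
      intro j p
      have h1 := xx_sum_sub_mem (K j) (fun x : E n₀ => uact (dot x (p.2 - j.2) • d j) (c j))
        (fun x => hyK j x p)
      rw [sum_shift (hc j) (hdj j)] at h1
      exact h1
    have hk := key (Λ := Lam (Fin l × E n)) (X := E n₀) lam_add_self
      (fun p : Fin l₀ × E n₀ => Finset.univ.filter (fun j : Fin l₀ × E n₀ => j.1 = p.1))
      (fun p => by simp) (II (Fin l × E n)) K y hyK
      (fun j x p => Ideal.subset_span ⟨_, rfl⟩) (fun p => xx (c p)) (fun p => hKm p _ (hc p))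
      (fun j p hj hjp => by
        have h1 := hsum j p
        rw [if_neg, xx_zero, sub_zero] at h1
        · exact h1
        · intro h2
          apply hjp
          rw [Finset.mem_filter] at hj
          exact Prod.ext hj.2 (sub_eq_zero.1 h2).symm)
      (fun p => by
        have h1 := hsum p p
        rw [if_pos (sub_self _)] at h1
        exact h1)
    have hJ : ∑ s : Fin l₀ × E n₀ → E n₀, ∑ S : Finset (Fin l₀ × E n₀), ∏ p : Fin l₀ × E n₀,
        ∑ R ∈ (S ∩ Finset.univ.filter (fun j : Fin l₀ × E n₀ => j.1 = p.1)).powerset.erase ∅,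
          ∏ j ∈ R, y j (s j) p ∈ J.J l n := by
      refine sum_mem fun s _ => sum_mem fun S _ => ?_
      have ht : ∀ i : Fin l₀, ∃ t : T l n, bar t =
          ∑ j ∈ S ∩ Finset.univ.filter (fun j : Fin l₀ × E n₀ => j.1 = i),
            uact (-(dot (s j) j.2) • d j) (c j) := fun i => bar_surjective _
      choose t ht using ht
      set ρ : E n₀ →+ E n :=
        { toFun := fun e => ∑ k, dot (s k) e • d k
          map_zero' := by simp [dot]
          map_add' := fun a b => by simp [dot, dotProduct_add, add_smul, Finset.sum_add_distrib] }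
        with hρ
      have h1 := J.thom_mem l₀ n₀ l n ρ t _ (norm_mem (J.J l₀ n₀) h0)
      rw [map_prod] at h1
      convert h1 using 2 with p _
      rw [lbar_xx, ubar_thom_single, ht, uact_sum, ← xx_sum]
      congr 1
      refine Finset.sum_congr rfl fun j _ => ?_
      rw [uact_uact]
      refine uact_congr (hc j) ?_
      have h2 : dot (v j) (ρ p.2) = dot (s j) p.2 := by
        have : ρ p.2 = ∑ k, dot (s k) p.2 • d k := rfl
        rw [this]
        have h3 : dot (v j) (∑ k, dot (s k) p.2 • d k) = ∑ k, dot (v j) (dot (s k) p.2 • d k) := by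
          simp only [dot]
          rw [dotProduct_sum]
        rw [h3, Finset.sum_eq_single j]
        · rw [dot_smul, hdj, mul_one]
        · intro k _ hk
          rw [dot_smul, hd, if_neg (Ne.symm hk), mul_zero]
        · simp
      rw [dot_add, h2, dot_smul, dot_smul, hdj, mul_one, mul_one, dot_sub, sub_eq_add_neg]
    have e : ∏ p, xx (c p) = (∑ s : Fin l₀ × E n₀ → E n₀, ∑ S : Finset (Fin l₀ × E n₀),
        ∏ p : Fin l₀ × E n₀,
        ∑ R ∈ (S ∩ Finset.univ.filter (fun j : Fin l₀ × E n₀ => j.1 = p.1)).powerset.erase ∅,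
          ∏ j ∈ R, y j (s j) p) - ((∑ s : Fin l₀ × E n₀ → E n₀, ∑ S : Finset (Fin l₀ × E n₀),
        ∏ p : Fin l₀ × E n₀,
        ∑ R ∈ (S ∩ Finset.univ.filter (fun j : Fin l₀ × E n₀ => j.1 = p.1)).powerset.erase ∅,
          ∏ j ∈ R, y j (s j) p) - ∏ p, xx (c p)) := by ring
    rw [e]
    exact sub_mem (Ideal.mem_sup_left hJ) (Ideal.mem_sup_right hk)
  obtain ⟨N, hN⟩ := II_nilp (ι := Fin l × E n)
  have hle : ∏ j, K j ≤ J.J l n := by
    refine nak _ _ _ ?_ hN
    have h1 : ∏ j, K j = Ideal.span (∏ j ∈ (Finset.univ : Finset (Fin l₀ × E n₀)),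
        {g | ∃ c : U l n, Hmg (v j) c ∧ g = xx c}) := Ideal.prod_span _ _
    conv_lhs => rw [h1]
    rw [Ideal.span_le]
    intro g hg
    rw [Set.mem_finset_prod] at hg
    obtain ⟨a, ha, rfl⟩ := hg
    have ha' : ∀ j, ∃ c : U l n, Hmg (v j) c ∧ a j = xx c := fun j => ha (Finset.mem_univ j)
    choose c hc hac using ha'
    rw [Finset.prod_congr rfl fun j _ => hac j]
    exact hmain c hc
  exact hle (Ideal.prod_mem_prod fun j _ => hKm j _ (hu j))

end main

end S7

/-- (7.1) -/
theorem large_rank (J : TIdeal) {l₀ n₀ : ℕ} (h : J.J l₀ n₀ ≠ ⊥) {l n : ℕ}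
    (v : Fin (l₀ * 3 ^ n₀) → E n) (hv : LinearIndependent (ZMod 3) v)
    (u : Fin (l₀ * 3 ^ n₀) → U l n) (hu : ∀ j, Hmg (v j) (u j)) :
    ∏ j, xx (u j) ∈ J.J l n := by
  have hcard : Fintype.card (Fin l₀ × E n₀) = Fintype.card (Fin (l₀ * 3 ^ n₀)) := by
    simp [ZMod.card]
  let e : Fin l₀ × E n₀ ≃ Fin (l₀ * 3 ^ n₀) := Fintype.equivOfCardEq hcard
  have h1 := S7.seven_one' J h (fun p => v (e p)) (hv.comp e e.injective) (fun p => u (e p))
    (fun p => hu (e p))
  rw [← e.prod_comp]
  exact h1

end Pool.Agent.OH
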