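import Pool.Agent.OH.I1

set_option autoImplicit false

namespace Pool.Agent.OH

/-- (7.1), in the form used in section 8. -/
theorem large_rank' (J : TIdeal) (h : ∃ l n, J.J l n ≠ ⊥) :
    ∃ r : ℕ, 1 ≤ r ∧ ∀ (l n m : ℕ) (v : Fin m → E n) (u : Fin m → U l n),
      (∀ j, Hmg (v j) (u j)) →
      r ≤ Module.finrank (ZMod 3) (Submodule.span (ZMod 3) (Set.range v)) →
      ∏ j, xx (u j) ∈ J.J l n := by
  classical
  obtain ⟨l₀, n₀, h0⟩ := h
  refine ⟨l₀ * 3 ^ n₀ + 1, by omega, ?_⟩
  intro l n m v u hu hr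
  obtain ⟨κ, a, hainj, haspan, haind⟩ := exists_linearIndependent' (ZMod 3) v
  have hfin : Finite κ := Finite.of_injective a hainj
  have : Fintype κ := Fintype.ofFinite κ
  have hcard : l₀ * 3 ^ n₀ ≤ Fintype.card κ := by
    have h1 : Module.finrank (ZMod 3) (Submodule.span (ZMod 3) (Set.range (v ∘ a))) =
        Fintype.card κ := finrank_span_eq_card haind
    rw [haspan] at h1
    omega
  have hc : Fintype.card (Fin (l₀ * 3 ^ n₀)) ≤ Fintype.card κ := by simpa using hcard
  obtain ⟨b⟩ := Function.Embedding.nonempty_of_card_le hc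
  have h2 := large_rank J h0 (fun j => v (a (b j))) (haind.comp b b.injective)
    (fun j => u (a (b j))) (fun j => hu _)
  have h3 : ∏ j, xx (u (a (b j))) =
      ∏ j ∈ Finset.univ.image (fun j => a (b j)), xx (u j) := by
    rw [Finset.prod_image]
    intro x _ y _ hxy
    exact b.injective (hainj hxy)
  rw [h3] at h2
  rw [← Finset.prod_sdiff (Finset.subset_univ (Finset.univ.image (fun j => a (b j))))]
  exact Ideal.mul_mem_left _ _ h2

end Pool.Agent.OH
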