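import Pool.Agent.OH.F1

set_option autoImplicit false
set_option linter.unusedSectionVars false

namespace Pool.Agent.OH

namespace J2

section gen
variable {ι κ : Type} [Fintype ι] [DecidableEq ι] [Fintype κ] [DecidableEq κ]

lemma lbar_congr (φ ψ : FreeGroup ι →* FreeGroup κ)
    (h : ∀ a, bar (φ (FreeGroup.of a)) = bar (ψ (FreeGroup.of a))) : lbar φ = lbar ψ := by
  have h1 : ubar φ = ubar ψ := by
    refine AddMonoidHom.ext fun u => ?_
    change ∑ a, u a • bar (φ (FreeGroup.of a)) = ∑ a, u a • bar (ψ (FreeGroup.of a))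
    exact Finset.sum_congr rfl fun a _ => by rw [h a]
  rw [lbar, lbar, h1]

lemma lbar_xx (φ : FreeGroup ι →* FreeGroup κ) (u : ι → ZMod 2) :
    lbar φ (xx u) = xx (ubar φ u) := by
  rw [xx, map_add, map_one, lbar_br, xx]

lemma xx_mul_self (u : ι → ZMod 2) : xx u * xx u = 0 := by
  have : xx u * xx u = (1 + br u * br u) + (br u + br u) := by rw [xx]; ring
  rw [this, br_mul_self, lam_add_self, lam_add_self, add_zero]

lemma coeff_br_mul (v : ι → ZMod 2) (F : Lam ι) (x : ι → ZMod 2) :
    (br v * F).coeff x = F.coeff (x - v) := by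
  unfold br
  rw [AddMonoidAlgebra.coeff_single_mul_apply, one_mul, neg_add_eq_sub]

lemma lbar_single (φ : FreeGroup ι →* FreeGroup κ) (m : ι → ZMod 2) (r : ZMod 2) :
    lbar φ (AddMonoidAlgebra.single m r) = AddMonoidAlgebra.single (ubar φ m) r := by
  simp [lbar]

lemma coeff_lbar_out (φ : FreeGroup ι →* FreeGroup κ) (F : Lam ι) (x : κ → ZMod 2)
    (hx : ∀ u, ubar φ u ≠ x) : (lbar φ F).coeff x = 0 := by
  induction F using AddMonoidAlgebra.induction_linear with
  | zero => simp
  | add a b ha hb => rw [map_add]; simp [ha, hb]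
  | single m r =>
    rw [lbar_single]
    simp [AddMonoidAlgebra.coeff_single, hx m]

lemma coeff_lbar_in (φ : FreeGroup ι →* FreeGroup κ) (hφ : Function.Injective (ubar φ))
    (F : Lam ι) (u : ι → ZMod 2) : (lbar φ F).coeff (ubar φ u) = F.coeff u := by
  induction F using AddMonoidAlgebra.induction_linear with
  | zero => simp
  | add a b ha hb => rw [map_add]; simp [ha, hb]
  | single m r =>
    rw [lbar_single]
    simp [AddMonoidAlgebra.coeff_single, Finsupp.single_apply, hφ.eq_iff]

end gen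

variable {l n : ℕ}

/-- `dM(l,n)` as a `Λ`-submodule. -/
noncomputable def dM (M : TIF) (h2 : M ≤ T2) (l n : ℕ) :
    Submodule (Lam (Fin l × E n)) (Fin l × E n → Lam (Fin l × E n)) where
  carrier := {p | ∃ w ∈ M.S l n, dd w = p}
  zero_mem' := ⟨1, one_mem _, dd_one⟩
  add_mem' := by
    rintro a b ⟨v, hv, rfl⟩ ⟨w, hw, rfl⟩
    refine ⟨v * w, mul_mem hv hw, ?_⟩
    funext i
    rw [dd_mul, (h2 l n hv : bar v = 0), br_zero, one_mul]; rfl
  smul_mem' := by
    rintro f p ⟨w, hw, rfl⟩
    let A : AddSubgroup (Fin l × E n → Lam (Fin l × E n)) :=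
      { carrier := {p | ∃ w ∈ M.S l n, dd w = p}
        zero_mem' := ⟨1, one_mem _, dd_one⟩
        add_mem' := by
          rintro a b ⟨v, hv, rfl⟩ ⟨w, hw, rfl⟩
          refine ⟨v * w, mul_mem hv hw, ?_⟩
          funext i
          rw [dd_mul, (h2 l n hv : bar v = 0), br_zero, one_mul]; rfl
        neg_mem' := by
          rintro a ⟨v, hv, rfl⟩
          refine ⟨v, hv, ?_⟩
          funext i; exact (lam_neg _).symm }
    have key : f • dd w ∈ A := by
      induction f using AddMonoidAlgebra.induction_linear with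
      | zero => rw [zero_smul]; exact A.zero_mem
      | add x y hx hy => rw [add_smul]; exact A.add_mem hx hy
      | single m r =>
        have h2' : r = 0 ∨ r = 1 := by revert r; decide
        rcases h2' with rfl | rfl
        · rw [AddMonoidAlgebra.single_zero, zero_smul]; exact A.zero_mem
        · obtain ⟨t, rfl⟩ := bar_surjective m
          refine ⟨t * w * t⁻¹, M.normal l n w hw t, ?_⟩
          rw [dd_conj t w (h2 l n hw)]; rfl
    exact key

lemma mem_dM (M : TIF) (h2 : M ≤ T2) (p : Fin l × E n → Lam (Fin l × E n)) :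
    p ∈ dM M h2 l n ↔ ∃ w ∈ M.S l n, dd w = p := Iff.rfl

/-- The T-ideal of a TIF in layer 2. -/
noncomputable def JJ (M : TIF) (h2 : M ≤ T2) : TIdeal where
  J l n :=
    { carrier := {g | ∀ (l' n' : ℕ) (ρ : E n →+ E n') (t : Fin l → T l' n'),
        ∀ r ∈ RR (Fin l' × E n'), (lbar (thom ρ t) g) • r ∈ dM M h2 l' n'}
      zero_mem' := by
        intro l' n' ρ t r _
        rw [map_zero, zero_smul]; exact zero_mem _
      add_mem' := by
        intro a b ha hb l' n' ρ t r hr
        rw [map_add, add_smul]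
        exact add_mem (ha l' n' ρ t r hr) (hb l' n' ρ t r hr)
      smul_mem' := by
        intro c a ha l' n' ρ t r hr
        rw [smul_eq_mul, map_mul, mul_smul]
        exact Submodule.smul_mem _ _ (ha l' n' ρ t r hr) }
  thom_mem := by
    intro l n l' n' ρ t g hg l'' n'' ρ' t' r hr
    have h1 := hg l'' n'' (ρ'.comp ρ) (fun i => thom ρ' t' (t i)) r hr
    have h3 : (thom (ρ'.comp ρ) (fun i => thom ρ' t' (t i)) : T l n →* T l'' n'') =
        (thom ρ' t').comp (thom ρ t) := by
      ext1 p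
      exact (thom_comp ρ t ρ' t' _).symm
    rw [h3, lbar_comp] at h1
    exact h1

lemma mem_JJ (M : TIF) (h2 : M ≤ T2) (g : Lam (Fin l × E n)) : g ∈ (JJ M h2).J l n ↔
    ∀ (l' n' : ℕ) (ρ : E n →+ E n') (t : Fin l → T l' n'),
        ∀ r ∈ RR (Fin l' × E n'), (lbar (thom ρ t) g) • r ∈ dM M h2 l' n' := Iff.rfl

lemma JJ_prop (M : TIF) (h2 : M ≤ T2) (g : Lam (Fin l × E n)) (hg : g ∈ (JJ M h2).J l n)
    (r : Fin l × E n → Lam (Fin l × E n)) (hr : r ∈ RR (Fin l × E n)) :
    g • r ∈ dM M h2 l n := by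
  have h1 := hg l n (AddMonoidHom.id (E n)) (fun i => yy i 0) r hr
  have h3 : (thom (AddMonoidHom.id (E n)) (fun i => yy i 0) : T l n →* T l n) =
      act (0 : E n) := by
    ext1 p
    rw [thom_of, act_zero]
    simp [yy]
  have h4 : ∀ g : Lam (Fin l × E n), lbar (act (0 : E n)) g = g := by
    have h5 : (act (0 : E n) : T l n →* T l n) = MonoidHom.id _ := by ext1 p; simp
    have h6 : ∀ u, ubar (act (0 : E n) : T l n →* T l n) u = u := by
      intro u
      obtain ⟨w, rfl⟩ := bar_surjective u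
      rw [← bar_map, act_zero]
    intro g
    induction g using AddMonoidAlgebra.induction_linear with
    | zero => simp
    | add a b ha hb => rw [map_add, ha, hb]
    | single m r => rw [lbar_single, h6]
  rw [h3, h4] at h1
  exact h1

lemma uact_bar (e : E n) (w : T l n) : uact e (bar w) = bar (act e w) := (bar_map _ _).symm

/-- The key computation: `lbar θ(g) • r ∈ dM`. -/
lemma main_comp (M : TIF) (h2 : M ≤ T2) (m : T l n) (hm : m ∈ M.S l n) (i : Fin l) (e₀ : E n)
    {l' n' : ℕ} (ρ : E n →+ E n') (t : Fin l → T l' n') (s : T l' n')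
    (wr : T l' n') (hwr : bar wr = 0) :
    (lbar (thom ρ t) (dd m (i, e₀)) * br (uact (ρ e₀) (bar (t i))) *
      ∏ e : E n, xx (uact (ρ e) (bar s))) • dd wr ∈ dM M h2 l' n' := by
  classical
  set w'' : T l' n' := act (-(ρ e₀)) wr with hw''
  have hw''0 : bar w'' = 0 := by
    rw [hw'', ← uact_bar, hwr]
    exact map_zero (ubar (act _))
  obtain ⟨ν, hν, hν'⟩ : (xx (bar s)) • dd w'' ∈ RR (Fin l' × E n') :=
    Submodule.smul_mem _ _ ⟨w'', hw''0, rfl⟩
  set t' : Fin l → T l' n' := Function.update t i (t i * ν) with ht'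
  have hbar : ∀ a : Fin l × E n, bar (thom ρ t' (FreeGroup.of a)) =
      bar (thom ρ t (FreeGroup.of a)) := by
    intro a
    rw [thom_of, thom_of, ← uact_bar, ← uact_bar]
    congr 1
    by_cases ha : a.1 = i
    · rw [ht', ha, Function.update_self, bar_mul, hν, add_zero]
    · rw [ht', Function.update_of_ne ha]
  have hlb : lbar (thom ρ t') = lbar (thom ρ t) := lbar_congr _ _ hbar
  have hub : ∀ w, bar (thom ρ t' w) = bar (thom ρ t w) := by
    intro w
    rw [bar_map, bar_map]
    change ∑ a, bar w a • bar (thom ρ t' (FreeGroup.of a)) =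
      ∑ a, bar w a • bar (thom ρ t (FreeGroup.of a))
    exact Finset.sum_congr rfl fun a _ => by rw [hbar a]
  have hmem : thom ρ t' m * (thom ρ t m)⁻¹ ∈ M.S l' n' :=
    mul_mem (M.thom_mem _ _ _ _ _ _ _ hm) (inv_mem (M.thom_mem _ _ _ _ _ _ _ hm))
  have hb0 : bar (thom ρ t m) = 0 := h2 l' n' (M.thom_mem _ _ _ _ _ _ _ hm)
  have hdd : dd (thom ρ t' m * (thom ρ t m)⁻¹) = fun k => ∑ e : E n,
      lbar (thom ρ t) (dd m (i, e)) * (br (uact (ρ e) (bar (t i))) *
        (xx (uact (ρ e) (bar s)) * dd (act (ρ e) w'') k)) := by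
    funext k
    rw [dd_mul, dd_inv, hub, hb0, br_zero, one_mul, one_mul, dd_map, dd_map]
    change ∑ a, lbar (thom ρ t') (dd m a) * dd (thom ρ t' (FreeGroup.of a)) k +
      ∑ a, lbar (thom ρ t) (dd m a) * dd (thom ρ t (FreeGroup.of a)) k = _
    rw [hlb, ← Finset.sum_add_distrib]
    have h1 : ∀ a : Fin l × E n, lbar (thom ρ t) (dd m a) * dd (thom ρ t' (FreeGroup.of a)) k +
        lbar (thom ρ t) (dd m a) * dd (thom ρ t (FreeGroup.of a)) k =
        if a.1 = i then lbar (thom ρ t) (dd m a) * (br (uact (ρ a.2) (bar (t i))) *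
          (xx (uact (ρ a.2) (bar s)) * dd (act (ρ a.2) w'') k)) else 0 := by
      intro a
      rw [thom_of, thom_of]
      split_ifs with ha
      · rw [ht', ha, Function.update_self, map_mul, dd_mul, mul_add, ← uact_bar]
        have h3 : dd (act (ρ a.2) ν) k =
            xx (uact (ρ a.2) (bar s)) * dd (act (ρ a.2) w'') k := by
          rw [dd_map (act (ρ a.2)) ν, hν', dd_map (act (ρ a.2)) w'']
          have := pstar_mul (act (ρ a.2)) (xx (bar s)) (dd w'') k
          rw [lbar_xx] at this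
          exact this
        rw [h3]
        have h4 := lam_add_self (lbar (thom ρ t) (dd m a) * dd (act (ρ a.2) (t i)) k)
        linear_combination h4
      · rw [ht', Function.update_of_ne ha, lam_add_self]
    rw [Finset.sum_congr rfl fun a _ => h1 a, Fintype.sum_prod_type]
    rw [Finset.sum_eq_single i]
    · exact Finset.sum_congr rfl fun e _ => by rw [if_pos rfl]
    · intro j _ hj
      exact Finset.sum_eq_zero fun e _ => by rw [if_neg hj]
    · simp
  have hD : (∏ e ∈ Finset.univ.erase e₀, xx (uact (ρ e) (bar s))) •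
      dd (thom ρ t' m * (thom ρ t m)⁻¹) ∈ dM M h2 l' n' :=
    Submodule.smul_mem _ _ ⟨_, hmem, rfl⟩
  convert hD using 1
  rw [hdd]
  funext k
  simp only [Pi.smul_apply, smul_eq_mul]
  rw [Finset.mul_sum, Finset.sum_eq_single e₀]
  · rw [← Finset.mul_prod_erase Finset.univ _ (Finset.mem_univ e₀)]
    have h5 : act (ρ e₀) w'' = wr := by rw [hw'', act_act, add_neg_cancel, act_zero]
    rw [h5]; ring
  · intro e _ he
    rw [← Finset.mul_prod_erase (Finset.univ.erase e₀) _
      (Finset.mem_erase.2 ⟨he, Finset.mem_univ e⟩)]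
    have h6 := xx_mul_self (uact (ρ e) (bar s))
    linear_combination (∏ x ∈ (Finset.univ.erase e₀).erase e, xx (uact (ρ x) (bar s))) *
      lbar (thom ρ t) (dd m (i, e)) * br (uact (ρ e) (bar (t i))) * dd (act (ρ e) w'') k * h6
  · simp

/-- Inclusion `T(l,n) → T(l+1,n)`. -/
noncomputable def inc (l n : ℕ) : T l n →* T (l + 1) n :=
  thom (AddMonoidHom.id (E n)) fun i => yy i.castSucc 0

lemma inc_of (p : Fin l × E n) : inc l n (FreeGroup.of p) = yy p.1.castSucc p.2 := by
  rw [inc, thom_of]; simp [yy]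

lemma ubar_inc (u : U l n) (p : Fin l × E n) : ubar (inc l n) u (p.1.castSucc, p.2) = u p := by
  change (∑ a, u a • bar (inc l n (FreeGroup.of a))) _ = _
  rw [Finset.sum_apply, Finset.sum_eq_single p]
  · simp [inc_of, yy]
  · intro a _ ha
    rw [inc_of, yy, bar_of, Pi.smul_apply, Pi.single_apply, if_neg, smul_zero]
    intro h
    apply ha
    simp only [Prod.mk.injEq, Fin.castSucc_inj] at h
    exact Prod.ext h.1.symm h.2.symm
  · simp

lemma ubar_inc_last (u : U l n) (e : E n) : ubar (inc l n) u (Fin.last l, e) = 0 := by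
  change (∑ a, u a • bar (inc l n (FreeGroup.of a))) _ = _
  rw [Finset.sum_apply]
  refine Finset.sum_eq_zero fun a _ => ?_
  rw [inc_of, yy, bar_of, Pi.smul_apply, Pi.single_apply, if_neg, smul_zero]
  intro h
  simp only [Prod.mk.injEq] at h
  exact (Fin.castSucc_lt_last a.1).ne h.1.symm

lemma ubar_inc_inj : Function.Injective (ubar (inc l n)) := by
  intro u v h
  funext p
  rw [← ubar_inc u p, h, ubar_inc]

lemma prod_xx_eq {ι α : Type} [Fintype ι] [DecidableEq ι] [DecidableEq α] (s : Finset α)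
    (z : α → (ι → ZMod 2)) :
    ∏ a ∈ s, xx (z a) = ∑ R ∈ s.powerset, br (∑ a ∈ R, z a) := by
  have h : ∀ R : Finset α, br (∑ a ∈ R, z a) = ∏ a ∈ R, br (z a) := by
    intro R
    induction R using Finset.induction_on with
    | empty => simp [br_zero]
    | insert a R ha ih => rw [Finset.sum_insert ha, Finset.prod_insert ha, br_add, ih]
  rw [Finset.sum_congr rfl fun R _ => h R, ← Finset.prod_one_add]
  rfl

lemma nonzero (f : Lam (Fin l × E n)) (hf : f ≠ 0) (v : U (l + 1) n) :
    lbar (inc l n) f * br v * ∏ e : E n, xx (Pi.single (Fin.last l, e) 1) ≠ 0 := by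
  classical
  obtain ⟨u₀, hu₀⟩ : ∃ u, f.coeff u ≠ 0 := by
    by_contra hcon
    push Not at hcon
    exact hf (by ext u; simpa using hcon u)
  intro h0
  have h1 : (lbar (inc l n) f * br v * ∏ e : E n, xx (Pi.single (Fin.last l, e) 1)).coeff
      (ubar (inc l n) u₀ + v) = f.coeff u₀ := by
    rw [prod_xx_eq, Finset.mul_sum]
    have h2 : ∀ R : Finset (E n), lbar (inc l n) f * br v *
        br (∑ a ∈ R, Pi.single (Fin.last l, a) 1) =
        br (v + ∑ a ∈ R, Pi.single (Fin.last l, a) 1) * lbar (inc l n) f := by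
      intro R; rw [br_add]; ring
    rw [Finset.sum_congr rfl fun R _ => h2 R]
    have h3 : ∀ (s : Finset (Finset (E n))) (F : Finset (E n) → Lam (Fin (l + 1) × E n))
        (x : U (l + 1) n), (∑ R ∈ s, F R).coeff x = ∑ R ∈ s, (F R).coeff x := by
      intro s F x
      induction s using Finset.induction_on with
      | empty => simp
      | insert a s ha ih => rw [Finset.sum_insert ha, Finset.sum_insert ha, ← ih]; simp
    rw [h3, Finset.sum_eq_single_of_mem ∅ (Finset.empty_mem_powerset _)]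
    · rw [coeff_br_mul, Finset.sum_empty, add_zero, add_sub_cancel_right]
      exact coeff_lbar_in _ ubar_inc_inj _ _
    · intro R _ hR
      rw [coeff_br_mul]
      apply coeff_lbar_out
      intro u hu
      obtain ⟨e, he⟩ := Finset.nonempty_iff_ne_empty.2 hR
      have h4 := congrFun hu (Fin.last l, e)
      rw [ubar_inc_last] at h4
      simp only [Pi.sub_apply, Pi.add_apply, ubar_inc_last, Finset.sum_apply] at h4
      have h5 : ∑ c ∈ R, (Pi.single (Fin.last l, c) (1 : ZMod 2) : U (l + 1) n) (Fin.last l, e) =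
          1 := by
        rw [Finset.sum_eq_single_of_mem e he]
        · simp
        · intro c _ hc
          rw [Pi.single_apply, if_neg]
          intro h
          exact hc (Prod.ext_iff.1 h).2.symm
      rw [h5] at h4
      generalize v (Fin.last l, e) = a at h4
      revert h4; revert a; decide
  rw [h0] at h1
  exact hu₀ (by simpa using h1.symm)

end J2

/-- (8.2), the T-ideal of a TIF in layer 2. -/
theorem J2_exists (M : TIF) (h3 : T3 ≤ M) (h2 : M ≤ T2) (hne : M ≠ T3) :
    ∃ J : TIdeal, (∃ l n, J.J l n ≠ ⊥) ∧ ∀ l n, ∀ g ∈ J.J l n, ∀ r ∈ RR (Fin l × E n),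
      ∃ w ∈ M.S l n, dd w = fun i => g * r i := by
  classical
  refine ⟨J2.JJ M h2, ?_, fun l n g hg r hr => J2.JJ_prop M h2 g hg r hr⟩
  have h4 : ∃ l n, ∃ m ∈ M.S l n, m ∉ T3.S l n := by
    by_contra hcon
    push Not at hcon
    exact hne (le_antisymm (fun l n m hm => hcon l n m hm) h3)
  obtain ⟨l, n, m, hm, hm3⟩ := h4
  have hb : bar m = 0 := h2 l n hm
  have hd : dd m ≠ 0 := fun h => hm3 ⟨hb, h⟩
  obtain ⟨⟨i, e₀⟩, hi⟩ : ∃ p, dd m p ≠ 0 := by
    by_contra hcon
    push Not at hcon
    exact hd (funext hcon)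
  refine ⟨l + 1, n, ?_⟩
  intro hbot
  set g : Lam (Fin (l + 1) × E n) := lbar (J2.inc l n) (dd m (i, e₀)) *
    br (Pi.single (i.castSucc, e₀) 1) * ∏ e : E n, xx (Pi.single (Fin.last l, e) 1) with hg
  have hg0 : g ≠ 0 := J2.nonzero _ hi _
  apply hg0
  have hgJ : g ∈ (J2.JJ M h2).J (l + 1) n := by
    intro l' n' ρ t r hr
    obtain ⟨wr, hwr, rfl⟩ := hr
    have h5 := J2.main_comp M h2 m hm i e₀ ρ (fun j => t j.castSucc) (t (Fin.last l)) wr hwr
    convert h5 using 2
    rw [hg, map_mul, map_mul, map_prod, lbar_br]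
    have h6 : ∀ (j : Fin (l + 1)) (e : E n), ubar (thom ρ t) (Pi.single (j, e) 1) =
        uact (ρ e) (bar (t j)) := by
      intro j e
      rw [ubar_single, thom_of, J2.uact_bar]
    rw [h6, ← lbar_comp]
    congr 1
    · congr 1
      have h7 : (thom ρ t).comp (J2.inc l n) = thom ρ (fun j => t j.castSucc) := by
        ext1 p
        rw [MonoidHom.comp_apply, J2.inc_of, yy, thom_of, thom_of]
      rw [h7]
    · exact Finset.prod_congr rfl fun e _ => by rw [J2.lbar_xx, h6]
  rw [hbot] at hgJ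
  simpa using hgJ

end Pool.Agent.OH
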