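import Pool.Agent.OH.C1

set_option autoImplicit false
set_option linter.unusedSectionVars false

namespace Pool.Agent.OH

namespace J3aux

variable {l n l' n' : ℕ}

/-- The matrices. -/
abbrev Mat (l n : ℕ) : Type := Fin l × E n → Fin l × E n → Lam (Fin l × E n)

/-- the symmetrised tensor. -/
noncomputable def sm (r r' : Fin l × E n → Lam (Fin l × E n)) : Mat l n :=
  fun i j => r i * r' j + r' i * r j

/-- `Mt = B(M) + C`. -/
noncomputable def Mt (M : TIF) (h3 : M ≤ T3) (l n : ℕ) : AddSubgroup (Mat l n) where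
  carrier := {m | ∃ w ∈ M.S l n, ∃ c ∈ CC l n, m = BB w + c}
  zero_mem' := ⟨1, one_mem _, 0, zero_mem _, by simp⟩
  add_mem' := by
    rintro a b ⟨v, hv, c, hc, rfl⟩ ⟨w, hw, d, hd, rfl⟩
    refine ⟨v * w, mul_mem hv hw, c + d, add_mem hc hd, ?_⟩
    have h : BB (v * w) = BB v + BB w := by
      funext i j
      rw [BB_mul, (h3 l n hv).2]; simp
    rw [h]; abel
  neg_mem' := by
    rintro a ⟨v, hv, c, hc, rfl⟩
    refine ⟨v, hv, c, hc, ?_⟩
    funext i j
    exact lam_neg _

lemma mem_Mt (M : TIF) (h3 : M ≤ T3) (m : Mat l n) :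
    m ∈ Mt M h3 l n ↔ ∃ w ∈ M.S l n, ∃ c ∈ CC l n, m = BB w + c := Iff.rfl

lemma Mt_thom (M : TIF) (h3 : M ≤ T3) (ρ : E n →+ E n') (t : Fin l → T l' n') (m : Mat l n)
    (hm : m ∈ Mt M h3 l n) : ppstar (thom ρ t) m ∈ Mt M h3 l' n' := by
  obtain ⟨w, hw, c, hc, rfl⟩ := hm
  refine ⟨thom ρ t w, M.thom_mem l n l' n' ρ t w hw, ppstar (thom ρ t) c, CC_thom ρ t c hc, ?_⟩
  rw [map_add, BB_map _ _ (h3 l n hw).1]

lemma Mt_CC (M : TIF) (h3 : M ≤ T3) (m : Mat l n) (hm : m ∈ CC l n) : m ∈ Mt M h3 l n :=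
  ⟨1, one_mem _, m, hm, by simp⟩

lemma Mt_BB (M : TIF) (h3 : M ≤ T3) (w : T l n) (hw : w ∈ M.S l n) : BB w ∈ Mt M h3 l n :=
  ⟨w, hw, 0, zero_mem _, by simp⟩

lemma ppstar_sm {ρ : T l n →* T l' n'} (g : Lam (Fin l × E n))
    (r r' : Fin l × E n → Lam (Fin l × E n)) :
    ppstar ρ (fun i j => g * sm r r' i j) =
      fun i j => lbar ρ g * sm (pstar ρ r) (pstar ρ r') i j := by
  funext i j
  rw [ppstar_mul]
  congr 1
  have h : sm r r' = (fun i j => r i * r' j) + fun i j => r' i * r j := rfl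
  rw [h, map_add, Pi.add_apply, Pi.add_apply, ppstar_tensor, ppstar_tensor]
  rfl

/-- The embedding `T(l,n) → T(l+k,n)`. -/
noncomputable def emb (k : ℕ) : T l n →* T (l + k) n :=
  thom (AddMonoidHom.id (E n)) fun i => yy (i.castAdd k) 0

/-- The universal element `d(y_c²)`. -/
noncomputable def rr (c : Fin l) (e : E n) : Fin l × E n → Lam (Fin l × E n) :=
  dd ((yy c e : T l n) ^ 2)

lemma rr_mem (c : Fin l) (e : E n) : rr (n := n) c e ∈ RR (Fin l × E n) := by
  rw [mem_RR]
  exact ⟨yy c e ^ 2, F1c_bar_sq _, rfl⟩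

lemma thom_yy (ρ : E n →+ E n') (t : Fin l → T l' n') (i : Fin l) (e : E n) :
    thom ρ t (yy i e) = act (ρ e) (t i) := by simp [yy]

lemma act_yy (i : Fin l) (e f : E n) : act e (yy i f) = yy i (e + f) := by simp [yy]

lemma thom_emb (k : ℕ) (ρ : E n →+ E n') (t : Fin l → T l' n') (s : Fin k → T l' n') :
    (thom ρ (Fin.append t s)).comp (emb k) = (thom ρ t : T l n →* T l' n') := by
  ext1 p
  obtain ⟨i, e⟩ := p
  simp [emb, act_yy, thom_yy]

/-- membership predicate of the T-ideal. -/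
def Jp (M : TIF) (h3 : M ≤ T3) (l n : ℕ) (g : Lam (Fin l × E n)) : Prop :=
  (fun i j => lbar (emb 2) g * sm (rr (Fin.natAdd l (0 : Fin 2)) 0)
    (rr (Fin.natAdd l (1 : Fin 2)) 0) i j) ∈ Mt M h3 (l + 2) n

lemma general (M : TIF) (h3 : M ≤ T3) (g : Lam (Fin l × E n)) (hg : Jp M h3 l n g)
    (ρ : E n →+ E n') (t : Fin l → T l' n') (r r' : Fin l' × E n' → Lam (Fin l' × E n'))
    (hr : r ∈ RR (Fin l' × E n')) (hr' : r' ∈ RR (Fin l' × E n')) :
    (fun i j => lbar (thom ρ t) g * sm r r' i j) ∈ Mt M h3 l' n' := by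
  have key : ∀ s s' : T l' n', (fun i j => lbar (thom ρ t) g *
      sm (fun i => xx (bar s) * dd s i) (fun i => xx (bar s') * dd s' i) i j) ∈ Mt M h3 l' n' := by
    intro s s'
    have h := Mt_thom M h3 ρ (Fin.append t ![s, s']) _ hg
    rw [ppstar_sm, ← lbar_comp, thom_emb] at h
    have h1 : ∀ c : Fin 2, pstar (thom ρ (Fin.append t ![s, s'])) (rr (Fin.natAdd l c) 0) =
        fun i => xx (bar (![s, s'] c)) * dd (![s, s'] c) i := by
      intro c
      rw [rr, ← dd_map, map_pow, thom_yy, map_zero, act_zero, Fin.append_right, F1c_dd_sq]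
    rw [h1 0, h1 1] at h
    exact h
  have h2 : ∀ s : T l' n', ∀ q ∈ RR (Fin l' × E n'), (fun i j => lbar (thom ρ t) g *
      sm (fun i => xx (bar s) * dd s i) q i j) ∈ Mt M h3 l' n' := by
    intro s q hq
    have hq' := RR_closure q hq
    refine AddSubgroup.closure_induction (p := fun q _ => (fun i j => lbar (thom ρ t) g *
      sm (fun i => xx (bar s) * dd s i) q i j) ∈ Mt M h3 l' n') ?_ ?_ ?_ ?_ hq'
    · rintro x ⟨s', rfl⟩
      exact key s s'
    · have : (fun i j => lbar (thom ρ t) g * sm (fun i => xx (bar s) * dd s i) 0 i j) =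
          (0 : Mat l' n') := by
        funext i j; simp [sm]
      rw [this]; exact zero_mem _
    · intro x y _ _ hx hy
      have : (fun i j => lbar (thom ρ t) g * sm (fun i => xx (bar s) * dd s i) (x + y) i j) =
          (fun i j => lbar (thom ρ t) g * sm (fun i => xx (bar s) * dd s i) x i j) +
          (fun i j => lbar (thom ρ t) g * sm (fun i => xx (bar s) * dd s i) y i j) := by
        funext i j; simp only [sm, Pi.add_apply]; ring
      rw [this]; exact add_mem hx hy
    · intro x _ hx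
      have : (-x) = x := by funext i; exact lam_neg _
      rw [this]; exact hx
  have hr2 := RR_closure r hr
  refine AddSubgroup.closure_induction (p := fun q _ => (fun i j => lbar (thom ρ t) g *
      sm q r' i j) ∈ Mt M h3 l' n') ?_ ?_ ?_ ?_ hr2
  · rintro x ⟨s, rfl⟩
    exact h2 s r' hr'
  · have : (fun i j => lbar (thom ρ t) g * sm 0 r' i j) = (0 : Mat l' n') := by
      funext i j; simp [sm]
    rw [this]; exact zero_mem _
  · intro x y _ _ hx hy
    have : (fun i j => lbar (thom ρ t) g * sm (x + y) r' i j) =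
        (fun i j => lbar (thom ρ t) g * sm x r' i j) +
        (fun i j => lbar (thom ρ t) g * sm y r' i j) := by
      funext i j; simp only [sm, Pi.add_apply]; ring
    rw [this]; exact add_mem hx hy
  · intro x _ hx
    have : (-x) = x := by funext i; exact lam_neg _
    rw [this]; exact hx

lemma thom_id : (thom (AddMonoidHom.id (E n)) (fun i => yy i 0) : T l n →* T l n) =
    MonoidHom.id _ := by
  ext1 p
  obtain ⟨i, e⟩ := p
  simp [yy]

lemma lbar_id (g : Lam (Fin l × E n)) : lbar (MonoidHom.id (T l n)) g = g := by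
  have h : ubar (MonoidHom.id (T l n)) = AddMonoidHom.id _ := by
    refine AddMonoidHom.ext fun u => ?_
    obtain ⟨w, rfl⟩ := bar_surjective u
    rw [← bar_map]; rfl
  unfold lbar
  rw [h]
  simp

/-- The T-ideal. -/
noncomputable def JJ (M : TIF) (h3 : M ≤ T3) : TIdeal where
  J l n :=
    { carrier := {g | Jp M h3 l n g}
      zero_mem' := by
        have : (fun i j => lbar (emb 2) (0 : Lam (Fin l × E n)) *
            sm (rr (Fin.natAdd l (0 : Fin 2)) 0) (rr (Fin.natAdd l (1 : Fin 2)) 0) i j) =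
            (0 : Mat (l + 2) n) := by
          funext i j; simp
        show _ ∈ Mt M h3 (l + 2) n
        rw [this]; exact zero_mem _
      add_mem' := by
        intro a b ha hb
        have : (fun i j => lbar (emb 2) (a + b) *
            sm (rr (Fin.natAdd l (0 : Fin 2)) 0) (rr (Fin.natAdd l (1 : Fin 2)) 0) i j) =
            (fun i j => lbar (emb 2) a * sm (rr (Fin.natAdd l (0 : Fin 2)) 0)
              (rr (Fin.natAdd l (1 : Fin 2)) 0) i j) +
            ((fun i j => lbar (emb 2) b * sm (rr (Fin.natAdd l (0 : Fin 2)) 0)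
              (rr (Fin.natAdd l (1 : Fin 2)) 0) i j) : Mat (l + 2) n) := by
          funext i j; simp only [map_add, Pi.add_apply]; ring
        show _ ∈ Mt M h3 (l + 2) n
        rw [this]; exact add_mem ha hb
      smul_mem' := by
        intro f g hg
        have h := general M h3 g hg (AddMonoidHom.id (E n))
          (fun i => yy (i.castAdd 2) 0) (lbar (emb 2) f • rr (Fin.natAdd l (0 : Fin 2)) 0)
          (rr (Fin.natAdd l (1 : Fin 2)) 0) (Submodule.smul_mem _ _ (rr_mem _ _)) (rr_mem _ _)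
        show _ ∈ Mt M h3 (l + 2) n
        have : (fun i j => lbar (emb 2) (f • g) *
            sm (rr (Fin.natAdd l (0 : Fin 2)) 0) (rr (Fin.natAdd l (1 : Fin 2)) 0) i j) =
            ((fun i j => lbar (emb 2) g * sm (lbar (emb 2) f • rr (Fin.natAdd l (0 : Fin 2)) 0)
              (rr (Fin.natAdd l (1 : Fin 2)) 0) i j) : Mat (l + 2) n) := by
          funext i j
          simp only [sm, Pi.smul_apply, smul_eq_mul, map_mul]; ring
        rw [this]; exact h }
  thom_mem := by
    intro l n l' n' ρ t g hg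
    have h := general M h3 g hg ρ (fun i => emb 2 (t i))
      (rr (Fin.natAdd l' (0 : Fin 2)) 0) (rr (Fin.natAdd l' (1 : Fin 2)) 0) (rr_mem _ _)
      (rr_mem _ _)
    show _ ∈ Mt M h3 (l' + 2) n'
    have h2 : lbar (emb 2) (lbar (thom ρ t) g) = lbar (thom ρ (fun i => emb 2 (t i))) g := by
      rw [← lbar_comp]
      congr 2
      ext1 p
      simp [emb, thom_act]
    rw [h2]; exact h

lemma ubar_congr (φ ψ : T l n →* T l' n') (h : ∀ p, bar (φ (FreeGroup.of p)) =
    bar (ψ (FreeGroup.of p))) : ubar φ = ubar ψ := by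
  refine AddMonoidHom.ext fun u => ?_
  show ∑ a, u a • bar (φ (FreeGroup.of a)) = ∑ a, u a • bar (ψ (FreeGroup.of a))
  exact Finset.sum_congr rfl fun a _ => by rw [h a]

lemma lbar_congr (φ ψ : T l n →* T l' n') (h : ∀ p, bar (φ (FreeGroup.of p)) =
    bar (ψ (FreeGroup.of p))) : lbar φ = lbar ψ := by
  unfold lbar
  rw [ubar_congr φ ψ h]

lemma bar_act_zero (e : E n) (s : T l n) (h : bar s = 0) : bar (act e s) = 0 := by
  rw [bar_map, h, map_zero]

/-- the T-hom `θ_{s,s'}` -/
noncomputable def th2 (κ : Fin l → Fin l') (i j : Fin l) (s s' : T l' n) : T l n →* T l' n :=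
  thom (AddMonoidHom.id (E n)) fun k =>
    yy (κ k) 0 * (if k = i then s else 1) * (if k = j then s' else 1)

/-- the T-hom `y_k ↦ y_{κ k}`. -/
noncomputable def th0 (κ : Fin l → Fin l') : T l n →* T l' n :=
  thom (AddMonoidHom.id (E n)) fun k => yy (κ k) 0

lemma th2_of (κ : Fin l → Fin l') (i j : Fin l) (s s' : T l' n) (k : Fin l) (e : E n) :
    th2 κ i j s s' (FreeGroup.of (k, e)) =
      yy (κ k) e * (if k = i then act e s else 1) * (if k = j then act e s' else 1) := by
  simp only [th2, thom_of, AddMonoidHom.id_apply, map_mul, act_yy, add_zero]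
  congr 1
  · congr 1
    split_ifs <;> simp
  · split_ifs <;> simp

lemma lbar_th2 (κ : Fin l → Fin l') (i j : Fin l) (s s' : T l' n) (hs : bar s = 0)
    (hs' : bar s' = 0) : lbar (th2 κ i j s s') = lbar (th0 κ : T l n →* T l' n) := by
  apply lbar_congr
  rintro ⟨k, e⟩
  rw [th2_of, bar_mul, bar_mul]
  have h1 : bar (if k = i then act e s else 1) = 0 := by
    split_ifs
    · exact bar_act_zero e s hs
    · exact bar_one
  have h2 : bar (if k = j then act e s' else 1) = 0 := by
    split_ifs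
    · exact bar_act_zero e s' hs'
    · exact bar_one
  rw [h1, h2, add_zero, add_zero]
  simp [th0, act_yy]

lemma dd_th2 (κ : Fin l → Fin l') (i j : Fin l) (s s' : T l' n) (hs : bar s = 0)
    (k : Fin l) (e : E n) (p : Fin l' × E n) :
    dd (th2 κ i j s s' (FreeGroup.of (k, e))) p =
      (Pi.single (κ k, e) 1 : Fin l' × E n → Lam (Fin l' × E n)) p +
      (if k = i then br (Pi.single (κ k, e) 1) * pstar (act e) (dd s) p else 0) +
      (if k = j then br (Pi.single (κ k, e) 1) * pstar (act e) (dd s') p else 0) := by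
  rw [th2_of, dd_mul, dd_mul, bar_mul]
  have h1 : bar (if k = i then act e s else 1) = 0 := by
    split_ifs
    · exact bar_act_zero e s hs
    · exact bar_one
  rw [h1, add_zero]
  simp only [yy, dd_of, bar_of]
  congr 1
  · congr 1
    split_ifs
    · rw [dd_map]
    · simp
  · split_ifs
    · rw [dd_map]
    · simp

lemma two_eq_zero : (2 : Lam (Fin l × E n)) = 0 := by
  have h := lam_add_self (1 : Lam (Fin l × E n))
  rw [← h]; norm_num

lemma mixed (M : TIF) (h3 : M ≤ T3) (w : T l n) (hw : w ∈ M.S l n) (κ : Fin l → Fin l')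
    (i j : Fin l) (s s' : T l' n) (hs : bar s = 0) (hs' : bar s' = 0) :
    (fun p q => ∑ e, ∑ f, lbar (th0 κ) (BB w (i, e) (j, f)) *
      (br (Pi.single (κ i, e) 1) * br (Pi.single (κ j, f) 1)) *
      sm (pstar (act e) (dd s)) (pstar (act f) (dd s')) p q) ∈ Mt M h3 l' n := by
  have hm : ∀ σ σ' : T l' n, BB (th2 κ i j σ σ' w) ∈ Mt M h3 l' n := fun σ σ' =>
    Mt_BB M h3 _ (M.thom_mem l n l' n _ _ _ hw)
  have hsum := add_mem (add_mem (hm s s') (hm s 1)) (add_mem (hm 1 s') (hm 1 1))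
  have hB : ∀ σ σ' : T l' n, bar σ = 0 → bar σ' = 0 → ∀ p q, BB (th2 κ i j σ σ' w) p q =
      ∑ a, ∑ b, lbar (th0 κ) (BB w a b) *
        (dd (th2 κ i j σ σ' (FreeGroup.of a)) p * dd (th2 κ i j σ σ' (FreeGroup.of b)) q) := by
    intro σ σ' h h' p q
    rw [BB_map _ _ (h3 l n hw).1]
    simp only [ppstar, AddMonoidHom.coe_mk, ZeroHom.coe_mk, lbar_th2 κ i j σ σ' h h']
  set X : Fin l × E n → Fin l' × E n → Lam (Fin l' × E n) := fun a p =>
    if a.1 = i then br (Pi.single (κ a.1, a.2) 1) * pstar (act a.2) (dd s) p else 0 with hX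
  set X' : Fin l × E n → Fin l' × E n → Lam (Fin l' × E n) := fun a p =>
    if a.1 = j then br (Pi.single (κ a.1, a.2) 1) * pstar (act a.2) (dd s') p else 0 with hX'
  have key : BB (th2 κ i j s s' w) + BB (th2 κ i j s 1 w) +
      (BB (th2 κ i j 1 s' w) + BB (th2 κ i j 1 1 w)) =
      fun p q => ∑ a, ∑ b, lbar (th0 κ) (BB w a b) * (X a p * X' b q + X' a p * X b q) := by
    funext p q
    simp only [Pi.add_apply]
    rw [hB s s' hs hs', hB s 1 hs bar_one, hB 1 s' bar_one hs', hB 1 1 bar_one bar_one,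
      ← Finset.sum_add_distrib, ← Finset.sum_add_distrib, ← Finset.sum_add_distrib]
    refine Finset.sum_congr rfl fun a _ => ?_
    rw [← Finset.sum_add_distrib, ← Finset.sum_add_distrib, ← Finset.sum_add_distrib]
    refine Finset.sum_congr rfl fun b _ => ?_
    obtain ⟨k, e⟩ := a
    obtain ⟨k', e'⟩ := b
    have d1 : ∀ (k : Fin l) (e : E n) (p : Fin l' × E n),
        dd (th2 κ i j s s' (FreeGroup.of (k, e))) p =
        (Pi.single (κ k, e) 1 : Fin l' × E n → Lam (Fin l' × E n)) p + X (k, e) p + X' (k, e) p :=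
      fun k e p => dd_th2 κ i j s s' hs k e p
    have d2 : ∀ (k : Fin l) (e : E n) (p : Fin l' × E n),
        dd (th2 κ i j s 1 (FreeGroup.of (k, e))) p =
        (Pi.single (κ k, e) 1 : Fin l' × E n → Lam (Fin l' × E n)) p + X (k, e) p := by
      intro k e p
      rw [dd_th2 κ i j s 1 hs k e p]
      simp [hX]
    have d3 : ∀ (k : Fin l) (e : E n) (p : Fin l' × E n),
        dd (th2 κ i j 1 s' (FreeGroup.of (k, e))) p =
        (Pi.single (κ k, e) 1 : Fin l' × E n → Lam (Fin l' × E n)) p + X' (k, e) p := by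
      intro k e p
      rw [dd_th2 κ i j 1 s' bar_one k e p]
      simp [hX']
    have d4 : ∀ (k : Fin l) (e : E n) (p : Fin l' × E n),
        dd (th2 κ i j 1 1 (FreeGroup.of (k, e))) p =
        (Pi.single (κ k, e) 1 : Fin l' × E n → Lam (Fin l' × E n)) p := by
      intro k e p
      rw [dd_th2 κ i j 1 1 bar_one k e p]
      simp
    rw [d1, d1, d2, d2, d3, d3, d4, d4]
    generalize (Pi.single (κ k, e) 1 : Fin l' × E n → Lam (Fin l' × E n)) p = P
    generalize (Pi.single (κ k', e') 1 : Fin l' × E n → Lam (Fin l' × E n)) q = Q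
    generalize X (k, e) p = x
    generalize X' (k, e) p = x'
    generalize X (k', e') q = y
    generalize X' (k', e') q = y'
    generalize lbar (th0 κ) (BB w (k, e) (k', e')) = B
    linear_combination (B * (2 * P * Q + P * y + P * y' + x * Q + x * y + x' * Q + x' * y')) *
      (two_eq_zero (l := l') (n := n))
  rw [key] at hsum
  convert hsum using 1
  funext p q
  have h1 : ∑ a, ∑ b, lbar (th0 κ) (BB w a b) * (X a p * X' b q + X' a p * X b q) =
      ∑ a, ∑ b, lbar (th0 κ) (BB w a b) * (X a p * X' b q + X' b p * X a q) := by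
    simp only [mul_add, Finset.sum_add_distrib]
    congr 1
    rw [Finset.sum_comm]
    refine Finset.sum_congr rfl fun a _ => Finset.sum_congr rfl fun b _ => ?_
    rw [BB_T3_symm w (h3 l n hw).1 (h3 l n hw).2 b a]
  rw [h1, Fintype.sum_prod_type]
  rw [Finset.sum_eq_single i]
  · refine Finset.sum_congr rfl fun e _ => ?_
    rw [Fintype.sum_prod_type, Finset.sum_eq_single j]
    · refine Finset.sum_congr rfl fun f _ => ?_
      simp only [hX, hX', if_true, sm]
      ring
    · intro k _ hk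
      refine Finset.sum_eq_zero fun f _ => ?_
      simp [hX', hk]
    · simp
  · intro k _ hk
    refine Finset.sum_eq_zero fun f _ => Finset.sum_eq_zero fun b _ => ?_
    simp [hX, hk]
  · simp

lemma pstar_act_act (e f : E n) (q : Fin l × E n → Lam (Fin l × E n)) :
    pstar (act e) (pstar (act f) q) = pstar (act (e + f)) q := by
  have h : ((act e).comp (act f) : T l n →* T l n) = act (e + f) := by
    ext1 p; simp [add_assoc]
  rw [← pstar_comp, h]

lemma act_zero_hom : (act (0 : E n) : T l n →* T l n) = MonoidHom.id _ := by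
  ext1 p; simp

lemma pstar_act_zero (q : Fin l × E n → Lam (Fin l × E n)) (hq : q ∈ RR (Fin l × E n)) :
    pstar (act 0) q = q := by
  obtain ⟨w, hw, rfl⟩ := hq
  rw [← dd_map, act_zero]

lemma lbar_act_br (e : E n) (k : Fin l) (f : E n) :
    lbar (act e) (br (Pi.single (k, f) 1)) = br (Pi.single (k, e + f) 1) := by
  rw [lbar_br]
  congr 1
  rw [ubar_single, act_of, bar_of]

lemma lbar_act_xx (e : E n) (k : Fin l) (f : E n) :
    lbar (act e) (xx (Pi.single (k, f) 1)) = xx (Pi.single (k, e + f) 1) := by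
  rw [F1c_lbar_xx]
  congr 1
  rw [ubar_single, act_of, bar_of]

lemma th0_act (κ : Fin l → Fin l') (e : E n) (f : Lam (Fin l × E n)) :
    lbar (act e) (lbar (th0 κ) f) = lbar (th0 κ) (lbar (act e) f) :=
  C1aux.lbar_act_thom (AddMonoidHom.id (E n)) _ e f

lemma modC (M : TIF) (h3 : M ≤ T3) (w : T l n) (hw : w ∈ M.S l n) (κ : Fin l → Fin l')
    (i j : Fin l) (ν ν' : Fin l' × E n → Lam (Fin l' × E n)) (hν : ν ∈ RR (Fin l' × E n))
    (hν' : ν' ∈ RR (Fin l' × E n)) :
    (fun p q => ∑ g, lbar (th0 κ) (F0 (BB w) i j g) *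
      (br (Pi.single (κ i, 0) 1) * br (Pi.single (κ j, g) 1)) *
      sm ν (pstar (act g) ν') p q) ∈ Mt M h3 l' n := by
  obtain ⟨s, hs, rfl⟩ := (mem_RR ν).1 hν
  obtain ⟨s', hs', rfl⟩ := (mem_RR ν').1 hν'
  have h1 := mixed M h3 w hw κ i j s s' hs hs'
  set W : E n → E n → Mat l' n := fun e f => fun p q => lbar (th0 κ) (BB w (i, e) (j, f)) *
      (br (Pi.single (κ i, e) 1) * br (Pi.single (κ j, f) 1)) *
      sm (pstar (act e) (dd s)) (pstar (act f) (dd s')) p q with hW
  have h2 : (∑ e, ∑ f, (W e f + ppstar (act (-e)) (W e f))) ∈ Mt M h3 l' n :=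
    sum_mem fun e _ => sum_mem fun f _ => Mt_CC M h3 _ (CC_act _ _)
  have h1' : (∑ e, ∑ f, W e f) ∈ Mt M h3 l' n := by
    convert h1 using 1
    funext p q
    simp only [Finset.sum_apply, hW]
  have h3' : (∑ e, ∑ f, ppstar (act (-e)) (W e f)) ∈ Mt M h3 l' n := by
    have h4 := sub_mem h2 h1'
    simp only [Finset.sum_add_distrib] at h4
    simpa using h4
  convert h3' using 1
  funext p q
  have hpp : ∀ e f, ppstar (act (-e)) (W e f) p q =
      lbar (th0 κ) (lbar (act (-e)) (BB w (i, e) (j, f))) *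
      (br (Pi.single (κ i, 0) 1) * br (Pi.single (κ j, f - e) 1)) *
      sm (dd s) (pstar (act (f - e)) (dd s')) p q := by
    intro e f
    have h5 : ppstar (act (-e)) (W e f) = fun p q => lbar (act (-e))
        (lbar (th0 κ) (BB w (i, e) (j, f)) *
          (br (Pi.single (κ i, e) 1) * br (Pi.single (κ j, f) 1))) *
        sm (pstar (act (-e)) (pstar (act e) (dd s)))
          (pstar (act (-e)) (pstar (act f) (dd s'))) p q := ppstar_sm _ _ _
    rw [h5, map_mul, map_mul, th0_act, lbar_act_br, lbar_act_br, pstar_act_act, pstar_act_act,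
      neg_add_cancel, pstar_act_zero _ hν, neg_add_eq_sub]
  simp only [Finset.sum_apply, hpp]
  have h6 : ∀ e, ∑ f, lbar (th0 κ) (lbar (act (-e)) (BB w (i, e) (j, f))) *
      (br (Pi.single (κ i, 0) 1) * br (Pi.single (κ j, f - e) 1)) *
      sm (dd s) (pstar (act (f - e)) (dd s')) p q =
      ∑ g, lbar (th0 κ) (lbar (act (-e)) (BB w (i, e) (j, e + g))) *
      (br (Pi.single (κ i, 0) 1) * br (Pi.single (κ j, g) 1)) *
      sm (dd s) (pstar (act g) (dd s')) p q := by
    intro e
    rw [← Equiv.sum_comp (Equiv.addLeft e)]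
    refine Finset.sum_congr rfl fun g _ => ?_
    simp only [Equiv.coe_addLeft, add_sub_cancel_left]
  simp only [h6]
  rw [Finset.sum_comm]
  refine Finset.sum_congr rfl fun g _ => ?_
  simp only [← Finset.sum_mul]
  congr 2
  simp only [F0, map_sum]

lemma smul_sm (f g : Lam (Fin l × E n)) (r r' : Fin l × E n → Lam (Fin l × E n)) (p q) :
    sm (f • r) (g • r') p q = f * g * sm r r' p q := by
  simp only [sm, Pi.smul_apply, smul_eq_mul]; ring

lemma pstar_smul (φ : T l n →* T l' n') (f : Lam (Fin l × E n))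
    (r : Fin l × E n → Lam (Fin l × E n)) : pstar φ (f • r) = lbar φ f • pstar φ r := by
  funext k
  exact pstar_mul φ f r k

lemma pstar_act_rr (e f : E n) (c : Fin l) : pstar (act e) (rr c f) = rr c (e + f) := by
  rw [rr, ← dd_map, map_pow, act_yy]; rfl

lemma special (M : TIF) (h3 : M ≤ T3) (w : T l n) (hw : w ∈ M.S l n) (κ : Fin l → Fin l')
    (i j : Fin l) (g0 : E n) (c a b : Fin l') :
    (fun p q => lbar (th0 κ) (F0 (BB w) i j g0) *
      (br (Pi.single (κ i, 0) 1) * br (Pi.single (κ j, g0) 1)) *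
      (∏ e : E n, xx (Pi.single (c, e) 1)) *
      sm (rr a 0) (rr b 0) p q) ∈ Mt M h3 l' n := by
  classical
  have h := modC M h3 w hw κ i j
    ((xx (Pi.single (c, 0) 1) : Lam (Fin l' × E n)) • rr a 0)
    ((∏ e ∈ Finset.univ.erase (-g0), xx (Pi.single (c, e) 1) : Lam (Fin l' × E n)) • rr b (-g0))
    (Submodule.smul_mem _ _ (rr_mem _ _)) (Submodule.smul_mem _ _ (rr_mem _ _))
  convert h using 1
  funext p q
  have hx : ∀ g : E n, (xx (Pi.single (c, 0) 1) : Lam (Fin l' × E n)) * lbar (act g)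
      (∏ e ∈ Finset.univ.erase (-g0), xx (Pi.single (c, e) 1)) =
      if g = g0 then ∏ e : E n, xx (Pi.single (c, e) 1) else 0 := by
    intro g
    rw [map_prod]
    simp only [lbar_act_xx]
    split_ifs with hg
    · subst hg
      have h7 : (xx (Pi.single (c, 0) 1) : Lam (Fin l' × E n)) =
          xx (Pi.single (c, g + -g) 1) := by rw [add_neg_cancel]
      rw [h7, Finset.mul_prod_erase Finset.univ
        (fun e => (xx (Pi.single (c, g + e) 1) : Lam (Fin l' × E n))) (Finset.mem_univ (-g))]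
      exact Equiv.prod_comp (Equiv.addLeft g)
        (fun e => (xx (Pi.single (c, e) 1) : Lam (Fin l' × E n)))
    · have hmem : -g ∈ (Finset.univ.erase (-g0) : Finset (E n)) := by
        simp [hg]
      rw [← Finset.mul_prod_erase _ _ hmem, ← mul_assoc, add_neg_cancel, F1c_xx_sq, zero_mul]
  have h8 : ∀ g : E n, sm ((xx (Pi.single (c, 0) 1) : Lam (Fin l' × E n)) • rr a 0)
      (pstar (act g) ((∏ e ∈ Finset.univ.erase (-g0), xx (Pi.single (c, e) 1) :
        Lam (Fin l' × E n)) • rr b (-g0))) p q =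
      if g = g0 then (∏ e : E n, xx (Pi.single (c, e) 1)) * sm (rr a 0) (rr b 0) p q else 0 := by
    intro g
    rw [pstar_smul, smul_sm, hx, pstar_act_rr]
    split_ifs with hg
    · rw [hg, add_neg_cancel]
    · rw [zero_mul]
  simp only [h8, mul_ite, mul_zero]
  rw [Finset.sum_ite_eq' Finset.univ g0]
  simp only [Finset.mem_univ, if_true]
  ring

lemma coeff_xx_mul (y v : Fin l × E n → ZMod 2) (h : Lam (Fin l × E n)) :
    (xx y * h).coeff v = h.coeff v + h.coeff (-y + v) := by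
  rw [xx, add_mul, one_mul, br, AddMonoidAlgebra.coeff_add, Finsupp.add_apply,
    AddMonoidAlgebra.coeff_single_mul_apply, one_mul]

lemma sig_ne (h : Lam (Fin (l + 1) × E n)) (u : Fin (l + 1) × E n → ZMod 2)
    (hu : ∀ e, u (Fin.last l, e) = 0) (hc : h.coeff u ≠ 0)
    (hs : ∀ v, h.coeff v ≠ 0 → ∀ e, v (Fin.last l, e) = 0) (S : Finset (E n)) :
    (h * ∏ e ∈ S, xx (Pi.single (Fin.last l, e) 1)).coeff u ≠ 0 ∧
    ∀ v, (h * ∏ e ∈ S, xx (Pi.single (Fin.last l, e) 1)).coeff v ≠ 0 →
      ∀ e, e ∉ S → v (Fin.last l, e) = 0 := by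
  induction S using Finset.induction_on with
  | empty =>
    rw [Finset.prod_empty, mul_one]
    exact ⟨hc, fun v hv e _ => hs v hv e⟩
  | insert e0 S he ih =>
    obtain ⟨ih1, ih2⟩ := ih
    rw [Finset.prod_insert he, mul_left_comm]
    set h' := h * ∏ e ∈ S, xx (Pi.single (Fin.last l, e) 1) with hh'
    have h1 : h'.coeff (-(Pi.single (Fin.last l, e0) 1) + u) = 0 := by
      by_contra hne
      have h2 := ih2 _ hne e0 he
      rw [Pi.add_apply, Pi.neg_apply, Pi.single_eq_same, hu, add_zero] at h2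
      exact absurd h2 (by decide)
    refine ⟨?_, ?_⟩
    · rw [coeff_xx_mul, h1, add_zero]; exact ih1
    · intro v hv e hes
      rw [coeff_xx_mul] at hv
      have hne : e ≠ e0 := fun h => hes (h ▸ Finset.mem_insert_self _ _)
      have heS : e ∉ S := fun h => hes (Finset.mem_insert_of_mem h)
      by_cases h2 : h'.coeff v = 0
      · rw [h2, zero_add] at hv
        have h3 := ih2 _ hv e heS
        rw [Pi.add_apply, Pi.neg_apply, Pi.single_eq_of_ne (by
          intro h4; rw [Prod.mk.injEq] at h4; exact hne h4.2), neg_zero, zero_add] at h3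
        exact h3
      · exact ih2 v h2 e heS

lemma ubar_emb (u : Fin l × E n → ZMod 2) (p : Fin (l + 1) × E n) :
    ubar (emb 1 : T l n →* T (l + 1) n) u p =
      ∑ a, u a * (Pi.single (a.1.castAdd 1, a.2) (1 : ZMod 2) : Fin (l + 1) × E n → ZMod 2) p := by
  have h : ubar (emb 1 : T l n →* T (l + 1) n) u =
    ∑ a, u a • bar ((emb 1 : T l n →* T (l + 1) n) (FreeGroup.of a)) := rfl
  rw [h, Finset.sum_apply]
  refine Finset.sum_congr rfl fun a _ => ?_
  obtain ⟨k, e⟩ := a
  simp [emb, yy]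

lemma ubar_emb_last (u : Fin l × E n → ZMod 2) (e : E n) :
    ubar (emb 1 : T l n →* T (l + 1) n) u (Fin.last l, e) = 0 := by
  rw [ubar_emb]
  refine Finset.sum_eq_zero fun a _ => ?_
  rw [Pi.single_eq_of_ne, mul_zero]
  intro h
  rw [Prod.mk.injEq] at h
  exact (Fin.castSucc_lt_last a.1).ne' h.1

lemma ubar_emb_cast (u : Fin l × E n → ZMod 2) (i : Fin l) (e : E n) :
    ubar (emb 1 : T l n →* T (l + 1) n) u (i.castAdd 1, e) = u (i, e) := by
  rw [ubar_emb, Finset.sum_eq_single (i, e)]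
  · simp
  · rintro ⟨k, f⟩ _ hb
    rw [Pi.single_eq_of_ne, mul_zero]
    intro h
    rw [Prod.mk.injEq] at h
    apply hb
    have h1 : k = i := Fin.castAdd_injective l 1 h.1.symm
    have h2 : f = e := h.2.symm
    rw [h1, h2]
  · simp

lemma ubar_emb_inj : Function.Injective (ubar (emb 1 : T l n →* T (l + 1) n)) := by
  intro u v h
  funext p
  obtain ⟨i, e⟩ := p
  rw [← ubar_emb_cast u i e, ← ubar_emb_cast v i e, h]

lemma emb_sig_ne (f : Lam (Fin l × E n)) (hf : f ≠ 0) :
    lbar (emb 1 : T l n →* T (l + 1) n) f * ∏ e : E n, xx (Pi.single (Fin.last l, e) 1) ≠ 0 := by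
  obtain ⟨u0, hu0⟩ : ∃ u0, f.coeff u0 ≠ 0 := by
    by_contra hcon
    push Not at hcon
    apply hf
    refine AddMonoidAlgebra.ext (Finsupp.ext fun v => ?_)
    rw [hcon v]; rfl
  have h1 : ∀ v, (lbar (emb 1 : T l n →* T (l + 1) n) f).coeff v =
      Finsupp.mapDomain (ubar (emb 1 : T l n →* T (l + 1) n)) f.coeff v := fun v => rfl
  have h2 := sig_ne (lbar (emb 1 : T l n →* T (l + 1) n) f) (ubar (emb 1) u0)
    (fun e => ubar_emb_last u0 e) (by
      rw [h1, Finsupp.mapDomain_apply ubar_emb_inj]; exact hu0) (by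
      intro v hv e
      rw [h1] at hv
      have h3 : v ∈ Set.range (ubar (emb 1 : T l n →* T (l + 1) n)) := by
        by_contra hcon
        exact hv (Finsupp.mapDomain_of_notMem_range _ _ hcon)
      obtain ⟨u, rfl⟩ := h3
      exact ubar_emb_last u e) Finset.univ
  intro h3
  rw [h3] at h2
  exact h2.1 rfl

lemma emb_emb : ((emb 2 : T (l + 1) n →* T (l + 1 + 2) n).comp (emb 1 : T l n →* T (l + 1) n)) =
    th0 fun i => (i.castAdd 1).castAdd 2 := by
  ext1 p
  obtain ⟨i, e⟩ := p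
  simp [emb, th0, act_yy, thom_yy]

lemma nonzero (M : TIF) (h4 : T4 ≤ M) (h3 : M ≤ T3) (hne : M ≠ T4) :
    ∃ l n, (JJ M h3).J l n ≠ ⊥ := by
  have h1 : ∃ l n, ∃ w ∈ M.S l n, w ∉ T4.S l n := by
    by_contra hcon
    push Not at hcon
    exact hne (le_antisymm (fun l n w hw => hcon l n w hw) h4)
  obtain ⟨l, n, w, hw, hw4⟩ := h1
  have h2 : ∃ i j g0, F0 (BB w) i j g0 ≠ 0 := by
    by_contra hcon
    push Not at hcon
    exact hw4 ⟨h3 l n hw, hcon⟩
  obtain ⟨i, j, g0, hF⟩ := h2
  refine ⟨l + 1, n, ?_⟩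
  set G : Lam (Fin (l + 1) × E n) := lbar (emb 1 : T l n →* T (l + 1) n) (F0 (BB w) i j g0) *
      (br (Pi.single (i.castAdd 1, 0) 1) * br (Pi.single (j.castAdd 1, g0) 1)) *
      ∏ e : E n, xx (Pi.single (Fin.last l, e) 1) with hG
  have hGne : G ≠ 0 := by
    intro h0
    apply emb_sig_ne _ hF
    have h5 : lbar (emb 1 : T l n →* T (l + 1) n) (F0 (BB w) i j g0) *
        ∏ e : E n, xx (Pi.single (Fin.last l, e) 1) =
        (br (Pi.single (i.castAdd 1, 0) 1) * br (Pi.single (j.castAdd 1, g0) 1)) * G := by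
      rw [hG]
      have e1 := br_mul_self (Pi.single (i.castAdd 1, 0) 1 : Fin (l + 1) × E n → ZMod 2)
      have e2 := br_mul_self (Pi.single (j.castAdd 1, g0) 1 : Fin (l + 1) × E n → ZMod 2)
      generalize br (Pi.single (i.castAdd 1, 0) 1 : Fin (l + 1) × E n → ZMod 2) = A at *
      generalize br (Pi.single (j.castAdd 1, g0) 1 : Fin (l + 1) × E n → ZMod 2) = B at *
      generalize lbar (emb 1 : T l n →* T (l + 1) n) (F0 (BB w) i j g0) = C
      generalize (∏ e : E n, xx (Pi.single (Fin.last l, e) 1) : Lam (Fin (l + 1) × E n)) = D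
      linear_combination (-(C * D * B * B)) * e1 - (C * D) * e2
    rw [h5, h0, mul_zero]
  have hmem : G ∈ (JJ M h3).J (l + 1) n := by
    show Jp M h3 (l + 1) n G
    have h6 := special M h3 w hw (fun i => (i.castAdd 1).castAdd 2) i j g0
      ((Fin.last l).castAdd 2) (Fin.natAdd (l + 1) (0 : Fin 2)) (Fin.natAdd (l + 1) (1 : Fin 2))
    have h7 : lbar (emb 2) G = lbar (th0 fun i => (i.castAdd 1).castAdd 2) (F0 (BB w) i j g0) *
        (br (Pi.single ((i.castAdd 1).castAdd 2, 0) 1) *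
          br (Pi.single ((j.castAdd 1).castAdd 2, g0) 1)) *
        (∏ e : E n, xx (Pi.single ((Fin.last l).castAdd 2, e) 1)) := by
      rw [hG, map_mul, map_mul, map_mul, map_prod, ← lbar_comp, emb_emb]
      simp only [lbar_br, F1c_lbar_xx, ubar_single]
      simp [emb, yy]
    show _ ∈ Mt M h3 (l + 1 + 2) n
    rw [h7]
    exact h6
  intro hbot
  rw [hbot] at hmem
  exact hGne hmem

end J3aux

/-- (8.3), the T-ideal of a TIF in layer 3. Suggested definition:
`J(l,n) = {g | ι(g) sym(d(y_{l,0}²), d(y_{l+1,0}²)) ∈ B(M(l+2,n)) + C(l+2,n)}`. -/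
theorem J3_exists (M : TIF) (h4 : T4 ≤ M) (h3 : M ≤ T3) (hne : M ≠ T4) :
    ∃ J : TIdeal, (∃ l n, J.J l n ≠ ⊥) ∧ ∀ l n, ∀ g ∈ J.J l n, ∀ r ∈ RR (Fin l × E n),
      ∀ r' ∈ RR (Fin l × E n), ∃ w ∈ M.S l n, ∃ c ∈ CC l n,
        (fun i j => g * (r i * r' j + r' i * r j)) = BB w + c := by
  refine ⟨J3aux.JJ M h3, J3aux.nonzero M h4 h3 hne, ?_⟩
  intro l n g hg r hr r' hr'
  have h := J3aux.general M h3 g hg (AddMonoidHom.id (E n)) (fun i => yy i 0) r r' hr hr'
  rw [J3aux.thom_id, J3aux.lbar_id] at h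
  exact h

end Pool.Agent.OH
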