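import Pool.Agent.OH.Defs3

set_option autoImplicit false

namespace Pool.Agent.OH

/-! # Weight components -/

theorem scal_equi (s : Shape) (c : s.W) : ∃ φ : s.W →+ s.W,
    (∀ x, φ x = scal s c x) ∧ Equi s s (AddMonoidHom.id _) φ := by
  refine ⟨{ toFun := scal s c, map_zero' := ?_, map_add' := ?_ }, fun x => rfl, ?_⟩
  · ext i <;> simp [scal]
  · intro x y
    ext i <;> simp [scal, mul_add]
  · intro e x
    show scal s c (sact s e x) = sact s ((AddMonoidHom.id _) e) (scal s c x)
    refine Prod.ext ?_ ?_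
    · funext j
      simp only [scal, sact, AddMonoidHom.id_apply]
      ring
    · funext i
      simp [scal, sact]

theorem comp_mem (rk : ℕ → Ordinal.{0}) (X : Set (Finset ℕ)) (D : Fam) (hD : IsGoodFam rk X D)
    (s : Shape) (a : s.J → ℕ) (F : s.W → s.W → F4) (hF : F ∈ D s) : comp s a F ∈ D s := by
  have h : comp s a F = ∑ c : s.W, (∏ j, c.1 j ^ (3 - a j)) •
      (fun y u => F (scal s c y) (scal s c u)) := by
    funext y u
    simp [comp, Finset.sum_apply]
  rw [h]
  refine Submodule.sum_mem _ fun c _ => Submodule.smul_mem _ _ ?_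
  obtain ⟨φ, h1, h2⟩ := scal_equi s c
  have := hD.pull s s (AddMonoidHom.id _) φ h2 F hF
  have e : (fun y u => F (scal s c y) (scal s c u)) = fun y u => F (φ y) (φ u) := by
    funext y u; rw [h1, h1]
  rw [e]; exact this

/-! ## Sums over function spaces -/

lemma K1_sum_prod {ι α R : Type} [Fintype ι] [DecidableEq ι] [Fintype α] [CommSemiring R]
    (f : ι → α → R) : ∑ c : ι → α, ∏ i, f i (c i) = ∏ i, ∑ x, f i x := by
  rw [Finset.prod_univ_sum, Fintype.piFinset_univ]

lemma K1_split {ι α : Type} [Fintype ι] [DecidableEq ι] [Fintype α] [Zero α] (i0 : ι)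
    (f : α → F4) (K : (ι → α) → F4) (hK : ∀ c x, K (Function.update c i0 x) = K c)
    (hf : ∑ x, f x = 0) : ∑ c : ι → α, f (c i0) * K c = 0 := by
  classical
  rw [← Equiv.sum_comp (Equiv.funSplitAt i0 α).symm, Fintype.sum_prod_type_right]
  refine Finset.sum_eq_zero fun r _ => ?_
  have h1 : ∀ x : α, f ((Equiv.funSplitAt i0 α).symm (x, r) i0) *
      K ((Equiv.funSplitAt i0 α).symm (x, r)) =
      f x * K ((Equiv.funSplitAt i0 α).symm (0, r)) := by
    intro x
    have e1 : (Equiv.funSplitAt i0 α).symm (x, r) =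
        Function.update ((Equiv.funSplitAt i0 α).symm (0, r)) i0 x := by
      funext j
      by_cases h : j = i0
      · subst h; simp [Equiv.funSplitAt, Equiv.piSplitAt]
      · simp [Equiv.funSplitAt, Equiv.piSplitAt, h]
    rw [e1, hK, Function.update_self]
  rw [Finset.sum_congr rfl fun x _ => h1 x, ← Finset.sum_mul, hf, zero_mul]

lemma K1_pow_sum (k : ℕ) (hk : k ≤ 2) : ∑ x : F4, x ^ k = 0 := by
  interval_cases k <;> decide

lemma K1_cube_sum (k : ℕ) (h1 : 1 ≤ k) (h3 : k ≤ 3) : ∑ x : F4, x ^ (3 - k) * x ^ k = 1 := by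
  interval_cases k <;> decide

/-- Equivalence of morphism data: `F₄^J`-part of the sum for a general function. -/
theorem coef_hom (J : Type) [Fintype J] [DecidableEq J] (a : J → ℕ) (ha : Exp a)
    (G : (J → F4) → F4) (u : J → F4) :
    ∑ c : J → F4, (∏ j, c j ^ (3 - a j)) * G (fun j => c j * u j) =
      (∑ c : J → F4, (∏ j, c j ^ (3 - a j)) * G c) * ∏ j, u j ^ a j := by
  by_cases hu : ∀ j, u j ≠ 0
  · have hcube : ∀ x : F4, x ≠ 0 → x ^ 3 = 1 := by decide
    let φ : (J → F4) ≃ (J → F4) := Equiv.piCongrRight fun j => Equiv.mulRight₀ (u j) (hu j)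
    rw [← Equiv.sum_comp φ (fun c => (∏ j, c j ^ (3 - a j)) * G c), Finset.sum_mul]
    refine Finset.sum_congr rfl fun c _ => ?_
    have h1 : φ c = fun j => c j * u j := rfl
    rw [h1]
    have h2 : (∏ j, (c j * u j) ^ (3 - a j)) * ∏ j, u j ^ a j = ∏ j, c j ^ (3 - a j) := by
      rw [← Finset.prod_mul_distrib]
      refine Finset.prod_congr rfl fun j _ => ?_
      obtain ⟨h4, h5⟩ := ha j
      rw [mul_pow, mul_assoc, ← pow_add, Nat.sub_add_cancel h5, hcube _ (hu j), mul_one]
    rw [← h2]; ring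
  · push Not at hu
    obtain ⟨j0, hj0⟩ := hu
    have hr : ∏ j, u j ^ a j = 0 := by
      refine Finset.prod_eq_zero (Finset.mem_univ j0) ?_
      rw [hj0, zero_pow (by have := (ha j0).1; omega)]
    rw [hr, mul_zero]
    have h1 : ∀ c : J → F4, (∏ j, c j ^ (3 - a j)) * G (fun j => c j * u j) =
        (fun x : F4 => x ^ (3 - a j0)) (c j0) *
          ((∏ j ∈ Finset.univ.erase j0, c j ^ (3 - a j)) * G (fun j => c j * u j)) := by
      intro c
      rw [← Finset.mul_prod_erase _ _ (Finset.mem_univ j0)]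
      ring
    rw [Finset.sum_congr rfl fun c _ => h1 c]
    refine K1_split j0 (fun x : F4 => x ^ (3 - a j0))
      (fun c => (∏ j ∈ Finset.univ.erase j0, c j ^ (3 - a j)) * G (fun j => c j * u j)) ?_ ?_
    · intro c x
      have e1 : ∏ j ∈ Finset.univ.erase j0, Function.update c j0 x j ^ (3 - a j) =
          ∏ j ∈ Finset.univ.erase j0, c j ^ (3 - a j) := by
        refine Finset.prod_congr rfl fun j hj => ?_
        rw [Function.update_of_ne (Finset.ne_of_mem_erase hj)]
      have e2 : (fun j => Function.update c j0 x j * u j) = fun j => c j * u j := by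
        funext j
        by_cases h : j = j0
        · subst h; rw [hj0, mul_zero, mul_zero]
        · rw [Function.update_of_ne h]
      rw [e1, e2]
    · exact K1_pow_sum _ (by have := (ha j0).1; omega)

/-- The `F₂`-part. -/
lemma K1_two {p : ℕ} (i : Fin p) (h : (Fin p → ZMod 2) → F4) : ∃ A B : F4,
    ∀ u : Fin p → ZMod 2, ∑ c : Fin p → ZMod 2, F4.c2 (c i) * h (fun k => c k * u k) =
      A * (∏ k ∈ Finset.univ.erase i, F4.c2 (u k)) + B * ∏ k, F4.c2 (u k) := by
  classical
  set S : (Fin p → ZMod 2) → F4 := fun u => ∑ c : Fin p → ZMod 2, F4.c2 (c i) *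
    h (fun k => c k * u k) with hS
  refine ⟨S (Function.update (1 : Fin p → ZMod 2) i 0),
    S 1 + S (Function.update (1 : Fin p → ZMod 2) i 0), fun u => ?_⟩
  show S u = _
  by_cases hu : ∀ k, k ≠ i → u k ≠ 0
  · have h1 : ∀ x : ZMod 2, x ≠ 0 → x = 1 := by decide
    have h2 : ∏ k ∈ Finset.univ.erase i, F4.c2 (u k) = 1 := by
      refine Finset.prod_eq_one fun k hk => ?_
      rw [h1 _ (hu k (Finset.ne_of_mem_erase hk)), map_one]
    rw [← Finset.mul_prod_erase _ _ (Finset.mem_univ i), h2]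
    have h3 : u = Function.update (1 : Fin p → ZMod 2) i (u i) := by
      funext k
      by_cases hk : k = i
      · subst hk; simp
      · rw [Function.update_of_ne hk, h1 _ (hu k hk)]; rfl
    have h4 : u i = 0 ∨ u i = 1 := by
      generalize u i = x; revert x; decide
    rcases h4 with h4 | h4
    · rw [h4] at h3
      rw [h4, map_zero, h3]; ring
    · rw [h4] at h3
      have h5 : u = 1 := by
        rw [h3]; funext k
        by_cases hk : k = i
        · subst hk; simp
        · rw [Function.update_of_ne hk]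
      rw [h4, map_one, h5, mul_one, mul_one, mul_one, add_comm (S 1), ← add_assoc, F4.add_self,
        zero_add]
  · push Not at hu
    obtain ⟨k, hk, hk0⟩ := hu
    have e1 : ∏ k ∈ Finset.univ.erase i, F4.c2 (u k) = 0 := by
      refine Finset.prod_eq_zero (Finset.mem_erase.2 ⟨hk, Finset.mem_univ k⟩) ?_
      rw [hk0, map_zero]
    have e2 : ∏ k, F4.c2 (u k) = 0 := by
      refine Finset.prod_eq_zero (Finset.mem_univ k) ?_
      rw [hk0, map_zero]
    rw [e1, e2, mul_zero, mul_zero, add_zero]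
    have e3 : S u = ∑ c : Fin p → ZMod 2, (fun _ : ZMod 2 => (1 : F4)) (c k) *
        (F4.c2 (c i) * h (fun k => c k * u k)) := by
      simp [hS]
    rw [e3]
    refine K1_split k (fun _ : ZMod 2 => (1 : F4)) (fun c => F4.c2 (c i) * h (fun k => c k * u k))
      ?_ (by decide)
    intro c x
    have e4 : (fun k' => Function.update c k x k' * u k') = fun k' => c k' * u k' := by
      funext k'
      by_cases h : k' = k
      · subst h; rw [hk0, mul_zero, mul_zero]
      · rw [Function.update_of_ne h]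
    rw [e4, Function.update_of_ne (Ne.symm hk)]

lemma K1_mono_scal (s : Shape) (a : s.J → ℕ) (Q : Finset (Fin s.p)) (c u : s.W) :
    mono s a Q (scal s c u) = mono s a Q c * mono s a Q u := by
  simp only [mono, scal, mul_pow, map_mul, Finset.prod_mul_distrib]
  ring

/-- The basic sum. -/
lemma K1_sum (s : Shape) (a : s.J → ℕ) (i : Fin s.p) (g : s.W → F4) (u : s.W) :
    ∑ c : s.W, (∏ j, c.1 j ^ (3 - a j)) * (F4.c2 (c.2 i) * g (scal s c u)) =
      ∑ c2 : Fin s.p → ZMod 2, F4.c2 (c2 i) *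
        ∑ c1 : s.J → F4, (∏ j, c1 j ^ (3 - a j)) *
          g (fun j => c1 j * u.1 j, fun k => c2 k * u.2 k) := by
  rw [Fintype.sum_prod_type_right]
  refine Finset.sum_congr rfl fun c2 _ => ?_
  rw [Finset.mul_sum]
  refine Finset.sum_congr rfl fun c1 _ => ?_
  simp only [scal]
  ring

lemma K1_form (s : Shape) (a : s.J → ℕ) (ha : Exp a) (i : Fin s.p) (g : s.W → F4) :
    ∃ A B : F4, ∀ u : s.W,
      ∑ c : s.W, (∏ j, c.1 j ^ (3 - a j)) * (F4.c2 (c.2 i) * g (scal s c u)) =
        A * mono s a (Finset.univ.erase i) u + B * mono s a Finset.univ u := by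
  obtain ⟨A, B, h⟩ := K1_two i (fun w2 : Fin s.p → ZMod 2 =>
    ∑ c1 : s.J → F4, (∏ j, c1 j ^ (3 - a j)) * g (c1, w2))
  refine ⟨A, B, fun u => ?_⟩
  rw [K1_sum]
  have h1 : ∀ c2 : Fin s.p → ZMod 2, F4.c2 (c2 i) *
        ∑ c1 : s.J → F4, (∏ j, c1 j ^ (3 - a j)) *
          g (fun j => c1 j * u.1 j, fun k => c2 k * u.2 k) =
      (F4.c2 (c2 i) * ∑ c1 : s.J → F4, (∏ j, c1 j ^ (3 - a j)) *
        g (c1, fun k => c2 k * u.2 k)) * ∏ j, u.1 j ^ a j := by
    intro c2
    rw [coef_hom s.J a ha (fun w => g (w, fun k => c2 k * u.2 k)) u.1]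
    ring
  rw [Finset.sum_congr rfl fun c2 _ => h1 c2, ← Finset.sum_mul, h u.2]
  simp only [mono]
  ring

lemma K1_y (s : Shape) (F : s.W → s.W → F4)
    (hadd : ∀ y y' u, F (y + y') u = F y u + F y' u)
    (hinv : ∀ e y u, F (sact s e y) u = F y u) (y u : s.W) :
    F y u = ∑ i, F4.c2 (y.2 i) * F (0, Pi.single i 1) u := by
  classical
  let f : s.W →+ F4 := AddMonoidHom.mk' (fun y => F y u) fun y y' => hadd y y' u
  have hf : ∀ y, F y u = f y := fun y => rfl
  have h0 : ∀ (j : s.J) (t : F4), f (Pi.single j t, 0) = 0 := by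
    intro j t
    obtain ⟨k, hk⟩ : ∃ k, s.v j k ≠ 0 := by
      by_contra h
      push Not at h
      exact s.hv j (funext h)
    obtain ⟨r, hr⟩ : ∃ r : ZMod 3, s.v j k * r = 1 := by
      generalize s.v j k = x at hk; revert x; decide
    have hdot : dot (s.v j) (Pi.single k r) = 1 := by
      simp [dot, hr]
    have key : ∀ x : F4, f (Pi.single j (F4.ω * x), 0) = f (Pi.single j x, 0) := by
      intro x
      have h1 := hinv (Pi.single k r) (Pi.single j x, 0) u
      rw [hf, hf] at h1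
      rw [← h1]
      congr 1
      refine Prod.ext ?_ rfl
      funext j'
      by_cases hj : j' = j
      · subst hj
        simp only [sact, hdot, Pi.single_eq_same]
        have : F4.chi 1 = F4.ω := by decide
        rw [this]
      · simp [sact, hj]
    have h2 : f (Pi.single j t, 0) + f (Pi.single j (F4.ω * t), 0) +
        f (Pi.single j (F4.ω * (F4.ω * t)), 0) = 0 := by
      rw [← map_add, ← map_add]
      have h3 : ((Pi.single j t, 0) + (Pi.single j (F4.ω * t), 0) +
          (Pi.single j (F4.ω * (F4.ω * t)), 0) : s.W) = 0 := by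
        refine Prod.ext ?_ ?_
        · show (Pi.single j t : s.J → F4) + Pi.single j (F4.ω * t) +
            Pi.single j (F4.ω * (F4.ω * t)) = 0
          rw [← Pi.single_add, ← Pi.single_add]
          have : t + F4.ω * t + F4.ω * (F4.ω * t) = 0 := by revert t; decide
          rw [this, Pi.single_zero]
        · simp
      rw [h3, map_zero]
    rw [key, key, key, F4.add_self, zero_add] at h2
    exact h2
  have hy : y = ∑ j, ((Pi.single j (y.1 j), 0) : s.W) + ∑ i, ((0, Pi.single i (y.2 i)) : s.W) := by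
    refine Prod.ext ?_ ?_
    · rw [Prod.fst_add, Prod.fst_sum, Prod.fst_sum]
      simp [Finset.univ_sum_single]
    · rw [Prod.snd_add, Prod.snd_sum, Prod.snd_sum]
      simp [Finset.univ_sum_single]
  rw [hf]
  conv_lhs => rw [hy]
  rw [map_add, map_sum, map_sum, Finset.sum_eq_zero fun j _ => h0 j _, zero_add]
  refine Finset.sum_congr rfl fun i _ => ?_
  have h4 : y.2 i = 0 ∨ y.2 i = 1 := by
    generalize y.2 i = x; revert x; decide
  rcases h4 with h4 | h4
  · rw [h4, map_zero, zero_mul, Pi.single_zero]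
    exact map_zero f
  · rw [h4, map_one, one_mul]
    rfl

/-- The component of a general `F` (additive and invariant in `y`) is some `Fcd`. -/
theorem comp_form (s : Shape) (a : s.J → ℕ) (ha : Exp a) (F : s.W → s.W → F4)
    (hadd : ∀ y y' u, F (y + y') u = F y u + F y' u)
    (hinv : ∀ e y u, F (sact s e y) u = F y u) :
    ∃ c d, comp s a F = Fcd s a c d := by
  choose A B h using fun i : Fin s.p => K1_form s a ha i (fun u => F (0, Pi.single i 1) u)
  refine ⟨A, B, ?_⟩
  funext y u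
  simp only [comp, Fcd]
  have h1 : ∀ c : s.W, (∏ j, c.1 j ^ (3 - a j)) * F (scal s c y) (scal s c u) =
      ∑ i, F4.c2 (y.2 i) * ((∏ j, c.1 j ^ (3 - a j)) *
        (F4.c2 (c.2 i) * F (0, Pi.single i 1) (scal s c u))) := by
    intro c
    rw [K1_y s F hadd hinv (scal s c y) (scal s c u), Finset.mul_sum]
    refine Finset.sum_congr rfl fun i _ => ?_
    simp only [scal, map_mul]
    ring
  rw [Finset.sum_congr rfl fun c _ => h1 c, Finset.sum_comm]
  refine Finset.sum_congr rfl fun i _ => ?_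
  rw [← Finset.mul_sum, h i u]

lemma K1_cubes {J : Type} [Fintype J] [DecidableEq J] (a : J → ℕ) (ha : Exp a) :
    ∑ c : J → F4, (∏ j, c j ^ (3 - a j)) * ∏ j, c j ^ a j = 1 := by
  have h : ∀ c : J → F4, (∏ j, c j ^ (3 - a j)) * ∏ j, c j ^ a j =
      ∏ j, (fun (j : J) (x : F4) => x ^ (3 - a j) * x ^ a j) j (c j) := by
    intro c
    rw [← Finset.prod_mul_distrib]
  rw [Finset.sum_congr rfl fun c _ => h c,
    K1_sum_prod (fun (j : J) (x : F4) => x ^ (3 - a j) * x ^ a j)]
  exact Finset.prod_eq_one fun j _ => K1_cube_sum _ (ha j).1 (ha j).2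

lemma K1_two_univ {p : ℕ} : ∑ c : Fin p → ZMod 2, ∏ k, F4.c2 (c k) = 1 := by
  rw [K1_sum_prod (fun (_ : Fin p) (x : ZMod 2) => F4.c2 x)]
  exact Finset.prod_eq_one fun j _ => by decide

lemma K1_mul_erase {p : ℕ} (i : Fin p) (c : Fin p → ZMod 2) :
    F4.c2 (c i) * ∏ k ∈ Finset.univ.erase i, F4.c2 (c k) = ∏ k, F4.c2 (c k) :=
  Finset.mul_prod_erase Finset.univ (fun k => F4.c2 (c k)) (Finset.mem_univ i)

lemma K1_two_erase {p : ℕ} (i : Fin p) :
    ∑ c : Fin p → ZMod 2, ∏ k ∈ Finset.univ.erase i, F4.c2 (c k) = 0 := by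
  have h : ∀ c : Fin p → ZMod 2, ∏ k ∈ Finset.univ.erase i, F4.c2 (c k) =
      (fun _ : ZMod 2 => (1 : F4)) (c i) * ∏ k ∈ Finset.univ.erase i, F4.c2 (c k) :=
    fun c => (one_mul _).symm
  rw [Finset.sum_congr rfl fun c _ => h c]
  refine K1_split i (fun _ : ZMod 2 => (1 : F4))
    (fun c => ∏ k ∈ Finset.univ.erase i, F4.c2 (c k)) ?_ (by decide)
  intro c x
  refine Finset.prod_congr rfl fun j hj => ?_
  rw [Function.update_of_ne (Finset.ne_of_mem_erase hj)]

lemma K1_mul_univ {p : ℕ} (i : Fin p) (c : Fin p → ZMod 2) :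
    F4.c2 (c i) * ∏ k, F4.c2 (c k) = ∏ k, F4.c2 (c k) := by
  rw [← K1_mul_erase i, ← mul_assoc, ← map_mul]
  congr 2
  generalize c i = x; revert x; decide

lemma K1_full (s : Shape) (a : s.J → ℕ) (ha : Exp a) (f : (Fin s.p → ZMod 2) → F4) :
    ∑ c : s.W, (∏ j, c.1 j ^ (3 - a j)) * ((∏ j, c.1 j ^ a j) * f c.2) =
      ∑ c2 : Fin s.p → ZMod 2, f c2 := by
  rw [Fintype.sum_prod_type_right]
  refine Finset.sum_congr rfl fun c2 _ => ?_
  have h : ∀ c1 : s.J → F4, (∏ j, c1 j ^ (3 - a j)) * ((∏ j, c1 j ^ a j) * f c2) =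
      ((∏ j, c1 j ^ (3 - a j)) * ∏ j, c1 j ^ a j) * f c2 := fun c1 => by ring
  rw [Finset.sum_congr rfl fun c1 _ => h c1, ← Finset.sum_mul, K1_cubes a ha, one_mul]

theorem comp_Fcd (s : Shape) (a : s.J → ℕ) (ha : Exp a) (c d : Fin s.p → F4) :
    comp s a (Fcd s a c d) = Fcd s a c d := by
  funext y u
  simp only [comp, Fcd]
  have h1 : ∀ b : s.W, (∏ j, b.1 j ^ (3 - a j)) *
      ∑ i, F4.c2 ((scal s b y).2 i) * (c i * mono s a (Finset.univ.erase i) (scal s b u) +
        d i * mono s a Finset.univ (scal s b u)) =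
      ∑ i, (F4.c2 (y.2 i) * (c i * mono s a (Finset.univ.erase i) u) *
        ((∏ j, b.1 j ^ (3 - a j)) * ((∏ j, b.1 j ^ a j) * ∏ k, F4.c2 (b.2 k))) +
        F4.c2 (y.2 i) * (d i * mono s a Finset.univ u) *
        ((∏ j, b.1 j ^ (3 - a j)) * ((∏ j, b.1 j ^ a j) * ∏ k, F4.c2 (b.2 k)))) := by
    intro b
    rw [Finset.mul_sum]
    refine Finset.sum_congr rfl fun i _ => ?_
    rw [K1_mono_scal, K1_mono_scal]
    have e1 : F4.c2 ((scal s b y).2 i) = F4.c2 (b.2 i) * F4.c2 (y.2 i) := by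
      simp [scal]
    have e2 : mono s a (Finset.univ.erase i) b =
      (∏ j, b.1 j ^ a j) * ∏ k ∈ Finset.univ.erase i, F4.c2 (b.2 k) := rfl
    have e3 : mono s a Finset.univ b = (∏ j, b.1 j ^ a j) * ∏ k, F4.c2 (b.2 k) := rfl
    rw [e1, e2, e3, ← K1_mul_erase i b.2]
    have e4 : F4.c2 (b.2 i) * F4.c2 (b.2 i) = F4.c2 (b.2 i) := by
      rw [← map_mul]; congr 1
      generalize b.2 i = x; revert x; decide
    generalize ∏ j, b.1 j ^ (3 - a j) = P1
    generalize ∏ j, b.1 j ^ a j = P2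
    generalize ∏ k ∈ Finset.univ.erase i, F4.c2 (b.2 k) = P3
    generalize mono s a (Finset.univ.erase i) u = m1
    generalize mono s a Finset.univ u = m2
    generalize F4.c2 (b.2 i) = q at *
    generalize F4.c2 (y.2 i) = y'
    linear_combination (P1 * y' * d i * P2 * P3 * m2) * e4
  rw [Finset.sum_congr rfl fun b _ => h1 b, Finset.sum_comm]
  refine Finset.sum_congr rfl fun i _ => ?_
  rw [Finset.sum_add_distrib, ← Finset.mul_sum, ← Finset.mul_sum,
    K1_full s a ha (fun c2 => ∏ k, F4.c2 (c2 k)), K1_two_univ]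
  ring

theorem Fcd_add (s : Shape) (a : s.J → ℕ) (c d c' d' : Fin s.p → F4) :
    Fcd s a (c + c') (d + d') = Fcd s a c d + Fcd s a c' d' := by
  funext y u
  simp only [Fcd, Pi.add_apply, ← Finset.sum_add_distrib]
  refine Finset.sum_congr rfl fun i _ => ?_
  ring

theorem Fcd_smul (s : Shape) (a : s.J → ℕ) (r : F4) (c d : Fin s.p → F4) :
    Fcd s a (r • c) (r • d) = r • Fcd s a c d := by
  funext y u
  simp only [Fcd, Pi.smul_apply, smul_eq_mul, Finset.mul_sum]
  refine Finset.sum_congr rfl fun i _ => ?_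
  ring

lemma K1_Fcd_single (s : Shape) (a : s.J → ℕ) (c d : Fin s.p → F4) (i : Fin s.p) (u : s.W) :
    Fcd s a c d (0, Pi.single i 1) u =
      c i * mono s a (Finset.univ.erase i) u + d i * mono s a Finset.univ u := by
  simp only [Fcd]
  rw [Finset.sum_eq_single i]
  · simp
  · intro k _ hk
    simp [Pi.single_eq_of_ne hk]
  · intro h; exact absurd (Finset.mem_univ i) h

/-- The coefficients of `Fcd` are seen by `cfQ`. -/
theorem cfQ_Fcd (s : Shape) (a : s.J → ℕ) (ha : Exp a) (c d : Fin s.p → F4) (i : Fin s.p) :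
    cfQ s a (Finset.univ.erase i) (Fcd s a c d (0, Pi.single i 1)) = c i ∧
    cfQ s a Finset.univ (Fcd s a c d (0, Pi.single i 1)) = d i := by
  classical
  have e2 : ∀ b : s.W, mono s a (Finset.univ.erase i) b =
    (∏ j, b.1 j ^ a j) * ∏ k ∈ Finset.univ.erase i, F4.c2 (b.2 k) := fun b => rfl
  have e3 : ∀ b : s.W, mono s a Finset.univ b = (∏ j, b.1 j ^ a j) * ∏ k, F4.c2 (b.2 k) :=
    fun b => rfl
  constructor
  · unfold cfQ
    rw [Finset.sum_filter]
    have h1 : ∀ b : s.W, (if (∀ k, k ∉ Finset.univ.erase i → b.2 k = 0) then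
        (∏ j, b.1 j ^ (3 - a j)) * Fcd s a c d (0, Pi.single i 1) b else 0) =
        (∏ j, b.1 j ^ (3 - a j)) * ((∏ j, b.1 j ^ a j) *
          (fun c2 : Fin s.p → ZMod 2 => c i * (∏ k ∈ Finset.univ.erase i, F4.c2 (c2 k)) +
            c i * ∏ k, F4.c2 (c2 k)) b.2) := by
      intro b
      have h2 : (∀ k, k ∉ Finset.univ.erase i → b.2 k = 0) ↔ b.2 i = 0 := by
        constructor
        · intro h; exact h i (Finset.notMem_erase i _)
        · intro h k hk
          have : k = i := by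
            by_contra hne
            exact hk (Finset.mem_erase.2 ⟨hne, Finset.mem_univ k⟩)
          rw [this]; exact h
      by_cases h3 : b.2 i = 0
      · rw [if_pos (h2.2 h3), K1_Fcd_single, e2, e3, ← K1_mul_erase i b.2, h3, map_zero]
        simp only [← K1_mul_erase i b.2, h3, map_zero]
        ring
      · rw [if_neg (fun h => h3 (h2.1 h))]
        have h4 : b.2 i = 1 := by
          revert h3; generalize b.2 i = x; revert x; decide
        simp only [← K1_mul_erase i b.2, h4, map_one, one_mul]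
        rw [F4.add_self, mul_zero, mul_zero]
    rw [Finset.sum_congr rfl fun b _ => h1 b, K1_full s a ha
      (fun c2 : Fin s.p → ZMod 2 => c i * (∏ k ∈ Finset.univ.erase i, F4.c2 (c2 k)) +
            c i * ∏ k, F4.c2 (c2 k)), Finset.sum_add_distrib,
      ← Finset.mul_sum, ← Finset.mul_sum, K1_two_erase, K1_two_univ]
    ring
  · unfold cfQ
    rw [Finset.sum_filter]
    have h1 : ∀ b : s.W, (if (∀ k, k ∉ (Finset.univ : Finset (Fin s.p)) → b.2 k = 0) then
        (∏ j, b.1 j ^ (3 - a j)) * Fcd s a c d (0, Pi.single i 1) b else 0) =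
        (∏ j, b.1 j ^ (3 - a j)) * ((∏ j, b.1 j ^ a j) *
          (fun c2 : Fin s.p → ZMod 2 => c i * (∏ k ∈ Finset.univ.erase i, F4.c2 (c2 k)) +
            d i * ∏ k, F4.c2 (c2 k)) b.2) := by
      intro b
      rw [if_pos (fun k hk => absurd (Finset.mem_univ k) hk), K1_Fcd_single, e2, e3]
      ring
    rw [Finset.sum_congr rfl fun b _ => h1 b, K1_full s a ha
      (fun c2 : Fin s.p → ZMod 2 => c i * (∏ k ∈ Finset.univ.erase i, F4.c2 (c2 k)) +
            d i * ∏ k, F4.c2 (c2 k)), Finset.sum_add_distrib,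
      ← Finset.mul_sum, ← Finset.mul_sum, K1_two_erase, K1_two_univ]
    ring

/-- `Fcd` determines its coefficients. -/
theorem Fcd_inj (s : Shape) (a : s.J → ℕ) (ha : Exp a) (c d c' d' : Fin s.p → F4)
    (h : Fcd s a c d = Fcd s a c' d') : c = c' ∧ d = d' := by
  refine ⟨funext fun i => ?_, funext fun i => ?_⟩
  · rw [← (cfQ_Fcd s a ha c d i).1, ← (cfQ_Fcd s a ha c' d' i).1, h]
  · rw [← (cfQ_Fcd s a ha c d i).2, ← (cfQ_Fcd s a ha c' d' i).2, h]

end Pool.Agent.OH
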