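import Pool.Agent.OH.K1

set_option autoImplicit false

namespace Pool.Agent.OH

namespace K2

/-- Transfer along a round trip through another shape. -/
theorem transfer (rk : ℕ → Ordinal.{0}) (X : Set (Finset ℕ)) (D D' : Fam)
    (hD : IsGoodFam rk X D) (hD' : IsGoodFam rk X D') (s s' : Shape)
    (ρ : E s.n →+ E s'.n) (φ : s.W →+ s'.W) (hφ : Equi s s' ρ φ)
    (ρ' : E s'.n →+ E s.n) (φ' : s'.W →+ s.W) (hφ' : Equi s' s ρ' φ')
    (h : D' s' ≤ D s') (F : s.W → s.W → F4) (hF : F ∈ D' s) :
    (fun y u => F (φ' (φ y)) (φ' (φ u))) ∈ D s :=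
  hD.pull s s' ρ φ hφ _ (h (hD'.pull s' s ρ' φ' hφ' F hF))

/-- The indicator of `{0, 1}` in `F₄`. -/
theorem sum_exps (x : F4) : ∑ b ∈ ({1, 2, 3} : Finset ℕ), x ^ (3 - b) =
    if x = 0 ∨ x = 1 then 1 else 0 := by
  revert x; decide

/-- The `0/1`-vectors. -/
def ZO (s : Shape) (c : s.W) : Prop := ∀ j, c.1 j = 0 ∨ c.1 j = 1

/-- The all ones vector. -/
def one (s : Shape) : s.W := (fun _ => 1, fun _ => 1)

theorem scal_one (s : Shape) (x : s.W) : scal s (one s) x = x := by
  ext <;> simp [scal, one]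

open Classical in
theorem ident (s : Shape) (F : s.W → s.W → F4) (y u : s.W) :
    F y u = ∑ a ∈ Fintype.piFinset (fun _ : s.J => ({1, 2, 3} : Finset ℕ)), comp s a F y u +
      ∑ c ∈ Finset.univ.filter (fun c : s.W => ZO s c ∧ c ≠ one s),
        F (scal s c y) (scal s c u) := by
  have h1 : ∑ a ∈ Fintype.piFinset (fun _ : s.J => ({1, 2, 3} : Finset ℕ)), comp s a F y u =
      ∑ c ∈ Finset.univ.filter (fun c : s.W => ZO s c), F (scal s c y) (scal s c u) := by
    unfold comp
    rw [Finset.sum_comm, Finset.sum_filter]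
    refine Finset.sum_congr rfl fun c _ => ?_
    have h0 := Finset.prod_univ_sum (fun _ : s.J => ({1, 2, 3} : Finset ℕ))
      (fun j b => c.1 j ^ (3 - b))
    rw [← Finset.sum_mul, ← h0]
    by_cases hc : ZO s c
    · rw [if_pos hc, Finset.prod_eq_one, one_mul]
      intro j _
      rw [sum_exps, if_pos (hc j)]
    · rw [if_neg hc]
      unfold ZO at hc
      push Not at hc
      obtain ⟨j, hj⟩ := hc
      rw [Finset.prod_eq_zero (Finset.mem_univ j), zero_mul]
      rw [sum_exps, if_neg]
      tauto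
  have h2 : Finset.univ.filter (fun c : s.W => ZO s c ∧ c ≠ one s) =
      (Finset.univ.filter (fun c : s.W => ZO s c)).erase (one s) := by
    ext c; simp [and_comm]
  have h3 : one s ∈ Finset.univ.filter (fun c : s.W => ZO s c) := by
    simp [ZO, one]
  rw [h1, h2, ← Finset.add_sum_erase _ _ h3, scal_one, scal_one, add_assoc, F4.add_self, add_zero]

/-! ### Killing a block -/

/-- The shape with the block `j₀` removed. -/
def killJ (s : Shape) (j₀ : s.J) : Shape where
  n := s.n
  J := {j // j ≠ j₀}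
  fJ := inferInstance
  dJ := inferInstance
  v := fun j => s.v j.1
  hv := fun j => s.hv j.1
  p := s.p

/-- Extension by zero. -/
def extJ (s : Shape) (j₀ : s.J) (x : {j // j ≠ j₀} → F4) : s.J → F4 :=
  fun j => if h : j = j₀ then 0 else x ⟨j, h⟩

theorem extJ_self (s : Shape) (j₀ : s.J) (x : {j // j ≠ j₀} → F4) : extJ s j₀ x j₀ = 0 := by
  simp [extJ]

theorem extJ_ne (s : Shape) (j₀ : s.J) (x : {j // j ≠ j₀} → F4) (j : s.J) (h : j ≠ j₀) :
    extJ s j₀ x j = x ⟨j, h⟩ := by
  simp [extJ, h]

theorem step_J (s : Shape) (j₀ : s.J) : ∃ (s' : Shape) (ρ : E s.n →+ E s'.n)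
    (φ : s.W →+ s'.W) (ρ' : E s'.n →+ E s.n) (φ' : s'.W →+ s.W),
    Fintype.card s'.J + s'.p < Fintype.card s.J + s.p ∧ Equi s s' ρ φ ∧ Equi s' s ρ' φ' ∧
    ∀ x : s.W, x.1 j₀ = 0 → φ' (φ x) = x := by
  refine ⟨killJ s j₀, AddMonoidHom.id _,
    { toFun := fun x => (fun j => x.1 j.1, x.2)
      map_zero' := rfl
      map_add' := fun _ _ => rfl }, AddMonoidHom.id _,
    { toFun := fun x => (extJ s j₀ x.1, x.2)
      map_zero' := by
        refine Prod.ext (funext fun j => ?_) rfl
        by_cases h : j = j₀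
        · subst h; exact extJ_self _ _ _
        · exact extJ_ne _ _ _ _ h
      map_add' := by
        intro x y
        refine Prod.ext (funext fun j => ?_) rfl
        simp only [Prod.fst_add, Pi.add_apply]
        by_cases h : j = j₀
        · subst h; rw [extJ_self, extJ_self, extJ_self, add_zero]
        · rw [extJ_ne _ _ _ _ h, extJ_ne _ _ _ _ h, extJ_ne _ _ _ _ h]; rfl }, ?_, ?_, ?_, ?_⟩
  · have h1 : Fintype.card (killJ s j₀).J < Fintype.card s.J :=
      Fintype.card_subtype_lt (p := fun j => j ≠ j₀) (x := j₀) (by simp)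
    have h2 : (killJ s j₀).p = s.p := rfl
    omega
  · intro e x; rfl
  · intro e x
    refine Prod.ext (funext fun j => ?_) rfl
    show extJ s j₀ (sact (killJ s j₀) e x).1 j = F4.chi (dot (s.v j) e) * extJ s j₀ x.1 j
    by_cases h : j = j₀
    · subst h; rw [extJ_self, extJ_self, mul_zero]
    · rw [extJ_ne _ _ _ _ h, extJ_ne _ _ _ _ h]; rfl
  · intro x hx
    refine Prod.ext (funext fun j => ?_) rfl
    show extJ s j₀ (fun j => x.1 j.1) j = x.1 j
    by_cases h : j = j₀
    · subst h; rw [extJ_self, hx]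
    · rw [extJ_ne _ _ _ _ h]

theorem step_P (s : Shape) (i₀ : Fin s.p) : ∃ (s' : Shape) (ρ : E s.n →+ E s'.n)
    (φ : s.W →+ s'.W) (ρ' : E s'.n →+ E s.n) (φ' : s'.W →+ s.W),
    Fintype.card s'.J + s'.p < Fintype.card s.J + s.p ∧ Equi s s' ρ φ ∧ Equi s' s ρ' φ' ∧
    ∀ x : s.W, x.2 i₀ = 0 → φ' (φ x) = x := by
  obtain ⟨n, J, fJ, dJ, v, hv, p⟩ := s
  obtain _ | q := p
  · exact i₀.elim0
  let A : (Fin q → ZMod 2) →+ (Fin (q + 1) → ZMod 2) :=
    { toFun := fun x => i₀.insertNth (α := fun _ => ZMod 2) 0 x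
      map_zero' := by
        funext k
        refine Fin.succAboveCases i₀ ?_ (fun k => ?_) k
        · simp
        · simp
      map_add' := by
        intro x y
        funext k
        refine Fin.succAboveCases i₀ ?_ (fun k => ?_) k
        · simp
        · simp }
  have hA : ∀ x : Fin (q + 1) → ZMod 2, x i₀ = 0 → A (fun k => x (i₀.succAbove k)) = x := by
    intro x hx
    have h := Fin.insertNth_self_removeNth (α := fun _ => ZMod 2) i₀ x
    rw [hx] at h
    exact h
  refine ⟨⟨n, J, fJ, dJ, v, hv, q⟩, AddMonoidHom.id _,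
    { toFun := fun x => (x.1, fun k => x.2 (i₀.succAbove k))
      map_zero' := rfl
      map_add' := fun _ _ => rfl }, AddMonoidHom.id _,
    { toFun := fun x => (x.1, A x.2)
      map_zero' := Prod.ext rfl (map_zero A)
      map_add' := fun x y => Prod.ext rfl (map_add A x.2 y.2) }, ?_, ?_, ?_, ?_⟩
  · simp
  · intro e x; rfl
  · intro e x; rfl
  · intro x hx
    exact Prod.ext rfl (hA x.2 hx)

/-! ### Relabelling -/

instance : Fact (Nat.Prime 3) := ⟨Nat.prime_three⟩

theorem posV_or {n : ℕ} (v : E n) (hv : v ≠ 0) : PosV v ∨ PosV (-v) := by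
  have hne : {i | v i ≠ 0}.Nonempty := by
    by_contra h
    rw [Set.not_nonempty_iff_eq_empty] at h
    apply hv
    funext i
    by_contra hi
    have : i ∈ {i | v i ≠ 0} := hi
    rw [h] at this
    exact this
  obtain ⟨i, hi, hmin⟩ := WellFounded.has_min (wellFounded_lt (α := Fin n)) _ hne
  have hlt : ∀ i' < i, v i' = 0 := by
    intro i' hi'
    by_contra h
    exact hmin i' h hi'
  have h12 : v i = 1 ∨ v i = -1 := by
    have hi' : v i ≠ 0 := hi
    generalize v i = x at hi'
    revert x; decide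
  rcases h12 with h | h
  · exact Or.inl ⟨i, h, hlt⟩
  · exact Or.inr ⟨i, by rw [Pi.neg_apply, h, neg_neg], fun i' hi' => by
      rw [Pi.neg_apply, hlt i' hi', neg_zero]⟩

/-- Make the labels span. -/
theorem norm_span (s : Shape) : ∃ (s' : Shape) (ρ : E s.n →+ E s'.n)
    (φ : s.W →+ s'.W) (ρ' : E s'.n →+ E s.n) (φ' : s'.W →+ s.W),
    Fintype.card s'.J + s'.p = Fintype.card s.J + s.p ∧ Equi s s' ρ φ ∧ Equi s' s ρ' φ' ∧
    (∀ x : s.W, φ' (φ x) = x) ∧ Spanning s'.v := by
  let V : Submodule (ZMod 3) (E s.n) := Submodule.span (ZMod 3) (Set.range s.v)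
  let b := Module.finBasis (ZMod 3) V
  have hmem : ∀ j, s.v j ∈ V := fun j => Submodule.subset_span ⟨j, rfl⟩
  let v' : s.J → E (Module.finrank (ZMod 3) V) := fun j => b.equivFun ⟨s.v j, hmem j⟩
  have hv' : ∀ j, v' j ≠ 0 := by
    intro j h
    have h1 : (⟨s.v j, hmem j⟩ : V) = 0 := by
      apply b.equivFun.injective
      rw [map_zero]; exact h
    exact s.hv j (congrArg Subtype.val h1)
  have hsum : ∀ j, s.v j = ∑ k, v' j k • (b k : E s.n) := by
    intro j
    have h1 := b.sum_equivFun ⟨s.v j, hmem j⟩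
    have h2 := congrArg (Submodule.subtype V) h1
    rw [map_sum] at h2
    simp only [map_smul, Submodule.subtype_apply] at h2
    exact h2.symm
  let B : Matrix (Fin (Module.finrank (ZMod 3) V)) (Fin s.n) (ZMod 3) := fun k => (b k : E s.n)
  have hBli : LinearIndependent (ZMod 3) B.row := by
    have h1 : LinearIndependent (ZMod 3) (fun k => (V.subtype (b k))) :=
      b.linearIndependent.map' V.subtype (Submodule.ker_subtype V)
    exact h1
  have hrank := hBli.rank_matrix
  have hsurj : Function.Surjective B.mulVecLin := by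
    rw [← LinearMap.range_eq_top]
    apply Submodule.eq_top_of_finrank_eq
    rw [Module.finrank_fintype_fun_eq_card]
    exact hrank
  obtain ⟨C, hC⟩ := B.mulVecLin.exists_rightInverse_of_surjective
    (LinearMap.range_eq_top.mpr hsurj)
  have hdot : ∀ j e, dot (v' j) (B.mulVec e) = dot (s.v j) e := by
    intro j e
    rw [dot, dot, hsum j]
    rw [sum_dotProduct]
    simp only [dotProduct, Matrix.mulVec, B, Pi.smul_apply, smul_eq_mul, Finset.mul_sum]
    refine Finset.sum_congr rfl fun k _ => Finset.sum_congr rfl fun i _ => by ring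
  have hBC : ∀ e, B.mulVec (C e) = e := by
    intro e
    have := LinearMap.congr_fun hC e
    exact this
  refine ⟨⟨Module.finrank (ZMod 3) V, s.J, s.fJ, s.dJ, v', hv', s.p⟩, B.mulVecLin.toAddMonoidHom,
    AddMonoidHom.id _, C.toAddMonoidHom, AddMonoidHom.id _, rfl, ?_, ?_, fun _ => rfl, ?_⟩
  · intro e x
    refine Prod.ext (funext fun j => ?_) rfl
    show F4.chi (dot (s.v j) e) * x.1 j = F4.chi (dot (v' j) (B.mulVec e)) * x.1 j
    rw [hdot]
  · intro e x
    refine Prod.ext (funext fun j => ?_) rfl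
    show F4.chi (dot (v' j) e) * x.1 j = F4.chi (dot (s.v j) (C e)) * x.1 j
    rw [← hdot, hBC]
  · show Submodule.span (ZMod 3) (Set.range v') = ⊤
    have h1 : Set.range v' = b.equivFun '' (Set.range fun j => (⟨s.v j, hmem j⟩ : V)) := by
      rw [← Set.range_comp]; rfl
    have h2 : Submodule.span (ZMod 3) (Set.range fun j => (⟨s.v j, hmem j⟩ : V)) = ⊤ :=
      (Submodule.span_range_subtype_eq_top_iff V hmem).mpr rfl
    have h3 := Submodule.map_span b.equivFun.toLinearMap
      (Set.range fun j => (⟨s.v j, hmem j⟩ : V))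
    rw [h2] at h3
    rw [h1]
    refine Eq.trans h3.symm ?_
    rw [Submodule.map_top, LinearMap.range_eq_top]
    exact b.equivFun.surjective

theorem sq_add (x y : F4) : (x + y) ^ 2 = x ^ 2 + y ^ 2 := by revert x y; decide

theorem chi_neg_mul_sq (k : ZMod 3) (x : F4) :
    (F4.chi k * x) ^ 2 = F4.chi (-k) * x ^ 2 := by revert k x; decide

open Classical in
/-- Normalise the signs of the labels (Frobenius on some blocks). -/
theorem norm_sign (s : Shape) (hs : Spanning s.v) : ∃ (s' : Shape) (ρ : E s.n →+ E s'.n)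
    (φ : s.W →+ s'.W) (ρ' : E s'.n →+ E s.n) (φ' : s'.W →+ s.W),
    Fintype.card s'.J + s'.p = Fintype.card s.J + s.p ∧ Equi s s' ρ φ ∧ Equi s' s ρ' φ' ∧
    (∀ x : s.W, φ' (φ x) = x) ∧ Spanning s'.v ∧ ∀ j, PosV (s'.v j) := by
  let v' : s.J → E s.n := fun j => if PosV (s.v j) then s.v j else -s.v j
  have hv' : ∀ j, v' j ≠ 0 := by
    intro j
    by_cases h : PosV (s.v j)
    · simp only [v', if_pos h]; exact s.hv j
    · simp only [v', if_neg h]; exact neg_ne_zero.mpr (s.hv j)
  let A : (s.J → F4) →+ (s.J → F4) :=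
    { toFun := fun x j => if PosV (s.v j) then x j else x j ^ 2
      map_zero' := by
        funext j
        by_cases h : PosV (s.v j)
        · simp [h]
        · simp [h]
      map_add' := by
        intro x y
        funext j
        by_cases h : PosV (s.v j)
        · simp [h]
        · simp [h, sq_add] }
  have hA : ∀ x j, A x j = if PosV (s.v j) then x j else x j ^ 2 := fun _ _ => rfl
  have hAA : ∀ x, A (A x) = x := by
    intro x
    funext j
    rw [hA, hA]
    by_cases h : PosV (s.v j)
    · simp [h]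
    · simp only [if_neg h]
      rw [← pow_mul]; exact F4.pow_four _
  have hE : ∀ (e : E s.n) (x : s.J → F4) (j : s.J),
      A (fun j => F4.chi (dot (s.v j) e) * x j) j = F4.chi (dot (v' j) e) * A x j := by
    intro e x j
    rw [hA, hA]
    by_cases h : PosV (s.v j)
    · simp only [v', if_pos h]
    · simp only [v', if_neg h]
      rw [chi_neg_mul_sq, dot, dot, neg_dotProduct]
  have hE' : ∀ (e : E s.n) (x : s.J → F4) (j : s.J),
      A (fun j => F4.chi (dot (v' j) e) * x j) j = F4.chi (dot (s.v j) e) * A x j := by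
    intro e x j
    rw [hA, hA]
    by_cases h : PosV (s.v j)
    · simp only [v', if_pos h]
    · simp only [v', if_neg h]
      rw [chi_neg_mul_sq, dot, dot, neg_dotProduct, neg_neg]
  refine ⟨⟨s.n, s.J, s.fJ, s.dJ, v', hv', s.p⟩, AddMonoidHom.id _,
    { toFun := fun x => (A x.1, x.2)
      map_zero' := Prod.ext (map_zero A) rfl
      map_add' := fun x y => Prod.ext (map_add A x.1 y.1) rfl }, AddMonoidHom.id _,
    { toFun := fun x => (A x.1, x.2)
      map_zero' := Prod.ext (map_zero A) rfl
      map_add' := fun x y => Prod.ext (map_add A x.1 y.1) rfl }, rfl, ?_, ?_, ?_, ?_, ?_⟩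
  · intro e x
    exact Prod.ext (funext fun j => hE e x.1 j) rfl
  · intro e x
    exact Prod.ext (funext fun j => hE' e x.1 j) rfl
  · intro x
    exact Prod.ext (hAA x.1) rfl
  · show Submodule.span (ZMod 3) (Set.range v') = ⊤
    rw [eq_top_iff, ← (show Submodule.span (ZMod 3) (Set.range s.v) = ⊤ from hs),
      Submodule.span_le]
    rintro _ ⟨j, rfl⟩
    have h1 : v' j ∈ Submodule.span (ZMod 3) (Set.range v') := Submodule.subset_span ⟨j, rfl⟩
    by_cases h : PosV (s.v j)
    · have h2 : v' j = s.v j := by simp only [v', if_pos h]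
      rw [h2] at h1
      exact h1
    · have h2 : v' j = -s.v j := by simp only [v', if_neg h]
      rw [h2] at h1
      exact (Submodule.neg_mem_iff _).mp h1
  · intro j
    show PosV (v' j)
    by_cases h : PosV (s.v j)
    · simp only [v', if_pos h]; exact h
    · simp only [v', if_neg h]
      exact (posV_or (s.v j) (s.hv j)).resolve_left h

end K2

/-- (5.2), first part: a good family is determined by its full support components on spanning
normalised shapes. (Kill blocks / zero coordinates by pullback along the coordinate projections;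
replace `V_n` by the span of the labels; normalise labels by Frobenius.) -/
theorem determined (rk : ℕ → Ordinal.{0}) (X : Set (Finset ℕ)) (D D' : Fam)
    (hD : IsGoodFam rk X D) (hD' : IsGoodFam rk X D')
    (h : ∀ s : Shape, Spanning s.v → (∀ j, PosV (s.v j)) → ∀ a : s.J → ℕ, Exp a →
      ∀ c d, Fcd s a c d ∈ D' s → Fcd s a c d ∈ D s) : ∀ s, D' s ≤ D s := by
  classical
  have key : ∀ N : ℕ, ∀ s : Shape, Fintype.card s.J + s.p = N → D' s ≤ D s := by
    intro N
    induction N using Nat.strong_induction_on with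
    | _ N IH =>
    -- the spanning normalised case
    have main : ∀ s : Shape, Fintype.card s.J + s.p = N → Spanning s.v →
        (∀ j, PosV (s.v j)) → D' s ≤ D s := by
      intro s hN hsp hpos F hF
      have hF0 := hD'.form s F hF
      have e1 : F = ∑ a ∈ Fintype.piFinset (fun _ : s.J => ({1, 2, 3} : Finset ℕ)), comp s a F +
          ∑ c ∈ Finset.univ.filter (fun c : s.W => K2.ZO s c ∧ c ≠ K2.one s),
            (fun y u => F (scal s c y) (scal s c u)) := by
        funext y u
        simp only [Pi.add_apply, Finset.sum_apply]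
        exact K2.ident s F y u
      rw [e1]
      refine Submodule.add_mem _ (Submodule.sum_mem _ fun a ha => ?_)
        (Submodule.sum_mem _ fun c hc => ?_)
      · have hexp : Exp a := by
          intro j
          have h1 := Fintype.mem_piFinset.mp ha j
          simp only [Finset.mem_insert, Finset.mem_singleton] at h1
          omega
        obtain ⟨c, d, hcd⟩ := comp_form s a hexp F hF0.1 hF0.2.1
        have h2 := comp_mem rk X D' hD' s a F hF
        rw [hcd] at h2 ⊢
        exact h s hsp hpos a hexp c d h2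
      · obtain ⟨hZO, hne⟩ := (Finset.mem_filter.mp hc).2
        obtain ⟨ψ, hψ, hψE⟩ := scal_equi s c
        have hcases : (∃ j, c.1 j = 0) ∨ (∃ i, c.2 i = 0) := by
          by_contra hcon
          push Not at hcon
          apply hne
          refine Prod.ext (funext fun j => ?_) (funext fun i => ?_)
          · exact (hZO j).resolve_left (hcon.1 j)
          · have h3 := hcon.2 i
            show c.2 i = 1
            generalize c.2 i = x at h3
            revert x; decide
        have fin : ∀ (s' : Shape) (ρ : E s.n →+ E s'.n) (φ : s.W →+ s'.W)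
            (ρ' : E s'.n →+ E s.n) (φ' : s'.W →+ s.W),
            Fintype.card s'.J + s'.p < Fintype.card s.J + s.p → Equi s s' ρ φ →
            Equi s' s ρ' φ' → (∀ x, φ' (φ (scal s c x)) = scal s c x) →
            (fun y u => F (scal s c y) (scal s c u)) ∈ D s := by
          intro s' ρ φ ρ' φ' hlt hE hE' hid
          have h3 := K2.transfer rk X D D' hD hD' s s' ρ φ hE ρ' φ' hE'
            (IH _ (by omega) s' rfl) F hF
          have h4 := hD.pull s s _ ψ hψE _ h3
          have h5 : (fun y u => F (φ' (φ (ψ y))) (φ' (φ (ψ u)))) =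
              (fun y u => F (scal s c y) (scal s c u)) := by
            funext y u
            rw [hψ, hψ, hid, hid]
          rw [← h5]
          exact h4
        rcases hcases with ⟨j, hj⟩ | ⟨i, hi⟩
        · obtain ⟨s', ρ, φ, ρ', φ', hlt, hE, hE', hid⟩ := K2.step_J s j
          exact fin s' ρ φ ρ' φ' hlt hE hE' fun x => hid _ (by simp [scal, hj])
        · obtain ⟨s', ρ, φ, ρ', φ', hlt, hE, hE', hid⟩ := K2.step_P s i
          exact fin s' ρ φ ρ' φ' hlt hE hE' fun x => hid _ (by simp [scal, hi])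
    intro s hN F hF
    obtain ⟨s₁, ρ₁, φ₁, ρ₁', φ₁', hc₁, hE₁, hE₁', hid₁, hsp₁⟩ := K2.norm_span s
    obtain ⟨s₂, ρ₂, φ₂, ρ₂', φ₂', hc₂, hE₂, hE₂', hid₂, hsp₂, hpos₂⟩ := K2.norm_sign s₁ hsp₁
    have h1 : D' s₁ ≤ D s₁ := by
      intro G hG
      have h3 := K2.transfer rk X D D' hD hD' s₁ s₂ ρ₂ φ₂ hE₂ ρ₂' φ₂' hE₂'
        (main s₂ (by omega) hsp₂ hpos₂) G hG
      have h5 : (fun y u => G (φ₂' (φ₂ y)) (φ₂' (φ₂ u))) = G := by
        funext y u
        rw [hid₂, hid₂]
      rw [← h5]
      exact h3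
    have h3 := K2.transfer rk X D D' hD hD' s s₁ ρ₁ φ₁ hE₁ ρ₁' φ₁' hE₁' h1 F hF
    have h5 : (fun y u => F (φ₁' (φ₁ y)) (φ₁' (φ₁ u))) = F := by
      funext y u
      rw [hid₁, hid₁]
    rw [← h5]
    exact h3
  intro s
  exact key _ s rfl

end Pool.Agent.OH
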