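import Pool.Agent.OH.Defs3

set_option autoImplicit false

namespace Pool.Agent.OH

/-- The `k`-th coordinate as a linear functional. -/
noncomputable def coL {N : ℕ} (k : ℕ) : E N →ₗ[ZMod 3] ZMod 3 :=
  if h : k < N then LinearMap.proj ⟨k, h⟩ else 0

lemma coL_apply {N : ℕ} (k : ℕ) (v : E N) : coL k v = co v k := by
  unfold coL co
  by_cases h : k < N
  · rw [dif_pos h, dif_pos h]; rfl
  · rw [dif_neg h, dif_neg h]; rfl

lemma co_single {N : ℕ} (k : ℕ) (i : Fin N) :
    co (Pi.single i 1 : E N) k = if k = i.1 then 1 else 0 := by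
  unfold co
  by_cases h : k < N
  · rw [dif_pos h]
    by_cases h2 : k = i.1
    · rw [if_pos h2]
      have : (⟨k, h⟩ : Fin N) = i := Fin.ext h2
      rw [this, Pi.single_eq_same]
    · rw [if_neg h2, Pi.single_eq_of_ne]
      intro h3
      exact h2 (congrArg Fin.val h3)
  · rw [dif_neg h, if_neg]
    intro h2
    exact h (h2 ▸ i.2)

lemma co_neg {N : ℕ} (k : ℕ) (v : E N) : co (-v) k = -co v k := by
  rw [← coL_apply, ← coL_apply, map_neg]

/-- Distinct coordinates are linearly independent. -/
lemma coL_linInd {N : ℕ} {X : Type} [Fintype X] [DecidableEq X] (g : X → ℕ)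
    (hg : Function.Injective g) (hN : ∀ x, g x < N) :
    LinearIndependent (ZMod 3) (fun x => (coL (g x) : E N →ₗ[ZMod 3] ZMod 3)) := by
  rw [Fintype.linearIndependent_iff]
  intro c hc x
  have h := LinearMap.congr_fun hc (Pi.single (⟨g x, hN x⟩ : Fin N) 1 : E N)
  rw [LinearMap.sum_apply] at h
  rw [Finset.sum_eq_single x] at h
  · rw [LinearMap.smul_apply, coL_apply, co_single, if_pos rfl, smul_eq_mul, mul_one] at h
    exact h
  · intro y _ hy
    rw [LinearMap.smul_apply, coL_apply, co_single, if_neg, smul_zero]
    intro h2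
    exact hy (hg h2)
  · intro h2; exact absurd (Finset.mem_univ _) h2

lemma lt_mD {D : Finset ℕ} {b : ℕ} (hb : b ∈ D) : b < mD D :=
  lt_of_lt_of_le (Nat.lt_succ_self b) (Finset.le_sup (f := Nat.succ) hb)

/-- The standard pattern is represented. -/
theorem TD_rep (rk : ℕ → Ordinal.{0}) (D : Finset ℕ) (hD : IsDS rk D) : Rep rk D (TD rk D) := by
  classical
  refine ⟨coL 0, fun i => coL (1 + i), fun b => coL (1 + mD D + b), fun _ => ?_, ?_⟩
  · have : Fintype {i // i < mD D} := Fintype.subtype (Finset.range (mD D)) (by simp)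
    have key := coL_linInd (N := ND D)
      (fun x : Unit ⊕ ({i // i < mD D} ⊕ {b // b ∈ D}) =>
        Sum.elim (fun _ => 0) (Sum.elim (fun i => 1 + i.1) (fun b => 1 + mD D + b.1)) x)
      ?_ ?_
    · convert key using 1
      funext x
      rcases x with x | x | x <;> rfl
    · rintro (x | x | x) (y | y | y) h
      · rfl
      · simp only [Sum.elim_inl, Sum.elim_inr] at h; omega
      · simp only [Sum.elim_inl, Sum.elim_inr] at h; omega
      · simp only [Sum.elim_inl, Sum.elim_inr] at h; omega
      · simp only [Sum.elim_inl, Sum.elim_inr] at h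
        have : x = y := Subtype.ext (by omega)
        rw [this]
      · have := x.2; simp only [Sum.elim_inl, Sum.elim_inr] at h; omega
      · simp only [Sum.elim_inl, Sum.elim_inr] at h; omega
      · have := y.2; simp only [Sum.elim_inl, Sum.elim_inr] at h; omega
      · simp only [Sum.elim_inl, Sum.elim_inr] at h
        have : x = y := Subtype.ext (by omega)
        rw [this]
    · rintro (x | x | x)
      · simp only [Sum.elim_inl, ND]; omega
      · have := x.2; simp only [Sum.elim_inl, Sum.elim_inr, ND]; omega
      · have := lt_mD x.2; simp only [Sum.elim_inr, ND]; omega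
  · simp only [coL_apply]; rfl

/-- The complement of the standard pattern spans. -/
theorem TD_span (rk : ℕ → Ordinal.{0}) (D : Finset ℕ) (hne : D.Nonempty) :
    Submodule.span (ZMod 3) {v : E (ND D) | v ≠ 0 ∧ v ∉ TD rk D} = ⊤ := by
  classical
  rw [eq_top_iff]
  rintro v -
  rw [← Finset.univ_sum_single v]
  refine Submodule.sum_mem _ fun i _ => ?_
  have h1 : (Pi.single i (v i) : E (ND D)) = v i • (Pi.single i 1 : E (ND D)) := by
    rw [← Pi.single_smul, smul_eq_mul, mul_one]
  rw [h1]
  refine Submodule.smul_mem _ _ (Submodule.subset_span ⟨?_, ?_⟩)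
  · intro h
    have := congrFun h i
    rw [Pi.single_eq_same, Pi.zero_apply] at this
    exact absurd this (by decide)
  · rintro (h | h)
    · obtain ⟨h0, a, ha, -, h2, -⟩ := h
      simp only [co_single] at h0 h2
      have h3 : (0:ℕ) = i.1 := by
        by_contra h; rw [if_neg h] at h0; exact absurd h0 (by decide)
      have h4 : 1 + a = i.1 := by
        by_contra h; rw [if_neg h] at h2; exact absurd h2 (by decide)
      omega
    · obtain ⟨h0, -⟩ := h
      simp only [co_neg, co_single] at h0
      split_ifs at h0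
      · exact absurd h0 (by decide)
      · exact absurd h0 (by decide)

end Pool.Agent.OH
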