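import Pool.Agent.OH.P1
import Pool.Agent.OH.P4

set_option autoImplicit false

namespace Pool.Agent.OH

section K3aux

lemma K3_exists_dot {n : ℕ} {v : E n} (hv : v ≠ 0) (k : ZMod 3) : ∃ e : E n, dot v e = k := by
  obtain ⟨i, hi⟩ := Function.ne_iff.mp hv
  have hi' : v i ≠ 0 := hi
  refine ⟨Pi.single i ((v i)⁻¹ * k), ?_⟩
  rw [dot, dotProduct_single, ← mul_assoc, mul_inv_cancel₀ hi', one_mul]

lemma K3_exists_sep {n : ℕ} {v b : E n} (hv : v ≠ 0) (h : ∀ c : ZMod 3, b ≠ c • v) :
    ∃ e : E n, dot v e = 0 ∧ dot b e ≠ 0 := by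
  obtain ⟨i, hi⟩ := Function.ne_iff.mp hv
  have hi' : v i ≠ 0 := hi
  have h1 : ∃ j, b j * v i ≠ v j * b i := by
    by_contra hcon
    push Not at hcon
    apply h (b i * (v i)⁻¹)
    funext j
    rw [Pi.smul_apply, smul_eq_mul, mul_right_comm]
    rw [eq_mul_inv_iff_mul_eq₀ hi', hcon j, mul_comm]
  obtain ⟨j, hj⟩ := h1
  refine ⟨Pi.single j (v i) - Pi.single i (v j), ?_, ?_⟩
  · rw [dot, dotProduct_sub, dotProduct_single, dotProduct_single, mul_comm, sub_self]
  · rw [dot, dotProduct_sub, dotProduct_single, dotProduct_single, sub_ne_zero]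
    rw [mul_comm (b i)]
    exact hj

lemma K3_chi_eq_one {k : ZMod 3} (h : F4.chi k = 1) : k = 0 := by revert k; decide

lemma K3_sum3 (y : F4) : y + (F4.ω * y + F4.ω * (F4.ω * y)) = 0 := by revert y; decide

lemma K3_triple {M : Type} [AddCommGroup M] (hM : ∀ m : M, m + m = 0) (h : F4 →+ M)
    (hh : ∀ y, h (F4.ω * y) = h y) : h = 0 := by
  ext y
  have h1 := congrArg h (K3_sum3 y)
  rw [map_add, map_add, hh, hh, hh, map_zero] at h1
  rw [hM, add_zero] at h1
  exact h1

/-- A block whose label is not `± b` does not occur. -/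
lemma K3_block_zero {n : ℕ} {v b : E n} (hv : v ≠ 0) (h : F4 →+ F4)
    (hh : ∀ e y, h (F4.chi (dot v e) * y) = F4.chi (dot b e) * h y)
    (hne : b = 0 ∨ (v ≠ b ∧ v ≠ -b)) : h = 0 := by
  by_cases hb : b = 0
  · obtain ⟨e, he⟩ := K3_exists_dot hv 1
    apply K3_triple F4.add_self
    intro y
    have := hh e y
    rw [he, hb, dot, zero_dotProduct, F4.chi_zero, one_mul] at this
    exact this
  · have hne' := hne.resolve_left hb
    obtain ⟨e, he1, he2⟩ := K3_exists_sep (v := v) (b := b) hv (by
      intro c hc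
      have h3 : ∀ c : ZMod 3, c = 0 ∨ c = 1 ∨ c = -1 := by decide
      rcases h3 c with rfl | rfl | rfl
      · rw [zero_smul] at hc; exact hb hc
      · rw [one_smul] at hc; exact hne'.1 hc.symm
      · rw [neg_one_smul] at hc; exact hne'.2 (by rw [hc, neg_neg]))
    ext1 y
    have h4 := hh e y
    rw [he1, F4.chi_zero, one_mul] at h4
    by_contra h5
    apply he2
    apply K3_chi_eq_one
    have h6 : h y ≠ 0 := h5
    have h7 : F4.chi (dot b e) * h y = 1 * h y := by rw [one_mul]; exact h4.symm
    exact mul_right_cancel₀ h6 h7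

variable {s : Shape}

/-- The embedding of a block. -/
def K3_io (s : Shape) (B : s.J) : F4 →+ s.W where
  toFun y := (Pi.single B y, 0)
  map_zero' := by rw [Pi.single_zero]; rfl
  map_add' y y' := by rw [Pi.single_add]; simp

lemma K3_io_apply (B : s.J) (y : F4) : K3_io s B y = (Pi.single B y, 0) := rfl

lemma K3_io_ne (B : s.J) (y : F4) {j : s.J} (hj : j ≠ B) : (K3_io s B y).1 j = 0 := by
  rw [K3_io_apply]; exact Pi.single_eq_of_ne hj _

lemma K3_io_self (B : s.J) (y : F4) : (K3_io s B y).1 B = y := by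
  rw [K3_io_apply]; exact Pi.single_eq_same _ _

lemma K3_sact_io (B : s.J) (e : E s.n) (y : F4) :
    sact s e (K3_io s B y) = K3_io s B (F4.chi (dot (s.v B) e) * y) := by
  rw [K3_io_apply, K3_io_apply]
  unfold sact
  refine Prod.ext ?_ rfl
  funext j
  by_cases hj : j = B
  · subst hj; simp
  · simp [hj]

lemma K3_decomp {M : Type} [AddCommGroup M] (g : s.W →+ M) (u : s.W) :
    g u = ∑ B, g (K3_io s B (u.1 B)) + g (0, u.2) := by
  rw [← map_sum, ← map_add]
  congr 1
  refine Prod.ext ?_ ?_
  · rw [Prod.fst_add, Prod.fst_sum]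
    funext j
    simp only [K3_io_apply, Pi.add_apply, Finset.sum_apply, Pi.zero_apply, add_zero]
    rw [Finset.sum_eq_single j]
    · simp
    · intro B _ hB; simp [Pi.single_eq_of_ne hB.symm]
    · simp
  · rw [Prod.snd_add, Prod.snd_sum]
    simp [K3_io_apply]

/-- Scaling of the blocks by roots of unity. -/
def K3_g (s : Shape) (k : s.J → ZMod 3) (u : s.W) : s.W := (fun j => F4.chi (k j) * u.1 j, u.2)

lemma K3_g_g (k : s.J → ZMod 3) (u : s.W) : K3_g s (-k) (K3_g s k u) = u := by
  unfold K3_g
  refine Prod.ext ?_ rfl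
  funext j
  change F4.chi (-k j) * (F4.chi (k j) * u.1 j) = u.1 j
  rw [← mul_assoc, ← F4.chi_add, neg_add_cancel, F4.chi_zero, one_mul]

/-- The scaling as a permutation. -/
def K3_gE (s : Shape) (k : s.J → ZMod 3) : s.W ≃ s.W where
  toFun := K3_g s k
  invFun := K3_g s (-k)
  left_inv := K3_g_g k
  right_inv u := by
    have := K3_g_g (-k) u
    rwa [neg_neg] at this

lemma K3_chi_sum {J : Type} (S : Finset J) (k : J → ZMod 3) :
    F4.chi (∑ j ∈ S, k j) = ∏ j ∈ S, F4.chi (k j) := by
  classical
  induction S using Finset.induction_on with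
  | empty => simp [F4.chi_zero]
  | insert a S ha ih => rw [Finset.sum_insert ha, Finset.prod_insert ha, F4.chi_add, ih]

lemma K3_chi_pow (k : ZMod 3) (m : ℕ) : F4.chi k ^ m = F4.chi (m * k) := by
  induction m with
  | zero => simp [F4.chi_zero]
  | succ m ih => rw [pow_succ, ih, ← F4.chi_add]; congr 1; push_cast; ring

open Classical in
lemma K3_scal (a : s.J → ℕ) (ha : Exp a) (Q : Finset (Fin s.p)) (f : s.W → F4)
    (k : s.J → ZMod 3) (hf : ∀ u, f (K3_g s k u) = f u) (hc : cfQ s a Q f ≠ 0) :
    ∑ j, k j * (a j : ZMod 3) = 0 := by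
  have h1 : cfQ s a Q f = F4.chi (∑ j, ((3 - a j : ℕ) : ZMod 3) * k j) * cfQ s a Q f := by
    conv_lhs => unfold cfQ
    unfold cfQ
    rw [Finset.mul_sum]
    refine (Finset.sum_equiv (K3_gE s k) ?_ ?_).symm
    · intro c
      simp only [Finset.mem_filter, Finset.mem_univ, true_and]
      rfl
    · intro c _
      change _ = (∏ j, (F4.chi (k j) * c.1 j) ^ (3 - a j)) * f (K3_g s k c)
      rw [hf, K3_chi_sum]
      simp only [mul_pow, Finset.prod_mul_distrib, K3_chi_pow]
      ring
  have h2 : F4.chi (∑ j, ((3 - a j : ℕ) : ZMod 3) * k j) = 1 := by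
    have h3 : F4.chi (∑ j, ((3 - a j : ℕ) : ZMod 3) * k j) * cfQ s a Q f = 1 * cfQ s a Q f := by
      rw [one_mul]; exact h1.symm
    exact mul_right_cancel₀ hc h3
  have h3 := K3_chi_eq_one h2
  have h4 : ∑ j, k j * (a j : ZMod 3) = - ∑ j, ((3 - a j : ℕ) : ZMod 3) * k j := by
    rw [← Finset.sum_neg_distrib]
    refine Finset.sum_congr rfl fun j _ => ?_
    rw [Nat.cast_sub (ha j).2]
    have : ((3 : ℕ) : ZMod 3) = 0 := by decide
    rw [this]
    ring
  rw [h4, h3, neg_zero]

open Classical in
/-- Every block is involved in a function with a monomial of full support. -/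
lemma K3_involved (a : s.J → ℕ) (ha : Exp a) (Q : Finset (Fin s.p)) (f : s.W → F4) (B : s.J)
    (hf : ∀ u u' : s.W, (∀ j, j ≠ B → u.1 j = u'.1 j) → u.2 = u'.2 → f u = f u') :
    cfQ s a Q f = 0 := by
  by_contra hc
  have h1 := K3_scal a ha Q f (Pi.single B 1) (by
    intro u
    apply hf
    · intro j hj
      change F4.chi ((Pi.single B 1 : s.J → ZMod 3) j) * u.1 j = u.1 j
      rw [Pi.single_eq_of_ne hj, F4.chi_zero, one_mul]
    · rfl) hc
  rw [Finset.sum_eq_single B] at h1
  · rw [Pi.single_eq_same, one_mul] at h1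
    have ha3 : a B = 3 := by
      have h2 := ha B
      have h3 : a B = 1 ∨ a B = 2 ∨ a B = 3 := by omega
      rcases h3 with h3 | h3 | h3
      · rw [h3] at h1; exact absurd h1 (by decide)
      · rw [h3] at h1; exact absurd h1 (by decide)
      · exact h3
    apply hc
    unfold cfQ
    refine Finset.sum_involution (fun c _ => c + K3_io s B 1) ?_ ?_ ?_ ?_
    · intro c _
      have e1 : f (c + K3_io s B 1) = f c := by
        apply hf
        · intro j hj
          rw [Prod.fst_add, Pi.add_apply, K3_io_ne B 1 hj, add_zero]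
        · rw [Prod.snd_add, K3_io_apply, add_zero]
      have e2 : ∏ j, (c + K3_io s B 1).1 j ^ (3 - a j) = ∏ j, c.1 j ^ (3 - a j) := by
        refine Finset.prod_congr rfl fun j _ => ?_
        by_cases hj : j = B
        · subst hj; rw [ha3]; simp
        · rw [Prod.fst_add, Pi.add_apply, K3_io_ne B 1 hj, add_zero]
      rw [e1, e2]
      exact F4.add_self _
    · intro c _ _ h
      have h2 := congrArg (fun x : s.W => x.1 B) h
      simp only [Prod.fst_add, K3_io_apply, Pi.add_apply, Pi.single_eq_same] at h2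
      exact absurd (add_eq_left.mp h2) one_ne_zero
    · intro c hcm
      simp only [Finset.mem_filter, Finset.mem_univ, true_and] at hcm ⊢
      intro i hi
      rw [Prod.snd_add, K3_io_apply, add_zero]
      exact hcm i hi
    · intro c _
      rw [add_assoc, ← map_add, F4.add_self, map_zero, add_zero]
  · intro j _ hj
    rw [Pi.single_eq_of_ne hj, zero_mul]
  · simp

/-- The transpose of `ρ`. -/
noncomputable def K3_psi {n m : ℕ} (ρ : E n →+ E m) : E m →ₗ[ZMod 3] E n where
  toFun v := fun i => dot v (ρ (Pi.single i 1))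
  map_add' v v' := by funext i; simp only [dot, add_dotProduct, Pi.add_apply]
  map_smul' c v := by
    funext i
    simp only [dot, smul_dotProduct, Pi.smul_apply, RingHom.id_apply]

lemma K3_psi_dot {n m : ℕ} (ρ : E n →+ E m) (v : E m) (e : E n) :
    dot (K3_psi ρ v) e = dot v (ρ e) := by
  have h1 : ρ e = ∑ i, e i • ρ (Pi.single i 1) := by
    conv_lhs => rw [← Finset.univ_sum_single e]
    rw [map_sum]
    refine Finset.sum_congr rfl fun i _ => ?_
    have h2 : (Pi.single i (e i) : E n) = e i • (Pi.single i 1 : E n) := by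
      rw [← Pi.single_smul, smul_eq_mul, mul_one]
    rw [h2, ← AddMonoidHom.coe_toZModLinearMap 3 ρ, map_smul]
  rw [h1, dot, dot, dotProduct_sum]
  simp only [dotProduct_smul, smul_eq_mul]
  rw [dotProduct]
  refine Finset.sum_congr rfl fun i _ => ?_
  rw [mul_comm]
  rfl

lemma K3_cfQ_add (a : s.J → ℕ) (Q : Finset (Fin s.p)) (f g : s.W → F4) :
    cfQ s a Q (f + g) = cfQ s a Q f + cfQ s a Q g := by
  unfold cfQ
  rw [← Finset.sum_add_distrib]
  refine Finset.sum_congr rfl fun c _ => ?_
  rw [Pi.add_apply, mul_add]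

lemma K3_cfQ_smul (a : s.J → ℕ) (Q : Finset (Fin s.p)) (r : F4) (f : s.W → F4) :
    cfQ s a Q (r • f) = r * cfQ s a Q f := by
  unfold cfQ
  rw [Finset.mul_sum]
  refine Finset.sum_congr rfl fun c _ => ?_
  rw [Pi.smul_apply, smul_eq_mul]
  ring

lemma K3_gen (rk : ℕ → Ordinal.{0}) (X : Set (Finset ℕ)) (a : s.J → ℕ)
    (Q : Finset (Fin s.p)) (f : s.W → F4) (hf : f ∈ DX rk X s) (hc : cfQ s a Q f ≠ 0) :
    ∃ D ∈ X, ∃ (ρ : E s.n →+ E (ND D)) (φ : s.W →+ (shapeD rk D).W),
      (∀ e x, φ (sact s e x) = sact (shapeD rk D) (ρ e) (φ x)) ∧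
        cfQ s a Q (fun x => lamD rk D (φ x)) ≠ 0 := by
  by_contra hcon
  apply hc
  have key : ∀ g ∈ DX rk X s, cfQ s a Q g = 0 := by
    intro g hg
    unfold DX DXgen at hg
    induction hg using Submodule.span_induction with
    | mem g hg =>
      obtain ⟨D, hD, ρ, φ, h1, rfl⟩ := hg
      by_contra h2
      exact hcon ⟨D, hD, ρ, φ, h1, h2⟩
    | zero => unfold cfQ; simp
    | add g h _ _ hg hh => rw [K3_cfQ_add, hg, hh, add_zero]
    | smul r g _ hg => rw [K3_cfQ_smul, hg, mul_zero]
  exact key f hf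

end K3aux

/-- (4.1) -/
theorem occ (rk : ℕ → Ordinal.{0}) (hrk : Function.Injective rk) (X : Set (Finset ℕ))
    (hX : ∀ D ∈ X, IsDS rk D) (s : Shape) (hs : Spanning s.v) (a : s.J → ℕ) (ha : Exp a)
    (Q : Finset (Fin s.p)) (f : s.W → F4) (hf : f ∈ DX rk X s) (hc : cfQ s a Q f ≠ 0) :
    Q.Nonempty ∧ Residue s.v a ∧ ∃ D ∈ X, ∃ D' ⊆ D, IsDS rk D' ∧ Rep rk D' (Tset s.v) := by
  classical
  obtain ⟨D, hD, ρ, φ, hφ, hc'⟩ := K3_gen rk X a Q f hf hc
  -- the components of `φ`
  obtain ⟨φ0, hφ0⟩ : ∃ φ0 : s.W →+ ZMod 2, ∀ x, φ0 x = (φ x).2 ⟨0, Nat.one_pos⟩ :=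
    ⟨(Pi.evalAddMonoidHom (fun _ : Fin (shapeD rk D).p => ZMod 2) ⟨0, Nat.one_pos⟩).comp
      ((AddMonoidHom.snd _ _).comp φ), fun _ => rfl⟩
  obtain ⟨φj, hφj⟩ : ∃ φj : (shapeD rk D).J → (s.W →+ F4), ∀ j x, φj j x = (φ x).1 j :=
    ⟨fun j => (Pi.evalAddMonoidHom (fun _ : (shapeD rk D).J => F4) j).comp
      ((AddMonoidHom.fst _ _).comp φ), fun _ _ => rfl⟩
  obtain ⟨vD, hvD⟩ : ∃ vD : (shapeD rk D).J → E (ND D), ∀ j, vD j = (shapeD rk D).v j :=
    ⟨fun j => (shapeD rk D).v j, fun _ => rfl⟩
  have hlam : ∀ x, lamD rk D (φ x) = F4.c2 (φ0 x) * ∏ j, φj j x ^ 3 := by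
    intro x
    unfold lamD
    rw [hφ0]
    congr 1
    refine Finset.prod_congr rfl fun j _ => ?_
    rw [hφj]
  set ψ : E (ND D) →ₗ[ZMod 3] E s.n := K3_psi ρ with hψ
  have hact0 : ∀ e x, φ0 (sact s e x) = φ0 x := by
    intro e x
    rw [hφ0, hφ, hφ0]; rfl
  have hactj : ∀ j e x, φj j (sact s e x) = F4.chi (dot (ψ (vD j)) e) * φj j x := by
    intro j e x
    rw [hφj, hφ, hφj, hψ, K3_psi_dot, hvD]; rfl
  -- blocks
  have hblk : ∀ j B e y, (φj j).comp (K3_io s B) (F4.chi (dot (s.v B) e) * y) =
      F4.chi (dot (ψ (vD j)) e) * (φj j).comp (K3_io s B) y := by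
    intro j B e y
    rw [AddMonoidHom.comp_apply, AddMonoidHom.comp_apply, ← K3_sact_io, hactj]
  have hblk0 : ∀ B, φ0.comp (K3_io s B) = 0 := by
    intro B
    obtain ⟨e, he⟩ := K3_exists_dot (s.hv B) 1
    apply K3_triple zmod2_add_self
    intro y
    rw [AddMonoidHom.comp_apply, AddMonoidHom.comp_apply]
    have h1 : F4.ω = F4.chi (dot (s.v B) e) := by rw [he]; decide
    rw [h1, ← K3_sact_io, hact0]
  have hφ0' : ∀ x, φ0 x = φ0 (0, x.2) := by
    intro x
    rw [K3_decomp φ0 x]
    rw [Finset.sum_eq_zero, zero_add]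
    intro B _
    exact DFunLike.congr_fun (hblk0 B) _
  have hzero : ∀ j B, (ψ (vD j) = 0 ∨
      (s.v B ≠ ψ (vD j) ∧ s.v B ≠ -ψ (vD j))) →
      ∀ y, φj j (K3_io s B y) = 0 := by
    intro j B hB y
    exact DFunLike.congr_fun (K3_block_zero (s.hv B) _ (hblk j B) hB) y
  have htriv : ∀ j, ψ (vD j) ≠ 0 → ∀ z, φj j (0, z) = 0 := by
    intro j hj z
    obtain ⟨e, he⟩ := K3_exists_dot hj 1
    have h1 := hactj j e (0, z)
    have h2 : sact s e (0, z) = (0, z) := by
      unfold sact
      refine Prod.ext ?_ rfl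
      funext k
      change F4.chi _ * (0 : F4) = 0
      rw [mul_zero]
    rw [h2, he] at h1
    by_contra h3
    have h4 : (1 : F4) * φj j (0, z) = F4.chi 1 * φj j (0, z) := by rw [one_mul]; exact h1
    have h5 := mul_right_cancel₀ h3 h4
    exact absurd h5 (by decide)
  -- every block is involved
  have hinv : ∀ B, ∃ j, s.v B = ψ (vD j) ∨ s.v B = -ψ (vD j) := by
    intro B
    by_contra hcon
    push Not at hcon
    apply hc'
    apply K3_involved a ha Q _ B
    intro u u' h1 h2
    rw [hlam, hlam, hφ0' u, hφ0' u', h2]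
    congr 1
    refine Finset.prod_congr rfl fun j _ => ?_
    congr 1
    rw [K3_decomp (φj j) u, K3_decomp (φj j) u', h2]
    congr 1
    refine Finset.sum_congr rfl fun C _ => ?_
    by_cases hC : C = B
    · subst hC
      rw [hzero j C (Or.inr (hcon j)), hzero j C (Or.inr (hcon j))]
    · rw [h1 C hC]
  have hne : ∃ c : s.W, (∀ i, i ∉ Q → c.2 i = 0) ∧ lamD rk D (φ c) ≠ 0 := by
    by_contra hcon
    push Not at hcon
    apply hc'
    unfold cfQ
    refine Finset.sum_eq_zero fun c hcm => ?_
    simp only [Finset.mem_filter, Finset.mem_univ, true_and] at hcm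
    change (∏ j, c.1 j ^ (3 - a j)) * lamD rk D (φ c) = 0
    rw [hcon c hcm, mul_zero]
  obtain ⟨c, hcQ, hcne⟩ := hne
  rw [hlam] at hcne
  have hc0 : φ0 c ≠ 0 := fun h => hcne (by rw [h, map_zero, zero_mul])
  have hcj : ∀ j, φj j c ≠ 0 := by
    intro j h
    apply hcne
    rw [Finset.prod_eq_zero (Finset.mem_univ j) (by rw [h]; simp), mul_zero]
  have hTneg : ∀ v, v ∈ TD rk D → -v ∈ TD rk D := by
    rintro v (h | h)
    · right; rwa [neg_neg]
    · left; exact h
  have hT0 : (0 : E (ND D)) ∉ TD rk D := by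
    have hco : co (0 : E (ND D)) 0 = 0 := by
      unfold co
      split_ifs <;> rfl
    rintro (h | h)
    · have h1 : co (0 : E (ND D)) 0 = 1 := h.1
      rw [hco] at h1
      exact absurd h1 (by decide)
    · rw [neg_zero] at h
      have h1 : co (0 : E (ND D)) 0 = 1 := h.1
      rw [hco] at h1
      exact absurd h1 (by decide)
  have hTs : Tset s.v = {x : E s.n | ∀ v, ψ v = x → v ∈ TD rk D} := by
    ext x
    constructor
    · rintro ⟨hx0, hx⟩ v hv
      by_contra hvT
      have hv0 : v ≠ 0 := by
        rintro rfl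
        rw [map_zero] at hv
        exact hx0 hv.symm
      let j : (shapeD rk D).J := ⟨v, hv0, hvT⟩
      have hj : ψ (vD j) = x := by rw [hvD]; exact hv
      apply hcj j
      rw [K3_decomp (φj j) c, htriv j (by rw [hj]; exact hx0), add_zero]
      refine Finset.sum_eq_zero fun B _ => ?_
      apply hzero
      right
      rw [hj]
      exact hx B
    · intro hx
      refine ⟨?_, fun B => ?_⟩
      · rintro rfl
        exact hT0 (hx 0 (map_zero _))
      · obtain ⟨j, hj⟩ := hinv B
        have hjT : vD j ∉ TD rk D := by rw [hvD]; exact j.2.2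
        have hjT' : -(vD j) ∉ TD rk D := fun h => hjT (by
          have := hTneg _ h
          rwa [neg_neg] at this)
        constructor
        · rintro rfl
          rcases hj with hj | hj
          · exact hjT (hx _ hj.symm)
          · exact hjT' (hx _ (by rw [map_neg, hj]))
        · intro h
          rcases hj with hj | hj
          · exact hjT' (hx _ (by rw [map_neg, ← hj, h, neg_neg]))
          · exact hjT (hx _ (by rw [← neg_neg (ψ _), ← hj, h, neg_neg]))
  have hsurj : Function.Surjective ψ := by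
    rw [← LinearMap.range_eq_top, eq_top_iff, ← hs, Submodule.span_le]
    rintro _ ⟨B, rfl⟩
    obtain ⟨j, hj | hj⟩ := hinv B
    · exact ⟨_, hj.symm⟩
    · exact ⟨-(vD j), by rw [map_neg, hj]⟩
  refine ⟨?_, ?_, D, hD, ?_⟩
  · rw [Finset.nonempty_iff_ne_empty]
    rintro rfl
    apply hc0
    rw [hφ0' c]
    have : c.2 = 0 := by
      funext i
      exact hcQ i (by simp)
    rw [this]
    exact map_zero _
  · intro x hx
    have hxx : x ≠ -x := by
      intro h
      apply hx
      funext i
      have h2 := congrFun h i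
      rw [Pi.neg_apply] at h2
      change x i = 0
      revert h2
      generalize x i = t
      revert t; decide
    let k : s.J → ZMod 3 := fun j => if s.v j = x then 1 else if s.v j = -x then -1 else 0
    have h1 := K3_scal a ha Q (fun x => lamD rk D (φ x)) k (by
      intro u
      change lamD rk D (φ (K3_g s k u)) = lamD rk D (φ u)
      rw [hlam, hlam]
      congr 1
      · rw [hφ0' (K3_g s k u), hφ0' u]; rfl
      · refine Finset.prod_congr rfl fun j _ => ?_
        -- the scaling factor of `φ_j`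
        set b := ψ (vD j) with hb
        let κ : ZMod 3 := if b = x then 1 else if b = -x then -1 else 0
        have h2 : φj j (K3_g s k u) = F4.chi κ * φj j u := by
          rw [K3_decomp (φj j) (K3_g s k u), K3_decomp (φj j) u, mul_add, Finset.mul_sum]
          congr 1
          · refine Finset.sum_congr rfl fun B _ => ?_
            change φj j (K3_io s B (F4.chi (k B) * u.1 B)) = _
            by_cases hz : b = 0 ∨ (s.v B ≠ b ∧ s.v B ≠ -b)
            · rw [hzero j B hz, hzero j B hz, mul_zero]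
            · push Not at hz
              obtain ⟨hb0, hz⟩ := hz
              obtain ⟨e, he⟩ := K3_exists_dot (s.hv B) (k B)
              have h3 := hblk j B e (u.1 B)
              rw [AddMonoidHom.comp_apply, AddMonoidHom.comp_apply, he, ← hb] at h3
              rw [h3]
              congr 2
              by_cases h4 : s.v B = b
              · have h5 : dot b e = k B := by rw [← h4, he]
                rw [h5]
                change (if s.v B = x then (1 : ZMod 3) else if s.v B = -x then -1 else 0) =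
                  (if b = x then 1 else if b = -x then -1 else 0)
                rw [h4]
              · have h5 : s.v B = -b := hz h4
                have h6 : dot b e = - k B := by
                  rw [← he, h5]
                  exact (by rw [neg_dotProduct, neg_neg] : b ⬝ᵥ e = - (-b ⬝ᵥ e))
                rw [h6]
                change -(if s.v B = x then (1 : ZMod 3) else if s.v B = -x then -1 else 0) =
                  (if b = x then 1 else if b = -x then -1 else 0)
                rw [h5]
                by_cases h7 : b = x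
                · have h8 : ¬ (-b = x) := by rw [h7]; exact fun h => hxx h.symm
                  rw [if_neg h8, if_pos (by rw [h7]), if_pos h7, neg_neg]
                · by_cases h8 : b = -x
                  · rw [if_pos (by rw [h8, neg_neg]), if_neg h7, if_pos h8]
                  · have h9 : ¬ (-b = x) := fun h => h8 (by rw [← h, neg_neg])
                    have h10 : ¬ (-b = -x) := fun h => h7 (neg_injective h)
                    rw [if_neg h9, if_neg h10, if_neg h7, if_neg h8, neg_zero]
          · by_cases hb0 : b = 0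
            · have hκ : κ = 0 := by
                have h7 : ¬ (b = x) := by rw [hb0]; exact fun h => hx h.symm
                have h8 : ¬ (b = -x) := by
                  rw [hb0]
                  intro h
                  apply hx
                  rw [← neg_neg x, ← h, neg_zero]
                change (if b = x then (1 : ZMod 3) else if b = -x then -1 else 0) = 0
                rw [if_neg h7, if_neg h8]
              rw [hκ, F4.chi_zero, one_mul]
              rfl
            · rw [htriv j hb0, htriv j hb0, mul_zero]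
        rw [h2, mul_pow, F4.chi_cube, one_mul]) hc'
    have h2 : ∀ j, k j * (a j : ZMod 3) = (if s.v j = x then (a j : ZMod 3) else 0) -
        (if s.v j = -x then (a j : ZMod 3) else 0) := by
      intro j
      change (if s.v j = x then (1 : ZMod 3) else if s.v j = -x then -1 else 0) * _ = _
      by_cases h3 : s.v j = x
      · have h4 : ¬ (s.v j = -x) := by rw [h3]; exact hxx
        rw [if_pos h3, if_pos h3, if_neg h4, one_mul, sub_zero]
      · by_cases h4 : s.v j = -x
        · rw [if_neg h3, if_neg h3, if_pos h4, if_pos h4]; ring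
        · rw [if_neg h3, if_neg h3, if_neg h4, if_neg h4]; ring
    rw [Finset.sum_congr rfl (fun j _ => h2 j), Finset.sum_sub_distrib, sub_eq_zero] at h1
    rw [Finset.sum_filter, Finset.sum_filter]
    exact h1
  · rw [hTs]
    exact rep_image rk hrk D (hX D hD) ψ hsurj _ (TD_rep rk D (hX D hD))

end Pool.Agent.OH
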