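import Pool.Agent.OH.K1

set_option autoImplicit false

namespace Pool.Agent.OH

private theorem K4_pow_red (x : F4) (q : ℕ) : x ^ (3 * (q + 1)) = x ^ 3 := by
  induction q with
  | zero => rfl
  | succ q ih =>
    have h : 3 * (q + 1 + 1) = 3 * (q + 1) + 3 := by ring
    rw [h, pow_add, ih]
    clear ih h
    revert x
    decide

private theorem K4_sum_pow (m : ℕ) (h0 : 0 < m) (h3 : 3 ∣ m) : ∑ x : F4, x ^ m = 1 := by
  obtain ⟨q, rfl⟩ := h3
  obtain ⟨q, rfl⟩ : ∃ r, q = r + 1 := ⟨q - 1, by omega⟩
  simp only [K4_pow_red]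
  decide

private theorem K4_posV_ne_zero {n : ℕ} {x : E n} (h : PosV x) : x ≠ 0 := by
  rintro rfl
  obtain ⟨i, hi, -⟩ := h
  exact absurd hi (by simp)

private theorem K4_posV_neg {n : ℕ} {x : E n} (h : PosV x) : ¬ PosV (-x) := by
  rintro ⟨k, hk, hk'⟩
  obtain ⟨i, hi, hi'⟩ := h
  rcases lt_trichotomy i k with h | h | h
  · have := hk' i h
    rw [Pi.neg_apply, hi] at this
    exact absurd this (by decide)
  · subst h
    rw [Pi.neg_apply, hi] at hk
    exact absurd hk (by decide)
  · have := hi' k h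
    rw [Pi.neg_apply, this] at hk
    exact absurd hk (by decide)

open Classical in
private theorem K4_residue {n : ℕ} {J : Type} [Fintype J] (v : J → E n) (a : J → ℕ)
    (hv : ∀ j, PosV (v j)) (hra : Residue v a) (x : E n) (hx : PosV x) :
    ∑ j ∈ Finset.univ.filter (fun j => v j = x), (a j : ZMod 3) = 0 := by
  rw [hra x (K4_posV_ne_zero hx)]
  refine Finset.sum_eq_zero fun j hj => ?_
  rw [Finset.mem_filter] at hj
  exact absurd (hj.2 ▸ hv j) (K4_posV_neg hx)

open Classical in
/-- An injection matching labels and exponents. -/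
private theorem K4_inj {n : ℕ} {J J' : Type} [Fintype J] [Fintype J'] (v : J → E n) (a : J → ℕ)
    (v' : J' → E n) (b : J' → ℕ)
    (hcount : ∀ (x : E n) (k : ℕ), (Finset.univ.filter (fun i => v i = x ∧ a i = k)).card ≤
      (Finset.univ.filter (fun j => v' j = x ∧ b j = k)).card) :
    ∃ f : J → J', Function.Injective f ∧ (∀ i, v' (f i) = v i) ∧ ∀ i, b (f i) = a i := by
  have hne : ∀ (x : E n) (k : ℕ),
      Nonempty ({i // v i = x ∧ a i = k} ↪ {j // v' j = x ∧ b j = k}) := by
    intro x k
    refine Function.Embedding.nonempty_of_card_le ?_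
    rw [Fintype.card_subtype, Fintype.card_subtype]
    exact hcount x k
  let emb : ∀ (x : E n) (k : ℕ), {i // v i = x ∧ a i = k} ↪ {j // v' j = x ∧ b j = k} :=
    fun x k => (hne x k).some
  refine ⟨fun i => (emb (v i) (a i) ⟨i, rfl, rfl⟩).1, ?_, ?_, ?_⟩
  · intro i i' h
    have key : ∀ (x : E n) (k : ℕ) (h : v i = x ∧ a i = k),
        (emb (v i) (a i) ⟨i, rfl, rfl⟩).1 = (emb x k ⟨i, h⟩).1 := by
      rintro _ _ ⟨rfl, rfl⟩
      rfl
    have h1 : v i = v i' := by
      have e1 := (emb (v i) (a i) ⟨i, rfl, rfl⟩).2.1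
      have e2 := (emb (v i') (a i') ⟨i', rfl, rfl⟩).2.1
      rw [← e1, ← e2]
      exact congrArg v' h
    have h2 : a i = a i' := by
      have e1 := (emb (v i) (a i) ⟨i, rfl, rfl⟩).2.2
      have e2 := (emb (v i') (a i') ⟨i', rfl, rfl⟩).2.2
      rw [← e1, ← e2]
      exact congrArg b h
    have h3 := (key (v i') (a i') ⟨h1, h2⟩).symm.trans h
    have h4 := (emb (v i') (a i')).injective (Subtype.ext h3)
    exact congrArg Subtype.val h4
  · intro i
    exact (emb (v i) (a i) ⟨i, rfl, rfl⟩).2.1
  · intro i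
    exact (emb (v i) (a i) ⟨i, rfl, rfl⟩).2.2

open Classical in
/-- A surjection matching labels, with fibre sums congruent to the exponents. -/
private theorem K4_surj {n : ℕ} {J J' : Type} [Fintype J] [Fintype J'] (v : J → E n) (a : J → ℕ)
    (v' : J' → E n) (b : J' → ℕ) (hv : ∀ j, PosV (v j)) (hv' : ∀ j, PosV (v' j))
    (ha : Exp a) (hra : Residue v a) (hrb : Residue v' b)
    (hlab : ∀ j, ∃ i, v i = v' j)
    (hcount : ∀ (x : E n) (k : ℕ), (Finset.univ.filter (fun i => v i = x ∧ a i = k)).card ≤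
      (Finset.univ.filter (fun j => v' j = x ∧ b j = k)).card) :
    ∃ g : J' → J, (∀ j, v (g j) = v' j) ∧
      (∀ i, 1 ≤ ∑ j ∈ Finset.univ.filter (fun j => g j = i), b j) ∧
      ∀ i, ((∑ j ∈ Finset.univ.filter (fun j => g j = i), b j : ℕ) : ZMod 3) = (a i : ZMod 3) := by
  obtain ⟨f, hf, hfv, hfa⟩ := K4_inj v a v' b hcount
  let rr : ∀ x : E n, (∃ i, v i = x) → J := fun x h => Classical.choose h
  have hrr : ∀ (x : E n) (h : ∃ i, v i = x), v (rr x h) = x := fun x h => Classical.choose_spec h
  let g : J' → J := fun j => if h : ∃ i, f i = j then Classical.choose h else rr (v' j) (hlab j)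
  have hgf : ∀ i, g (f i) = i := by
    intro i
    have h : ∃ i', f i' = f i := ⟨i, rfl⟩
    simp only [g]
    rw [dif_pos h]
    exact hf (Classical.choose_spec h)
  have hgn : ∀ j, (¬ ∃ i, f i = j) → g j = rr (v' j) (hlab j) := by
    intro j hj
    simp only [g]
    rw [dif_neg hj]
  have hvg : ∀ j, v (g j) = v' j := by
    intro j
    by_cases h : ∃ i, f i = j
    · obtain ⟨i, rfl⟩ := h
      rw [hgf, hfv]
    · rw [hgn j h, hrr]
  -- the sum over the complement of the range
  have hcomp : ∀ x : E n, PosV x →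
      ∑ j ∈ Finset.univ.filter (fun j => v' j = x ∧ ¬ ∃ i, f i = j), (b j : ZMod 3) = 0 := by
    intro x hx
    have h1 := K4_residue v' b hv' hrb x hx
    have h2 := K4_residue v a hv hra x hx
    rw [← Finset.sum_filter_add_sum_filter_not (Finset.univ.filter (fun j => v' j = x))
      (fun j => ∃ i, f i = j), Finset.filter_filter, Finset.filter_filter] at h1
    have h3 : ∑ j ∈ Finset.univ.filter (fun j => v' j = x ∧ ∃ i, f i = j), (b j : ZMod 3) =
        ∑ i ∈ Finset.univ.filter (fun i => v i = x), (a i : ZMod 3) := by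
      symm
      refine Finset.sum_bij (fun i _ => f i) ?_ ?_ ?_ ?_
      · intro i hi
        rw [Finset.mem_filter] at hi ⊢
        exact ⟨Finset.mem_univ _, (hfv i).trans hi.2, i, rfl⟩
      · intro i _ i' _ h
        exact hf h
      · intro j hj
        rw [Finset.mem_filter] at hj
        obtain ⟨-, hj1, i, rfl⟩ := hj
        exact ⟨i, Finset.mem_filter.mpr ⟨Finset.mem_univ _, (hfv i).symm.trans hj1⟩, rfl⟩
      · intro i _
        rw [hfa]
    rw [h3, h2, zero_add] at h1
    exact h1
  refine ⟨g, hvg, ?_, ?_⟩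
  · intro i
    have hmem : f i ∈ Finset.univ.filter (fun j => g j = i) :=
      Finset.mem_filter.mpr ⟨Finset.mem_univ _, hgf i⟩
    calc 1 ≤ a i := (ha i).1
      _ = b (f i) := (hfa i).symm
      _ ≤ _ := Finset.single_le_sum (f := b) (fun _ _ => Nat.zero_le _) hmem
  · intro i
    have hmem : f i ∈ Finset.univ.filter (fun j => g j = i) :=
      Finset.mem_filter.mpr ⟨Finset.mem_univ _, hgf i⟩
    rw [Nat.cast_sum, ← Finset.add_sum_erase _ _ hmem, hfa]
    have hz : ∑ j ∈ (Finset.univ.filter (fun j => g j = i)).erase (f i), (b j : ZMod 3) = 0 := by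
      by_cases hi : i = rr (v i) ⟨i, rfl⟩
      · have hset : (Finset.univ.filter (fun j => g j = i)).erase (f i) =
            Finset.univ.filter (fun j => v' j = v i ∧ ¬ ∃ i', f i' = j) := by
          ext j
          rw [Finset.mem_erase, Finset.mem_filter, Finset.mem_filter]
          constructor
          · rintro ⟨h1, -, h2⟩
            refine ⟨Finset.mem_univ _, by rw [← h2, hvg], ?_⟩
            rintro ⟨i', rfl⟩
            rw [hgf] at h2
            exact h1 (by rw [h2])
          · rintro ⟨-, h1, h2⟩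
            refine ⟨fun h => h2 ⟨i, h.symm⟩, Finset.mem_univ _, ?_⟩
            rw [hgn j h2]
            have key : ∀ (x : E n) (h : ∃ i, v i = x), x = v i → rr x h = i := by
              rintro _ h rfl
              exact hi.symm
            exact key _ _ h1
        rw [hset]
        exact hcomp _ (hv i)
      · have hset : (Finset.univ.filter (fun j => g j = i)).erase (f i) = ∅ := by
          rw [Finset.eq_empty_iff_forall_notMem]
          intro j hj
          rw [Finset.mem_erase, Finset.mem_filter] at hj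
          obtain ⟨h1, -, h2⟩ := hj
          by_cases h : ∃ i', f i' = j
          · obtain ⟨i', rfl⟩ := h
            rw [hgf] at h2
            exact h1 (by rw [h2])
          · apply hi
            have h3 := hgn j h
            have h4 : v' j = v i := by rw [← h2, hvg]
            have key : ∀ (x : E n) (h : ∃ i, v i = x) (h' : v i = x), rr x h = rr (v i) ⟨i, rfl⟩ := by
              rintro _ h rfl
              rfl
            rw [← key _ (hlab j) h4.symm, ← h3, h2]
        rw [hset, Finset.sum_empty]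
    rw [hz, add_zero]

open Classical in
/-- (5.3), blocks, case `n` constant. -/
theorem blockRed_fix {n : ℕ} {J J' : Type} [Fintype J] [Fintype J'] (v : J → E n) (a : J → ℕ)
    (v' : J' → E n) (b : J' → ℕ) (hv : ∀ j, PosV (v j)) (hv' : ∀ j, PosV (v' j))
    (ha : Exp a) (hb : Exp b) (hra : Residue v a) (hrb : Residue v' b)
    (hlab : ∀ j, ∃ i, v i = v' j)
    (hcount : ∀ (x : E n) (k : ℕ), (Finset.univ.filter (fun i => v i = x ∧ a i = k)).card ≤
      (Finset.univ.filter (fun j => v' j = x ∧ b j = k)).card) :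
    BlockRed v a v' b LinearMap.id := by
  obtain ⟨g, hvg, hg1, hg3⟩ := K4_surj v a v' b hv hv' ha hra hrb hlab hcount
  refine ⟨⟨⟨fun x j => x (g j), rfl⟩, fun x y => rfl⟩, ?_, ?_, ?_⟩
  · intro j x h
    exact absurd h (K4_posV_ne_zero (hv' j))
  · intro e x j
    change F4.chi (dot (v (g j)) e) * x (g j) = F4.chi (dot (v' j) e) * x (g j)
    rw [hvg]
  · have huniv : Finset.univ.filter (fun j : J' => (LinearMap.id : E n →ₗ[ZMod 3] E n) (v' j) ≠ 0) =
        Finset.univ := by
      rw [Finset.filter_true_of_mem]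
      intro j _
      exact K4_posV_ne_zero (hv' j)
    rw [huniv]
    change ∑ c : J → F4, (∏ B, c B ^ (3 - a B)) * ∏ j, c (g j) ^ b j = 1
    have h1 : ∀ c : J → F4, (∏ B, c B ^ (3 - a B)) * ∏ j, c (g j) ^ b j =
        ∏ B, c B ^ (3 - a B + ∑ j ∈ Finset.univ.filter (fun j => g j = B), b j) := by
      intro c
      rw [← Finset.prod_fiberwise Finset.univ g (fun j => c (g j) ^ b j),
        ← Finset.prod_mul_distrib]
      refine Finset.prod_congr rfl fun B _ => ?_
      rw [pow_add, ← Finset.prod_pow_eq_pow_sum]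
      congr 1
      refine Finset.prod_congr rfl fun j hj => ?_
      rw [(Finset.mem_filter.mp hj).2]
    rw [Finset.sum_congr rfl fun c _ => h1 c]
    have h2 := Finset.prod_univ_sum (R := F4) (fun _ : J => (Finset.univ : Finset F4))
      (fun B x => x ^ (3 - a B + ∑ j ∈ Finset.univ.filter (fun j => g j = B), b j))
    rw [Fintype.piFinset_univ] at h2
    rw [← h2]
    refine Finset.prod_eq_one fun B _ => ?_
    apply K4_sum_pow
    · have := hg1 B
      omega
    · have h4 := hg3 B
      have h5 := (ZMod.natCast_eq_natCast_iff' _ _ 3).mp h4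
      have h6 := ha B
      omega

end Pool.Agent.OH
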