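import Pool.Agent.OH.K1

set_option autoImplicit false

namespace Pool.Agent.OH

lemma K5_inner (a : ℕ) (h1 : 1 ≤ a) (h3 : a ≤ 3) (z : F4) :
    ∑ x : F4, x ^ (3 - a) * (x + z) ^ 3 = z ^ (3 - a) := by
  interval_cases a <;> revert z <;> decide

lemma K5_cube_pow (x : F4) (m : ℕ) : (x ^ 3) ^ (m + 1) = x ^ 3 := by
  have h : x ^ 3 * x ^ 3 = x ^ 3 := by revert x; decide
  induction m with
  | zero => rw [zero_add, pow_one]
  | succ m ih => rw [pow_succ, ih, h]

lemma K5_pow_eq (x : F4) (k : ℕ) (hk : 0 < k) (h3 : (k : ZMod 3) = 0) : x ^ k = x ^ 3 := by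
  rw [ZMod.natCast_eq_zero_iff] at h3
  obtain ⟨m, rfl⟩ := h3
  obtain ⟨m, rfl⟩ : ∃ m', m = m' + 1 := ⟨m - 1, by omega⟩
  rw [pow_mul, K5_cube_pow]

lemma K5_outer (k : ℕ) (hk : 0 < k) (h3 : (k : ZMod 3) = 0) : ∑ x : F4, x ^ k = 1 := by
  rw [Finset.sum_congr rfl fun x _ => K5_pow_eq x k hk h3]
  decide

open Classical in
lemma K5_sum {J : Type} [Fintype J] (a : J → ℕ) (ha : Exp a) (r : J → J)
    (hr : ∀ B, r (r B) = r B)
    (hres : ∀ B, r B = B → ∑ B' ∈ Finset.univ.filter (fun B' => r B' = B), (a B' : ZMod 3) = 0) :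
    ∑ c : J → F4, (∏ B, c B ^ (3 - a B)) *
      ∏ B, (if r B = B then c B else c B + c (r B)) ^ 3 = 1 := by
  rw [← (Equiv.piEquivPiSubtypeProd (fun B => r B = B) (fun _ => F4)).symm.sum_comp,
    Fintype.sum_prod_type]
  have key : ∀ (α : {B // r B = B} → F4) (β : {B // ¬ r B = B} → F4),
      (∏ B, ((Equiv.piEquivPiSubtypeProd (fun B => r B = B) (fun _ => F4)).symm (α, β)) B
          ^ (3 - a B)) *
        ∏ B, (if r B = B then
            ((Equiv.piEquivPiSubtypeProd (fun B => r B = B) (fun _ => F4)).symm (α, β)) B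
          else ((Equiv.piEquivPiSubtypeProd (fun B => r B = B) (fun _ => F4)).symm (α, β)) B +
            ((Equiv.piEquivPiSubtypeProd (fun B => r B = B) (fun _ => F4)).symm (α, β)) (r B))
            ^ 3 =
      (∏ B : {B // r B = B}, α B ^ (6 - a B.1)) *
        ∏ B : {B // ¬ r B = B}, (β B ^ (3 - a B.1) * (β B + α ⟨r B.1, hr B.1⟩) ^ 3) := by
    intro α β
    rw [← Finset.prod_mul_distrib,
      ← Fintype.prod_subtype_mul_prod_subtype (fun B => r B = B)]
    congr 1
    · refine Finset.prod_congr rfl fun B _ => ?_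
      have hB := B.2
      simp only [Equiv.piEquivPiSubtypeProd_symm_apply, dif_pos hB, if_pos hB]
      rw [← pow_add]
      congr 1
      have := ha B.1
      omega
    · refine Finset.prod_congr rfl fun B _ => ?_
      have hB := B.2
      simp only [Equiv.piEquivPiSubtypeProd_symm_apply, dif_neg hB, if_neg hB, dif_pos (hr B.1)]
  simp_rw [key]
  have step : ∀ α : {B // r B = B} → F4,
      ∑ β : {B // ¬ r B = B} → F4, (∏ B : {B // r B = B}, α B ^ (6 - a B.1)) *
        ∏ B : {B // ¬ r B = B}, (β B ^ (3 - a B.1) * (β B + α ⟨r B.1, hr B.1⟩) ^ 3) =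
      ∏ B : {B // r B = B}, α B ^ (6 - a B.1 +
        ∑ B' ∈ Finset.univ.filter (fun B' : {B // ¬ r B = B} => (⟨r B'.1, hr B'.1⟩ :
          {B // r B = B}) = B), (3 - a B'.1)) := by
    intro α
    rw [← Finset.mul_sum]
    have h1 : ∑ β : {B // ¬ r B = B} → F4,
        ∏ B : {B // ¬ r B = B}, (β B ^ (3 - a B.1) * (β B + α ⟨r B.1, hr B.1⟩) ^ 3) =
        ∏ B : {B // ¬ r B = B}, ∑ x : F4, (x ^ (3 - a B.1) * (x + α ⟨r B.1, hr B.1⟩) ^ 3) := by
      rw [Finset.prod_univ_sum, Fintype.piFinset_univ]
    rw [h1]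
    have h2 : ∀ B : {B // ¬ r B = B},
        ∑ x : F4, (x ^ (3 - a B.1) * (x + α ⟨r B.1, hr B.1⟩) ^ 3) =
          α ⟨r B.1, hr B.1⟩ ^ (3 - a B.1) := fun B => K5_inner _ (ha B.1).1 (ha B.1).2 _
    simp_rw [h2]
    rw [← Finset.prod_fiberwise Finset.univ (fun B : {B // ¬ r B = B} =>
      (⟨r B.1, hr B.1⟩ : {B // r B = B})), ← Finset.prod_mul_distrib]
    refine Finset.prod_congr rfl fun B _ => ?_
    rw [pow_add, ← Finset.prod_pow_eq_pow_sum]
    congr 1
    refine Finset.prod_congr rfl fun B' hB' => ?_
    rw [(Finset.mem_filter.mp hB').2]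
  simp_rw [step]
  have last : ∑ α : {B // r B = B} → F4, ∏ B : {B // r B = B}, α B ^ (6 - a B.1 +
        ∑ B' ∈ Finset.univ.filter (fun B' : {B // ¬ r B = B} => (⟨r B'.1, hr B'.1⟩ :
          {B // r B = B}) = B), (3 - a B'.1)) =
      ∏ B : {B // r B = B}, ∑ x : F4, x ^ (6 - a B.1 +
        ∑ B' ∈ Finset.univ.filter (fun B' : {B // ¬ r B = B} => (⟨r B'.1, hr B'.1⟩ :
          {B // r B = B}) = B), (3 - a B'.1)) := by
    rw [Finset.prod_univ_sum, Fintype.piFinset_univ]
  rw [last]
  refine Finset.prod_eq_one fun B _ => K5_outer _ ?_ ?_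
  · have := ha B.1
    omega
  · have h3 : (3 : ZMod 3) = 0 := by decide
    have h6 : (6 : ZMod 3) = 0 := by decide
    have e1 : ((6 - a B.1 : ℕ) : ZMod 3) = - (a B.1 : ZMod 3) := by
      rw [Nat.cast_sub (by have := ha B.1; omega)]
      push_cast
      rw [h6, zero_sub]
    have e2 : ∀ B' : {B // ¬ r B = B}, ((3 - a B'.1 : ℕ) : ZMod 3) = - (a B'.1 : ZMod 3) := by
      intro B'
      rw [Nat.cast_sub (ha B'.1).2]
      push_cast
      rw [h3, zero_sub]
    rw [Nat.cast_add, Nat.cast_sum, e1, Finset.sum_congr rfl (fun B' _ => e2 B'),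
      Finset.sum_neg_distrib, ← neg_add, neg_eq_zero, ← hres B.1 B.2]
    have hsplit : Finset.univ.filter (fun B' => r B' = B.1) =
        insert B.1 ((Finset.univ.filter (fun B' : {B // ¬ r B = B} => (⟨r B'.1, hr B'.1⟩ :
          {B // r B = B}) = B)).map (Function.Embedding.subtype _)) := by
      ext B'
      simp only [Finset.mem_filter, Finset.mem_univ, true_and, Finset.mem_insert,
        Finset.mem_map, Function.Embedding.coe_subtype, Subtype.exists, exists_and_right,
        exists_eq_right]
      constructor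
      · intro h
        by_cases hB' : r B' = B'
        · left; rw [← h, hB']
        · right; exact ⟨hB', Subtype.ext h⟩
      · rintro (rfl | ⟨h1, h2⟩)
        · exact B.2
        · exact congrArg Subtype.val h2
    rw [hsplit, Finset.sum_insert, Finset.sum_map]
    · rfl
    · simp only [Finset.mem_map, Finset.mem_filter, Finset.mem_univ, true_and,
        Function.Embedding.coe_subtype, Subtype.exists, exists_and_right, exists_eq_right]
      rintro ⟨h1, -⟩
      exact h1 B.2

lemma K5_PosV_ne {n : ℕ} {x : E n} (h : PosV x) : x ≠ 0 := by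
  rintro rfl
  obtain ⟨i, hi, -⟩ := h
  exact absurd hi (by simp)

lemma K5_PosV_neg {n : ℕ} {x : E n} (h : PosV x) : ¬ PosV (-x) := by
  rintro ⟨k, hk, hk'⟩
  obtain ⟨i, hi, hi'⟩ := h
  rcases lt_trichotomy i k with h | h | h
  · have := hk' i h
    rw [Pi.neg_apply, hi] at this
    exact absurd this (by decide)
  · subst h
    rw [Pi.neg_apply, hi] at hk
    exact absurd hk (by decide)
  · rw [Pi.neg_apply, hi' k h] at hk
    exact absurd hk (by decide)

lemma K5_ne_neg {n : ℕ} {x : E n} (h : x ≠ 0) : x ≠ -x := by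
  intro h2
  apply h
  funext i
  have := congrFun h2 i
  rw [Pi.neg_apply] at this
  show x i = 0
  revert this
  generalize x i = y
  revert y
  decide

open Classical in
lemma K5_cubes {α : Type} (S : Finset α) (f : α → F4) :
    ∏ x ∈ S, f x ^ 3 = if ∀ x ∈ S, f x ≠ 0 then 1 else 0 := by
  have hc : ∀ y : F4, y ≠ 0 → y ^ 3 = 1 := by decide
  split_ifs with h
  · exact Finset.prod_eq_one fun x hx => hc _ (h x hx)
  · push Not at h
    obtain ⟨x, hx, h0⟩ := h
    exact Finset.prod_eq_zero hx (by rw [h0]; decide)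

lemma K5_sq_add (x y : F4) : (x + y) ^ 2 = x ^ 2 + y ^ 2 := by revert x y; decide

lemma K5_chi_neg_sq (k : ZMod 3) : F4.chi (-k) ^ 2 = F4.chi k := by revert k; decide

open Classical in
/-- (5.3), blocks, case `n → ∞`. -/
theorem blockRed_inf {n n' : ℕ} {J J' : Type} [Fintype J] [Fintype J'] (v : J → E n)
    (a : J → ℕ) (v' : J' → E n') (b : J' → ℕ) (hv : ∀ j, PosV (v j)) (hv' : ∀ j, v' j ≠ 0)
    (ha : Exp a) (hb : Exp b) (hra : Residue v a) (hrb : Residue v' b)
    (ψ : E n' →ₗ[ZMod 3] E n)
    (hψ : ∀ j, ψ (v' j) = 0 ∨ ∃ i, ψ (v' j) = v i ∨ ψ (v' j) = -v i)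
    (hlarge : ∀ i, 9 * (Fintype.card J + 1) ≤
      Set.ncard {x : E n' | ψ x = v i ∧ ∃ j, v' j = x ∨ v' j = -x}) :
    BlockRed v a v' b ψ := by
  rcases isEmpty_or_nonempty J with hJ | hJ
  · -- no small blocks
    have h0 : ∀ j, ψ (v' j) = 0 := fun j => by
      rcases hψ j with h | ⟨i, -⟩
      · exact h
      · exact hJ.elim i
    refine ⟨0, fun _ _ _ => rfl, fun e x j => ?_, ?_⟩
    · simp
    · have h1 : Finset.univ.filter (fun j => ψ (v' j) ≠ 0) = ∅ := by
        ext j; simp [h0 j]
      rw [h1]
      simp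
  -- representatives
  let rp : E n → J := fun y => if h : ∃ i, v i = y then h.choose else Classical.arbitrary J
  have hrp : ∀ y, (∃ i, v i = y) → v (rp y) = y := by
    intro y h
    simp only [rp, dif_pos h]
    exact h.choose_spec
  have hrpv : ∀ B, v (rp (v B)) = v B := fun B => hrp _ ⟨B, rfl⟩
  let r : J → J := fun B => rp (v B)
  have hvr : ∀ B, v (r B) = v B := hrpv
  have hr : ∀ B, r (r B) = r B := fun B => by
    show rp (v (r B)) = rp (v B)
    rw [hvr]
  -- injection
  have hinj : ∀ B : J, ∃ f : J → E n', Function.Injective f ∧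
      ∀ k, ψ (f k) = v B ∧ ∃ j, v' j = f k ∨ v' j = -(f k) := by
    intro B
    set S : Set (E n') := {x : E n' | ψ x = v B ∧ ∃ j, v' j = x ∨ v' j = -x} with hS
    have : Fintype S := Fintype.ofFinite _
    have hc : Fintype.card J ≤ Fintype.card S := by
      have h1 : Fintype.card S = S.ncard := by
        rw [← Nat.card_coe_set_eq, Nat.card_eq_fintype_card]
      rw [h1]
      have h2 : 9 * (Fintype.card J + 1) ≤ S.ncard := hlarge B
      omega
    obtain ⟨f⟩ := Function.Embedding.nonempty_of_card_le hc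
    exact ⟨fun k => (f k).1, fun k k' h => f.injective (Subtype.ext h), fun k => (f k).2⟩
  choose f hf1 hf2 using hinj
  let g : J → E n' := fun B => f (r B) B
  have hgψ : ∀ B, ψ (g B) = v B := fun B => by
    show ψ (f (r B) B) = v B
    rw [(hf2 (r B) B).1, hvr]
  have hgj : ∀ B, ∃ j, v' j = g B ∨ v' j = -(g B) := fun B => (hf2 (r B) B).2
  have hginj : Function.Injective g := by
    intro B B' h
    have h1 : v B = v B' := by rw [← hgψ B, ← hgψ B', h]
    have h2 : r B = r B' := by
      show rp (v B) = rp (v B')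
      rw [h1]
    have h3 : f (r B) B = f (r B') B' := h
    rw [← h2] at h3
    exact hf1 _ h3
  -- the forms
  let Q : E n' → Prop := fun x => ∃ B, g B = x ∧ r B ≠ B
  let P : E n' → J := fun x => if h : Q x then h.choose else rp (ψ x)
  have hPQ : ∀ x, Q x → g (P x) = x ∧ r (P x) ≠ P x := by
    intro x h
    simp only [P, dif_pos h]
    exact h.choose_spec
  have hPn : ∀ x, ¬ Q x → P x = rp (ψ x) := by
    intro x h
    simp only [P, dif_neg h]
  have hvP : ∀ x, (∃ i, v i = ψ x) → v (P x) = ψ x := by
    intro x hx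
    by_cases h : Q x
    · rw [← hgψ (P x), (hPQ x h).1]
    · rw [hPn x h, hrp _ hx]
  let Y : E n' → (J → F4) → F4 := fun x c => if Q x then c (P x) + c (r (P x)) else c (P x)
  have hY0 : ∀ x, Y x 0 = 0 := by
    intro x
    simp only [Y, Pi.zero_apply, add_zero, ite_self]
  have hYadd : ∀ x c c', Y x (c + c') = Y x c + Y x c' := by
    intro x c c'
    simp only [Y, Pi.add_apply]
    split_ifs
    · ring
    · rfl
  have hYg : ∀ B c, Y (g B) c = if r B = B then c B else c B + c (r B) := by
    intro B c
    by_cases h : r B = B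
    · have hQ : ¬ Q (g B) := by
        rintro ⟨B', h1, h2⟩
        rw [hginj h1] at h2
        exact h2 h
      have hP : P (g B) = B := by
        rw [hPn _ hQ, hgψ]
        exact h
      simp only [Y, if_neg hQ, if_pos h, hP]
    · have hQ : Q (g B) := ⟨B, rfl, h⟩
      have hP : P (g B) = B := hginj (hPQ _ hQ).1
      simp only [Y, if_pos hQ, if_neg h, hP]
  have hYequi : ∀ x, (∃ i, v i = ψ x) → ∀ (e : E n) (c : J → F4),
      Y x (fun B => F4.chi (dot (v B) e) * c B) = F4.chi (dot (ψ x) e) * Y x c := by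
    intro x hx e c
    simp only [Y]
    split_ifs
    · rw [hvr, hvP x hx, mul_add]
    · rw [hvP x hx]
  -- sign facts
  have hneg : ∀ j, ψ (v' j) ≠ 0 → ¬ PosV (ψ (v' j)) → ∃ i, v i = ψ (-(v' j)) := by
    intro j h0 hp
    rcases hψ j with h | ⟨i, h | h⟩
    · exact absurd h h0
    · rw [h] at hp
      exact absurd (hv i) hp
    · exact ⟨i, by rw [map_neg, h, neg_neg]⟩
  have hpos : ∀ j, PosV (ψ (v' j)) → ∃ i, v i = ψ (v' j) := by
    intro j hp
    rcases hψ j with h | ⟨i, h | h⟩
    · exact absurd h (K5_PosV_ne hp)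
    · exact ⟨i, h.symm⟩
    · rw [h] at hp
      exact absurd hp (K5_PosV_neg (hv i))
  let φ : (J → F4) →+ (J' → F4) :=
    { toFun := fun c j => if ψ (v' j) = 0 then 0 else
        if PosV (ψ (v' j)) then Y (v' j) c else (Y (-(v' j)) c) ^ 2
      map_zero' := by
        funext j
        simp only [hY0, Pi.zero_apply]
        split_ifs <;> simp
      map_add' := by
        intro c c'
        funext j
        simp only [hYadd, Pi.add_apply]
        split_ifs
        · simp
        · rfl
        · exact K5_sq_add _ _ }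
  have hφ : ∀ c j, φ c j = if ψ (v' j) = 0 then 0 else
        if PosV (ψ (v' j)) then Y (v' j) c else (Y (-(v' j)) c) ^ 2 := fun _ _ => rfl
  refine ⟨φ, fun j x h => by rw [hφ, if_pos h], ?_, ?_⟩
  · intro e x j
    rw [hφ, hφ]
    by_cases h0 : ψ (v' j) = 0
    · rw [if_pos h0, if_pos h0, mul_zero]
    · rw [if_neg h0, if_neg h0]
      by_cases hp : PosV (ψ (v' j))
      · rw [if_pos hp, if_pos hp, hYequi _ (hpos j hp)]
      · rw [if_neg hp, if_neg hp, hYequi _ (hneg j h0 hp), mul_pow, map_neg]
        congr 1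
        have h1 : dot (-(ψ (v' j))) e = - dot (ψ (v' j)) e := by
          simp only [dot, neg_dotProduct]
        rw [h1, K5_chi_neg_sq]
  · have hprod : ∀ c : J → F4, ∏ j ∈ Finset.univ.filter (fun j => ψ (v' j) ≠ 0), φ c j ^ b j =
        ∏ B, (if r B = B then c B else c B + c (r B)) ^ 3 := by
      intro c
      let xo : J' → E n' := fun j => if PosV (ψ (v' j)) then v' j else -(v' j)
      set S := Finset.univ.filter (fun j => ψ (v' j) ≠ 0) with hS
      have hxo : ∀ j ∈ S, PosV (ψ (xo j)) ∧ (∃ i, v i = ψ (xo j)) := by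
        intro j hj
        have h0 := (Finset.mem_filter.mp hj).2
        by_cases hp : PosV (ψ (v' j))
        · simp only [xo, if_pos hp]
          exact ⟨hp, hpos j hp⟩
        · simp only [xo, if_neg hp]
          obtain ⟨i, hi⟩ := hneg j h0 hp
          exact ⟨by rw [← hi]; exact hv i, i, hi⟩
      have hfib : ∏ j ∈ S, φ c j ^ b j = ∏ x ∈ S.image xo, Y x c ^ 3 := by
        rw [← Finset.prod_fiberwise_of_maps_to (g := xo) (t := S.image xo)
          (fun j hj => Finset.mem_image_of_mem xo hj)]
        refine Finset.prod_congr rfl fun x hx => ?_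
        obtain ⟨j0, hj0, hj0x⟩ := Finset.mem_image.mp hx
        obtain ⟨hxp, hxl⟩ := hxo j0 hj0
        rw [hj0x] at hxp hxl
        have hx0 : x ≠ 0 := by
          rintro rfl
          rw [map_zero] at hxp
          exact K5_PosV_ne hxp rfl
        have hset : S.filter (fun j => xo j = x) =
            Finset.univ.filter (fun j => v' j = x) ∪ Finset.univ.filter (fun j => v' j = -x) := by
          ext j
          simp only [Finset.mem_filter, Finset.mem_univ, true_and, Finset.mem_union, hS]
          constructor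
          · rintro ⟨-, h⟩
            by_cases hp : PosV (ψ (v' j))
            · simp only [xo, if_pos hp] at h
              exact Or.inl h
            · simp only [xo, if_neg hp] at h
              exact Or.inr (by rw [← h, neg_neg])
          · rintro (h | h)
            · refine ⟨by rw [h]; exact K5_PosV_ne hxp, ?_⟩
              simp only [xo, h, if_pos hxp]
            · have hn : ¬ PosV (ψ (v' j)) := by
                rw [h, map_neg]; exact K5_PosV_neg hxp
              refine ⟨by rw [h, map_neg]; exact neg_ne_zero.mpr (K5_PosV_ne hxp), ?_⟩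
              simp only [xo, if_neg hn, h, neg_neg]
        have hdisj : Disjoint (Finset.univ.filter (fun j => v' j = x))
            (Finset.univ.filter (fun j => v' j = -x)) := by
          rw [Finset.disjoint_left]
          intro j h1 h2
          have e1 := (Finset.mem_filter.mp h1).2
          have e2 := (Finset.mem_filter.mp h2).2
          exact K5_ne_neg hx0 (e1.symm.trans e2)
        rw [hset, Finset.prod_union hdisj]
        have e1 : ∏ j ∈ Finset.univ.filter (fun j => v' j = x), φ c j ^ b j =
            Y x c ^ (∑ j ∈ Finset.univ.filter (fun j => v' j = x), b j) := by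
          rw [← Finset.prod_pow_eq_pow_sum]
          refine Finset.prod_congr rfl fun j hj => ?_
          have h := (Finset.mem_filter.mp hj).2
          rw [hφ, h, if_neg (K5_PosV_ne hxp), if_pos hxp]
        have e2 : ∏ j ∈ Finset.univ.filter (fun j => v' j = -x), φ c j ^ b j =
            Y x c ^ (2 * ∑ j ∈ Finset.univ.filter (fun j => v' j = -x), b j) := by
          rw [Finset.mul_sum, ← Finset.prod_pow_eq_pow_sum]
          refine Finset.prod_congr rfl fun j hj => ?_
          have h := (Finset.mem_filter.mp hj).2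
          rw [hφ, h, map_neg, if_neg (neg_ne_zero.mpr (K5_PosV_ne hxp)),
            if_neg (K5_PosV_neg hxp), neg_neg, ← pow_mul]
        rw [e1, e2, ← pow_add]
        apply K5_pow_eq
        · have hb0 := (hb j0).1
          by_cases hp : PosV (ψ (v' j0))
          · have h1 : v' j0 = x := by
              rw [← hj0x]; simp only [xo, if_pos hp]
            have h2 : b j0 ≤ ∑ j ∈ Finset.univ.filter (fun j => v' j = x), b j :=
              Finset.single_le_sum (f := b) (fun _ _ => Nat.zero_le _)
                (Finset.mem_filter.mpr ⟨Finset.mem_univ _, h1⟩)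
            omega
          · have h1 : v' j0 = -x := by
              rw [← hj0x]; simp only [xo, if_neg hp, neg_neg]
            have h2 : b j0 ≤ ∑ j ∈ Finset.univ.filter (fun j => v' j = -x), b j :=
              Finset.single_le_sum (f := b) (fun _ _ => Nat.zero_le _)
                (Finset.mem_filter.mpr ⟨Finset.mem_univ _, h1⟩)
            omega
        · have h := hrb x hx0
          push_cast
          rw [h]
          generalize ∑ j ∈ Finset.univ.filter (fun j => v' j = -x), (b j : ZMod 3) = t
          revert t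
          decide
      rw [hfib, K5_cubes, K5_cubes]
      congr 1
      rw [eq_iff_iff]
      constructor
      · intro h B _
        rw [← hYg]
        apply h
        obtain ⟨j, hj | hj⟩ := hgj B
        · have hp : PosV (ψ (v' j)) := by rw [hj, hgψ]; exact hv B
          refine Finset.mem_image.mpr ⟨j, Finset.mem_filter.mpr ⟨Finset.mem_univ _,
            K5_PosV_ne hp⟩, ?_⟩
          simp only [xo, if_pos hp]
          exact hj
        · have hp : ¬ PosV (ψ (v' j)) := by
            rw [hj, map_neg, hgψ]; exact K5_PosV_neg (hv B)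
          refine Finset.mem_image.mpr ⟨j, Finset.mem_filter.mpr ⟨Finset.mem_univ _, ?_⟩, ?_⟩
          · rw [hj, map_neg, hgψ]
            exact neg_ne_zero.mpr (K5_PosV_ne (hv B))
          · simp only [xo, if_neg hp]
            rw [hj, neg_neg]
      · intro h x hx
        by_cases hQ : Q x
        · have h1 := h (P x) (Finset.mem_univ _)
          rw [← hYg, (hPQ x hQ).1] at h1
          exact h1
        · have h1 := h (P x) (Finset.mem_univ _)
          have h2 : r (P x) = P x := by
            obtain ⟨j0, hj0, hj0x⟩ := Finset.mem_image.mp hx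
            obtain ⟨-, hxl⟩ := hxo j0 hj0
            rw [hj0x] at hxl
            show rp (v (P x)) = P x
            rw [hvP x hxl, hPn x hQ]
          rw [if_pos h2] at h1
          simp only [Y, if_neg hQ]
          exact h1
    rw [Finset.sum_congr rfl fun c _ => by rw [hprod c]]
    refine K5_sum a ha r hr fun B hB => ?_
    have h1 : Finset.univ.filter (fun B' => r B' = B) =
        Finset.univ.filter (fun B' => v B' = v B) := by
      ext B'
      simp only [Finset.mem_filter, Finset.mem_univ, true_and]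
      constructor
      · intro h
        rw [← h, hvr]
      · intro h
        rw [← hB]
        show rp (v B') = rp (v B)
        rw [h]
    rw [h1, hra (v B) (K5_PosV_ne (hv B))]
    apply Finset.sum_eq_zero
    intro j hj
    exfalso
    have h2 := (Finset.mem_filter.mp hj).2
    have h3 := hv j
    rw [h2] at h3
    exact K5_PosV_neg (hv B) h3

end Pool.Agent.OH
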