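import Pool.Agent.OH.Defs3

set_option autoImplicit false

namespace Pool.Agent.OH

section P2aux

open Module

/-- Independent functionals take arbitrary values. -/
theorem p2_surj {I : Type} [Finite I] {n : ℕ} (F : I → (E n →ₗ[ZMod 3] ZMod 3))
    (hF : LinearIndependent (ZMod 3) F) : Function.Surjective (LinearMap.pi F) := by
  classical
  have := Fintype.ofFinite I
  rw [← LinearMap.range_eq_top]
  by_contra hne
  obtain ⟨f, hf0, hf⟩ := Submodule.exists_le_ker_of_lt_top _ (lt_top_iff_ne_top.2 hne)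
  apply hf0
  have h1 : ∑ x, f (Pi.single x 1) • F x = 0 := by
    ext v
    have h2 : f (LinearMap.pi F (Pi.single v 1)) = 0 := hf ⟨_, rfl⟩
    rw [LinearMap.comp_apply, LinearMap.zero_comp, LinearMap.zero_apply]
    rw [show (LinearMap.pi F) (Pi.single v 1) =
      ∑ x, (F x (Pi.single v 1)) • (Pi.single x (1 : ZMod 3) : I → ZMod 3) from ?_] at h2
    · rw [map_sum] at h2
      simp only [map_smul] at h2
      rw [LinearMap.sum_apply]
      rw [← h2]
      refine Finset.sum_congr rfl fun x _ => ?_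
      simp [mul_comm]
    · funext y
      simp [Finset.sum_apply, Pi.single_apply]
  have h3 := Fintype.linearIndependent_iff.1 hF _ h1
  ext x
  simpa using h3 x

/-- The extension lemma. -/
theorem p2_ext {I : Type} [Finite I] {ns nt : ℕ} (A : E nt →ₗ[ZMod 3] (I → ZMod 3))
    (B : E ns →ₗ[ZMod 3] (I → ZMod 3)) (hA : Function.Surjective A) (hB : Function.Surjective B)
    (hn : ns < nt) (k : E nt) (hk : A k = 0) :
    ∃ ψ : E nt →ₗ[ZMod 3] E ns, Function.Surjective ψ ∧ (∀ v, B (ψ v) = A v) ∧ ψ k = 0 := by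
  classical
  have := Fintype.ofFinite I
  obtain ⟨σ, hσ⟩ := LinearMap.exists_rightInverse_of_surjective B (LinearMap.range_eq_top.2 hB)
  obtain ⟨τ, hτ⟩ := LinearMap.exists_rightInverse_of_surjective A (LinearMap.range_eq_top.2 hA)
  have hσ' : ∀ c, B (σ c) = c := fun c => LinearMap.congr_fun hσ c
  have hτ' : ∀ c, A (τ c) = c := fun c => LinearMap.congr_fun hτ c
  -- the map `ker A → ker B`
  let k' : LinearMap.ker A := ⟨k, hk⟩
  have hdA : finrank (ZMod 3) (LinearMap.ker A) + Fintype.card I = nt := by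
    have h := LinearMap.finrank_range_add_finrank_ker A
    rw [LinearMap.range_eq_top.2 hA, finrank_top] at h
    simp at h
    omega
  have hdB : finrank (ZMod 3) (LinearMap.ker B) + Fintype.card I = ns := by
    have h := LinearMap.finrank_range_add_finrank_ker B
    rw [LinearMap.range_eq_top.2 hB, finrank_top] at h
    simp at h
    omega
  have hspan : finrank (ZMod 3) (Submodule.span (ZMod 3) {k'}) ≤ 1 := by
    refine (finrank_span_le_card {k'}).trans ?_
    simp
  have hq := Submodule.finrank_quotient_add_finrank (Submodule.span (ZMod 3) {k'})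
  have hle : finrank (ZMod 3) (LinearMap.ker B) ≤
      finrank (ZMod 3) (LinearMap.ker A ⧸ Submodule.span (ZMod 3) {k'}) := by omega
  obtain ⟨j, hj⟩ := finrank_le_iff_exists_linearMap.1 hle
  obtain ⟨g, hg⟩ := LinearMap.exists_leftInverse_of_injective j (LinearMap.ker_eq_bot.2 hj)
  let ψ₁ : LinearMap.ker A →ₗ[ZMod 3] LinearMap.ker B := g ∘ₗ Submodule.mkQ _
  have hψ₁ : Function.Surjective ψ₁ := by
    intro y
    obtain ⟨x, hx⟩ := Submodule.mkQ_surjective _ (j y)
    exact ⟨x, by
      show g (Submodule.mkQ _ x) = y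
      rw [hx]; exact LinearMap.congr_fun hg y⟩
  have hψ₁k : ψ₁ k' = 0 := by
    show g (Submodule.mkQ _ k') = 0
    rw [show Submodule.mkQ (Submodule.span (ZMod 3) {k'}) k' = 0 from
      (Submodule.Quotient.mk_eq_zero _).2 (Submodule.mem_span_singleton_self _), map_zero]
  let P : E nt →ₗ[ZMod 3] LinearMap.ker A :=
    LinearMap.codRestrict (LinearMap.ker A) (LinearMap.id - τ ∘ₗ A) (by
      intro v
      rw [LinearMap.mem_ker]
      simp [hτ'])
  have hP : ∀ v : E nt, ((P v : LinearMap.ker A) : E nt) = v - τ (A v) := fun v => rfl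
  have hPker : ∀ v : LinearMap.ker A, P v = v := by
    intro v
    apply Subtype.ext
    rw [hP]
    rw [show A (v : E nt) = 0 from v.2, map_zero, sub_zero]
  refine ⟨σ ∘ₗ A + (LinearMap.ker B).subtype ∘ₗ ψ₁ ∘ₗ P, ?_, ?_, ?_⟩
  · intro w
    have hw : w - σ (B w) ∈ LinearMap.ker B := by
      rw [LinearMap.mem_ker]; simp [hσ']
    obtain ⟨u, hu⟩ := hψ₁ ⟨_, hw⟩
    refine ⟨τ (B w) + u, ?_⟩
    have h1 : A (τ (B w) + (u : E nt)) = B w := by
      rw [map_add, hτ', show A (u : E nt) = 0 from u.2, add_zero]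
    have h2 : P (τ (B w) + (u : E nt)) = u := by
      apply Subtype.ext
      rw [hP, h1]; abel
    simp only [LinearMap.add_apply, LinearMap.comp_apply, h1, h2, hu, Submodule.subtype_apply]
    abel
  · intro v
    simp only [LinearMap.add_apply, LinearMap.comp_apply, Submodule.subtype_apply, map_add, hσ']
    rw [show B ((ψ₁ (P v) : LinearMap.ker B) : E ns) = 0 from (ψ₁ (P v)).2, add_zero]
  · simp only [LinearMap.add_apply, LinearMap.comp_apply, hk, map_zero, zero_add]
    rw [show P k = k' from hPker k', hψ₁k, map_zero]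

/-- Lower bound for the number of points of a fibre on which a functional is constant. -/
theorem p2_count {ns nt : ℕ} (ψ : E nt →ₗ[ZMod 3] E ns) (g : E nt →ₗ[ZMod 3] ZMod 3)
    (v₀ : E nt) (S : Set (E nt)) (hS : ∀ v, ψ v = ψ v₀ → g v = g v₀ → v ∈ S) :
    3 ^ (nt - ns - 1) ≤ Set.ncard S := by
  let L : E nt →ₗ[ZMod 3] (E ns × ZMod 3) := ψ.prod g
  have hr : finrank (ZMod 3) (LinearMap.range L) ≤ ns + 1 := by
    refine (Submodule.finrank_le _).trans ?_
    simp
  have hk := LinearMap.finrank_range_add_finrank_ker L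
  have hnt : finrank (ZMod 3) (E nt) = nt := by simp
  have hle : nt - ns - 1 ≤ finrank (ZMod 3) (LinearMap.ker L) := by omega
  have hcard : Nat.card (LinearMap.ker L) = 3 ^ finrank (ZMod 3) (LinearMap.ker L) := by
    have := Module.natCard_eq_pow_finrank (K := ZMod 3) (V := LinearMap.ker L)
    rw [this]; simp
  calc 3 ^ (nt - ns - 1) ≤ 3 ^ finrank (ZMod 3) (LinearMap.ker L) :=
        Nat.pow_le_pow_right (by norm_num) hle
    _ = Nat.card (LinearMap.ker L) := hcard.symm
    _ = Set.ncard ((fun u : E nt => v₀ + u) '' (LinearMap.ker L : Set (E nt))) := by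
        rw [Set.ncard_image_of_injective _ (add_right_injective v₀)]
        rfl
    _ ≤ Set.ncard S := by
        refine Set.ncard_le_ncard ?_ (Set.toFinite S)
        rintro _ ⟨u, hu, rfl⟩
        have hu' : L u = 0 := hu
        have h1 : ψ u = 0 := congrArg Prod.fst hu'
        have h2 : g u = 0 := congrArg Prod.snd hu'
        exact hS _ (by rw [map_add, h1, add_zero]) (by rw [map_add, h2, add_zero])

theorem p2_lt_mD {D : Finset ℕ} {a : ℕ} (ha : a ∈ D) : a < mD D :=
  Nat.lt_of_succ_le (Finset.le_sup (f := Nat.succ) ha)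

/-- The statement reduced to one point: it is enough to find a base point and a functional. -/
theorem p2_reduce {ns nt : ℕ} (ψ : E nt →ₗ[ZMod 3] E ns) (hψ : Function.Surjective ψ)
    (Ts : Set (E ns)) (Tt : Set (E nt)) (h1 : ∀ v, ψ v ∈ Ts → v ∈ Tt)
    (h2 : ∀ x, x ∉ Ts → ∃ v₀, ψ v₀ = x ∧ ∃ g : E nt →ₗ[ZMod 3] ZMod 3,
      ∀ v, ψ v = x → g v = g v₀ → v ∉ Tt) :
    ∃ ψ : E nt →ₗ[ZMod 3] E ns, Function.Surjective ψ ∧
      Ts = {x | ∀ v, ψ v = x → v ∈ Tt} ∧
      ∀ x, x ∉ Ts → 3 ^ (nt - ns - 1) ≤ Set.ncard {v : E nt | ψ v = x ∧ v ∉ Tt} := by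
  refine ⟨ψ, hψ, ?_, ?_⟩
  · ext x
    constructor
    · intro hx v hv
      exact h1 v (hv ▸ hx)
    · intro hx
      by_contra hx'
      obtain ⟨v₀, hv₀, g, hg⟩ := h2 x hx'
      exact hg v₀ hv₀ rfl (hx v₀ hv₀)
  · intro x hx
    obtain ⟨v₀, hv₀, g, hg⟩ := h2 x hx
    refine p2_count ψ g v₀ _ fun v hv hgv => ?_
    rw [hv₀] at hv
    exact ⟨hv, hg v hv hgv⟩

theorem z3_cases (x : ZMod 3) : x = 0 ∨ x = 1 ∨ x = 2 := by revert x; decide

end P2aux

/-- (3.3) (coordinate with P1: the computation of the image pattern can be shared, or redone). -/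
theorem rep_fibre (rk : ℕ → Ordinal.{0}) (hrk : Function.Injective rk) (Ds Dt : Finset ℕ)
    (hDs : IsDS rk Ds) (hDt : IsDS rk Dt) (hsub : Ds ⊆ Dt) {ns nt : ℕ} (hn : ns < nt)
    (Ts : Set (E ns)) (Tt : Set (E nt)) (hs : Rep rk Ds Ts) (ht : Rep rk Dt Tt) :
    ∃ ψ : E nt →ₗ[ZMod 3] E ns, Function.Surjective ψ ∧
      Ts = {x | ∀ v, ψ v = x → v ∈ Tt} ∧
      ∀ x, x ∉ Ts → 3 ^ (nt - ns - 1) ≤ Set.ncard {v : E nt | ψ v = x ∧ v ∉ Tt} := by
  classical
  obtain ⟨ηs, ws, ys, hsI, rfl⟩ := hs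
  obtain ⟨ηt, wt, yt, htI, rfl⟩ := ht
  rcases Finset.eq_empty_or_nonempty Dt with hDt0 | hDtn
  · -- both empty
    subst hDt0
    have hDs0 : Ds = ∅ := Finset.subset_empty.1 hsub
    subst hDs0
    obtain ⟨ψ, hψ, -, -⟩ := p2_ext (I := Empty) (ns := ns) (nt := nt) 0 0
      (fun c => ⟨0, Subsingleton.elim _ _⟩) (fun c => ⟨0, Subsingleton.elim _ _⟩) hn 0 (map_zero _)
    refine p2_reduce ψ hψ _ _ ?_ ?_
    · rintro v (⟨-, a, ha, -⟩ | ⟨-, a, ha, -⟩) <;> simp at ha
    · intro x _
      obtain ⟨v₀, hv₀⟩ := hψ x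
      refine ⟨v₀, hv₀, 0, fun v _ _ => ?_⟩
      rintro (⟨-, a, ha, -⟩ | ⟨-, a, ha, -⟩) <;> simp at ha
  have hFt := htI hDtn
  have hsurjt := p2_surj _ hFt
  rcases Finset.eq_empty_or_nonempty Ds with hDs0 | hDsn
  · subst hDs0
    obtain ⟨k, hk⟩ := hsurjt (Pi.single (Sum.inl ()) 1)
    have hk1 : ηt k = 1 := by
      have := congrFun hk (Sum.inl ())
      simpa using this
    obtain ⟨ψ, hψ, -, hψk⟩ := p2_ext (I := Empty) (ns := ns) (nt := nt) 0 0
      (fun c => ⟨0, Subsingleton.elim _ _⟩) (fun c => ⟨0, Subsingleton.elim _ _⟩) hn k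
      (Subsingleton.elim _ _)
    refine p2_reduce ψ hψ _ _ ?_ ?_
    · rintro v (⟨-, a, ha, -⟩ | ⟨-, a, ha, -⟩) <;> simp at ha
    · intro x _
      obtain ⟨v₁, hv₁⟩ := hψ x
      refine ⟨v₁ - ηt v₁ • k, by rw [map_sub, map_smul, hψk, smul_zero, sub_zero, hv₁], ηt,
        fun v _ hv => ?_⟩
      have h0 : ηt v = 0 := by
        rw [hv, map_sub, map_smul, hk1, smul_eq_mul, mul_one, sub_self]
      rintro (⟨h, -⟩ | ⟨h, -⟩)
      · have h' : ηt v = 1 := h
        rw [h0] at h'; exact absurd h' (by decide)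
      · have h' : ηt (-v) = 1 := h
        rw [map_neg, h0] at h'; exact absurd h' (by decide)
  -- main case
  have hFs := hsI hDsn
  have hsurjs := p2_surj _ hFs
  have hmst : mD Ds ≤ mD Dt := Finset.sup_mono hsub
  let inc : (Unit ⊕ ({i // i < mD Ds} ⊕ {b // b ∈ Ds})) →
      (Unit ⊕ ({i // i < mD Dt} ⊕ {b // b ∈ Dt})) :=
    Sum.map id (Sum.map (fun i => ⟨i.1, i.2.trans_le hmst⟩) (fun b => ⟨b.1, hsub b.2⟩))
  have hinc : Function.Injective inc := by
    rintro (x | x | x) (y | y | y) hxy <;> simp [inc] at hxy ⊢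
    · exact Subtype.ext hxy
    · exact hxy
  let A : E nt →ₗ[ZMod 3] ((Unit ⊕ ({i // i < mD Ds} ⊕ {b // b ∈ Ds})) → ZMod 3) :=
    LinearMap.pi fun x => (Sum.elim (fun _ => ηt) (Sum.elim (fun i => wt i.1) (fun b => yt b.1)) x :
          E nt →ₗ[ZMod 3] ZMod 3)
  have hA : ∀ (c : (Unit ⊕ ({i // i < mD Ds} ⊕ {b // b ∈ Ds})) → ZMod 3) (v : E nt),
      LinearMap.pi (fun x : Unit ⊕ ({i // i < mD Dt} ⊕ {b // b ∈ Dt}) =>
        (Sum.elim (fun _ => ηt) (Sum.elim (fun i => wt i.1) (fun b => yt b.1)) x :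
          E nt →ₗ[ZMod 3] ZMod 3)) v = Function.extend inc c (fun _ => 1) → A v = c := by
    intro c v hv
    funext x
    have h := congrFun hv (inc x)
    rw [hinc.extend_apply] at h
    rw [← h]
    rcases x with x | x | x <;> rfl
  have hAs : Function.Surjective A := by
    intro c
    obtain ⟨v, hv⟩ := hsurjt (Function.extend inc c (fun _ => 1))
    exact ⟨v, hA c v hv⟩
  obtain ⟨k, hk⟩ := hsurjt (Function.extend inc 0 (fun _ => 1))
  have hkA : A k = 0 := hA 0 k hk
  have hkw : ∀ i, mD Ds ≤ i → i < mD Dt → wt i k = 1 := by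
    intro i h1 h2
    have h := congrFun hk (Sum.inr (Sum.inl ⟨i, h2⟩))
    rw [Function.extend_apply'] at h
    · exact h
    · rintro ⟨x | x | x, hx⟩
      · simp [inc] at hx
      · simp [inc] at hx
        have := x.2
        omega
      · simp [inc] at hx
  have hky : ∀ b, b ∉ Ds → b ∈ Dt → yt b k = 1 := by
    intro b h1 h2
    have h := congrFun hk (Sum.inr (Sum.inr ⟨b, h2⟩))
    rw [Function.extend_apply'] at h
    · exact h
    · rintro ⟨x | x | x, hx⟩
      · simp [inc] at hx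
      · simp [inc] at hx
      · simp [inc] at hx
        exact h1 (hx ▸ x.2)
  obtain ⟨ψ, hψ, hψA, hψk⟩ := p2_ext A _ hAs hsurjs hn k hkA
  have hη : ∀ v, ηt v = ηs (ψ v) := fun v => (congrFun (hψA v) (Sum.inl ())).symm
  have hw : ∀ i, i < mD Ds → ∀ v, wt i v = ws i (ψ v) := fun i hi v =>
    (congrFun (hψA v) (Sum.inr (Sum.inl ⟨i, hi⟩))).symm
  have hy : ∀ b, b ∈ Ds → ∀ v, yt b v = ys b (ψ v) := fun b hb v =>
    (congrFun (hψA v) (Sum.inr (Sum.inr ⟨b, hb⟩))).symm
  -- plus parts
  have plus : ∀ v, Tp rk Ds (fun v => ηs v) (fun i v => ws i v) (fun b v => ys b v) (ψ v) →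
      Tp rk Dt (fun v => ηt v) (fun i v => wt i v) (fun b v => yt b v) v := by
    rintro v ⟨h1, a, ha, h2, h3, h4⟩
    refine ⟨by simpa [hη] using h1, a, hsub ha, fun i hi => ?_, ?_, fun b hb hba => ?_⟩
    · have := h2 i hi
      simpa [hw i (hi.trans (p2_lt_mD ha))] using this
    · simpa [hw a (p2_lt_mD ha)] using h3
    · have hbs : b ∈ Ds := hDs a ha b hba
      simpa [hy b hbs] using h4 b hbs hba
  -- the key: fibres over points with `ηs x = 1` that are not in the plus part
  have key : ∀ x, ηs x = 1 →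
      ¬ Tp rk Ds (fun v => ηs v) (fun i v => ws i v) (fun b v => ys b v) x →
      ∃ v₀, ψ v₀ = x ∧ ∃ g : E nt →ₗ[ZMod 3] ZMod 3, ∀ v, ψ v = x → g v = g v₀ →
        ¬ Tp rk Dt (fun v => ηt v) (fun i v => wt i v) (fun b v => yt b v) v := by
    intro x hx hxT
    obtain ⟨v₁, hv₁⟩ := hψ x
    by_cases hex : ∃ i, i < mD Ds ∧ ws i x ≠ 0
    · -- first index
      have hP := Nat.find_spec hex
      have hmin : ∀ i, i < Nat.find hex → ws i x = 0 := by
        intro i hi
        by_contra h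
        exact Nat.find_min hex hi ⟨hi.trans hP.1, h⟩
      generalize Nat.find hex = a at hP hmin
      by_cases haD : ws a x = 1 ∧ a ∈ Dt ∧ a ∉ Ds
      · -- use `yt a`
        obtain ⟨h1, h2, h3⟩ := haD
        obtain ⟨v₀, hv₀, hne⟩ : ∃ v₀, ψ v₀ = x ∧ yt a v₀ ≠ 0 := by
          by_cases h : yt a v₁ = 0
          · refine ⟨v₁ + k, by rw [map_add, hψk, add_zero, hv₁], ?_⟩
            rw [map_add, h, hky a h3 h2]; decide
          · exact ⟨v₁, hv₁, h⟩
        refine ⟨v₀, hv₀, yt a, fun v hv hgv => ?_⟩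
        rintro ⟨-, b, hb, h5, h6, h7⟩
        have hab : b = a := by
          rcases lt_trichotomy b a with h | h | h
          · exfalso
            have h8 := hmin b h
            have h9 : wt b v = 1 := h6
            rw [hw b (h.trans hP.1), hv, h8] at h9
            exact absurd h9 (by decide)
          · exact h
          · exfalso
            have h9 : wt a v = 0 := h5 a h
            rw [hw a hP.1, hv] at h9
            exact hP.2 h9
        subst hab
        have h10 : yt b v = 0 := h7 b hb ⟨le_rfl, le_rfl⟩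
        rw [hgv] at h10
        exact hne h10
      · refine ⟨v₁, hv₁, 0, fun v hv _ => ?_⟩
        rintro ⟨-, b, hb, h5, h6, h7⟩
        have hab : b = a := by
          rcases lt_trichotomy b a with h | h | h
          · exfalso
            have h8 := hmin b h
            have h9 : wt b v = 1 := h6
            rw [hw b (h.trans hP.1), hv, h8] at h9
            exact absurd h9 (by decide)
          · exact h
          · exfalso
            have h9 : wt a v = 0 := h5 a h
            rw [hw a hP.1, hv] at h9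
            exact hP.2 h9
        subst hab
        have h9 : wt b v = 1 := h6
        rw [hw b hP.1, hv] at h9
        have hbs : b ∈ Ds := by
          by_contra h
          exact haD ⟨h9, hb, h⟩
        refine hxT ⟨hx, b, hbs, hmin, h9, fun c hc hcb => ?_⟩
        have h10 : yt c v = 0 := h7 c (hsub hc) hcb
        rw [hy c hc, hv] at h10
        exact h10
    · push Not at hex
      by_cases hm : mD Ds < mD Dt
      · refine ⟨v₁ + (2 - wt (mD Ds) v₁) • k, by rw [map_add, map_smul, hψk, smul_zero, add_zero,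
          hv₁], wt (mD Ds), fun v hv hgv => ?_⟩
        have h2 : wt (mD Ds) v = 2 := by
          rw [hgv, map_add, map_smul, hkw _ le_rfl hm, smul_eq_mul, mul_one]; ring
        rintro ⟨-, b, hb, h5, h6, h7⟩
        rcases lt_trichotomy b (mD Ds) with h | h | h
        · have h9 : wt b v = 1 := h6
          rw [hw b h, hv, hex b h] at h9
          exact absurd h9 (by decide)
        · subst h
          have h9 : wt (mD Ds) v = 1 := h6
          rw [h2] at h9
          exact absurd h9 (by decide)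
        · have h9 : wt (mD Ds) v = 0 := h5 _ h
          rw [h2] at h9
          exact absurd h9 (by decide)
      · refine ⟨v₁, hv₁, 0, fun v hv _ => ?_⟩
        rintro ⟨-, b, hb, h5, h6, h7⟩
        have h : b < mD Ds := (p2_lt_mD hb).trans_le (not_lt.1 hm)
        have h9 : wt b v = 1 := h6
        rw [hw b h, hv, hex b h] at h9
        exact absurd h9 (by decide)
  refine p2_reduce ψ hψ _ _ ?_ ?_
  · rintro v (h | h)
    · exact Or.inl (plus v h)
    · refine Or.inr (plus (-v) ?_)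
      rw [map_neg]; exact h
  · intro x hx
    have hx1 : ¬ Tp rk Ds (fun v => ηs v) (fun i v => ws i v) (fun b v => ys b v) x :=
      fun h => hx (Or.inl h)
    have hx2 : ¬ Tp rk Ds (fun v => ηs v) (fun i v => ws i v) (fun b v => ys b v) (-x) :=
      fun h => hx (Or.inr h)
    rcases z3_cases (ηs x) with h0 | h1 | h2
    · obtain ⟨v₁, hv₁⟩ := hψ x
      refine ⟨v₁, hv₁, 0, fun v hv _ => ?_⟩
      rintro (⟨h, -⟩ | ⟨h, -⟩)
      · have h' : ηt v = 1 := h
        rw [hη, hv, h0] at h'; exact absurd h' (by decide)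
      · have h' : ηt (-v) = 1 := h
        rw [hη, map_neg, hv, map_neg, h0] at h'; exact absurd h' (by decide)
    · obtain ⟨v₀, hv₀, g, hg⟩ := key x h1 hx1
      refine ⟨v₀, hv₀, g, fun v hv hgv => ?_⟩
      rintro (h | ⟨h, -⟩)
      · exact hg v hv hgv h
      · have h' : ηt (-v) = 1 := h
        rw [hη, map_neg, hv, map_neg, h1] at h'; exact absurd h' (by decide)
    · have h2' : ηs (-x) = 1 := by rw [map_neg, h2]; decide
      obtain ⟨v₀, hv₀, g, hg⟩ := key (-x) h2' hx2
      refine ⟨-v₀, by rw [map_neg, hv₀, neg_neg], g, fun v hv hgv => ?_⟩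
      rintro (⟨h, -⟩ | h)
      · have h' : ηt v = 1 := h
        rw [hη, hv, h2] at h'; exact absurd h' (by decide)
      · exact hg (-v) (by rw [map_neg, hv]) (by rw [map_neg, hgv, map_neg, neg_neg]) h

end Pool.Agent.OH
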