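import Pool.Agent.OH.Defs3
import Pool.Agent.OH.Downsets

set_option autoImplicit false

namespace Pool.Agent.OH

/-- (3.0) Finite down-sets for `⊑` are well-quasi-ordered by inclusion
(Higman: `(ℕ,⊑)` is wqo, a finite down-set `D ⊆ D'` iff every `a ∈ D` is `⊑` some `b ∈ D'`). -/
theorem ds_wqo (rk : ℕ → Ordinal.{0}) (hrk : Function.Injective rk) (D : ℕ → Finset ℕ)
    (hD : ∀ t, IsDS rk (D t)) :
    ∃ g : ℕ → ℕ, StrictMono g ∧ ∀ s t, s ≤ t → D (g s) ⊆ D (g t) := by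
  obtain ⟨g, hg⟩ := downset_subseq rk D hD
  exact ⟨g, g.strictMono, hg⟩

end Pool.Agent.OH
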