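import Pool.Agent.OH.K3
import Pool.Agent.OH.K4
import Pool.Agent.OH.K5
import Pool.Agent.OH.K6
import Pool.Agent.OH.P2
import Pool.Agent.OH.W2

set_option autoImplicit false

namespace Pool.Agent.OH

/-- Dickson's lemma, keeping the zero sets. -/
private theorem dick0 {ι : Type} [Finite ι] (f : ℕ → ι → ℕ) : ∃ g : ℕ → ℕ, StrictMono g ∧
    ∀ s t, s ≤ t → ∀ i, f (g s) i ≤ f (g t) i ∧ (f (g s) i = 0 ↔ f (g t) i = 0) := by
  classical
  let F : ℕ → (ι × Bool) → ℕ := fun t p =>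
    if p.2 = true then f t p.1 else (if f t p.1 = 0 then 1 else 0)
  obtain ⟨g, hg⟩ := (Set.isPWO_of_wellQuasiOrderedLE
    (Set.univ : Set ((ι × Bool) → ℕ))).exists_monotone_subseq (f := F) (fun _ => Set.mem_univ _)
  refine ⟨g, g.strictMono, fun s t hst i => ?_⟩
  have h1 : f (g s) i ≤ f (g t) i := by
    have := hg hst (i, true)
    simpa [F] using this
  refine ⟨h1, fun h0 => ?_, fun h0 => by omega⟩
  have := hg hst (i, false)
  by_contra hc
  simp [F, h0, hc] at this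

open Classical in
/-- The case of equal `n`, with an equality of numbers instead of a definitional one. -/
private theorem blockRed_fix' {n n' M : ℕ} (hn : n = M) (hn' : n' = M) {J J' : Type} [Fintype J] [Fintype J']
    (v : J → E n) (a : J → ℕ)
    (v' : J' → E n') (b : J' → ℕ) (hv : ∀ j, PosV (v j)) (hv' : ∀ j, PosV (v' j))
    (ha : Exp a) (hb : Exp b) (hra : Residue v a) (hrb : Residue v' b)
    (hcount : ∀ (x : ℕ → ZMod 3) (k : ℕ),
      (Finset.univ.filter (fun i => (∀ m, m < M → co (v i) m = x m) ∧ a i = k)).card ≤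
      (Finset.univ.filter (fun j => (∀ m, m < M → co (v' j) m = x m) ∧ b j = k)).card ∧
      ((Finset.univ.filter (fun i => (∀ m, m < M → co (v i) m = x m) ∧ a i = k)).card = 0 ↔
      (Finset.univ.filter (fun j => (∀ m, m < M → co (v' j) m = x m) ∧ b j = k)).card = 0)) :
    ∃ ψ : E n' →ₗ[ZMod 3] E n, BlockRed v a v' b ψ := by
  subst hn
  subst hn'
  have key : ∀ x y : E n', (∀ m, m < n' → co x m = co y m) ↔ x = y := by
    intro x y
    constructor
    · intro h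
      funext i
      have := h i.1 i.2
      simpa [co, i.2] using this
    · rintro rfl; simp
  refine ⟨LinearMap.id, blockRed_fix v a v' b hv hv' ha hb hra hrb ?_ ?_⟩
  · intro j
    have h := (hcount (co (v' j)) (b j)).2
    simp only [key] at h
    have h2 : (Finset.univ.filter (fun j' => v' j' = v' j ∧ b j' = b j)).card ≠ 0 := by
      rw [Finset.card_ne_zero]
      exact ⟨j, by simp⟩
    obtain ⟨i, hi⟩ := Finset.card_ne_zero.1 (fun h' => h2 (h.1 h'))
    exact ⟨i, (Finset.mem_filter.1 hi).2.1⟩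
  · intro x k
    have h := (hcount (co x) k).1
    simp only [key] at h
    exact h

/-- (5.3) good pairs. -/
theorem good_pair (rk : ℕ → Ordinal.{0}) (hrk : Function.Injective rk) (X : Set (Finset ℕ))
    (hX : ∀ D ∈ X, IsDS rk D) (s : ℕ → Shape) (hs : ∀ t, Spanning (s t).v)
    (hpos : ∀ t j, PosV ((s t).v j)) (a : ∀ t, (s t).J → ℕ) (ha : ∀ t, Exp (a t))
    (j : ∀ t, Fin (s t).p) (τ : ℕ → Bool)
    (hocc : ∀ t, ∃ f ∈ DX rk X (s t),
      cfQ (s t) (a t) (if τ t = true then Finset.univ.erase (j t) else Finset.univ) f ≠ 0) :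
    ∃ t₁ t₂, t₁ < t₂ ∧ τ t₁ = τ t₂ ∧
    ∃ (ρ : E (s t₁).n →+ E (s t₂).n) (φ : (s t₁).W →+ (s t₂).W), Equi (s t₁) (s t₂) ρ φ ∧
      ∀ c d : Fin (s t₂).p → F4, (∀ i, j t₂ < i → c i = 0 ∧ d i = 0) →
        (τ t₂ = false → c (j t₂) = 0) →
        ∃ c' d' : Fin (s t₁).p → F4,
          comp (s t₁) (a t₁) (fun y u => Fcd (s t₂) (a t₂) c d (φ y) (φ u)) =
            Fcd (s t₁) (a t₁) c' d' ∧
          (∀ i, j t₁ < i → c' i = 0 ∧ d' i = 0) ∧ (τ t₂ = true → c' (j t₁) = c (j t₂)) ∧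
          (τ t₂ = false → c' (j t₁) = 0 ∧ d' (j t₁) = d (j t₂)) := by
  classical
  have hO : ∀ t, (if τ t = true then Finset.univ.erase (j t) else Finset.univ).Nonempty ∧
      Residue (s t).v (a t) ∧ ∃ D ∈ X, ∃ D' ⊆ D, IsDS rk D' ∧ Rep rk D' (Tset (s t).v) := by
    intro t
    obtain ⟨f, hf, hc⟩ := hocc t
    exact occ rk hrk X hX (s t) (hs t) (a t) (ha t) _ f hf hc
  choose hne hres D0 _ D _ hDS hRep using hO
  have hp2 : ∀ t, τ t = true → 2 ≤ (s t).p := by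
    intro t ht
    have h := hne t
    rw [if_pos ht] at h
    obtain ⟨i, hi⟩ := h
    have hij := Finset.ne_of_mem_erase hi
    have h1 := i.2
    have h2 := (j t).2
    have h3 : i.1 ≠ (j t).1 := fun h => hij (Fin.ext h)
    omega
  obtain ⟨g₁, hg₁, hDg⟩ := ds_wqo rk hrk D hDS
  -- reduction to a block reduction
  have red : ∀ t₁ t₂, t₁ < t₂ → (τ t₁ = τ t₂) → (j t₁).1 ≤ (j t₂).1 →
      ((j t₁).1 = 0 ↔ (j t₂).1 = 0) → (s t₁).p - 1 - (j t₁).1 ≤ (s t₂).p - 1 - (j t₂).1 →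
      ((s t₁).p - 1 - (j t₁).1 = 0 ↔ (s t₂).p - 1 - (j t₂).1 = 0) →
      (∃ ψ : E (s t₂).n →ₗ[ZMod 3] E (s t₁).n,
        BlockRed (s t₁).v (a t₁) (s t₂).v (a t₂) ψ) →
      ∃ t₁ t₂, t₁ < t₂ ∧ τ t₁ = τ t₂ ∧
      ∃ (ρ : E (s t₁).n →+ E (s t₂).n) (φ : (s t₁).W →+ (s t₂).W), Equi (s t₁) (s t₂) ρ φ ∧
        ∀ c d : Fin (s t₂).p → F4, (∀ i, j t₂ < i → c i = 0 ∧ d i = 0) →
          (τ t₂ = false → c (j t₂) = 0) →
          ∃ c' d' : Fin (s t₁).p → F4,
            comp (s t₁) (a t₁) (fun y u => Fcd (s t₂) (a t₂) c d (φ y) (φ u)) =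
              Fcd (s t₁) (a t₁) c' d' ∧
            (∀ i, j t₁ < i → c' i = 0 ∧ d' i = 0) ∧ (τ t₂ = true → c' (j t₁) = c (j t₂)) ∧
            (τ t₂ = false → c' (j t₁) = 0 ∧ d' (j t₁) = d (j t₂)) := by
    intro t₁ t₂ hlt hτ h1 h1' h2 h2' ⟨ψ, hψ⟩
    exact ⟨t₁, t₂, hlt, hτ, gp_comb (s t₁) (s t₂) (a t₁) (a t₂) (ha _) (ha _) ψ hψ (j t₁) (j t₂)
      (τ t₂) h1 h1' h2 h2' (fun h => hp2 t₁ (hτ.trans h))⟩
  -- the basic data
  let dat : ℕ → Fin 3 → ℕ := fun t =>
    ![if τ t = true then 1 else 0, (j t).1, (s t).p - 1 - (j t).1]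
  have hdat : ∀ t₁ t₂, (∀ i, dat t₁ i ≤ dat t₂ i ∧ (dat t₁ i = 0 ↔ dat t₂ i = 0)) →
      (τ t₁ = τ t₂) ∧ (j t₁).1 ≤ (j t₂).1 ∧
      ((j t₁).1 = 0 ↔ (j t₂).1 = 0) ∧ (s t₁).p - 1 - (j t₁).1 ≤ (s t₂).p - 1 - (j t₂).1 ∧
      ((s t₁).p - 1 - (j t₁).1 = 0 ↔ (s t₂).p - 1 - (j t₂).1 = 0) := by
    intro t₁ t₂ h
    refine ⟨?_, (h 1).1, (h 1).2, (h 2).1, (h 2).2⟩
    have h0 := h 0
    simp only [dat, Matrix.cons_val_zero] at h0
    cases h1 : τ t₁ <;> cases h2 : τ t₂ <;> simp [h1, h2] at h0 ⊢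
  by_cases hbd : ∃ N, ∀ k, ∃ t, k ≤ t ∧ (s (g₁ t)).n = N
  · -- constant `n`
    obtain ⟨N, hN⟩ := hbd
    obtain ⟨g₂, hg₂, hg₂N⟩ := Filter.extraction_of_frequently_atTop
      (Filter.frequently_atTop.2 (fun k => (hN k).imp fun t ht => ⟨ht.1, ht.2⟩) :
        ∃ᶠ t in Filter.atTop, (s (g₁ t)).n = N)
    let cnt : ℕ → (E N × Fin 4) → ℕ := fun t p => (Finset.univ.filter (fun i : (s t).J =>
      (∀ m, m < N → co ((s t).v i) m = co p.1 m) ∧ a t i = p.2.1)).card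
    let F : ℕ → (Fin 3 ⊕ (E N × Fin 4)) → ℕ := fun t =>
      Sum.elim (dat (g₁ (g₂ t))) (cnt (g₁ (g₂ t)))
    obtain ⟨g₃, hg₃, hF⟩ := dick0 F
    set t₁ := g₁ (g₂ (g₃ 0)) with ht₁
    set t₂ := g₁ (g₂ (g₃ 1)) with ht₂
    have hlt : t₁ < t₂ := hg₁ (hg₂ (hg₃ Nat.zero_lt_one))
    have hF' := hF 0 1 zero_le_one
    obtain ⟨c1, c2, c3, c4, c5⟩ := hdat t₁ t₂ (fun i => hF' (Sum.inl i))
    refine red t₁ t₂ hlt c1 c2 c3 c4 c5 ?_
    have hn1 : (s t₁).n = N := hg₂N _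
    have hn2 : (s t₂).n = N := hg₂N _
    refine blockRed_fix' hn1 hn2 (s t₁).v (a t₁) (s t₂).v (a t₂) (hpos _) (hpos _)
      (ha _) (ha _) (hres _) (hres _) ?_
    intro x k
    by_cases hk : k < 4
    · have h := hF' (Sum.inr (fun i => x i.1, ⟨k, hk⟩))
      have hco : ∀ m, m < N → co (fun i : Fin N => x i.1) m = x m := by
        intro m hm; simp [co, hm]
      have e1 : ∀ t, (Finset.univ.filter (fun i : (s t).J =>
          (∀ m, m < N → co ((s t).v i) m = co (fun i : Fin N => x i.1) m) ∧ a t i = k)) =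
          Finset.univ.filter (fun i : (s t).J =>
          (∀ m, m < N → co ((s t).v i) m = x m) ∧ a t i = k) := by
        intro t
        apply Finset.filter_congr
        intro i _
        constructor
        · rintro ⟨h1, h2⟩; exact ⟨fun m hm => (h1 m hm).trans (hco m hm), h2⟩
        · rintro ⟨h1, h2⟩; exact ⟨fun m hm => (h1 m hm).trans (hco m hm).symm, h2⟩
      simp only [F, Sum.elim_inr, cnt, e1] at h
      exact h
    · have h1 : ∀ t, (Finset.univ.filter (fun i : (s t).J =>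
          (∀ m, m < N → co ((s t).v i) m = x m) ∧ a t i = k)) = ∅ := by
        intro t
        apply Finset.filter_false_of_mem
        rintro i - ⟨-, h⟩
        have := (ha t i).2
        omega
      rw [h1, h1]; simp
  · -- unbounded `n`
    push Not at hbd
    obtain ⟨g₂, hg₂, hF⟩ := dick0 (fun t => dat (g₁ t))
    set t₁ := g₁ (g₂ 0) with ht₁
    have hbig : ∀ N, ∃ k, ∀ t, k ≤ t → N ≤ (s (g₁ t)).n := by
      intro N
      induction N with
      | zero => exact ⟨0, fun t _ => Nat.zero_le _⟩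
      | succ N ih =>
        obtain ⟨k, hk⟩ := ih
        obtain ⟨k', hk'⟩ := hbd N
        refine ⟨max k k', fun t ht => ?_⟩
        have h1 := hk t ((le_max_left _ _).trans ht)
        have h2 := hk' t ((le_max_right _ _).trans ht)
        omega
    obtain ⟨k, hk⟩ := hbig ((s t₁).n + Fintype.card (s t₁).J + 4)
    set m := max k 1 with hm
    set t₂ := g₁ (g₂ m) with ht₂
    have hn : (s t₁).n + Fintype.card (s t₁).J + 4 ≤ (s t₂).n :=
      hk (g₂ m) ((le_max_left k 1).trans hg₂.le_apply)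
    have hm0 : 0 < m := lt_of_lt_of_le one_pos (le_max_right k 1)
    have hlt : t₁ < t₂ := hg₁ (hg₂ hm0)
    obtain ⟨c1, c2, c3, c4, c5⟩ := hdat t₁ t₂ (hF 0 m hm0.le)
    refine red t₁ t₂ hlt c1 c2 c3 c4 c5 ?_
    obtain ⟨ψ, hψs, hT, hcard⟩ := rep_fibre rk hrk (D t₁) (D t₂) (hDS _) (hDS _)
      (hDg _ _ (hg₂.monotone hm0.le)) (by omega : (s t₁).n < (s t₂).n) (Tset (s t₁).v)
      (Tset (s t₂).v) (hRep _) (hRep _)
    refine ⟨ψ, blockRed_inf (s t₁).v (a t₁) (s t₂).v (a t₂) (hpos _) (fun i => (s t₂).hv i)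
      (ha _) (ha _) (hres _) (hres _) ψ ?_ ?_⟩
    · intro i
      by_contra hc
      push Not at hc
      have h1 : ψ ((s t₂).v i) ∈ Tset (s t₁).v :=
        ⟨hc.1, fun i' => ⟨fun h => (hc.2 i').1 h.symm, fun h => (hc.2 i').2 (by rw [h, neg_neg])⟩⟩
      rw [hT] at h1
      exact ((h1 _ rfl).2 i).1 rfl
    · intro i
      have h1 : (s t₁).v i ∉ Tset (s t₁).v := fun h => (h.2 i).1 rfl
      have h2 := hcard _ h1
      have h3 : {w : E (s t₂).n | ψ w = (s t₁).v i ∧ w ∉ Tset (s t₂).v} =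
          {x : E (s t₂).n | ψ x = (s t₁).v i ∧ ∃ j, (s t₂).v j = x ∨ (s t₂).v j = -x} := by
        ext w
        simp only [Set.mem_ofPred_eq, Tset, not_and, not_forall, not_not]
        refine and_congr_right fun hw => ?_
        have hw0 : w ≠ 0 := by
          rintro rfl
          rw [map_zero] at hw
          exact (s t₁).hv i hw.symm
        constructor
        · intro h
          obtain ⟨j', hj'⟩ := h hw0
          refine ⟨j', ?_⟩
          by_cases hjw : (s t₂).v j' = w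
          · exact Or.inl hjw
          · exact Or.inr (hj' hjw)
        · rintro ⟨j', hj'⟩ _
          refine ⟨j', fun hne' => ?_⟩
          exact hj'.resolve_left hne'
      rw [h3] at h2
      refine le_trans ?_ h2
      have h4 : Fintype.card (s t₁).J + 3 ≤ (s t₂).n - (s t₁).n - 1 := by omega
      refine le_trans ?_ (Nat.pow_le_pow_right (by norm_num) h4)
      have h5 : Fintype.card (s t₁).J < 3 ^ Fintype.card (s t₁).J :=
        Nat.lt_pow_self (by norm_num)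
      rw [pow_add]
      omega

end Pool.Agent.OH
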