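import Pool.Agent.OH.ZDefs

set_option autoImplicit false
set_option linter.unusedSectionVars false

namespace Pool.Agent.OH

/-- The top family. -/
def Top : TIF where
  S _ _ := ⊤
  normal := by intros; trivial
  thom_mem := by intros; trivial

namespace L1aux

/-- membership depends only on `bar` -/
lemma mem_of_bar {M : TIF} (hM : T2 ≤ M) {l n : ℕ} {w w' : T l n} (hw : w ∈ M.S l n)
    (h : bar w = bar w') : w' ∈ M.S l n := by
  have h1 : w⁻¹ * w' ∈ M.S l n := by
    refine hM l n ?_
    rw [mem_T2, bar_mul, bar_inv, h, u_add_self]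
  have h2 := (M.S l n).mul_mem hw h1
  rwa [mul_inv_cancel_left] at h2

/-- all row sums of `bar w` vanish -/
def Z {l n : ℕ} (w : T l n) : Prop := ∀ i, ∑ e, bar w (i, e) = 0

lemma zmod2_cases (x : ZMod 2) : x = 0 ∨ x = 1 := by revert x; decide

/-- `bar` of the image under a T-hom supported on the index `i` -/
lemma bar_thom_one {l n n' : ℕ} (ρ : E n →+ E n') (i : Fin l) (w : T l n) (s : E n') :
    bar (thom ρ (fun j => if j = i then yy (0 : Fin 1) (0 : E n') else 1) w) (0, s) =
      ∑ e, if ρ e = s then bar w (i, e) else 0 := by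
  rw [bar_map]
  have h1 : ∀ p : Fin l × E n,
      bar (thom ρ (fun j => if j = i then yy (0 : Fin 1) (0 : E n') else 1) (FreeGroup.of p)) =
        if p.1 = i then Pi.single ((0 : Fin 1), ρ p.2) 1 else 0 := by
    intro p
    rw [thom_of]
    split_ifs with h
    · rw [yy, act_of, bar_of, add_zero]
    · rw [map_one, bar_one]
  simp only [ubar, AddMonoidHom.coe_mk, ZeroHom.coe_mk, h1]
  rw [Finset.sum_apply, Fintype.sum_prod_type, Finset.sum_eq_single i]
  · refine Finset.sum_congr rfl fun e _ => ?_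
    simp only [if_true, Pi.smul_apply, smul_eq_mul]
    by_cases h : ρ e = s
    · rw [if_pos h, h, Pi.single_eq_same, mul_one]
    · rw [if_neg h, Pi.single_eq_of_ne, mul_zero]
      intro h2
      exact h (Prod.mk.inj h2).2.symm
  · intro j _ hj
    refine Finset.sum_eq_zero fun e _ => ?_
    simp [hj]
  · intro h; exact absurd (Finset.mem_univ i) h

lemma top_of_not_Z {M : TIF} (hM : T2 ≤ M) {l n : ℕ} {w : T l n} (hw : w ∈ M.S l n)
    (h : ¬ Z w) : M = Top := by
  unfold Z at h
  push Not at h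
  obtain ⟨i, hi⟩ := h
  have hi1 : ∑ e, bar w (i, e) = 1 := (zmod2_cases _).resolve_left hi
  have h1 := M.thom_mem l n 1 0 0 (fun j => if j = i then yy (0 : Fin 1) (0 : E 0) else 1) w hw
  have h2 : yy (0 : Fin 1) (0 : E 0) ∈ M.S 1 0 := by
    refine mem_of_bar hM h1 ?_
    funext p
    obtain ⟨a, s⟩ := p
    have ha : a = 0 := Subsingleton.elim _ _
    subst ha
    rw [bar_thom_one, yy, bar_of]
    have hs : s = 0 := Subsingleton.elim _ _
    subst hs
    rw [Pi.single_eq_same]
    simpa using hi1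
  ext l' n' t
  refine ⟨fun _ => trivial, fun _ => ?_⟩
  have h3 := M.thom_mem 1 0 l' n' 0 (fun _ => t) _ h2
  rw [yy, thom_of] at h3
  simpa [act_zero] using h3

/-- Fourier inversion on `E n` over `F4` -/
lemma fourier_ne {n : ℕ} (u : E n → ZMod 2) (e0 : E n) (h0 : u e0 ≠ 0) :
    ∃ v : E n, ∑ e, F4.c2 (u e) * F4.chi (dot v e) ≠ 0 := by
  by_contra hcon
  push Not at hcon
  have horth : ∀ x : E n, x ≠ 0 → ∑ v : E n, F4.chi (dot v x) = 0 := by
    intro x hx
    obtain ⟨j, hj⟩ := Function.ne_iff.1 hx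
    rw [Pi.zero_apply] at hj
    set a : E n := Pi.single j (x j)⁻¹ with ha
    have hax : dot a x = 1 := by
      rw [dot, ha, single_dotProduct, inv_mul_cancel₀ hj]
    have h1 : ∑ v : E n, F4.chi (dot v x) = F4.chi 1 * ∑ v : E n, F4.chi (dot v x) := by
      rw [Finset.mul_sum, ← Equiv.sum_comp (Equiv.addRight a) (fun v : E n => F4.chi (dot v x))]
      refine Finset.sum_congr rfl fun v _ => ?_
      rw [Equiv.coe_addRight, dot, add_dotProduct, F4.chi_add]
      rw [show a ⬝ᵥ x = 1 from hax, mul_comm]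
    have h2 : (1 - F4.chi 1) * ∑ v : E n, F4.chi (dot v x) = 0 := by
      rw [sub_mul, one_mul, ← h1, sub_self]
    exact (mul_eq_zero.1 h2).resolve_left (by decide)
  have h1 : ∑ v : E n, F4.chi (dot v (-e0)) * ∑ e, F4.c2 (u e) * F4.chi (dot v e) = 0 :=
    Finset.sum_eq_zero fun v _ => by rw [hcon v, mul_zero]
  have h2 : ∑ v : E n, F4.chi (dot v (-e0)) * ∑ e, F4.c2 (u e) * F4.chi (dot v e) =
      ∑ e, F4.c2 (u e) * ∑ v : E n, F4.chi (dot v (e - e0)) := by
    simp_rw [Finset.mul_sum]
    rw [Finset.sum_comm]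
    refine Finset.sum_congr rfl fun e _ => Finset.sum_congr rfl fun v _ => ?_
    have : dot v (e - e0) = dot v (-e0) + dot v e := by
      rw [dot, dot, dot, ← dotProduct_add]
      congr 1
      abel
    rw [this, F4.chi_add]
    ring
  rw [h2, Finset.sum_eq_single e0] at h1
  · rw [sub_self] at h1
    have h3 : ∑ v : E n, F4.chi (dot v (0 : E n)) = 1 := by
      simp only [dot, dotProduct_zero, F4.chi_zero, Finset.sum_const, Finset.card_univ]
      rw [Fintype.card_fun, ZMod.card, Fintype.card_fin, nsmul_eq_mul, mul_one]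
      push_cast
      have h3 : (3 : F4) = 1 := by decide
      rw [h3, one_pow]
    rw [h3, mul_one] at h1
    have h4 : u e0 = 1 := (zmod2_cases _).resolve_left h0
    rw [h4, map_one] at h1
    exact one_ne_zero h1
  · intro e _ he
    rw [horth _ (sub_ne_zero.2 he), mul_zero]
  · intro h; exact absurd (Finset.mem_univ _) h

/-- a nonzero function on `ZMod 3` with zero sum -/
lemma two_of_three (f : ZMod 3 → ZMod 2) (h0 : ∑ s, f s = 0) (h1 : ∃ s, f s ≠ 0) :
    ∃ s0, ∀ s, f s = (if s = s0 then 1 else 0) + (if s = s0 + 1 then 1 else 0) := by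
  revert f
  decide

lemma Z_sum_eq {l n : ℕ} {w : T l n} (hZ : Z w) : bar w = ∑ p : Fin l × E n,
    bar w p • (Pi.single (p.1, (0 : E n)) (1 : ZMod 2) + Pi.single p 1 : U l n) := by
  have h1 : ∑ p : Fin l × E n, bar w p • (Pi.single (p.1, (0 : E n)) (1 : ZMod 2) : U l n) = 0 := by
    rw [Fintype.sum_prod_type]
    refine Finset.sum_eq_zero fun i _ => ?_
    change ∑ y : E n, bar w (i, y) • (Pi.single (i, (0 : E n)) (1 : ZMod 2) : U l n) = 0
    rw [← Finset.sum_smul, hZ i, zero_smul]
  have h2 : bar w = ∑ p : Fin l × E n, bar w p • (Pi.single p 1 : U l n) := by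
    funext q
    rw [Finset.sum_apply, Finset.sum_eq_single q]
    · simp
    · intro b _ hb
      simp [Pi.single_eq_of_ne hb.symm]
    · intro h; exact absurd (Finset.mem_univ _) h
  calc bar w = 0 + ∑ p : Fin l × E n, bar w p • (Pi.single p 1 : U l n) := by rw [zero_add]; exact h2
    _ = _ := by
      rw [← h1, ← Finset.sum_add_distrib]
      refine Finset.sum_congr rfl fun p _ => ?_
      rw [smul_add]

lemma mem_of_Z {M : TIF} (hM : T2 ≤ M) {l n : ℕ} {w : T l n} (hw : w ∈ M.S l n)
    (hZ : Z w) (hne : bar w ≠ 0) {l' n' : ℕ} {w' : T l' n'} (hZ' : Z w') : w' ∈ M.S l' n' := by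
  -- a nonzero element in `(1,1)`
  obtain ⟨⟨i, e0⟩, hp⟩ := Function.ne_iff.1 hne
  rw [Pi.zero_apply] at hp
  obtain ⟨v, hv⟩ := fourier_ne (fun e => bar w (i, e)) e0 hp
  let ρ : E n →+ E 1 :=
    { toFun := fun e _ => dot v e
      map_zero' := by funext x; simp [dot]
      map_add' := by intro x y; funext z; simp [dot, dotProduct_add] }
  set w1 := thom ρ (fun j => if j = i then yy (0 : Fin 1) (0 : E 1) else 1) w with hw1
  have hw1M : w1 ∈ M.S 1 1 := M.thom_mem l n 1 1 ρ _ w hw
  set f : ZMod 3 → ZMod 2 := fun s => bar w1 (0, fun _ => s) with hf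
  have hfs : ∀ s : ZMod 3, f s = ∑ e, if dot v e = s then bar w (i, e) else 0 := by
    intro s
    rw [hf]
    simp only
    rw [hw1, bar_thom_one]
    refine Finset.sum_congr rfl fun e _ => ?_
    have : (ρ e = fun _ => s) ↔ dot v e = s := by
      constructor
      · intro h; exact congrFun h 0
      · intro h; funext _; exact h
    simp only [this]
  have hsum : ∑ s, f s = 0 := by
    simp_rw [hfs]
    rw [Finset.sum_comm]
    simp only [Finset.sum_ite_eq, Finset.mem_univ, if_true]
    exact hZ i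
  have hnz : ∃ s, f s ≠ 0 := by
    by_contra hcon
    push Not at hcon
    apply hv
    have h1 : ∑ e, F4.c2 (bar w (i, e)) * F4.chi (dot v e) =
        ∑ s : ZMod 3, F4.c2 (f s) * F4.chi s := by
      simp_rw [hfs, map_sum, Finset.sum_mul]
      rw [Finset.sum_comm]
      refine Finset.sum_congr rfl fun e _ => ?_
      rw [Finset.sum_eq_single (dot v e)]
      · simp
      · intro s _ hs
        rw [if_neg hs.symm, map_zero, zero_mul]
      · intro h; exact absurd (Finset.mem_univ _) h
    rw [h1]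
    refine Finset.sum_eq_zero fun s _ => ?_
    rw [hcon s, map_zero, zero_mul]
  obtain ⟨s0, hs0⟩ := two_of_three f hsum hnz
  -- so `y_{s0} y_{s0+1}` is in `M`
  have h2 : yy (0 : Fin 1) (fun _ => s0 : E 1) * yy 0 (fun _ => s0 + 1) ∈ M.S 1 1 := by
    refine mem_of_bar hM hw1M ?_
    funext p
    obtain ⟨a, s⟩ := p
    have ha : a = 0 := Subsingleton.elim _ _
    subst ha
    have hs : s = fun _ => s 0 := by
      funext x
      rw [Subsingleton.elim x 0]
    have h3 : bar w1 (0, s) = f (s 0) := by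
      rw [hf]
      simp only
      rw [← hs]
    rw [h3, hs0, bar_mul, yy, yy, bar_of, bar_of, Pi.add_apply, Pi.single_apply, Pi.single_apply]
    have h4 : ∀ c : ZMod 3, ((0 : Fin 1), s) = (0, fun _ => c) ↔ s 0 = c := by
      intro c
      constructor
      · intro h; exact congrFun (Prod.mk.inj h).2 0
      · intro h; rw [hs, h]
    simp only [h4]
  -- hence `t * act k t` for all `t`, `k`
  have h3 : ∀ (k : E n') (t : T l' n'), t * act k t ∈ M.S l' n' := by
    intro k t
    let σ : E 1 →+ E n' :=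
      { toFun := fun s => s 0 • k
        map_zero' := by simp
        map_add' := by intro x y; simp [add_smul] }
    have h4 := M.thom_mem 1 1 l' n' σ (fun _ => act (-(s0 • k)) t) _ h2
    rw [map_mul, yy, yy, thom_of, thom_of, act_act, act_act] at h4
    have e1 : σ (fun _ => s0) + -(s0 • k) = 0 := by
      change s0 • k + -(s0 • k) = 0
      exact add_neg_cancel _
    have e2 : σ (fun _ => s0 + 1) + -(s0 • k) = k := by
      change (s0 + 1) • k + -(s0 • k) = k
      rw [add_smul, one_smul, add_comm (s0 • k), add_neg_cancel_right]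
    simp only at h4
    rw [e1, e2, act_zero] at h4
    exact h4
  -- additive closure
  let A : AddSubgroup (U l' n') :=
    { carrier := {u | ∃ x ∈ M.S l' n', bar x = u}
      zero_mem' := ⟨1, (M.S l' n').one_mem, bar_one⟩
      add_mem' := by
        rintro a b ⟨x, hx, rfl⟩ ⟨y, hy, rfl⟩
        exact ⟨x * y, (M.S l' n').mul_mem hx hy, bar_mul x y⟩
      neg_mem' := by
        rintro a ⟨x, hx, rfl⟩
        exact ⟨x, hx, (u_neg _).symm⟩ }
  have h4 : bar w' ∈ A := by
    rw [Z_sum_eq hZ']
    refine sum_mem fun p _ => ?_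
    rcases zmod2_cases (bar w' p) with h5 | h5
    · rw [h5, zero_smul]; exact A.zero_mem
    · rw [h5, one_smul]
      refine ⟨_, h3 p.2 (yy p.1 0), ?_⟩
      rw [bar_mul, yy, act_of, bar_of, bar_of, add_zero]
  obtain ⟨x, hx, hxw⟩ := h4
  exact mem_of_bar hM hx hxw

end L1aux

open L1aux

/-- Layer 1 (8.4). (Remark: a TIF `M ≥ T_2` is determined by two booleans: does some `M(l,n)/T_2`
have a nonzero component of trivial label, resp. of nontrivial label; so there are at most four.) -/
theorem layer1 : ACC T2 Top := by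
  intro M hmono h2 _
  by_cases hall : ∀ k, M k = T2
  · exact ⟨0, fun k _ => by rw [hall k, hall 0]⟩
  push Not at hall
  obtain ⟨k1, hk1⟩ := hall
  by_cases htop : ∃ k, M k = Top
  · obtain ⟨k, hk⟩ := htop
    refine ⟨k, fun k' hk' => le_antisymm ?_ (hmono hk')⟩
    rw [hk]
    intro l n w _
    trivial
  push Not at htop
  have hZ : ∀ k l n, ∀ w ∈ (M k).S l n, Z w := by
    intro k l n w hw
    by_contra hcon
    exact htop k (top_of_not_Z (h2 k) hw hcon)
  refine ⟨k1, fun k hk => ?_⟩
  have hex : ∀ k', k1 ≤ k' → ∃ (l n : ℕ) (w : T l n), w ∈ (M k').S l n ∧ bar w ≠ 0 := by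
    intro k' hk'
    by_contra hcon
    push Not at hcon
    apply hk1
    refine le_antisymm ?_ (h2 k1)
    intro l n w hw
    rw [mem_T2]
    exact hcon l n w (hmono hk' l n hw)
  refine le_antisymm ?_ (hmono hk)
  intro l n w hw
  obtain ⟨l0, n0, w0, hw0, hne⟩ := hex k1 le_rfl
  exact mem_of_Z (h2 k1) hw0 (hZ k1 l0 n0 w0 hw0) hne (hZ k l n w hw)

end Pool.Agent.OH
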