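import Mathlib

set_option autoImplicit false

/-! # P26 (MP_5f19f1_al), §6.1: ordered surjections give a well-quasi-order on words -/

namespace Pool.Agent.OH

/-- `g : [l'] → [l]` is an ordered surjection: surjective and `min g⁻¹(i)` is increasing in `i`. -/
def OSurj {l l' : ℕ} (g : Fin l' → Fin l) : Prop :=
  Function.Surjective g ∧ ∀ i i', i < i' → ∃ j, g j = i ∧ ∀ j', g j' = i' → j < j'

/-- ordered surjections preserve the first difference: if `u` and `v` first differ at `i` then
`u ∘ g` and `v ∘ g` first differ at `min g⁻¹(i)`. -/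
theorem OSurj.exists_first {l l' : ℕ} {g : Fin l' → Fin l} (hg : OSurj g) (i : Fin l) :
    ∃ j, g j = i ∧ ∀ j', j' < j → g j' < i := by
  classical
  obtain ⟨j0, hj0⟩ := hg.1 i
  -- minimal `j` with `g j = i`
  have hex : ∃ j : Fin l', g j = i := ⟨j0, hj0⟩
  have wf : WellFounded ((· < ·) : Fin l' → Fin l' → Prop) := wellFounded_lt
  obtain ⟨j, hj, hmin⟩ := wf.has_min {j | g j = i} hex
  refine ⟨j, hj, fun j' hj' => ?_⟩
  rcases lt_trichotomy (g j') i with h | h | h
  · exact h
  · exact absurd hj' (hmin j' h)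
  · obtain ⟨j1, hj1, hj1'⟩ := hg.2 i (g j') h
    have := hj1' j' rfl
    exact absurd (this.trans hj') (hmin j1 hj1)

/-- letters of `u` before position `i` -/
noncomputable def pre {A : Type*} {l : ℕ} (u : Fin l → A) (i : Fin l) : Set A :=
  {b | ∃ i' < i, u i' = b}

/-- the embedding of annotated words gives an ordered surjection -/
theorem exists_osurj_of_emb {A : Type*} {l l' : ℕ} (u : Fin l → A) (u' : Fin l' → A)
    (h : Fin l ↪o Fin l') (hu : ∀ i, u' (h i) = u i) (hpre : ∀ i, pre u' (h i) = pre u i)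
    (hal : Set.range u' ⊆ Set.range u) : ∃ g : Fin l' → Fin l, OSurj g ∧ ∀ j, u' j = u (g j) := by
  classical
  have wf : WellFounded ((· < ·) : Fin l → Fin l → Prop) := wellFounded_lt
  have hfirst : ∀ j : Fin l', ∃ i : Fin l, u i = u' j ∧ ∀ i' < i, u i' ≠ u' j := by
    intro j
    obtain ⟨i0, hi0⟩ := hal ⟨j, rfl⟩
    obtain ⟨i, hi, hmin⟩ := wf.has_min {i | u i = u' j} ⟨i0, hi0⟩
    exact ⟨i, hi, fun i' hi' heq => hmin i' heq hi'⟩
  choose fo hfo1 hfo2 using hfirst
  let g : Fin l' → Fin l := fun j => if hj : ∃ i, h i = j then hj.choose else fo j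
  have hgh : ∀ i, g (h i) = i := by
    intro i
    have hex : ∃ i', h i' = h i := ⟨i, rfl⟩
    have : g (h i) = hex.choose := dif_pos hex
    rw [this]
    exact h.injective hex.choose_spec
  have hug : ∀ j, u' j = u (g j) := by
    intro j
    by_cases hj : ∃ i, h i = j
    · obtain ⟨i, rfl⟩ := hj
      rw [hgh, hu]
    · have : g j = fo j := dif_neg hj
      rw [this, hfo1]
  refine ⟨g, ⟨fun i => ⟨h i, hgh i⟩, fun i i' hii' => ⟨h i, hgh i, fun j' hj' => ?_⟩⟩, hug⟩
  have hlt : h i < h i' := h.strictMono hii'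
  by_cases hj : ∃ i, h i = j'
  · obtain ⟨i1, rfl⟩ := hj
    rw [hgh] at hj'
    rw [hj']
    exact hlt
  · have hg' : g j' = fo j' := dif_neg hj
    rw [hg'] at hj'
    -- `i'` is the first occurrence of the letter `u' j'` in `u`
    by_contra hcon
    have hlt' : j' < h i' := lt_of_le_of_lt (not_lt.mp hcon) hlt
    have hmem : u' j' ∈ pre u' (h i') := ⟨j', hlt', rfl⟩
    rw [hpre] at hmem
    obtain ⟨i2, hi2, hi2'⟩ := hmem
    exact hfo2 j' i2 (hj' ▸ hi2) hi2'

/-- (6.1) words over a finite alphabet are well-quasi-ordered by ordered surjections -/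
theorem os_good {A : Type*} [Finite A] (l : ℕ → ℕ) (u : (t : ℕ) → Fin (l t) → A) :
    ∃ s t, s < t ∧ ∃ g : Fin (l t) → Fin (l s), OSurj g ∧ ∀ j, u t j = u s (g j) := by
  classical
  let B := A × Set A
  have : Finite B := inferInstance
  let ann : (t : ℕ) → Fin (l t) → B := fun t i => (u t i, pre (u t) i)
  have hpwo : (Set.univ : Set B).PartiallyWellOrderedOn (· = ·) :=
    Set.Finite.partiallyWellOrderedOn Set.finite_univ
  have hH := hpwo.partiallyWellOrderedOn_sublistForall₂ (· = ·)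
  have hP : IsPreorder (List B) (List.SublistForall₂ (· = ·)) :=
    { refl := (List.SublistForall₂.is_refl (Rₐ := (· = · : B → B → Prop))).refl
      trans := (List.SublistForall₂.is_trans (Rₐ := (· = · : B → B → Prop))).trans }
  obtain ⟨φ, hφ⟩ := hH.exists_monotone_subseq (f := fun t => List.ofFn (ann t)) (fun t => by simp)
  obtain ⟨m, n, hmn, heq⟩ := Finite.exists_ne_map_eq_of_infinite
    (fun n : ℕ => Set.range (u (φ n)))
  wlog hlt : m < n generalizing m n with H
  · exact H n m hmn.symm heq.symm (lt_of_le_of_ne (not_lt.mp hlt) hmn.symm)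
  refine ⟨φ m, φ n, φ.strictMono hlt, ?_⟩
  have hsub := hφ m n hlt.le
  rw [List.sublistForall₂_iff] at hsub
  obtain ⟨L, hL, hL'⟩ := hsub
  have hL2 : List.ofFn (ann (φ m)) = L := List.forall₂_eq_eq_eq ▸ hL
  rw [← hL2, List.sublist_iff_exists_fin_orderEmbedding_get_eq] at hL'
  obtain ⟨f, hf⟩ := hL'
  let c1 : Fin (l (φ m)) ≃o Fin (List.ofFn (ann (φ m))).length :=
    Fin.castOrderIso (by simp)
  let c2 : Fin (List.ofFn (ann (φ n))).length ≃o Fin (l (φ n)) :=
    Fin.castOrderIso (by simp)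
  let h : Fin (l (φ m)) ↪o Fin (l (φ n)) :=
    (c1.toOrderEmbedding.trans f).trans c2.toOrderEmbedding
  have hh : ∀ i, ann (φ n) (h i) = ann (φ m) i := by
    intro i
    have h1 := hf (c1 i)
    have h2 : (List.ofFn (ann (φ m))).get (c1 i) = ann (φ m) i := by
      simp [c1, Fin.castOrderIso]
    have h3 : (List.ofFn (ann (φ n))).get (f (c1 i)) = ann (φ n) (h i) := by
      simp only [c2, h, Fin.castOrderIso, List.get_ofFn]
      rfl
    rw [← h2, h1, h3]
  exact exists_osurj_of_emb (u (φ m)) (u (φ n)) h (fun i => congrArg Prod.fst (hh i))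
    (fun i => congrArg Prod.snd (hh i)) heq.symm.subset

end Pool.Agent.OH
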