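import Pool.Agent.OH.Defs3
import Pool.Agent.OH.OSWqo

set_option autoImplicit false

namespace Pool.Agent.OH

/-- (6.1) Words over a finite alphabet under ordered surjections are well-quasi-ordered.
`h` is the section `i ↦ min g⁻¹(i)`. Proof: annotate each letter by the set of letters occurring
before it, Higman on `A × P(A)` (Mathlib: `Set.PartiallyWellOrderedOn.partiallyWellOrderedOn_sublistForall₂`),
and make the alphabets equal; see the doc. -/
theorem os_wqo {A : Type} [Finite A] (l : ℕ → ℕ) (u : ∀ t, Fin (l t) → A) :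
    ∃ s t, s < t ∧ ∃ (g : Fin (l t) → Fin (l s)) (h : Fin (l s) → Fin (l t)),
      StrictMono h ∧ (∀ i, g (h i) = i) ∧ (∀ j, h (g j) ≤ j) ∧ ∀ j, u t j = u s (g j) := by
  obtain ⟨s, t, hst, g, hg, hu⟩ := os_good l u
  refine ⟨s, t, hst, g, ?_⟩
  have hfirst := hg.exists_first
  choose h hh1 hh2 using hfirst
  have hmin : ∀ i j, g j = i → h i ≤ j := by
    intro i j hj
    by_contra hcon
    exact absurd hj (hh2 i j (not_le.mp hcon)).ne
  refine ⟨h, ?_, hh1, fun j => hmin _ j rfl, hu⟩
  intro i i' hii'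
  obtain ⟨j, hj, hj'⟩ := hg.2 i i' hii'
  exact lt_of_le_of_lt (hmin i j hj) (hj' _ (hh1 i'))

end Pool.Agent.OH
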