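import Pool.Agent.OH.Words

set_option autoImplicit false
set_option linter.unusedSectionVars false

/-! # (6.2): ascending chains at fixed `n` -/

namespace Pool.Agent.OH

/-- the increasing enumeration data used in the leading term orders -/
noncomputable def eE (n : ℕ) : E n ≃ Fin (Fintype.card (E n)) := Fintype.equivFin _
noncomputable def eA (n : ℕ) : (E n → ZMod 2) ≃ Fin (Fintype.card (E n → ZMod 2)) :=
  Fintype.equivFin _

/-- `u ∈ U(l,n)` as a word of length `l`, ordered lexicographically -/
noncomputable def word {l n : ℕ} (u : U l n) : Lex (Fin l → Fin (Fintype.card (E n → ZMod 2))) :=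
  toLex fun i => eA n (fun e => u (i, e))

lemma word_injective {l n : ℕ} : Function.Injective (word : U l n → _) := by
  intro u v h
  funext ⟨i, e⟩
  have h1 := congrFun (congrArg ofLex h) i
  simp only [word, ofLex_toLex] at h1
  exact congrFun ((eA n).injective h1) e

lemma lex_comp {l l' : ℕ} {A : Type} [LinearOrder A] (g : Fin l' → Fin l) (hg : OSurj g)
    (a b : Fin l → A) (h : toLex a ≤ toLex b) : toLex (fun j => a (g j)) ≤ toLex (fun j => b (g j)) := by
  rcases h.eq_or_lt with h | h
  · have : a = b := toLex.injective h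
    rw [this]
  · obtain ⟨i, hi1, hi2⟩ := h
    obtain ⟨j, hj, hj'⟩ := hg.exists_first i
    refine le_of_lt ⟨j, fun j' h' => ?_, ?_⟩
    · exact hi1 (g j') (hj' j' h')
    · change a (g j) < b (g j)
      rw [hj]
      exact hi2

lemma word_le {l l' n : ℕ} (g : Fin l' → Fin l) (hg : OSurj g) (u v : U l n)
    (h : word u ≤ word v) : word (ubar (thg n g) u) ≤ word (ubar (thg n g) v) := by
  have key : ∀ w : U l n, word (ubar (thg n g) w) =
      toLex (fun j => (fun i => eA n (fun e => w (i, e))) (g j)) := by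
    intro w
    unfold word
    congr 1
    funext j
    congr 1
    funext e
    rw [ubar_thg]
  rw [key, key]
  exact lex_comp g hg _ _ h

/-- position relative to `i0` -/
def reg {l : ℕ} (i0 i : Fin l) : Fin 3 := if i < i0 then 0 else if i = i0 then 1 else 2

lemma reg_eq {l l' : ℕ} {i0 i : Fin l} {i0' i' : Fin l'} (h : reg i0 i = reg i0' i') :
    (i < i0 ↔ i' < i0') ∧ (i = i0 ↔ i' = i0') := by
  unfold reg at h
  split_ifs at h with h1 h2 h3 h4 h5 h6 h7 h8 <;>
    first
      | exact absurd h (by decide)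
      | (refine ⟨?_, ?_⟩ <;> constructor <;> intro h9 <;>
          first
            | assumption
            | (exfalso; omega))

/-! ### The case of `U(l,n)` -/

theorem stab_U (n : ℕ) (M : ℕ → ∀ l, AddSubgroup (U l n))
    (hM : ∀ s t, s ≤ t → ∀ l, M s l ≤ M t l)
    (hcl : ∀ t l l' (g : Fin l' → Fin l), OSurj g → ∀ w ∈ M t l, ubar (thg n g) w ∈ M t l') :
    ∃ t₀, ∀ t, t₀ ≤ t → ∀ l, M t l = M t₀ l := by
  classical
  let B : ℕ → Type := fun l => Fin l × E n
  let K : ℕ → Type := fun l => Fin l ×ₗ Fin (Fintype.card (E n))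
  let key : ∀ l, B l → K l := fun l b => toLex (b.1, eE n b.2)
  have hkey : ∀ l, Function.Injective (key l) := by
    rintro l ⟨i, e⟩ ⟨i', e'⟩ h
    have h1 := toLex.injective h
    simp only [Prod.mk.injEq] at h1
    exact Prod.ext h1.1 ((eE n).injective h1.2)
  let c : ∀ l, U l n →+ (B l → ZMod 2) := fun l => AddMonoidHom.id _
  refine lead_stab (I := ℕ) (V := fun l => U l n) (K := K) (fun l => cLead (c l) (key l))
    (fun l w hw => cLead_exists (c l) (fun _ _ h => h) (key l) w hw)
    (fun l w w' κ h h' κ' h'' => cLead_sub (c l) (key l) (hkey l) w w' κ h h' κ' h'')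
    (fun l l' => {θ | ∃ g : Fin l' → Fin l, OSurj g ∧ θ = ubar (thg n g)}) ?_ M hM ?_
  · intro l κ hκ
    have hb : ∀ t, ∃ b : B (l t), key (l t) b = κ t := fun t => by
      obtain ⟨w, b, hb, -⟩ := hκ t
      exact ⟨b, hb⟩
    choose b hb using hb
    obtain ⟨s, t, hst, g, hg, hgu⟩ := os_good (A := Fin 3 × E n) l
      (fun t i => (reg (b t).1 i, (b t).2))
    refine ⟨s, t, hst, ubar (thg n g), ⟨g, hg, rfl⟩, ?_⟩
    have hreg : ∀ j, reg (b t).1 j = reg (b s).1 (g j) := fun j => congrArg Prod.fst (hgu j)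
    have he : (b t).2 = (b s).2 := congrArg Prod.snd (hgu (b t).1)
    have hi : g (b t).1 = (b s).1 := (reg_eq (hreg (b t).1)).2.mp rfl
    rintro w ⟨b', hb', hb1, hb2⟩
    have hbb : b' = b s := hkey _ (hb'.trans (hb s).symm)
    subst hbb
    refine ⟨b t, hb t, ?_, ?_⟩
    · change ubar (thg n g) w ((b t).1, (b t).2) ≠ 0
      rw [ubar_thg, hi, he]
      exact hb1
    · rintro ⟨j, f⟩ hjf
      change ubar (thg n g) w (j, f) ≠ 0 at hjf
      rw [ubar_thg] at hjf
      have h1 := hb2 (g j, f) hjf
      rw [← hb s] at h1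
      rw [← hb t]
      change toLex (g j, eE n f) ≤ toLex ((b s).1, eE n (b s).2) at h1
      change toLex (j, eE n f) ≤ toLex ((b t).1, eE n (b t).2)
      rw [Prod.Lex.toLex_le_toLex] at h1 ⊢
      rcases h1 with h1 | ⟨h1, h2⟩
      · exact Or.inl ((reg_eq (hreg j)).1.mpr h1)
      · exact Or.inr ⟨(reg_eq (hreg j)).2.mpr h1, by rw [he]; exact h2⟩
  · rintro t l l' θ ⟨g, hg, rfl⟩ w hw
    exact hcl t l l' g hg w hw

/-! ### The case of `P(l,n)` -/

/-- the prefixes occurring in `d θ_g` -/
noncomputable def pp {l l' n : ℕ} (g : Fin l' → Fin l) (j : Fin l') (f : E n) : U l' n :=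
  (dd_thg (n := n) g j f).choose

lemma dd_thg' {l l' n : ℕ} (g : Fin l' → Fin l) (j : Fin l') (f : E n) (i : Fin l) (e : E n) :
    dd (thg n g (FreeGroup.of (i, e))) (j, f) = if i = g j ∧ e = f then br (pp g j f) else 0 :=
  (dd_thg (n := n) g j f).choose_spec.1 i e

lemma pp_zero {l l' n : ℕ} (g : Fin l' → Fin l) (j : Fin l') (f : E n)
    (h : ∀ j', g j' = g j → j' = j) : pp g j f = 0 := (dd_thg (n := n) g j f).choose_spec.2 h

lemma pstar_thg {l l' n : ℕ} (g : Fin l' → Fin l) (w : Fin l × E n → Lam (Fin l × E n))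
    (j : Fin l') (f : E n) :
    pstar (thg n g) w (j, f) = lbar (thg n g) (w (g j, f)) * br (pp g j f) := by
  simp only [pstar, AddMonoidHom.coe_mk, ZeroHom.coe_mk]
  rw [Finset.sum_eq_single (g j, f)]
  · rw [dd_thg', if_pos ⟨rfl, rfl⟩]
  · rintro ⟨i, e⟩ _ hne
    rw [dd_thg', if_neg, mul_zero]
    rintro ⟨rfl, rfl⟩
    exact hne rfl
  · simp

lemma ppstar_thg {l l' n : ℕ} (g : Fin l' → Fin l)
    (m : Fin l × E n → Fin l × E n → Lam (Fin l × E n)) (j j' : Fin l') (f f' : E n) :
    ppstar (thg n g) m (j, f) (j', f') =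
      lbar (thg n g) (m (g j, f) (g j', f')) * br (pp g j f + pp g j' f') := by
  simp only [ppstar, AddMonoidHom.coe_mk, ZeroHom.coe_mk]
  rw [Finset.sum_eq_single (g j, f)]
  · rw [Finset.sum_eq_single (g j', f')]
    · rw [dd_thg', dd_thg', if_pos ⟨rfl, rfl⟩, if_pos ⟨rfl, rfl⟩, br_add]
    · rintro ⟨i, e⟩ _ hne
      rw [dd_thg' g j' f', if_neg, mul_zero, mul_zero]
      rintro ⟨rfl, rfl⟩
      exact hne rfl
    · simp
  · rintro ⟨i, e⟩ _ hne
    apply Finset.sum_eq_zero
    rintro ⟨i', e'⟩ _
    rw [dd_thg' g j f, if_neg, zero_mul, mul_zero]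
    rintro ⟨rfl, rfl⟩
    exact hne rfl
  · simp

theorem stab_P (n : ℕ) (M : ℕ → ∀ l, AddSubgroup (Fin l × E n → Lam (Fin l × E n)))
    (hM : ∀ s t, s ≤ t → ∀ l, M s l ≤ M t l)
    (hcl : ∀ t l l' (g : Fin l' → Fin l), OSurj g → ∀ w ∈ M t l, pstar (thg n g) w ∈ M t l') :
    ∃ t₀, ∀ t, t₀ ≤ t → ∀ l, M t l = M t₀ l := by
  classical
  let B : ℕ → Type := fun l => (Fin l × E n) × U l n
  let K : ℕ → Type := fun l => Fin l ×ₗ (Fin (Fintype.card (E n)) ×ₗ
    Lex (Fin l → Fin (Fintype.card (E n → ZMod 2))))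
  let key : ∀ l, B l → K l := fun l b => toLex (b.1.1, toLex (eE n b.1.2, word b.2))
  have hkey : ∀ l, Function.Injective (key l) := by
    rintro l ⟨⟨i, e⟩, u⟩ ⟨⟨i', e'⟩, u'⟩ h
    have h1 := toLex.injective h
    simp only [Prod.mk.injEq] at h1
    obtain ⟨h1, h2⟩ := h1
    have h3 := toLex.injective h2
    simp only [Prod.mk.injEq] at h3
    exact Prod.ext (Prod.ext h1 ((eE n).injective h3.1)) (word_injective h3.2)
  let c : ∀ l, (Fin l × E n → Lam (Fin l × E n)) →+ (B l → ZMod 2) := fun l =>
    { toFun := fun w b => (w b.1).coeff b.2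
      map_zero' := by funext b; simp
      map_add' := fun w w' => by funext b; simp }
  have hc : ∀ l, Function.Injective (c l) := by
    intro l w w' h
    funext a
    ext u
    exact congrFun h (a, u)
  have : ∀ l, Finite (K l) := fun l => by
    have : Finite (Lex (Fin l → Fin (Fintype.card (E n → ZMod 2)))) :=
      inferInstanceAs (Finite (Fin l → Fin (Fintype.card (E n → ZMod 2))))
    have : Finite (Fin (Fintype.card (E n)) ×ₗ
        Lex (Fin l → Fin (Fintype.card (E n → ZMod 2)))) :=
      inferInstanceAs (Finite (Fin (Fintype.card (E n)) ×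
        Lex (Fin l → Fin (Fintype.card (E n → ZMod 2)))))
    exact inferInstanceAs (Finite (Fin l × (Fin (Fintype.card (E n)) ×ₗ
        Lex (Fin l → Fin (Fintype.card (E n → ZMod 2))))))
  refine lead_stab (I := ℕ) (V := fun l => (Fin l × E n → Lam (Fin l × E n))) (K := K)
    (fun l => cLead (c l) (key l))
    (fun l w hw => cLead_exists (c l) (hc l) (key l) w hw)
    (fun l w w' κ h h' κ' h'' => cLead_sub (c l) (key l) (hkey l) w w' κ h h' κ' h'')
    (fun l l' => {θ | ∃ g : Fin l' → Fin l, OSurj g ∧ θ = pstar (thg n g)}) ?_ M hM ?_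
  · intro l κ hκ
    have hb : ∀ t, ∃ b : B (l t), key (l t) b = κ t := fun t => by
      obtain ⟨w, b, hb, -⟩ := hκ t
      exact ⟨b, hb⟩
    choose b hb using hb
    obtain ⟨s, t, hst, g, hg, hgu⟩ := os_good (A := (E n → ZMod 2) × Fin 3 × E n) l
      (fun t i => (fun e => (b t).2 (i, e), reg (b t).1.1 i, (b t).1.2))
    refine ⟨s, t, hst, pstar (thg n g), ⟨g, hg, rfl⟩, ?_⟩
    have hu : ∀ j e, (b t).2 (j, e) = (b s).2 (g j, e) := fun j e =>
      congrFun (congrArg Prod.fst (hgu j)) e
    have hreg : ∀ j, reg (b t).1.1 j = reg (b s).1.1 (g j) := fun j =>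
      congrArg (fun x => x.2.1) (hgu j)
    have he : (b t).1.2 = (b s).1.2 := congrArg (fun x => x.2.2) (hgu (b t).1.1)
    have hi : g (b t).1.1 = (b s).1.1 := (reg_eq (hreg (b t).1.1)).2.mp rfl
    have hu' : (b t).2 = ubar (thg n g) (b s).2 := by
      funext ⟨j, e⟩
      rw [ubar_thg, hu]
    have hpp : ∀ (j : Fin (l t)) (f : E n), j = (b t).1.1 → pp g j f = 0 := by
      rintro j f rfl
      apply pp_zero
      intro j' hj'
      rw [hi] at hj'
      exact (reg_eq (hreg j')).2.mpr hj'
    rintro w ⟨b', hb', hb1, hb2⟩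
    have hbb : b' = b s := hkey _ (hb'.trans (hb s).symm)
    subst hbb
    refine ⟨b t, hb t, ?_, ?_⟩
    · change (pstar (thg n g) w ((b t).1.1, (b t).1.2)).coeff (b t).2 ≠ 0
      rw [pstar_thg, hi, he, hu', hpp _ _ rfl]
      have := (coeff_lbar_mul_br g hg.1 (w ((b s).1.1, (b s).1.2)) 0).1 (b s).2
      rw [add_zero] at this
      rw [this]
      exact hb1
    · rintro ⟨⟨j, f⟩, v⟩ hjf
      change (pstar (thg n g) w (j, f)).coeff v ≠ 0 at hjf
      rw [pstar_thg] at hjf
      obtain ⟨u, hv, hcu⟩ := (coeff_lbar_mul_br g hg.1 (w (g j, f)) (pp g j f)).2 v hjf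
      have h1 := hb2 ((g j, f), u) hcu
      rw [← hb s] at h1
      rw [← hb t]
      change toLex (g j, toLex (eE n f, word u)) ≤
        toLex ((b s).1.1, toLex (eE n (b s).1.2, word (b s).2)) at h1
      change toLex (j, toLex (eE n f, word v)) ≤
        toLex ((b t).1.1, toLex (eE n (b t).1.2, word (b t).2))
      rw [Prod.Lex.toLex_le_toLex] at h1 ⊢
      rcases h1 with h1 | ⟨h1, h2⟩
      · exact Or.inl ((reg_eq (hreg j)).1.mpr h1)
      · have hj : j = (b t).1.1 := (reg_eq (hreg j)).2.mpr h1
        refine Or.inr ⟨hj, ?_⟩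
        dsimp only at h2 ⊢
        rw [Prod.Lex.toLex_le_toLex] at h2 ⊢
        rcases h2 with h2 | ⟨h2, h3⟩
        · exact Or.inl (by rw [he]; exact h2)
        · refine Or.inr ⟨by rw [he]; exact h2, ?_⟩
          dsimp only at h3 ⊢
          rw [hv, hpp j f hj, add_zero, hu']
          exact word_le g hg _ _ h3
  · rintro t l l' θ ⟨g, hg, rfl⟩ w hw
    exact hcl t l l' g hg w hw

/-! ### The case of `PP(l,n)` -/

theorem stab_PP (n : ℕ)
    (M : ℕ → ∀ l, AddSubgroup (Fin l × E n → Fin l × E n → Lam (Fin l × E n)))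
    (hM : ∀ s t, s ≤ t → ∀ l, M s l ≤ M t l)
    (hcl : ∀ t l l' (g : Fin l' → Fin l), OSurj g → ∀ w ∈ M t l, ppstar (thg n g) w ∈ M t l') :
    ∃ t₀, ∀ t, t₀ ≤ t → ∀ l, M t l = M t₀ l := by
  classical
  let B : ℕ → Type := fun l => ((Fin l × E n) × (Fin l × E n)) × U l n
  let K : ℕ → Type := fun l => Fin l ×ₗ (Fin l ×ₗ (Fin l ×ₗ (Fin (Fintype.card (E n)) ×ₗ
    (Fin (Fintype.card (E n)) ×ₗ Lex (Fin l → Fin (Fintype.card (E n → ZMod 2)))))))
  let key : ∀ l, B l → K l := fun l b => toLex (max b.1.1.1 b.1.2.1, toLex (min b.1.1.1 b.1.2.1,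
    toLex (b.1.1.1, toLex (eE n b.1.1.2, toLex (eE n b.1.2.2, word b.2)))))
  have hkey : ∀ l, Function.Injective (key l) := by
    rintro l ⟨⟨⟨i, e⟩, ⟨j, f⟩⟩, u⟩ ⟨⟨⟨i', e'⟩, ⟨j', f'⟩⟩, u'⟩ h
    have h0 := toLex.injective h
    simp only [Prod.mk.injEq] at h0
    obtain ⟨h1, h2⟩ := h0
    have h3 := toLex.injective h2
    simp only [Prod.mk.injEq] at h3
    obtain ⟨h4, h5⟩ := h3
    have h6 := toLex.injective h5
    simp only [Prod.mk.injEq] at h6
    obtain ⟨h7, h8⟩ := h6
    have h9 := toLex.injective h8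
    simp only [Prod.mk.injEq] at h9
    obtain ⟨h10, h11⟩ := h9
    have h12 := toLex.injective h11
    simp only [Prod.mk.injEq] at h12
    obtain ⟨h13, h14⟩ := h12
    have hj : j = j' := by
      subst h7
      rcases le_total i j with h | h
      · rcases le_total i j' with h' | h'
        · rwa [max_eq_right h, max_eq_right h'] at h1
        · rw [max_eq_right h, max_eq_left h'] at h1
          rw [min_eq_left h, min_eq_right h'] at h4
          rw [h1, h4]
      · rcases le_total i j' with h' | h'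
        · rw [max_eq_left h, max_eq_right h'] at h1
          rw [min_eq_right h, min_eq_left h'] at h4
          rw [h4, h1]
        · rwa [min_eq_right h, min_eq_right h'] at h4
    exact Prod.ext (Prod.ext (Prod.ext h7 ((eE n).injective h10))
      (Prod.ext hj ((eE n).injective h13))) (word_injective h14)
  let c : ∀ l, (Fin l × E n → Fin l × E n → Lam (Fin l × E n)) →+ (B l → ZMod 2) := fun l =>
    { toFun := fun w b => (w b.1.1 b.1.2).coeff b.2
      map_zero' := by funext b; simp
      map_add' := fun w w' => by funext b; simp }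
  have hc : ∀ l, Function.Injective (c l) := by
    intro l w w' h
    funext a a'
    ext u
    exact congrFun h ((a, a'), u)
  have : ∀ l, Finite (K l) := fun l => by
    change Finite (Fin l × (Fin l × (Fin l × (Fin (Fintype.card (E n)) ×
      (Fin (Fintype.card (E n)) × (Fin l → Fin (Fintype.card (E n → ZMod 2))))))))
    infer_instance
  refine lead_stab (I := ℕ) (V := fun l => (Fin l × E n → Fin l × E n → Lam (Fin l × E n)))
    (K := K) (fun l => cLead (c l) (key l))
    (fun l w hw => cLead_exists (c l) (hc l) (key l) w hw)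
    (fun l w w' κ h h' κ' h'' => cLead_sub (c l) (key l) (hkey l) w w' κ h h' κ' h'')
    (fun l l' => {θ | ∃ g : Fin l' → Fin l, OSurj g ∧ θ = ppstar (thg n g)}) ?_ M hM ?_
  · intro l κ hκ
    have hb : ∀ t, ∃ b : B (l t), key (l t) b = κ t := fun t => by
      obtain ⟨w, b, hb, -⟩ := hκ t
      exact ⟨b, hb⟩
    choose b hb using hb
    obtain ⟨s, t, hst, g, hg, hgu⟩ := os_good
      (A := (E n → ZMod 2) × Fin 3 × Fin 3 × E n × E n) l
      (fun t i => (fun e => (b t).2 (i, e), reg (b t).1.1.1 i, reg (b t).1.2.1 i,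
        (b t).1.1.2, (b t).1.2.2))
    refine ⟨s, t, hst, ppstar (thg n g), ⟨g, hg, rfl⟩, ?_⟩
    have hu : ∀ j e, (b t).2 (j, e) = (b s).2 (g j, e) := fun j e =>
      congrFun (congrArg Prod.fst (hgu j)) e
    have hr1 : ∀ j, reg (b t).1.1.1 j = reg (b s).1.1.1 (g j) := fun j =>
      congrArg (fun x => x.2.1) (hgu j)
    have hr2 : ∀ j, reg (b t).1.2.1 j = reg (b s).1.2.1 (g j) := fun j =>
      congrArg (fun x => x.2.2.1) (hgu j)
    have he1 : (b t).1.1.2 = (b s).1.1.2 := congrArg (fun x => x.2.2.2.1) (hgu (b t).1.1.1)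
    have he2 : (b t).1.2.2 = (b s).1.2.2 := congrArg (fun x => x.2.2.2.2) (hgu (b t).1.1.1)
    have hi1 : g (b t).1.1.1 = (b s).1.1.1 := (reg_eq (hr1 (b t).1.1.1)).2.mp rfl
    have hi2 : g (b t).1.2.1 = (b s).1.2.1 := (reg_eq (hr2 (b t).1.2.1)).2.mp rfl
    have hu' : (b t).2 = ubar (thg n g) (b s).2 := by
      funext ⟨j, e⟩
      rw [ubar_thg, hu]
    have hpp1 : ∀ (j : Fin (l t)) (f : E n), j = (b t).1.1.1 → pp g j f = 0 := by
      rintro j f rfl
      apply pp_zero
      intro j' hj'
      rw [hi1] at hj'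
      exact (reg_eq (hr1 j')).2.mpr hj'
    have hpp2 : ∀ (j : Fin (l t)) (f : E n), j = (b t).1.2.1 → pp g j f = 0 := by
      rintro j f rfl
      apply pp_zero
      intro j' hj'
      rw [hi2] at hj'
      exact (reg_eq (hr2 j')).2.mpr hj'
    -- comparison with `max` and `min`
    set it := (b t).1.1.1 with hit
    set jt := (b t).1.2.1 with hjt
    set is := (b s).1.1.1 with his
    set js := (b s).1.2.1 with hjs
    have hij : it < jt ↔ is < js := by
      have := (reg_eq (hr2 it)).1
      rwa [hi1] at this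
    have hji : jt < it ↔ js < is := by
      have := (reg_eq (hr1 jt)).1
      rwa [hi2] at this
    have F1 : ∀ x, (x < max it jt ↔ g x < max is js) ∧ (x = max it jt ↔ g x = max is js) := by
      intro x
      rcases lt_or_ge it jt with h | h
      · rw [max_eq_right h.le, max_eq_right (hij.mp h).le]
        exact reg_eq (hr2 x)
      · have h' : js ≤ is := by
          by_contra hcon
          exact absurd (hij.mpr (not_le.mp hcon)) (not_lt.mpr h)
        rw [max_eq_left h, max_eq_left h']
        exact reg_eq (hr1 x)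
    have F2 : ∀ x, (x < min it jt ↔ g x < min is js) ∧ (x = min it jt ↔ g x = min is js) := by
      intro x
      rcases lt_or_ge it jt with h | h
      · rw [min_eq_left h.le, min_eq_left (hij.mp h).le]
        exact reg_eq (hr1 x)
      · have h' : js ≤ is := by
          by_contra hcon
          exact absurd (hij.mpr (not_le.mp hcon)) (not_lt.mpr h)
        rw [min_eq_right h, min_eq_right h']
        exact reg_eq (hr2 x)
    rintro w ⟨b', hb', hb1, hb2⟩
    have hbb : b' = b s := hkey _ (hb'.trans (hb s).symm)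
    subst hbb
    refine ⟨b t, hb t, ?_, ?_⟩
    · change (ppstar (thg n g) w (it, (b t).1.1.2) (jt, (b t).1.2.2)).coeff (b t).2 ≠ 0
      rw [ppstar_thg, hi1, hi2, he1, he2, hu', hpp1 _ _ rfl, hpp2 _ _ rfl, add_zero]
      have := (coeff_lbar_mul_br g hg.1 (w (is, (b s).1.1.2) (js, (b s).1.2.2)) 0).1 (b s).2
      rw [add_zero] at this
      rw [this]
      exact hb1
    · rintro ⟨⟨⟨j, f⟩, ⟨j', f'⟩⟩, v⟩ hjf
      change (ppstar (thg n g) w (j, f) (j', f')).coeff v ≠ 0 at hjf
      rw [ppstar_thg] at hjf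
      obtain ⟨u, hv, hcu⟩ := (coeff_lbar_mul_br g hg.1 (w (g j, f) (g j', f'))
        (pp g j f + pp g j' f')).2 v hjf
      have h1 := hb2 (((g j, f), (g j', f')), u) hcu
      rw [← hb s] at h1
      rw [← hb t]
      change toLex (max (g j) (g j'), toLex (min (g j) (g j'), toLex (g j, toLex (eE n f,
        toLex (eE n f', word u))))) ≤ toLex (max is js, toLex (min is js, toLex (is,
        toLex (eE n (b s).1.1.2, toLex (eE n (b s).1.2.2, word (b s).2))))) at h1
      change toLex (max j j', toLex (min j j', toLex (j, toLex (eE n f,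
        toLex (eE n f', word v))))) ≤ toLex (max it jt, toLex (min it jt, toLex (it,
        toLex (eE n (b t).1.1.2, toLex (eE n (b t).1.2.2, word (b t).2)))))
      rw [Prod.Lex.toLex_le_toLex] at h1 ⊢
      rcases h1 with h1 | ⟨h1, h2⟩
      · left
        dsimp only at h1 ⊢
        rw [max_lt_iff] at h1 ⊢
        exact ⟨(F1 j).1.mpr h1.1, (F1 j').1.mpr h1.2⟩
      · dsimp only at h1 h2 ⊢
        have hM1 : max j j' = max it jt := by
          have hle : ∀ x, g x ≤ max is js → x ≤ max it jt := by
            intro x hx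
            rcases hx.eq_or_lt with h | h
            · exact ((F1 x).2.mpr h).le
            · exact ((F1 x).1.mpr h).le
          apply le_antisymm
          · exact max_le (hle j (h1 ▸ le_max_left _ _)) (hle j' (h1 ▸ le_max_right _ _))
          · rcases le_total (g j) (g j') with h | h
            · rw [max_eq_right h] at h1
              rw [← (F1 j').2.mpr h1]
              exact le_max_right _ _
            · rw [max_eq_left h] at h1
              rw [← (F1 j).2.mpr h1]
              exact le_max_left _ _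
        refine Or.inr ⟨hM1, ?_⟩
        rw [Prod.Lex.toLex_le_toLex] at h2 ⊢
        rcases h2 with h2 | ⟨h2, h3⟩
        · left
          dsimp only at h2 ⊢
          rcases le_total (g j) (g j') with h | h
          · rw [min_eq_left h] at h2
            exact lt_of_le_of_lt (min_le_left _ _) ((F2 j).1.mpr h2)
          · rw [min_eq_right h] at h2
            exact lt_of_le_of_lt (min_le_right _ _) ((F2 j').1.mpr h2)
        · dsimp only at h2 h3 ⊢
          have hm1 : min j j' = min it jt := by
            have hge : ∀ x, min is js ≤ g x → min it jt ≤ x := by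
              intro x hx
              by_contra hcon
              exact absurd ((F2 x).1.mp (not_le.mp hcon)) (not_lt.mpr hx)
            apply le_antisymm
            · rcases le_total (g j) (g j') with h | h
              · rw [min_eq_left h] at h2
                rw [← (F2 j).2.mpr h2]
                exact min_le_left _ _
              · rw [min_eq_right h] at h2
                rw [← (F2 j').2.mpr h2]
                exact min_le_right _ _
            · exact le_min (hge j (h2 ▸ min_le_left _ _)) (hge j' (h2 ▸ min_le_right _ _))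
          refine Or.inr ⟨hm1, ?_⟩
          rw [Prod.Lex.toLex_le_toLex] at h3 ⊢
          rcases h3 with h3 | ⟨h3, h4⟩
          · exact Or.inl ((reg_eq (hr1 j)).1.mpr h3)
          · dsimp only at h3 h4 ⊢
            have hjj : j = it := (reg_eq (hr1 j)).2.mpr h3
            have hjj' : j' = jt := by
              rw [hjj] at hM1 hm1
              rcases le_total it j' with h | h
              · rcases le_total it jt with h' | h'
                · rwa [max_eq_right h, max_eq_right h'] at hM1
                · rw [max_eq_right h, max_eq_left h'] at hM1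
                  rw [min_eq_left h, min_eq_right h'] at hm1
                  rw [hM1, hm1]
              · rcases le_total it jt with h' | h'
                · rw [max_eq_left h, max_eq_right h'] at hM1
                  rw [min_eq_right h, min_eq_left h'] at hm1
                  rw [hm1, hM1]
                · rwa [min_eq_right h, min_eq_right h'] at hm1
            refine Or.inr ⟨hjj, ?_⟩
            rw [Prod.Lex.toLex_le_toLex] at h4 ⊢
            rcases h4 with h4 | ⟨h4, h5⟩
            · exact Or.inl (by rw [he1]; exact h4)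
            · refine Or.inr ⟨by rw [he1]; exact h4, ?_⟩
              dsimp only at h5 ⊢
              rw [Prod.Lex.toLex_le_toLex] at h5 ⊢
              rcases h5 with h5 | ⟨h5, h6⟩
              · exact Or.inl (by rw [he2]; exact h5)
              · refine Or.inr ⟨by rw [he2]; exact h5, ?_⟩
                dsimp only at h6 ⊢
                rw [hv, hpp1 j f hjj, hpp2 j' f' hjj', add_zero, add_zero, hu']
                exact word_le g hg _ _ h6
  · rintro t l l' θ ⟨g, hg, rfl⟩ w hw
    exact hcl t l l' g hg w hw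

end Pool.Agent.OH
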