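import Pool.Agent.OH.F1
import Pool.Agent.OH.W1
import Pool.Agent.OH.Words2

set_option autoImplicit false

namespace Pool.Agent.OH

/-- (6.2) for `P`: the ACC at fixed `n` in layer 2. -/
theorem fix2 (M : ℕ → TIF) (hm : Monotone M) (h3 : ∀ k, T3 ≤ M k) (h2 : ∀ k, M k ≤ T2) (n : ℕ) :
    ∃ k₀, ∀ k, k₀ ≤ k → ∀ l, (M k).S l n = (M k₀).S l n := by
  -- the subgroups `d M(l,n)`
  let N : ℕ → ∀ l, AddSubgroup (Fin l × E n → Lam (Fin l × E n)) := fun k l =>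
    { carrier := {p | ∃ w ∈ (M k).S l n, dd w = p}
      zero_mem' := ⟨1, one_mem _, dd_one⟩
      add_mem' := by
        rintro a b ⟨v, hv, rfl⟩ ⟨w, hw, rfl⟩
        refine ⟨v * w, mul_mem hv hw, ?_⟩
        funext i
        have hb : bar v = 0 := h2 k l n hv
        rw [dd_mul, hb, br_zero, one_mul]; rfl
      neg_mem' := by
        rintro a ⟨v, hv, rfl⟩
        refine ⟨v, hv, ?_⟩
        funext i; exact (lam_neg _).symm }
  obtain ⟨k₀, hk₀⟩ := stab_P n N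
    (fun s t hst l p hp => by
      obtain ⟨w, hw, rfl⟩ := hp
      exact ⟨w, hm hst l n hw, rfl⟩)
    (fun t l l' g hg p hp => by
      obtain ⟨w, hw, rfl⟩ := hp
      refine ⟨thg n g w, (M t).thom_mem _ _ _ _ _ _ _ hw, dd_map _ _⟩)
  refine ⟨k₀, fun k hk l => le_antisymm ?_ (hm hk l n)⟩
  intro w hw
  have h1 : dd w ∈ N k l := ⟨w, hw, rfl⟩
  rw [hk₀ k hk l] at h1
  obtain ⟨w', hw', hd⟩ := h1
  have hb' : bar w' = 0 := h2 k₀ l n hw'
  have hb : bar w = 0 := h2 k l n hw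
  have h3' : w'⁻¹ * w ∈ T3.S l n := by
    rw [mem_T3]
    refine ⟨by simp [hb, hb'], ?_⟩
    funext i
    rw [dd_mul, dd_inv, bar_inv, hb', br_zero, one_mul, one_mul, hd]
    exact lam_add_self _
  have h4 : w'⁻¹ * w ∈ (M k₀).S l n := h3 k₀ l n h3'
  have : w = w' * (w'⁻¹ * w) := by group
  rw [this]
  exact mul_mem hw' h4

end Pool.Agent.OH
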