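import Pool.Agent.OH.A1
import Pool.Agent.OH.G2
import Pool.Agent.OH.J2
import Pool.Agent.OH.I2
import Pool.Agent.OH.X2

set_option autoImplicit false

namespace Pool.Agent.OH

namespace LG2aux

/-- `dM(l,n)`. -/
noncomputable def Mt (M : TIF) (h2 : M ≤ T2) (l n : ℕ) :
    AddSubgroup (Fin l × E n → Lam (Fin l × E n)) := (J2.dM M h2 l n).toAddSubgroup

lemma mem_Mt (M : TIF) (h2 : M ≤ T2) (l n : ℕ) (p : Fin l × E n → Lam (Fin l × E n)) :
    p ∈ Mt M h2 l n ↔ ∃ w ∈ M.S l n, dd w = p := Iff.rfl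

/-- `I^j R`. -/
noncomputable def HR (l n j : ℕ) : AddSubgroup (Fin l × E n → Lam (Fin l × E n)) :=
  ((II (Fin l × E n) ^ j) • RR (Fin l × E n)).toAddSubgroup

lemma mem_HR (l n j : ℕ) (p : Fin l × E n → Lam (Fin l × E n)) :
    p ∈ HR l n j ↔ p ∈ (II (Fin l × E n) ^ j) • RR (Fin l × E n) := Iff.rfl

lemma HR_anti (l n : ℕ) {i j : ℕ} (h : i ≤ j) : HR l n j ≤ HR l n i := by
  intro p hp
  rw [mem_HR] at hp ⊢
  exact Submodule.smul_mono_left (Ideal.pow_le_pow_right h) hp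

lemma rank_two {N m : ℕ} (v : Fin m → E N) (x : Fin 2 → E N)
    (h : Submodule.span (ZMod 3) (Set.range v ∪ Set.range x) = ⊤) :
    N ≤ Module.finrank (ZMod 3) (Submodule.span (ZMod 3) (Set.range v)) + 2 := by
  have h1 : Module.finrank (ZMod 3)
      (Submodule.span (ZMod 3) (Set.range v ∪ Set.range x)) = N := by
    rw [h, finrank_top]; simp
  rw [Submodule.span_union] at h1
  have h2 := Submodule.finrank_add_le_finrank_add_finrank
    (Submodule.span (ZMod 3) (Set.range v)) (Submodule.span (ZMod 3) (Set.range x))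
  have h3 : Module.finrank (ZMod 3) (Submodule.span (ZMod 3) (Set.range x)) ≤ 2 := by
    have h4 := finrank_range_le_card (R := ZMod 3) x
    rw [Fintype.card_fin] at h4
    exact h4
  omega

end LG2aux

open LG2aux

/-- (8.2): large rank in layer 2. -/
theorem large2 (M : TIF) (h3 : T3 ≤ M) (h2 : M ≤ T2) (hne : M ≠ T3) :
    ∃ r : ℕ, ∀ M1 M2 : TIF, M ≤ M1 → M1 ≤ M2 → M2 ≤ T2 →
      (∀ n, n ≤ r → ∀ l, M2.S l n = M1.S l n) → M2 = M1 := by
  obtain ⟨J, hJ, hJM⟩ := J2_exists M h3 h2 hne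
  obtain ⟨r₀, hr₀, hlarge⟩ := large_rank' J hJ
  refine ⟨r₀ + 2, ?_⟩
  intro M1 M2 hM1 hM2 hM22 hlow
  have h12 : M1 ≤ T2 := le_trans hM2 hM22
  have key : ∀ n, ∀ l, M2.S l n ≤ M1.S l n := by
    intro n
    induction n with
    | zero =>
      intro l
      exact (hlow 0 (Nat.zero_le _) l).le
    | succ n ih =>
      intro l
      rcases le_or_gt (n + 1) (r₀ + 2) with hn | hn
      · exact (hlow (n + 1) hn l).le
      intro w hw
      have hwT : bar w = 0 := hM22 l (n + 1) hw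
      have hBw : dd w ∈ Mt M1 h12 l (n + 1) := by
        obtain ⟨N, hN⟩ := II_nilp (ι := Fin l × E (n + 1))
        refine abs_pi (K := {p : E (n + 1) × E (n + 1) // dot p.2 p.1 = 1}) ?_
          (fun p => pstar (thK p.1.1 p.1.2)) (Mt M1 h12 l (n + 1)) ?_ (HR l (n + 1)) ?_ N
          ?_ (XiSet l (n + 1)) ?_ ?_ ?_ (dd w) ?_ ?_
        · intro x
          funext i
          exact lam_add_self _
        · rintro ⟨⟨k, a⟩, ha⟩ x ⟨w', hw', rfl⟩
          exact ⟨thK k a w', M1.thom_mem _ _ _ _ _ _ _ hw', dd_map _ _⟩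
        · rintro j ⟨⟨k, a⟩, ha⟩ x hx
          exact pstar_filt _ j x hx
        · intro p hp
          rw [mem_HR, hN, Submodule.bot_smul, Submodule.mem_bot] at hp
          rw [hp]; exact zero_mem _
        · intro j p hp
          exact AddSubgroup.mem_sup_left (AddSubgroup.mem_sup_left (gen2 j p hp))
        · intro j x hx
          obtain ⟨m, hjm, v, u, a, b, ξ, hu, hL, rfl⟩ := hx
          by_cases hsp : Submodule.span (ZMod 3) (Set.range v ∪ Set.range ![a, b]) = ⊤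
          · left
            have h1 := rank_two v ![a, b] hsp
            have h4 := hlarge l (n + 1) m v u hu (by omega)
            obtain ⟨w', hw', h5⟩ := hJM l (n + 1) _ h4 ξ (lab_mem a b ξ hL)
            exact ⟨w', hM1 l (n + 1) hw', h5⟩
          · right
            obtain ⟨k, a₀, ha₀, hk⟩ := exists_line _ hsp
            refine ⟨⟨⟨k, a₀⟩, ha₀⟩, ?_⟩
            have h1 := (Xi_thK k a₀ ha₀ v u a b ξ hu hL).1
              ⟨fun i => hk _ (Or.inl ⟨i, rfl⟩), hk _ (Or.inr ⟨0, rfl⟩), hk _ (Or.inr ⟨1, rfl⟩)⟩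
            exact HR_anti l (n + 1) (by omega) h1
        · intro j x hx
          rintro ⟨⟨k, a₀⟩, ha₀⟩
          obtain ⟨m, hjm, v, u, a, b, ξ, hu, hL, rfl⟩ := hx
          have h1 := Xi_thK k a₀ ha₀ v u a b ξ hu hL
          by_cases h4 : (∀ i, dot (v i) k = 0) ∧ dot a k = 0 ∧ dot b k = 0
          · exact Or.inl (HR_anti l (n + 1) (by omega) (h1.1 h4))
          · exact Or.inr (HR_anti l (n + 1) (by omega) (h1.2 h4))
        · rw [mem_HR, pow_zero, Ideal.one_eq_top, Submodule.top_smul]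
          exact ⟨w, hwT, rfl⟩
        · rintro ⟨⟨k, a₀⟩, ha₀⟩
          exact ⟨thK k a₀ w, line_step M1 M2 n ih l k a₀ ha₀ w hw, dd_map _ _⟩
      obtain ⟨w1, hw1, hBc⟩ := hBw
      have h5 : w * w1⁻¹ ∈ T3.S l (n + 1) := by
        have hw1T : bar w1 = 0 := h12 l (n + 1) hw1
        refine ⟨by rw [bar_mul, bar_inv, hwT, hw1T, add_zero], ?_⟩
        funext i
        rw [dd_mul, dd_inv, hwT, hw1T, br_zero, one_mul, one_mul, hBc]
        exact lam_add_self _
      have h6 : w * w1⁻¹ ∈ M1.S l (n + 1) := hM1 l (n + 1) (h3 l (n + 1) h5)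
      have h7 := (M1.S l (n + 1)).mul_mem h6 hw1
      rwa [inv_mul_cancel_right] at h7
  exact le_antisymm (fun l n => key n l) hM2

theorem layer2 : ACC T3 T2 := by
  intro M hm h3 h2
  by_cases hall : ∀ k, M k = T3
  · exact ⟨0, fun k _ => by rw [hall k, hall 0]⟩
  rw [not_forall] at hall
  obtain ⟨k₁, hk₁⟩ := hall
  obtain ⟨r, hr⟩ := large2 (M k₁) (h3 k₁) (h2 k₁) hk₁
  choose f hf using fun n => fix2 M hm h3 h2 n
  have hmax : ∃ k₀, k₁ ≤ k₀ ∧ ∀ n, n ≤ r → f n ≤ k₀ := by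
    refine ⟨k₁ + ∑ n ∈ Finset.range (r + 1), f n, Nat.le_add_right _ _, ?_⟩
    intro n hn
    have := Finset.single_le_sum (f := f) (fun i _ => Nat.zero_le _)
      (Finset.mem_range.mpr (Nat.lt_succ_of_le hn))
    exact this.trans (Nat.le_add_left _ _)
  obtain ⟨k₀, hk0, hk0'⟩ := hmax
  refine ⟨k₀, fun k hk => ?_⟩
  refine hr (M k₀) (M k) (hm hk0) (hm hk) (h2 k) ?_
  intro n hn l
  rw [hf n k ((hk0' n hn).trans hk) l, hf n k₀ (hk0' n hn) l]

end Pool.Agent.OH
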