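import Pool.Agent.OH.C1
import Pool.Agent.OH.W1
import Pool.Agent.OH.Words2

set_option autoImplicit false

namespace Pool.Agent.OH

/-- (6.2) for `PP`: the ACC at fixed `n` in layer 3. -/
theorem fix3 (M : ℕ → TIF) (hm : Monotone M) (h4 : ∀ k, T4 ≤ M k) (h3 : ∀ k, M k ≤ T3) (n : ℕ) :
    ∃ k₀, ∀ k, k₀ ≤ k → ∀ l, (M k).S l n = (M k₀).S l n := by
  have hBmul : ∀ (l : ℕ) (v w : T l n), v ∈ T3.S l n → BB (v * w) = BB v + BB w := by
    intro l v w hv
    funext i j
    rw [BB_mul, ((mem_T3 _).mp hv).2]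
    simp
  have hBinv : ∀ (l : ℕ) (v : T l n), v ∈ T3.S l n → BB v⁻¹ = BB v := by
    intro l v hv
    funext i j
    rw [BB_inv, ((mem_T3 _).mp hv).2]
    simp
  let N : ℕ → ∀ l, AddSubgroup (Fin l × E n → Fin l × E n → Lam (Fin l × E n)) := fun k l =>
    { carrier := {p | ∃ w ∈ (M k).S l n, p - BB w ∈ CC l n}
      zero_mem' := ⟨1, one_mem _, by rw [BB_one, sub_zero]; exact zero_mem _⟩
      add_mem' := by
        rintro a b ⟨v, hv, h⟩ ⟨w, hw, h'⟩
        refine ⟨v * w, mul_mem hv hw, ?_⟩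
        rw [hBmul l v w (h3 k l n hv)]
        have : a + b - (BB v + BB w) = (a - BB v) + (b - BB w) := by abel
        rw [this]
        exact add_mem h h'
      neg_mem' := by
        rintro a ⟨v, hv, h⟩
        refine ⟨v⁻¹, inv_mem hv, ?_⟩
        rw [hBinv l v (h3 k l n hv)]
        have h5 : -a - BB v = -(a - BB v) - (BB v + BB v) := by abel
        have h6 : BB v + BB v = 0 := by
          funext i j; exact lam_add_self _
        rw [h5, h6, sub_zero]
        exact neg_mem h }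
  obtain ⟨k₀, hk₀⟩ := stab_PP n N
    (fun s t hst l p hp => by
      obtain ⟨w, hw, h⟩ := hp
      exact ⟨w, hm hst l n hw, h⟩)
    (fun t l l' g hg p hp => by
      obtain ⟨w, hw, h⟩ := hp
      refine ⟨thg n g w, (M t).thom_mem _ _ _ _ _ _ _ hw, ?_⟩
      have hw2 : bar w = 0 := ((mem_T3 _).mp (h3 t l n hw)).1
      rw [BB_map _ w hw2, ← map_sub]
      exact CC_thom _ _ _ h)
  refine ⟨k₀, fun k hk l => le_antisymm ?_ (hm hk l n)⟩
  intro w hw
  have h1 : BB w ∈ N k l := ⟨w, hw, by rw [sub_self]; exact zero_mem _⟩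
  rw [hk₀ k hk l] at h1
  obtain ⟨w', hw', hd⟩ := h1
  have h4' : w'⁻¹ * w ∈ T4.S l n := by
    rw [mem_T4]
    have hw'3 := h3 k₀ l n hw'
    refine ⟨mul_mem (inv_mem hw'3) (h3 k l n hw), ?_⟩
    rw [hBmul l _ _ (inv_mem hw'3), hBinv l w' hw'3]
    have : BB w' + BB w = (BB w - BB w') + (BB w' + BB w') := by abel
    have h6 : BB w' + BB w' = 0 := by
      funext i j; exact lam_add_self _
    rw [this, h6, add_zero]
    exact hd
  have h5 : w'⁻¹ * w ∈ (M k₀).S l n := h4 k₀ l n h4'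
  have : w = w' * (w'⁻¹ * w) := by group
  rw [this]
  exact mul_mem hw' h5

end Pool.Agent.OH
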