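import Pool.Agent.OH.A1
import Pool.Agent.OH.G3
import Pool.Agent.OH.J3
import Pool.Agent.OH.I2
import Pool.Agent.OH.X3

set_option autoImplicit false

namespace Pool.Agent.OH

namespace LG3aux

/-- `B(M(l,n)) + C(l,n)`. -/
noncomputable def Mt (M : TIF) (h3 : M ≤ T3) (l n : ℕ) :
    AddSubgroup (Fin l × E n → Fin l × E n → Lam (Fin l × E n)) where
  carrier := {m | ∃ w ∈ M.S l n, ∃ c ∈ CC l n, m = BB w + c}
  zero_mem' := ⟨1, (M.S l n).one_mem, 0, zero_mem _, by rw [BB_one, add_zero]⟩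
  add_mem' := by
    rintro _ _ ⟨w, hw, c, hc, rfl⟩ ⟨w', hw', c', hc', rfl⟩
    refine ⟨w * w', (M.S l n).mul_mem hw hw', c + c', add_mem hc hc', ?_⟩
    have hd : dd w = 0 := (h3 l n hw).2
    have h : BB (w * w') = BB w + BB w' := by
      funext i j
      rw [BB_mul, hd]; simp
    rw [h]; abel
  neg_mem' := by
    rintro _ ⟨w, hw, c, hc, rfl⟩
    refine ⟨w, hw, c, hc, ?_⟩
    funext i j
    exact lam_neg _

lemma mem_Mt (M : TIF) (h3 : M ≤ T3) (l n : ℕ)
    (m : Fin l × E n → Fin l × E n → Lam (Fin l × E n)) :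
    m ∈ Mt M h3 l n ↔ ∃ w ∈ M.S l n, ∃ c ∈ CC l n, m = BB w + c := Iff.rfl

lemma CC_le_Mt (M : TIF) (h3 : M ≤ T3) (l n : ℕ) : CC l n ≤ Mt M h3 l n := by
  intro c hc
  exact ⟨1, (M.S l n).one_mem, c, hc, by rw [BB_one, zero_add]⟩

lemma Mt_mono (M M1 : TIF) (h3 : M ≤ T3) (h3' : M1 ≤ T3) (h : M ≤ M1) (l n : ℕ) :
    Mt M h3 l n ≤ Mt M1 h3' l n := by
  rintro _ ⟨w, hw, c, hc, rfl⟩
  exact ⟨w, h l n hw, c, hc, rfl⟩

lemma Mt_thom (M : TIF) (h3 : M ≤ T3) (l n : ℕ) (ρ : E n →+ E n) (t : Fin l → T l n)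
    (m : Fin l × E n → Fin l × E n → Lam (Fin l × E n)) (hm : m ∈ Mt M h3 l n) :
    ppstar (thom ρ t) m ∈ Mt M h3 l n := by
  obtain ⟨w, hw, c, hc, rfl⟩ := hm
  refine ⟨thom ρ t w, M.thom_mem l n l n ρ t w hw, ppstar (thom ρ t) c, CC_thom ρ t c hc, ?_⟩
  rw [map_add, BB_map _ _ (h3 l n hw).1]

lemma rank_four {N m : ℕ} (v : Fin m → E N) (x : Fin 4 → E N)
    (h : Submodule.span (ZMod 3) (Set.range v ∪ Set.range x) = ⊤) :
    N ≤ Module.finrank (ZMod 3) (Submodule.span (ZMod 3) (Set.range v)) + 4 := by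
  have h1 : Module.finrank (ZMod 3)
      (Submodule.span (ZMod 3) (Set.range v ∪ Set.range x)) = N := by
    rw [h, finrank_top]; simp
  rw [Submodule.span_union] at h1
  have h2 := Submodule.finrank_add_le_finrank_add_finrank
    (Submodule.span (ZMod 3) (Set.range v)) (Submodule.span (ZMod 3) (Set.range x))
  have h3 : Module.finrank (ZMod 3) (Submodule.span (ZMod 3) (Set.range x)) ≤ 4 := by
    have h4 := finrank_range_le_card (R := ZMod 3) x
    rw [Fintype.card_fin] at h4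
    exact h4
  omega

lemma HH_anti' (l n : ℕ) {i j : ℕ} (h : i ≤ j) : HH l n j ≤ HH l n i := by
  induction j, h using Nat.le_induction with
  | base => exact le_rfl
  | succ j _ ih => exact (HH_anti l n j).trans ih

end LG3aux

open LG3aux

/-- (8.3): large rank in layer 3. -/
theorem large3 (M : TIF) (h4 : T4 ≤ M) (h3 : M ≤ T3) (hne : M ≠ T4) :
    ∃ r : ℕ, ∀ M1 M2 : TIF, M ≤ M1 → M1 ≤ M2 → M2 ≤ T3 →
      (∀ n, n ≤ r → ∀ l, M2.S l n = M1.S l n) → M2 = M1 := by
  obtain ⟨J, hJ, hJM⟩ := J3_exists M h4 h3 hne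
  obtain ⟨r₀, hr₀, hlarge⟩ := large_rank' J hJ
  refine ⟨r₀ + 4, ?_⟩
  intro M1 M2 hM1 hM2 hM23 hlow
  have h13 : M1 ≤ T3 := le_trans hM2 hM23
  have key : ∀ n, ∀ l, M2.S l n ≤ M1.S l n := by
    intro n
    induction n with
    | zero =>
      intro l
      exact (hlow 0 (Nat.zero_le _) l).le
    | succ n ih =>
      intro l
      rcases le_or_gt (n + 1) (r₀ + 4) with hn | hn
      · exact (hlow (n + 1) hn l).le
      intro w hw
      have hwT : w ∈ T3.S l (n + 1) := hM23 l (n + 1) hw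
      have hBw : BB w ∈ Mt M1 h13 l (n + 1) := by
        obtain ⟨N, hN⟩ := HH_nilp l (n + 1)
        refine abs_pi (K := {p : E (n + 1) × E (n + 1) // dot p.2 p.1 = 1}) ?_
          (fun p => ppstar (thK p.1.1 p.1.2)) (Mt M1 h13 l (n + 1)) ?_ (HH l (n + 1)) ?_ N
          (hN.trans (CC_le_Mt M1 h13 l (n + 1))) (GSet l (n + 1)) ?_ ?_ ?_ (BB w) ?_ ?_
        · intro x
          funext i j
          exact lam_add_self _
        · rintro ⟨⟨k, a⟩, ha⟩ x hx
          exact Mt_thom M1 h13 l (n + 1) _ _ x hx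
        · rintro j ⟨⟨k, a⟩, ha⟩ x hx
          exact HH_thom _ _ j x hx
        · intro j
          refine (gen3 l (n + 1) j).trans ?_
          refine sup_le (le_sup_of_le_left le_sup_left) ?_
          exact le_sup_of_le_right (CC_le_Mt M1 h13 l (n + 1))
        · intro j x hx
          rcases hx with ⟨m, hjm, v, u, a, b, a', b', ξ, ξ', hu, hL, hL', rfl⟩ |
            ⟨hj, a, b, ξ, hL, rfl⟩
          · by_cases hsp : Submodule.span (ZMod 3)
              (Set.range v ∪ Set.range ![a, b, a', b']) = ⊤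
            · left
              have h1 := rank_four v ![a, b, a', b'] hsp
              have h2 := hlarge l (n + 1) m v u hu (by omega)
              obtain ⟨w', hw', c, hc, h5⟩ := hJM l (n + 1) _ h2 ξ (lab_mem a b ξ hL) ξ'
                (lab_mem a' b' ξ' hL')
              refine ⟨w', hM1 l (n + 1) hw', c, hc, ?_⟩
              rw [← h5]
              rfl
            · right
              obtain ⟨k, a₀, ha₀, hk⟩ := exists_line _ hsp
              refine ⟨⟨⟨k, a₀⟩, ha₀⟩, ?_⟩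
              have h1 := (G3_thK k a₀ ha₀ v u a b a' b' ξ ξ' hu hL hL').1
                ⟨fun i => hk _ (Or.inl ⟨i, rfl⟩), ⟨hk _ (Or.inr ⟨0, rfl⟩), hk _ (Or.inr ⟨1, rfl⟩)⟩,
                  ⟨hk _ (Or.inr ⟨2, rfl⟩), hk _ (Or.inr ⟨3, rfl⟩)⟩⟩
              exact HH_anti' l (n + 1) (by omega) h1
          · right
            have hsp : Submodule.span (ZMod 3) (Set.range ![a, b]) ≠ ⊤ := by
              intro h
              have h1 : Module.finrank (ZMod 3)
                  (Submodule.span (ZMod 3) (Set.range ![a, b])) = n + 1 := by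
                rw [h, finrank_top]; simp
              have h4 := finrank_range_le_card (R := ZMod 3) ![a, b]
              rw [Fintype.card_fin] at h4
              rw [Set.finrank, h1] at h4
              omega
            obtain ⟨k, a₀, ha₀, hk⟩ := exists_line _ hsp
            refine ⟨⟨⟨k, a₀⟩, ha₀⟩, ?_⟩
            subst hj
            exact (G3_thK' k a₀ ha₀ a b ξ hL).1 ⟨hk _ ⟨0, rfl⟩, hk _ ⟨1, rfl⟩⟩
        · intro j x hx
          rintro ⟨⟨k, a₀⟩, ha₀⟩
          rcases hx with ⟨m, hjm, v, u, a, b, a', b', ξ, ξ', hu, hL, hL', rfl⟩ |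
            ⟨hj, a, b, ξ, hL, rfl⟩
          · have h1 := G3_thK k a₀ ha₀ v u a b a' b' ξ ξ' hu hL hL'
            by_cases h2 : (∀ i, dot (v i) k = 0) ∧ (dot a k = 0 ∧ dot b k = 0) ∧
              (dot a' k = 0 ∧ dot b' k = 0)
            · exact Or.inl (HH_anti' l (n + 1) (by omega) (h1.1 h2))
            · exact Or.inr (HH_anti' l (n + 1) (by omega) (h1.2 h2))
          · have h1 := G3_thK' k a₀ ha₀ a b ξ hL
            subst hj
            by_cases h2 : dot a k = 0 ∧ dot b k = 0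
            · exact Or.inl (h1.1 h2)
            · exact Or.inr (h1.2 h2)
        · exact AddSubgroup.mem_sup_left (BB_T3 w hwT.1 hwT.2)
        · rintro ⟨⟨k, a₀⟩, ha₀⟩
          refine ⟨thK k a₀ w, line_step M1 M2 n ih l k a₀ ha₀ w hw, 0, zero_mem _, ?_⟩
          rw [add_zero]
          exact (BB_map _ _ hwT.1).symm
      obtain ⟨w1, hw1, c, hc, hBc⟩ := hBw
      have h5 : w * w1⁻¹ ∈ T4.S l (n + 1) := by
        have hw1T : w1 ∈ T3.S l (n + 1) := h13 l (n + 1) hw1
        refine ⟨(T3.S l (n + 1)).mul_mem hwT ((T3.S l (n + 1)).inv_mem hw1T), ?_⟩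
        have hd : dd w = 0 := hwT.2
        have hd1 : dd w1 = 0 := hw1T.2
        have h : BB (w * w1⁻¹) = BB w + BB w1 := by
          funext i j
          rw [BB_mul, BB_inv, hd, hd1]; simp
        rw [h, hBc]
        have h6 : BB w1 + c + BB w1 = c := by
          funext i j
          have h7 : BB w1 i j + c i j + BB w1 i j = (BB w1 i j + BB w1 i j) + c i j := by abel
          change BB w1 i j + c i j + BB w1 i j = c i j
          rw [h7, lam_add_self, zero_add]
        rw [h6]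
        exact hc
      have h6 : w * w1⁻¹ ∈ M1.S l (n + 1) := hM1 l (n + 1) (h4 l (n + 1) h5)
      have h7 := (M1.S l (n + 1)).mul_mem h6 hw1
      rwa [inv_mul_cancel_right] at h7
  exact le_antisymm (fun l n => key n l) hM2

theorem layer3 : ACC T4 T3 := by
  intro M hm h4 h3
  by_cases hall : ∀ k, M k = T4
  · exact ⟨0, fun k _ => by rw [hall k, hall 0]⟩
  rw [not_forall] at hall
  obtain ⟨k₁, hk₁⟩ := hall
  obtain ⟨r, hr⟩ := large3 (M k₁) (h4 k₁) (h3 k₁) hk₁
  choose f hf using fun n => fix3 M hm h4 h3 n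
  have hmax : ∃ k₀, k₁ ≤ k₀ ∧ ∀ n, n ≤ r → f n ≤ k₀ := by
    refine ⟨k₁ + ∑ n ∈ Finset.range (r + 1), f n, Nat.le_add_right _ _, ?_⟩
    intro n hn
    have := Finset.single_le_sum (f := f) (fun i _ => Nat.zero_le _)
      (Finset.mem_range.mpr (Nat.lt_succ_of_le hn))
    exact this.trans (Nat.le_add_left _ _)
  obtain ⟨k₀, hk0, hk0'⟩ := hmax
  refine ⟨k₀, fun k hk => ?_⟩
  refine hr (M k₀) (M k) (hm hk0) (hm hk) (h3 k) ?_
  intro n hn l
  rw [hf n k ((hk0' n hn).trans hk) l, hf n k₀ (hk0' n hn) l]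

end Pool.Agent.OH
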