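import Mathlib

set_option autoImplicit false

/-! # The leading term argument (increasing chains of subgroups, covariant maps) -/

namespace Pool.Agent.OH

/-- Leading term argument for increasing chains of families of subgroups closed under a class of
maps `hom`, assuming that every sequence of leads has a good pair. -/
theorem lead_stab {I : Type} {V : I → Type} [∀ i, AddCommGroup (V i)] {K : I → Type}
    [∀ i, Preorder (K i)] [∀ i, WellFoundedLT (K i)] (lead : ∀ i, V i → K i → Prop)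
    (h1 : ∀ i w, w ≠ 0 → ∃ κ, lead i w κ)
    (h2 : ∀ i w w' κ, lead i w κ → lead i w' κ → ∀ κ', lead i (w - w') κ' → κ' < κ)
    (hom : ∀ i j, Set (V i → V j))
    (good : ∀ (i : ℕ → I) (κ : ∀ t, K (i t)), (∀ t, ∃ w, lead (i t) w (κ t)) →
      ∃ s t, s < t ∧ ∃ θ ∈ hom (i s) (i t), ∀ w, lead (i s) w (κ s) → lead (i t) (θ w) (κ t))
    (M : ℕ → ∀ i, AddSubgroup (V i)) (hM : ∀ s t, s ≤ t → ∀ i, M s i ≤ M t i)
    (hcl : ∀ t i j, ∀ θ ∈ hom i j, ∀ w ∈ M t i, θ w ∈ M t j) :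
    ∃ t₀, ∀ t, t₀ ≤ t → ∀ i, M t i = M t₀ i := by
  classical
  by_contra hcon
  push Not at hcon
  -- for each `s` there are `t > s`, `i` and an element of `M t i \ M s i` of minimal lead
  have key : ∀ s, ∃ (t : ℕ) (i : I) (κ : K i) (w : V i), s < t ∧ w ∈ M t i ∧ w ∉ M s i ∧
      lead i w κ ∧ ∀ w' ∈ M t i, w' ∉ M s i → ∀ κ', lead i w' κ' → ¬ κ' < κ := by
    intro s
    obtain ⟨t, hst, i, hi⟩ := hcon s
    have hlt : s < t := by
      rcases hst.eq_or_lt with rfl | h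
      · exact absurd rfl hi
      · exact h
    obtain ⟨w0, hw0, hw0'⟩ := SetLike.exists_of_lt (lt_of_le_of_ne (hM s t hst i) (Ne.symm hi))
    have hne : w0 ≠ 0 := by
      rintro rfl
      exact hw0' (zero_mem _)
    obtain ⟨κ0, hκ0⟩ := h1 i w0 hne
    have wf : WellFounded ((· < ·) : K i → K i → Prop) := wellFounded_lt
    obtain ⟨κ, ⟨w, hw, hw', hκ⟩, hmin⟩ :=
      wf.has_min {κ | ∃ w ∈ M t i, w ∉ M s i ∧ lead i w κ} ⟨κ0, w0, hw0, hw0', hκ0⟩
    exact ⟨t, i, κ, w, hlt, hw, hw', hκ, fun w' h h' κ' hl => hmin κ' ⟨w', h, h', hl⟩⟩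
  choose nx ix κx wx hx1 hx2 hx3 hx4 hx5 using key
  -- iterate
  let τ : ℕ → ℕ := fun n => Nat.rec 0 (fun _ x => nx x) n
  have hτ : ∀ n, τ (n+1) = nx (τ n) := fun n => rfl
  have hτlt : StrictMono τ := strictMono_nat_of_lt_succ fun n => by rw [hτ]; exact hx1 _
  obtain ⟨s, t, hst, θ, hθ, hlead⟩ := good (fun n => ix (τ n)) (fun n => κx (τ n))
    (fun n => ⟨_, hx4 (τ n)⟩)
  have hs := hlead (wx (τ s)) (hx4 (τ s))
  have hmem : θ (wx (τ s)) ∈ M (τ t) (ix (τ t)) := by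
    have h3 : θ (wx (τ s)) ∈ M (τ (s+1)) (ix (τ t)) := by
      rw [hτ]
      exact hcl _ _ _ θ hθ _ (hx2 (τ s))
    exact hM _ _ (hτlt.monotone hst) _ h3
  set w := wx (τ t) - θ (wx (τ s)) with hw
  have hw1 : w ∈ M (nx (τ t)) (ix (τ t)) :=
    sub_mem (hx2 _) (hM _ _ (hx1 (τ t)).le _ hmem)
  have hw2 : w ∉ M (τ t) (ix (τ t)) := by
    intro h
    apply hx3 (τ t)
    have : wx (τ t) = w + θ (wx (τ s)) := by rw [hw]; abel
    rw [this]
    exact add_mem h hmem
  have hne : w ≠ 0 := by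
    intro h
    exact hw2 (h ▸ zero_mem _)
  obtain ⟨κ', hκ'⟩ := h1 _ w hne
  exact hx5 (τ t) w hw1 hw2 κ' hκ' (h2 _ _ _ _ (hx4 (τ t)) hs κ' hκ')

/-- the lead of a vector with respect to coordinates `c` and a key function -/
def cLead {V B K : Type} [AddCommGroup V] [Preorder K] (c : V →+ (B → ZMod 2)) (key : B → K)
    (w : V) (κ : K) : Prop := ∃ b, key b = κ ∧ c w b ≠ 0 ∧ ∀ b', c w b' ≠ 0 → key b' ≤ κ

lemma cLead_exists {V B K : Type} [AddCommGroup V] [LinearOrder K] [Finite B]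
    (c : V →+ (B → ZMod 2)) (hc : Function.Injective c) (key : B → K) (w : V) (hw : w ≠ 0) :
    ∃ κ, cLead c key w κ := by
  classical
  have := Fintype.ofFinite B
  have hne : ∃ b, c w b ≠ 0 := by
    by_contra h
    push Not at h
    apply hw
    apply hc
    rw [map_zero]
    funext b
    exact h b
  obtain ⟨b0, hb0⟩ := hne
  obtain ⟨b, hb, hmax⟩ := Finset.exists_max_image (Finset.univ.filter fun b => c w b ≠ 0) key
    ⟨b0, by simpa using hb0⟩
  exact ⟨key b, b, rfl, by simpa using hb, fun b' hb' => hmax b' (by simpa using hb')⟩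

lemma cLead_sub {V B K : Type} [AddCommGroup V] [LinearOrder K] 
    (c : V →+ (B → ZMod 2)) (key : B → K) (hkey : Function.Injective key) (w w' : V) (κ : K)
    (h : cLead c key w κ) (h' : cLead c key w' κ) (κ' : K) (h'' : cLead c key (w - w') κ') :
    κ' < κ := by
  obtain ⟨b, hb, hb1, hb2⟩ := h
  obtain ⟨b', hb', hb1', hb2'⟩ := h'
  obtain ⟨x, hx, hx1, -⟩ := h''
  have hbb : b' = b := hkey (hb'.trans hb.symm)
  subst hbb
  have hne : ∀ y : ZMod 2, y ≠ 0 → y = 1 := by decide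
  have hxb : x ≠ b' := by
    rintro rfl
    apply hx1
    rw [map_sub, Pi.sub_apply, hne _ hb1, hne _ hb1', sub_self]
  have hle : key x ≤ κ := by
    by_contra hcon
    apply hx1
    rw [map_sub, Pi.sub_apply]
    have h1 : c w x = 0 := by
      by_contra h; exact hcon (hb2 x h)
    have h2 : c w' x = 0 := by
      by_contra h; exact hcon (hb2' x h)
    rw [h1, h2, sub_self]
  rw [← hx]
  refine lt_of_le_of_ne hle ?_
  intro h
  exact hxb (hkey (h.trans hb.symm))

end Pool.Agent.OH
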