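import Pool.Agent.OH.Defs3

set_option autoImplicit false

namespace Pool.Agent.OH

section P1
variable (rk : ℕ → Ordinal.{0}) {V : Type} [AddCommGroup V] [Module (ZMod 3) V]

/-- `v ∈ T_+` with index `a`. -/
def P1_TpI (D : Finset ℕ) (η : V →ₗ[ZMod 3] ZMod 3) (w y : ℕ → (V →ₗ[ZMod 3] ZMod 3))
    (a : ℕ) (v : V) : Prop :=
  η v = 1 ∧ a ∈ D ∧ (∀ i < a, w i v = 0) ∧ w a v = 1 ∧ ∀ b ∈ D, sq rk b a → y b v = 0

/-- the pattern defined by functionals -/
def P1_Pat (D : Finset ℕ) (η : V →ₗ[ZMod 3] ZMod 3) (w y : ℕ → (V →ₗ[ZMod 3] ZMod 3)) : Set V :=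
  {v | Tp rk D (fun v => η v) (fun i v => w i v) (fun b v => y b v) v ∨
      Tp rk D (fun v => η v) (fun i v => w i v) (fun b v => y b v) (-v)}

lemma P1_Tp_iff (D : Finset ℕ) (η : V →ₗ[ZMod 3] ZMod 3) (w y : ℕ → (V →ₗ[ZMod 3] ZMod 3))
    (v : V) : Tp rk D (fun v => η v) (fun i v => w i v) (fun b v => y b v) v ↔
      ∃ a, P1_TpI rk D η w y a v := by
  constructor
  · rintro ⟨h1, a, ha, h2, h3, h4⟩
    exact ⟨a, h1, ha, h2, h3, h4⟩
  · rintro ⟨a, h1, ha, h2, h3, h4⟩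
    exact ⟨h1, a, ha, h2, h3, h4⟩

lemma P1_mem_Pat (D : Finset ℕ) (η : V →ₗ[ZMod 3] ZMod 3) (w y : ℕ → (V →ₗ[ZMod 3] ZMod 3))
    (v : V) : v ∈ P1_Pat rk D η w y ↔
      (∃ a, P1_TpI rk D η w y a v) ∨ (∃ a, P1_TpI rk D η w y a (-v)) := by
  rw [← P1_Tp_iff, ← P1_Tp_iff]; rfl

lemma P1_Pat_neg (D : Finset ℕ) (η : V →ₗ[ZMod 3] ZMod 3) (w y : ℕ → (V →ₗ[ZMod 3] ZMod 3))
    (v : V) : -v ∈ P1_Pat rk D η w y ↔ v ∈ P1_Pat rk D η w y := by
  rw [P1_mem_Pat, P1_mem_Pat, neg_neg, or_comm]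

/-- the direction space `L_a` -/
def P1_L (D : Finset ℕ) (η : V →ₗ[ZMod 3] ZMod 3) (w y : ℕ → (V →ₗ[ZMod 3] ZMod 3))
    (a : ℕ) (k : V) : Prop :=
  η k = 0 ∧ (∀ i ≤ a, w i k = 0) ∧ ∀ b ∈ D, sq rk b a → y b k = 0

/-- The key computation of (3.2). -/
lemma P1_dir (D : Finset ℕ) (η : V →ₗ[ZMod 3] ZMod 3) (w y : ℕ → (V →ₗ[ZMod 3] ZMod 3))
    (a : ℕ) (v k : V) (hv : P1_TpI rk D η w y a v) (h1 : v + k ∈ P1_Pat rk D η w y)
    (h2 : v - k ∈ P1_Pat rk D η w y) : P1_L rk D η w y a k := by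
  obtain ⟨hη, haD, hw, hwa, hy⟩ := hv
  have hηk : η k = 0 := by
    have e1 : η (v + k) = 1 ∨ η (-(v + k)) = 1 := by
      rcases (P1_mem_Pat rk D η w y _).mp h1 with ⟨a', h⟩ | ⟨a', h⟩
      · exact Or.inl h.1
      · exact Or.inr h.1
    have e2 : η (v - k) = 1 ∨ η (-(v - k)) = 1 := by
      rcases (P1_mem_Pat rk D η w y _).mp h2 with ⟨a', h⟩ | ⟨a', h⟩
      · exact Or.inl h.1
      · exact Or.inr h.1
    rw [map_neg, map_add, hη] at e1
    rw [map_neg, map_sub, hη] at e2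
    revert e1 e2
    generalize η k = x
    revert x; decide
  have hp1 : ∃ a', P1_TpI rk D η w y a' (v + k) := by
    rcases (P1_mem_Pat rk D η w y _).mp h1 with h | ⟨a', h⟩
    · exact h
    · exfalso
      have := h.1
      rw [map_neg, map_add, hη, hηk] at this
      revert this; decide
  have hp2 : ∃ a', P1_TpI rk D η w y a' (v - k) := by
    rcases (P1_mem_Pat rk D η w y _).mp h2 with h | ⟨a', h⟩
    · exact h
    · exfalso
      have := h.1
      rw [map_neg, map_sub, hη, hηk] at this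
      revert this; decide
  obtain ⟨a1, -, -, hw1, hwa1, hy1⟩ := hp1
  obtain ⟨a2, -, -, hw2, hwa2, hy2⟩ := hp2
  have hwk : ∀ i ≤ a, w i k = 0 := by
    intro i
    induction i using Nat.strong_induction_on with
    | _ i ih =>
      intro hia
      have hz1 : ∀ j < i, w j (v + k) = 0 := fun j hj => by
        rw [map_add, hw j (hj.trans_le hia), ih j hj (hj.le.trans hia), add_zero]
      have hz2 : ∀ j < i, w j (v - k) = 0 := fun j hj => by
        rw [map_sub, hw j (hj.trans_le hia), ih j hj (hj.le.trans hia), sub_zero]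
      have hia1 : i ≤ a1 := by
        by_contra hcon
        rw [hz1 a1 (not_le.mp hcon)] at hwa1
        exact absurd hwa1 (by decide)
      have hia2 : i ≤ a2 := by
        by_contra hcon
        rw [hz2 a2 (not_le.mp hcon)] at hwa2
        exact absurd hwa2 (by decide)
      have c1 : w i (v + k) = 0 ∨ w i (v + k) = 1 := by
        rcases hia1.eq_or_lt with rfl | h
        · exact Or.inr hwa1
        · exact Or.inl (hw1 i h)
      have c2 : w i (v - k) = 0 ∨ w i (v - k) = 1 := by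
        rcases hia2.eq_or_lt with rfl | h
        · exact Or.inr hwa2
        · exact Or.inl (hw2 i h)
      have c3 : w i v = 0 ∨ w i v = 1 := by
        rcases hia.eq_or_lt with rfl | h
        · exact Or.inr hwa
        · exact Or.inl (hw i h)
      rw [map_add] at c1
      rw [map_sub] at c2
      revert c1 c2 c3
      generalize w i k = x
      generalize w i v = z
      revert x z; decide
  refine ⟨hηk, hwk, fun b hb hba => ?_⟩
  have haa : a1 = a := by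
    rcases lt_trichotomy a1 a with h | h | h
    · exfalso
      rw [map_add, hw a1 h, hwk a1 h.le] at hwa1
      exact absurd hwa1 (by decide)
    · exact h
    · exfalso
      have := hw1 a h
      rw [map_add, hwa, hwk a le_rfl] at this
      exact absurd this (by decide)
  subst haa
  have := hy1 b hb hba
  rwa [map_add, hy b hb hba, zero_add] at this

lemma P1_add (D : Finset ℕ) (η : V →ₗ[ZMod 3] ZMod 3) (w y : ℕ → (V →ₗ[ZMod 3] ZMod 3))
    (a : ℕ) (v k : V) (hv : P1_TpI rk D η w y a v) (hk : P1_L rk D η w y a k) :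
    P1_TpI rk D η w y a (v + k) := by
  obtain ⟨hη, haD, hw, hwa, hy⟩ := hv
  obtain ⟨h1, h2, h3⟩ := hk
  refine ⟨by rw [map_add, hη, h1, add_zero], haD, fun i hi => ?_, ?_, fun b hb hba => ?_⟩
  · rw [map_add, hw i hi, h2 i hi.le, add_zero]
  · rw [map_add, hwa, h2 a le_rfl, add_zero]
  · rw [map_add, hy b hb hba, h3 b hb hba, add_zero]

lemma P1_L_neg (D : Finset ℕ) (η : V →ₗ[ZMod 3] ZMod 3) (w y : ℕ → (V →ₗ[ZMod 3] ZMod 3))
    (a : ℕ) (k : V) (hk : P1_L rk D η w y a k) : P1_L rk D η w y a (-k) := by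
  obtain ⟨h1, h2, h3⟩ := hk
  exact ⟨by rw [map_neg, h1, neg_zero], fun i hi => by rw [map_neg, h2 i hi, neg_zero],
    fun b hb hba => by rw [map_neg, h3 b hb hba, neg_zero]⟩

open Classical in
/-- `D' = {a ∈ D : K ⊆ L_a}` -/
noncomputable def P1_D' (D : Finset ℕ) (η : V →ₗ[ZMod 3] ZMod 3)
    (w y : ℕ → (V →ₗ[ZMod 3] ZMod 3)) (K : Submodule (ZMod 3) V) : Finset ℕ :=
  D.filter fun a => ∀ k ∈ K, P1_L rk D η w y a k

lemma P1_mem_D' (D : Finset ℕ) (η : V →ₗ[ZMod 3] ZMod 3)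
    (w y : ℕ → (V →ₗ[ZMod 3] ZMod 3)) (K : Submodule (ZMod 3) V) (a : ℕ) :
    a ∈ P1_D' rk D η w y K ↔ a ∈ D ∧ ∀ k ∈ K, P1_L rk D η w y a k := by
  classical
  simp [P1_D']

lemma P1_D'_sub (D : Finset ℕ) (η : V →ₗ[ZMod 3] ZMod 3)
    (w y : ℕ → (V →ₗ[ZMod 3] ZMod 3)) (K : Submodule (ZMod 3) V) :
    P1_D' rk D η w y K ⊆ D := fun a ha => ((P1_mem_D' rk D η w y K a).mp ha).1

lemma P1_sq_trans {rk : ℕ → Ordinal.{0}} {a b c : ℕ} (h : sq rk a b) (h' : sq rk b c) :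
    sq rk a c := ⟨h.1.trans h'.1, h.2.trans h'.2⟩

lemma P1_L_down (D : Finset ℕ) (η : V →ₗ[ZMod 3] ZMod 3)
    (w y : ℕ → (V →ₗ[ZMod 3] ZMod 3)) (a b : ℕ) (hba : sq rk b a) (k : V)
    (hk : P1_L rk D η w y a k) : P1_L rk D η w y b k :=
  ⟨hk.1, fun i hi => hk.2.1 i (hi.trans hba.1), fun c hc hcb => hk.2.2 c hc (P1_sq_trans hcb hba)⟩

lemma P1_D'_ds (D : Finset ℕ) (hD : IsDS rk D) (η : V →ₗ[ZMod 3] ZMod 3)
    (w y : ℕ → (V →ₗ[ZMod 3] ZMod 3)) (K : Submodule (ZMod 3) V) :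
    IsDS rk (P1_D' rk D η w y K) := by
  intro a ha b hba
  rw [P1_mem_D'] at ha ⊢
  exact ⟨hD a ha.1 b hba, fun k hk => P1_L_down rk D η w y a b hba k (ha.2 k hk)⟩

/-- The image pattern: for functionals `η', w', y'` on the quotient which descend. -/
theorem P1_image (D : Finset ℕ) (hD : IsDS rk D) {W : Type} [AddCommGroup W] [Module (ZMod 3) W]
    (ψ : V →ₗ[ZMod 3] W) (hψ : Function.Surjective ψ)
    (η : V →ₗ[ZMod 3] ZMod 3) (w y : ℕ → (V →ₗ[ZMod 3] ZMod 3))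
    (η' : W →ₗ[ZMod 3] ZMod 3) (w' y' : ℕ → (W →ₗ[ZMod 3] ZMod 3))
    (hη : (P1_D' rk D η w y (LinearMap.ker ψ)).Nonempty → ∀ v, η' (ψ v) = η v)
    (hw : ∀ a ∈ P1_D' rk D η w y (LinearMap.ker ψ), ∀ i ≤ a, ∀ v, w' i (ψ v) = w i v)
    (hy : ∀ a ∈ P1_D' rk D η w y (LinearMap.ker ψ), ∀ v, y' a (ψ v) = y a v) :
    {x : W | ∀ v, ψ v = x → v ∈ P1_Pat rk D η w y} =
      P1_Pat rk (P1_D' rk D η w y (LinearMap.ker ψ)) η' w' y' := by
  set D' := P1_D' rk D η w y (LinearMap.ker ψ) with hD'def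
  have hfw : ∀ v : V, (∀ v', ψ v' = ψ v → v' ∈ P1_Pat rk D η w y) →
      (∃ a, P1_TpI rk D η w y a v) → ∃ a, P1_TpI rk D' η' w' y' a (ψ v) := by
    rintro v hall ⟨a, ha⟩
    have hK : ∀ k ∈ LinearMap.ker ψ, P1_L rk D η w y a k := by
      intro k hk
      rw [LinearMap.mem_ker] at hk
      apply P1_dir rk D η w y a v k ha
      · exact hall _ (by rw [map_add, hk, add_zero])
      · exact hall _ (by rw [map_sub, hk, sub_zero])
    have haD' : a ∈ D' := (P1_mem_D' rk D η w y _ a).mpr ⟨ha.2.1, hK⟩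
    refine ⟨a, ?_, haD', fun i hi => ?_, ?_, fun b hb hba => ?_⟩
    · rw [hη ⟨a, haD'⟩, ha.1]
    · rw [hw a haD' i hi.le, ha.2.2.1 i hi]
    · rw [hw a haD' a le_rfl, ha.2.2.2.1]
    · rw [hy b hb, ha.2.2.2.2 b (P1_D'_sub rk D η w y _ hb) hba]
  have hbw : ∀ v : V, (∃ a, P1_TpI rk D' η' w' y' a (ψ v)) → ∃ a, P1_TpI rk D η w y a v := by
    rintro v ⟨a, h1, haD', h2, h3, h4⟩
    have haD := P1_D'_sub rk D η w y _ haD'
    refine ⟨a, ?_, haD, fun i hi => ?_, ?_, fun b hb hba => ?_⟩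
    · rw [← hη ⟨a, haD'⟩, h1]
    · rw [← hw a haD' i hi.le, h2 i hi]
    · rw [← hw a haD' a le_rfl, h3]
    · have hbD' : b ∈ D' := P1_D'_ds rk D hD η w y _ a haD' b hba
      rw [← hy b hbD', h4 b hbD' hba]
  ext x
  obtain ⟨v, rfl⟩ := hψ x
  rw [P1_mem_Pat, Set.mem_ofPred_eq]
  constructor
  · intro hall
    rcases (P1_mem_Pat rk D η w y v).mp (hall v rfl) with h | h
    · exact Or.inl (hfw v hall h)
    · right
      rw [← map_neg]
      refine hfw (-v) (fun v' hv' => ?_) h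
      rw [← P1_Pat_neg]
      exact hall _ (by rw [map_neg, hv', map_neg, neg_neg])
  · intro h v' hv'
    rw [P1_mem_Pat]
    rcases h with h | h
    · left
      rw [← hv'] at h
      exact hbw v' h
    · right
      rw [← hv', ← map_neg] at h
      exact hbw (-v') h

end P1

/-- (3.2). You may also state and prove here the more precise version (with the explicit
`D' = {a ∈ D : w_i|K = 0 (i ≤ a), y_b|K = 0 (b ∈ D, b ⊑ a)}` resp. `∅` if `η|K ≠ 0`), which is what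
(3.3) and (3.4) use. -/
theorem rep_image (rk : ℕ → Ordinal.{0}) (hrk : Function.Injective rk) (D : Finset ℕ)
    (hD : IsDS rk D) {n n' : ℕ} (ψ : E n' →ₗ[ZMod 3] E n) (hψ : Function.Surjective ψ)
    (T : Set (E n')) (hT : Rep rk D T) :
    ∃ D' ⊆ D, IsDS rk D' ∧ Rep rk D' {x : E n | ∀ v, ψ v = x → v ∈ T} := by
  obtain ⟨η, w, y, hind, hTe⟩ := hT
  have hTe' : T = P1_Pat rk D η w y := hTe
  obtain ⟨σ, hσ⟩ := LinearMap.exists_rightInverse_of_surjective ψ (LinearMap.range_eq_top.mpr hψ)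
  have hσ' : ∀ x, ψ (σ x) = x := fun x => LinearMap.congr_fun hσ x
  -- functionals vanishing on the kernel descend
  have hdesc : ∀ f : E n' →ₗ[ZMod 3] ZMod 3, (∀ k ∈ LinearMap.ker ψ, f k = 0) →
      ∀ v, (f.comp σ) (ψ v) = f v := by
    intro f hf v
    have h1 : σ (ψ v) - v ∈ LinearMap.ker ψ := by
      rw [LinearMap.mem_ker, map_sub, hσ', sub_self]
    have h2 := hf _ h1
    rw [map_sub, sub_eq_zero] at h2
    exact h2
  set D' := P1_D' rk D η w y (LinearMap.ker ψ) with hD'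
  have hη : D'.Nonempty → ∀ v, (η.comp σ) (ψ v) = η v := by
    rintro ⟨a, ha⟩ v
    exact hdesc η (fun k hk => (((P1_mem_D' rk D η w y _ a).mp ha).2 k hk).1) v
  have hw : ∀ a ∈ D', ∀ i ≤ a, ∀ v, ((w i).comp σ) (ψ v) = w i v := fun a ha i hi v =>
    hdesc (w i) (fun k hk => (((P1_mem_D' rk D η w y _ a).mp ha).2 k hk).2.1 i hi) v
  have hy : ∀ a ∈ D', ∀ v, ((y a).comp σ) (ψ v) = y a v := fun a ha v =>
    hdesc (y a) (fun k hk => (((P1_mem_D' rk D η w y _ a).mp ha).2 k hk).2.2 a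
      (P1_D'_sub rk D η w y _ ha) ⟨le_rfl, le_rfl⟩) v
  refine ⟨D', P1_D'_sub rk D η w y _, P1_D'_ds rk D hD η w y _, η.comp σ,
    fun i => (w i).comp σ, fun b => (y b).comp σ, fun hne => ?_, ?_⟩
  · -- independence
    have hDne : D.Nonempty := hne.mono (P1_D'_sub rk D η w y _)
    have hi := hind hDne
    have hmD : mD D' ≤ mD D := Finset.sup_mono (P1_D'_sub rk D η w y _)
    let ι : Unit ⊕ ({i // i < mD D'} ⊕ {b // b ∈ D'}) → Unit ⊕ ({i // i < mD D} ⊕ {b // b ∈ D}) :=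
      Sum.map id (Sum.map (fun i => ⟨i.1, lt_of_lt_of_le i.2 hmD⟩)
        (fun b => ⟨b.1, P1_D'_sub rk D η w y _ b.2⟩))
    have hι : Function.Injective ι := by
      apply Function.Injective.sumMap Function.injective_id
      apply Function.Injective.sumMap
      · intro i j h
        exact Subtype.ext (by simpa using congrArg Subtype.val h)
      · intro i j h
        exact Subtype.ext (by simpa using congrArg Subtype.val h)
    have hi2 := hi.comp ι hι
    refine LinearIndependent.of_comp (Module.Dual.transpose (R := ZMod 3) ψ) ?_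
    refine Eq.mp ?_ hi2
    congr 1
    funext x
    have hexists : ∀ i < mD D', ∃ a ∈ D', i ≤ a := by
      intro i hi
      by_contra hcon
      push Not at hcon
      have : mD D' ≤ i := Finset.sup_le fun a ha => Nat.succ_le_of_lt (hcon a ha)
      omega
    rcases x with _ | ⟨i, hi⟩ | ⟨b, hb⟩
    · apply LinearMap.ext
      intro v
      exact (hη hne v).symm
    · obtain ⟨a, ha, hia⟩ := hexists i hi
      apply LinearMap.ext
      intro v
      exact (hw a ha i hia v).symm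
    · apply LinearMap.ext
      intro v
      exact (hy b hb v).symm
  · rw [hTe']
    exact P1_image rk D hD ψ hψ η w y (η.comp σ) (fun i => (w i).comp σ) (fun b => (y b).comp σ)
      hη hw hy

end Pool.Agent.OH
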