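import Pool.Agent.OH.Defs3

set_option autoImplicit false

namespace Pool.Agent.OH

namespace P3

lemma z3_cases (x : ZMod 3) : x = 0 ∨ x = 1 ∨ x = -1 := by revert x; decide

/-- Linearly independent functionals take arbitrary values. -/
lemma exists_vals {n : ℕ} {X : Type} [Finite X] (f : X → (E n →ₗ[ZMod 3] ZMod 3))
    (hf : LinearIndependent (ZMod 3) f) (c : X → ZMod 3) : ∃ v : E n, ∀ x, f x v = c x := by
  classical
  have := Fintype.ofFinite X
  have hsurj : Function.Surjective (LinearMap.pi f) := by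
    rw [← LinearMap.dualMap_injective_iff, injective_iff_map_eq_zero]
    intro φ hφ
    have h1 : ∑ x, φ (Pi.single x 1) • f x = 0 := by
      ext i
      have h2 := LinearMap.congr_fun hφ (Pi.single i 1)
      rw [LinearMap.dualMap_apply] at h2
      have h3 : φ (LinearMap.pi f (Pi.single i 1)) =
          ∑ x, φ (Pi.single x 1) * f x (Pi.single i 1) := by
        conv_lhs => rw [← Finset.univ_sum_single (LinearMap.pi f (Pi.single i 1)), map_sum]
        refine Finset.sum_congr rfl fun x _ => ?_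
        have h4 : (Pi.single x (LinearMap.pi f (Pi.single i 1) x) : X → ZMod 3) =
            (f x (Pi.single i 1)) • (Pi.single x 1 : X → ZMod 3) := by
          rw [← Pi.single_smul, smul_eq_mul, mul_one]; rfl
        rw [h4, map_smul, smul_eq_mul, mul_comm]
      rw [h3] at h2
      simpa [LinearMap.sum_apply] using h2
    have h5 := Fintype.linearIndependent_iff.1 hf _ h1
    refine LinearMap.pi_ext' fun x => ?_
    ext
    simpa using h5 x
  obtain ⟨v, hv⟩ := hsurj c
  exact ⟨v, fun x => by rw [← hv]; rfl⟩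

section
variable (rk : ℕ → Ordinal.{0}) (D : Finset ℕ) {n : ℕ} (η : E n →ₗ[ZMod 3] ZMod 3)
  (w y : ℕ → (E n →ₗ[ZMod 3] ZMod 3))

/-- The direction space `L_a`. -/
def LL (a : ℕ) : Set (E n) :=
  {k | η k = 0 ∧ (∀ i ≤ a, w i k = 0) ∧ ∀ b ∈ D, sq rk b a → y b k = 0}

/-- Membership in `T_+` with index `a`. -/
def Tpa (a : ℕ) (v : E n) : Prop :=
  η v = 1 ∧ (∀ i < a, w i v = 0) ∧ w a v = 1 ∧ ∀ b ∈ D, sq rk b a → y b v = 0

/-- The set represented. -/
def TT : Set (E n) := {v | (∃ a ∈ D, Tpa rk D η w y a v) ∨ ∃ a ∈ D, Tpa rk D η w y a (-v)}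

/-- The family of functionals. -/
def fam : Unit ⊕ ({i // i < mD D} ⊕ {b // b ∈ D}) → (E n →ₗ[ZMod 3] ZMod 3) :=
  fun x => Sum.elim (fun _ => η) (Sum.elim (fun i => w i.1) (fun b => y b.1)) x

variable {rk D η w y}

lemma Tpa.not_neg {a c : ℕ} {u : E n} (h : Tpa rk D η w y a u) (h1 : ∀ i < c, w i u = 0)
    (h2 : w c u = -1) : False := by
  obtain ⟨-, h3, h4, -⟩ := h
  rcases lt_trichotomy a c with h5 | h5 | h5
  · rw [h1 a h5] at h4; exact absurd h4 (by decide)
  · subst h5; rw [h2] at h4; exact absurd h4 (by decide)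
  · rw [h3 c h5] at h2; exact absurd h2 (by decide)

lemma TT_neg {v : E n} (h : v ∈ TT rk D η w y) : -v ∈ TT rk D η w y := by
  rcases h with h | h
  · exact Or.inr (by rwa [neg_neg])
  · exact Or.inl h

lemma TT_eta {v : E n} (h : v ∈ TT rk D η w y) : η v ≠ 0 := by
  rcases h with ⟨a, -, h, -⟩ | ⟨a, -, h, -⟩
  · rw [h]; decide
  · intro h0; rw [map_neg, h0, neg_zero] at h; exact absurd h (by decide)

lemma TT_pos {v : E n} (h : v ∈ TT rk D η w y) (h1 : η v = 1) : ∃ a ∈ D, Tpa rk D η w y a v := by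
  rcases h with h | ⟨a, -, h, -⟩
  · exact h
  · rw [map_neg, h1] at h; exact absurd h (by decide)

lemma dir {a : ℕ} (ha : a ∈ D) {v : E n} (hv : Tpa rk D η w y a v) (k : E n) :
    (v + k ∈ TT rk D η w y ∧ v - k ∈ TT rk D η w y) ↔ k ∈ LL rk D η w y a := by
  obtain ⟨hv1, hv2, hv3, hv4⟩ := hv
  constructor
  · rintro ⟨h1, h2⟩
    have hk : η k = 0 := by
      rcases z3_cases (η k) with h | h | h
      · exact h
      · exact absurd (show η (v - k) = 0 by rw [map_sub, hv1, h]; decide) (TT_eta h2)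
      · exact absurd (show η (v + k) = 0 by rw [map_add, hv1, h]; decide) (TT_eta h1)
    obtain ⟨a₁, ha₁, h3⟩ := TT_pos h1 (by rw [map_add, hv1, hk, add_zero])
    obtain ⟨a₂, ha₂, h4⟩ := TT_pos h2 (by rw [map_sub, hv1, hk, sub_zero])
    have hw : ∀ i, i ≤ a → w i k = 0 := by
      intro i
      induction i using Nat.strong_induction_on with
      | _ i ih =>
        intro hi
        have h5 : ∀ j < i, w j k = 0 := fun j hj => ih j hj (hj.le.trans hi)
        have h6 : ∀ j < i, w j v = 0 := fun j hj => hv2 j (lt_of_lt_of_le hj hi)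
        have h7 : ∀ j < i, w j (v + k) = 0 := fun j hj => by
          rw [map_add, h5 j hj, h6 j hj, add_zero]
        have h8 : ∀ j < i, w j (v - k) = 0 := fun j hj => by
          rw [map_sub, h5 j hj, h6 j hj, sub_zero]
        rcases z3_cases (w i k) with h | h | h
        · exact h
        · rcases hi.lt_or_eq with h9 | h9
          · exact (h4.not_neg h8 (by rw [map_sub, hv2 i h9, h]; decide)).elim
          · subst h9
            exact (h3.not_neg h7 (by rw [map_add, hv3, h]; decide)).elim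
        · rcases hi.lt_or_eq with h9 | h9
          · exact (h3.not_neg h7 (by rw [map_add, hv2 i h9, h]; decide)).elim
          · subst h9
            exact (h4.not_neg h8 (by rw [map_sub, hv3, h]; decide)).elim
    refine ⟨hk, hw, fun b hb hba => ?_⟩
    obtain ⟨-, h5, h6, h7⟩ := h3
    have h8 : a₁ = a := by
      rcases lt_trichotomy a₁ a with h | h | h
      · rw [map_add, hv2 a₁ h, hw a₁ h.le] at h6; exact absurd h6 (by decide)
      · exact h
      · have := h5 a h
        rw [map_add, hv3, hw a le_rfl] at this; exact absurd this (by decide)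
    subst h8
    have h9 := h7 b hb hba
    rwa [map_add, hv4 b hb hba, zero_add] at h9
  · rintro ⟨h1, h2, h3⟩
    refine ⟨Or.inl ⟨a, ha, ?_, fun i hi => ?_, ?_, fun b hb hba => ?_⟩,
      Or.inl ⟨a, ha, ?_, fun i hi => ?_, ?_, fun b hb hba => ?_⟩⟩
    · rw [map_add, hv1, h1, add_zero]
    · rw [map_add, hv2 i hi, h2 i hi.le, add_zero]
    · rw [map_add, hv3, h2 a le_rfl, add_zero]
    · rw [map_add, hv4 b hb hba, h3 b hb hba, add_zero]
    · rw [map_sub, hv1, h1, sub_zero]
    · rw [map_sub, hv2 i hi, h2 i hi.le, sub_zero]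
    · rw [map_sub, hv3, h2 a le_rfl, sub_zero]
    · rw [map_sub, hv4 b hb hba, h3 b hb hba, sub_zero]

lemma dir_set {a : ℕ} (ha : a ∈ D) {v : E n} (hv : Tpa rk D η w y a v) :
    {k | v + k ∈ TT rk D η w y ∧ v - k ∈ TT rk D η w y} = LL rk D η w y a :=
  Set.ext fun k => dir ha hv k

lemma dir_set_mem {v : E n} (hv : v ∈ TT rk D η w y) :
    ∃ a ∈ D, {k | v + k ∈ TT rk D η w y ∧ v - k ∈ TT rk D η w y} = LL rk D η w y a := by
  rcases hv with ⟨a, ha, h⟩ | ⟨a, ha, h⟩
  · exact ⟨a, ha, dir_set ha h⟩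
  · refine ⟨a, ha, ?_⟩
    rw [← dir_set ha h]
    ext k
    constructor
    · rintro ⟨h1, h2⟩
      refine ⟨?_, ?_⟩
      · have := TT_neg h2
        rwa [neg_sub, sub_eq_neg_add] at this
      · have := TT_neg h1
        rwa [neg_add, ← sub_eq_add_neg] at this
    · rintro ⟨h1, h2⟩
      refine ⟨?_, ?_⟩
      · have := TT_neg h2
        rwa [neg_sub, sub_neg_eq_add, add_comm] at this
      · have := TT_neg h1
        rwa [neg_add, neg_neg, ← sub_eq_add_neg] at this

lemma lt_mD {a : ℕ} (ha : a ∈ D) : a < mD D :=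
  Nat.lt_of_succ_le (Finset.le_sup (f := Nat.succ) ha)

lemma sq_refl (a : ℕ) : sq rk a a := ⟨le_rfl, le_rfl⟩

instance instFinLt (m : ℕ) : Finite {i // i < m} := (Set.finite_lt_nat m).to_subtype

lemma exists_Tpa (hli : LinearIndependent (ZMod 3) (fam D η w y)) {a : ℕ} (ha : a ∈ D) :
    ∃ v : E n, Tpa rk D η w y a v := by
  classical
  obtain ⟨v, hv⟩ := exists_vals _ hli
    (Sum.elim (fun _ => 1) (Sum.elim (fun i => if i.1 = a then 1 else 0) (fun _ => 0)))
  refine ⟨v, hv (Sum.inl ()), fun i hi => ?_, ?_, fun b hb _ => hv (Sum.inr (Sum.inr ⟨b, hb⟩))⟩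
  · have := hv (Sum.inr (Sum.inl ⟨i, hi.trans (lt_mD ha)⟩))
    simp only [fam, Sum.elim_inr, Sum.elim_inl] at this
    rw [this, if_neg hi.ne]
  · have := hv (Sum.inr (Sum.inl ⟨a, lt_mD ha⟩))
    simp only [fam, Sum.elim_inr, Sum.elim_inl] at this
    rw [this, if_pos trivial]

lemma LL_subset (hli : LinearIndependent (ZMod 3) (fam D η w y)) {a b : ℕ} (ha : a ∈ D)
    (hb : b ∈ D) : LL rk D η w y a ⊆ LL rk D η w y b ↔ sq rk b a := by
  classical
  constructor
  · intro h
    by_contra hba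
    obtain ⟨v, hv⟩ := exists_vals _ hli
      (Sum.elim (fun _ => 0) (Sum.elim (fun _ => 0) (fun c => if c.1 = b then 1 else 0)))
    have h1 : v ∈ LL rk D η w y a := by
      refine ⟨hv (Sum.inl ()), fun i hi => hv (Sum.inr (Sum.inl ⟨i, hi.trans_lt (lt_mD ha)⟩)),
        fun c hc hca => ?_⟩
      have := hv (Sum.inr (Sum.inr ⟨c, hc⟩))
      simp only [fam, Sum.elim_inr] at this
      rw [this, if_neg]
      rintro rfl
      exact hba hca
    have h2 := (h h1).2.2 b hb (sq_refl b)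
    have h3 := hv (Sum.inr (Sum.inr ⟨b, hb⟩))
    simp only [fam, Sum.elim_inr] at h3
    rw [h3, if_pos trivial] at h2
    exact absurd h2 (by decide)
  · rintro ⟨h1, h2⟩ k ⟨h3, h4, h5⟩
    exact ⟨h3, fun i hi => h4 i (hi.trans h1),
      fun c hc hcb => h5 c hc ⟨hcb.1.trans h1, hcb.2.trans h2⟩⟩

lemma sq_antisymm {a b : ℕ} (h : sq rk a b) (h' : sq rk b a) : a = b := le_antisymm h.1 h'.1

lemma LL_inj (hli : LinearIndependent (ZMod 3) (fam D η w y)) {a b : ℕ} (ha : a ∈ D)
    (hb : b ∈ D) (h : LL rk D η w y a = LL rk D η w y b) : a = b :=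
  sq_antisymm ((LL_subset hli hb ha).1 h.symm.subset) ((LL_subset hli ha hb).1 h.subset)

variable (rk D η w y) in
/-- `L_a` as a submodule. -/
def LS (a : ℕ) : Submodule (ZMod 3) (E n) where
  carrier := LL rk D η w y a
  zero_mem' := ⟨map_zero _, fun i _ => map_zero _, fun b _ _ => map_zero _⟩
  add_mem' := by
    rintro u v ⟨h1, h2, h3⟩ ⟨h4, h5, h6⟩
    exact ⟨by rw [map_add, h1, h4, add_zero], fun i hi => by rw [map_add, h2 i hi, h5 i hi, add_zero],
      fun b hb hba => by rw [map_add, h3 b hb hba, h6 b hb hba, add_zero]⟩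
  smul_mem' := by
    rintro c u ⟨h1, h2, h3⟩
    exact ⟨by rw [map_smul, h1, smul_zero], fun i hi => by rw [map_smul, h2 i hi, smul_zero],
      fun b hb hba => by rw [map_smul, h3 b hb hba, smul_zero]⟩

open Classical in
lemma finrank_LS (hli : LinearIndependent (ZMod 3) (fam D η w y)) {a : ℕ} (ha : a ∈ D) :
    (2 + a + (D.filter fun b => sq rk b a).card) + Module.finrank (ZMod 3) (LS rk D η w y a) = n := by
  let Y := Unit ⊕ (Fin (a + 1) ⊕ {b // b ∈ D.filter fun b => sq rk b a})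
  let g : Y → Unit ⊕ ({i // i < mD D} ⊕ {b // b ∈ D}) :=
    Sum.map id (Sum.map (fun i => ⟨i.1, (Nat.lt_succ_iff.1 i.2).trans_lt (lt_mD ha)⟩)
      (fun b => ⟨b.1, (Finset.mem_filter.1 b.2).1⟩))
  have hg : Function.Injective g := by
    refine Function.Injective.sumMap Function.injective_id (Function.Injective.sumMap ?_ ?_)
    · intro i j h
      exact Fin.ext (by simpa using h)
    · intro i j h
      exact Subtype.ext (by simpa using h)
  have hli' := hli.comp g hg
  have h1 : Module.finrank (ZMod 3) (Submodule.span (ZMod 3) (Set.range (fam D η w y ∘ g))) =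
      Fintype.card Y := finrank_span_eq_card hli'
  have h2 := Subspace.finrank_add_finrank_dualCoannihilator_eq
    (Submodule.span (ZMod 3) (Set.range (fam D η w y ∘ g)))
  have h3 : (Submodule.span (ZMod 3) (Set.range (fam D η w y ∘ g))).dualCoannihilator =
      LS rk D η w y a := by
    ext k
    rw [Submodule.mem_dualCoannihilator]
    constructor
    · intro h
      refine ⟨h _ (Submodule.subset_span ⟨Sum.inl (), rfl⟩), fun i hi => ?_, fun b hb hba => ?_⟩
      · exact h _ (Submodule.subset_span ⟨Sum.inr (Sum.inl ⟨i, Nat.lt_succ_iff.2 hi⟩), rfl⟩)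
      · exact h _ (Submodule.subset_span ⟨Sum.inr (Sum.inr ⟨b, Finset.mem_filter.2 ⟨hb, hba⟩⟩), rfl⟩)
    · rintro ⟨h4, h5, h6⟩ φ hφ
      induction hφ using Submodule.span_induction with
      | mem x hx =>
        obtain ⟨z, rfl⟩ := hx
        rcases z with z | z | z
        · exact h4
        · exact h5 z.1 (Nat.lt_succ_iff.1 z.2)
        · exact h6 z.1 (Finset.mem_filter.1 z.2).1 (Finset.mem_filter.1 z.2).2
      | zero => rfl
      | add x z _ _ hx hz => rw [LinearMap.add_apply, hx, hz, add_zero]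
      | smul c x _ hx => rw [LinearMap.smul_apply, hx, smul_zero]
  rw [h3, h1] at h2
  have h4 : Fintype.card Y = 2 + a + (D.filter fun b => sq rk b a).card := by
    simp only [Y, Fintype.card_sum, Fintype.card_unit, Fintype.card_fin, Fintype.card_coe]
    omega
  rw [h4] at h2
  rw [h2, Module.finrank_fin_fun]

end

lemma rep_TT {rk : ℕ → Ordinal.{0}} {D : Finset ℕ} {n : ℕ} {T : Set (E n)} (h : Rep rk D T) :
    ∃ (η : E n →ₗ[ZMod 3] ZMod 3) (w y : ℕ → (E n →ₗ[ZMod 3] ZMod 3)),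
      (D.Nonempty → LinearIndependent (ZMod 3) (fam D η w y)) ∧ T = TT rk D η w y := by
  obtain ⟨η, w, y, h1, h2⟩ := h
  refine ⟨η, w, y, h1, h2.trans ?_⟩
  ext v
  simp only [TT, Tpa, Tp, Set.mem_ofPred_eq]
  constructor
  · rintro (⟨h3, a, ha, h4, h5, h6⟩ | ⟨h3, a, ha, h4, h5, h6⟩)
    · exact Or.inl ⟨a, ha, h3, h4, h5, h6⟩
    · exact Or.inr ⟨a, ha, h3, h4, h5, h6⟩
  · rintro (⟨a, ha, h3, h4, h5, h6⟩ | ⟨a, ha, h3, h4, h5, h6⟩)
    · exact Or.inl ⟨h3, a, ha, h4, h5, h6⟩
    · exact Or.inr ⟨h3, a, ha, h4, h5, h6⟩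

lemma key {rk : ℕ → Ordinal.{0}} {D D' : Finset ℕ} {n : ℕ} {η η' : E n →ₗ[ZMod 3] ZMod 3}
    {w y w' y' : ℕ → (E n →ₗ[ZMod 3] ZMod 3)}
    (hli : D.Nonempty → LinearIndependent (ZMod 3) (fam D η w y))
    (hli' : D'.Nonempty → LinearIndependent (ZMod 3) (fam D' η' w' y'))
    (hT : TT rk D η w y = TT rk D' η' w' y') : D ⊆ D' := by
  classical
  intro a ha
  have hD := hli ⟨a, ha⟩
  -- every `L_b` is some `L'_b'` and conversely
  have fwd : ∀ b ∈ D, ∃ b' ∈ D', LL rk D η w y b = LL rk D' η' w' y' b' := by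
    intro b hb
    obtain ⟨v, hv⟩ := exists_Tpa hD hb
    have h1 : v ∈ TT rk D' η' w' y' := hT ▸ Or.inl ⟨b, hb, hv⟩
    obtain ⟨b', hb', h2⟩ := dir_set_mem h1
    exact ⟨b', hb', by rw [← dir_set hb hv, hT, h2]⟩
  obtain ⟨a', ha', haa⟩ := fwd a ha
  have hD' := hli' ⟨a', ha'⟩
  have bwd : ∀ b' ∈ D', ∃ b ∈ D, LL rk D' η' w' y' b' = LL rk D η w y b := by
    intro b hb
    obtain ⟨v, hv⟩ := exists_Tpa hD' hb
    have h1 : v ∈ TT rk D η w y := hT ▸ Or.inl ⟨b, hb, hv⟩
    obtain ⟨b', hb', h2⟩ := dir_set_mem h1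
    exact ⟨b', hb', by rw [← dir_set hb hv, ← hT, h2]⟩
  have h3 : ((D.filter fun b => sq rk b a).image (LL rk D η w y)) =
      ((D'.filter fun b => sq rk b a').image (LL rk D' η' w' y')) := by
    ext L
    simp only [Finset.mem_image, Finset.mem_filter]
    constructor
    · rintro ⟨b, ⟨hb, hba⟩, rfl⟩
      obtain ⟨b', hb', h4⟩ := fwd b hb
      refine ⟨b', ⟨hb', ?_⟩, h4.symm⟩
      rw [← LL_subset hD' ha' hb', ← haa, ← h4, LL_subset hD ha hb]
      exact hba
    · rintro ⟨b, ⟨hb, hba⟩, rfl⟩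
      obtain ⟨b', hb', h4⟩ := bwd b hb
      refine ⟨b', ⟨hb', ?_⟩, h4.symm⟩
      rw [← LL_subset hD ha hb', haa, ← h4, LL_subset hD' ha' hb]
      exact hba
  have h5 : (D.filter fun b => sq rk b a).card = (D'.filter fun b => sq rk b a').card := by
    rw [← Finset.card_image_of_injOn (f := LL rk D η w y), h3, Finset.card_image_of_injOn]
    · intro b hb c hc h
      exact LL_inj hD' (Finset.mem_filter.1 hb).1 (Finset.mem_filter.1 hc).1 h
    · intro b hb c hc h
      exact LL_inj hD (Finset.mem_filter.1 hb).1 (Finset.mem_filter.1 hc).1 h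
  have h6 := finrank_LS (rk := rk) hD ha
  have h7 := finrank_LS (rk := rk) hD' ha'
  have h8 : LS rk D η w y a = LS rk D' η' w' y' a' := SetLike.coe_injective haa
  rw [h8, h5] at h6
  have h9 : a = a' := by omega
  exact h9 ▸ ha'

end P3

/-- (3.4) -/
theorem rep_unique (rk : ℕ → Ordinal.{0}) (hrk : Function.Injective rk) {n : ℕ} (T : Set (E n))
    (D D' : Finset ℕ) (hD : IsDS rk D) (hD' : IsDS rk D') (h : Rep rk D T) (h' : Rep rk D' T) :
    D = D' := by
  obtain ⟨η, w, y, h1, h2⟩ := P3.rep_TT h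
  obtain ⟨η', w', y', h1', h2'⟩ := P3.rep_TT h'
  exact Finset.Subset.antisymm (P3.key h1 h1' (h2.symm.trans h2'))
    (P3.key h1' h1 (h2'.symm.trans h2))

end Pool.Agent.OH
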