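import Pool.Agent.OH.Z3

set_option autoImplicit false
set_option linter.unusedSectionVars false

namespace Pool.Agent.OH

namespace Z4aux

section gen

variable {ι : Type} [Fintype ι] [DecidableEq ι]

/-- the augmentation -/
noncomputable def eps : Lam ι →+* ZMod 2 :=
  (AddMonoidAlgebra.lift (ZMod 2) (ZMod 2) (ι → ZMod 2)
    (1 : Multiplicative (ι → ZMod 2) →* ZMod 2)).toRingHom

lemma eps_single (u : ι → ZMod 2) (r : ZMod 2) :
    eps (AddMonoidAlgebra.single u r : Lam ι) = r := by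
  show (AddMonoidAlgebra.lift (ZMod 2) (ZMod 2) (ι → ZMod 2)
    (1 : Multiplicative (ι → ZMod 2) →* ZMod 2)) (AddMonoidAlgebra.single u r) = r
  rw [AddMonoidAlgebra.lift_single]
  simp

lemma eps_br (u : ι → ZMod 2) : eps (br u) = 1 := eps_single u 1

lemma eps_dd (w : FreeGroup ι) (a : ι) : eps (dd w a) = bar w a := by
  induction w using FreeGroup.induction_on with
  | C1 => simp
  | of b =>
    rw [dd_of, bar_of]
    by_cases h : a = b
    · subst h; simp
    · rw [Pi.single_eq_of_ne h, Pi.single_eq_of_ne h, map_zero]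
  | inv_of b ih => rw [dd_inv, map_mul, eps_br, one_mul, ih, bar_inv]
  | mul x y hx hy => rw [dd_mul, map_add, map_mul, eps_br, one_mul, hx, hy, bar_mul]; rfl

lemma sq_eq (g : Lam ι) : g * g = AddMonoidAlgebra.single 0 (eps g) := by
  induction g using AddMonoidAlgebra.induction_linear with
  | zero => simp
  | add x y hx hy =>
    have h : (x + y) * (x + y) = x * x + y * y + (x * y + x * y) := by ring
    rw [h, lam_add_self, add_zero, hx, hy, map_add, AddMonoidAlgebra.single_add]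
  | single m r =>
    rw [AddMonoidAlgebra.single_mul_single, u_add_self, eps_single]
    congr 1
    revert r; decide

lemma ftil_add (f : (ι → ZMod 2) → F4) (x y : Lam ι) : ftil f (x + y) = ftil f x + ftil f y := by
  unfold ftil
  rw [← Finset.sum_add_distrib]
  refine Finset.sum_congr rfl fun u _ => ?_
  rw [AddMonoidAlgebra.coeff_add, Finsupp.add_apply, map_add, add_mul]

lemma ftil_zero (f : (ι → ZMod 2) → F4) : ftil f (0 : Lam ι) = 0 := by
  unfold ftil
  refine Finset.sum_eq_zero fun u _ => ?_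
  simp

lemma ftil_single (f : (ι → ZMod 2) → F4) (u : ι → ZMod 2) (r : ZMod 2) :
    ftil f (AddMonoidAlgebra.single u r : Lam ι) = F4.c2 r * f u := by
  unfold ftil
  rw [Finset.sum_eq_single u]
  · simp
  · intro b _ hb
    have : (AddMonoidAlgebra.single u r : Lam ι).coeff b = 0 := by
      rw [AddMonoidAlgebra.coeff_single]
      exact Finsupp.single_eq_of_ne hb
    rw [this, map_zero, zero_mul]
  · simp

lemma ftil_smul (f : (ι → ZMod 2) → F4) (r : ZMod 2) (x : Lam ι) :
    ftil f (AddMonoidAlgebra.single 0 r * x) = F4.c2 r * ftil f x := by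
  induction x using AddMonoidAlgebra.induction_linear with
  | zero => rw [mul_zero, ftil_zero, mul_zero]
  | add x y hx hy => rw [mul_add, ftil_add, ftil_add, hx, hy, mul_add]
  | single m s =>
    rw [AddMonoidAlgebra.single_mul_single, ftil_single, ftil_single, zero_add, map_mul, mul_assoc]

lemma hsum_pair (f : (ι → ZMod 2) → F4) (hf : f 0 = 0) (A B : Lam ι) :
    hsum (fun x y => f (x + y) * F4.c2 (A.coeff x * B.coeff y + B.coeff x * A.coeff y)) =
      ftil f (A * B) := by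
  have h1 : hsum (fun x y => f (x + y) * F4.c2 (A.coeff x * B.coeff y + B.coeff x * A.coeff y)) =
      hsum (fun x y => (fun x y => f (x + y) * F4.c2 (A.coeff x * B.coeff y)) x y +
        (fun x y => f (x + y) * F4.c2 (A.coeff x * B.coeff y)) y x) := by
    congr 1
    funext x y
    simp only
    rw [map_add, mul_add, add_comm y x, mul_comm (B.coeff x)]
  rw [h1, hsum_symm]
  have h2 : ∀ x y : ι → ZMod 2, (if x = y then (0:F4) else
      f (x + y) * F4.c2 (A.coeff x * B.coeff y)) = f (x + y) * F4.c2 (A.coeff x * B.coeff y) := by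
    intro x y
    split_ifs with h
    · subst h; rw [u_add_self, hf, zero_mul]
    · rfl
  simp only [h2]
  clear h1 h2
  induction A using AddMonoidAlgebra.induction_linear with
  | zero => simp [ftil_zero]
  | add A A' hA hA' =>
    rw [add_mul, ftil_add, ← hA, ← hA', ← Finset.sum_add_distrib]
    refine Finset.sum_congr rfl fun x _ => ?_
    rw [← Finset.sum_add_distrib]
    refine Finset.sum_congr rfl fun y _ => ?_
    rw [AddMonoidAlgebra.coeff_add, Finsupp.add_apply, add_mul, map_add, mul_add]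
  | single p r =>
    induction B using AddMonoidAlgebra.induction_linear with
    | zero => simp [ftil_zero]
    | add B B' hB hB' =>
      rw [mul_add, ftil_add, ← hB, ← hB', ← Finset.sum_add_distrib]
      refine Finset.sum_congr rfl fun x _ => ?_
      rw [← Finset.sum_add_distrib]
      refine Finset.sum_congr rfl fun y _ => ?_
      rw [AddMonoidAlgebra.coeff_add, Finsupp.add_apply, mul_add, map_add, mul_add]
    | single q s =>
      rw [AddMonoidAlgebra.single_mul_single, ftil_single]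
      rw [Finset.sum_eq_single p, Finset.sum_eq_single q]
      · simp [mul_comm]
      · intro b _ hb
        have : (AddMonoidAlgebra.single q s : Lam ι).coeff b = 0 := by
          rw [AddMonoidAlgebra.coeff_single]
          exact Finsupp.single_eq_of_ne hb
        rw [this]; simp
      · simp
      · intro b _ hb
        have : (AddMonoidAlgebra.single p r : Lam ι).coeff b = 0 := by
          rw [AddMonoidAlgebra.coeff_single]
          exact Finsupp.single_eq_of_ne hb
        refine Finset.sum_eq_zero fun y _ => ?_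
        rw [this]; simp
      · simp

/-! ### Computations in `NG` -/

/-- shift of coefficients -/
lemma sq_c (B : NG (ι → ZMod 2)) (x y : ι → ZMod 2) : (B * B).c x y =
    B.c x y + B.c (x - B.w) (y - B.w) + B.S.coeff x * B.S.coeff (y - B.w) := NG.mul_c B B x y

lemma conj_w (A P : NG (ι → ZMod 2)) (hP : P.w = 0) : (A * P * A⁻¹).w = 0 := by
  rw [NG.mul_w, NG.mul_w, NG.inv_w, hP, add_zero, add_neg_cancel]

lemma conj_S (A P : NG (ι → ZMod 2)) (hP : P.w = 0) : (A * P * A⁻¹).S = NG.sh A.w P.S := by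
  rw [NG.mul_S, NG.mul_S, NG.mul_w, NG.inv_S, hP, add_zero, NG.sh_sh, add_neg_cancel, NG.sh_zero,
    add_right_comm, lam_add_self, zero_add]

lemma conj_c (A P : NG (ι → ZMod 2)) (hP : P.w = 0) (x y : ι → ZMod 2) :
    (A * P * A⁻¹).c x y = P.c (x - A.w) (y - A.w) + A.S.coeff x * P.S.coeff (y - A.w) +
      P.S.coeff (x - A.w) * A.S.coeff y := by
  rw [NG.mul_c, NG.mul_c, NG.mul_S, NG.mul_w, NG.inv_S, NG.inv_c, hP, add_zero]
  rw [NG.sh_coeff, AddMonoidAlgebra.coeff_add, Finsupp.add_apply, NG.sh_coeff]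
  simp only [sub_add_cancel, sub_neg_eq_add]
  have h2 : (2 : ZMod 2) = 0 := rfl
  linear_combination (A.c x y + A.S.coeff x * A.S.coeff y) * h2

lemma comm_c (P B : NG (ι → ZMod 2)) (hP : P.w = 0) (hS : ∀ x, P.S.coeff (x - B.w) = P.S.coeff x)
    (x y : ι → ZMod 2) : (P * B * P⁻¹ * B⁻¹).c x y = P.c x y + P.c (x - B.w) (y - B.w) +
      B.S.coeff x * P.S.coeff y + P.S.coeff x * B.S.coeff y := by
  have hPw : (P⁻¹).w = 0 := by rw [NG.inv_w, hP, neg_zero]
  have h1 : P * B * P⁻¹ * B⁻¹ = P * (B * P⁻¹ * B⁻¹) := by group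
  have hPS : (P⁻¹).S = P.S := by rw [NG.inv_S, hP, neg_zero, NG.sh_zero]
  rw [h1, NG.mul_c, conj_c B P⁻¹ hPw, conj_S B P⁻¹ hPw, NG.inv_c, hPS, hP]
  simp only [add_zero, sub_zero, NG.sh_coeff, hS]
  have h2 : (2 : ZMod 2) = 0 := rfl
  linear_combination (P.S.coeff x * P.S.coeff y) * h2

lemma comm_sq_c (A B : NG (ι → ZMod 2)) (x y : ι → ZMod 2) :
    ((A * (B * B) * A⁻¹) * B * (A * (B * B) * A⁻¹)⁻¹ * B⁻¹).c x y =
      ((NG.sh A.w B.S).coeff x * (NG.sh (A.w + B.w) B.S).coeff y +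
        (NG.sh (A.w + B.w) B.S).coeff x * (NG.sh A.w B.S).coeff y) +
      ((A.S + NG.sh B.w A.S).coeff x * (NG.sh A.w (B.S + NG.sh B.w B.S)).coeff y +
        (NG.sh A.w (B.S + NG.sh B.w B.S)).coeff x * (A.S + NG.sh B.w A.S).coeff y) +
      (B.S.coeff x * (NG.sh A.w (B.S + NG.sh B.w B.S)).coeff y +
        (NG.sh A.w (B.S + NG.sh B.w B.S)).coeff x * B.S.coeff y) := by
  have hQ : (B * B).w = 0 := by rw [NG.mul_w, u_add_self]
  have hQS : (B * B).S = B.S + NG.sh B.w B.S := NG.mul_S B B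
  have e1 : ∀ z : ι → ZMod 2, z - B.w - B.w = z := by
    intro z; rw [sub_sub, u_add_self, sub_zero]
  have hPS : ∀ z, (A * (B * B) * A⁻¹).S.coeff (z - B.w) = (A * (B * B) * A⁻¹).S.coeff z := by
    intro z
    rw [conj_S A _ hQ, NG.sh_coeff, NG.sh_coeff, hQS, AddMonoidAlgebra.coeff_add,
      Finsupp.add_apply, Finsupp.add_apply, NG.sh_coeff, NG.sh_coeff]
    rw [sub_right_comm z B.w A.w, e1, add_comm]
  rw [comm_c _ B (conj_w A _ hQ) hPS, conj_c A _ hQ, conj_c A _ hQ, conj_S A _ hQ, sq_c, sq_c, hQS]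
  simp only [NG.sh_coeff, AddMonoidAlgebra.coeff_add, Finsupp.add_apply]
  have e2 : ∀ z : ι → ZMod 2, z - B.w - A.w = z - A.w - B.w := fun z => sub_right_comm z B.w A.w
  have e3 : ∀ z : ι → ZMod 2, z - (A.w + B.w) = z - A.w - B.w := fun z => by rw [sub_sub]
  simp only [e2, e3, e1]
  have h2 : (2 : ZMod 2) = 0 := rfl
  linear_combination (B.c (x - A.w) (y - A.w) + B.c (x - A.w - B.w) (y - A.w - B.w)) * h2

/-- the hom of `za` -/
noncomputable def NN (a : ι) : FreeGroup ι →* NG (ι → ZMod 2) :=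
  ngHom (AddMonoidHom.id (ι → ZMod 2)) (fun b => (if b = a then 1 else 0, fun _ _ => 0))

lemma za_NN (a : ι) (f : (ι → ZMod 2) → F4) (w : FreeGroup ι) :
    za a f w = hsum fun x y => f (x + y) * F4.c2 ((NN a w).c x y) := rfl

lemma NN_w (a : ι) (w : FreeGroup ι) : (NN a w).w = bar w :=
  ngHom_w u_add_self _ _ w

lemma NN_S (a : ι) (w : FreeGroup ι) : (NN a w).S = dd w a := by
  unfold NN
  rw [ngHom_S u_add_self]
  rw [Finset.sum_eq_single a]
  · rw [if_pos rfl, mul_one]
    have : AddMonoidAlgebra.mapDomainRingHom (ZMod 2) (AddMonoidHom.id (ι → ZMod 2)) =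
        RingHom.id _ := by
      ext <;> simp
    rw [this]; rfl
  · intro b _ hb
    simp only [if_neg hb, mul_zero]
  · simp

lemma sh_br (u : ι → ZMod 2) (S : Lam ι) : NG.sh u S = br u * S := rfl

/-- the value on one commutator -/
lemma za_one (a : ι) (f : (ι → ZMod 2) → F4) (hf : f 0 = 0) (g t : FreeGroup ι) :
    za a f ((g * t ^ 2 * g⁻¹) * t * (g * t ^ 2 * g⁻¹)⁻¹ * t⁻¹) =
      F4.c2 (bar t a) * (ftil f (br (bar t) : Lam ι) + ftil f (xx (bar t) * br (bar g))) := by
  rw [za_NN, pow_two]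
  simp only [map_mul, map_inv]
  have hAw : (NN a g).w = bar g := NN_w a g
  have hBw : (NN a t).w = bar t := NN_w a t
  have hAS : (NN a g).S = dd g a := NN_S a g
  have hBS : (NN a t).S = dd t a := NN_S a t
  generalize NN a g = A at *
  generalize NN a t = B at *
  have h1 : hsum (fun x y => f (x + y) * F4.c2
      (((A * (B * B) * A⁻¹) * B * (A * (B * B) * A⁻¹)⁻¹ * B⁻¹).c x y)) =
      ftil f (NG.sh A.w B.S * NG.sh (A.w + B.w) B.S) +
      ftil f ((A.S + NG.sh B.w A.S) * NG.sh A.w (B.S + NG.sh B.w B.S)) +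
      ftil f (B.S * NG.sh A.w (B.S + NG.sh B.w B.S)) := by
    rw [← hsum_pair f hf, ← hsum_pair f hf, ← hsum_pair f hf, ← hsum_add, ← hsum_add]
    congr 1
    funext x y
    rw [comm_sq_c, map_add, map_add, mul_add, mul_add]
  rw [h1, ← ftil_add, ← ftil_add]
  have hxx : xx (bar t) * xx (bar t) = 0 := F1c_xx_sq _
  have h2 : NG.sh A.w B.S * NG.sh (A.w + B.w) B.S +
      (A.S + NG.sh B.w A.S) * NG.sh A.w (B.S + NG.sh B.w B.S) +
      B.S * NG.sh A.w (B.S + NG.sh B.w B.S) =
      AddMonoidAlgebra.single 0 (bar t a) * (br (bar t) + xx (bar t) * br (bar g)) := by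
    rw [← eps_dd, ← sq_eq, hAw, hBw, hAS, hBS]
    simp only [sh_br, br_add]
    have h3 := br_mul_self (bar g)
    have h4 : xx (bar t) = 1 + br (bar t) := rfl
    have h5 : (1 + br (bar t)) * (1 + br (bar t)) = 0 := by rw [← h4, hxx]
    rw [h4]
    linear_combination (dd t a * dd t a * br (bar t)) * h3 + (dd g a * br (bar g) * dd t a) * h5
  rw [h2, ftil_smul, ftil_add]

lemma bar_conj_sq (g t : FreeGroup ι) : bar (g * t ^ 2 * g⁻¹) = 0 := by
  rw [pow_two]
  simp only [bar_mul, bar_inv, u_add_self, add_zero]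

lemma dd_conj_sq (g t : FreeGroup ι) (i : ι) :
    dd (g * t ^ 2 * g⁻¹) i = br (bar g) * (xx (bar t) * dd t i) := by
  rw [dd_conj g (t ^ 2) (F1c_bar_sq t), F1c_dd_sq]

lemma comm_T3 (b t : FreeGroup ι) (hb : bar b = 0) (hx : ∀ i, xx (bar t) * dd b i = 0) :
    bar (b * t * b⁻¹ * t⁻¹) = 0 ∧ dd (b * t * b⁻¹ * t⁻¹) = 0 := by
  constructor
  · simp only [bar_mul, bar_inv, hb, zero_add, add_zero, u_add_self]
  · funext i
    have h := hx i
    unfold xx at h
    simp only [dd_mul, dd_inv, bar_mul, bar_inv, hb, zero_add, add_zero, br_zero, one_mul,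
      Pi.zero_apply]
    have h3 := br_mul_self (bar t)
    have h5 := lam_add_self (dd t i)
    linear_combination h + h5 + (dd t i) * h3

lemma comm_BB (b t : FreeGroup ι) (hb : bar b = 0) (F : Lam ι)
    (hF : ∀ i, dd b i = F * (xx (bar t) * dd t i)) : BB (b * t * b⁻¹ * t⁻¹) = 0 := by
  funext i j
  have hb' : bar b⁻¹ = 0 := by rw [bar_inv, hb]
  have h1 : b * t * b⁻¹ * t⁻¹ = b * (t * b⁻¹ * t⁻¹) := by group
  rw [h1, BB_mul, BB_conj t b⁻¹ hb', dd_conj t b⁻¹ hb', BB_inv]
  simp only [dd_inv, hb, br_zero, one_mul, hF, Pi.zero_apply]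
  have h4 : xx (bar t) = 1 + br (bar t) := rfl
  have h5 : (1 + br (bar t)) * (1 + br (bar t)) = 0 := by rw [← h4, F1c_xx_sq]
  have h2 := lam_add_self (BB b i j)
  have h6 := lam_add_self (br (bar t) * F * (1 + br (bar t)) * (dd t i * dd t j))
  rw [h4]
  linear_combination h2 + h6 + (F * F * dd t i * dd t j * (1 + br (bar t))) * h5

lemma prod_facts (t : FreeGroup ι) (S : List (FreeGroup ι)) :
    bar (S.map fun g => g * t ^ 2 * g⁻¹).prod = 0 ∧
    (∀ i, dd (S.map fun g => g * t ^ 2 * g⁻¹).prod i =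
      (S.map fun g => br (bar g)).sum * (xx (bar t) * dd t i)) := by
  induction S with
  | nil => exact ⟨by simp, by simp⟩
  | cons g S ih =>
    obtain ⟨ih1, ih2⟩ := ih
    simp only [List.map_cons, List.prod_cons, List.sum_cons]
    refine ⟨by rw [bar_mul, bar_conj_sq, ih1, add_zero], ?_⟩
    intro i
    rw [dd_mul, bar_conj_sq, br_zero, one_mul, dd_conj_sq, ih2, add_mul]

lemma za_comm (a : ι) (f : (ι → ZMod 2) → F4) (hf : f 0 = 0) (t : FreeGroup ι)
    (S : List (FreeGroup ι)) :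
    za a f ((S.map fun g => g * t ^ 2 * g⁻¹).prod * t * ((S.map fun g => g * t ^ 2 * g⁻¹).prod)⁻¹ *
      t⁻¹) = F4.c2 (bar t a) * ((S.length : F4) * ftil f (br (bar t) : Lam ι) +
        ftil f (xx (bar t) * (S.map fun g => br (bar g)).sum)) := by
  induction S with
  | nil =>
    have h1 : (([] : List (FreeGroup ι)).map fun g => g * t ^ 2 * g⁻¹).prod * t *
      ((([] : List (FreeGroup ι)).map fun g => g * t ^ 2 * g⁻¹).prod)⁻¹ * t⁻¹ = 1 := by simp
    rw [h1, za_NN]
    simp [ftil_zero, hsum]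
  | cons g S ih =>
    obtain ⟨ih1, ih2⟩ := prod_facts t S
    simp only [List.map_cons, List.prod_cons, List.sum_cons, List.length_cons]
    set b := (S.map fun g => g * t ^ 2 * g⁻¹).prod with hb
    set F := (S.map fun g => br (bar g)).sum with hF
    have hxx : xx (bar t) * xx (bar t) = 0 := F1c_xx_sq _
    have k1 := comm_T3 b t ih1 (fun i => by
      rw [ih2]; linear_combination (F * dd t i) * hxx)
    have k2 := comm_T3 (g * t ^ 2 * g⁻¹) t (bar_conj_sq g t) (fun i => by
      rw [dd_conj_sq]; linear_combination (br (bar g) * dd t i) * hxx)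
    have e1 : (g * t ^ 2 * g⁻¹) * b * t * ((g * t ^ 2 * g⁻¹) * b)⁻¹ * t⁻¹ =
        ((g * t ^ 2 * g⁻¹) * (b * t * b⁻¹ * t⁻¹) * (g * t ^ 2 * g⁻¹)⁻¹) *
        ((g * t ^ 2 * g⁻¹) * t * (g * t ^ 2 * g⁻¹)⁻¹ * t⁻¹) := by group
    have k3 : bar ((g * t ^ 2 * g⁻¹) * (b * t * b⁻¹ * t⁻¹) * (g * t ^ 2 * g⁻¹)⁻¹) = 0 := by
      simp only [bar_mul _ (g * t ^ 2 * g⁻¹)⁻¹, bar_mul (g * t ^ 2 * g⁻¹), k1.1,
        bar_inv (g * t ^ 2 * g⁻¹), add_zero, u_add_self]
    have k4 : dd ((g * t ^ 2 * g⁻¹) * (b * t * b⁻¹ * t⁻¹) * (g * t ^ 2 * g⁻¹)⁻¹) = 0 := by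
      rw [dd_conj _ _ k1.1, k1.2]; simp; rfl
    rw [e1, za_mul a f _ _ k3 k4 k2.1 k2.2, za_conj a f _ _ k1.1 k1.2, ih, za_one a f hf]
    push_cast
    rw [mul_add (xx (bar t)), ftil_add]
    ring

end gen

end Z4aux

open Z4aux in
/-- Lemma 1.3. -/
theorem z_tau {l n : ℕ} (t : T l n) (S : List (T l n)) (hS : Even S.length) (b : T l n)
    (hb : b = (S.map fun g => g * t ^ 2 * g⁻¹).prod) :
    b * t * b⁻¹ * t⁻¹ ∈ T4.S l n ∧
    ∀ (i : Fin l) (f : U l n → F4), f 0 = 0 → (∀ (e : E n) u, f (uact e u) = f u) →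
      zz i f (b * t * b⁻¹ * t⁻¹) =
        F4.c2 (cnt i t) * ftil f (xx (bar t) * (S.map fun g => br (bar g)).sum) := by
  subst hb
  constructor
  · obtain ⟨h1, h2⟩ := prod_facts t S
    have hxx : xx (bar t) * xx (bar t) = 0 := F1c_xx_sq _
    refine ⟨comm_T3 _ t h1 (fun i => ?_), ?_⟩
    · rw [h2]
      linear_combination ((S.map fun g => br (bar g)).sum * dd t i) * hxx
    · rw [comm_BB _ t h1 _ h2]
      exact zero_mem _
  · intro i f hf _
    unfold zz cnt
    rw [map_sum, Finset.sum_mul]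
    refine Finset.sum_congr rfl fun e _ => ?_
    have h3 := za_comm (i, e) f hf t S
    rw [h3]
    obtain ⟨k, hk⟩ := hS
    have h4 : (S.length : F4) = 0 := by
      rw [hk]; push_cast; exact F4.add_self _
    rw [h4, zero_mul, zero_add]

end Pool.Agent.OH
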