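import Pool.Agent.OH.S1
import Pool.Agent.OH.Z4

set_option autoImplicit false
set_option linter.unusedSectionVars false

namespace Pool.Agent.OH

namespace S2aux

lemma bar_prod {ι : Type} [DecidableEq ι] (L : List (FreeGroup ι)) :
    bar L.prod = (L.map bar).sum := by
  induction L with
  | nil => simp
  | cons a L ih => rw [List.prod_cons, bar_mul, ih, List.map_cons, List.sum_cons]

lemma ftil_zero {W : Type} [AddCommGroup W] [Fintype W] (f : W → F4) :
    ftil f (0 : LW W) = 0 := by
  simp [ftil]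

lemma ftil_add {W : Type} [AddCommGroup W] [Fintype W] (f : W → F4) (a b : LW W) :
    ftil f (a + b) = ftil f a + ftil f b := by
  simp only [ftil, AddMonoidAlgebra.coeff_add, Finsupp.add_apply, map_add, add_mul,
    Finset.sum_add_distrib]

lemma ftil_single {W : Type} [AddCommGroup W] [Fintype W] (f : W → F4) (u : W) :
    ftil f (AddMonoidAlgebra.single u 1 : LW W) = f u := by
  classical
  unfold ftil
  rw [Finset.sum_eq_single u]
  · simp
  · intro x _ hx
    have : (AddMonoidAlgebra.single u 1 : LW W).coeff x = 0 := by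
      simp [Finsupp.single_eq_of_ne hx]
    rw [this, map_zero, zero_mul]
  · simp

lemma ftil_br {ι : Type} [Fintype ι] [DecidableEq ι] (f : (ι → ZMod 2) → F4) (u : ι → ZMod 2) :
    ftil f (br u) = f u := ftil_single f u

/-- `ftil f (x_t · Σ [u_c])`. -/
lemma ftil_list {ι X : Type} [Fintype ι] [DecidableEq ι] (f : (ι → ZMod 2) → F4)
    (t : ι → ZMod 2) (g : X → (ι → ZMod 2)) (L : List X) :
    ftil f (xx t * (L.map fun c => br (g c)).sum) = (L.map fun c => f (g c) + f (t + g c)).sum := by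
  induction L with
  | nil => simp [ftil_zero]
  | cons a L ih =>
    rw [List.map_cons, List.sum_cons, mul_add, ftil_add, ih, List.map_cons, List.sum_cons]
    congr 1
    unfold xx
    rw [add_mul, one_mul, ftil_add, ftil_br, ← br_add, ftil_br]

variable {n : ℕ} {J : Type} [Fintype J] [DecidableEq J]

/-- the index of block `j`. -/
noncomputable def idx (j : J) : Fin (Fintype.card J + 1) := (Fintype.equivFin J j).succ

lemma idx_inj {j j' : J} (h : idx j = idx j') : j = j' := by
  have h1 := Fin.succ_injective _ h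
  exact (Fintype.equivFin J).injective h1

lemma idx_ne (j : J) : idx j ≠ 0 := Fin.succ_ne_zero _

/-- The part of `κ` on the nonzero blocks. -/
noncomputable def kJ (v : J → E n) : (J → F4) →+ U (Fintype.card J + 1) n where
  toFun c := ∑ j, kap (idx j) (v j) (c j)
  map_zero' := by simp
  map_add' x y := by simp [Finset.sum_add_distrib]

lemma uact_add' {l : ℕ} (e : E n) (u u' : U l n) : uact e (u + u') = uact e u + uact e u' := by
  unfold uact; rw [map_add]

lemma uact_sum' {l : ℕ} {X : Type} (e : E n) (S : Finset X) (g : X → U l n) :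
    uact e (∑ x ∈ S, g x) = ∑ x ∈ S, uact e (g x) := by
  unfold uact; rw [map_sum]

lemma kJ_uact (v : J → E n) (e : E n) (c : J → F4) :
    uact e (kJ v c) = kJ v (fun j => F4.chi (dot (v j) e) * c j) := by
  simp only [kJ, AddMonoidHom.coe_mk, ZeroHom.coe_mk, uact_sum', kap_uact]

lemma fou_kJ (v : J → E n) (hv : ∀ j, v j ≠ 0) (c : J → F4) (j : J) :
    fou (idx j) (v j) (kJ v c) = c j := by
  simp only [kJ, AddMonoidHom.coe_mk, ZeroHom.coe_mk, map_sum]
  rw [Finset.sum_eq_single j]
  · rw [fou_kap _ _ _ _ (hv j) (hv j)]; simp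
  · intro b _ hb
    rw [fou_kap _ _ _ _ (hv j) (hv b), if_neg (fun h => hb (idx_inj h).symm)]
  · simp

lemma fou0_kJ (v : J → E n) (hv : ∀ j, v j ≠ 0) (c : J → F4) (i : Fin (Fintype.card J + 1)) :
    fou0 i (kJ v c) = 0 := by
  simp only [kJ, AddMonoidHom.coe_mk, ZeroHom.coe_mk, map_sum]
  exact Finset.sum_eq_zero fun j _ => fou0_kap _ _ _ (hv j) _

/-- The word `t = ∏_e y_{0,e}`. -/
noncomputable def tw (l n : ℕ) : T (l + 1) n :=
  ((Finset.univ : Finset (E n)).toList.map fun e => yy (0 : Fin (l + 1)) e).prod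

lemma bar_tw (l n : ℕ) : bar (tw l n) = kap0 0 1 := by
  unfold tw
  rw [bar_prod, List.map_map]
  have h : (((Finset.univ : Finset (E n)).toList.map
      (bar ∘ fun e => yy (0 : Fin (l + 1)) e)).sum) =
      ∑ e : E n, bar (yy (0 : Fin (l + 1)) e) := by
    rw [Finset.sum_eq_multiset_sum, ← Finset.coe_toList, Multiset.map_coe, Multiset.sum_coe]
    rfl
  rw [h]
  funext p
  rw [Finset.sum_apply]
  simp only [yy, bar_of, kap0, AddMonoidHom.coe_mk, ZeroHom.coe_mk]
  rcases p with ⟨i, a⟩
  by_cases hi : i = 0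
  · subst hi
    rw [Finset.sum_eq_single a]
    · simp
    · intro b _ hb
      rw [Pi.single_eq_of_ne]
      intro h'
      exact hb (Prod.mk.inj h').2.symm
    · simp
  · rw [if_neg hi]
    refine Finset.sum_eq_zero fun b _ => ?_
    rw [Pi.single_eq_of_ne]
    intro h'
    exact hi (Prod.mk.inj h').1

lemma cnt_tw (l n : ℕ) (i : Fin (l + 1)) : cnt i (tw l n) = if i = 0 then 1 else 0 := by
  unfold cnt
  rw [bar_tw]
  simp only [kap0, AddMonoidHom.coe_mk, ZeroHom.coe_mk]
  by_cases hi : i = 0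
  · subst hi
    simp only [if_true, Finset.sum_const, Finset.card_univ, nsmul_eq_mul, mul_one]
    rw [Fintype.card_fun, Fintype.card_fin, ZMod.card]
    push_cast
    have : (3 : ZMod 2) = 1 := by decide
    rw [this, one_pow]
  · simp [hi]

/-- `κ` -/
noncomputable def kk (v : J → E n) :
    ((J → F4) × (Fin 1 → ZMod 2)) →+ U (Fintype.card J + 1) n where
  toFun x := kJ v x.1 + kap0 0 (x.2 0)
  map_zero' := by simp
  map_add' x y := by
    simp only [Prod.fst_add, Prod.snd_add, Pi.add_apply, map_add]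
    abel

/-- `κ'` -/
noncomputable def kk' (v : J → E n) :
    U (Fintype.card J + 1) n →+ ((J → F4) × (Fin 1 → ZMod 2)) where
  toFun u := (fun j => fou (idx j) (v j) u, fun _ => fou0 0 u)
  map_zero' := by simp only [map_zero]; rfl
  map_add' x y := by
    simp only [map_add]
    rfl

lemma kk_apply (v : J → E n) (x : (J → F4) × (Fin 1 → ZMod 2)) :
    kk v x = kJ v x.1 + kap0 0 (x.2 0) := rfl

lemma kk'_apply (v : J → E n) (u : U (Fintype.card J + 1) n) :
    kk' v u = (fun j => fou (idx j) (v j) u, fun _ => fou0 0 u) := rfl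

lemma kk_equiv (v : J → E n) (e : E n) (x : (J → F4) × (Fin 1 → ZMod 2)) :
    kk v (fun j => F4.chi (dot (v j) e) * x.1 j, x.2) = uact e (kk v x) := by
  rw [kk_apply, kk_apply, uact_add', kJ_uact, kap0_uact]

lemma kk'_equiv (v : J → E n) (e : E n) (u : U (Fintype.card J + 1) n) :
    kk' v (uact e u) = (fun j => F4.chi (dot (v j) e) * (kk' v u).1 j, (kk' v u).2) := by
  rw [kk'_apply, kk'_apply]
  refine Prod.ext ?_ ?_
  · funext j
    exact fou_uact _ _ _ _
  · funext j
    exact fou0_uact _ _ _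

lemma kk'_kk (v : J → E n) (hv : ∀ j, v j ≠ 0) (x : (J → F4) × (Fin 1 → ZMod 2)) :
    kk' v (kk v x) = x := by
  rw [kk'_apply, kk_apply]
  refine Prod.ext ?_ ?_
  · funext j
    change fou (idx j) (v j) (kJ v x.1 + kap0 0 (x.2 0)) = x.1 j
    rw [map_add, fou_kJ v hv, fou_kap0 _ _ _ (hv j), add_zero]
  · funext k
    change fou0 0 (kJ v x.1 + kap0 0 (x.2 0)) = x.2 k
    rw [map_add, fou0_kJ v hv, fou0_kap0, zero_add, if_pos rfl, Subsingleton.elim k 0]

lemma kk_sum (v : J → E n) (f : U (Fintype.card J + 1) n → F4) :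
    ∑ x : (J → F4) × (Fin 1 → ZMod 2), f (kk v x) =
      ∑ c : J → F4, (f (kJ v c) + f (kap0 0 1 + kJ v c)) := by
  rw [Fintype.sum_prod_type]
  refine Finset.sum_congr rfl fun c _ => ?_
  have h5 : (∑ d : Fin 1 → ZMod 2, f (kk v (c, d))) = ∑ d : ZMod 2, f (kJ v c + kap0 0 d) :=
    Fintype.sum_equiv (Equiv.funUnique (Fin 1) (ZMod 2)) _ _ (fun d => rfl)
  rw [h5]
  have h6 : (∑ d : ZMod 2, f (kJ v c + kap0 0 d)) =
      f (kJ v c + kap0 0 0) + f (kJ v c + kap0 0 1) := Fin.sum_univ_two _
  rw [h6, map_zero, add_zero, add_comm (kap0 0 1)]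

lemma sum_toList {X : Type} [Fintype X] (h : X → F4) :
    ((Finset.univ : Finset X).toList.map h).sum = ∑ c, h c := by
  rw [Finset.sum_eq_multiset_sum, ← Finset.coe_toList, Multiset.map_coe, Multiset.sum_coe]

/-- The statement for explicit blocks. -/
theorem main (v : J → E n) (hJ : Nonempty J) :
    ∃ (w : T (Fintype.card J + 1) n), w ∈ T4.S (Fintype.card J + 1) n ∧
      ∀ (i : Fin (Fintype.card J + 1)) (f : U (Fintype.card J + 1) n → F4), f 0 = 0 →
        (∀ (e : E n) u, f (uact e u) = f u) →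
        zz i f w = if i = 0 then ∑ x : (J → F4) × (Fin 1 → ZMod 2), f (kk v x) else 0 := by
  -- the list of lifts
  obtain ⟨g, hg⟩ : ∃ g : (J → F4) → T (Fintype.card J + 1) n, ∀ c, bar (g c) = kJ v c :=
    ⟨fun c => Classical.choose (bar_surjective (kJ v c)),
      fun c => Classical.choose_spec (bar_surjective (kJ v c))⟩
  obtain ⟨S, hSdef⟩ : ∃ S : List (T (Fintype.card J + 1) n),
    S = (Finset.univ : Finset (J → F4)).toList.map g := ⟨_, rfl⟩
  have hS : Even S.length := by
    have h1 : S.length = 4 ^ Fintype.card J := by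
      rw [hSdef, List.length_map, Finset.length_toList, Finset.card_univ, Fintype.card_fun,
        F4.card]
    rw [h1]
    have hpos : Fintype.card J ≠ 0 := Fintype.card_ne_zero
    exact (Nat.even_pow.2 ⟨by decide, hpos⟩)
  obtain ⟨h4, hz⟩ := z_tau (tw (Fintype.card J) n) S hS _ rfl
  refine ⟨_, h4, ?_⟩
  intro i f hf hinv
  rw [hz i f hf hinv, cnt_tw, bar_tw]
  by_cases hi : i = 0
  · rw [if_pos hi, if_pos hi, map_one, one_mul]
    have h2 : (S.map fun g => br (bar g)) =
        ((Finset.univ : Finset (J → F4)).toList.map fun c => br (kJ v c)) := by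
      rw [hSdef, List.map_map]
      refine List.map_congr_left fun c _ => ?_
      simp only [Function.comp, hg]
    rw [h2, ftil_list, kk_sum, sum_toList]
  · rw [if_neg hi, if_neg hi, map_zero, zero_mul]

end S2aux

open S2aux

/-- Section 10, the word `τ`: for a shape `s` with one zero block and at least one block there are
`κ : U_s → U(l,n)` with an equivariant left inverse, and `w ∈ T_4` with
`z_{i0,f}(w) = ∑_{x ∈ U_s} f(κ x)` and `z_{i,f}(w) = 0` for `i ≠ i0`.
(`l = 1 + |J|`, block `j` goes to index `j` by `kap`, the zero block to index `0` by `kap0`,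
`t = ∏_e y_{0,e}`, Lemma 1.3 with `S` = lifts of the elements of `κ(F₄^J)`.) -/
theorem strict_word (s : Shape) (hp : s.p = 1) (hJ : Nonempty s.J) :
    ∃ (l : ℕ) (w : T l s.n) (i0 : Fin l) (κ : s.W →+ U l s.n) (κ' : U l s.n →+ s.W),
      (∀ (e : E s.n) x, κ (sact s e x) = uact e (κ x)) ∧
      (∀ (e : E s.n) u, κ' (uact e u) = sact s e (κ' u)) ∧ (∀ x, κ' (κ x) = x) ∧
      w ∈ T4.S l s.n ∧
      ∀ (i : Fin l) (f : U l s.n → F4), f 0 = 0 → (∀ (e : E s.n) u, f (uact e u) = f u) →
        zz i f w = if i = i0 then ∑ x : s.W, f (κ x) else 0 := by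
  obtain ⟨n, J, fJ, dJ, v, hv, p⟩ := s
  change p = 1 at hp
  change Nonempty J at hJ
  subst hp
  obtain ⟨w, hw, hz⟩ := main v hJ
  exact ⟨Fintype.card J + 1, w, 0, kk v, kk' v, fun e x => kk_equiv v e x,
    fun e u => kk'_equiv v e u, fun x => kk'_kk v hv x, hw, hz⟩

end Pool.Agent.OH
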