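import Pool.Agent.OH.Z3

set_option autoImplicit false
set_option linter.unusedSectionVars false

namespace Pool.Agent.OH

variable (rk : ℕ → Ordinal.{0}) (X : Set (Finset ℕ))

lemma TXaux_cube (x : F4) : ∃ b : ZMod 2, x ^ 3 = F4.c2 b := by revert x; decide

lemma lamD_sact (D : Finset ℕ) (e : E (shapeD rk D).n) (x : (shapeD rk D).W) :
    lamD rk D (sact (shapeD rk D) e x) = lamD rk D x := by
  unfold lamD sact
  congr 1
  refine Finset.prod_congr rfl fun j _ => ?_
  rw [mul_pow, F4.chi_cube, one_mul]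

lemma lamD_F2 (D : Finset ℕ) (x : (shapeD rk D).W) : ∃ b : ZMod 2, lamD rk D x = F4.c2 b := by
  unfold lamD
  choose b hb using fun j => TXaux_cube (x.1 j)
  refine ⟨x.2 ⟨0, Nat.one_pos⟩ * ∏ j, b j, ?_⟩
  rw [map_mul, map_prod]
  congr 1
  exact Finset.prod_congr rfl fun j _ => hb j

/-- Elements of `D_X` are invariant, vanish at 0. -/
theorem DXgen_inv {n : ℕ} {W : Type} [AddCommGroup W] (a : E n → W → W) (f : W → F4)
    (hf : f ∈ DXgen rk X n W a) : f 0 = 0 ∧ ∀ e x, f (a e x) = f x := by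
  unfold DXgen at hf
  induction hf using Submodule.span_induction with
  | mem g hg =>
    obtain ⟨D, -, ρ, φ, hφ, rfl⟩ := hg
    refine ⟨?_, fun e x => ?_⟩
    · simp [lamD]
    · simp only [hφ]
      exact lamD_sact rk D _ _
  | zero => exact ⟨rfl, fun _ _ => rfl⟩
  | add g h _ _ hg hh =>
    refine ⟨by rw [Pi.add_apply, hg.1, hh.1, add_zero], fun e x => ?_⟩
    rw [Pi.add_apply, Pi.add_apply, hg.2, hh.2]
  | smul c g _ hg =>
    refine ⟨by rw [Pi.smul_apply, hg.1, smul_zero], fun e x => ?_⟩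
    rw [Pi.smul_apply, Pi.smul_apply, hg.2]

/-- `D_X` is closed under pullback. -/
theorem DXgen_pull {n n' : ℕ} {W W' : Type} [AddCommGroup W] [AddCommGroup W'] (a : E n → W → W)
    (a' : E n' → W' → W') (ρ : E n →+ E n') (φ : W →+ W') (hφ : ∀ e x, φ (a e x) = a' (ρ e) (φ x))
    (f : W' → F4) (hf : f ∈ DXgen rk X n' W' a') : (fun x => f (φ x)) ∈ DXgen rk X n W a := by
  unfold DXgen at hf ⊢
  induction hf using Submodule.span_induction with
  | mem g hg =>
    obtain ⟨D, hD, ρ', φ', hφ', rfl⟩ := hg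
    refine Submodule.subset_span ⟨D, hD, ρ'.comp ρ, φ'.comp φ, fun e x => ?_, rfl⟩
    simp only [AddMonoidHom.comp_apply, hφ, hφ']
  | zero => exact Submodule.zero_mem _
  | add g h _ _ hg hh => exact Submodule.add_mem _ hg hh
  | smul c g _ hg => exact Submodule.smul_mem _ c hg

/-- `D_X` is spanned by `F₂`-valued functions. -/
theorem DXgen_F2 {n : ℕ} {W : Type} [AddCommGroup W] (a : E n → W → W) :
    DXgen rk X n W a = Submodule.span F4 {f | f ∈ DXgen rk X n W a ∧
      ∀ u, ∃ b : ZMod 2, f u = F4.c2 b} := by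
  apply le_antisymm
  · conv_lhs => unfold DXgen
    refine Submodule.span_le.2 ?_
    rintro g hg
    refine Submodule.subset_span ⟨Submodule.subset_span hg, fun u => ?_⟩
    obtain ⟨D, hD, ρ, φ, hφ, rfl⟩ := hg
    exact lamD_F2 rk D _
  · exact Submodule.span_le.2 fun g hg => hg.1

theorem zz_mul {l n : ℕ} (i : Fin l) (f : U l n → F4) (v w : T l n) (hv : v ∈ T3.S l n)
    (hw : w ∈ T3.S l n) : zz i f (v * w) = zz i f v + zz i f w := by
  unfold zz
  rw [← Finset.sum_add_distrib]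
  exact Finset.sum_congr rfl fun e _ => za_mul (i, e) f v w hv.1 hv.2 hw.1 hw.2

theorem zz_conj {l n : ℕ} (i : Fin l) (f : U l n → F4) (t w : T l n) (hw : w ∈ T3.S l n) :
    zz i f (t * w * t⁻¹) = zz i f w := by
  unfold zz
  exact Finset.sum_congr rfl fun e _ => za_conj (i, e) f t w hw.1 hw.2

/-- The family `T_X`. -/
noncomputable def TX : TIF where
  S l n :=
    { carrier := {w | w ∈ T4.S l n ∧ ∀ i, ∀ f ∈ DXU rk X l n, zz i f w = 0}
      mul_mem' := by
        rintro a b ⟨ha, ha'⟩ ⟨hb, hb'⟩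
        refine ⟨mul_mem ha hb, fun i f hf => ?_⟩
        rw [zz_mul i f a b ha.1 hb.1, ha' i f hf, hb' i f hf, add_zero]
      one_mem' := by
        refine ⟨one_mem _, fun i f hf => ?_⟩
        have h := zz_mul i f (1 : T l n) 1 (one_mem _) (one_mem _)
        rw [mul_one] at h
        exact left_eq_add.mp h
      inv_mem' := by
        rintro a ⟨ha, ha'⟩
        refine ⟨inv_mem ha, fun i f hf => ?_⟩
        have h1 := zz_mul i f (1 : T l n) 1 (one_mem _) (one_mem _)
        rw [mul_one] at h1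
        have h1' : zz i f (1 : T l n) = 0 := left_eq_add.mp h1
        have h := zz_mul i f a a⁻¹ ha.1 (inv_mem ha.1)
        rw [mul_inv_cancel, h1', ha' i f hf, zero_add] at h
        exact h.symm }
  normal := by
    rintro l n w ⟨hw, hw'⟩ t
    refine ⟨T4.normal l n w hw t, fun i f hf => ?_⟩
    rw [zz_conj i f t w hw.1]; exact hw' i f hf
  thom_mem := by
    rintro l n l' n' ρ t w ⟨hw, hw'⟩
    refine ⟨T4.thom_mem l n l' n' ρ t w hw, fun i' f' hf' => ?_⟩
    rw [z_nat ρ t w hw f' (DXgen_inv rk X _ f' hf').1 (DXgen_inv rk X _ f' hf').2 i']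
    refine Finset.sum_eq_zero fun i _ => ?_
    rw [hw' i _ (DXgen_pull rk X _ _ ρ (ubar (thom ρ t))
      (fun e x => ubar_thom_uact ρ t e x) f' hf'), mul_zero]

lemma mem_TX {l n : ℕ} (w : T l n) : w ∈ (TX rk X).S l n ↔
    w ∈ T4.S l n ∧ ∀ i, ∀ f ∈ DXU rk X l n, zz i f w = 0 := Iff.rfl

lemma TX_le_T4 : TX rk X ≤ T4 := fun _ _ _ hw => hw.1
lemma T4_le_T3 : T4 ≤ T3 := fun _ _ _ hw => hw.1
lemma T3_le_T2 : T3 ≤ T2 := fun _ _ _ hw => hw.1

end Pool.Agent.OH
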