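import Pool.Agent.OH.S2
import Pool.Agent.OH.K3
import Pool.Agent.OH.P3
import Pool.Agent.OH.P4
import Pool.Agent.OH.TX

set_option autoImplicit false

namespace Pool.Agent.OH

/-- The principal down-set of `a`. -/
noncomputable def S3_down (rk : ℕ → Ordinal.{0}) (a : ℕ) : Finset ℕ := by
  classical exact (Finset.range (a + 1)).filter fun b => sq rk b a

lemma S3_mem_down (rk : ℕ → Ordinal.{0}) (a b : ℕ) : b ∈ S3_down rk a ↔ sq rk b a := by
  classical
  unfold S3_down
  rw [Finset.mem_filter, Finset.mem_range]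
  exact ⟨fun h => h.2, fun h => ⟨Nat.lt_succ_of_le h.1, h⟩⟩

lemma S3_down_ds (rk : ℕ → Ordinal.{0}) (a : ℕ) : IsDS rk (S3_down rk a) := by
  intro b hb c hcb
  rw [S3_mem_down] at hb ⊢
  exact ⟨hcb.1.trans hb.1, hcb.2.trans hb.2⟩

lemma S3_self (rk : ℕ → Ordinal.{0}) (a : ℕ) : a ∈ S3_down rk a :=
  (S3_mem_down rk a a).mpr ⟨le_rfl, le_rfl⟩

lemma S3_TD_neg (rk : ℕ → Ordinal.{0}) (D : Finset ℕ) (v : E (ND D)) (hv : v ∈ TD rk D) :
    -v ∈ TD rk D := by
  rcases hv with h | h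
  · right; rw [neg_neg]; exact h
  · left; exact h

lemma S3_zero_notMem (rk : ℕ → Ordinal.{0}) (D : Finset ℕ) : (0 : E (ND D)) ∉ TD rk D := by
  have h0 : co (0 : E (ND D)) 0 = 0 := by
    unfold co; split_ifs <;> rfl
  rintro (h | h)
  · have := h.1
    simp only [h0] at this
    exact absurd this (by decide)
  · have := h.1
    simp only [neg_zero, h0] at this
    exact absurd this (by decide)

lemma S3_Tset (rk : ℕ → Ordinal.{0}) (D : Finset ℕ) :
    Tset (shapeD rk D).v = TD rk D := by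
  ext x
  constructor
  · rintro ⟨hx0, hx⟩
    by_contra hT
    exact (hx ⟨x, hx0, hT⟩).1 rfl
  · intro hx
    refine ⟨?_, fun j => ⟨?_, ?_⟩⟩
    · rintro rfl
      exact S3_zero_notMem rk D hx
    · intro h
      exact j.2.2 (by rw [show (j.1 : E (ND D)) = x from h]; exact hx)
    · intro h
      exact j.2.2 (by rw [show (j.1 : E (ND D)) = -x from h]; exact S3_TD_neg rk D x hx)

lemma S3_span (rk : ℕ → Ordinal.{0}) (D : Finset ℕ) (hne : D.Nonempty) :
    Spanning (shapeD rk D).v := by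
  have h := TD_span rk D hne
  have hr : Set.range (shapeD rk D).v = {v : E (ND D) | v ≠ 0 ∧ v ∉ TD rk D} := by
    ext x
    constructor
    · rintro ⟨j, rfl⟩
      exact j.2
    · intro hx
      exact ⟨⟨x, hx⟩, rfl⟩
  change Submodule.span (ZMod 3) (Set.range (shapeD rk D).v) = ⊤
  rw [hr]
  exact h

lemma S3_nonempty (rk : ℕ → Ordinal.{0}) (D : Finset ℕ) (hne : D.Nonempty) :
    Nonempty (shapeD rk D).J := by
  by_contra hemp
  have hE : {v : E (ND D) | v ≠ 0 ∧ v ∉ TD rk D} = ∅ := by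
    rw [Set.eq_empty_iff_forall_notMem]
    intro v hv
    exact hemp ⟨⟨v, hv⟩⟩
  have h := TD_span rk D hne
  rw [hE, Submodule.span_empty] at h
  have h1 : (Pi.single ⟨0, by unfold ND; omega⟩ 1 : E (ND D)) ∈ (⊥ : Submodule (ZMod 3) (E (ND D))) := by
    rw [h]; trivial
  rw [Submodule.mem_bot] at h1
  have h2 := congrFun h1 ⟨0, by unfold ND; omega⟩
  rw [Pi.single_eq_same] at h2
  have h3 : (1 : ZMod 3) = 0 := h2
  exact absurd h3 (by decide)

lemma S3_sum_lam (rk : ℕ → Ordinal.{0}) (D : Finset ℕ) :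
    ∑ x : (shapeD rk D).W, lamD rk D x = 1 := by
  have h1 : ∑ x : (shapeD rk D).W, lamD rk D x =
      (∑ x1 : (shapeD rk D).J → F4, ∏ j, x1 j ^ 3) *
        ∑ x2 : Fin (shapeD rk D).p → ZMod 2, F4.c2 (x2 ⟨0, Nat.one_pos⟩) := by
    rw [Fintype.sum_prod_type, Finset.sum_mul]
    refine Finset.sum_congr rfl fun x1 _ => ?_
    rw [Finset.mul_sum]
    refine Finset.sum_congr rfl fun x2 _ => ?_
    unfold lamD
    rw [mul_comm]
  rw [h1]
  have h2 : ∑ x1 : (shapeD rk D).J → F4, ∏ j, x1 j ^ 3 = 1 := by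
    have h3 := Finset.prod_univ_sum (κ := fun _ : (shapeD rk D).J => F4)
      (fun _ => (Finset.univ : Finset F4)) (fun _ c => c ^ 3)
    rw [Fintype.piFinset_univ] at h3
    rw [← h3]
    have h4 : ∑ c : F4, c ^ 3 = 1 := by decide
    rw [h4, Finset.prod_const_one]
  have h5 : ∑ x2 : Fin (shapeD rk D).p → ZMod 2, F4.c2 (x2 ⟨0, Nat.one_pos⟩) = 1 := by
    change ∑ x2 : Fin 1 → ZMod 2, F4.c2 (x2 ⟨0, Nat.one_pos⟩) = 1
    decide
  rw [h2, h5, one_mul]

theorem TX_anti (rk : ℕ → Ordinal.{0}) (X X' : Set (Finset ℕ)) (h : X ⊆ X') :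
    TX rk X' ≤ TX rk X := by
  intro l n w hw
  rw [mem_TX] at hw ⊢
  refine ⟨hw.1, fun i f hf => hw.2 i f ?_⟩
  refine Submodule.span_mono ?_ hf
  rintro f ⟨D, hD, h2⟩
  exact ⟨D, h hD, h2⟩

/-- Section 10 (strictness). -/
theorem TX_strict (rk : ℕ → Ordinal.{0}) (hrk : Function.Injective rk) (a : ℕ)
    (g' : Ordinal.{0}) (hg' : rk a < g') :
    ¬ (TX rk (Xg rk (rk a)) ≤ TX rk (Xg rk g')) := by
  intro hle
  set D := S3_down rk a with hD
  have hDne : D.Nonempty := ⟨a, S3_self rk a⟩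
  have hDds : IsDS rk D := S3_down_ds rk a
  have hDX : D ∈ Xg rk g' := by
    refine ⟨hDds, fun b hb => ?_⟩
    exact lt_of_le_of_lt ((S3_mem_down rk a b).mp hb).2 hg'
  obtain ⟨l, w, i0, κ, κ', hκ, hκ', hinv, hw4, hz⟩ :=
    strict_word (shapeD rk D) rfl (S3_nonempty rk D hDne)
  have h1 : w ∈ (TX rk (Xg rk (rk a))).S l (shapeD rk D).n := by
    rw [mem_TX]
    refine ⟨hw4, fun i f hf => ?_⟩
    have hfi := DXgen_inv rk (Xg rk (rk a)) _ f hf
    rw [hz i f hfi.1 hfi.2]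
    split_ifs with hi
    · by_contra hne
      have hpull := DXgen_pull rk (Xg rk (rk a)) (sact (shapeD rk D)) uact
        (AddMonoidHom.id (E (shapeD rk D).n)) κ (fun e x => hκ e x) f hf
      have hcf : cfQ (shapeD rk D) (fun _ => 3) Finset.univ (fun x => f (κ x)) ≠ 0 := by
        have h2 : cfQ (shapeD rk D) (fun _ => 3) Finset.univ (fun x => f (κ x)) =
            ∑ x : (shapeD rk D).W, f (κ x) := by
          classical
          unfold cfQ
          refine Finset.sum_congr ?_ fun c _ => ?_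
          · ext c; simp
          · simp
        rw [h2]; exact hne
      obtain ⟨-, -, D'', hD'', D', hsub, hds, hrep⟩ := occ rk hrk (Xg rk (rk a))
        (fun D hD => hD.1) (shapeD rk D) (S3_span rk D hDne) (fun _ => 3)
        (fun _ => ⟨by norm_num, le_rfl⟩) Finset.univ (fun x => f (κ x)) hpull hcf
      rw [S3_Tset] at hrep
      have heq : D' = D := rep_unique rk hrk (TD rk D) D' D hds hDds hrep (TD_rep rk D hDds)
      have ha : a ∈ D'' := hsub (by rw [heq]; exact S3_self rk a)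
      exact lt_irrefl _ (hD''.2 a ha)
    · rfl
  have h2 := hle l (shapeD rk D).n h1
  rw [mem_TX] at h2
  have h3 := h2.2 i0 (fun u => lamD rk D (κ' u))
    (Submodule.subset_span ⟨D, hDX, AddMonoidHom.id _, κ', fun e x => hκ' e x, rfl⟩)
  have hfi := DXgen_inv rk (Xg rk g') (uact (l := l) (n := (shapeD rk D).n))
    (fun u => lamD rk D (κ' u))
    (Submodule.subset_span ⟨D, hDX, AddMonoidHom.id _, κ', fun e x => hκ' e x, rfl⟩)
  rw [hz i0 _ hfi.1 hfi.2, if_pos rfl] at h3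
  simp only [hinv] at h3
  rw [S3_sum_lam] at h3
  exact one_ne_zero h3

end Pool.Agent.OH
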