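import Pool.Agent.OH.TX

set_option autoImplicit false

namespace Pool.Agent.OH

namespace TXiaux

/-- finite of 2-power cardinality -/
def P2 (α : Type) : Prop := Finite α ∧ ∃ k : ℕ, Nat.card α = 2 ^ k

lemma P2.equiv {α β : Type} (e : α ≃ β) (h : P2 α) : P2 β := by
  obtain ⟨h1, k, hk⟩ := h
  exact ⟨Finite.of_equiv α e, k, by rw [← hk, Nat.card_congr e]⟩

lemma P2.prod {α β : Type} (h : P2 α) (h' : P2 β) : P2 (α × β) := by
  obtain ⟨h1, k, hk⟩ := h
  obtain ⟨h1', k', hk'⟩ := h'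
  exact ⟨inferInstance, k + k', by rw [Nat.card_prod, hk, hk', pow_add]⟩

lemma P2.pi {ι β : Type} [Finite ι] (h : P2 β) : P2 (ι → β) := by
  obtain ⟨h1, k, hk⟩ := h
  refine ⟨inferInstance, k * Nat.card ι, ?_⟩
  rw [Nat.card_fun, hk, pow_mul]

lemma P2_zmod : P2 (ZMod 2) := ⟨inferInstance, 1, by simp⟩

/-- coefficients of an element of a group algebra of a finite group -/
noncomputable def lwEquiv (W : Type) [AddCommGroup W] [Finite W] :
    (W → ZMod 2) ≃ AddMonoidAlgebra (ZMod 2) W where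
  toFun f := AddMonoidAlgebra.ofCoeff (Finsupp.equivFunOnFinite.symm f)
  invFun g := fun x => g.coeff x
  left_inv f := by funext x; simp
  right_inv g := by ext x; simp

lemma P2_lw (W : Type) [AddCommGroup W] [Finite W] : P2 (AddMonoidAlgebra (ZMod 2) W) :=
  P2.equiv (lwEquiv W) (P2.pi P2_zmod)

lemma P2_HG (ι : Type) [Finite ι] : P2 (HG ι) := by
  have h : P2 ((ι → Lam ι) × (ι → ι → Lam ι) × (ι → ZMod 2)) :=
    (P2.pi (P2_lw _)).prod ((P2.pi (P2.pi (P2_lw _))).prod (P2.pi P2_zmod))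
  exact P2.equiv ⟨fun x => ⟨x.1, x.2.1, x.2.2⟩, fun y => (y.p, y.m, y.u), fun _ => rfl,
    fun _ => rfl⟩ h

lemma P2_NG (W : Type) [AddCommGroup W] [Finite W] (hW : P2 W) : P2 (NG W) := by
  have h : P2 (LW W × (W → W → ZMod 2) × W) :=
    (P2_lw _).prod ((P2.pi (P2.pi P2_zmod)).prod hW)
  exact P2.equiv ⟨fun x => ⟨x.1, x.2.1, x.2.2⟩, fun y => (y.S, y.c, y.w), fun _ => rfl,
    fun _ => rfl⟩ h

/-- the hom to a finite 2-group -/
noncomputable def psi (l n : ℕ) : T l n →* HG (Fin l × E n) × (Fin l × E n → NG (U l n)) :=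
  (foxHom (ι := Fin l × E n)).prod (MonoidHom.pi fun a =>
    ngHom (AddMonoidHom.id (Fin l × E n → ZMod 2))
      (fun b => (if b = a then 1 else 0, fun _ _ => 0)))

lemma ker_le (rk : ℕ → Ordinal.{0}) (X : Set (Finset ℕ)) (l n : ℕ) :
    (psi l n).ker ≤ (TX rk X).S l n := by
  intro w hw
  rw [MonoidHom.mem_ker] at hw
  have h1 : foxHom w = 1 := congrArg Prod.fst hw
  have h2 : ∀ a, ngHom (AddMonoidHom.id (Fin l × E n → ZMod 2))
      (fun b => (if b = a then 1 else 0, fun _ _ => 0)) w = 1 := fun a =>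
    congrFun (congrArg Prod.snd hw) a
  rw [mem_TX, mem_T4]
  refine ⟨⟨⟨?_, ?_⟩, ?_⟩, ?_⟩
  · unfold bar; rw [h1]; rfl
  · unfold dd; rw [h1]; rfl
  · have : BB w = 0 := by unfold BB; rw [h1]; rfl
    rw [this]; exact zero_mem _
  · intro i f _
    unfold zz
    refine Finset.sum_eq_zero fun e _ => ?_
    unfold za
    rw [h2]
    unfold hsum
    refine Finset.sum_eq_zero fun s _ => ?_
    simp

end TXiaux

open TXiaux in
/-- `T_X` is of finite 2-type: it contains the kernel of the hom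
`w ↦ (foxHom w, (ngHom _ _ w)_a)` to a finite 2-group. -/
theorem TX_fin2 (rk : ℕ → Ordinal.{0}) (X : Set (Finset ℕ)) (l n : ℕ) :
    ((TX rk X).S l n).FiniteIndex ∧ ∀ w : T l n, ∃ k : ℕ, w ^ (2 ^ k) ∈ (TX rk X).S l n := by
  have hG : P2 (HG (Fin l × E n) × (Fin l × E n → NG (U l n))) :=
    (P2_HG _).prod (P2.pi (P2_NG _ (P2.pi P2_zmod)))
  have hfin : Finite (HG (Fin l × E n) × (Fin l × E n → NG (U l n))) := hG.1
  constructor
  · have h1 : (psi l n).ker.FiniteIndex := by infer_instance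
    exact Subgroup.finiteIndex_of_le (ker_le rk X l n)
  · intro w
    obtain ⟨k, hk⟩ := hG.2
    refine ⟨k, ker_le rk X l n ?_⟩
    rw [MonoidHom.mem_ker, map_pow, ← hk]
    exact pow_card_eq_one'

end Pool.Agent.OH
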