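import Pool.Agent.OH.Defs

set_option autoImplicit false
set_option linter.unusedSectionVars false

namespace Pool.Agent.OH

/-! # Section 11: varieties. Basic definitions -/

/-- The action of `E_n` on `T(l,n)` as a hom to automorphisms. -/
def actAut (l n : ℕ) : Multiplicative (E n) →* MulAut (T l n) where
  toFun e :=
    { toFun := act e.toAdd
      invFun := act (-e.toAdd)
      left_inv := fun w => by rw [act_act, neg_add_cancel, act_zero]
      right_inv := fun w => by rw [act_act, add_neg_cancel, act_zero]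
      map_mul' := fun x y => map_mul _ x y }
  map_one' := by
    ext w
    exact act_zero w
  map_mul' e e' := by
    ext w
    exact (act_act _ _ w).symm

@[simp] lemma actAut_apply {l n : ℕ} (e : Multiplicative (E n)) (w : T l n) :
    actAut l n e w = act e.toAdd w := rfl

/-- `Φ(l,n) = T(l,n) ⋊ E_n`. -/
abbrev Phi (l n : ℕ) : Type := SemidirectProduct (T l n) (Multiplicative (E n)) (actAut l n)

/-- The embedding `T(l,n) → Φ(l,n)`. -/
abbrev iT {l n : ℕ} : T l n →* Phi l n := SemidirectProduct.inl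

/-- The embedding `E_n → Φ(l,n)`. -/
abbrev iE {l n : ℕ} : Multiplicative (E n) →* Phi l n := SemidirectProduct.inr

/-- The generator `e_j` of `E_n`. -/
def ebas {n : ℕ} (j : Fin n) : Multiplicative (E n) := Multiplicative.ofAdd (Pi.single j 1)

lemma iE_conj {l n : ℕ} (e : Multiplicative (E n)) (w : T l n) :
    (iE e : Phi l n) * iT w * (iE e)⁻¹ = iT (act e.toAdd w) := by
  have := (SemidirectProduct.inl_aut (φ := actAut l n) e w).symm
  rw [map_inv] at this
  exact this

/-- The universal property of `Φ(l,n)`. -/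
def plift {l n : ℕ} {H : Type} [Group H] (f : Multiplicative (E n) →* H) (h : Fin l → H) :
    Phi l n →* H :=
  SemidirectProduct.lift
    (FreeGroup.lift fun p : Fin l × E n =>
      f (Multiplicative.ofAdd p.2) * h p.1 * (f (Multiplicative.ofAdd p.2))⁻¹)
    f (by
      intro g
      ext p
      simp only [MonoidHom.comp_apply, MulEquiv.coe_toMonoidHom, actAut_apply, act_of,
        FreeGroup.lift_apply_of, MulAut.conj_apply, ofAdd_add, map_mul, ofAdd_toAdd]
      group)

@[simp] lemma plift_iE {l n : ℕ} {H : Type} [Group H] (f : Multiplicative (E n) →* H)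
    (h : Fin l → H) (e : Multiplicative (E n)) : plift f h (iE e) = f e := by
  simp [plift]

lemma plift_iT {l n : ℕ} {H : Type} [Group H] (f : Multiplicative (E n) →* H)
    (h : Fin l → H) (w : T l n) : plift f h (iT w) = FreeGroup.lift (fun p : Fin l × E n =>
      f (Multiplicative.ofAdd p.2) * h p.1 * (f (Multiplicative.ofAdd p.2))⁻¹) w := by
  simp [plift]

@[simp] lemma plift_yy {l n : ℕ} {H : Type} [Group H] (f : Multiplicative (E n) →* H)
    (h : Fin l → H) (i : Fin l) : plift f h (iT (yy i 0)) = h i := by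
  rw [plift_iT]; simp [yy]

lemma yy_eq {l n : ℕ} (i : Fin l) (e : E n) : yy i e = act e (yy i 0) := by
  simp [yy]

/-- Two homs out of `Φ(l,n)` agree if they agree on `E_n` and on the `y_{i,0}`. -/
lemma phi_hom_ext {l n : ℕ} {H : Type} [Group H] {f g : Phi l n →* H}
    (hE : ∀ e, f (iE e) = g (iE e)) (hy : ∀ i, f (iT (yy i 0)) = g (iT (yy i 0))) : f = g := by
  apply SemidirectProduct.hom_ext
  · ext p
    obtain ⟨i, e⟩ := p
    change f (iT (yy i e)) = g (iT (yy i e))
    have h1 : (iT (yy i e) : Phi l n) = iE (Multiplicative.ofAdd e) * iT (yy i 0) *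
        (iE (Multiplicative.ofAdd e))⁻¹ := by
      rw [iE_conj, yy_eq]; rfl
    rw [h1, map_mul, map_mul, map_mul, map_mul, map_inv, map_inv, hE, hy]
  · ext e
    exact hE e

lemma E_closure {n : ℕ} (e : E n) :
    e ∈ AddSubgroup.closure (Set.range fun j : Fin n => (Pi.single j 1 : E n)) := by
  have h2 : e = ∑ j, (e j).val • (Pi.single j 1 : E n) := by
    funext k
    rw [Finset.sum_apply, Finset.sum_eq_single k]
    · simp
    · intro b _ hb
      simp [Pi.single_eq_of_ne' hb]
    · simp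
  rw [h2]
  refine AddSubgroup.sum_mem _ fun j _ => AddSubgroup.nsmul_mem _
    (AddSubgroup.subset_closure (Set.mem_range_self j)) _

/-- Two homs out of `Multiplicative (E n)` agree if they agree on the basis. -/
lemma e_hom_ext {n : ℕ} {H : Type} [Group H] {f g : Multiplicative (E n) →* H}
    (h : ∀ j, f (ebas j) = g (ebas j)) : f = g := by
  have key : ∀ e : E n, f (Multiplicative.ofAdd e) = g (Multiplicative.ofAdd e) := by
    intro e
    have h1 := E_closure e
    induction h1 using AddSubgroup.closure_induction with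
    | mem x hx => obtain ⟨j, rfl⟩ := hx; exact h j
    | zero => simp
    | add x y _ _ hx hy => rw [ofAdd_add, map_mul, map_mul, hx, hy]
    | neg x _ hx => rw [ofAdd_neg, map_inv, map_inv, hx]
  ext e
  exact key e

/-- The extension of the T-hom `θ(ρ,t)` to `Φ`. -/
def pthom {l n l' n' : ℕ} (ρ : E n →+ E n') (t : Fin l → T l' n') : Phi l n →* Phi l' n' :=
  SemidirectProduct.map (thom ρ t) (AddMonoidHom.toMultiplicative ρ) (by
    intro g
    refine MonoidHom.ext fun w => ?_
    exact thom_act ρ t _ _)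

@[simp] lemma pthom_iT {l n l' n' : ℕ} (ρ : E n →+ E n') (t : Fin l → T l' n') (w : T l n) :
    pthom ρ t (iT w) = iT (thom ρ t w) := by
  simp [pthom]

@[simp] lemma pthom_iE {l n l' n' : ℕ} (ρ : E n →+ E n') (t : Fin l → T l' n')
    (e : Multiplicative (E n)) :
    pthom ρ t (iE e) = iE (Multiplicative.ofAdd (ρ e.toAdd)) := by
  simp [pthom]

/-- Full invariance. -/
def FI (L : Subgroup (FreeGroup ℕ)) : Prop :=
  ∀ φ : FreeGroup ℕ →* FreeGroup ℕ, ∀ x ∈ L, φ x ∈ L

lemma FI.normal {L : Subgroup (FreeGroup ℕ)} (h : FI L) : L.Normal :=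
  ⟨fun x hx g => by simpa using h (MulAut.conj g).toMonoidHom x hx⟩

/-- `M(l,n)` as a subgroup of `Φ(l,n)`. -/
def MP (M : TIF) (l n : ℕ) : Subgroup (Phi l n) := (M.S l n).map iT

lemma mem_MP {M : TIF} {l n : ℕ} {x : Phi l n} :
    x ∈ MP M l n ↔ x.right = 1 ∧ x.left ∈ M.S l n := by
  constructor
  · rintro ⟨w, hw, rfl⟩
    exact ⟨rfl, hw⟩
  · rintro ⟨h1, h2⟩
    exact ⟨x.left, h2, SemidirectProduct.ext rfl h1.symm⟩

@[simp] lemma iT_mem_MP {M : TIF} {l n : ℕ} {w : T l n} : iT w ∈ MP M l n ↔ w ∈ M.S l n := by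
  rw [mem_MP]; simp

lemma TIF.act_mem (M : TIF) {l n : ℕ} (e : E n) {w : T l n} (hw : w ∈ M.S l n) :
    act e w ∈ M.S l n := by
  rw [act_eq_thom]; exact M.thom_mem _ _ _ _ _ _ _ hw

instance MP_normal (M : TIF) (l n : ℕ) : (MP M l n).Normal := by
  constructor
  rintro x ⟨w, hw, rfl⟩ g
  have hg : g = iT g.left * iE g.right := (SemidirectProduct.inl_left_mul_inr_right g).symm
  rw [hg]
  have h2 : iT g.left * iE g.right * iT w * (iT g.left * iE g.right)⁻¹ =
      (iT (g.left * act g.right.toAdd w * g.left⁻¹) : Phi l n) := by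
    rw [map_mul, map_mul, map_inv, ← iE_conj]
    group
  change iT g.left * iE g.right * iT w * (iT g.left * iE g.right)⁻¹ ∈ MP M l n
  rw [h2, iT_mem_MP]
  exact M.normal _ _ _ (M.act_mem _ hw) _

lemma pthom_MP (M : TIF) {l n l' n' : ℕ} (ρ : E n →+ E n') (t : Fin l → T l' n') {x : Phi l n}
    (hx : x ∈ MP M l n) : pthom ρ t x ∈ MP M l' n' := by
  obtain ⟨w, hw, rfl⟩ := hx
  rw [pthom_iT, iT_mem_MP]
  exact M.thom_mem _ _ _ _ _ _ _ hw

/-- `N(M)`. -/
def NN (M : TIF) : Subgroup (FreeGroup ℕ) where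
  carrier := {w | ∀ (l n : ℕ) (η : FreeGroup ℕ →* Phi l n), η w ∈ MP M l n}
  mul_mem' := fun ha hb l n η => by rw [map_mul]; exact mul_mem (ha l n η) (hb l n η)
  one_mem' := fun l n η => by rw [map_one]; exact one_mem _
  inv_mem' := fun ha l n η => by rw [map_inv]; exact inv_mem (ha l n η)

lemma mem_NN {M : TIF} {w : FreeGroup ℕ} :
    w ∈ NN M ↔ ∀ (l n : ℕ) (η : FreeGroup ℕ →* Phi l n), η w ∈ MP M l n := Iff.rfl

lemma NN_fi (M : TIF) : FI (NN M) := fun φ _ hx l n η => hx l n (η.comp φ)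

lemma NN_mono {M M' : TIF} (h : M ≤ M') : NN M ≤ NN M' := fun _ hw l n η =>
  Subgroup.map_mono (h l n) (hw l n η)

/-- `G` satisfies the laws `L`. -/
def Sat (L : Subgroup (FreeGroup ℕ)) (G : Type) [Group G] : Prop :=
  ∀ w ∈ L, ∀ η : FreeGroup ℕ →* G, η w = 1

lemma Sat.mono {L L' : Subgroup (FreeGroup ℕ)} (h : L ≤ L') {G : Type} [Group G]
    (hG : Sat L' G) : Sat L G := fun w hw η => hG w (h hw) η

/-- `L#`. -/
def sharp (L : Subgroup (FreeGroup ℕ)) : TIF where
  S l n :=
    { carrier := {τ | ∀ (G : Type) [Group G] [Finite G], Sat L G → ∀ η : Phi l n →* G,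
        (∀ t : T l n, ∃ k : ℕ, η (iT t) ^ 2 ^ k = 1) → η (iT τ) = 1}
      mul_mem' := by
        intro a b ha hb G _ _ hG η hη
        rw [map_mul, map_mul, ha G hG η hη, hb G hG η hη, one_mul]
      one_mem' := by
        intro G _ _ hG η hη
        rw [map_one, map_one]
      inv_mem' := by
        intro a ha G _ _ hG η hη
        rw [map_inv, map_inv, ha G hG η hη, inv_one] }
  normal := by
    intro l n w hw t G _ _ hG η hη
    rw [map_mul, map_mul, map_inv, map_mul, map_mul, map_inv, hw G hG η hη, mul_one,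
      mul_inv_cancel]
  thom_mem := by
    intro l n l' n' ρ t w hw G _ _ hG η hη
    have := hw G hG (η.comp (pthom ρ t)) (by
      intro s
      rw [MonoidHom.comp_apply, pthom_iT]
      exact hη _)
    rw [MonoidHom.comp_apply, pthom_iT] at this
    exact this

lemma mem_sharp {L : Subgroup (FreeGroup ℕ)} {l n : ℕ} {τ : T l n} : τ ∈ (sharp L).S l n ↔
    ∀ (G : Type) [Group G] [Finite G], Sat L G → ∀ η : Phi l n →* G,
        (∀ t : T l n, ∃ k : ℕ, η (iT t) ^ 2 ^ k = 1) → η (iT τ) = 1 := Iff.rfl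

lemma sharp_mono {L L' : Subgroup (FreeGroup ℕ)} (h : L ≤ L') : sharp L ≤ sharp L' :=
  fun _ _ _ hτ G _ _ hG η hη => hτ G (hG.mono h) η hη

/-- Finite 2-type. -/
def FinType (M : TIF) : Prop :=
  ∀ l n, (M.S l n).FiniteIndex ∧ ∀ w : T l n, ∃ k : ℕ, w ^ 2 ^ k ∈ M.S l n

end Pool.Agent.OH
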