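import Pool.Agent.OH.Var1

set_option autoImplicit false
set_option linter.unusedSectionVars false

namespace Pool.Agent.OH

/-! # Section 11: varieties. The correspondence -/

/-- The coordinate extension `E_m → E_n'`, `e_i ↦ ρ_i`. -/
noncomputable def elift {m n' : ℕ} (r : Fin m → E n') : E m →+ E n' where
  toFun e := ∑ i, e i • r i
  map_zero' := by simp
  map_add' e e' := by simp [add_smul, Finset.sum_add_distrib]

lemma elift_single {m n' : ℕ} (r : Fin m → E n') (i : Fin m) : elift r (Pi.single i 1) = r i := by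
  simp only [elift, AddMonoidHom.coe_mk, ZeroHom.coe_mk]
  rw [Finset.sum_eq_single i]
  · simp
  · intro b _ hb; simp [Pi.single_eq_of_ne hb]
  · simp

/-- The hom `x_i ↦ y_i e_i` (`i < m`), `x_i ↦ 1` (`i ≥ m`). -/
noncomputable def ev (m : ℕ) : FreeGroup ℕ →* Phi m m :=
  FreeGroup.lift fun i => if h : i < m then iT (yy ⟨i, h⟩ 0) * iE (ebas ⟨i, h⟩) else 1

/-- The endomorphism killing the `x_i`, `i ≥ m`. -/
noncomputable def kp (m : ℕ) : FreeGroup ℕ →* FreeGroup ℕ :=
  FreeGroup.lift fun i => if i < m then FreeGroup.of i else 1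

lemma kp_of_lt {m i : ℕ} (h : i < m) : kp m (FreeGroup.of i) = FreeGroup.of i := by
  simp [kp, h]

lemma ev_of_lt {m : ℕ} (i : Fin m) :
    ev m (FreeGroup.of (i : ℕ)) = iT (yy i 0) * iE (ebas i) := by
  simp [ev]

lemma exists_kp_eq (w : FreeGroup ℕ) : ∃ m, ∀ m', m ≤ m' → kp m' w = w := by
  induction w using FreeGroup.induction_on with
  | C1 => exact ⟨0, fun m' _ => by simp⟩
  | of a => exact ⟨a + 1, fun m' h => kp_of_lt (by omega)⟩
  | inv_of a ih =>
    obtain ⟨m, hm⟩ := ih
    exact ⟨m, fun m' h => by rw [map_inv, hm m' h]⟩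
  | mul x y hx hy =>
    obtain ⟨m, hm⟩ := hx
    obtain ⟨m2, hm2⟩ := hy
    exact ⟨max m m2, fun m' h => by
      rw [map_mul, hm m' ((le_max_left _ _).trans h), hm2 m' ((le_max_right _ _).trans h)]⟩

/-- (11.1) -/
lemma kp_mem_NN {M : TIF} {m : ℕ} {w : FreeGroup ℕ} (hw : ev m w ∈ MP M m m) : kp m w ∈ NN M := by
  intro l n η
  have h : η.comp (kp m) = (pthom (elift fun i : Fin m => (η (FreeGroup.of (i : ℕ))).right.toAdd)
      (fun i : Fin m => (η (FreeGroup.of (i : ℕ))).left)).comp (ev m) := by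
    ext1 i
    rw [MonoidHom.comp_apply, MonoidHom.comp_apply]
    by_cases hi : i < m
    · rw [kp_of_lt hi, show i = ((⟨i, hi⟩ : Fin m) : ℕ) from rfl, ev_of_lt, map_mul, pthom_iT,
        pthom_iE]
      have h1 : (ebas (⟨i, hi⟩ : Fin m)).toAdd = Pi.single (⟨i, hi⟩ : Fin m) 1 := rfl
      rw [h1, elift_single]
      have h2 : thom (elift fun i : Fin m => (η (FreeGroup.of (i : ℕ))).right.toAdd)
        (fun i : Fin m => (η (FreeGroup.of (i : ℕ))).left) (yy (⟨i, hi⟩ : Fin m) 0) =
          (η (FreeGroup.of i)).left := by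
        rw [yy, thom_of]
        simp only [map_zero]
        exact act_zero _
      rw [h2]
      exact (SemidirectProduct.inl_left_mul_inr_right _).symm
    · simp [kp, ev, hi]
  have h2 := DFunLike.congr_fun h w
  rw [MonoidHom.comp_apply, MonoidHom.comp_apply] at h2
  rw [h2]
  exact pthom_MP M _ _ hw

/-- The finite group `Q(l,n) = Φ(l,n)/M(l,n)`. -/
abbrev QG (M : TIF) (l n : ℕ) : Type := Phi l n ⧸ MP M l n

lemma QG_finite {M : TIF} (hM : FinType M) (l n : ℕ) : Finite (QG M l n) := by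
  have h1 := (hM l n).1
  have : Finite (T l n ⧸ M.S l n) := Subgroup.finite_quotient_of_finiteIndex
  have : (M.S l n).Normal := ⟨fun w hw t => M.normal l n w hw t⟩
  let f : (T l n ⧸ M.S l n) × Multiplicative (E n) → QG M l n :=
    fun p => (QuotientGroup.map (M.S l n) (MP M l n) iT (fun w hw => iT_mem_MP.2 hw) p.1) *
      ((QuotientGroup.mk (iE p.2 : Phi l n) : QG M l n))
  refine Finite.of_surjective f ?_
  intro q
  obtain ⟨x, rfl⟩ := QuotientGroup.mk_surjective q
  refine ⟨(QuotientGroup.mk x.left, x.right), ?_⟩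
  change (QuotientGroup.mk (iT x.left) : QG M l n) * QuotientGroup.mk (iE x.right) = _
  rw [← QuotientGroup.mk_mul, SemidirectProduct.inl_left_mul_inr_right]

lemma QG_sat (M : TIF) (l n : ℕ) : Sat (NN M) (QG M l n) := by
  intro w hw η
  choose g hg using fun i : ℕ => QuotientGroup.mk_surjective (η (FreeGroup.of i))
  have h : η = (QuotientGroup.mk' (MP M l n)).comp (FreeGroup.lift g) := by
    ext1 i
    simp [hg]
  rw [h, MonoidHom.comp_apply]
  exact (QuotientGroup.eq_one_iff _).2 (hw l n _)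

/-- (11.3) -/
lemma sharp_NN_le {M : TIF} (hM : FinType M) : sharp (NN M) ≤ M := by
  intro l n τ hτ
  have := QG_finite hM l n
  have h := hτ (QG M l n) (QG_sat M l n) (QuotientGroup.mk' (MP M l n)) (by
    intro t
    obtain ⟨k, hk⟩ := (hM l n).2 t
    refine ⟨k, ?_⟩
    rw [← map_pow, ← map_pow]
    exact (QuotientGroup.eq_one_iff _).2 (iT_mem_MP.2 hk))
  exact iT_mem_MP.1 ((QuotientGroup.eq_one_iff _).1 h)

end Pool.Agent.OH
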