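import Pool.Agent.OH.Var2

set_option autoImplicit false
set_option linter.unusedSectionVars false

namespace Pool.Agent.OH

/-! # Section 11: splitting and (11.2) -/

lemma eq_one_of_pows {G : Type} [Group G] {x : G} {k j : ℕ} (h2 : x ^ 2 ^ k = 1)
    (h3 : x ^ 3 ^ j = 1) : x = 1 := by
  have h : orderOf x ∣ Nat.gcd (2 ^ k) (3 ^ j) :=
    Nat.dvd_gcd (orderOf_dvd_of_pow_eq_one h2) (orderOf_dvd_of_pow_eq_one h3)
  have h4 : Nat.gcd (2 ^ k) (3 ^ j) = 1 := Nat.Coprime.pow _ _ (by norm_num)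
  rw [h4, Nat.dvd_one, orderOf_eq_one_iff] at h
  exact h

/-- Splitting of a surjection onto a `3`-group with kernel a `2`-group. -/
lemma split {A B : Type} [Group A] [Group B] [Finite A] (r : A →* B)
    (hr : Function.Surjective r) (hker : ∀ x, r x = 1 → ∃ k : ℕ, x ^ 2 ^ k = 1)
    (hB : ∀ b : B, b ^ 3 = 1) : ∃ f : B →* A, ∀ b, r (f b) = b := by
  haveI : Fact (Nat.Prime 2) := ⟨Nat.prime_two⟩
  haveI : Fact (Nat.Prime 3) := ⟨Nat.prime_three⟩
  haveI : Finite B := Finite.of_surjective r hr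
  have h2 : IsPGroup 2 r.ker := by
    intro x
    obtain ⟨k, hk⟩ := hker x x.2
    exact ⟨k, Subtype.ext hk⟩
  have h3 : IsPGroup 3 B := fun b => ⟨1, by rw [pow_one]; exact hB b⟩
  have hcop : Nat.Coprime (Nat.card r.ker) r.ker.index := by
    obtain ⟨k, hk⟩ := (IsPGroup.iff_card (p := 2)).1 h2
    obtain ⟨j, hj⟩ := (IsPGroup.iff_card (p := 3)).1 h3
    have h4 : r.ker.index = Nat.card B := by
      rw [Subgroup.index_ker]
      have h5 : r.range = ⊤ := MonoidHom.range_eq_top.2 hr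
      rw [h5, Subgroup.card_top]
    rw [h4, hk, hj]
    exact Nat.Coprime.pow _ _ (by norm_num)
  obtain ⟨H, hH⟩ := Subgroup.exists_right_complement'_of_coprime hcop
  have hbij : Function.Bijective (r.comp H.subtype) := by
    constructor
    · rw [injective_iff_map_eq_one]
      intro a ha
      have h5 : (a : A) ∈ r.ker := ha
      have h6 := hH.disjoint
      have h7 : (a : A) ∈ (⊥ : Subgroup A) := by
        rw [← disjoint_iff.1 h6]
        exact ⟨h5, a.2⟩
      exact Subtype.ext (Subgroup.mem_bot.1 h7)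
    · intro b
      obtain ⟨a, rfl⟩ := hr b
      have h5 : a ∈ (r.ker : Subgroup A) ⊔ H := by
        rw [hH.sup_eq_top]; trivial
      rw [Subgroup.mem_sup_of_normal_left] at h5
      obtain ⟨x, hx, y, hy, rfl⟩ := h5
      refine ⟨⟨y, hy⟩, ?_⟩
      have h6 : r x = 1 := hx
      simp [h6]
  refine ⟨H.subtype.comp (MulEquiv.ofBijective _ hbij).symm.toMonoidHom, ?_⟩
  intro b
  exact (MulEquiv.ofBijective _ hbij).apply_symm_apply b

end Pool.Agent.OH
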