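import Pool.Agent.OH.Var3

set_option autoImplicit false
set_option linter.unusedSectionVars false

namespace Pool.Agent.OH

/-! # Section 11: (11.2) -/

section
variable (M : TIF) (m : ℕ)

/-- `Q(l,n) → E_n`. -/
noncomputable def rQ (l n : ℕ) : QG M l n →* Multiplicative (E n) :=
  QuotientGroup.lift (MP M l n) SemidirectProduct.rightHom (fun _ hx => (mem_MP.1 hx).1)

@[simp] lemma rQ_mk (l n : ℕ) (x : Phi l n) :
    rQ M l n (QuotientGroup.mk x) = x.right := rfl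

lemma rQ_eq_one {l n : ℕ} {q : QG M l n} (h : rQ M l n q = 1) :
    ∃ t : T l n, q = QuotientGroup.mk (iT t) := by
  obtain ⟨x, rfl⟩ := QuotientGroup.mk_surjective q
  rw [rQ_mk] at h
  refine ⟨x.left, ?_⟩
  congr 1
  exact SemidirectProduct.ext rfl h

/-- The evaluation `F_∞ → Q(m,m)`. -/
noncomputable def pm : FreeGroup ℕ →* QG M m m := (QuotientGroup.mk' (MP M m m)).comp (ev m)

lemma pm_eq_one {w : FreeGroup ℕ} (h : pm M m w = 1) : kp m w ∈ NN M :=
  kp_mem_NN ((QuotientGroup.eq_one_iff _).1 h)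

lemma pm_of_lt {i : ℕ} (hi : i < m) : pm M m (FreeGroup.of i) =
    QuotientGroup.mk (iT (yy (⟨i, hi⟩ : Fin m) 0) * iE (ebas ⟨i, hi⟩)) := by
  change QuotientGroup.mk (ev m (FreeGroup.of i)) = _
  exact congrArg _ (ev_of_lt (⟨i, hi⟩ : Fin m))

lemma pm_kp (w : FreeGroup ℕ) : pm M m (kp m w) = pm M m w := by
  have : (pm M m).comp (kp m) = pm M m := by
    ext1 i
    rw [MonoidHom.comp_apply]
    by_cases hi : i < m
    · rw [kp_of_lt hi]
    · have h1 : kp m (FreeGroup.of i) = 1 := by simp [kp, hi]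
      rw [h1, map_one]
      change 1 = QuotientGroup.mk (ev m (FreeGroup.of i))
      have h2 : ev m (FreeGroup.of i) = 1 := by simp [ev, hi]
      rw [h2]; rfl
  exact DFunLike.congr_fun this w

end

/-- Conjugating a `3`-subgroup of `Q` into `E_m`. -/
lemma conj_into {M : TIF} (hM : FinType M) {l m : ℕ} {B : Type} [Group B]
    (hB : ∀ b : B, b ^ 3 = 1)
    (f : B →* QG M l m) : ∃ g : QG M l m, ∀ b : B,
      g * f b * g⁻¹ = QuotientGroup.mk (iE (rQ M l m (f b))) := by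
  have : Fact (Nat.Prime 2) := ⟨Nat.prime_two⟩
  have : Fact (Nat.Prime 3) := ⟨Nat.prime_three⟩
  have := QG_finite hM l m
  have hE3 : ∀ e : Multiplicative (E m), e ^ 3 = 1 := by
    intro e
    apply Multiplicative.toAdd.injective
    rw [toAdd_pow, toAdd_one]
    funext i
    rw [Pi.smul_apply]
    exact ZModModule.char_nsmul_eq_zero 3 _
  let jE : Multiplicative (E m) →* QG M l m := (QuotientGroup.mk' (MP M l m)).comp iE
  have hP : IsPGroup 3 f.range := by
    rintro ⟨x, b, rfl⟩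
    refine ⟨1, Subtype.ext ?_⟩
    change (f b) ^ 3 ^ 1 = 1
    rw [pow_one, ← map_pow, hB, map_one]
  have hS : IsPGroup 3 jE.range := by
    rintro ⟨x, b, rfl⟩
    refine ⟨1, Subtype.ext ?_⟩
    change (jE b) ^ 3 ^ 1 = 1
    rw [pow_one, ← map_pow, hE3, map_one]
  obtain ⟨P', hP'⟩ := hP.exists_le_sylow
  obtain ⟨S', hS'⟩ := hS.exists_le_sylow
  have hS'' : ∀ s ∈ S', s = jE (rQ M l m s) := by
    intro s hs
    have h1 : rQ M l m (s * (jE (rQ M l m s))⁻¹) = 1 := by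
      rw [map_mul, map_inv]
      change rQ M l m s * (rQ M l m (QuotientGroup.mk (iE (rQ M l m s))))⁻¹ = 1
      rw [rQ_mk, SemidirectProduct.right_inr, mul_inv_cancel]
    have h2 : s * (jE (rQ M l m s))⁻¹ ∈ S' := by
      exact mul_mem hs (inv_mem (hS' ⟨_, rfl⟩))
    obtain ⟨t, ht⟩ := rQ_eq_one M h1
    obtain ⟨k, hk⟩ := (hM l m).2 t
    have h3 : (s * (jE (rQ M l m s))⁻¹) ^ 2 ^ k = 1 := by
      rw [ht, ← QuotientGroup.mk_pow, ← map_pow]
      exact (QuotientGroup.eq_one_iff _).2 (iT_mem_MP.2 hk)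
    obtain ⟨j, hj⟩ := S'.isPGroup' ⟨_, h2⟩
    have h4 : (s * (jE (rQ M l m s))⁻¹) ^ 3 ^ j = 1 := congrArg Subtype.val hj
    exact mul_inv_eq_one.1 (eq_one_of_pows h3 h4)
  obtain ⟨g, hg⟩ := MulAction.exists_smul_eq (QG M l m) P' S'
  refine ⟨g, fun b => ?_⟩
  have h5 : g * f b * g⁻¹ ∈ S' := by
    rw [← hg]
    have : f b ∈ P' := hP' ⟨b, rfl⟩
    exact ⟨f b, this, rfl⟩
  have h6 := hS'' _ h5
  rw [h6]
  change QuotientGroup.mk (iE (rQ M l m (g * f b * g⁻¹))) = _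
  congr 2
  rw [map_mul, map_mul, map_inv, mul_comm (rQ M l m g), mul_inv_cancel_right]

end Pool.Agent.OH
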