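import Pool.Agent.OH.Var4

set_option autoImplicit false
set_option linter.unusedSectionVars false

namespace Pool.Agent.OH

lemma E_cube {n : ℕ} (e : Multiplicative (E n)) : e ^ 3 = 1 := by
  apply Multiplicative.toAdd.injective
  rw [toAdd_pow, toAdd_one]
  funext i
  rw [Pi.smul_apply]
  exact ZModModule.char_nsmul_eq_zero 3 _

/-- Any hom `Φ(l,n) → Q(l',m)` sending the `y_i` into the image of `T` kills `M(l,n)`. -/
lemma hom_kills {M : TIF} (hM : FinType M) {l n l' m : ℕ} (θ : Phi l n →* QG M l' m)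
    (hθ : ∀ i, rQ M l' m (θ (iT (yy i 0))) = 1) {τ : T l n} (hτ : τ ∈ M.S l n) :
    θ (iT τ) = 1 := by
  obtain ⟨g, hg⟩ := conj_into hM E_cube (θ.comp iE)
  have ht : ∀ i, ∃ t : T l' m, g * θ (iT (yy i 0)) * g⁻¹ = QuotientGroup.mk (iT t) := by
    intro i
    apply rQ_eq_one
    rw [map_mul, map_mul, hθ, map_inv, mul_one, mul_inv_cancel]
  choose t ht using ht
  let ρ : E n →+ E m := AddMonoidHom.toMultiplicative.symm ((rQ M l' m).comp (θ.comp iE))
  have h : (MulAut.conj g).toMonoidHom.comp θ = (QuotientGroup.mk' (MP M l' m)).comp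
      (pthom ρ t) := by
    apply phi_hom_ext
    · intro e
      change g * θ (iE e) * g⁻¹ = QuotientGroup.mk (pthom ρ t (iE e))
      rw [pthom_iE]
      exact hg e
    · intro i
      change g * θ (iT (yy i 0)) * g⁻¹ = QuotientGroup.mk (pthom ρ t (iT (yy i 0)))
      rw [pthom_iT, ht]
      congr 2
      rw [yy, thom_of]
      simp only [map_zero]
      exact (act_zero _).symm
  have h2 : g * θ (iT τ) * g⁻¹ = QuotientGroup.mk (pthom ρ t (iT τ)) :=
    DFunLike.congr_fun h (iT τ)
  have h3 : (QuotientGroup.mk (pthom ρ t (iT τ)) : QG M l' m) = 1 :=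
    (QuotientGroup.eq_one_iff _).2 (pthom_MP M ρ t (iT_mem_MP.2 hτ))
  rw [h3] at h2
  have h4 : g * θ (iT τ) * g⁻¹ = g * 1 * g⁻¹ := by rw [h2]; group
  exact mul_left_cancel (mul_right_cancel h4)

/-- The partial evaluation data for (11.2). -/
noncomputable def pG {l n : ℕ} {G : Type} [Group G] (η : Phi l n →* G) : FreeGroup ℕ →* G :=
  FreeGroup.lift fun i => if h : i < n then η (iE (ebas ⟨i, h⟩))
    else if h : i - n < l then η (iT (yy ⟨i - n, h⟩ 0)) else 1

/-- The `E_n`-part of the first `n` letters. -/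
noncomputable def qE (n : ℕ) : FreeGroup ℕ →* Multiplicative (E n) :=
  FreeGroup.lift fun i => if h : i < n then ebas ⟨i, h⟩ else 1

lemma pG_kp_n {l n : ℕ} {G : Type} [Group G] (η : Phi l n →* G) (w : FreeGroup ℕ) :
    pG η (kp n w) = η (iE (qE n w)) := by
  have : (pG η).comp (kp n) = (η.comp iE).comp (qE n) := by
    ext1 i
    by_cases hi : i < n
    · simp [pG, kp, qE, hi]
    · simp [kp, qE, hi]
  exact DFunLike.congr_fun this w

lemma pG_kp {l n : ℕ} {G : Type} [Group G] (η : Phi l n →* G) (w : FreeGroup ℕ) :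
    pG η (kp (n + l) w) = pG η w := by
  have : (pG η).comp (kp (n + l)) = pG η := by
    ext1 i
    by_cases hi : i < n + l
    · simp [kp, hi]
    · have h1 : ¬ i < n := by omega
      have h2 : ¬ i - n < l := by omega
      simp [pG, kp, hi, h1, h2]
  exact DFunLike.congr_fun this w

/-- The projection `E_m → E_n` for `n ≤ m`. -/
def pE {n m : ℕ} (h : n ≤ m) : Multiplicative (E m) →* Multiplicative (E n) :=
  AddMonoidHom.toMultiplicative
    { toFun := fun e i => e (Fin.castLE h i)
      map_zero' := rfl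
      map_add' := fun _ _ => rfl }

/-- The inclusion `E_n → E_m`. -/
def jE {n m : ℕ} : Multiplicative (E n) →* Multiplicative (E m) :=
  AddMonoidHom.toMultiplicative
    { toFun := fun e i => if h : (i : ℕ) < n then e ⟨i, h⟩ else 0
      map_zero' := by funext i; simp
      map_add' := fun e e' => by
        funext i
        by_cases h : (i : ℕ) < n <;> simp [h] }

lemma jE_ebas {n m : ℕ} (h : n ≤ m) (i : Fin n) :
    (jE (ebas i) : Multiplicative (E m)) = ebas (Fin.castLE h i) := by
  apply Multiplicative.toAdd.injective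
  funext k
  change (if h : (k : ℕ) < n then (Pi.single i 1 : E n) ⟨k, h⟩ else 0) =
    (Pi.single (Fin.castLE h i) 1 : E m) k
  by_cases hk : (k : ℕ) < n
  · rw [dif_pos hk]
    by_cases hki : (k : ℕ) = i
    · have h1 : (⟨k, hk⟩ : Fin n) = i := Fin.ext hki
      have h2 : k = Fin.castLE h i := Fin.ext hki
      rw [h1, h2, Pi.single_eq_same, Pi.single_eq_same]
    · rw [Pi.single_eq_of_ne, Pi.single_eq_of_ne]
      · intro h2; exact hki (congrArg Fin.val h2)
      · intro h2; exact hki (congrArg Fin.val h2)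
  · rw [dif_neg hk, Pi.single_eq_of_ne]
    intro h2
    apply hk
    rw [h2]
    exact i.2

lemma pE_ebas {n m : ℕ} (h : n ≤ m) (i : Fin n) : pE h (ebas (Fin.castLE h i)) = ebas i := by
  apply Multiplicative.toAdd.injective
  funext k
  change (Pi.single (Fin.castLE h i) 1 : E m) (Fin.castLE h k) = (Pi.single i 1 : E n) k
  by_cases hki : k = i
  · rw [hki, Pi.single_eq_same, Pi.single_eq_same]
  · rw [Pi.single_eq_of_ne hki, Pi.single_eq_of_ne]
    intro h2
    exact hki (Fin.ext (by simpa using congrArg Fin.val h2))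

lemma qE_surjective (n : ℕ) : Function.Surjective (qE n) := by
  have key : ∀ e : E n, Multiplicative.ofAdd e ∈ (qE n).range := by
    intro e
    have h1 := E_closure e
    induction h1 using AddSubgroup.closure_induction with
    | mem x hx =>
      obtain ⟨j, rfl⟩ := hx
      refine ⟨FreeGroup.of (j : ℕ), ?_⟩
      simp [qE, ebas]
    | zero => exact one_mem _
    | add x y _ _ hx hy => rw [ofAdd_add]; exact mul_mem hx hy
    | neg x _ hx => rw [ofAdd_neg]; exact inv_mem hx
  intro e
  exact key e.toAdd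

/-- (11.2) -/
theorem le_sharp {M : TIF} (hM : FinType M) {L : Subgroup (FreeGroup ℕ)} (hL : NN M ≤ L) :
    M ≤ sharp L := by
  intro l n τ hτ G _ _ hG η hη
  have := QG_finite hM (n + l) (n + l)
  set m := n + l with hm
  have hnm : n ≤ m := by omega
  let π := (pm M m).rangeRestrict
  have hπ : Function.Surjective π := (pm M m).rangeRestrict_surjective
  have hker : π.ker ≤ (pG η).ker := by
    intro w hw
    have h1 : pm M m w = 1 := congrArg Subtype.val (MonoidHom.mem_ker.1 hw)
    rw [MonoidHom.mem_ker, ← pG_kp]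
    exact hG _ (hL (pm_eq_one M m h1)) _
  let ζ : (pm M m).range →* G := π.liftOfSurjective hπ ⟨pG η, hker⟩
  have hζ : ∀ w, ζ (π w) = pG η w := fun w =>
    MonoidHom.liftOfRightInverse_comp_apply π _ (Function.rightInverse_surjInv hπ)
      ⟨pG η, hker⟩ w
  -- the subgroup generated by the first `n` letters
  let A' : Subgroup (pm M m).range := (π.comp (kp n)).range
  let r : A' →* Multiplicative (E n) := (pE hnm).comp ((rQ M m m).comp
    ((pm M m).range.subtype.comp A'.subtype))
  have hrQ : ∀ w, rQ M m m (pm M m (kp n w)) = jE (qE n w) := by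
    intro w
    have : ((rQ M m m).comp (pm M m)).comp (kp n) = (jE : _ →* Multiplicative (E m)).comp
        (qE n) := by
      ext1 i
      simp only [MonoidHom.comp_apply]
      by_cases hi : i < n
      · rw [kp_of_lt hi, pm_of_lt M m (hi.trans_le hnm), rQ_mk]
        have h1 : qE n (FreeGroup.of i) = ebas ⟨i, hi⟩ := by simp [qE, hi]
        rw [h1, jE_ebas hnm]
        simp
      · have h1 : kp n (FreeGroup.of i) = 1 := by simp [kp, hi]
        have h2 : qE n (FreeGroup.of i) = 1 := by simp [qE, hi]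
        rw [h1, h2, map_one, map_one, map_one]
    exact DFunLike.congr_fun this w
  have hpj : ∀ e : Multiplicative (E n), pE hnm (jE e) = e := by
    intro e
    have : (pE hnm).comp jE = MonoidHom.id (Multiplicative (E n)) := by
      apply e_hom_ext
      intro j
      rw [MonoidHom.comp_apply, jE_ebas hnm, pE_ebas]
      rfl
    exact DFunLike.congr_fun this e
  have hr : ∀ w, r ⟨π (kp n w), ⟨w, rfl⟩⟩ = qE n w := by
    intro w
    change pE hnm (rQ M m m (pm M m (kp n w))) = _
    rw [hrQ, hpj]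
  have hrs : Function.Surjective r := by
    intro e
    obtain ⟨w, rfl⟩ := qE_surjective n e
    exact ⟨_, hr w⟩
  -- kernel of `r`
  have hrk : ∀ x : A', r x = 1 → ∃ k : ℕ, x ^ 2 ^ k = 1 := by
    rintro ⟨x, w, rfl⟩ hx
    have h1 : qE n w = 1 := by rw [← hr w]; exact hx
    have h2 : rQ M m m (pm M m (kp n w)) = 1 := by rw [hrQ, h1, map_one]
    obtain ⟨t, ht⟩ := rQ_eq_one M h2
    obtain ⟨k, hk⟩ := (hM m m).2 t
    refine ⟨k, Subtype.ext (Subtype.ext ?_)⟩
    change (pm M m (kp n w)) ^ 2 ^ k = 1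
    rw [ht, ← QuotientGroup.mk_pow, ← map_pow]
    exact (QuotientGroup.eq_one_iff _).2 (iT_mem_MP.2 hk)
  obtain ⟨f, hf⟩ := split r hrs hrk E_cube
  let f' : Multiplicative (E n) →* (pm M m).range := A'.subtype.comp f
  have hζ3 : ∀ x : A', ζ (x : (pm M m).range) ^ 3 = 1 := by
    rintro ⟨x, w, rfl⟩
    change ζ (π (kp n w)) ^ 3 = 1
    rw [hζ, pG_kp_n, ← map_pow, ← map_pow, E_cube, map_one, map_one]
  have hζf : ζ.comp f' = η.comp iE := by
    apply e_hom_ext
    intro j
    have h1 : qE n (FreeGroup.of (j : ℕ)) = ebas j := by simp [qE]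
    let x : A' := ⟨π (kp n (FreeGroup.of (j : ℕ))), ⟨_, rfl⟩⟩
    have h2 : r (x * (f (ebas j))⁻¹) = 1 := by
      rw [map_mul, map_inv, hf, hr, h1, mul_inv_cancel]
    obtain ⟨k, hk⟩ := hrk _ h2
    have h3 : ζ ((x * (f (ebas j))⁻¹ : A') : (pm M m).range) ^ 2 ^ k = 1 := by
      rw [← map_pow, ← Subgroup.coe_pow, hk, Subgroup.coe_one, map_one]
    have h4 := hζ3 (x * (f (ebas j))⁻¹)
    have h5 : ζ ((x * (f (ebas j))⁻¹ : A') : (pm M m).range) = 1 :=
      eq_one_of_pows (j := 1) h3 (by rw [pow_one]; exact h4)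
    rw [Subgroup.coe_mul, Subgroup.coe_inv, map_mul, map_inv, mul_inv_eq_one] at h5
    have h6 : ζ (x : (pm M m).range) = η (iE (ebas j)) := by
      change ζ (π (kp n (FreeGroup.of (j : ℕ)))) = _
      rw [hζ, pG_kp_n, h1]
    change ζ (f (ebas j) : (pm M m).range) = η (iE (ebas j))
    rw [← h5, h6]
  -- the `y`-part
  have hy : ∀ i : Fin l, ∃ s : (pm M m).range, rQ M m m (s : QG M m m) = 1 ∧
      ζ s = η (iT (yy i 0)) := by
    intro i
    obtain ⟨k, hk⟩ := hη (yy i 0)
    let N0 : ℕ := 1 + 2 * 4 ^ k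
    have hlt : n + (i : ℕ) < m := by omega
    have h3 : 3 ∣ N0 := by
      have : 4 ^ k % 3 = 1 := by
        rw [Nat.pow_mod]; simp
      omega
    refine ⟨π (FreeGroup.of (n + (i : ℕ))) ^ N0, ?_, ?_⟩
    · obtain ⟨c, hc⟩ := h3
      rw [hc, Subgroup.coe_pow, map_pow, pow_mul, E_cube, one_pow]
    · rw [map_pow, hζ]
      have h4 : pG η (FreeGroup.of (n + (i : ℕ))) = η (iT (yy i 0)) := by
        simp [pG]
      rw [h4, pow_add, pow_one, pow_mul']
      have h5 : (4 : ℕ) ^ k = 2 ^ k * 2 ^ k := by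
        rw [← mul_pow]; norm_num
      rw [h5, pow_mul, hk, one_pow, one_pow, mul_one]
  choose s hs1 hs2 using hy
  let θ : Phi l n →* (pm M m).range := plift f' s
  have hθ : ζ.comp θ = η := by
    apply phi_hom_ext
    · intro e
      rw [MonoidHom.comp_apply, plift_iE]
      exact DFunLike.congr_fun hζf e
    · intro i
      rw [MonoidHom.comp_apply, plift_yy, hs2]
  have hθ2 := hom_kills hM ((pm M m).range.subtype.comp θ) (by
    intro i
    rw [MonoidHom.comp_apply, plift_yy]
    exact hs1 i) hτ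
  have hθ3 : θ (iT τ) = 1 := Subtype.ext hθ2
  rw [← hθ, MonoidHom.comp_apply, hθ3, map_one]

end Pool.Agent.OH
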