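import Pool.Agent.OH.Var5

set_option autoImplicit false
set_option linter.unusedSectionVars false

namespace Pool.Agent.OH

/-- The hom `Z/3 → B` given by an element of exponent 3. -/
def jB {B : Type} [Group B] (b : B) (hb : b ^ 3 = 1) : Multiplicative (ZMod 3) →* B where
  toFun k := b ^ (k.toAdd).val
  map_one' := by
    have : (Multiplicative.toAdd (1 : Multiplicative (ZMod 3))).val = 0 := rfl
    rw [this, pow_zero]
  map_mul' k l := by
    rw [toAdd_mul, ← pow_add, ZMod.val_add]
    conv_rhs => rw [← Nat.div_add_mod (k.toAdd.val + l.toAdd.val) 3, pow_add, pow_mul, hb,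
      one_pow, one_mul]

lemma eq_one_of_jB {B : Type} [Group B] (b : B) (hb : b ^ 3 = 1) {c : Multiplicative (ZMod 3)}
    (hc : c ≠ 1) (h : jB b hb c = 1) : b = 1 := by
  have h1 : b ^ (c.toAdd).val = 1 := h
  have h2 : ∀ c : ZMod 3, c ≠ 0 → c.val = 1 ∨ c.val = 2 := by decide
  rcases h2 c.toAdd hc with h3 | h3
  · rw [h3, pow_one] at h1; exact h1
  · rw [h3] at h1
    have : b ^ 3 = b ^ 2 * b := pow_succ b 2
    rw [hb, h1, one_mul] at this
    exact this.symm

lemma rQ_pm (M : TIF) (m : ℕ) (w : FreeGroup ℕ) : rQ M m m (pm M m w) = qE m w := by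
  have : (rQ M m m).comp (pm M m) = qE m := by
    ext1 i
    rw [MonoidHom.comp_apply]
    by_cases hi : i < m
    · rw [pm_of_lt M m hi, rQ_mk]
      simp [qE, hi]
    · rw [← pm_kp]
      have h1 : kp m (FreeGroup.of i) = 1 := by simp [kp, hi]
      rw [h1, map_one, map_one]
      simp [qE, hi]
  exact DFunLike.congr_fun this w

lemma kp_kp (m : ℕ) (w : FreeGroup ℕ) : kp m (kp m w) = kp m w := by
  have : (kp m).comp (kp m) = kp m := by
    ext1 i
    by_cases hi : i < m <;> simp [kp, hi]
  exact DFunLike.congr_fun this w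

/-- (11.4) -/
theorem sharp_inj {M : TIF} (hM : FinType M) {L L' : Subgroup (FreeGroup ℕ)} (hL : NN M ≤ L)
    (hfi : FI L) (hs : sharp L' ≤ sharp L)
    (h3 : Sat L (Multiplicative (ZMod 3)) → Sat L' (Multiplicative (ZMod 3))) : L' ≤ L := by
  intro w hw
  obtain ⟨m, hm⟩ := exists_kp_eq w
  have hm := hm m le_rfl
  have := QG_finite hM m m
  have hLn := hfi.normal
  let K : Subgroup (FreeGroup ℕ) := L.comap (kp m)
  let H := FreeGroup ℕ ⧸ K
  let q : FreeGroup ℕ →* H := QuotientGroup.mk' K
  have hq : ∀ v, q v = 1 ↔ kp m v ∈ L := fun v => QuotientGroup.eq_one_iff _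
  have hqs : Function.Surjective q := QuotientGroup.mk'_surjective K
  have hqk : ∀ v, q (kp m v) = q v := by
    intro v
    have : q (kp m v * v⁻¹) = 1 := by
      rw [hq, map_mul, kp_kp, map_inv, mul_inv_cancel]
      exact one_mem _
    rw [map_mul, map_inv, mul_inv_eq_one] at this
    exact this
  -- reduce to `q w = 1`
  suffices hgoal : q w = 1 by
    rw [hq, hm] at hgoal
    exact hgoal
  have hSat : Sat L H := by
    intro v hv ξ
    choose g hg using fun i : ℕ => hqs (ξ (FreeGroup.of i))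
    have h : ξ = q.comp (FreeGroup.lift g) := by
      ext1 i
      simp [hg]
    rw [h, MonoidHom.comp_apply, hq]
    exact hfi _ _ (hfi _ _ hv)
  let π := (pm M m).rangeRestrict
  have hπ : Function.Surjective π := (pm M m).rangeRestrict_surjective
  have hker : π.ker ≤ q.ker := by
    intro v hv
    have h1 : pm M m v = 1 := congrArg Subtype.val (MonoidHom.mem_ker.1 hv)
    rw [MonoidHom.mem_ker, hq]
    exact hL (pm_eq_one M m h1)
  let ζ : (pm M m).range →* H := π.liftOfSurjective hπ ⟨q, hker⟩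
  have hζ : ∀ v, ζ (π v) = q v := fun v =>
    MonoidHom.liftOfRightInverse_comp_apply π _ (Function.rightInverse_surjInv hπ)
      ⟨q, hker⟩ v
  have hζs : Function.Surjective ζ := by
    intro x
    obtain ⟨v, rfl⟩ := hqs x
    exact ⟨π v, hζ v⟩
  have hHfin : Finite H := Finite.of_surjective ζ hζs
  let RT : Subgroup (pm M m).range := ((rQ M m m).comp (pm M m).range.subtype).ker
  let HT : Subgroup H := RT.map ζ
  have hHTn : HT.Normal := Subgroup.Normal.map inferInstance ζ hζs
  have hHT2 : ∀ x ∈ HT, ∃ k : ℕ, x ^ 2 ^ k = 1 := by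
    rintro x ⟨a, ha, rfl⟩
    obtain ⟨t, ht⟩ := rQ_eq_one M (q := (a : QG M m m)) ha
    obtain ⟨k, hk⟩ := (hM m m).2 t
    refine ⟨k, ?_⟩
    have h1 : a ^ 2 ^ k = 1 := by
      apply Subtype.ext
      rw [Subgroup.coe_pow, ht, ← QuotientGroup.mk_pow, ← map_pow]
      exact (QuotientGroup.eq_one_iff _).2 (iT_mem_MP.2 hk)
    rw [← map_pow, h1, map_one]
  let r : H →* H ⧸ HT := QuotientGroup.mk' HT
  have hr1 : ∀ x, r x = 1 ↔ x ∈ HT := fun x => QuotientGroup.eq_one_iff _
  have hrs : Function.Surjective r := QuotientGroup.mk'_surjective HT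
  have hqHT : ∀ v, qE m v = 1 → q v ∈ HT := by
    intro v hv
    refine ⟨π v, ?_, hζ v⟩
    change rQ M m m (pm M m v) = 1
    rw [rQ_pm, hv]
  have hB3 : ∀ b : H ⧸ HT, b ^ 3 = 1 := by
    intro b
    obtain ⟨x, rfl⟩ := hrs b
    obtain ⟨v, rfl⟩ := hqs x
    rw [← map_pow, ← map_pow, hr1]
    apply hqHT
    rw [map_pow, E_cube]
  by_cases hC : Sat L (Multiplicative (ZMod 3))
  · -- case 1
    obtain ⟨s, hs'⟩ := split r hrs (fun x hx => hHT2 x ((hr1 x).1 hx)) hB3
    have hker2 : (qE m).ker ≤ (r.comp q).ker := by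
      intro v hv
      rw [MonoidHom.mem_ker, MonoidHom.comp_apply, hr1]
      exact hqHT v hv
    let h : Multiplicative (E m) →* H ⧸ HT :=
      (qE m).liftOfSurjective (qE_surjective m) ⟨r.comp q, hker2⟩
    have hh : ∀ v, h (qE m v) = r (q v) := fun v =>
      MonoidHom.liftOfRightInverse_comp_apply (qE m) _
        (Function.rightInverse_surjInv (qE_surjective m)) ⟨r.comp q, hker2⟩ v
    let f : Multiplicative (E m) →* H := s.comp h
    let t : Fin m → H := fun i => q (FreeGroup.of (i : ℕ)) * (f (ebas i))⁻¹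
    have ht : ∀ i, r (t i) = 1 := by
      intro i
      change r (q (FreeGroup.of (i : ℕ)) * (s (h (ebas i)))⁻¹) = 1
      have h1 : qE m (FreeGroup.of (i : ℕ)) = ebas i := by simp [qE]
      rw [map_mul, map_inv, hs', ← h1, hh, mul_inv_cancel]
    let η : Phi m m →* H := plift f t
    have hη : ∀ v, η (ev m v) = q v := by
      intro v
      have : η.comp (ev m) = q.comp (kp m) := by
        ext1 i
        rw [MonoidHom.comp_apply, MonoidHom.comp_apply]
        by_cases hi : i < m
        · rw [kp_of_lt hi]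
          have h1 : ev m (FreeGroup.of i) = iT (yy (⟨i, hi⟩ : Fin m) 0) * iE (ebas ⟨i, hi⟩) :=
            ev_of_lt (⟨i, hi⟩ : Fin m)
          rw [h1, map_mul, plift_yy, plift_iE]
          exact inv_mul_cancel_right _ _
        · have h1 : ev m (FreeGroup.of i) = 1 := by simp [ev, hi]
          have h2 : kp m (FreeGroup.of i) = 1 := by simp [kp, hi]
          rw [h1, h2, map_one, map_one]
      have h1 := DFunLike.congr_fun this v
      rw [MonoidHom.comp_apply, MonoidHom.comp_apply, hqk] at h1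
      exact h1
    have hηT : ∀ u : T m m, η (iT u) ∈ HT := by
      intro u
      rw [← hr1]
      have : (r.comp η).comp iT = 1 := by
        ext1 p
        change r (η (iT (FreeGroup.of p))) = 1
        rw [plift_iT, FreeGroup.lift_apply_of, map_mul, map_mul, ht, map_inv, mul_one,
          mul_inv_cancel]
      exact DFunLike.congr_fun this u
    -- `ev m w` lies in `T`
    have hqEw : qE m w = 1 := by
      apply Multiplicative.toAdd.injective
      funext k
      let c : Multiplicative (E m) →* Multiplicative (ZMod 3) :=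
        AddMonoidHom.toMultiplicative (Pi.evalAddMonoidHom (fun _ : Fin m => ZMod 3) k)
      have h1 := h3 hC w hw (c.comp (qE m))
      exact congrArg Multiplicative.toAdd h1
    have hright : (ev m w).right = 1 := by
      rw [← hqEw, ← rQ_pm M m w]; rfl
    have hev : ev m w = iT (ev m w).left := SemidirectProduct.ext rfl hright
    have hmem : (ev m w).left ∈ (sharp L').S m m := by
      intro G _ _ hG ξ _
      rw [← hev]
      exact hG w hw (ξ.comp (ev m))
    have h5 := hs m m hmem H hSat η (fun u => hHT2 _ (hηT u))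
    rw [← hev, hη] at h5
    exact h5
  · -- case 2
    unfold Sat at hC
    push Not at hC
    obtain ⟨v, hv, ξ, hξ⟩ := hC
    have hHT : ∀ x : H, x ∈ HT := by
      intro x
      rw [← hr1]
      have hSatB : ((jB (r x) (hB3 _)).comp ξ) v = 1 := by
        -- lift the hom to `H`
        choose g hg using fun i : ℕ => hrs (((jB (r x) (hB3 _)).comp ξ) (FreeGroup.of i))
        have h : (jB (r x) (hB3 _)).comp ξ = r.comp (FreeGroup.lift g) := by
          ext1 i
          simp only [MonoidHom.comp_apply] at hg ⊢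
          rw [FreeGroup.lift_apply_of, hg]
        rw [h, MonoidHom.comp_apply, hSat v hv, map_one]
      exact eq_one_of_jB (r x) (hB3 (r x)) hξ hSatB
    let ev0 : FreeGroup ℕ →* T m 0 := FreeGroup.lift fun i =>
      if h : i < m then yy ⟨i, h⟩ 0 else 1
    let η : Phi m 0 →* H := plift 1 (fun i : Fin m => q (FreeGroup.of (i : ℕ)))
    have hη : ∀ v, η (iT (ev0 v)) = q v := by
      intro v
      have : (η.comp iT).comp ev0 = q.comp (kp m) := by
        ext1 i
        simp only [MonoidHom.comp_apply]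
        by_cases hi : i < m
        · rw [kp_of_lt hi]
          have h1 : ev0 (FreeGroup.of i) = yy (⟨i, hi⟩ : Fin m) 0 := by simp [ev0, hi]
          rw [h1, plift_yy]
        · have h1 : ev0 (FreeGroup.of i) = 1 := by simp [ev0, hi]
          have h2 : kp m (FreeGroup.of i) = 1 := by simp [kp, hi]
          rw [h1, h2, map_one, map_one, map_one]
      have h1 := DFunLike.congr_fun this v
      simp only [MonoidHom.comp_apply, hqk] at h1
      exact h1
    have hmem : ev0 w ∈ (sharp L').S m 0 := by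
      intro G _ _ hG ξ _
      exact hG w hw ((ξ.comp iT).comp ev0)
    have h5 := hs m 0 hmem H hSat η (fun u => hHT2 _ (hHT _))
    rw [hη] at h5
    exact h5

/-- Strictness. -/
theorem NN_strict {M M' : TIF} (hM : FinType M) (hM' : FinType M') (h : M < M') :
    NN M < NN M' := by
  refine lt_of_le_of_ne (NN_mono h.le) fun he => ?_
  apply h.not_ge
  calc M' ≤ sharp (NN M') := le_sharp hM' le_rfl
    _ = sharp (NN M) := by rw [he]
    _ ≤ M := sharp_NN_le hM

/-- (11.5) -/
theorem NN_acc {M : TIF} (hM : FinType M)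
    (hacc : ∀ K : ℕ → TIF, Monotone K → (∀ k, M ≤ K k) → ∃ k₀, ∀ k, k₀ ≤ k → K k = K k₀)
    (L : ℕ → Subgroup (FreeGroup ℕ)) (hfi : ∀ k, FI (L k)) (hmono : Monotone L)
    (hL : ∀ k, NN M ≤ L k) : ∃ k₀, ∀ k, k₀ ≤ k → L k = L k₀ := by
  obtain ⟨k₀, hk₀⟩ := hacc (fun k => sharp (L k)) (fun i j hij => sharp_mono (hmono hij))
    (fun k => le_sharp hM (hL k))
  have h3 : ∃ k₁, k₀ ≤ k₁ ∧ ∀ k, k₁ ≤ k → Sat (L k₁) (Multiplicative (ZMod 3)) →
      Sat (L k) (Multiplicative (ZMod 3)) := by
    by_cases h : ∃ j, ¬ Sat (L j) (Multiplicative (ZMod 3))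
    · obtain ⟨j, hj⟩ := h
      refine ⟨max k₀ j, le_max_left _ _, fun k _ h => ?_⟩
      exact absurd (h.mono (hmono (le_max_right k₀ j))) hj
    · push Not at h
      exact ⟨k₀, le_rfl, fun k _ _ => h k⟩
  obtain ⟨k₁, hk₁, h3⟩ := h3
  refine ⟨k₁, fun k hk => le_antisymm ?_ (hmono hk)⟩
  apply sharp_inj hM (hL k₁) (hfi k₁) _ (h3 k hk)
  rw [hk₀ k (hk₁.trans hk), hk₀ k₁ hk₁]

end Pool.Agent.OH
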