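import Pool.Agent.OH.Defs
import Pool.Agent.OH.OSWqo
import Pool.Agent.OH.LeadStab

set_option autoImplicit false
set_option linter.unusedSectionVars false

/-! # (6.2): the maps `θ_g` for ordered surjections and their leading terms -/

namespace Pool.Agent.OH

/-- `∏_{j ∈ g⁻¹(i)} y_{j,0}` in increasing order. -/
noncomputable def tg {l l' n : ℕ} (g : Fin l' → Fin l) (i : Fin l) : T l' n :=
  (((List.finRange l').filter (fun j => g j = i)).map (fun j => (yy j 0 : T l' n))).prod

/-- the T-hom `θ_g` -/
noncomputable def thg {l l' : ℕ} (n : ℕ) (g : Fin l' → Fin l) : T l n →* T l' n :=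
  thom (AddMonoidHom.id (E n)) (tg g)

lemma act_list {l n : ℕ} (e : E n) (L : List (Fin l)) :
    act e ((L.map (fun j => (yy j 0 : T l n))).prod) = (L.map (fun j => (yy j e : T l n))).prod := by
  induction L with
  | nil => simp
  | cons j L ih =>
    rw [List.map_cons, List.prod_cons, map_mul, ih, List.map_cons, List.prod_cons]
    congr 1
    rw [yy, act_of, add_zero, yy]

lemma thg_of {l l' n : ℕ} (g : Fin l' → Fin l) (i : Fin l) (e : E n) :
    thg n g (FreeGroup.of (i, e)) =
      (((List.finRange l').filter (fun j => g j = i)).map (fun j => (yy j e : T l' n))).prod := by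
  rw [thg, thom_of, tg]
  exact act_list e _

lemma bar_list {l n : ℕ} (e : E n) (L : List (Fin l)) (hL : L.Nodup) (j : Fin l) (f : E n) :
    bar ((L.map (fun j => (yy j e : T l n))).prod) (j, f) = if j ∈ L ∧ f = e then 1 else 0 := by
  induction L with
  | nil => simp
  | cons k L ih =>
    rw [List.nodup_cons] at hL
    rw [List.map_cons, List.prod_cons, bar_mul, Pi.add_apply, ih hL.2, yy, bar_of,
      Pi.single_apply]
    by_cases hf : f = e
    · subst hf
      by_cases hjk : j = k
      · subst hjk; simp [hL.1]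
      · simp [hjk]
    · simp [hf]

lemma dd_list {l n : ℕ} (e : E n) (L : List (Fin l)) (hL : L.Nodup) (j : Fin l) (f : E n) :
    (j ∈ L ∧ f = e → ∃ p : U l n, dd ((L.map (fun j => (yy j e : T l n))).prod) (j, f) = br p ∧
      (L = [j] → p = 0)) ∧
    (¬ (j ∈ L ∧ f = e) → dd ((L.map (fun j => (yy j e : T l n))).prod) (j, f) = 0) := by
  induction L with
  | nil => simp
  | cons k L ih =>
    rw [List.nodup_cons] at hL
    obtain ⟨ih1, ih2⟩ := ih hL.2
    rw [List.map_cons, List.prod_cons, dd_mul, yy, dd_of, bar_of, Pi.single_apply]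
    by_cases hf : f = e
    · subst hf
      by_cases hjk : j = k
      · subst hjk
        have h0 := ih2 (fun h => hL.1 h.1)
        rw [h0]
        refine ⟨fun _ => ⟨0, by simp [br_zero], fun _ => rfl⟩, fun h => absurd ⟨List.mem_cons_self, rfl⟩ h⟩
      · have hne : (j, f) ≠ (k, f) := by simpa using hjk
        rw [if_neg hne, zero_add]
        refine ⟨fun h => ?_, fun h => ?_⟩
        · have hjL : j ∈ L := by
            rcases List.mem_cons.mp h.1 with h1 | h1
            · exact absurd h1 hjk
            · exact h1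
          obtain ⟨p, hp, -⟩ := ih1 ⟨hjL, rfl⟩
          refine ⟨Pi.single (k, f) 1 + p, by rw [br_add, hp], fun hc => ?_⟩
          simp only [List.cons.injEq] at hc
          exact absurd hc.1.symm hjk
        · rw [ih2 (fun h' => h ⟨List.mem_cons_of_mem _ h'.1, rfl⟩), mul_zero]
    · have hne : (j, f) ≠ (k, e) := by
        intro h; exact hf (congrArg Prod.snd h)
      rw [if_neg hne, zero_add, ih2 (fun h => hf h.2), mul_zero]
      exact ⟨fun h => absurd h.2 hf, fun _ => rfl⟩

lemma filter_eq_singleton {l l' : ℕ} (g : Fin l' → Fin l) (j : Fin l')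
    (hj : ∀ j', g j' = g j → j' = j) :
    (List.finRange l').filter (fun j' => g j' = g j) = [j] := by
  have h1 : ((List.finRange l').filter (fun j' => g j' = g j)).Perm [j] := by
    rw [List.perm_ext_iff_of_nodup ((List.nodup_finRange l').filter _) (List.nodup_singleton j)]
    intro a
    simp only [List.mem_filter, List.mem_finRange, true_and, decide_eq_true_eq,
      List.mem_singleton]
    exact ⟨hj a, fun h => h ▸ rfl⟩
  exact List.perm_singleton.mp h1

/-- The Fox differential of `θ_g(y_{i,e})`. -/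
lemma dd_thg {l l' n : ℕ} (g : Fin l' → Fin l) (j : Fin l') (f : E n) :
    ∃ p : U l' n, (∀ (i : Fin l) (e : E n), dd (thg n g (FreeGroup.of (i, e))) (j, f) =
      if i = g j ∧ e = f then br p else 0) ∧ ((∀ j', g j' = g j → j' = j) → p = 0) := by
  obtain ⟨p, hp, hp'⟩ := (dd_list f ((List.finRange l').filter (fun j' => g j' = g j))
    ((List.nodup_finRange l').filter _) j f).1 ⟨by simp, rfl⟩
  refine ⟨p, fun i e => ?_, fun h => hp' (filter_eq_singleton g j h)⟩
  rw [thg_of]
  by_cases h : i = g j ∧ e = f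
  · obtain ⟨rfl, rfl⟩ := h
    rw [if_pos ⟨rfl, rfl⟩, hp]
  · rw [if_neg h]
    apply (dd_list e ((List.finRange l').filter (fun j' => g j' = i))
      ((List.nodup_finRange l').filter _) j f).2
    rintro ⟨h1, h2⟩
    apply h
    simp only [List.mem_filter, List.mem_finRange, true_and, decide_eq_true_eq] at h1
    exact ⟨h1.symm, h2.symm⟩

lemma bar_thg {l l' n : ℕ} (g : Fin l' → Fin l) (i : Fin l) (e : E n) (j : Fin l') (f : E n) :
    bar (thg n g (FreeGroup.of (i, e))) (j, f) = if i = g j ∧ e = f then 1 else 0 := by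
  rw [thg_of, bar_list e _ ((List.nodup_finRange l').filter _)]
  simp only [List.mem_filter, List.mem_finRange, true_and, decide_eq_true_eq]
  by_cases h : g j = i ∧ f = e
  · rw [if_pos h, if_pos ⟨h.1.symm, h.2.symm⟩]
  · rw [if_neg h, if_neg (fun h' => h ⟨h'.1.symm, h'.2.symm⟩)]

lemma ubar_thg {l l' n : ℕ} (g : Fin l' → Fin l) (u : U l n) (j : Fin l') (f : E n) :
    ubar (thg n g) u (j, f) = u (g j, f) := by
  simp only [ubar, AddMonoidHom.coe_mk, ZeroHom.coe_mk, Finset.sum_apply, Pi.smul_apply]
  rw [Finset.sum_eq_single (g j, f)]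
  · rw [bar_thg]; simp
  · rintro ⟨i, e⟩ _ hne
    rw [bar_thg, if_neg, smul_zero]
    rintro ⟨rfl, rfl⟩
    exact hne rfl
  · simp

lemma ubar_thg_injective {l l' n : ℕ} (g : Fin l' → Fin l) (hg : Function.Surjective g) :
    Function.Injective (ubar (thg n g) : U l n → U l' n) := by
  intro u v h
  funext ⟨i, e⟩
  obtain ⟨j, rfl⟩ := hg i
  have := congrFun h (j, e)
  rwa [ubar_thg, ubar_thg] at this

/-- coefficients of `[u]`-translates -/
lemma coeff_lbar_mul_br {l l' n : ℕ} (g : Fin l' → Fin l) (hg : Function.Surjective g)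
    (f : Lam (Fin l × E n)) (p : U l' n) :
    (∀ u : U l n, (lbar (thg n g) f * br p).coeff (ubar (thg n g) u + p) = f.coeff u) ∧
    (∀ v : U l' n, (lbar (thg n g) f * br p).coeff v ≠ 0 →
      ∃ u : U l n, v = ubar (thg n g) u + p ∧ f.coeff u ≠ 0) := by
  have hinj := ubar_thg_injective (n := n) g hg
  have hform : ∀ v : U l' n, (lbar (thg n g) f * br p).coeff v =
      (lbar (thg n g) f).coeff (v - p) := by
    intro v
    rw [br, AddMonoidAlgebra.coeff_mul_single_apply, mul_one, sub_eq_add_neg]
  have hmap : ∀ u : U l n, (lbar (thg n g) f).coeff (ubar (thg n g) u) = f.coeff u := by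
    intro u
    simp only [lbar, AddMonoidAlgebra.mapDomainRingHom_apply]
    exact Finsupp.mapDomain_apply hinj _ _
  refine ⟨fun u => by rw [hform, add_sub_cancel_right, hmap], fun v hv => ?_⟩
  rw [hform] at hv
  have hmem : v - p ∈ (lbar (thg n g) f).coeff.support := Finsupp.mem_support_iff.mpr hv
  have hsub : (lbar (thg n g) f).coeff.support ⊆ f.coeff.support.image (ubar (thg n g)) := by
    simp only [lbar, AddMonoidAlgebra.mapDomainRingHom_apply]
    exact Finsupp.mapDomain_support
  obtain ⟨u, hu, huv⟩ := Finset.mem_image.mp (hsub hmem)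
  exact ⟨u, by rw [huv]; abel, Finsupp.mem_support_iff.mp hu⟩

end Pool.Agent.OH
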