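import Pool.Agent.OH.F1

set_option autoImplicit false
set_option linter.unusedSectionVars false

namespace Pool.Agent.OH

section hs
variable {X Y : Type} [Fintype X] [DecidableEq X] [Fintype Y] [DecidableEq Y]

theorem hsum_add (G G' : X → X → F4) :
    hsum (fun x y => G x y + G' x y) = hsum G + hsum G' := by
  simp [hsum, Finset.sum_add_distrib]

theorem hsum_mul (c : F4) (G : X → X → F4) : hsum (fun x y => c * G x y) = c * hsum G := by
  simp [hsum, Finset.mul_sum]

lemma Z1_out (G : X → X → F4) (hG : ∀ x y, G x y = G y x) (s : Sym2 X) :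
    G (Quot.out s).1 (Quot.out s).2 = Sym2.lift ⟨G, hG⟩ s := by
  conv_rhs => rw [← Quot.out_eq s]
  rfl

lemma Z1_hsum (G : X → X → F4) (hG : ∀ x y, G x y = G y x) :
    hsum G = ∑ s : Sym2 X, Sym2.lift ⟨G, hG⟩ s :=
  Finset.sum_congr rfl fun s _ => Z1_out G hG s

/-- Invariance under a bijection. -/
theorem hsum_equiv (e : X ≃ Y) (G : Y → Y → F4) (hG : ∀ x y, G x y = G y x) :
    hsum (fun x y => G (e x) (e y)) = hsum G := by
  rw [Z1_hsum G hG, Z1_hsum (fun x y => G (e x) (e y)) (fun x y => hG _ _)]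
  refine Finset.sum_bij' (fun s _ => Sym2.map e s) (fun s _ => Sym2.map e.symm s)
    (fun _ _ => Finset.mem_univ _) (fun _ _ => Finset.mem_univ _) ?_ ?_ ?_
  · intro s _; rw [Sym2.map_map]; simp
  · intro s _; rw [Sym2.map_map]; simp
  · intro s _
    induction s using Sym2.ind with
    | _ x y => rfl

/-- The full sum over ordered pairs off the diagonal, in terms of `Sym2`. -/
theorem hsum_symm (G : X → X → F4) :
    hsum (fun x y => G x y + G y x) = ∑ x, ∑ y, if x = y then 0 else G x y := by
  rw [Z1_hsum _ (fun x y => add_comm _ _)]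
  rw [← Finset.sum_product', Finset.univ_product_univ]
  -- fibrewise
  rw [← Finset.sum_fiberwise_of_maps_to (g := fun p : X × X => s(p.1, p.2)) (t := Finset.univ)
    (fun _ _ => Finset.mem_univ _)]
  refine Finset.sum_congr rfl fun s _ => ?_
  induction s using Sym2.ind with
  | _ x y =>
    simp only [Sym2.lift_mk]
    by_cases hxy : x = y
    · subst hxy
      rw [F4.add_self]
      symm
      refine Finset.sum_eq_zero fun p hp => ?_
      rw [Finset.mem_filter] at hp
      have h := hp.2
      rw [Sym2.eq_iff] at h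
      rcases h with ⟨h1, h2⟩ | ⟨h1, h2⟩ <;> rw [h1, h2] <;> simp
    · have hf : Finset.filter (fun p : X × X => s(p.1, p.2) = s(x, y)) Finset.univ =
          {(x, y), (y, x)} := by
        ext ⟨a, b⟩
        simp
      rw [hf, Finset.sum_pair (by simp [hxy])]
      simp [hxy, Ne.symm hxy]

theorem hsum_congr_offdiag (G G' : X → X → F4) (h : ∀ x y, x ≠ y → G x y = G' x y)
    (h0 : ∀ x, G x x = 0) (h0' : ∀ x, G' x x = 0) : hsum G = hsum G' := by
  refine Finset.sum_congr rfl fun s _ => ?_
  by_cases hxy : (Quot.out s).1 = (Quot.out s).2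
  · rw [hxy, h0, h0']
  · exact h _ _ hxy

/-- Push-forward: if `G` is symmetric and vanishes on the fibres of `β`, the half sum of `G` is the
half sum of its push-forward. -/
theorem hsum_push (β : X → Y) (G : X → X → F4) (hG : ∀ x y, G x y = G y x)
    (h0 : ∀ x y, β x = β y → G x y = 0) :
    hsum G = hsum (fun p q => ∑ x, ∑ y, if β x = p ∧ β y = q then G x y else 0) := by
  have hS : ∀ p q, (∑ x, ∑ y, if β x = p ∧ β y = q then G x y else 0) =
      ∑ x, ∑ y, if β x = q ∧ β y = p then G x y else 0 := by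
    intro p q
    rw [Finset.sum_comm]
    refine Finset.sum_congr rfl fun y _ => Finset.sum_congr rfl fun x _ => ?_
    rw [hG x y]
    by_cases h1 : β x = p <;> by_cases h2 : β y = q <;> simp [h1, h2]
  rw [Z1_hsum G hG, Z1_hsum _ hS]
  rw [← Finset.sum_fiberwise_of_maps_to (g := fun s : Sym2 X => Sym2.map β s)
    (t := Finset.univ) (fun _ _ => Finset.mem_univ _)]
  refine Finset.sum_congr rfl fun s _ => ?_
  induction s using Sym2.ind with
  | _ p q =>
    simp only [Sym2.lift_mk]
    by_cases hpq : p = q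
    · subst hpq
      rw [Finset.sum_eq_zero, Finset.sum_eq_zero]
      · intro x _
        refine Finset.sum_eq_zero fun y _ => ?_
        by_cases h : β x = p ∧ β y = p
        · rw [if_pos h, h0 x y (h.1.trans h.2.symm)]
        · rw [if_neg h]
      · intro s hs
        rw [Finset.mem_filter] at hs
        induction s using Sym2.ind with
        | _ x y =>
          have h := hs.2
          rw [Sym2.map_mk, Sym2.eq_iff] at h
          rw [Sym2.lift_mk]
          apply h0
          rcases h with ⟨h1, h2⟩ | ⟨h1, h2⟩ <;> rw [h1, h2]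
    · -- bijection between unordered pairs over {p,q} and ordered pairs over (p,q)
      rw [← Finset.sum_product', Finset.univ_product_univ, ← Finset.sum_filter]
      symm
      refine Finset.sum_bij (fun (a : X × X) _ => s(a.1, a.2)) ?_ ?_ ?_ ?_
      · intro a ha
        rw [Finset.mem_filter] at ha ⊢
        refine ⟨Finset.mem_univ _, ?_⟩
        rw [Sym2.map_mk, ha.2.1, ha.2.2]
      · intro a ha b hb hab
        rw [Finset.mem_filter] at ha hb
        rw [Sym2.eq_iff] at hab
        rcases hab with ⟨h1, h2⟩ | ⟨h1, h2⟩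
        · exact Prod.ext h1 h2
        · exfalso
          apply hpq
          rw [← ha.2.1, ← hb.2.2, h1]
      · intro s hs
        rw [Finset.mem_filter] at hs
        induction s using Sym2.ind with
        | _ x y =>
          have h := hs.2
          rw [Sym2.map_mk, Sym2.eq_iff] at h
          rcases h with ⟨h1, h2⟩ | ⟨h1, h2⟩
          · exact ⟨(x, y), by simp [h1, h2], rfl⟩
          · exact ⟨(y, x), by simp [h1, h2], Sym2.eq_swap⟩
      · intro a _
        rfl

end hs

variable {ι : Type} [Fintype ι] [DecidableEq ι]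

/-- The constraint `c(x,y) + c(y,x) = S_x S_y` for `x ≠ y`. -/
def IsNN {W : Type} [AddCommGroup W] (S : LW W) (c : W → W → ZMod 2) : Prop :=
  ∀ x y, x ≠ y → c x y + c y x = S.coeff x * S.coeff y

lemma Z1_neg {W : Type} [AddCommGroup W] (h2 : ∀ x : W, x + x = 0) (x : W) : -x = x := by
  rw [neg_eq_iff_add_eq_zero]; exact h2 x

theorem ngHom_w {W : Type} [AddCommGroup W] (h2 : ∀ x : W, x + x = 0)
    (β : (ι → ZMod 2) →+ W) (σ : ι → LW W × (W → W → ZMod 2)) (w : FreeGroup ι) :
    (ngHom β σ w).w = β (bar w) := by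
  induction w using FreeGroup.induction_on with
  | C1 => simp
  | of a => simp [ngHom]
  | inv_of a ih => rw [map_inv, NG.inv_w, ih, bar_inv, Z1_neg h2]
  | mul x y hx hy => rw [map_mul, NG.mul_w, hx, hy, bar_mul, map_add]

/-- The `S`-component of the image of `w` is `∑_a β(∂_a w) S_a`. -/
theorem ngHom_S {W : Type} [AddCommGroup W] (h2 : ∀ x : W, x + x = 0)
    (β : (ι → ZMod 2) →+ W) (σ : ι → LW W × (W → W → ZMod 2)) (w : FreeGroup ι) :
    (ngHom β σ w).S = ∑ a, AddMonoidAlgebra.mapDomainRingHom (ZMod 2) β (dd w a) * (σ a).1 := by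
  have hbr : ∀ u : ι → ZMod 2, AddMonoidAlgebra.mapDomainRingHom (ZMod 2) β (br u) =
      AddMonoidAlgebra.single (β u) 1 := by
    intro u; simp [br]
  induction w using FreeGroup.induction_on with
  | C1 => simp
  | of a =>
    rw [dd_of, Finset.sum_eq_single a]
    · simp [ngHom]
    · intro b _ hb
      rw [Pi.single_eq_of_ne hb, map_zero, zero_mul]
    · intro h; exact absurd (Finset.mem_univ a) h
  | inv_of a ih =>
    rw [map_inv, NG.inv_S, ih, ngHom_w h2, Z1_neg h2, NG.sh, Finset.mul_sum]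
    refine Finset.sum_congr rfl fun b _ => ?_
    rw [dd_inv, map_mul, hbr, mul_assoc]
  | mul x y hx hy =>
    rw [map_mul, NG.mul_S, hx, hy, ngHom_w h2, NG.sh, Finset.mul_sum, ← Finset.sum_add_distrib]
    refine Finset.sum_congr rfl fun b _ => ?_
    rw [dd_mul, map_add, map_mul, hbr, add_mul, mul_assoc]

lemma Z1_IsNN_mul {W : Type} [AddCommGroup W] (a b : NG W) (ha : IsNN a.S a.c)
    (hb : IsNN b.S b.c) : IsNN (a * b).S (a * b).c := by
  intro x y hxy
  have h1 := ha x y hxy
  have h3 := hb (x - a.w) (y - a.w) (fun h => hxy (sub_left_injective h))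
  simp only [NG.mul_c, NG.mul_S, AddMonoidAlgebra.coeff_add, Finsupp.add_apply, NG.sh_coeff]
  linear_combination h1 + h3

lemma Z1_IsNN_inv {W : Type} [AddCommGroup W] (a : NG W) (ha : IsNN a.S a.c) :
    IsNN (a⁻¹).S (a⁻¹).c := by
  intro x y hxy
  have h1 := ha (x + a.w) (y + a.w) (fun h => hxy (add_left_injective a.w h))
  simp only [NG.inv_c, NG.inv_S, NG.sh_coeff, sub_neg_eq_add]
  have h4 := zmod2_add_self (a.S.coeff (x + a.w) * a.S.coeff (y + a.w))
  linear_combination h1 + h4

theorem ngHom_IsNN {W : Type} [AddCommGroup W] (h2 : ∀ x : W, x + x = 0)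
    (β : (ι → ZMod 2) →+ W) (σ : ι → LW W × (W → W → ZMod 2)) (hσ : ∀ a, IsNN (σ a).1 (σ a).2)
    (w : FreeGroup ι) : IsNN (ngHom β σ w).S (ngHom β σ w).c := by
  induction w using FreeGroup.induction_on with
  | C1 => intro x y _; simp
  | of a =>
    have : ngHom β σ (FreeGroup.of a) = ⟨(σ a).1, (σ a).2, β (Pi.single a 1)⟩ := by
      simp [ngHom]
    rw [this]; exact hσ a
  | inv_of a ih => rw [map_inv]; exact Z1_IsNN_inv _ ih
  | mul x y hx hy => rw [map_mul]; exact Z1_IsNN_mul _ _ hx hy

lemma Z1_S_zero {W : Type} [AddCommGroup W] (h2 : ∀ x : W, x + x = 0)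
    (β : (ι → ZMod 2) →+ W) (σ : ι → LW W × (W → W → ZMod 2)) (w : FreeGroup ι)
    (hw : dd w = 0) : (ngHom β σ w).S = 0 := by
  rw [ngHom_S h2, hw]; simp

theorem za_mul (a : ι) (f : (ι → ZMod 2) → F4) (v w : FreeGroup ι) (hv : bar v = 0)
    (hv' : dd v = 0) (hw : bar w = 0) (hw' : dd w = 0) :
    za a f (v * w) = za a f v + za a f w := by
  unfold za
  rw [← hsum_add]
  congr 1
  funext x y
  rw [map_mul, NG.mul_c, ngHom_w u_add_self, Z1_S_zero u_add_self _ _ v hv', hv, map_zero,
    sub_zero, sub_zero]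
  simp only [AddMonoidAlgebra.coeff_zero, Finsupp.coe_zero, Pi.zero_apply, zero_mul, add_zero,
    map_add]
  ring

theorem za_conj (a : ι) (f : (ι → ZMod 2) → F4) (t w : FreeGroup ι) (hw : bar w = 0)
    (hw' : dd w = 0) : za a f (t * w * t⁻¹) = za a f w := by
  unfold za
  set φ := ngHom (AddMonoidHom.id (ι → ZMod 2))
    (fun b => ((if b = a then 1 else 0 : LW (ι → ZMod 2)), fun _ _ => (0 : ZMod 2))) with hφ
  have hBS : (φ w).S = 0 := Z1_S_zero u_add_self _ _ w hw'
  have hBw : (φ w).w = 0 := by rw [hφ, ngHom_w u_add_self, hw, map_zero]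
  have hNN : IsNN (φ w).S (φ w).c := by
    refine ngHom_IsNN u_add_self _ _ (fun b x y hxy => ?_) w
    by_cases hb : b = a
    · simp only [hb, if_true, add_zero]
      have : (1 : LW (ι → ZMod 2)) = AddMonoidAlgebra.single 0 1 := rfl
      rw [this]
      simp only [AddMonoidAlgebra.coeff_single, Finsupp.single_apply]
      by_cases hx : (0 : ι → ZMod 2) = x
      · have hy : ¬ (0 : ι → ZMod 2) = y := fun h => hxy (hx.symm.trans h)
        simp [hy]
      · simp [hx]
    · simp [hb]
  have hsym : ∀ x y, (φ w).c x y = (φ w).c y x := by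
    intro x y
    by_cases hxy : x = y
    · rw [hxy]
    · have h := hNN x y hxy
      rw [hBS] at h
      simp only [AddMonoidAlgebra.coeff_zero, Finsupp.coe_zero, Pi.zero_apply, zero_mul] at h
      have h5 := zmod2_add_self ((φ w).c y x)
      linear_combination h - h5
  have hc : ∀ x y, (φ (t * w * t⁻¹)).c x y = (φ w).c (x - (φ t).w) (y - (φ t).w) := by
    intro x y
    rw [map_mul, map_mul, map_inv]
    simp only [NG.mul_c, NG.mul_S, NG.mul_w, NG.inv_c, NG.inv_S, hBS, hBw, NG.sh_coeff, add_zero,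
      sub_add_cancel, sub_neg_eq_add]
    have hz : NG.sh (φ t).w (0 : LW (ι → ZMod 2)) = 0 := by simp [NG.sh]
    rw [hz, add_zero]
    simp only [AddMonoidAlgebra.coeff_zero, Finsupp.coe_zero, Pi.zero_apply, mul_zero, add_zero]
    have h6 := zmod2_add_self ((φ t).c x y)
    have h7 := zmod2_add_self ((φ t).S.coeff x * (φ t).S.coeff y)
    linear_combination h6 + h7
  have h8 := hsum_equiv (Equiv.subRight (φ t).w)
    (fun x y => f (x + y) * F4.c2 ((φ w).c x y))
    (fun x y => by rw [add_comm x y, hsym x y])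
  rw [← h8]
  congr 1
  funext x y
  rw [hc x y]
  simp only [Equiv.subRight_apply]
  have h9 : x - (φ t).w + (y - (φ t).w) = x + y := by
    have : x - (φ t).w + (y - (φ t).w) = x + y - ((φ t).w + (φ t).w) := by abel
    rw [this, u_add_self, sub_zero]
  rw [h9]

theorem za_add (a : ι) (f f' : (ι → ZMod 2) → F4) (w : FreeGroup ι) :
    za a (fun u => f u + f' u) w = za a f w + za a f' w := by
  unfold za
  rw [← hsum_add]
  congr 1
  funext x y
  ring

theorem za_smul (a : ι) (c : F4) (f : (ι → ZMod 2) → F4) (w : FreeGroup ι) :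
    za a (fun u => c * f u) w = c * za a f w := by
  unfold za
  rw [← hsum_mul]
  congr 1
  funext x y
  ring

/-- `F₂`-valued test functions give `F₂`-valued invariants. -/
theorem za_F2 (a : ι) (f : (ι → ZMod 2) → F4) (hf : ∀ u, ∃ b : ZMod 2, f u = F4.c2 b)
    (w : FreeGroup ι) : ∃ b : ZMod 2, za a f w = F4.c2 b := by
  choose g hg using hf
  refine ⟨∑ s : Sym2 (ι → ZMod 2), g ((Quot.out s).1 + (Quot.out s).2) *
    ((ngHom (AddMonoidHom.id (ι → ZMod 2))
      (fun b => (if b = a then 1 else 0, fun _ _ => 0)) w).c (Quot.out s).1 (Quot.out s).2), ?_⟩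
  unfold za hsum
  rw [map_sum]
  refine Finset.sum_congr rfl fun s _ => ?_
  simp only [map_mul, ← hg]

end Pool.Agent.OH
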