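import Pool.Agent.OH.Z1
import Pool.Agent.OH.F2

set_option autoImplicit false
set_option linter.unusedSectionVars false

namespace Pool.Agent.OH

/-- Augmentation. -/
noncomputable def aug {W : Type} [AddCommGroup W] [Fintype W] (S : LW W) : ZMod 2 :=
  ∑ x, S.coeff x

section Z2a
variable {W : Type} [AddCommGroup W] [Fintype W] [DecidableEq W]

lemma Z2aug_add (S T : LW W) : aug (S + T) = aug S + aug T := by
  unfold aug
  rw [← Finset.sum_add_distrib]
  rfl

lemma Z2aug_zero : aug (0 : LW W) = 0 := by simp [aug]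

lemma Z2aug_single (u : W) : aug (AddMonoidAlgebra.single u 1 : LW W) = 1 := by
  unfold aug
  rw [Finset.sum_eq_single u]
  · simp
  · intro b _ hb
    simp [AddMonoidAlgebra.coeff_single, hb.symm]
  · simp

/-- `ftil` as an additive hom. -/
noncomputable def Z2fh (f : W → F4) : LW W →+ F4 where
  toFun := ftil f
  map_zero' := by simp [ftil]
  map_add' S T := by
    unfold ftil
    rw [← Finset.sum_add_distrib]
    refine Finset.sum_congr rfl fun x _ => ?_
    rw [AddMonoidAlgebra.coeff_add, Finsupp.add_apply, map_add, add_mul]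

lemma Z2fh_apply (f : W → F4) (S : LW W) : Z2fh f S = ftil f S := rfl

lemma Z2ftil_single (f : W → F4) (p : W) (r : ZMod 2) :
    ftil f (AddMonoidAlgebra.single p r) = F4.c2 r * f p := by
  unfold ftil
  rw [Finset.sum_eq_single p]
  · simp
  · intro b _ hb
    simp [AddMonoidAlgebra.coeff_single, hb.symm]
  · simp

lemma Z2ftil_mul (f : W → F4) (S T : LW W) :
    ftil f (S * T) = ∑ p, ∑ q, f (p + q) * F4.c2 (S.coeff p * T.coeff q) := by
  induction S using AddMonoidAlgebra.induction_linear with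
  | zero => simp [ftil]
  | add x y hx hy =>
    rw [add_mul, ← Z2fh_apply, map_add, Z2fh_apply, Z2fh_apply, hx, hy, ← Finset.sum_add_distrib]
    refine Finset.sum_congr rfl fun p _ => ?_
    rw [← Finset.sum_add_distrib]
    refine Finset.sum_congr rfl fun q _ => ?_
    rw [AddMonoidAlgebra.coeff_add, Finsupp.add_apply, add_mul, map_add, mul_add]
  | single p r =>
    induction T using AddMonoidAlgebra.induction_linear with
    | zero => simp [ftil]
    | add x y hx hy =>
      rw [mul_add, ← Z2fh_apply, map_add, Z2fh_apply, Z2fh_apply, hx, hy, ← Finset.sum_add_distrib]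
      refine Finset.sum_congr rfl fun p _ => ?_
      rw [← Finset.sum_add_distrib]
      refine Finset.sum_congr rfl fun q _ => ?_
      rw [AddMonoidAlgebra.coeff_add, Finsupp.add_apply, mul_add, map_add, mul_add]
    | single q t =>
      rw [AddMonoidAlgebra.single_mul_single, Z2ftil_single, Finset.sum_eq_single p,
        Finset.sum_eq_single q]
      · simp [mul_comm]
      · intro b _ hb
        simp [AddMonoidAlgebra.coeff_single, hb.symm]
      · simp
      · intro b _ hb
        refine Finset.sum_eq_zero fun q' _ => ?_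
        simp [AddMonoidAlgebra.coeff_single, hb.symm]
      · simp

/-- the half sum of `f(x+y) c(x,y)`. -/
noncomputable def Z2V (f : W → F4) (c : W → W → ZMod 2) : F4 :=
  hsum (fun x y => f (x + y) * F4.c2 (c x y))

lemma Z2V_add (f : W → F4) (c c' : W → W → ZMod 2) :
    Z2V f (fun x y => c x y + c' x y) = Z2V f c + Z2V f c' := by
  unfold Z2V
  rw [← hsum_add]
  congr 1
  funext x y
  rw [map_add, mul_add]

lemma Z2V_zero (f : W → F4) : Z2V f (fun _ _ => 0) = 0 := by
  have h := Z2V_add f (fun _ _ => 0) (fun _ _ => 0)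
  simp only [add_zero] at h
  exact left_eq_add.1 h

lemma Z2V_symm (f : W → F4) (c : W → W → ZMod 2)
    (hc : ∀ x y, x ≠ y → c x y = c y x) (x y : W) :
    f (x + y) * F4.c2 (c x y) = f (y + x) * F4.c2 (c y x) := by
  by_cases h : x = y
  · subst h; rfl
  · rw [hc x y h, add_comm x y]

lemma Z2V_shift (h2 : ∀ x : W, x + x = 0) (f : W → F4) (c : W → W → ZMod 2)
    (hc : ∀ x y, x ≠ y → c x y = c y x) (u : W) :
    Z2V f (fun x y => c (x - u) (y - u)) = Z2V f c := by
  have h := hsum_equiv (Equiv.subRight u) (fun x y => f (x + y) * F4.c2 (c x y))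
    (Z2V_symm f c hc)
  unfold Z2V
  rw [← h]
  congr 1
  funext x y
  have e : (Equiv.subRight u) x + (Equiv.subRight u) y = x + y := by
    show (x - u) + (y - u) = x + y
    have : (x - u) + (y - u) = x + y - (u + u) := by abel
    rw [this, h2, sub_zero]
  rw [e]
  rfl

lemma Z2cross (h2 : ∀ x : W, x + x = 0) (f : W → F4) (hf : f 0 = 0) (S T : LW W) :
    Z2V f (fun p q => S.coeff p * T.coeff q + T.coeff p * S.coeff q) = ftil f (S * T) := by
  have h := hsum_symm (fun p q => f (p + q) * F4.c2 (S.coeff p * T.coeff q))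
  unfold Z2V
  rw [Z2ftil_mul]
  have e : (fun p q => f (p + q) * F4.c2 (S.coeff p * T.coeff q + T.coeff p * S.coeff q)) =
      fun p q => f (p + q) * F4.c2 (S.coeff p * T.coeff q) +
        f (q + p) * F4.c2 (S.coeff q * T.coeff p) := by
    funext p q
    rw [map_add, mul_add, add_comm q p, mul_comm (T.coeff p)]
  rw [e, h]
  refine Finset.sum_congr rfl fun p _ => Finset.sum_congr rfl fun q _ => ?_
  split_ifs with hpq
  · rw [hpq, h2, hf, zero_mul]
  · rfl

/-- the product of the group `NN`. -/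
noncomputable def Z2nn (P Q : LW W × (W → W → ZMod 2)) : LW W × (W → W → ZMod 2) :=
  (P.1 + Q.1, fun x y => P.2 x y + Q.2 x y + P.1.coeff x * Q.1.coeff y)

lemma Z2nn_isNN {P Q : LW W × (W → W → ZMod 2)} (hP : IsNN P.1 P.2) (hQ : IsNN Q.1 Q.2) :
    IsNN (Z2nn P Q).1 (Z2nn P Q).2 := by
  intro x y hxy
  have h1 := hP x y hxy
  have h2 := hQ x y hxy
  show (P.2 x y + Q.2 x y + P.1.coeff x * Q.1.coeff y) +
    (P.2 y x + Q.2 y x + P.1.coeff y * Q.1.coeff x) = (P.1 + Q.1).coeff x * (P.1 + Q.1).coeff y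
  rw [AddMonoidAlgebra.coeff_add, Finsupp.add_apply, Finsupp.add_apply]
  linear_combination h1 + h2

end Z2a

section Z2b
variable {ι W : Type} [Fintype ι] [DecidableEq ι] [AddCommGroup W] [Fintype W] [DecidableEq W]

/-- the ring hom induced by `β`. -/
noncomputable abbrev Z2b (β : (ι → ZMod 2) →+ W) : Lam ι →+* LW W :=
  AddMonoidAlgebra.mapDomainRingHom (ZMod 2) β

lemma Z2b_br (β : (ι → ZMod 2) →+ W) (u : ι → ZMod 2) :
    Z2b β (br u) = AddMonoidAlgebra.single (β u) 1 := by
  simp [Z2b, br]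

/-- the defect of multiplicativity in the family. -/
noncomputable def Z2r (β : (ι → ZMod 2) →+ W) (σ σ' : ι → LW W × (W → W → ZMod 2))
    (x : FreeGroup ι) (p q : W) : ZMod 2 :=
  (ngHom β (fun a => Z2nn (σ a) (σ' a)) x).c p q + (ngHom β σ x).c p q + (ngHom β σ' x).c p q +
    (ngHom β σ x).S.coeff p * (ngHom β σ' x).S.coeff q

lemma Z2S_add (h2 : ∀ x : W, x + x = 0) (β : (ι → ZMod 2) →+ W)
    (σ σ' : ι → LW W × (W → W → ZMod 2)) (x : FreeGroup ι) :
    (ngHom β (fun a => Z2nn (σ a) (σ' a)) x).S = (ngHom β σ x).S + (ngHom β σ' x).S := by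
  rw [ngHom_S h2, ngHom_S h2, ngHom_S h2, ← Finset.sum_add_distrib]
  refine Finset.sum_congr rfl fun a _ => ?_
  rw [← mul_add]
  rfl

lemma Z2r_mul (h2 : ∀ x : W, x + x = 0) (β : (ι → ZMod 2) →+ W)
    (σ σ' : ι → LW W × (W → W → ZMod 2)) (x y : FreeGroup ι) (p q : W) :
    Z2r β σ σ' (x * y) p q = Z2r β σ σ' x p q +
      Z2r β σ σ' y (p - β (bar x)) (q - β (bar x)) +
      ((ngHom β σ' x).S.coeff p * (NG.sh (β (bar x)) (ngHom β σ y).S).coeff q +
        (NG.sh (β (bar x)) (ngHom β σ y).S).coeff p * (ngHom β σ' x).S.coeff q) := by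
  have h20 : (2 : ZMod 2) = 0 := rfl
  unfold Z2r
  rw [map_mul, map_mul, map_mul, NG.mul_c, NG.mul_c, NG.mul_c, NG.mul_S, NG.mul_S,
    ngHom_w h2, ngHom_w h2, ngHom_w h2, Z2S_add h2, Z2S_add h2]
  simp only [AddMonoidAlgebra.coeff_add, Finsupp.add_apply, NG.sh_coeff]
  linear_combination ((ngHom β σ x).S.coeff p * (ngHom β σ y).S.coeff (q - β (bar x)) +
    (ngHom β σ' x).S.coeff p * (ngHom β σ' y).S.coeff (q - β (bar x)) +
    (ngHom β σ x).S.coeff p * (ngHom β σ' y).S.coeff (q - β (bar x))) * h20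

lemma Z2r_symm (h2 : ∀ x : W, x + x = 0) (β : (ι → ZMod 2) →+ W)
    (σ σ' : ι → LW W × (W → W → ZMod 2)) (hσ : ∀ a, IsNN (σ a).1 (σ a).2)
    (hσ' : ∀ a, IsNN (σ' a).1 (σ' a).2) (x : FreeGroup ι) (p q : W) (hpq : p ≠ q) :
    Z2r β σ σ' x p q = Z2r β σ σ' x q p := by
  have h20 : (2 : ZMod 2) = 0 := rfl
  have e1 := ngHom_IsNN h2 β σ hσ x p q hpq
  have e2 := ngHom_IsNN h2 β σ' hσ' x p q hpq
  have e3 := ngHom_IsNN h2 β (fun a => Z2nn (σ a) (σ' a))
    (fun a => Z2nn_isNN (hσ a) (hσ' a)) x p q hpq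
  rw [Z2S_add h2, AddMonoidAlgebra.coeff_add, Finsupp.add_apply, Finsupp.add_apply] at e3
  unfold Z2r
  linear_combination e1 + e2 + e3 - ((ngHom β (fun a => Z2nn (σ a) (σ' a)) x).c q p +
    (ngHom β σ x).c q p + (ngHom β σ' x).c q p - (ngHom β σ x).S.coeff p * (ngHom β σ x).S.coeff q
    - (ngHom β σ' x).S.coeff p * (ngHom β σ' x).S.coeff q
    - (ngHom β σ x).S.coeff p * (ngHom β σ' x).S.coeff q) * h20

/-- the quadratic part. -/
noncomputable def Z2Psi (β : (ι → ZMod 2) →+ W) (f : W → F4)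
    (σ σ' : ι → LW W × (W → W → ZMod 2)) (x : FreeGroup ι) : F4 :=
  ∑ a, ∑ b, ftil f (Z2b β (BB x a b) * ((σ' a).1 * (σ b).1))

lemma Z2Psi_mul (h2 : ∀ x : W, x + x = 0) (β : (ι → ZMod 2) →+ W) (f : W → F4)
    (σ σ' : ι → LW W × (W → W → ZMod 2)) (x y : FreeGroup ι) :
    Z2Psi β f σ σ' (x * y) = Z2Psi β f σ σ' x + Z2Psi β f σ σ' y +
      ftil f ((ngHom β σ' x).S * NG.sh (β (bar x)) (ngHom β σ y).S) := by
  have e : (ngHom β σ' x).S * NG.sh (β (bar x)) (ngHom β σ y).S =
      ∑ a, ∑ b, Z2b β (dd x a * (br (bar x) * dd y b)) * ((σ' a).1 * (σ b).1) := by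
    rw [ngHom_S h2, ngHom_S h2, NG.sh, ← Z2b_br β (bar x), Finset.mul_sum, Finset.sum_mul_sum]
    refine Finset.sum_congr rfl fun a _ => Finset.sum_congr rfl fun b _ => ?_
    rw [map_mul, map_mul]
    ring
  rw [e, ← Z2fh_apply, map_sum]
  unfold Z2Psi
  rw [← Finset.sum_add_distrib, ← Finset.sum_add_distrib]
  refine Finset.sum_congr rfl fun a _ => ?_
  rw [map_sum, ← Finset.sum_add_distrib, ← Finset.sum_add_distrib]
  refine Finset.sum_congr rfl fun b _ => ?_
  rw [BB_mul, map_add, map_add, add_mul, add_mul, ← Z2fh_apply, map_add, map_add]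
  rfl

lemma Z2main (h2 : ∀ x : W, x + x = 0) (β : (ι → ZMod 2) →+ W) (f : W → F4) (hf : f 0 = 0)
    (σ σ' : ι → LW W × (W → W → ZMod 2)) (hσ : ∀ a, IsNN (σ a).1 (σ a).2)
    (hσ' : ∀ a, IsNN (σ' a).1 (σ' a).2) (x : FreeGroup ι) :
    Z2V f (Z2r β σ σ' x) = Z2Psi β f σ σ' x := by
  have hmul : ∀ x y, Z2V f (Z2r β σ σ' (x * y)) = Z2V f (Z2r β σ σ' x) + Z2V f (Z2r β σ σ' y) +
      ftil f ((ngHom β σ' x).S * NG.sh (β (bar x)) (ngHom β σ y).S) := by
    intro x y
    have e : Z2r β σ σ' (x * y) = fun p q => (Z2r β σ σ' x p q +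
      Z2r β σ σ' y (p - β (bar x)) (q - β (bar x))) +
      ((ngHom β σ' x).S.coeff p * (NG.sh (β (bar x)) (ngHom β σ y).S).coeff q +
        (NG.sh (β (bar x)) (ngHom β σ y).S).coeff p * (ngHom β σ' x).S.coeff q) := by
      funext p q; exact Z2r_mul h2 β σ σ' x y p q
    rw [e, Z2V_add, Z2V_add, Z2cross h2 f hf,
      Z2V_shift h2 f (Z2r β σ σ' y) (Z2r_symm h2 β σ σ' hσ hσ' y)]
  let D : FreeGroup ι →* Multiplicative F4 :=
    { toFun := fun x => Multiplicative.ofAdd (Z2V f (Z2r β σ σ' x) + Z2Psi β f σ σ' x)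
      map_one' := by
        have h1 := hmul 1 1
        have h3 := Z2Psi_mul h2 β f σ σ' 1 1
        rw [mul_one] at h1 h3
        have h4 : ftil f ((ngHom β σ' 1).S * NG.sh (β (bar 1)) (ngHom β σ 1).S) = 0 := by
          rw [map_one, NG.one_S, zero_mul]; simp [ftil]
        rw [h4, add_zero] at h1 h3
        have h5 : Z2V f (Z2r β σ σ' 1) = 0 := left_eq_add.1 h1
        have h6 : Z2Psi β f σ σ' 1 = 0 := left_eq_add.1 h3
        rw [h5, h6, add_zero]; rfl
      map_mul' := by
        intro x y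
        rw [hmul, Z2Psi_mul h2, ← ofAdd_add]
        congr 1
        have h7 := F4.add_self (ftil f ((ngHom β σ' x).S * NG.sh (β (bar x)) (ngHom β σ y).S))
        linear_combination h7 }
  have hD : D = 1 := by
    refine FreeGroup.ext_hom _ _ fun a => ?_
    show Z2V f (Z2r β σ σ' (FreeGroup.of a)) + Z2Psi β f σ σ' (FreeGroup.of a) = 0
    have e1 : Z2r β σ σ' (FreeGroup.of a) = fun _ _ => 0 := by
      funext p q
      have h20 : (2 : ZMod 2) = 0 := rfl
      simp only [Z2r, ngHom, FreeGroup.lift_apply_of, Z2nn]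
      linear_combination ((σ a).2 p q + (σ' a).2 p q + (σ a).1.coeff p * (σ' a).1.coeff q) * h20
    have e2 : Z2Psi β f σ σ' (FreeGroup.of a) = 0 := by
      simp [Z2Psi, ftil]
    rw [e1, e2, Z2V_zero, add_zero]
  have hx : D x = 1 := by rw [hD]; rfl
  have hx' : Z2V f (Z2r β σ σ' x) + Z2Psi β f σ σ' x = 0 := hx
  have h8 := F4.add_self (Z2Psi β f σ σ' x)
  linear_combination hx' - h8

/-- the statement of Lemma 1.1 for one family. -/
def Z2P (β : (ι → ZMod 2) →+ W) (f : W → F4) (w : FreeGroup ι)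
    (σ : ι → LW W × (W → W → ZMod 2)) : Prop :=
  Z2V f (ngHom β σ w).c = ∑ a, F4.c2 (aug (σ a).1) * za a (fun u => f (β u)) w +
    hsum (fun a b => ftil f (Z2b β (BB w a b) * ((σ a).1 * (σ b).1)))

lemma Z2P_mul (h2 : ∀ x : W, x + x = 0) (β : (ι → ZMod 2) →+ W) (f : W → F4) (hf : f 0 = 0)
    (w : FreeGroup ι) (hw : bar w = 0) (hw' : dd w = 0)
    (σ σ' : ι → LW W × (W → W → ZMod 2)) (hσ : ∀ a, IsNN (σ a).1 (σ a).2)
    (hσ' : ∀ a, IsNN (σ' a).1 (σ' a).2) (h : Z2P β f w σ) (h' : Z2P β f w σ') :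
    Z2P β f w (fun a => Z2nn (σ a) (σ' a)) := by
  have h20 : (2 : ZMod 2) = 0 := rfl
  unfold Z2P at *
  -- left side
  have hS : ∀ τ : ι → LW W × (W → W → ZMod 2), (ngHom β τ w).S = 0 := by
    intro τ
    rw [ngHom_S h2, hw']
    simp
  have e1 : (ngHom β (fun a => Z2nn (σ a) (σ' a)) w).c =
      fun p q => ((ngHom β σ w).c p q + (ngHom β σ' w).c p q) + Z2r β σ σ' w p q := by
    funext p q
    unfold Z2r
    rw [hS σ, hS σ']
    simp only [AddMonoidAlgebra.coeff_zero, Finsupp.coe_zero, Pi.zero_apply, mul_zero, add_zero]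
    linear_combination (-(ngHom β σ w).c p q - (ngHom β σ' w).c p q) * h20
  rw [e1, Z2V_add, Z2V_add, h, h', Z2main h2 β f hf σ σ' hσ hσ' w]
  -- right side
  have e2 : ∑ a, F4.c2 (aug (Z2nn (σ a) (σ' a)).1) * za a (fun u => f (β u)) w =
      ∑ a, F4.c2 (aug (σ a).1) * za a (fun u => f (β u)) w +
        ∑ a, F4.c2 (aug (σ' a).1) * za a (fun u => f (β u)) w := by
    rw [← Finset.sum_add_distrib]
    refine Finset.sum_congr rfl fun a _ => ?_
    show F4.c2 (aug ((σ a).1 + (σ' a).1)) * _ = _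
    rw [Z2aug_add, map_add, add_mul]
  have e3 : (fun a b => ftil f (Z2b β (BB w a b) *
      ((Z2nn (σ a) (σ' a)).1 * (Z2nn (σ b) (σ' b)).1))) = fun a b =>
      (ftil f (Z2b β (BB w a b) * ((σ a).1 * (σ b).1)) +
        ftil f (Z2b β (BB w a b) * ((σ' a).1 * (σ' b).1))) +
      (ftil f (Z2b β (BB w a b) * ((σ' a).1 * (σ b).1)) +
        ftil f (Z2b β (BB w b a) * ((σ' b).1 * (σ a).1))) := by
    funext a b
    rw [BB_T3_symm w hw hw' b a]
    show ftil f (Z2b β (BB w a b) * (((σ a).1 + (σ' a).1) * ((σ b).1 + (σ' b).1))) = _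
    have e4 : Z2b β (BB w a b) * (((σ a).1 + (σ' a).1) * ((σ b).1 + (σ' b).1)) =
        (Z2b β (BB w a b) * ((σ a).1 * (σ b).1) + Z2b β (BB w a b) * ((σ' a).1 * (σ' b).1)) +
        (Z2b β (BB w a b) * ((σ' a).1 * (σ b).1) + Z2b β (BB w a b) * ((σ' b).1 * (σ a).1)) := by
      ring
    rw [e4, ← Z2fh_apply, map_add, map_add, map_add]
    rfl
  have e5 : hsum (fun a b => ftil f (Z2b β (BB w a b) * ((σ' a).1 * (σ b).1)) +
        ftil f (Z2b β (BB w b a) * ((σ' b).1 * (σ a).1))) = Z2Psi β f σ σ' w := by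
    rw [hsum_symm (fun a b => ftil f (Z2b β (BB w a b) * ((σ' a).1 * (σ b).1)))]
    unfold Z2Psi
    refine Finset.sum_congr rfl fun a _ => Finset.sum_congr rfl fun b _ => ?_
    split_ifs with hab
    · rw [hab, BB_T3_diag w hw hw' b, map_zero, zero_mul]; simp [ftil]
    · rfl
  rw [e2, e3, hsum_add, hsum_add, e5]
  ring

/-- central families. -/
lemma Z2P_central (h2 : ∀ x : W, x + x = 0) (β : (ι → ZMod 2) →+ W) (f : W → F4)
    (w : FreeGroup ι) (hw : bar w = 0)
    (σ : ι → LW W × (W → W → ZMod 2)) (hσ : ∀ a, IsNN (σ a).1 (σ a).2)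
    (h0 : ∀ a, (σ a).1 = 0) : Z2P β f w σ := by
  unfold Z2P
  have hS : ∀ x, (ngHom β σ x).S = 0 := by
    intro x
    rw [ngHom_S h2]
    simp [h0]
  have hsym : ∀ x p q, p ≠ q → (ngHom β σ x).c p q = (ngHom β σ x).c q p := by
    intro x p q hpq
    have h := ngHom_IsNN h2 β σ hσ x p q hpq
    rw [hS] at h
    simp only [AddMonoidAlgebra.coeff_zero, Finsupp.coe_zero, Pi.zero_apply, mul_zero] at h
    have h3 := zmod2_add_self ((ngHom β σ x).c q p)
    linear_combination h - h3
  have hmul : ∀ x y, Z2V f (ngHom β σ (x * y)).c =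
      Z2V f (ngHom β σ x).c + Z2V f (ngHom β σ y).c := by
    intro x y
    have e : (ngHom β σ (x * y)).c = fun p q => (ngHom β σ x).c p q +
        (ngHom β σ y).c (p - β (bar x)) (q - β (bar x)) := by
      funext p q
      rw [map_mul, NG.mul_c, ngHom_w h2, hS x]
      simp
    rw [e, Z2V_add, Z2V_shift h2 f _ (hsym y)]
  let D : FreeGroup ι →* Multiplicative F4 :=
    { toFun := fun x => Multiplicative.ofAdd (Z2V f (ngHom β σ x).c)
      map_one' := by
        have h1 := hmul 1 1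
        rw [mul_one] at h1
        rw [left_eq_add.1 h1]; rfl
      map_mul' := by
        intro x y
        rw [hmul, ofAdd_add] }
  have hker : w ∈ D.ker := by
    refine (Subgroup.closure_le D.ker).2 ?_ (T2_closure w hw)
    rintro _ ⟨t, rfl⟩
    show D (t ^ 2) = 1
    rw [pow_two, map_mul]
    exact F4.add_self _
  have hw0 : Z2V f (ngHom β σ w).c = 0 := hker
  have e1 : ∑ a, F4.c2 (aug (σ a).1) * za a (fun u => f (β u)) w = 0 := by
    refine Finset.sum_eq_zero fun a _ => ?_
    rw [h0 a, Z2aug_zero, map_zero, zero_mul]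
  have e2 : (fun a b => ftil f (Z2b β (BB w a b) * ((σ a).1 * (σ b).1))) = fun _ _ => 0 * 0 := by
    funext a b
    rw [h0 a]
    simp [ftil]
  rw [hw0, e1, e2, hsum_mul]
  simp

lemma Z2push_coeff (β : (ι → ZMod 2) →+ W) (u : W) (S : Lam ι) (p : W) :
    (NG.sh u (Z2b β S)).coeff p = ∑ s, if β s + u = p then S.coeff s else 0 := by
  induction S using AddMonoidAlgebra.induction_linear with
  | zero => simp [NG.sh]
  | add x y hx hy =>
    rw [map_add, NG.sh_add, AddMonoidAlgebra.coeff_add, Finsupp.add_apply, hx, hy,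
      ← Finset.sum_add_distrib]
    refine Finset.sum_congr rfl fun s _ => ?_
    split_ifs <;> simp
  | single t r =>
    have e : NG.sh u (Z2b β (AddMonoidAlgebra.single t r)) =
        AddMonoidAlgebra.single (β t + u) r := by
      simp [NG.sh, Z2b, AddMonoidAlgebra.single_mul_single, add_comm]
    rw [e, Finset.sum_eq_single t]
    · by_cases h : β t + u = p
      · rw [if_pos h, h]; simp
      · rw [if_neg h]
        simp [AddMonoidAlgebra.coeff_single, h]
    · intro b _ hb
      simp [AddMonoidAlgebra.coeff_single, hb.symm]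
    · simp

/-- push-forward of the `c`-component. -/
noncomputable def Z2pc (β : (ι → ZMod 2) →+ W) (u : W) (c : (ι → ZMod 2) → (ι → ZMod 2) → ZMod 2)
    (p q : W) : ZMod 2 := ∑ s, ∑ t, if β s + u = p ∧ β t + u = q then c s t else 0

lemma Z2pc_add (β : (ι → ZMod 2) →+ W) (u : W) (c c' : (ι → ZMod 2) → (ι → ZMod 2) → ZMod 2)
    (p q : W) : Z2pc β u (fun s t => c s t + c' s t) p q = Z2pc β u c p q + Z2pc β u c' p q := by
  unfold Z2pc
  rw [← Finset.sum_add_distrib]
  refine Finset.sum_congr rfl fun s _ => ?_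
  rw [← Finset.sum_add_distrib]
  refine Finset.sum_congr rfl fun t _ => ?_
  split_ifs <;> simp

lemma Z2pc_shift (β : (ι → ZMod 2) →+ W) (u : W) (c : (ι → ZMod 2) → (ι → ZMod 2) → ZMod 2)
    (v : ι → ZMod 2) (p q : W) :
    Z2pc β u (fun s t => c (s - v) (t - v)) p q = Z2pc β u c (p - β v) (q - β v) := by
  unfold Z2pc
  rw [← Equiv.sum_comp (Equiv.addRight v)]
  refine Finset.sum_congr rfl fun s _ => ?_
  rw [← Equiv.sum_comp (Equiv.addRight v)]
  refine Finset.sum_congr rfl fun t _ => ?_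
  simp only [Equiv.coe_addRight, add_sub_cancel_right, map_add]
  have h1 : ∀ x y : W, (x + β v + u = y) = (x + u = y - β v) := by
    intro x y
    rw [eq_iff_iff, eq_sub_iff_add_eq]
    constructor <;> intro h <;> rw [← h] <;> abel
  simp only [h1]

lemma Z2pc_tensor (β : (ι → ZMod 2) →+ W) (u : W) (S T : Lam ι) (p q : W) :
    Z2pc β u (fun s t => S.coeff s * T.coeff t) p q =
      (NG.sh u (Z2b β S)).coeff p * (NG.sh u (Z2b β T)).coeff q := by
  rw [Z2push_coeff, Z2push_coeff, Finset.sum_mul_sum]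
  unfold Z2pc
  refine Finset.sum_congr rfl fun s _ => Finset.sum_congr rfl fun t _ => ?_
  by_cases h1 : β s + u = p <;> by_cases h3 : β t + u = q <;> simp [h1, h3]

lemma Z2b_sh (β : (ι → ZMod 2) →+ W) (v : ι → ZMod 2) (S : Lam ι) :
    Z2b β (NG.sh v S) = NG.sh (β v) (Z2b β S) := by
  unfold NG.sh
  rw [map_mul, ← Z2b_br]
  rfl

/-- the push-forward hom. -/
noncomputable def Z2PH (β : (ι → ZMod 2) →+ W) (u : W) : NG (ι → ZMod 2) →* NG W where
  toFun g := ⟨NG.sh u (Z2b β g.S), Z2pc β u g.c, β g.w⟩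
  map_one' := by
    ext1
    · simp [NG.sh]
    · funext p q
      simp [Z2pc]
    · simp
  map_mul' a b := by
    ext1
    · rw [NG.mul_S, NG.mul_S, map_add, NG.sh_add, Z2b_sh, NG.sh_sh, NG.sh_sh, add_comm u]
    · funext p q
      rw [NG.mul_c]
      have e : (a * b).c = fun s t => (a.c s t + b.c (s - a.w) (t - a.w)) +
          a.S.coeff s * (NG.sh a.w b.S).coeff t := by
        funext s t
        rw [NG.mul_c, NG.sh_coeff]
      show Z2pc β u (a * b).c p q = _
      rw [e, Z2pc_add, Z2pc_add, Z2pc_shift, Z2pc_tensor, Z2b_sh, NG.sh_sh, add_comm u,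
        ← NG.sh_sh, NG.sh_coeff (β a.w)]
    · show β (a * b).w = _
      rw [NG.mul_w, map_add]
      rfl

/-- the family `ν_u` at `a`. -/
noncomputable def Z2nu (a : ι) (u : W) : ι → LW W × (W → W → ZMod 2) :=
  fun b => (if b = a then AddMonoidAlgebra.single u 1 else 0, fun _ _ => 0)

lemma Z2nu_isNN (a : ι) (u : W) (b : ι) : IsNN (Z2nu (W := W) a u b).1 (Z2nu (W := W) a u b).2 := by
  intro x y hxy
  unfold Z2nu
  by_cases hb : b = a
  · simp only [hb, if_true]
    by_cases hx : u = x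
    · have hy : u ≠ y := fun h => hxy (hx.symm.trans h)
      simp [AddMonoidAlgebra.coeff_single, hy]
    · simp [AddMonoidAlgebra.coeff_single, hx]
  · simp [hb]

lemma Z2P_nu (h2 : ∀ x : W, x + x = 0) (β : (ι → ZMod 2) →+ W) (f : W → F4) (hf : f 0 = 0)
    (w : FreeGroup ι) (hw : bar w = 0) (hw' : dd w = 0) (a : ι) (u : W) :
    Z2P β f w (Z2nu a u) := by
  unfold Z2P
  set δ : ι → LW (ι → ZMod 2) × ((ι → ZMod 2) → (ι → ZMod 2) → ZMod 2) :=
    fun b => (if b = a then 1 else 0, fun _ _ => 0) with hδ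
  have hU : ∀ x : ι → ZMod 2, x + x = 0 := u_add_self
  have hhom : ngHom β (Z2nu a u) = (Z2PH β u).comp (ngHom (AddMonoidHom.id (ι → ZMod 2)) δ) := by
    refine FreeGroup.ext_hom _ _ fun b => ?_
    simp only [ngHom, FreeGroup.lift_apply_of, MonoidHom.comp_apply, Z2PH, MonoidHom.coe_mk,
      OneHom.coe_mk]
    ext1
    · simp only [Z2nu, hδ]
      by_cases hb : b = a
      · simp only [hb, if_true, map_one]
        simp [NG.sh]
      · simp [hb, NG.sh]
    · funext p q
      simp [Z2nu, hδ, Z2pc]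
    · rfl
  set c0 := (ngHom (AddMonoidHom.id (ι → ZMod 2)) δ w).c with hc0
  have hc : (ngHom β (Z2nu a u) w).c = Z2pc β u c0 := by
    rw [hhom]; rfl
  have hδNN : ∀ b, IsNN (δ b).1 (δ b).2 := by
    intro b
    have h := Z2nu_isNN (W := ι → ZMod 2) a 0 b
    have e : Z2nu (W := ι → ZMod 2) a 0 b = δ b := rfl
    rwa [e] at h
  have hsym : ∀ p q, p ≠ q → c0 p q = c0 q p := by
    intro p q hpq
    have h := ngHom_IsNN hU (AddMonoidHom.id (ι → ZMod 2)) δ hδNN w p q hpq
    rw [ngHom_S hU, hw'] at h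
    simp only [Pi.zero_apply, map_zero, zero_mul, Finset.sum_const_zero,
      AddMonoidAlgebra.coeff_zero, Finsupp.coe_zero] at h
    have h3 := zmod2_add_self (c0 q p)
    linear_combination h - h3
  have hsum1 : Z2V f (Z2pc β u c0) = za a (fun v => f (β v)) w := by
    have hG := hsum_push (fun s : ι → ZMod 2 => β s + u)
      (fun s t => f (β (s + t)) * F4.c2 (c0 s t))
      (Z2V_symm (fun v => f (β v)) c0 hsym)
      (by
        intro s t hst
        have h4 : β s = β t := add_right_cancel hst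
        have h5 : β (s + t) = 0 := by rw [map_add, h4, h2]
        simp only [h5, hf, zero_mul])
    have e6 : za a (fun v => f (β v)) w = hsum (fun s t => f (β (s + t)) * F4.c2 (c0 s t)) := rfl
    rw [e6, hG]
    unfold Z2V
    congr 1
    funext p q
    unfold Z2pc
    rw [map_sum, Finset.mul_sum]
    refine Finset.sum_congr rfl fun s _ => ?_
    rw [map_sum, Finset.mul_sum]
    refine Finset.sum_congr rfl fun t _ => ?_
    split_ifs with h
    · have h5 : β (s + t) = p + q := by
        rw [← h.1, ← h.2, map_add]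
        have : β s + u + (β t + u) = β s + β t + (u + u) := by abel
        rw [this, h2, add_zero]
      rw [h5]
    · simp
  have e1 : ∑ b, F4.c2 (aug (Z2nu a u b).1) * za b (fun v => f (β v)) w =
      za a (fun v => f (β v)) w := by
    rw [Finset.sum_eq_single a]
    · simp [Z2nu, Z2aug_single]
    · intro b _ hb
      simp [Z2nu, hb, Z2aug_zero]
    · simp
  have e2 : (fun b c => ftil f (Z2b β (BB w b c) * ((Z2nu a u b).1 * (Z2nu a u c).1))) =
      fun _ _ => 0 * 0 := by
    funext b c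
    by_cases hb : b = a
    · by_cases hcc : c = a
      · rw [hb, hcc, BB_T3_diag w hw hw']; simp [ftil]
      · simp [Z2nu, hcc, ftil]
    · simp [Z2nu, hb, ftil]
  rw [hc, hsum1, e1, e2, hsum_mul]
  simp

end Z2b

/-- Lemma 1.1 (general evaluation). -/
theorem z_eval {ι W : Type} [Fintype ι] [DecidableEq ι] [AddCommGroup W] [Fintype W]
    [DecidableEq W] (h2 : ∀ x : W, x + x = 0) (β : (ι → ZMod 2) →+ W)
    (σ : ι → LW W × (W → W → ZMod 2)) (hσ : ∀ a, IsNN (σ a).1 (σ a).2) (f : W → F4)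
    (hf : f 0 = 0) (w : FreeGroup ι) (hw : bar w = 0) (hw' : dd w = 0) :
    hsum (fun x y => f (x + y) * F4.c2 ((ngHom β σ w).c x y)) =
      ∑ a, F4.c2 (aug (σ a).1) * za a (fun u => f (β u)) w +
      hsum (fun a b => ftil f (AddMonoidAlgebra.mapDomainRingHom (ZMod 2) β (BB w a b) *
        ((σ a).1 * (σ b).1))) := by
  suffices H : ∀ (k : ℕ) (σ : ι → LW W × (W → W → ZMod 2)) (_ : ∀ a, IsNN (σ a).1 (σ a).2),
      (Finset.univ.filter (fun x : ι × W => (σ x.1).1.coeff x.2 ≠ 0)).card = k →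
        Z2P β f w σ by
    exact H _ σ hσ rfl
  intro k
  induction k with
  | zero =>
    intro σ hσ hk
    refine Z2P_central h2 β f w hw σ hσ fun a => ?_
    rw [Finset.card_eq_zero, Finset.filter_eq_empty_iff] at hk
    ext x
    have := hk (Finset.mem_univ (a, x))
    simp only [ne_eq, not_not] at this
    rw [this]; rfl
  | succ k ih =>
    intro σ hσ hk
    have hne : (Finset.univ.filter (fun x : ι × W => (σ x.1).1.coeff x.2 ≠ 0)).Nonempty := by
      rw [← Finset.card_pos]; omega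
    obtain ⟨⟨a, u⟩, hau⟩ := hne
    have hau1 : (σ a).1.coeff u = 1 := by
      have h3 := (Finset.mem_filter.1 hau).2
      simp only at h3
      revert h3
      generalize (σ a).1.coeff u = x
      revert x; decide
    set S' : LW W := (σ a).1 + AddMonoidAlgebra.single u 1 with hS'
    set P' : LW W × (W → W → ZMod 2) := (S', fun x y => (σ a).2 x y +
      (AddMonoidAlgebra.single u 1 : LW W).coeff x * S'.coeff y) with hP'
    set σ' : ι → LW W × (W → W → ZMod 2) := Function.update σ a P' with hσ'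
    have hSS : AddMonoidAlgebra.single u 1 + S' = (σ a).1 := by
      rw [hS', add_comm (σ a).1, ← add_assoc, NG.lw_add_self, zero_add]
    have hP'NN : IsNN P'.1 P'.2 := by
      intro x y hxy
      have h3 := hσ a x y hxy
      have h4 := Z2nu_isNN (W := W) a u a x y hxy
      have h5 : ∀ z, (σ a).1.coeff z = (AddMonoidAlgebra.single u 1 : LW W).coeff z + S'.coeff z := by
        intro z; rw [← hSS]; rfl
      simp only [Z2nu, if_true] at h4
      rw [h5 x, h5 y] at h3
      show ((σ a).2 x y + (AddMonoidAlgebra.single u 1 : LW W).coeff x * S'.coeff y) +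
        ((σ a).2 y x + (AddMonoidAlgebra.single u 1 : LW W).coeff y * S'.coeff x) =
        S'.coeff x * S'.coeff y
      have h20 : (2 : ZMod 2) = 0 := rfl
      linear_combination h3 - h4 + ((AddMonoidAlgebra.single u 1 : LW W).coeff x * S'.coeff y +
        (AddMonoidAlgebra.single u 1 : LW W).coeff y * S'.coeff x) * h20
    have hσ'NN : ∀ b, IsNN (σ' b).1 (σ' b).2 := by
      intro b
      by_cases hb : b = a
      · subst hb; rw [hσ', Function.update_self]; exact hP'NN
      · rw [hσ', Function.update_of_ne hb]; exact hσ b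
    have hprod : σ = fun b => Z2nn (Z2nu a u b) (σ' b) := by
      funext b
      by_cases hb : b = a
      · subst hb
        rw [hσ', Function.update_self]
        have h6 : (Z2nu b u b : LW W × (W → W → ZMod 2)) =
            (AddMonoidAlgebra.single u 1, fun _ _ => 0) := by simp [Z2nu]
        rw [h6]
        refine Prod.ext ?_ ?_
        · exact hSS.symm
        · funext x y
          show (σ b).2 x y = 0 + ((σ b).2 x y +
            (AddMonoidAlgebra.single u 1 : LW W).coeff x * S'.coeff y) +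
            (AddMonoidAlgebra.single u 1 : LW W).coeff x * S'.coeff y
          have h20 : (2 : ZMod 2) = 0 := rfl
          linear_combination (-(AddMonoidAlgebra.single u 1 : LW W).coeff x * S'.coeff y) * h20
      · rw [hσ', Function.update_of_ne hb]
        have h6 : (Z2nu a u b : LW W × (W → W → ZMod 2)) = (0, fun _ _ => 0) := by simp [Z2nu, hb]
        rw [h6]
        refine Prod.ext ?_ ?_
        · show (σ b).1 = 0 + (σ b).1
          rw [zero_add]
        · funext x y
          show (σ b).2 x y = 0 + (σ b).2 x y + (0 : LW W).coeff x * (σ b).1.coeff y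
          simp
    have hcard : (Finset.univ.filter (fun x : ι × W => (σ' x.1).1.coeff x.2 ≠ 0)).card = k := by
      have e : Finset.univ.filter (fun x : ι × W => (σ' x.1).1.coeff x.2 ≠ 0) =
          (Finset.univ.filter (fun x : ι × W => (σ x.1).1.coeff x.2 ≠ 0)).erase (a, u) := by
        ext ⟨b, x⟩
        simp only [Finset.mem_filter, Finset.mem_univ, true_and, Finset.mem_erase, ne_eq,
          Prod.mk.injEq]
        by_cases hb : b = a
        · subst hb
          rw [hσ', Function.update_self]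
          show ¬ (S'.coeff x = 0) ↔ _
          rw [hS', AddMonoidAlgebra.coeff_add, Finsupp.add_apply]
          by_cases hx : x = u
          · subst hx
            rw [hau1]
            simp
            decide
          · simp [AddMonoidAlgebra.coeff_single, hx]
        · rw [hσ', Function.update_of_ne hb]
          simp [hb]
      rw [e, Finset.card_erase_of_mem hau, hk]
      rfl
    rw [hprod]
    exact Z2P_mul h2 β f hf w hw hw' _ _ (Z2nu_isNN a u) hσ'NN
      (Z2P_nu h2 β f hf w hw hw' a u) (ih σ' hσ'NN hcard)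

end Pool.Agent.OH
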