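import Pool.Agent.OH.Z2
import Pool.Agent.OH.C1
import Pool.Agent.OH.H1

set_option autoImplicit false
set_option linter.unusedSectionVars false

namespace Pool.Agent.OH

namespace Z3aux

section gen
variable {ι κ : Type} [Fintype ι] [DecidableEq ι] [Fintype κ] [DecidableEq κ]

/-- `ftil f` as an additive hom. -/
noncomputable def ft (f : (ι → ZMod 2) → F4) : Lam ι →+ F4 where
  toFun S := ftil f S
  map_zero' := by simp [ftil]
  map_add' S S' := by
    unfold ftil
    rw [← Finset.sum_add_distrib]
    refine Finset.sum_congr rfl fun x _ => ?_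
    rw [AddMonoidAlgebra.coeff_add, Finsupp.add_apply, map_add, add_mul]

lemma ft_apply (f : (ι → ZMod 2) → F4) (S : Lam ι) : ft f S = ftil f S := rfl

lemma ft_single (f : (ι → ZMod 2) → F4) (u : ι → ZMod 2) (r : ZMod 2) :
    ft f (AddMonoidAlgebra.single u r) = F4.c2 r * f u := by
  rw [ft_apply]; unfold ftil
  rw [Finset.sum_eq_single u]
  · simp
  · intro b _ hb
    simp [AddMonoidAlgebra.coeff_single, Ne.symm hb]
  · simp

/-- `aug` as an additive hom. -/
noncomputable def au : Lam ι →+ ZMod 2 where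
  toFun S := aug S
  map_zero' := by simp [aug]
  map_add' S S' := by
    unfold aug
    rw [← Finset.sum_add_distrib]
    refine Finset.sum_congr rfl fun x _ => ?_
    rw [AddMonoidAlgebra.coeff_add, Finsupp.add_apply]

lemma au_apply (S : Lam ι) : au S = aug S := rfl

lemma au_single (u : ι → ZMod 2) (r : ZMod 2) :
    au (AddMonoidAlgebra.single u r : Lam ι) = r := by
  rw [au_apply]; unfold aug
  rw [Finset.sum_eq_single u]
  · simp
  · intro b _ hb
    simp [AddMonoidAlgebra.coeff_single, Ne.symm hb]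
  · simp

lemma au_map (β : (ι → ZMod 2) →+ (κ → ZMod 2)) (S : Lam ι) :
    au (AddMonoidAlgebra.mapDomainRingHom (ZMod 2) β S) = au S := by
  induction S using AddMonoidAlgebra.induction_linear with
  | zero => simp
  | add x y hx hy => rw [map_add, map_add, hx, hy, map_add]
  | single m r => simp [au_single]

lemma au_br_mul (u : ι → ZMod 2) (S : Lam ι) : au (br u * S) = au S := by
  induction S using AddMonoidAlgebra.induction_linear with
  | zero => simp
  | add x y hx hy => rw [mul_add, map_add, hx, hy, map_add]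
  | single m r => simp [au_single, br, AddMonoidAlgebra.single_mul_single]

lemma au_dd (w : FreeGroup ι) (a : ι) : au (dd w a) = bar w a := by
  have hmul : ∀ x y : FreeGroup ι, au (dd x a) = bar x a → au (dd y a) = bar y a →
      au (dd (x * y) a) = bar (x * y) a := by
    intro x y hx hy
    rw [dd_mul, map_add, au_br_mul, hx, hy, bar_mul, Pi.add_apply]
  induction w using FreeGroup.induction_on with
  | C1 => simp
  | of b =>
    rw [dd_of, bar_of]
    by_cases h : a = b
    · subst h
      rw [Pi.single_eq_same, Pi.single_eq_same]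
      exact au_single 0 1
    · rw [Pi.single_eq_of_ne h, Pi.single_eq_of_ne h, map_zero]
  | inv_of b ih => rw [dd_inv, au_br_mul, bar_inv, ih]
  | mul x y hx hy => exact hmul x y hx hy

end gen

lemma odd_smul (x : F4) (m : ℕ) : (3 ^ m : ℕ) • x = x := by
  have h2 : (2 : ℕ) • x = 0 := by rw [two_nsmul]; exact F4.add_self x
  obtain ⟨k, hk⟩ : Odd (3 ^ m : ℕ) := Odd.pow (by decide)
  rw [hk, add_nsmul, mul_nsmul, h2, smul_zero, zero_add, one_nsmul]

lemma hsum_zero {X : Type} [Fintype X] [DecidableEq X] :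
    hsum (fun _ _ : X => (0 : F4)) = 0 := by
  simp [hsum]

lemma hsum_sum {X Y : Type} [Fintype X] [DecidableEq X] (s : Finset Y)
    (G : Y → X → X → F4) : hsum (fun x y => ∑ k ∈ s, G k x y) = ∑ k ∈ s, hsum (G k) := by
  simp only [hsum]
  rw [Finset.sum_comm]

/-- A symmetric function on pairs whose sums along all `E_n`-orbits vanish has half sum `0`. -/
lemma hsum_orbit_zero {l n : ℕ} (G : Fin l × E n → Fin l × E n → F4)
    (hG : ∀ a b, G a b = G b a) (h : ∀ i j g, ∑ e, G (i, e) (j, e + g) = 0) : hsum G = 0 := by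
  have h1 : ∀ e : E n, hsum (fun a b : Fin l × E n => G (a.1, e + a.2) (b.1, e + b.2)) = hsum G := by
    intro e
    exact hsum_equiv (Equiv.prodCongr (Equiv.refl (Fin l)) (Equiv.addLeft e)) G hG
  have h2 : ∑ e : E n, hsum (fun a b : Fin l × E n => G (a.1, e + a.2) (b.1, e + b.2)) = hsum G := by
    rw [Finset.sum_congr rfl fun e _ => h1 e, Finset.sum_const, Finset.card_univ]
    have : Fintype.card (E n) = 3 ^ n := by simp [E, ZMod.card]
    rw [this, odd_smul]
  rw [← h2, ← hsum_sum]
  have h3 : (fun x y : Fin l × E n => ∑ k : E n, G (x.1, k + x.2) (y.1, k + y.2)) =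
      fun _ _ => (0 : F4) := by
    funext x y
    rw [← h x.1 y.1 (y.2 - x.2)]
    rw [← Equiv.sum_comp (Equiv.addRight x.2) (fun e => G (x.1, e) (y.1, e + (y.2 - x.2)))]
    refine Finset.sum_congr rfl fun k _ => ?_
    rw [Equiv.coe_addRight]
    have h4 : k + y.2 = k + x.2 + (y.2 - x.2) := by abel
    rw [h4]
  rw [h3, hsum_zero]

section orb
variable {l n l' n' : ℕ}

lemma ft_act (f : U l n → F4) (hinv : ∀ (e : E n) u, f (uact e u) = f u) (e : E n)
    (S : Lam (Fin l × E n)) : ft f (lbar (act e) S) = ft f S := by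
  induction S using AddMonoidAlgebra.induction_linear with
  | zero => simp
  | add x y hx hy => rw [map_add, map_add, hx, hy, map_add]
  | single m r =>
    have h : lbar (act e) (AddMonoidAlgebra.single m r : Lam (Fin l × E n)) =
        AddMonoidAlgebra.single (uact e m) r := by
      simp [lbar, uact]
    rw [h, ft_single, ft_single, hinv]

lemma map_lbar_act (ρ : E n →+ E n') (β : U l n →+ U l' n')
    (hβ : ∀ e u, β (uact e u) = uact (ρ e) (β u)) (e : E n) (S : Lam (Fin l × E n)) :
    lbar (act (ρ e)) (AddMonoidAlgebra.mapDomainRingHom (ZMod 2) β S) =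
      AddMonoidAlgebra.mapDomainRingHom (ZMod 2) β (lbar (act e) S) := by
  induction S using AddMonoidAlgebra.induction_linear with
  | zero => simp
  | add x y hx hy => simp only [map_add, hx, hy]
  | single m r =>
    have := hβ e m
    simp only [uact] at this
    simp [lbar, this]

/-- The pair sum in Lemma 1.2 vanishes. -/
lemma pair_sum_zero (ρ : E n →+ E n') (β : U l n →+ U l' n')
    (hβ : ∀ e u, β (uact e u) = uact (ρ e) (β u)) (w : T l n) (hw : w ∈ T4.S l n)
    (f : U l' n' → F4) (hinv : ∀ (e : E n') u, f (uact e u) = f u)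
    (S : Fin l → Lam (Fin l' × E n')) :
    hsum (fun a b : Fin l × E n => ftil f (AddMonoidAlgebra.mapDomainRingHom (ZMod 2) β (BB w a b) *
      (lbar (act (ρ a.2)) (S a.1) * lbar (act (ρ b.2)) (S b.1)))) = 0 := by
  rw [mem_T4] at hw
  obtain ⟨⟨hw1, hw2⟩, hw3⟩ := hw
  rw [mem_CC] at hw3
  refine hsum_orbit_zero _ ?_ ?_
  · intro a b
    rw [BB_T3_symm w hw1 hw2 a b, mul_comm (lbar (act (ρ a.2)) (S a.1))]
  · intro i j g
    have key : ∀ e : E n, ftil f (AddMonoidAlgebra.mapDomainRingHom (ZMod 2) β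
        (BB w (i, e) (j, e + g)) * (lbar (act (ρ e)) (S i) * lbar (act (ρ (e + g))) (S j))) =
        ft f (AddMonoidAlgebra.mapDomainRingHom (ZMod 2) β (lbar (act (-e))
          (BB w (i, e) (j, e + g))) * (S i * lbar (act (ρ g)) (S j))) := by
      intro e
      rw [← ft_act f hinv (ρ e) (AddMonoidAlgebra.mapDomainRingHom (ZMod 2) β (lbar (act (-e))
          (BB w (i, e) (j, e + g))) * (S i * lbar (act (ρ g)) (S j))),
        map_mul (lbar (act (ρ e))), map_lbar_act ρ β hβ, map_mul (lbar (act (ρ e))),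
        C1aux.lbar_act_act, C1aux.lbar_act_act, add_neg_cancel, ← map_add, ft_apply]
      have h0 : lbar (act (0 : E n)) (BB w (i, e) (j, e + g)) = BB w (i, e) (j, e + g) := by
        have h1 : (act (0 : E n) : T l n →* T l n) = MonoidHom.id _ := by ext1 p; simp
        rw [h1]
        have h2 : ubar (MonoidHom.id (T l n)) = AddMonoidHom.id (U l n) := by
          apply AddMonoidHom.ext
          intro u
          simp only [ubar, AddMonoidHom.coe_mk, ZeroHom.coe_mk, MonoidHom.id_apply, bar_of,
            AddMonoidHom.id_apply]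
          funext b
          simp [Finset.sum_apply, Pi.single_apply]
        simp [lbar, h2]
      rw [h0]
    rw [Finset.sum_congr rfl fun e _ => key e, ← map_sum, ← Finset.sum_mul, ← map_sum]
    have hF := hw3 i j g
    unfold F0 at hF
    rw [hF, map_zero, zero_mul, map_zero]

end orb

end Z3aux

open Z3aux

/-- First step of Lemma 1.2: on `T_4`, `z_{i,f}` is a single evaluation. -/
theorem zz_eval {l n : ℕ} (i : Fin l) (f : U l n → F4) (hf : f 0 = 0)
    (hinv : ∀ (e : E n) u, f (uact e u) = f u) (w : T l n) (hw : w ∈ T4.S l n) :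
    zz i f w = hsum (fun x y => f (x + y) * F4.c2 ((ngHom (AddMonoidHom.id (U l n))
      (fun b => (if b.1 = i then 1 else 0, fun _ _ => 0)) w).c x y)) := by
  have hw' := hw
  rw [mem_T4] at hw'
  obtain ⟨⟨hw1, hw2⟩, hw3⟩ := hw'
  have hσ : ∀ a : Fin l × E n, IsNN ((fun b : Fin l × E n =>
      ((if b.1 = i then 1 else 0 : Lam (Fin l × E n)), fun (_ _ : U l n) => (0 : ZMod 2))) a).1
      ((fun b : Fin l × E n =>
      ((if b.1 = i then 1 else 0 : Lam (Fin l × E n)), fun (_ _ : U l n) => (0 : ZMod 2))) a).2 := by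
    intro a x y hxy
    simp only []
    by_cases h : a.1 = i
    · rw [if_pos h, add_zero]
      have h1 : ∀ z : U l n, (1 : Lam (Fin l × E n)).coeff z = if z = 0 then 1 else 0 := by
        intro z
        have : (1 : Lam (Fin l × E n)) = AddMonoidAlgebra.single 0 1 := rfl
        rw [this, AddMonoidAlgebra.coeff_single, Finsupp.single_apply]
        simp only [eq_comm]
      rw [h1, h1]
      by_cases hx : x = 0
      · rw [if_neg (fun hy : y = 0 => hxy (by rw [hx, hy])), mul_zero]
      · rw [if_neg hx, zero_mul]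
    · rw [if_neg h]; simp
  rw [z_eval u_add_self (AddMonoidHom.id (U l n)) _ hσ f hf w hw1 hw2]
  have hp := pair_sum_zero (AddMonoidHom.id (E n)) (AddMonoidHom.id (U l n)) (fun _ _ => rfl) w hw
    f hinv (fun j => if j = i then 1 else 0)
  have hp2 : hsum (fun a b : Fin l × E n => ftil f (AddMonoidAlgebra.mapDomainRingHom (ZMod 2)
      (AddMonoidHom.id (U l n)) (BB w a b) *
      ((if a.1 = i then 1 else 0 : Lam (Fin l × E n)) * (if b.1 = i then 1 else 0)))) = 0 := by
    rw [← hp]
    congr 1
    funext a b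
    rw [apply_ite (lbar (act _)), map_one, map_zero, apply_ite (lbar (act _)), map_one, map_zero]
  simp only [] at hp2 ⊢
  rw [hp2, add_zero]
  unfold zz
  rw [Fintype.sum_prod_type]
  rw [Finset.sum_eq_single i]
  · refine Finset.sum_congr rfl fun e _ => ?_
    rw [if_pos rfl]
    have : aug (1 : Lam (Fin l × E n)) = 1 := by
      rw [← au_apply]; exact au_single 0 1
    rw [this, map_one, one_mul]
    rfl
  · intro j _ hj
    refine Finset.sum_eq_zero fun e _ => ?_
    rw [if_neg hj]
    have : aug (0 : Lam (Fin l × E n)) = 0 := by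
      rw [← au_apply, map_zero]
    rw [this, map_zero, zero_mul]
  · simp

/-- Lemma 1.2. -/
theorem z_nat {l n l' n' : ℕ} (ρ : E n →+ E n') (t : Fin l → T l' n') (w : T l n)
    (hw : w ∈ T4.S l n) (f' : U l' n' → F4) (hf' : f' 0 = 0)
    (hinv : ∀ (e : E n') u, f' (uact e u) = f' u) (i' : Fin l') :
    zz i' f' (thom ρ t w) =
      ∑ i, F4.c2 (cnt i' (t i)) * zz i (fun u => f' (ubar (thom ρ t) u)) w := by
  have hw' := hw
  rw [mem_T4] at hw'
  obtain ⟨⟨hw1, hw2⟩, hw3⟩ := hw'
  rw [zz_eval i' f' hf' hinv (thom ρ t w) (T4.thom_mem _ _ _ _ ρ t w hw)]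
  set σ' : Fin l' × E n' → Lam (Fin l' × E n') × (U l' n' → U l' n' → ZMod 2) :=
    fun b => (if b.1 = i' then 1 else 0, fun _ _ => 0) with hσ'
  have hσ'nn : ∀ a, IsNN (σ' a).1 (σ' a).2 := by
    intro a x y hxy
    simp only [hσ']
    by_cases h : a.1 = i'
    · rw [if_pos h, add_zero]
      have h1 : ∀ z : U l' n', (1 : Lam (Fin l' × E n')).coeff z = if z = 0 then 1 else 0 := by
        intro z
        have : (1 : Lam (Fin l' × E n')) = AddMonoidAlgebra.single 0 1 := rfl
        rw [this, AddMonoidAlgebra.coeff_single, Finsupp.single_apply]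
        simp only [eq_comm]
      rw [h1, h1]
      by_cases hx : x = 0
      · rw [if_neg (fun hy : y = 0 => hxy (by rw [hx, hy])), mul_zero]
      · rw [if_neg hx, zero_mul]
    · rw [if_neg h]; simp
  set σ : Fin l × E n → Lam (Fin l' × E n') × (U l' n' → U l' n' → ZMod 2) := fun p =>
    ((ngHom (AddMonoidHom.id (U l' n')) σ' (thom ρ t (FreeGroup.of p))).S,
      (ngHom (AddMonoidHom.id (U l' n')) σ' (thom ρ t (FreeGroup.of p))).c) with hσ
  have hcomp : (ngHom (AddMonoidHom.id (U l' n')) σ').comp (thom ρ t) =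
      ngHom (ubar (thom ρ t)) σ := by
    ext1 p
    rw [MonoidHom.comp_apply]
    apply NG.ext
    · simp [ngHom, hσ]
    · simp [ngHom, hσ]
    · rw [ngHom_w u_add_self, AddMonoidHom.id_apply, bar_map, bar_of]
      simp [ngHom]
  have hcw : ngHom (AddMonoidHom.id (U l' n')) σ' (thom ρ t w) = ngHom (ubar (thom ρ t)) σ w :=
    DFunLike.congr_fun hcomp w
  have hσnn : ∀ a, IsNN (σ a).1 (σ a).2 := by
    intro a
    exact ngHom_IsNN u_add_self (AddMonoidHom.id (U l' n')) σ' hσ'nn _
  rw [hcw, z_eval u_add_self (ubar (thom ρ t)) σ hσnn f' hf' w hw1 hw2]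
  obtain ⟨S, hS⟩ : ∃ S : Fin l → Lam (Fin l' × E n'), S = fun i => ∑ e' : E n', dd (t i) (i', e') :=
    ⟨_, rfl⟩
  have hσ1 : ∀ p : Fin l × E n, (σ p).1 = lbar (act (ρ p.2)) (S p.1) := by
    intro p
    have h1 : (σ p).1 = ∑ a, AddMonoidAlgebra.mapDomainRingHom (ZMod 2)
        (AddMonoidHom.id (U l' n')) (dd (thom ρ t (FreeGroup.of p)) a) * (σ' a).1 := by
      exact ngHom_S u_add_self (AddMonoidHom.id (U l' n')) σ' _
    rw [h1, Fintype.sum_prod_type, Finset.sum_eq_single i']
    · simp only [hσ', if_true, mul_one, hS, map_sum]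
      rw [← Equiv.sum_comp (Equiv.subRight (ρ p.2)) (fun e' => lbar (act (ρ p.2)) (dd (t p.1) (i', e')))]
      refine Finset.sum_congr rfl fun e' _ => ?_
      rw [thom_of, C1aux.dd_act, Equiv.subRight_apply]
      simp
    · intro j _ hj
      refine Finset.sum_eq_zero fun e _ => ?_
      simp [hσ', hj]
    · simp
  have hp := pair_sum_zero ρ (ubar (thom ρ t)) (fun e u => ubar_thom_uact ρ t e u) w hw
    f' hinv S
  have hp2 : hsum (fun a b : Fin l × E n => ftil f' (AddMonoidAlgebra.mapDomainRingHom (ZMod 2)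
      (ubar (thom ρ t)) (BB w a b) * ((σ a).1 * (σ b).1))) = 0 := by
    simp only [hσ1]
    exact hp
  rw [hp2, add_zero, Fintype.sum_prod_type]
  refine Finset.sum_congr rfl fun i _ => ?_
  unfold zz
  rw [Finset.mul_sum]
  refine Finset.sum_congr rfl fun e _ => ?_
  have haug : aug (σ (i, e)).1 = cnt i' (t i) := by
    rw [hσ1, ← au_apply]
    simp only [lbar]
    rw [au_map, hS]
    simp only [map_sum, au_dd]
    rfl
  rw [haug]

end Pool.Agent.OH
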