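import Pool.Agent.OH.Defs

set_option autoImplicit false
set_option linter.unusedSectionVars false

namespace Pool.Agent.OH

/-! # The z-part: definitions -/

/-- Sum over unordered pairs (only meaningful for symmetric `G`). -/
noncomputable def hsum {X : Type} [Fintype X] [DecidableEq X] (G : X → X → F4) : F4 :=
  ∑ s : Sym2 X, G (Quot.out s).1 (Quot.out s).2

section NG
variable {W : Type} [AddCommGroup W]

/-- The group algebra `F₂[W]`. -/
abbrev LW (W : Type) [AddCommGroup W] : Type := AddMonoidAlgebra (ZMod 2) W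

/-- Triples `(S, c, w)` with
`(S,c,w)(S',c',w') = (S + [w] S', c + c'(· - w, · - w) + S # [w] S', w + w')`. -/
@[ext] structure NG (W : Type) [AddCommGroup W] where
  S : LW W
  c : W → W → ZMod 2
  w : W

namespace NG

/-- Translation of `S ∈ F₂[W]`: multiplication by `[w]`. -/
noncomputable def sh (w : W) (S : LW W) : LW W := AddMonoidAlgebra.single w 1 * S

lemma sh_coeff (w : W) (S : LW W) (x : W) : (sh w S).coeff x = S.coeff (x - w) := by
  unfold sh
  rw [AddMonoidAlgebra.coeff_single_mul_apply, one_mul, neg_add_eq_sub]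

lemma lw_add_self (f : LW W) : f + f = 0 := by
  ext u; simp [zmod2_add_self]

noncomputable instance : One (NG W) := ⟨⟨0, 0, 0⟩⟩
noncomputable instance : Mul (NG W) :=
  ⟨fun a b => ⟨a.S + sh a.w b.S,
    fun x y => a.c x y + b.c (x - a.w) (y - a.w) + a.S.coeff x * b.S.coeff (y - a.w), a.w + b.w⟩⟩
noncomputable instance : Inv (NG W) :=
  ⟨fun a => ⟨sh (-a.w) a.S, fun x y => a.c (x + a.w) (y + a.w) +
    a.S.coeff (x + a.w) * a.S.coeff (y + a.w), -a.w⟩⟩

@[simp] lemma one_S : (1 : NG W).S = 0 := rfl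
@[simp] lemma one_c : (1 : NG W).c = 0 := rfl
@[simp] lemma one_w : (1 : NG W).w = 0 := rfl
lemma mul_S (a b : NG W) : (a * b).S = a.S + sh a.w b.S := rfl
lemma mul_c (a b : NG W) (x y : W) :
    (a * b).c x y = a.c x y + b.c (x - a.w) (y - a.w) + a.S.coeff x * b.S.coeff (y - a.w) := rfl
@[simp] lemma mul_w (a b : NG W) : (a * b).w = a.w + b.w := rfl
lemma inv_S (a : NG W) : (a⁻¹).S = sh (-a.w) a.S := rfl
lemma inv_c (a : NG W) (x y : W) : (a⁻¹).c x y = a.c (x + a.w) (y + a.w) +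
    a.S.coeff (x + a.w) * a.S.coeff (y + a.w) := rfl
@[simp] lemma inv_w (a : NG W) : (a⁻¹).w = -a.w := rfl

lemma sh_sh (v w : W) (S : LW W) : sh v (sh w S) = sh (v + w) S := by
  unfold sh; rw [← mul_assoc, AddMonoidAlgebra.single_mul_single, one_mul]

lemma sh_zero (S : LW W) : sh 0 S = S := by
  unfold sh
  have : (AddMonoidAlgebra.single 0 1 : LW W) = 1 := rfl
  rw [this, one_mul]

lemma sh_add (w : W) (S S' : LW W) : sh w (S + S') = sh w S + sh w S' := by
  unfold sh; rw [mul_add]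

noncomputable instance : Group (NG W) := Group.ofLeftAxioms
  (by
    intro a b c
    ext1
    · rw [mul_S, mul_S, mul_S, mul_S, sh_add, sh_sh, mul_w, add_assoc]
    · funext x y
      simp only [mul_c, mul_S, mul_w, AddMonoidAlgebra.coeff_add, Finsupp.add_apply, sh_coeff,
        sub_sub]
      ring
    · simp only [mul_w]; abel)
  (by
    intro a
    ext1
    · rw [mul_S]; simp [sh_zero]
    · funext x y; rw [mul_c]; simp
    · simp)
  (by
    intro a
    ext1
    · rw [mul_S, inv_S, inv_w, lw_add_self]; rfl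
    · funext x y
      simp only [mul_c, inv_c, inv_S, inv_w, sh_coeff, sub_neg_eq_add, one_c, Pi.zero_apply]
      calc a.c (x + a.w) (y + a.w) + a.S.coeff (x + a.w) * a.S.coeff (y + a.w) +
            a.c (x + a.w) (y + a.w) + a.S.coeff (x + a.w) * a.S.coeff (y + a.w)
          = (a.c (x + a.w) (y + a.w) + a.c (x + a.w) (y + a.w)) +
            (a.S.coeff (x + a.w) * a.S.coeff (y + a.w) +
              a.S.coeff (x + a.w) * a.S.coeff (y + a.w)) := by ring
        _ = 0 := by rw [zmod2_add_self, zmod2_add_self, add_zero]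
    · simp)

end NG

/-- The linear extension of `f : W → F₄` to `F₂[W]`. -/
noncomputable def ftil [Fintype W] (f : W → F4) (S : LW W) : F4 := ∑ x, F4.c2 (S.coeff x) * f x

end NG

section Z
variable {ι κ : Type} [Fintype ι] [DecidableEq ι] [Fintype κ] [DecidableEq κ]
variable {W : Type} [AddCommGroup W]

/-- The hom `F_ι → NG W`, `y_a ↦ (S_a, c_a, β(ȳ_a))`. -/
noncomputable def ngHom (β : (ι → ZMod 2) →+ W) (σ : ι → LW W × (W → W → ZMod 2)) :
    FreeGroup ι →* NG W :=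
  FreeGroup.lift fun a => ⟨(σ a).1, (σ a).2, β (Pi.single a 1)⟩

/-- `z_{a,f}(w)`. -/
noncomputable def za (a : ι) (f : (ι → ZMod 2) → F4) (w : FreeGroup ι) : F4 :=
  hsum fun x y => f (x + y) * F4.c2 ((ngHom (AddMonoidHom.id (ι → ZMod 2))
    (fun b => (if b = a then 1 else 0, fun _ _ => 0)) w).c x y)

/-- `z_{i,f}(w) = ∑_e z_{(i,e),f}(w)`. -/
noncomputable def zz {l n : ℕ} (i : Fin l) (f : U l n → F4) (w : T l n) : F4 :=
  ∑ e : E n, za (i, e) f w

/-- The number of letters `y_{i,*}` in a word, mod 2. -/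
noncomputable def cnt {l n : ℕ} (i : Fin l) (w : T l n) : ZMod 2 := ∑ e : E n, bar w (i, e)

end Z

/-! # Shapes and test functions -/

/-- The dot product pairing. -/
abbrev dot {n : ℕ} (v e : E n) : ZMod 3 := v ⬝ᵥ e

/-- A shape `(n, J, v, p)`. -/
structure Shape : Type 1 where
  n : ℕ
  J : Type
  fJ : Fintype J
  dJ : DecidableEq J
  v : J → E n
  hv : ∀ j, v j ≠ 0
  p : ℕ

attribute [instance] Shape.fJ Shape.dJ

/-- The module `U_s = F₄^J × F₂^p`. -/
abbrev Shape.W (s : Shape) : Type := (s.J → F4) × (Fin s.p → ZMod 2)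

/-- The action of `E_n` on `U_s`. -/
def sact (s : Shape) (e : E s.n) (x : s.W) : s.W :=
  (fun j => F4.chi (dot (s.v j) e) * x.1 j, x.2)

/-- `a ⊑ b`. -/
def sq (rk : ℕ → Ordinal.{0}) (a b : ℕ) : Prop := a ≤ b ∧ rk a ≤ rk b

/-- `D` is a down-set for `⊑`. -/
def IsDS (rk : ℕ → Ordinal.{0}) (D : Finset ℕ) : Prop := ∀ a ∈ D, ∀ b, sq rk b a → b ∈ D

/-- `max D + 1` (and `0` for `D = ∅`). -/
def mD (D : Finset ℕ) : ℕ := D.sup Nat.succ

/-- `N_D`. -/
def ND (D : Finset ℕ) : ℕ := 1 + 2 * mD D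

/-- Membership in `T_+` in terms of functionals `η, w_i, y_b`. -/
def Tp (rk : ℕ → Ordinal.{0}) (D : Finset ℕ) {V : Type} (η : V → ZMod 3) (w y : ℕ → V → ZMod 3)
    (v : V) : Prop :=
  η v = 1 ∧ ∃ a ∈ D, (∀ i < a, w i v = 0) ∧ w a v = 1 ∧ ∀ b ∈ D, sq rk b a → y b v = 0

/-- The `k`-th coordinate (0 if `k` is out of range). -/
def co {N : ℕ} (v : E N) (k : ℕ) : ZMod 3 := if h : k < N then v ⟨k, h⟩ else 0

/-- The pattern `T_D ⊂ V_D`. -/
def TD (rk : ℕ → Ordinal.{0}) (D : Finset ℕ) : Set (E (ND D)) :=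
  {v | Tp rk D (fun v => co v 0) (fun i v => co v (1 + i)) (fun b v => co v (1 + mD D + b)) v ∨
    Tp rk D (fun v => co v 0) (fun i v => co v (1 + i)) (fun b v => co v (1 + mD D + b)) (-v)}

open Classical in
/-- The shape of `U_D`. -/
noncomputable def shapeD (rk : ℕ → Ordinal.{0}) (D : Finset ℕ) : Shape where
  n := ND D
  J := {v : E (ND D) // v ≠ 0 ∧ v ∉ TD rk D}
  fJ := inferInstance
  dJ := inferInstance
  v := fun j => j.1
  hv := fun j => j.2.1
  p := 1

/-- `λ_D(u_0, (u_v)) = u_0 ∏ u_v³`. -/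
noncomputable def lamD (rk : ℕ → Ordinal.{0}) (D : Finset ℕ) (x : (shapeD rk D).W) : F4 :=
  F4.c2 (x.2 ⟨0, Nat.one_pos⟩) * ∏ j, x.1 j ^ 3

/-- `D_X(n,W)` for a general `W` with action `a` of `E_n`. -/
noncomputable def DXgen (rk : ℕ → Ordinal.{0}) (X : Set (Finset ℕ)) (n : ℕ) (W : Type)
    [AddCommGroup W] (a : E n → W → W) : Submodule F4 (W → F4) :=
  Submodule.span F4 {f | ∃ D ∈ X, ∃ (ρ : E n →+ E (ND D)) (φ : W →+ (shapeD rk D).W),
    (∀ e x, φ (a e x) = sact (shapeD rk D) (ρ e) (φ x)) ∧ f = fun x => lamD rk D (φ x)}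

/-- `D_X(n, U_s)`. -/
noncomputable def DX (rk : ℕ → Ordinal.{0}) (X : Set (Finset ℕ)) (s : Shape) :
    Submodule F4 (s.W → F4) := DXgen rk X s.n s.W (sact s)

/-- The action of `E_n` on `U(l,n)`. -/
noncomputable def uact {l n : ℕ} (e : E n) : U l n → U l n := ubar (act e)

/-- `D_X(n, U(l,n))`. -/
noncomputable def DXU (rk : ℕ → Ordinal.{0}) (X : Set (Finset ℕ)) (l n : ℕ) :
    Submodule F4 (U l n → F4) := DXgen rk X n (U l n) uact

end Pool.Agent.OH
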